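import Pool.Agent.Lib.MP_e63cf8_mp.StmC

/-! # Piece A1: the solutions outside `[0,n]` -/

open Polynomial Filter Topology MeasureTheory Asymptotics

namespace HillRoots

theorem p_A1_sup (S : Set ℤ) (x : ℤ → ℂ) (m ν W : ℝ) (hm : 0 < m) (hνm : ν ≤ m)
    (hb : ∃ C : ℝ, ∀ s, ‖x s‖ ≤ C)
    (h : ∀ B : ℝ, 0 ≤ B → (∀ t ∈ S, ‖x t‖ ≤ B) → ∀ s ∈ S, 2 * m * ‖x s‖ ≤ ν * B + W) :
    ∀ s ∈ S, ‖x s‖ ≤ W / m := by
  intro s hs
  obtain ⟨C, hC⟩ := hb
  have hbdd : BddAbove ((fun t => ‖x t‖) '' S) := ⟨C, by rintro _ ⟨t, -, rfl⟩; exact hC t⟩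
  set B := sSup ((fun t => ‖x t‖) '' S) with hB
  have hle : ∀ t ∈ S, ‖x t‖ ≤ B := fun t ht => le_csSup hbdd ⟨t, ht, rfl⟩
  have hB0 : 0 ≤ B := (norm_nonneg _).trans (hle s hs)
  have h1 := h B hB0 hle
  have h2 : 2 * m * B ≤ ν * B + W := by
    have h3 : B ≤ (ν * B + W) / (2 * m) := by
      refine csSup_le ⟨_, s, hs, rfl⟩ ?_
      rintro _ ⟨t, ht, rfl⟩
      rw [le_div_iff₀ (by positivity)]
      have := h1 t ht
      simp only
      linarith
    rw [le_div_iff₀ (by positivity)] at h3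
    linarith
  have h3 : m * B ≤ W := by nlinarith
  rw [le_div_iff₀ hm]
  nlinarith [hle s hs]

theorem p_A1_vop (P Q : ℂ[X]) (x : ℤ → ℂ) (s : ℤ) (B : ℝ)
    (h1 : ∀ j : ℕ, j ≤ P.natDegree → ‖x (s - j)‖ ≤ B)
    (h2 : ∀ j : ℕ, j ≤ Q.natDegree → ‖x (s + j)‖ ≤ B) : ‖Vop P Q x s‖ ≤ nu P Q * B := by
  unfold Vop nu
  rw [add_mul, Finset.sum_mul, Finset.sum_mul]
  refine (norm_add_le _ _).trans (add_le_add ?_ ?_)
  · refine (norm_sum_le _ _).trans (Finset.sum_le_sum fun j hj => ?_)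
    rw [norm_mul]
    exact mul_le_mul_of_nonneg_left (h1 j (by simpa [Nat.lt_succ_iff] using hj)) (norm_nonneg _)
  · refine (norm_sum_le _ _).trans (Finset.sum_le_sum fun j hj => ?_)
    rw [norm_mul]
    exact mul_le_mul_of_nonneg_left (h2 j (by simpa [Nat.lt_succ_iff] using hj)) (norm_nonneg _)

theorem p_A1_nu (P Q : ℂ[X]) : 0 ≤ nu P Q :=
  add_nonneg (Finset.sum_nonneg fun _ _ => norm_nonneg _)
    (Finset.sum_nonneg fun _ _ => norm_nonneg _)

/-- growth of the weights -/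
theorem p_A1_w (M : ℕ) (c : ℂ) (g : ℂ → ℂ) (n : ℕ) (C τ₀ : ℝ) (hC : 0 ≤ C)
    (hh1 : ∀ s, s + 1 < n → ‖hh M c n (s + 1)‖ ≤ C * ‖hh M c n s‖)
    (ht : ∀ k, k < n → tau M n k ∈ Set.Icc 0 τ₀)
    (hu : ∀ t ∈ Set.Icc 0 τ₀, ‖br M c g 0 t‖ ≤ 2) (a b : ℕ) (hab : a ≤ b) (hb : b < n) :
    ‖hh M c n b‖ * GG M c g n b ≤ (2 * C) ^ (b - a) * (‖hh M c n a‖ * GG M c g n a) := by
  have hG : ∀ k, 0 ≤ GG M c g n k := fun k => Finset.prod_nonneg fun _ _ => norm_nonneg _
  induction b, hab using Nat.le_induction with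
  | base => simp
  | succ b hab ih =>
    have ih := ih (by omega)
    have e1 : GG M c g n (b + 1) = GG M c g n b * ‖br M c g 0 (tau M n (b + 1))‖ := by
      unfold GG
      rw [Finset.prod_Icc_succ_top (by omega)]
    have e2 : b + 1 - a = (b - a) + 1 := by omega
    have h1 := hh1 b hb
    have h2 := hu _ (ht (b + 1) hb)
    rw [e1, e2, pow_succ]
    calc ‖hh M c n (b + 1)‖ * (GG M c g n b * ‖br M c g 0 (tau M n (b + 1))‖)
        ≤ (C * ‖hh M c n b‖) * (GG M c g n b * 2) := by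
          refine mul_le_mul h1 (mul_le_mul_of_nonneg_left h2 (hG b))
            (mul_nonneg (hG b) (norm_nonneg _)) (by positivity)
      _ = 2 * C * (‖hh M c n b‖ * GG M c g n b) := by ring
      _ ≤ 2 * C * ((2 * C) ^ (b - a) * (‖hh M c n a‖ * GG M c g n a)) :=
          mul_le_mul_of_nonneg_left ih (by positivity)
      _ = _ := by ring

theorem p_A1 (hH1 : S_H1) (hH3 : S_H3) (hU1 : S_U1) : S_A1 := by
  intro P Q c g τ₀ K δ Z hB
  have hM := hB.ld.hM
  set M := P.natDegree with hMd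
  set J := Q.natDegree with hJd
  obtain ⟨C, hC1, hev⟩ := hH3 M J c hM hB.c0
  have hν := p_A1_nu P Q
  set ν := nu P Q with hνd
  have hC0 : (0 : ℝ) ≤ C := by linarith
  have h2C : (1 : ℝ) ≤ 2 * C := by linarith
  refine ⟨ν * (2 * C) ^ J + ν * (2 * C) ^ M + 1, by positivity, ?_⟩
  filter_upwards [hev, hU1 M τ₀ hM hB.ld.ht, eventually_ge_atTop (M + J + 1),
    eventually_ge_atTop ⌈Z⌉₊, eventually_ge_atTop ⌈ν⌉₊] with n hn ht hnMJ hnZ hnν
  intro z γ Φ A φ x hz hΦ hA hS hF hW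
  have hnZ' : Z ≤ n := (Nat.le_ceil Z).trans (by exact_mod_cast hnZ)
  have hnν' : ν ≤ n := (Nat.le_ceil ν).trans (by exact_mod_cast hnν)
  have hn0 : (0 : ℝ) < n := by
    have : 0 < n := by omega
    exact_mod_cast this
  have hupp : ∀ t ∈ Set.Icc 0 τ₀, ‖br M c g 0 t‖ ≤ 2 := hB.ld.upp 0 (by omega)
  have hw := p_A1_w M c g n C τ₀ hC0 hn.1 ht hupp
  have hw0 : ‖hh M c n 0‖ * GG M c g n 0 = 1 := by
    rw [(hH1 M n c hM hB.c0 (by omega)).1]
    simp [GG]
  have hwn : ∀ k, 0 ≤ ‖hh M c n k‖ * GG M c g n k := fun k =>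
    mul_nonneg (norm_nonneg _) (Finset.prod_nonneg fun _ _ => norm_nonneg _)
  -- the equation
  have hE : ∀ s : ℤ, (s < 0 ∨ (n : ℤ) < s) → 2 * (n : ℝ) * ‖x s‖ ≤ ‖Vop P Q x s + φ s‖ := by
    intro s hs
    have h1 := hS.eqn s (by omega) (by omega)
    rw [← h1, norm_mul]
    refine mul_le_mul_of_nonneg_right ?_ (norm_nonneg _)
    have h2 : 4 * ((n : ℝ) + 1) ≤ |En n s| := by
      unfold En
      rcases hs with hs | hs
      · have h3 : (s : ℝ) ≤ -1 := by exact_mod_cast (by omega : s ≤ -1)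
        rw [abs_of_nonpos (by nlinarith)]
        nlinarith
      · have h3 : (n : ℝ) + 1 ≤ s := by exact_mod_cast (by omega : (n : ℤ) + 1 ≤ s)
        rw [abs_of_nonpos (by nlinarith)]
        nlinarith
    have h3 : ‖(En n s : ℂ)‖ = |En n s| := by rw [Complex.norm_real, Real.norm_eq_abs]
    have h4 : ‖(En n s : ℂ)‖ ≤ ‖(En n s : ℂ) + z‖ + ‖z‖ := by
      calc ‖(En n s : ℂ)‖ = ‖((En n s : ℂ) + z) - z‖ := by congr 1; ring
        _ ≤ _ := norm_sub_le _ _
    rw [h3] at h4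
    linarith
  constructor
  · -- negative indices
    intro s hs
    have key := p_A1_sup {s : ℤ | s < 0} x n ν (ν * (A * (2 * C) ^ J) + Φ) hn0 hnν' hS.bdd (by
      intro B hB0 hBt s hs
      have hD : 0 ≤ A * (2 * C) ^ J := by positivity
      have h1 := hE s (Or.inl hs)
      have h2 : ‖Vop P Q x s‖ ≤ ν * (B + A * (2 * C) ^ J) := by
        refine p_A1_vop P Q x s _ ?_ ?_
        · intro j _
          have : s - (j : ℤ) < 0 := by
            have : s < 0 := hs
            omega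
          linarith [hBt _ this]
        · intro j hj
          rcases lt_or_ge (s + (j : ℤ)) 0 with h3 | h3
          · linarith [hBt _ h3]
          · obtain ⟨i, hi⟩ := Int.eq_ofNat_of_zero_le h3
            have hs' : s < 0 := hs
            have hiJ : i < J := by omega
            rw [hi]
            have h4 := hW i (by omega)
            have h5 := hw 0 i (Nat.zero_le _) (by omega)
            rw [hw0, mul_one, Nat.sub_zero] at h5
            have h6 : (2 * C) ^ i ≤ (2 * C) ^ J := pow_le_pow_right₀ h2C hiJ.le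
            have h7 : ‖x (i : ℤ)‖ ≤ A * (2 * C) ^ J :=
              h4.trans (mul_le_mul_of_nonneg_left (h5.trans h6) hA)
            linarith
      have h3 := hF.2.1 s hs
      have h4 := norm_add_le (Vop P Q x s) (φ s)
      linarith)
    have h1 := key s hs
    refine h1.trans ?_
    rw [div_mul_eq_mul_div]
    refine div_le_div_of_nonneg_right ?_ hn0.le
    have h2 : 0 ≤ ν * (2 * C) ^ J := by positivity
    have h3 : 0 ≤ ν * (2 * C) ^ M := by positivity
    nlinarith [mul_nonneg h2 hΦ, mul_nonneg h3 hA, mul_nonneg h3 hΦ]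
  · -- indices above `n`
    intro s hs
    set w := ‖hh M c n (n - M)‖ * GG M c g n (n - M) with hwd
    have hw' : 0 ≤ w := hwn _
    have key := p_A1_sup {s : ℤ | (n : ℤ) < s} x n ν ((ν * (A * (2 * C) ^ M) + Φ) * w) hn0 hnν'
      hS.bdd (by
      intro B hB0 hBt s hs
      have hD : 0 ≤ A * (2 * C) ^ M * w := by positivity
      have hs' : (n : ℤ) < s := hs
      have h1 := hE s (Or.inr hs')
      have h2 : ‖Vop P Q x s‖ ≤ ν * (B + A * (2 * C) ^ M * w) := by
        refine p_A1_vop P Q x s _ ?_ ?_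
        · intro j hj
          rcases lt_or_ge (n : ℤ) (s - (j : ℤ)) with h3 | h3
          · linarith [hBt _ h3]
          · rcases eq_or_lt_of_le h3 with h4 | h4
            · rw [h4, hS.top, norm_zero]
              positivity
            · obtain ⟨i, hi⟩ := Int.eq_ofNat_of_zero_le (by omega : 0 ≤ s - (j : ℤ))
              rw [hi]
              have h5 := hW i (by omega)
              have h6 := hw (n - M) i (by omega) (by omega)
              have h7 : (2 * C) ^ (i - (n - M)) ≤ (2 * C) ^ M := pow_le_pow_right₀ h2C (by omega)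
              have h8 : ‖x (i : ℤ)‖ ≤ A * ((2 * C) ^ M * w) :=
                h5.trans (mul_le_mul_of_nonneg_left
                  (h6.trans (mul_le_mul_of_nonneg_right h7 hw')) hA)
              linarith
        · intro j _
          have : (n : ℤ) < s + (j : ℤ) := by omega
          linarith [hBt _ this]
      have h3 := hF.2.2 s hs'
      have h4 := norm_add_le (Vop P Q x s) (φ s)
      linarith)
    have h1 := key s hs
    refine h1.trans ?_
    rw [div_mul_eq_mul_div, div_mul_eq_mul_div]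
    refine div_le_div_of_nonneg_right ?_ hn0.le
    refine mul_le_mul_of_nonneg_right ?_ hw'
    have h2 : 0 ≤ ν * (2 * C) ^ J := by positivity
    have h3 : 0 ≤ ν * (2 * C) ^ M := by positivity
    nlinarith [mul_nonneg h2 hΦ, mul_nonneg h3 hΦ, mul_nonneg h2 hA]

end HillRoots
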