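import Pool.Agent.Lib.MP_e63cf8_mp.StmC

/-! # Piece A3: the main estimate -/

open Polynomial Filter Topology MeasureTheory Asymptotics

namespace HillRoots

theorem p_A3_nV (M n : ℕ) : 0 ≤ ∑ k ∈ Finset.Icc 1 (n - 1), |tau M n k - tau M n (k - 1)| :=
  Finset.sum_nonneg fun _ _ => abs_nonneg _

theorem p_A3 (hH1 : S_H1) (hH4 : S_H4) (hU1 : S_U1) (hU2 : S_U2) (hL4 : S_L4) (hA1 : S_A1)
    (hA2 : S_A2) : S_A3 := by
  intro P Q c g τ₀ K δ Z hP0 hQ0 hB
  have hM := hB.ld.hM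
  obtain ⟨CL, hCL, hL⟩ := hL4 _ _ _ _ _ _ hB.ld
  obtain ⟨C1, hC1, hA1'⟩ := hA1 P Q c g τ₀ K δ Z hB
  obtain ⟨ρ, hρ, hA2'⟩ := hA2 P Q c g τ₀ K δ Z hP0 hQ0 hB
  have hVt := hU2 P.natDegree hM
  have hDt := hH4 P c hB.c0
  set V : ℕ → ℝ := fun n => ∑ k ∈ Finset.Icc 1 (n - 1),
    |tau P.natDegree n k - tau P.natDegree n (k - 1)| with hV
  set D : ℕ → ℝ := fun n => ∑ s ∈ Finset.Icc 1 (n - 1), ∑ j ∈ Finset.Ico 1 P.natDegree,
    ‖ff P c n s j - P.coeff j / c ^ j * (tau P.natDegree n s : ℂ) ^ (P.natDegree - j)‖ with hD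
  have hV0 : ∀ n, 0 ≤ V n := fun n => Finset.sum_nonneg fun _ _ => abs_nonneg _
  have hD0 : ∀ n, 0 ≤ D n := fun n => Finset.sum_nonneg fun _ _ =>
    Finset.sum_nonneg fun _ _ => norm_nonneg _
  have hρa : Tendsto (fun n => |ρ n|) atTop (𝓝 0) := by simpa using hρ.abs
  have hinv : Tendsto (fun n : ℕ => 3 * C1 / (n : ℝ)) atTop (𝓝 0) :=
    tendsto_const_div_atTop_nhds_zero_nat _
  refine ⟨fun n => CL * (3 * |ρ n| + V n + D n) + 3 * C1 / n, ?_, ?_⟩
  · have h1 := (((hρa.const_mul 3).add hVt).add hDt).const_mul CL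
    have h2 := h1.add hinv
    simpa using h2
  have e1 : ∀ᶠ n in atTop, CL * |ρ n| < 1 / 4 := by
    have h1 := hρa.const_mul CL
    rw [mul_zero] at h1
    exact h1.eventually_lt_const (by norm_num)
  have e2 : ∀ᶠ n in atTop, CL * (V n + D n) < 1 / 4 := by
    have h1 := (hVt.add hDt).const_mul CL
    rw [add_zero, mul_zero] at h1
    exact h1.eventually_lt_const (by norm_num)
  have e3 : ∀ᶠ n in atTop, V n < 1 := hVt.eventually_lt_const (by norm_num)
  have e4 : ∀ᶠ n in atTop, D n < 1 := hDt.eventually_lt_const (by norm_num)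
  filter_upwards [e1, e2, e3, e4, hA1', hA2', hU1 P.natDegree τ₀ hM hB.ld.ht,
    eventually_ge_atTop 1] with n e1 e2 e3 e4 hA1n hA2n ht hn1
  intro z γ Φ φ x hz hΦ hS hF
  obtain ⟨h1a, h1b, -⟩ := hH1 P.natDegree n c hM hB.c0 hn1
  set G : ℕ → ℝ := GG P.natDegree c g n with hG
  have hbr : ∀ k, k < n → 0 < ‖br P.natDegree c g 0 (tau P.natDegree n k)‖ := by
    intro k hk
    have := hB.ld.low 0 (by omega) _ (ht k hk)
    linarith
  have hGpos : ∀ s, s < n → 0 < G s := by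
    intro s hs
    refine Finset.prod_pos fun i hi => ?_
    rw [Finset.mem_Icc] at hi
    exact hbr i (by omega)
  have hwpos : ∀ s, s < n → 0 < ‖hh P.natDegree c n s‖ * G s := fun s hs =>
    mul_pos (norm_pos_iff.2 (h1b s hs)) (hGpos s hs)
  -- the maximum
  obtain ⟨s₀, hs₀, hmax⟩ := Finset.exists_max_image (Finset.range n)
    (fun s => ‖x (s : ℤ)‖ / (‖hh P.natDegree c n s‖ * G s)) ⟨0, Finset.mem_range.2 (by omega)⟩
  rw [Finset.mem_range] at hs₀
  set A : ℝ := ‖x (s₀ : ℤ)‖ / (‖hh P.natDegree c n s₀‖ * G s₀) with hAd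
  have hA0 : 0 ≤ A := div_nonneg (norm_nonneg _) (hwpos s₀ hs₀).le
  have hW : Wbd P c g n A x := by
    intro s hs
    have := hmax s (Finset.mem_range.2 hs)
    rwa [div_le_iff₀ (hwpos s hs)] at this
  obtain ⟨u, r, hu0, hu, hrec, hr⟩ := hA2n z γ Φ A φ x hz hΦ hA0 hS hF hW
  have hux : ∀ s : ℕ, s < n → x s = hh P.natDegree c n s * u s := by
    intro s hs
    rw [hu s hs, mul_div_cancel₀ _ (h1b s hs)]
  have hu00 : u 0 = γ := by
    have h1 := hu 0 (by omega)
    rw [h1a, div_one] at h1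
    have h2 := hS.zero
    rw [← h2]
    exact_mod_cast h1
  have htau0 : tau P.natDegree n 0 = 0 := by
    unfold tau
    rw [Nat.cast_zero, mul_zero, zero_mul]
    refine Real.zero_rpow ?_
    have : (0 : ℝ) < P.natDegree := by exact_mod_cast hM
    have h2 : 0 < 1 / (P.natDegree : ℝ) := by positivity
    linarith
  have hest : ∀ s : ℕ, s < n → ‖u s - γ * yy P.natDegree c g n s‖ ≤
      CL * G s * (|ρ n| * (A + Φ) + ‖γ‖ * (V n + D n)) := by
    intro s hs
    have h1 := hL (n - 1) (tau P.natDegree n) (ff P c n) u r γ (V n) (D n) htau0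
      (fun k hk => ht k (by omega)) le_rfl e3.le le_rfl e4.le hu0 hu00
      (fun k hk1 hk2 => hrec k hk1 (by omega)) s (by omega)
    refine h1.trans ?_
    refine mul_le_mul_of_nonneg_left ?_ (mul_nonneg hCL.le (hGpos s hs).le)
    refine add_le_add ?_ le_rfl
    have h2 : ∑ i ∈ Finset.Icc 1 s, ‖r i‖ / G i ≤ ∑ i ∈ Finset.Icc 1 (n - 1), ‖r i‖ / G i := by
      refine Finset.sum_le_sum_of_subset_of_nonneg ?_ ?_
      · intro i hi
        rw [Finset.mem_Icc] at hi ⊢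
        omega
      · intro i hi _
        rw [Finset.mem_Icc] at hi
        exact div_nonneg (norm_nonneg _) (hGpos i (by omega)).le
    have h3 : ρ n * (A + Φ) ≤ |ρ n| * (A + Φ) :=
      mul_le_mul_of_nonneg_right (le_abs_self _) (by positivity)
    exact (h2.trans hr).trans h3
  have hyG : ∀ s : ℕ, s < n → ‖yy P.natDegree c g n s‖ ≤ G s := by
    intro s hs
    unfold yy
    have hMR : (0 : ℝ) < P.natDegree := by exact_mod_cast hM
    rw [norm_mul, norm_div, norm_one, Complex.norm_natCast]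
    have h1 : ‖∑ l ∈ Finset.range P.natDegree, ∏ i ∈ Finset.Icc 1 s,
        br P.natDegree c g l (tau P.natDegree n i)‖ ≤ P.natDegree * G s := by
      refine (norm_sum_le _ _).trans ?_
      calc _ ≤ ∑ l ∈ Finset.range P.natDegree, G s := by
            refine Finset.sum_le_sum fun l hl => ?_
            rw [Finset.mem_range] at hl
            rw [norm_prod]
            refine Finset.prod_le_prod (fun _ _ => norm_nonneg _) fun i hi => ?_
            rw [Finset.mem_Icc] at hi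
            exact hB.ld.dom l hl _ (ht i (by omega))
        _ = _ := by simp
    calc 1 / (P.natDegree : ℝ) * _ ≤ 1 / (P.natDegree : ℝ) * (P.natDegree * G s) :=
          mul_le_mul_of_nonneg_left h1 (by positivity)
      _ = G s := by field_simp
  -- the bound for `A`
  have hγ := norm_nonneg γ
  have hAb : A ≤ 2 * (‖γ‖ + Φ) := by
    have h1 := hest s₀ hs₀
    have h2 := hyG s₀ hs₀
    have h3 : ‖u s₀‖ ≤ G s₀ * (‖γ‖ + CL * (|ρ n| * (A + Φ) + ‖γ‖ * (V n + D n))) := by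
      calc ‖u s₀‖ = ‖(u s₀ - γ * yy P.natDegree c g n s₀) + γ * yy P.natDegree c g n s₀‖ := by
            congr 1; ring
        _ ≤ ‖u s₀ - γ * yy P.natDegree c g n s₀‖ + ‖γ * yy P.natDegree c g n s₀‖ :=
            norm_add_le _ _
        _ ≤ CL * G s₀ * (|ρ n| * (A + Φ) + ‖γ‖ * (V n + D n)) + ‖γ‖ * G s₀ := by
            rw [norm_mul]
            exact add_le_add h1 (mul_le_mul_of_nonneg_left h2 hγ)
        _ = _ := by ring
    have h4 : A ≤ ‖γ‖ + CL * (|ρ n| * (A + Φ) + ‖γ‖ * (V n + D n)) := by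
      have hAw : A * (‖hh P.natDegree c n s₀‖ * G s₀) = ‖x (s₀ : ℤ)‖ :=
        div_mul_cancel₀ _ (hwpos s₀ hs₀).ne'
      refine le_of_mul_le_mul_right ?_ (hwpos s₀ hs₀)
      rw [hAw]
      have hxu : ‖x (s₀ : ℤ)‖ = ‖hh P.natDegree c n s₀‖ * ‖u s₀‖ := by
        rw [hux s₀ hs₀, norm_mul]
      rw [hxu]
      calc ‖hh P.natDegree c n s₀‖ * ‖u s₀‖ ≤ ‖hh P.natDegree c n s₀‖ *
            (G s₀ * (‖γ‖ + CL * (|ρ n| * (A + Φ) + ‖γ‖ * (V n + D n)))) :=
            mul_le_mul_of_nonneg_left h3 (norm_nonneg _)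
        _ = _ := by ring
    have h5 : CL * (|ρ n| * (A + Φ)) ≤ 1 / 4 * (A + Φ) := by
      rw [← mul_assoc]
      exact mul_le_mul_of_nonneg_right e1.le (by positivity)
    have h6 : CL * (‖γ‖ * (V n + D n)) ≤ 1 / 4 * ‖γ‖ := by
      calc CL * (‖γ‖ * (V n + D n)) = (CL * (V n + D n)) * ‖γ‖ := by ring
        _ ≤ _ := mul_le_mul_of_nonneg_right e2.le hγ
    rw [mul_add] at h4
    linarith
  have hn0 : (0 : ℝ) < n := by exact_mod_cast hn1
  have hρ0 : 0 ≤ CL * (3 * |ρ n| + V n + D n) := by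
    have := hV0 n
    have := hD0 n
    positivity
  have hi0 : 0 ≤ 3 * C1 / (n : ℝ) := by positivity
  obtain ⟨hA1a, hA1b⟩ := hA1n z γ Φ A φ x hz hΦ hA0 hS hF hW
  have hout : C1 / n * (A + Φ) ≤ (CL * (3 * |ρ n| + V n + D n) + 3 * C1 / n) * (‖γ‖ + Φ) := by
    have h1 : C1 / n * (A + Φ) ≤ C1 / n * (3 * (‖γ‖ + Φ)) :=
      mul_le_mul_of_nonneg_left (by linarith) (by positivity)
    have h2 : 0 ≤ CL * (3 * |ρ n| + V n + D n) * (‖γ‖ + Φ) := mul_nonneg hρ0 (by positivity)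
    calc C1 / n * (A + Φ) ≤ C1 / n * (3 * (‖γ‖ + Φ)) := h1
      _ = 3 * C1 / n * (‖γ‖ + Φ) := by ring
      _ ≤ _ := by linarith
  refine ⟨?_, ?_, ?_⟩
  · intro s hs
    have h1 := hest s hs
    have e5 : x s - γ * hh P.natDegree c n s * yy P.natDegree c g n s =
        hh P.natDegree c n s * (u s - γ * yy P.natDegree c g n s) := by
      rw [hux s hs]
      ring
    rw [e5, norm_mul]
    have h2 : |ρ n| * (A + Φ) + ‖γ‖ * (V n + D n) ≤ (3 * |ρ n| + V n + D n) * (‖γ‖ + Φ) := by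
      have h3 : |ρ n| * (A + Φ) ≤ |ρ n| * (3 * (‖γ‖ + Φ)) :=
        mul_le_mul_of_nonneg_left (by linarith) (abs_nonneg _)
      have h4 : 0 ≤ (V n + D n) * Φ := mul_nonneg (add_nonneg (hV0 n) (hD0 n)) hΦ
      nlinarith
    calc ‖hh P.natDegree c n s‖ * ‖u s - γ * yy P.natDegree c g n s‖
        ≤ ‖hh P.natDegree c n s‖ * (CL * G s * ((3 * |ρ n| + V n + D n) * (‖γ‖ + Φ))) := by
          refine mul_le_mul_of_nonneg_left (h1.trans ?_) (norm_nonneg _)
          exact mul_le_mul_of_nonneg_left h2 (mul_nonneg hCL.le (hGpos s hs).le)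
      _ = (CL * (3 * |ρ n| + V n + D n)) * (‖γ‖ + Φ) * (‖hh P.natDegree c n s‖ * G s) := by ring
      _ ≤ _ := by
          refine mul_le_mul_of_nonneg_right ?_ (hwpos s hs).le
          refine mul_le_mul_of_nonneg_right ?_ (by positivity)
          linarith
  · intro s hs
    exact (hA1a s hs).trans hout
  · intro s hs
    refine (hA1b s hs).trans (mul_le_mul_of_nonneg_right hout ?_)
    exact mul_nonneg (norm_nonneg _) (Finset.prod_nonneg fun _ _ => norm_nonneg _)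

end HillRoots
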