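import Pool.Agent.Lib.MP_e63cf8_mp.StmA

/-!
# MP_e63cf8_mp, piece B0: `Vop` is a bounded operator
-/

set_option autoImplicit false

open Polynomial Filter Topology MeasureTheory Asymptotics
open scoped ContDiff

namespace HillRoots

theorem p_B0_two : (0 : ℝ) < (2 : ENNReal).toReal := by norm_num

theorem p_B0_mem (k : ℤ) (x : Hs) : Memℓp (fun s : ℤ => x (s + k)) 2 := by
  have hx := (memℓp_gen_iff p_B0_two).1 (lp.memℓp x)
  refine (memℓp_gen_iff p_B0_two).2 ?_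
  exact ((Equiv.addRight k).summable_iff (f := fun s : ℤ => ‖x s‖ ^ (2 : ENNReal).toReal)).2 hx

/-- the shift as a linear map -/
noncomputable def p_B0_shL (k : ℤ) : Hs →ₗ[ℂ] Hs where
  toFun x := ⟨fun s : ℤ => x (s + k), p_B0_mem k x⟩
  map_add' x y := by ext s; rfl
  map_smul' c x := by ext s; rfl

theorem p_B0_norm (k : ℤ) (x : Hs) : ‖p_B0_shL k x‖ = ‖x‖ := by
  rw [lp.norm_eq_tsum_rpow p_B0_two, lp.norm_eq_tsum_rpow p_B0_two]
  congr 1
  exact (Equiv.addRight k).tsum_eq (fun s : ℤ => ‖x s‖ ^ (2 : ENNReal).toReal)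

/-- the shift as a bounded operator -/
noncomputable def p_B0_sh (k : ℤ) : Hs →L[ℂ] Hs :=
  (p_B0_shL k).mkContinuous 1 fun x => by rw [p_B0_norm, one_mul]

theorem p_B0_sh_apply (k : ℤ) (x : Hs) (s : ℤ) : (p_B0_sh k x : ℤ → ℂ) s = x (s + k) := rfl

theorem p_B0_sh_norm (k : ℤ) (x : Hs) : ‖p_B0_sh k x‖ = ‖x‖ := p_B0_norm k x

theorem p_B0 : S_B0 := by
  intro P Q
  refine ⟨∑ j ∈ Finset.range (P.natDegree + 1), P.coeff j • p_B0_sh (-(j : ℤ)) +
    ∑ j ∈ Finset.range (Q.natDegree + 1), Q.coeff j • p_B0_sh (j : ℤ), ?_, ?_⟩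
  · intro x s
    have e : (∑ j ∈ Finset.range (P.natDegree + 1), P.coeff j • p_B0_sh (-(j : ℤ)) +
        ∑ j ∈ Finset.range (Q.natDegree + 1), Q.coeff j • p_B0_sh (j : ℤ)) x =
        ∑ j ∈ Finset.range (P.natDegree + 1), P.coeff j • p_B0_sh (-(j : ℤ)) x +
        ∑ j ∈ Finset.range (Q.natDegree + 1), Q.coeff j • p_B0_sh (j : ℤ) x := by
      simp
    rw [e, lp.coeFn_add, Pi.add_apply, lp.coeFn_sum, lp.coeFn_sum, Finset.sum_apply,
      Finset.sum_apply]
    unfold Vop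
    congr 1
  · intro x
    have e : (∑ j ∈ Finset.range (P.natDegree + 1), P.coeff j • p_B0_sh (-(j : ℤ)) +
        ∑ j ∈ Finset.range (Q.natDegree + 1), Q.coeff j • p_B0_sh (j : ℤ)) x =
        ∑ j ∈ Finset.range (P.natDegree + 1), P.coeff j • p_B0_sh (-(j : ℤ)) x +
        ∑ j ∈ Finset.range (Q.natDegree + 1), Q.coeff j • p_B0_sh (j : ℤ) x := by
      simp
    rw [e]
    refine (norm_add_le _ _).trans ?_
    unfold nu
    rw [add_mul, Finset.sum_mul, Finset.sum_mul]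
    refine add_le_add ?_ ?_
    · refine (norm_sum_le _ _).trans (Finset.sum_le_sum fun j _ => ?_)
      rw [norm_smul, p_B0_sh_norm]
    · refine (norm_sum_le _ _).trans (Finset.sum_le_sum fun j _ => ?_)
      rw [norm_smul, p_B0_sh_norm]

end HillRoots
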