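import Pool.Agent.Lib.MP_e63cf8_mp.StmA

/-! # Piece B1: invariant columns of one block -/

open Polynomial Filter Topology MeasureTheory Asymptotics
open scoped ContDiff

namespace HillRoots

/-- multiplication of the coordinates by a bounded sequence -/
theorem p_B1_mul (g : ℤ → ℂ) (C : ℝ) (hC : 0 ≤ C) (hg : ∀ i, ‖g i‖ ≤ C) :
    ∃ G : Hs →L[ℂ] Hs, (∀ (x : Hs) (i : ℤ), (G x : ℤ → ℂ) i = g i * x i) ∧
      ∀ x, ‖G x‖ ≤ C * ‖x‖ := by
  have hp : (0 : ℝ) < (2 : ENNReal).toReal := by simp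
  have key : ∀ (x : Hs) (s : Finset ℤ), ∑ i ∈ s, ‖g i * x i‖ ^ (2 : ENNReal).toReal ≤
      (C * ‖x‖) ^ (2 : ENNReal).toReal := by
    intro x s
    have h1 := lp.sum_rpow_le_norm_rpow hp x s
    calc ∑ i ∈ s, ‖g i * x i‖ ^ (2 : ENNReal).toReal
        ≤ ∑ i ∈ s, C ^ (2 : ENNReal).toReal * ‖x i‖ ^ (2 : ENNReal).toReal := by
          refine Finset.sum_le_sum fun i _ => ?_
          rw [← Real.mul_rpow hC (norm_nonneg _)]
          refine Real.rpow_le_rpow (norm_nonneg _) ?_ hp.le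
          rw [norm_mul]
          exact mul_le_mul_of_nonneg_right (hg i) (norm_nonneg _)
      _ = C ^ (2 : ENNReal).toReal * ∑ i ∈ s, ‖x i‖ ^ (2 : ENNReal).toReal := by
          rw [Finset.mul_sum]
      _ ≤ C ^ (2 : ENNReal).toReal * ‖x‖ ^ (2 : ENNReal).toReal :=
          mul_le_mul_of_nonneg_left h1 (Real.rpow_nonneg hC _)
      _ = (C * ‖x‖) ^ (2 : ENNReal).toReal := (Real.mul_rpow hC (norm_nonneg _)).symm
  have hm : ∀ x : Hs, Memℓp (fun i => g i * x i) 2 := fun x => memℓp_gen' (key x)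
  let G₀ : Hs →ₗ[ℂ] Hs :=
    { toFun := fun x => ⟨fun i => g i * x i, hm x⟩
      map_add' := by
        intro x y
        ext i
        simp only [lp.coeFn_add, Pi.add_apply]
        ring
      map_smul' := by
        intro c x
        ext i
        simp only [lp.coeFn_smul, Pi.smul_apply, smul_eq_mul, RingHom.id_apply]
        ring }
  have hG : ∀ x, ‖G₀ x‖ ≤ C * ‖x‖ := fun x =>
    lp.norm_le_of_forall_sum_le hp (mul_nonneg hC (norm_nonneg _)) (key x)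
  exact ⟨G₀.mkContinuous C hG, fun x i => rfl, hG⟩

theorem p_B1_sum (u : Hs) (b : Finset ℤ) : ∑ l ∈ b, ‖u l‖ ≤ Real.sqrt b.card * ‖u‖ := by
  have hp : (0 : ℝ) < (2 : ENNReal).toReal := by simp
  have h1 : ∑ l ∈ b, ‖u l‖ ^ 2 ≤ ‖u‖ ^ 2 := by
    have := lp.sum_rpow_le_norm_rpow hp u b
    simpa using this
  have h2 : (∑ l ∈ b, ‖u l‖) ^ 2 ≤ b.card * ∑ l ∈ b, ‖u l‖ ^ 2 := sq_sum_le_card_mul_sum_sq
  have h3 : (∑ l ∈ b, ‖u l‖) ^ 2 ≤ (Real.sqrt b.card * ‖u‖) ^ 2 := by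
    rw [mul_pow, Real.sq_sqrt (Nat.cast_nonneg _)]
    exact h2.trans (mul_le_mul_of_nonneg_left h1 (Nat.cast_nonneg _))
  exact le_of_sq_le_sq h3 (by positivity)

theorem p_B1_nu (P Q : ℂ[X]) : 0 ≤ nu P Q :=
  add_nonneg (Finset.sum_nonneg fun _ _ => norm_nonneg _)
    (Finset.sum_nonneg fun _ _ => norm_nonneg _)

theorem p_B1_ee (j i : ℤ) : (ee j : ℤ → ℂ) i = if i = j then 1 else 0 := by
  unfold ee
  rw [lp.single_apply, Pi.single_apply]

theorem p_B1_norm_ee (j : ℤ) : ‖ee j‖ = 1 := by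
  unfold ee
  rw [lp.norm_single (by norm_num)]
  simp

/-- the fixed point -/
theorem p_B1_fix (b : Finset ℤ) (hb : b.Nonempty) (ν γ : ℝ) (hν : 0 ≤ ν) (hγ : 0 < γ)
    (hνγ : 8 * ν * Real.sqrt b.card ≤ γ) (V : Hs →L[ℂ] Hs) (hV : ∀ x, ‖V x‖ ≤ ν * ‖x‖)
    (G : ℤ → Hs →L[ℂ] Hs) (hG : ∀ j ∈ b, ∀ x, ‖G j x‖ ≤ 1 / γ * ‖x‖) :
    ∃ X : ℤ → Hs, (∀ j ∈ b, ‖X j‖ ≤ 2 * ν / γ) ∧
      ∀ j ∈ b, X j = G j (-(V (ee j + X j)) + ∑ l ∈ b, (V (ee j + X j) : ℤ → ℂ) l • X l) := by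
  classical
  have hn1 : 1 ≤ Real.sqrt b.card := by
    rw [Real.one_le_sqrt]
    exact_mod_cast hb.card_pos
  have hνγ' : ν / γ ≤ 1 / 8 := by
    rw [div_le_iff₀ hγ]
    nlinarith [mul_nonneg hν (sub_nonneg.2 hn1)]
  have hx : ν * Real.sqrt b.card / γ ≤ 1 / 8 := by
    rw [div_le_iff₀ hγ]
    linarith
  have hνn : 0 ≤ ν / γ := div_nonneg hν hγ.le
  let F : ({j // j ∈ b} → Hs) → ({j // j ∈ b} → Hs) := fun X j =>
    G j (-(V (ee j + X j)) + ∑ l : {j // j ∈ b}, (V (ee j + X j) : ℤ → ℂ) l • X l)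
  have hlip : ∀ X X' : {j // j ∈ b} → Hs, ‖X‖ ≤ 1 → ‖X'‖ ≤ 1 →
      ‖F X - F X'‖ ≤ 1 / 2 * ‖X - X'‖ := by
    intro X X' hX hX'
    refine (pi_norm_le_iff_of_nonneg (by positivity)).2 fun j => ?_
    have hd : ‖X j - X' j‖ ≤ ‖X - X'‖ := norm_le_pi_norm (X - X') j
    have hdl : ∀ l, ‖X l - X' l‖ ≤ ‖X - X'‖ := fun l => norm_le_pi_norm (X - X') l
    have hXl : ∀ l, ‖X l‖ ≤ 1 := fun l => (norm_le_pi_norm X l).trans hX
    have hXl' : ∀ l, ‖X' l‖ ≤ 1 := fun l => (norm_le_pi_norm X' l).trans hX'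
    have e1 : F X j - F X' j = G j (-(V (X j - X' j)) +
        ∑ l : {j // j ∈ b}, ((V (X j - X' j) : ℤ → ℂ) l • X l +
          (V (ee j + X' j) : ℤ → ℂ) l • (X l - X' l))) := by
      simp only [F]
      rw [← map_sub]
      congr 1
      have e2 : ∀ l : {j // j ∈ b}, (V (X j - X' j) : ℤ → ℂ) l • X l +
          (V (ee j + X' j) : ℤ → ℂ) l • (X l - X' l) =
          (V (ee j + X j) : ℤ → ℂ) l • X l - (V (ee j + X' j) : ℤ → ℂ) l • X' l := by
        intro l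
        have e3 : (V (X j - X' j) : ℤ → ℂ) l = (V (ee j + X j) : ℤ → ℂ) l -
            (V (ee j + X' j) : ℤ → ℂ) l := by
          have e4 : V (X j - X' j) = V (ee j + X j) - V (ee j + X' j) := by
            rw [← map_sub]
            congr 1
            abel
          rw [e4, lp.coeFn_sub, Pi.sub_apply]
        rw [e3, sub_smul, smul_sub]
        abel
      rw [Finset.sum_congr rfl fun l _ => e2 l, Finset.sum_sub_distrib]
      simp only [map_add, map_sub]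
      abel
    show ‖F X j - F X' j‖ ≤ _
    rw [e1]
    have b1 : ‖V (X j - X' j)‖ ≤ ν * ‖X - X'‖ :=
      (hV _).trans (mul_le_mul_of_nonneg_left hd hν)
    have b2 : ‖V (ee j + X' j)‖ ≤ ν * 2 := by
      refine (hV _).trans (mul_le_mul_of_nonneg_left ?_ hν)
      refine (norm_add_le _ _).trans ?_
      rw [p_B1_norm_ee]
      linarith [hXl' j]
    have b3 : ∑ l : {j // j ∈ b}, ‖(V (X j - X' j) : ℤ → ℂ) l‖ ≤
        Real.sqrt b.card * (ν * ‖X - X'‖) := by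
      rw [Finset.sum_coe_sort b (fun l => ‖(V (X j - X' j) : ℤ → ℂ) l‖)]
      exact (p_B1_sum _ _).trans (mul_le_mul_of_nonneg_left b1 (Real.sqrt_nonneg _))
    have b4 : ∑ l : {j // j ∈ b}, ‖(V (ee j + X' j) : ℤ → ℂ) l‖ ≤
        Real.sqrt b.card * (ν * 2) := by
      rw [Finset.sum_coe_sort b (fun l => ‖(V (ee j + X' j) : ℤ → ℂ) l‖)]
      exact (p_B1_sum _ _).trans (mul_le_mul_of_nonneg_left b2 (Real.sqrt_nonneg _))
    have b5 : ‖∑ l : {j // j ∈ b}, ((V (X j - X' j) : ℤ → ℂ) l • X l +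
          (V (ee j + X' j) : ℤ → ℂ) l • (X l - X' l))‖ ≤
        Real.sqrt b.card * (ν * ‖X - X'‖) + Real.sqrt b.card * (ν * 2) * ‖X - X'‖ := by
      refine (norm_sum_le _ _).trans ?_
      calc ∑ l : {j // j ∈ b}, ‖(V (X j - X' j) : ℤ → ℂ) l • X l +
          (V (ee j + X' j) : ℤ → ℂ) l • (X l - X' l)‖
          ≤ ∑ l : {j // j ∈ b}, (‖(V (X j - X' j) : ℤ → ℂ) l‖ +
            ‖(V (ee j + X' j) : ℤ → ℂ) l‖ * ‖X - X'‖) := by
            refine Finset.sum_le_sum fun l _ => ?_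
            refine (norm_add_le _ _).trans ?_
            rw [norm_smul, norm_smul]
            refine add_le_add ?_ (mul_le_mul_of_nonneg_left (hdl l) (norm_nonneg _))
            calc _ ≤ ‖(V (X j - X' j) : ℤ → ℂ) l‖ * 1 :=
                  mul_le_mul_of_nonneg_left (hXl l) (norm_nonneg _)
              _ = _ := mul_one _
        _ = ∑ l : {j // j ∈ b}, ‖(V (X j - X' j) : ℤ → ℂ) l‖ +
            (∑ l : {j // j ∈ b}, ‖(V (ee j + X' j) : ℤ → ℂ) l‖) * ‖X - X'‖ := by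
            rw [Finset.sum_add_distrib, Finset.sum_mul]
        _ ≤ _ := add_le_add b3 (mul_le_mul_of_nonneg_right b4 (norm_nonneg _))
    have b6 := hG j j.2 (-(V (X j - X' j)) +
        ∑ l : {j // j ∈ b}, ((V (X j - X' j) : ℤ → ℂ) l • X l +
          (V (ee j + X' j) : ℤ → ℂ) l • (X l - X' l)))
    have b7 : ‖-(V (X j - X' j)) +
        ∑ l : {j // j ∈ b}, ((V (X j - X' j) : ℤ → ℂ) l • X l +
          (V (ee j + X' j) : ℤ → ℂ) l • (X l - X' l))‖ ≤ ν * ‖X - X'‖ +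
        (Real.sqrt b.card * (ν * ‖X - X'‖) + Real.sqrt b.card * (ν * 2) * ‖X - X'‖) := by
      refine (norm_add_le _ _).trans ?_
      rw [norm_neg]
      exact add_le_add b1 b5
    have hD : 0 ≤ ‖X - X'‖ := norm_nonneg _
    calc _ ≤ 1 / γ * (ν * ‖X - X'‖ +
        (Real.sqrt b.card * (ν * ‖X - X'‖) + Real.sqrt b.card * (ν * 2) * ‖X - X'‖)) :=
          b6.trans (mul_le_mul_of_nonneg_left b7 (by positivity))
      _ = (ν / γ + 3 * (ν * Real.sqrt b.card / γ)) * ‖X - X'‖ := by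
          field_simp
          ring
      _ ≤ 1 / 2 * ‖X - X'‖ := by
          refine mul_le_mul_of_nonneg_right ?_ hD
          linarith
  have hF0 : ‖F 0‖ ≤ ν / γ := by
    refine (pi_norm_le_iff_of_nonneg hνn).2 fun j => ?_
    have e1 : F 0 j = G j (-(V (ee j))) := by
      simp only [F, Pi.zero_apply, add_zero, smul_zero, Finset.sum_const_zero]
    rw [e1]
    refine (hG j j.2 _).trans ?_
    rw [norm_neg]
    have := hV (ee j)
    rw [p_B1_norm_ee, mul_one] at this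
    calc 1 / γ * ‖V (ee j)‖ ≤ 1 / γ * ν := mul_le_mul_of_nonneg_left this (by positivity)
      _ = ν / γ := by ring
  have hFn : ∀ X, ‖X‖ ≤ 1 → ‖F X‖ ≤ ν / γ + 1 / 2 * ‖X‖ := by
    intro X hX
    have h1 := hlip X 0 hX (by simp)
    rw [sub_zero] at h1
    calc ‖F X‖ = ‖F 0 + (F X - F 0)‖ := by congr 1; abel
      _ ≤ ‖F 0‖ + ‖F X - F 0‖ := norm_add_le _ _
      _ ≤ _ := add_le_add hF0 h1
  have hmaps : Set.MapsTo F (Metric.closedBall 0 1) (Metric.closedBall 0 1) := by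
    intro X hX
    rw [mem_closedBall_zero_iff] at hX ⊢
    have := hFn X hX
    linarith
  have hcontr : ContractingWith (1 / 2 : NNReal)
      (hmaps.restrict F (Metric.closedBall 0 1) (Metric.closedBall 0 1)) := by
    refine ⟨by rw [← NNReal.coe_lt_coe]; norm_num, LipschitzWith.of_dist_le_mul ?_⟩
    rintro ⟨X, hX⟩ ⟨X', hX'⟩
    rw [mem_closedBall_zero_iff] at hX hX'
    have h1 := hlip X X' hX hX'
    rw [Subtype.dist_eq, Subtype.dist_eq, dist_eq_norm, dist_eq_norm]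
    simpa using h1
  obtain ⟨X, hXm, hXf, -⟩ := hcontr.exists_fixedPoint' (x := 0)
    Metric.isClosed_closedBall.isComplete hmaps (by simp) (edist_ne_top _ _)
  rw [mem_closedBall_zero_iff] at hXm
  have hXe : F X = X := hXf
  have hXn : ‖X‖ ≤ 2 * ν / γ := by
    have := hFn X hXm
    rw [hXe] at this
    have e : 2 * ν / γ = 2 * (ν / γ) := by ring
    rw [e]
    linarith
  refine ⟨fun j => if h : j ∈ b then X ⟨j, h⟩ else 0, ?_, ?_⟩
  · intro j hj
    simp only [dif_pos hj]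
    exact (norm_le_pi_norm X _).trans hXn
  · intro j hj
    simp only [dif_pos hj]
    have e1 : X ⟨j, hj⟩ = F X ⟨j, hj⟩ := by rw [hXe]
    conv_lhs => rw [e1]
    simp only [F]
    congr 2
    rw [← Finset.sum_coe_sort b]
    refine Finset.sum_congr rfl fun l _ => ?_
    rw [dif_pos l.2]

theorem p_B1 (hB0 : S_B0) : S_B1 := by
  classical
  intro P Q b γ hγ hb hνγ
  obtain ⟨V, hV, hVn⟩ := hB0 P Q
  have hν := p_B1_nu P Q
  rcases b.eq_empty_or_nonempty with rfl | hne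
  · exact ⟨0, by simp, by simp, by simp⟩
  have hmul : ∀ j : ℤ, ∃ G : Hs →L[ℂ] Hs, j ∈ b → ((∀ (x : Hs) (i : ℤ), (G x : ℤ → ℂ) i =
      (if i ∈ b then 0 else (1 / (4 * (i : ℂ) ^ 2 - 4 * (j : ℂ) ^ 2))) * x i) ∧
      ∀ x, ‖G x‖ ≤ 1 / γ * ‖x‖) := by
    intro j
    by_cases hj : j ∈ b
    · obtain ⟨G, h1, h2⟩ := p_B1_mul
        (fun i => if i ∈ b then 0 else (1 / (4 * (i : ℂ) ^ 2 - 4 * (j : ℂ) ^ 2))) (1 / γ)
        (by positivity) (by
          intro i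
          by_cases hi : i ∈ b
          · simp only [if_pos hi, norm_zero]
            positivity
          · simp only [if_neg hi]
            rw [norm_div, norm_one]
            refine one_div_le_one_div_of_le hγ ?_
            have h3 := hb i hi j hj
            have e : (4 * (i : ℂ) ^ 2 - 4 * (j : ℂ) ^ 2) =
                ((4 * (i : ℝ) ^ 2 - 4 * (j : ℝ) ^ 2 : ℝ) : ℂ) := by push_cast; ring
            rw [e, Complex.norm_real, Real.norm_eq_abs]
            exact h3)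
      exact ⟨G, fun _ => ⟨h1, h2⟩⟩
    · exact ⟨0, fun h => absurd h hj⟩
  choose G hG using hmul
  obtain ⟨X, hX1, hX2⟩ := p_B1_fix b hne (nu P Q) γ hν hγ hνγ V hVn G
    (fun j hj => (hG j hj).2)
  have hX0 : ∀ j ∈ b, ∀ i ∈ b, (X j : ℤ → ℂ) i = 0 := by
    intro j hj i hi
    rw [hX2 j hj, (hG j hj).1, if_pos hi, zero_mul]
  refine ⟨X, hX0, hX1, ?_⟩
  intro j hj s
  have hVs : ∀ l, Vop P Q (ee j + X j) l = (V (ee j + X j) : ℤ → ℂ) l := by
    intro l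
    rw [hV]
    rfl
  unfold Top
  rw [hVs]
  simp only [hVs, Pi.add_apply]
  by_cases hs : s ∈ b
  · rw [hX0 j hj s hs]
    have e1 : ∑ l ∈ b, (V (ee j + X j) : ℤ → ℂ) l * ((ee l : ℤ → ℂ) s + (X l : ℤ → ℂ) s) =
        (V (ee j + X j) : ℤ → ℂ) s := by
      rw [Finset.sum_eq_single s]
      · rw [hX0 s hs s hs, p_B1_ee]
        simp
      · intro l hl hls
        rw [hX0 l hl s hs, p_B1_ee, if_neg hls.symm]
        simp
      · intro h
        exact absurd hs h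
    rw [e1, p_B1_ee]
    by_cases hsj : s = j
    · subst hsj
      simp
    · rw [if_neg hsj]
      simp
  · have hsj : s ≠ j := fun h => hs (h ▸ hj)
    have hne0 : (4 * (s : ℂ) ^ 2 - 4 * (j : ℂ) ^ 2) ≠ 0 := by
      have h3 := hb s hs j hj
      intro h0
      have e : (4 * (s : ℂ) ^ 2 - 4 * (j : ℂ) ^ 2) =
          ((4 * (s : ℝ) ^ 2 - 4 * (j : ℝ) ^ 2 : ℝ) : ℂ) := by push_cast; ring
      rw [e, Complex.ofReal_eq_zero] at h0
      rw [h0, abs_zero] at h3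
      linarith
    have e0 : (X j : ℤ → ℂ) s = (1 / (4 * (s : ℂ) ^ 2 - 4 * (j : ℂ) ^ 2)) *
        (-((V (ee j + X j) : ℤ → ℂ) s) + ∑ l ∈ b, (V (ee j + X j) : ℤ → ℂ) l * (X l : ℤ → ℂ) s) := by
      conv_lhs => rw [hX2 j hj]
      rw [(hG j hj).1, if_neg hs, lp.coeFn_add, lp.coeFn_neg, lp.coeFn_sum, Pi.add_apply,
        Pi.neg_apply, Finset.sum_apply]
      simp only [lp.coeFn_smul, Pi.smul_apply, smul_eq_mul]
    have e1 : ∑ l ∈ b, (V (ee j + X j) : ℤ → ℂ) l * ((ee l : ℤ → ℂ) s + (X l : ℤ → ℂ) s) =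
        ∑ l ∈ b, (V (ee j + X j) : ℤ → ℂ) l * (X l : ℤ → ℂ) s := by
      refine Finset.sum_congr rfl fun l hl => ?_
      have hsl : s ≠ l := fun h => hs (h ▸ hl)
      rw [p_B1_ee, if_neg hsl, zero_add]
    rw [e1, p_B1_ee, if_neg hsj, zero_add]
    have e2 : (4 * (s : ℂ) ^ 2 - 4 * (j : ℂ) ^ 2) * (X j : ℤ → ℂ) s =
        -((V (ee j + X j) : ℤ → ℂ) s) + ∑ l ∈ b, (V (ee j + X j) : ℤ → ℂ) l * (X l : ℤ → ℂ) s := by
      conv_lhs => rw [e0]
      rw [← mul_assoc, mul_one_div_cancel hne0, one_mul]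
    linear_combination e2

end HillRoots
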