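import Pool.Agent.Lib.MP_e63cf8_mp.StmA

/-! # Piece B2: quadratically small perturbations of the standard basis -/

open Polynomial Filter Topology MeasureTheory Asymptotics
open scoped ContDiff

namespace HillRoots

theorem p_B2_ee (j i : ℤ) : (ee j : ℤ → ℂ) i = if i = j then 1 else 0 := by
  unfold ee
  rw [lp.single_apply, Pi.single_apply]

theorem p_B2_sq (a : Hs) (s : Finset ℤ) : ∑ i ∈ s, ‖(a : ℤ → ℂ) i‖ ^ 2 ≤ ‖a‖ ^ 2 := by
  have hp : (0 : ℝ) < (2 : ENNReal).toReal := by simp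
  have := lp.sum_rpow_le_norm_rpow hp a s
  simpa using this

theorem p_B2_fin (X : ℤ → Hs) (hs : Summable (fun j => ‖X j‖ ^ 2)) (h4 : ∑' j, ‖X j‖ ^ 2 ≤ 1 / 4)
    (a : Hs) (s : Finset ℤ) : ∑ i ∈ s, ‖(a : ℤ → ℂ) i • X i‖ ≤ 1 / 2 * ‖a‖ := by
  have h1 : ∑ i ∈ s, ‖X i‖ ^ 2 ≤ 1 / 4 :=
    (hs.sum_le_tsum s fun i _ => by positivity).trans h4
  have h2 := p_B2_sq a s
  have h3 : (∑ i ∈ s, ‖(a : ℤ → ℂ) i‖ * ‖X i‖) ^ 2 ≤
      (∑ i ∈ s, ‖(a : ℤ → ℂ) i‖ ^ 2) * ∑ i ∈ s, ‖X i‖ ^ 2 := Finset.sum_mul_sq_le_sq_mul_sq _ _ _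
  have h4 : (∑ i ∈ s, ‖(a : ℤ → ℂ) i‖ * ‖X i‖) ^ 2 ≤ (1 / 2 * ‖a‖) ^ 2 := by
    refine h3.trans ?_
    calc (∑ i ∈ s, ‖(a : ℤ → ℂ) i‖ ^ 2) * ∑ i ∈ s, ‖X i‖ ^ 2 ≤ ‖a‖ ^ 2 * (1 / 4) :=
          mul_le_mul h2 h1 (Finset.sum_nonneg fun _ _ => by positivity) (by positivity)
      _ = (1 / 2 * ‖a‖) ^ 2 := by ring
  have h5 := le_of_sq_le_sq h4 (by positivity)
  refine le_trans (le_of_eq ?_) h5
  exact Finset.sum_congr rfl fun i _ => norm_smul _ _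

theorem p_B2 : S_B2 := by
  classical
  intro X hs h4
  have hfin := p_B2_fin X hs h4
  have hsumN : ∀ a : Hs, Summable (fun i => ‖(a : ℤ → ℂ) i • X i‖) := fun a =>
    summable_of_sum_le (fun _ => norm_nonneg _) (hfin a)
  have hsum : ∀ a : Hs, Summable (fun i => (a : ℤ → ℂ) i • X i) := fun a => (hsumN a).of_norm
  let X₀ : Hs →ₗ[ℂ] Hs :=
    { toFun := fun a => ∑' i, (a : ℤ → ℂ) i • X i
      map_add' := by
        intro a b
        rw [← (hsum a).tsum_add (hsum b)]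
        refine tsum_congr fun i => ?_
        rw [lp.coeFn_add, Pi.add_apply, add_smul]
      map_smul' := by
        intro c a
        rw [RingHom.id_apply, ← (hsum a).tsum_const_smul c]
        refine tsum_congr fun i => ?_
        rw [lp.coeFn_smul, Pi.smul_apply, smul_assoc] }
  have hX₀ : ∀ a, ‖X₀ a‖ ≤ 1 / 2 * ‖a‖ := by
    intro a
    refine (norm_tsum_le_tsum_norm (hsumN a)).trans ?_
    exact (hsumN a).tsum_le_of_sum_le (hfin a)
  let X₁ : Hs →L[ℂ] Hs := X₀.mkContinuous (1 / 2) hX₀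
  have hX₁ : ‖-X₁‖ < 1 := by
    rw [norm_neg]
    exact lt_of_le_of_lt (X₀.mkContinuous_norm_le (by norm_num) hX₀) (by norm_num)
  let W : Hs ≃L[ℂ] Hs := ContinuousLinearEquiv.ofUnit (Units.oneSub (-X₁) hX₁)
  have hW : ∀ a, W a = a + X₀ a := by
    intro a
    have : W a = (1 - (-X₁)) a := rfl
    rw [this, sub_neg_eq_add]
    rfl
  refine ⟨W, fun j => ?_, fun a => ?_, fun x => ?_⟩
  · rw [hW]
    congr 1
    change ∑' i, (ee j : ℤ → ℂ) i • X i = X j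
    rw [tsum_eq_single j]
    · rw [p_B2_ee, if_pos rfl, one_smul]
    · intro i hi
      rw [p_B2_ee, if_neg hi, zero_smul]
  · rw [hW]
    have := norm_add_le a (X₀ a)
    have := hX₀ a
    have := norm_nonneg a
    linarith
  · have h1 : W (W.symm x) = x := W.apply_symm_apply x
    rw [hW] at h1
    have h2 : ‖W.symm x‖ ≤ ‖W.symm x + X₀ (W.symm x)‖ + ‖X₀ (W.symm x)‖ := by
      have := norm_sub_le (W.symm x + X₀ (W.symm x)) (X₀ (W.symm x))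
      rwa [add_sub_cancel_right] at this
    rw [h1] at h2
    have := hX₀ (W.symm x)
    linarith

end HillRoots
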