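import Pool.Agent.Lib.MP_e63cf8_mp.StmA

/-! # Piece B4: equations for `T` are equations for `D + Y` -/

open Polynomial Filter Topology MeasureTheory Asymptotics
open scoped ContDiff

namespace HillRoots

/-- multiplication of the coordinates by a bounded sequence -/
theorem p_B4_mul (g : ℤ → ℂ) (C : ℝ) (hC : 0 ≤ C) (hg : ∀ i, ‖g i‖ ≤ C) :
    ∃ G : Hs →L[ℂ] Hs, (∀ (x : Hs) (i : ℤ), (G x : ℤ → ℂ) i = g i * x i) ∧
      ∀ x, ‖G x‖ ≤ C * ‖x‖ := by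
  have hp : (0 : ℝ) < (2 : ENNReal).toReal := by simp
  have key : ∀ (x : Hs) (s : Finset ℤ), ∑ i ∈ s, ‖g i * x i‖ ^ (2 : ENNReal).toReal ≤
      (C * ‖x‖) ^ (2 : ENNReal).toReal := by
    intro x s
    have h1 := lp.sum_rpow_le_norm_rpow hp x s
    calc ∑ i ∈ s, ‖g i * x i‖ ^ (2 : ENNReal).toReal
        ≤ ∑ i ∈ s, C ^ (2 : ENNReal).toReal * ‖x i‖ ^ (2 : ENNReal).toReal := by
          refine Finset.sum_le_sum fun i _ => ?_
          rw [← Real.mul_rpow hC (norm_nonneg _)]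
          refine Real.rpow_le_rpow (norm_nonneg _) ?_ hp.le
          rw [norm_mul]
          exact mul_le_mul_of_nonneg_right (hg i) (norm_nonneg _)
      _ = C ^ (2 : ENNReal).toReal * ∑ i ∈ s, ‖x i‖ ^ (2 : ENNReal).toReal := by
          rw [Finset.mul_sum]
      _ ≤ C ^ (2 : ENNReal).toReal * ‖x‖ ^ (2 : ENNReal).toReal :=
          mul_le_mul_of_nonneg_left h1 (Real.rpow_nonneg hC _)
      _ = (C * ‖x‖) ^ (2 : ENNReal).toReal := (Real.mul_rpow hC (norm_nonneg _)).symm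
  have hm : ∀ x : Hs, Memℓp (fun i => g i * x i) 2 := fun x => memℓp_gen' (key x)
  let G₀ : Hs →ₗ[ℂ] Hs :=
    { toFun := fun x => ⟨fun i => g i * x i, hm x⟩
      map_add' := by
        intro x y
        ext i
        simp only [lp.coeFn_add, Pi.add_apply]
        ring
      map_smul' := by
        intro c x
        ext i
        simp only [lp.coeFn_smul, Pi.smul_apply, smul_eq_mul, RingHom.id_apply]
        ring }
  have hG : ∀ x, ‖G₀ x‖ ≤ C * ‖x‖ := fun x =>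
    lp.norm_le_of_forall_sum_le hp (mul_nonneg hC (norm_nonneg _)) (key x)
  exact ⟨G₀.mkContinuous C hG, fun x i => rfl, hG⟩

theorem p_B4_nu (P Q : ℂ[X]) : 0 ≤ nu P Q :=
  add_nonneg (Finset.sum_nonneg fun _ _ => norm_nonneg _)
    (Finset.sum_nonneg fun _ _ => norm_nonneg _)

theorem p_B4_ne (t : ℝ) (ht : 0 < t) (i : ℤ) : (4 * (i : ℂ) ^ 2 + t) ≠ 0 := by
  have h : (4 * (i : ℂ) ^ 2 + t) = ((4 * (i : ℝ) ^ 2 + t : ℝ) : ℂ) := by push_cast; ring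
  rw [h, Complex.ofReal_ne_zero]
  positivity

theorem p_B4_inv (t : ℝ) (ht : 0 < t) (i : ℤ) : ‖(4 * (i : ℂ) ^ 2 + t)⁻¹‖ ≤ 1 / t := by
  have h : (4 * (i : ℂ) ^ 2 + t) = ((4 * (i : ℝ) ^ 2 + t : ℝ) : ℂ) := by push_cast; ring
  rw [norm_inv, h, Complex.norm_real, Real.norm_eq_abs, abs_of_pos (by positivity), ← one_div]
  exact one_div_le_one_div_of_le ht (by nlinarith [sq_nonneg (i : ℝ)])

/-- `(i)` injectivity -/
theorem p_B4_inj (V : Hs →L[ℂ] Hs) (ν t : ℝ) (hν : 0 ≤ ν) (ht : 4 * ν + 1 ≤ t)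
    (hV : ∀ x, ‖V x‖ ≤ ν * ‖x‖) (x : Hs)
    (hx : ∀ s : ℤ, 4 * (s : ℂ) ^ 2 * x s + (V x : ℤ → ℂ) s + t * x s = 0) : x = 0 := by
  have ht0 : 0 < t := by linarith
  obtain ⟨G, hG, hGn⟩ := p_B4_mul (fun i => (4 * (i : ℂ) ^ 2 + t)⁻¹) (1 / t) (by positivity)
    (p_B4_inv t ht0)
  have h1 : x = G (-(V x)) := by
    ext s
    rw [hG, lp.coeFn_neg, Pi.neg_apply]
    have h2 := p_B4_ne t ht0 s
    have h3 : (V x : ℤ → ℂ) s = -((4 * (s : ℂ) ^ 2 + t) * x s) := by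
      linear_combination hx s
    rw [h3, neg_neg, inv_mul_cancel_left₀ h2]
  have h4 : ‖x‖ ≤ 1 / t * (ν * ‖x‖) := by
    calc ‖x‖ = ‖G (-(V x))‖ := congrArg _ h1
      _ ≤ 1 / t * ‖-(V x)‖ := hGn _
      _ = 1 / t * ‖V x‖ := by rw [norm_neg]
      _ ≤ 1 / t * (ν * ‖x‖) := mul_le_mul_of_nonneg_left (hV x) (by positivity)
  have h5 : t * ‖x‖ ≤ ν * ‖x‖ := by
    have := mul_le_mul_of_nonneg_left h4 ht0.le
    rwa [← mul_assoc, mul_one_div_cancel ht0.ne', one_mul] at this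
  have h6 : ‖x‖ ≤ 0 := by nlinarith [norm_nonneg x]
  exact norm_le_zero_iff.mp h6

/-- `(ii)` surjectivity -/
theorem p_B4_surj (Y : Hs →L[ℂ] Hs) (ν t : ℝ) (hν : 0 ≤ ν) (ht : 4 * ν + 1 ≤ t)
    (hY : ∀ x, ‖Y x‖ ≤ 2 * ν * ‖x‖) (h : Hs) :
    ∃ u : Hs, ∀ i : ℤ, (4 * (i : ℂ) ^ 2 + t) * u i + (Y u : ℤ → ℂ) i = h i := by
  have ht0 : 0 < t := by linarith
  obtain ⟨G, hG, hGn⟩ := p_B4_mul (fun i => (4 * (i : ℂ) ^ 2 + t)⁻¹) (1 / t) (by positivity)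
    (p_B4_inv t ht0)
  have hn : ‖-(G * Y)‖ < 1 := by
    rw [norm_neg]
    refine lt_of_le_of_lt (ContinuousLinearMap.opNorm_le_bound _ (M := 1 / t * (2 * ν))
      (by positivity) (fun x => ?_)) ?_
    · calc ‖(G * Y) x‖ = ‖G (Y x)‖ := rfl
        _ ≤ 1 / t * ‖Y x‖ := hGn _
        _ ≤ 1 / t * (2 * ν * ‖x‖) := mul_le_mul_of_nonneg_left (hY x) (by positivity)
        _ = 1 / t * (2 * ν) * ‖x‖ := by ring
    · rw [one_div, inv_mul_lt_iff₀ ht0]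
      linarith
  obtain ⟨U, hU⟩ := isUnit_one_sub_of_norm_lt_one hn
  refine ⟨(↑U⁻¹ : Hs →L[ℂ] Hs) (G h), fun i => ?_⟩
  set u : Hs := (↑U⁻¹ : Hs →L[ℂ] Hs) (G h) with hu
  have h1 : u + G (Y u) = G h := by
    have h2 : (↑U : Hs →L[ℂ] Hs) u = G h := by
      have : ((↑U : Hs →L[ℂ] Hs) * (↑U⁻¹ : Hs →L[ℂ] Hs)) (G h) = G h := by
        rw [Units.mul_inv]
        rfl
      exact this
    rw [hU, sub_neg_eq_add] at h2
    exact h2
  have h3 : u i + (4 * (i : ℂ) ^ 2 + t)⁻¹ * (Y u : ℤ → ℂ) i = (4 * (i : ℂ) ^ 2 + t)⁻¹ * h i := by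
    rw [← hG, ← hG, ← h1]
    rfl
  have h4 := p_B4_ne t ht0 i
  field_simp at h3
  linear_combination h3

theorem p_B4_eval (s : ℤ) : ∃ φ : Hs →L[ℂ] ℂ, ∀ x : Hs, φ x = x s :=
  ⟨lp.evalCLM ℂ (fun _ : ℤ => ℂ) 2 s, fun _ => rfl⟩

theorem p_B4_hasSum (φ : Hs →L[ℂ] ℂ) (u : Hs) : HasSum (fun j => u j * φ (ee j)) (φ u) := by
  have h1 := (lp.hasSum_single (by norm_num : (2 : ENNReal) ≠ ⊤) u).mapL φ
  have h2 : (fun j => u j * φ (ee j)) = fun j => φ (lp.single 2 j (u j)) := by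
    funext j
    have h3 : (lp.single 2 j (u j) : Hs) = u j • ee j := by
      unfold ee
      rw [← lp.single_smul, smul_eq_mul, mul_one]
    rw [h3, map_smul, smul_eq_mul]
  rw [h2]
  exact h1

/-- `(iii)` the intertwining relation on the domain -/
theorem p_B4_int (P Q : ℂ[X]) (K : ℝ) (N : ℕ) (W : Hs ≃L[ℂ] Hs) (Y : Hs →L[ℂ] Hs)
    (h : BD P Q K N W Y) (V : Hs →L[ℂ] Hs) (hV : ∀ (x : Hs) s, (V x : ℤ → ℂ) s = Vop P Q x s)
    (u w : Hs) (hw : ∀ i : ℤ, w i = 4 * (i : ℂ) ^ 2 * u i) (s : ℤ) :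
    Top P Q (W u) s = (W (w + Y u) : ℤ → ℂ) s := by
  obtain ⟨φ, hφ⟩ := p_B4_eval s
  let W' : Hs →L[ℂ] Hs := W
  let A : Hs →L[ℂ] ℂ := (4 * (s : ℂ) ^ 2) • (φ.comp W') + φ.comp (V.comp W') - φ.comp (W'.comp Y)
  have hA : ∀ x, A x = 4 * (s : ℂ) ^ 2 * (W x : ℤ → ℂ) s + Vop P Q (W x) s -
      (W (Y x) : ℤ → ℂ) s := by
    intro x
    have : A x = 4 * (s : ℂ) ^ 2 * φ (W x) + φ (V (W x)) - φ (W (Y x)) := rfl
    rw [this, hφ, hφ, hφ, hV]
  let B : Hs →L[ℂ] ℂ := φ.comp W'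
  have hB : ∀ x, B x = (W x : ℤ → ℂ) s := fun x => hφ _
  have h1 := p_B4_hasSum A u
  have h2 := p_B4_hasSum B w
  have h3 : (fun j => u j * A (ee j)) = fun j => w j * B (ee j) := by
    funext j
    have h4 : A (ee j) = 4 * (j : ℂ) ^ 2 * (W (ee j) : ℤ → ℂ) s := by
      have h5 := h.inter j s
      have h6 : (W ((4 * (j : ℂ) ^ 2) • ee j + Y (ee j)) : ℤ → ℂ) s =
          4 * (j : ℂ) ^ 2 * (W (ee j) : ℤ → ℂ) s + (W (Y (ee j)) : ℤ → ℂ) s := by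
        rw [map_add, map_smul]
        rfl
      rw [h6] at h5
      unfold Top at h5
      rw [hA, h5]
      ring
    rw [h4, hB, hw]
    ring
  rw [h3] at h1
  have h4 : A u = B w := h1.unique h2
  rw [hA, hB] at h4
  have h5 : (W (w + Y u) : ℤ → ℂ) s = (W w : ℤ → ℂ) s + (W (Y u) : ℤ → ℂ) s := by
    rw [map_add]
    rfl
  rw [h5]
  unfold Top
  linear_combination h4

theorem p_B4 (hB0 : S_B0) : S_B4 := by
  intro P Q K N W Y h μ x x' hx i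
  obtain ⟨V, hV, hVn⟩ := hB0 P Q
  have hν := p_B4_nu P Q
  set t : ℝ := 4 * nu P Q + 1 with ht
  obtain ⟨u, hu⟩ := p_B4_surj Y (nu P Q) t hν le_rfl h.Ybd (W.symm (x' + (μ + t) • x))
  set w : Hs := W.symm (x' + (μ + t) • x) - (t : ℂ) • u - Y u with hw
  have hwi : ∀ j : ℤ, w j = 4 * (j : ℂ) ^ 2 * u j := by
    intro j
    have h1 : w j = (W.symm (x' + (μ + t) • x) : ℤ → ℂ) j - t * u j - (Y u : ℤ → ℂ) j := rfl
    rw [h1, ← hu j]
    ring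
  have h1 := p_B4_int P Q K N W Y h V hV u w hwi
  have h2 : W (w + Y u) = x' + (μ + t) • x - (t : ℂ) • W u := by
    have : w + Y u = W.symm (x' + (μ + t) • x) - (t : ℂ) • u := by
      rw [hw]
      abel
    rw [this, map_sub, map_smul, ContinuousLinearEquiv.apply_symm_apply]
  have h3 : W u = x := by
    rw [← sub_eq_zero]
    refine p_B4_inj V (nu P Q) t hν le_rfl hVn _ (fun s => ?_)
    have h4 := h1 s
    rw [h2] at h4
    have h5 : (x' + (μ + t) • x - (t : ℂ) • W u : Hs) s =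
        x' s + (μ + t) * x s - t * (W u : ℤ → ℂ) s := rfl
    rw [h5, ← hx s] at h4
    unfold Top at h4
    rw [← hV, ← hV] at h4
    have h6 : (V (W u - x) : ℤ → ℂ) s = (V (W u) : ℤ → ℂ) s - (V x : ℤ → ℂ) s := by
      rw [map_sub]
      rfl
    have h7 : (W u - x : Hs) s = (W u : ℤ → ℂ) s - x s := rfl
    rw [h6, h7]
    linear_combination h4
  have h4 : W.symm x = u := by rw [← h3, ContinuousLinearEquiv.symm_apply_apply]
  have h5 : (W.symm (x' + (μ + t) • x) : ℤ → ℂ) i =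
      (W.symm x' : ℤ → ℂ) i + (μ + t) * (W.symm x : ℤ → ℂ) i := by
    rw [map_add, map_smul]
    rfl
  have h6 := hu i
  rw [h5] at h6
  rw [h4] at h6 ⊢
  linear_combination h6

end HillRoots
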