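import Pool.Agent.Lib.MP_e63cf8_mp.StmA

/-! Piece B5: location of root vectors -/

open Polynomial Filter Topology MeasureTheory Asymptotics
open scoped ContDiff

namespace HillRoots

/-- the block with index `m` -/
private noncomputable def p_B5_Bk (N m : ℕ) : Finset ℤ :=
  (Finset.Icc (-((max m N : ℕ) : ℤ)) ((max m N : ℕ) : ℤ)).filter (fun l => blk N l = m)

private lemma p_B5_mem {N m : ℕ} {l : ℤ} : l ∈ p_B5_Bk N m ↔ blk N l = m := by
  unfold p_B5_Bk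
  rw [Finset.mem_filter, Finset.mem_Icc]
  constructor
  · exact fun h => h.2
  · intro h
    refine ⟨?_, h⟩
    unfold blk at h
    have h1 : N ≤ max m N := le_max_right _ _
    have h2 : m ≤ max m N := le_max_left _ _
    split_ifs at h with h3
    · omega
    · omega

private lemma p_B5_toReal : (2 : ENNReal).toReal = 2 := by norm_num

private lemma p_B5_single (j : ℤ) (c : ℂ) : c • ee j = lp.single 2 j c := by
  unfold ee
  rw [← lp.single_smul, smul_eq_mul, mul_one]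

private lemma p_B5_ee (i j : ℤ) : (ee j : ℤ → ℂ) i = if i = j then 1 else 0 := by
  unfold ee
  by_cases h : i = j
  · subst h
    rw [if_pos rfl, lp.single_apply_self]
  · rw [if_neg h, lp.single_apply_ne _ _ _ h]

private lemma p_B5_smul (c : ℂ) (a : Hs) (s : ℤ) :
    ((c • a : Hs) : ℤ → ℂ) s = c * (a : ℤ → ℂ) s := by
  rw [lp.coeFn_smul, Pi.smul_apply, smul_eq_mul]

private lemma p_B5_sum {ι : Type} (t : Finset ι) (f : ι → Hs) (s : ℤ) :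
    ((∑ i ∈ t, f i : Hs) : ℤ → ℂ) s = ∑ i ∈ t, (f i : ℤ → ℂ) s := by
  rw [lp.coeFn_sum, Finset.sum_apply]

/-- the projection on the block `m` -/
private noncomputable def p_B5_pr (N m : ℕ) (a : Hs) : Hs := ∑ l ∈ p_B5_Bk N m, a l • ee l

private lemma p_B5_sq (x : Hs) (s : Finset ℤ) : ∑ i ∈ s, ‖x i‖ ^ 2 ≤ ‖x‖ ^ 2 := by
  have h := lp.sum_rpow_le_norm_rpow (p := 2) (by norm_num) x s
  rw [p_B5_toReal] at h
  simpa using h

private lemma p_B5_pr_norm (N m : ℕ) (a : Hs) :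
    ‖p_B5_pr N m a‖ ^ 2 = ∑ l ∈ p_B5_Bk N m, ‖a l‖ ^ 2 := by
  have h := lp.norm_sum_single (E := fun _ : ℤ => ℂ) (p := 2) (by norm_num) (fun l => a l)
    (p_B5_Bk N m)
  rw [p_B5_toReal] at h
  unfold p_B5_pr
  simp only [p_B5_single]
  simpa using h

/-- a block diagonal operator does not see other blocks -/
private lemma p_B5_loc {N : ℕ} {Y : Hs →L[ℂ] Hs}
    (hY : ∀ i j : ℤ, blk N i ≠ blk N j → (Y (ee j) : ℤ → ℂ) i = 0) (a : Hs) (i : ℤ) :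
    (Y a : ℤ → ℂ) i = (Y (p_B5_pr N (blk N i) a) : ℤ → ℂ) i := by
  have h1 : HasSum (fun j : ℤ => lp.single 2 j (a j)) a :=
    lp.hasSum_single (by norm_num) a
  have h2 : HasSum (fun j : ℤ => (Y (lp.single 2 j (a j)) : ℤ → ℂ) i) ((Y a : ℤ → ℂ) i) := by
    have h3 := (((lp.evalCLM ℂ (fun _ : ℤ => ℂ) 2 i).comp Y).hasSum h1)
    exact h3
  have h4 : HasSum (fun j : ℤ => (Y (lp.single 2 j (a j)) : ℤ → ℂ) i)
      (∑ j ∈ p_B5_Bk N (blk N i), (Y (lp.single 2 j (a j)) : ℤ → ℂ) i) := by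
    refine hasSum_sum_of_ne_finset_zero fun j hj => ?_
    rw [p_B5_mem] at hj
    rw [← p_B5_single, map_smul, p_B5_smul, hY i j (fun h => hj h.symm), mul_zero]
  rw [h2.unique h4]
  unfold p_B5_pr
  rw [map_sum, p_B5_sum]
  refine Finset.sum_congr rfl fun j _ => ?_
  rw [p_B5_single]

private lemma p_B5_nu (P Q : ℂ[X]) : 0 ≤ nu P Q := by
  unfold nu; positivity

private lemma p_B5_abs (j : ℤ) : |(j : ℝ)| = (j.natAbs : ℝ) := by
  rw [Nat.cast_natAbs, Int.cast_abs]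

private lemma p_B5_sqn (j : ℤ) : (j : ℝ) ^ 2 = (j.natAbs : ℝ) ^ 2 := by
  rw [← p_B5_abs, sq_abs]

/-- squares of different blocks are far apart -/
private lemma p_B5_sep {N : ℕ} {i j : ℤ} (h : blk N i ≠ blk N j) :
    8 * (N : ℝ) + 4 ≤ |4 * (i : ℝ) ^ 2 - 4 * (j : ℝ) ^ 2| := by
  rw [p_B5_sqn i, p_B5_sqn j]
  have h1 : (i.natAbs ≠ j.natAbs) ∧ (N < i.natAbs ∨ N < j.natAbs) := by
    unfold blk at h
    split_ifs at h with h2 h3 h3
    · exact absurd rfl h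
    · exact ⟨by omega, Or.inr (by omega)⟩
    · exact ⟨by omega, Or.inl (by omega)⟩
    · exact ⟨h, Or.inl (by omega)⟩
  obtain ⟨h2, h3⟩ := h1
  have hi0 : (0 : ℝ) ≤ (i.natAbs : ℝ) := Nat.cast_nonneg _
  have hj0 : (0 : ℝ) ≤ (j.natAbs : ℝ) := Nat.cast_nonneg _
  have hN0 : (0 : ℝ) ≤ (N : ℝ) := Nat.cast_nonneg _
  rcases Nat.lt_or_gt_of_ne h2 with h4 | h4
  · have h5 : (i.natAbs : ℝ) + 1 ≤ (j.natAbs : ℝ) := by
      have : i.natAbs + 1 ≤ j.natAbs := h4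
      exact_mod_cast this
    have h6 : (N : ℝ) + 1 ≤ (j.natAbs : ℝ) := by
      have : N + 1 ≤ j.natAbs := by omega
      exact_mod_cast this
    rw [abs_of_nonpos (by nlinarith)]
    nlinarith
  · have h5 : (j.natAbs : ℝ) + 1 ≤ (i.natAbs : ℝ) := by
      have : j.natAbs + 1 ≤ i.natAbs := h4
      exact_mod_cast this
    have h6 : (N : ℝ) + 1 ≤ (i.natAbs : ℝ) := by
      have : N + 1 ≤ i.natAbs := by omega
      exact_mod_cast this
    rw [abs_of_nonneg (by nlinarith)]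
    nlinarith

theorem p_B5 (hB4 : S_B4) : S_B5 := by
  intro P Q
  have hν := p_B5_nu P Q
  refine ⟨⌈nu P Q⌉₊, ?_⟩
  intro K N hN W Y hBD μ x hx hx0
  have hN' : nu P Q ≤ N := Nat.ceil_le.1 hN
  obtain ⟨hmem, n, hn⟩ := hx
  set X : ℕ → Hs := fun i => ⟨(Tsh P Q μ)^[i] x, hmem i⟩ with hX
  have hX0 : X 0 = x := lp.ext rfl
  have hXn : X n = 0 := lp.ext hn
  have hstep : ∀ t : ℕ, ∀ i : ℤ, 4 * (i : ℂ) ^ 2 * W.symm (X t) i + Y (W.symm (X t)) i -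
      μ * W.symm (X t) i = W.symm (X (t + 1)) i := by
    intro t
    refine hB4 P Q K N W Y hBD μ (X t) (X (t + 1)) fun s => ?_
    show _ = (Tsh P Q μ)^[t + 1] x s
    rw [Function.iterate_succ_apply']
    rfl
  -- every block which occurs contains a good index
  have key : ∀ j : ℤ, W.symm x j ≠ 0 →
      ∃ i : ℤ, blk N i = blk N j ∧ ‖4 * (i : ℂ) ^ 2 - μ‖ ≤ 2 * nu P Q := by
    intro j hj
    by_contra hcon
    push Not at hcon
    set m := blk N j with hm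
    have hex : ∃ t : ℕ, ∀ l : ℤ, blk N l = m → W.symm (X t) l = 0 :=
      ⟨n, fun l _ => by rw [hXn, map_zero]; rfl⟩
    classical
    set t := Nat.find hex with ht
    have ht1 : ∀ l : ℤ, blk N l = m → W.symm (X t) l = 0 := Nat.find_spec hex
    have ht0 : t ≠ 0 := by
      intro h0
      rw [h0, hX0] at ht1
      exact hj (ht1 j rfl)
    obtain ⟨r, hr⟩ := Nat.exists_eq_succ_of_ne_zero ht0
    have hr1 : ¬ ∀ l : ℤ, blk N l = m → W.symm (X r) l = 0 :=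
      Nat.find_min hex (by rw [← ht, hr]; exact Nat.lt_succ_self r)
    push Not at hr1
    obtain ⟨l₀, hl₀, hl₀'⟩ := hr1
    set a : Hs := W.symm (X r) with ha
    set u : Hs := p_B5_pr N m a with hu
    have heq : ∀ i ∈ p_B5_Bk N m, ‖(Y u : ℤ → ℂ) i‖ = ‖4 * (i : ℂ) ^ 2 - μ‖ * ‖a i‖ := by
      intro i hi
      rw [p_B5_mem] at hi
      have h1 := hstep r i
      rw [← ha, ← Nat.succ_eq_add_one, ← hr, ht1 i hi, p_B5_loc hBD.Yblk a i, hi, ← hu] at h1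
      rw [← norm_mul]
      have h2 : (Y u : ℤ → ℂ) i = -((4 * (i : ℂ) ^ 2 - μ) * a i) := by linear_combination h1
      rw [h2, norm_neg]
    have h3 : ∑ i ∈ p_B5_Bk N m, (‖4 * (i : ℂ) ^ 2 - μ‖ * ‖a i‖) ^ 2 ≤ (2 * nu P Q * ‖u‖) ^ 2 := by
      calc ∑ i ∈ p_B5_Bk N m, (‖4 * (i : ℂ) ^ 2 - μ‖ * ‖a i‖) ^ 2
          = ∑ i ∈ p_B5_Bk N m, ‖(Y u : ℤ → ℂ) i‖ ^ 2 :=
            Finset.sum_congr rfl fun i hi => by rw [heq i hi]
        _ ≤ ‖Y u‖ ^ 2 := p_B5_sq _ _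
        _ ≤ (2 * nu P Q * ‖u‖) ^ 2 := pow_le_pow_left₀ (norm_nonneg _) (hBD.Ybd u) 2
    rw [mul_pow, p_B5_pr_norm, Finset.mul_sum] at h3
    have h4 : ∑ i ∈ p_B5_Bk N m, (2 * nu P Q) ^ 2 * ‖a i‖ ^ 2 <
        ∑ i ∈ p_B5_Bk N m, (‖4 * (i : ℂ) ^ 2 - μ‖ * ‖a i‖) ^ 2 := by
      refine Finset.sum_lt_sum (fun i hi => ?_) ⟨l₀, p_B5_mem.2 hl₀, ?_⟩
      · have h5 := hcon i (p_B5_mem.1 hi)
        rw [← mul_pow]
        have h6 : 0 ≤ ‖a i‖ := norm_nonneg _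
        gcongr
      · have h5 := hcon l₀ hl₀
        rw [← mul_pow]
        have h6 : 0 < ‖a l₀‖ := norm_pos_iff.2 hl₀'
        gcongr
    exact absurd h3 (not_le.2 h4)
  -- conclusion
  have hne : W.symm x ≠ 0 := by
    intro h
    exact hx0 (W.symm.map_eq_zero_iff.1 h)
  have hex : ∃ j : ℤ, W.symm x j ≠ 0 := by
    by_contra h
    push Not at h
    exact hne (lp.ext (funext h))
  obtain ⟨j₀, hj₀⟩ := hex
  obtain ⟨i, hi1, hi2⟩ := key j₀ hj₀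
  refine ⟨i, hi2, fun j hj => ?_⟩
  by_contra hj0
  obtain ⟨i', hi1', hi2'⟩ := key j hj0
  have hne' : blk N i' ≠ blk N i := by rw [hi1']; exact hj
  have h1 := p_B5_sep hne'
  have h2 : |4 * (i' : ℝ) ^ 2 - 4 * (i : ℝ) ^ 2| ≤ 4 * nu P Q := by
    have h3 : ‖(4 * (i' : ℂ) ^ 2 - μ) - (4 * (i : ℂ) ^ 2 - μ)‖ ≤ 2 * nu P Q + 2 * nu P Q :=
      (norm_sub_le _ _).trans (add_le_add hi2' hi2)
    have h4 : (4 * (i' : ℂ) ^ 2 - μ) - (4 * (i : ℂ) ^ 2 - μ)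
        = ((4 * (i' : ℝ) ^ 2 - 4 * (i : ℝ) ^ 2 : ℝ) : ℂ) := by
      push_cast
      ring
    rw [h4, Complex.norm_real, Real.norm_eq_abs] at h3
    linarith
  have hN0 : (0 : ℝ) ≤ (N : ℝ) := Nat.cast_nonneg _
  linarith

end HillRoots
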