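import Pool.Agent.Lib.MP_e63cf8_mp.StmA

/-! # Piece B6: every block space has a basis of root vectors -/

open Polynomial Filter Topology MeasureTheory Asymptotics
open scoped ContDiff

namespace HillRoots

/-- a basis of generalised eigenvectors -/
theorem p_B6_basis {ι : Type} [Fintype ι] [DecidableEq ι] (B : Module.End ℂ (ι → ℂ)) :
    ∃ (v : Module.Basis ι ℂ (ι → ℂ)) (ev : ι → ℂ), ∀ i, v i ∈ B.maxGenEigenspace (ev i) := by
  classical
  have hint : DirectSum.IsInternal (fun μ : ℂ => B.maxGenEigenspace μ) := by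
    rw [DirectSum.isInternal_submodule_iff_iSupIndep_and_iSup_eq_top]
    exact ⟨Module.End.independent_maxGenEigenspace B, Module.End.iSup_maxGenEigenspace_eq_top B⟩
  let w : ∀ μ : ℂ, Module.Basis (Fin (Module.finrank ℂ (B.maxGenEigenspace μ))) ℂ
      (B.maxGenEigenspace μ) := fun μ => Module.finBasis ℂ _
  let c := hint.collectedBasis w
  let e := c.indexEquiv (Pi.basisFun ℂ ι)
  refine ⟨c.reindex e, fun i => (e.symm i).1, fun i => ?_⟩
  rw [Module.Basis.reindex_apply]
  exact hint.collectedBasis_mem w (e.symm i)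

/-- `Top` as a linear map -/
noncomputable def p_B6_T (P Q : ℂ[X]) : (ℤ → ℂ) →ₗ[ℂ] (ℤ → ℂ) where
  toFun := Top P Q
  map_add' := by
    intro x y
    ext s
    simp only [Top, Vop, Pi.add_apply, mul_add, Finset.sum_add_distrib]
    ring
  map_smul' := by
    intro c x
    ext s
    simp only [Top, Vop, Pi.smul_apply, smul_eq_mul, RingHom.id_apply, mul_add, Finset.mul_sum]
    congr 1
    · ring
    · congr 1 <;> exact Finset.sum_congr rfl fun j _ => by ring

/-- the coercion as a linear map -/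
noncomputable def p_B6_co : Hs →ₗ[ℂ] (ℤ → ℂ) where
  toFun := fun x => (x : ℤ → ℂ)
  map_add' := fun _ _ => rfl
  map_smul' := fun _ _ => rfl

theorem p_B6_Tsh (P Q : ℂ[X]) (μ : ℂ) (x : ℤ → ℂ) :
    Tsh P Q μ x = p_B6_T P Q x - μ • x := by
  ext s
  simp [Tsh, p_B6_T]

theorem p_B6_fin (N m : ℕ) : Finite {i : ℤ // blk N i = m} := by
  refine Set.Finite.to_subtype (s := {i : ℤ | blk N i = m}) ?_
  refine (Set.finite_Icc (-((max N m : ℕ) : ℤ)) ((max N m : ℕ) : ℤ)).subset ?_
  intro i hi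
  simp only [Set.mem_setOf_eq, blk] at hi
  rw [Set.mem_Icc]
  split_ifs at hi <;> omega

theorem p_B6_ee (j i : ℤ) : (ee j : ℤ → ℂ) i = if i = j then 1 else 0 := by
  unfold ee
  rw [lp.single_apply, Pi.single_apply]

theorem p_B6_sum {ι : Type} [Fintype ι] (g : ι → ℤ) (hg : Function.Injective g) (u : ι → ℂ) (i : ι) :
    ((∑ j, u j • ee (g j) : Hs) : ℤ → ℂ) (g i) = u i := by
  classical
  rw [lp.coeFn_sum, Finset.sum_apply]
  simp only [lp.coeFn_smul, Pi.smul_apply, p_B6_ee, smul_eq_mul, mul_ite, mul_one, mul_zero]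
  rw [Finset.sum_eq_single i]
  · simp
  · intro j _ hj
    rw [if_neg]
    exact fun h => hj (hg h.symm)
  · intro h
    exact absurd (Finset.mem_univ _) h

theorem p_B6_supp (N m : ℕ) [Fintype {i : ℤ // blk N i = m}] (x : Hs)
    (hx : ∀ j : ℤ, blk N j ≠ m → (x : ℤ → ℂ) j = 0) :
    ∑ j : {i : ℤ // blk N i = m}, (x : ℤ → ℂ) j • ee j = x := by
  ext s
  by_cases hs : blk N s = m
  · exact p_B6_sum (fun j : {i : ℤ // blk N i = m} => (j : ℤ)) Subtype.val_injective
      (fun j => (x : ℤ → ℂ) j) ⟨s, hs⟩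
  · rw [hx s hs, lp.coeFn_sum, Finset.sum_apply]
    refine Finset.sum_eq_zero fun j _ => ?_
    simp only [lp.coeFn_smul, Pi.smul_apply, p_B6_ee, smul_eq_mul, mul_ite, mul_one, mul_zero]
    rw [if_neg]
    rintro rfl
    exact hs j.2

theorem p_B6 : S_B6 := by
  classical
  intro P Q K N W Y h m
  have := p_B6_fin N m
  have := Fintype.ofFinite {i : ℤ // blk N i = m}
  set ι := {i : ℤ // blk N i = m} with hι
  let c : ι → Hs := fun i => (4 * ((i : ℤ) : ℂ) ^ 2) • ee i + Y (ee i)
  let J : (ι → ℂ) →ₗ[ℂ] Hs := Fintype.linearCombination ℂ (fun i : ι => W (ee i))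
  let B : Module.End ℂ (ι → ℂ) :=
    Fintype.linearCombination ℂ (fun (i : ι) (j : ι) => (c i : ℤ → ℂ) j)
  have hJ : ∀ u, J u = ∑ i, u i • W (ee i) := fun u => Fintype.linearCombination_apply ℂ _ u
  have hJW : ∀ u, J u = W (∑ i, u i • ee i) := by
    intro u
    rw [hJ, map_sum]
    exact Finset.sum_congr rfl fun i _ => (map_smul _ _ _).symm
  have hB : ∀ u j, B u j = ∑ i, u i * (c i : ℤ → ℂ) j := by
    intro u j
    have : B u = ∑ i, u i • (fun j : ι => (c i : ℤ → ℂ) j) := Fintype.linearCombination_apply ℂ _ u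
    rw [this, Finset.sum_apply]
    rfl
  have hJinj : Function.Injective J := by
    intro u v huv
    rw [hJW, hJW] at huv
    have h1 := W.injective huv
    ext i
    have h2 := congrArg (fun x : Hs => (x : ℤ → ℂ) i) h1
    simp only at h2
    rwa [p_B6_sum (fun j : ι => (j : ℤ)) Subtype.val_injective u i,
      p_B6_sum (fun j : ι => (j : ℤ)) Subtype.val_injective v i] at h2
  have hc : ∀ i : ι, ∑ j : ι, (c i : ℤ → ℂ) j • ee j = c i := by
    intro i
    refine p_B6_supp N m (c i) fun j hj => ?_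
    have h1 : (Y (ee i) : ℤ → ℂ) j = 0 := h.Yblk j i (by rw [i.2]; exact hj)
    have h2 : (ee i : ℤ → ℂ) j = 0 := by
      rw [p_B6_ee, if_neg]
      rintro rfl
      exact hj i.2
    simp only [c, lp.coeFn_add, lp.coeFn_smul, Pi.add_apply, Pi.smul_apply, h1, h2, smul_zero, add_zero]
  have hJB : ∀ u, J (B u) = ∑ i, u i • W (c i) := by
    intro u
    rw [hJW]
    have : ∑ j : ι, B u j • ee j = ∑ i : ι, u i • c i := by
      simp only [hB, Finset.sum_smul]
      rw [Finset.sum_comm]
      refine Finset.sum_congr rfl fun i _ => ?_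
      conv_rhs => rw [← hc i]
      rw [Finset.smul_sum]
      exact Finset.sum_congr rfl fun j _ => mul_smul _ _ _
    rw [this, map_sum]
    exact Finset.sum_congr rfl fun i _ => map_smul _ _ _
  have hT : ∀ u, p_B6_T P Q (p_B6_co (J u)) = p_B6_co (J (B u)) := by
    intro u
    rw [hJ, hJB, map_sum, map_sum, map_sum]
    refine Finset.sum_congr rfl fun i _ => ?_
    rw [map_smul, map_smul, map_smul]
    congr 1
    ext s
    exact h.inter i s
  have hTsh : ∀ (μ : ℂ) (r : ℕ) (u : ι → ℂ), (Tsh P Q μ)^[r] (J u : ℤ → ℂ) =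
      (J (((B - μ • (1 : Module.End ℂ (ι → ℂ))) ^ r) u) : ℤ → ℂ) := by
    intro μ r
    induction r with
    | zero => intro u; simp
    | succ r ih =>
      intro u
      rw [Function.iterate_succ_apply, pow_succ, Module.End.mul_apply, ← ih]
      congr 1
      rw [p_B6_Tsh]
      have h1 := hT u
      have h2 : J ((B - μ • (1 : Module.End ℂ (ι → ℂ))) u) = J (B u) - μ • J u := by
        rw [LinearMap.sub_apply, map_sub, LinearMap.smul_apply, map_smul, Module.End.one_apply]
      rw [h2]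
      change p_B6_T P Q (p_B6_co (J u)) - μ • (J u : ℤ → ℂ) = _
      rw [h1]
      rfl
  obtain ⟨v, ev, hv⟩ := p_B6_basis B
  refine ⟨fun i => J (v i), ev, fun i => ⟨fun r => ?_, ?_⟩, ?_, ?_⟩
  · rw [hTsh]
    exact lp.memℓp _
  · obtain ⟨k, hk⟩ := (Module.End.mem_maxGenEigenspace B (ev i) (v i)).1 (hv i)
    refine ⟨k, ?_⟩
    rw [hTsh, hk, map_zero]
    rfl
  · exact v.linearIndependent.map' J (LinearMap.ker_eq_bot.2 hJinj)
  · have h1 : Set.range (fun i => J (v i)) = J '' Set.range v := by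
      rw [← Set.range_comp]
      rfl
    rw [h1, Submodule.span_image, v.span_eq, Submodule.map_top]
    exact Fintype.range_linearCombination ℂ (fun i : ι => W (ee i))

end HillRoots
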