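import Pool.Agent.Lib.MP_e63cf8_mp.StmA

open Polynomial Filter Topology MeasureTheory Asymptotics

namespace HillRoots

private noncomputable def p_B7_T (P Q : ℂ[X]) : Module.End ℂ (ℤ → ℂ) where
  toFun x := Top P Q x
  map_add' x y := by
    funext s
    simp only [Top, Vop, Pi.add_apply, mul_add, Finset.sum_add_distrib]
    ring
  map_smul' c x := by
    funext s
    simp only [Top, Vop, Pi.smul_apply, smul_eq_mul, RingHom.id_apply, mul_add, Finset.mul_sum]
    refine congrArg₂ (· + ·) (by ring) (congrArg₂ (· + ·) ?_ ?_)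
    · exact Finset.sum_congr rfl fun j _ => by ring
    · exact Finset.sum_congr rfl fun j _ => by ring

private theorem p_B7_iter (P Q : ℂ[X]) (μ : ℂ) (i : ℕ) (x : ℤ → ℂ) :
    (Tsh P Q μ)^[i] x = ((p_B7_T P Q - μ • (1 : Module.End ℂ (ℤ → ℂ))) ^ i) x := by
  induction i generalizing x with
  | zero => rfl
  | succ i ih =>
    rw [Function.iterate_succ_apply, ih, pow_succ]
    rfl

theorem p_B7 : S_B7 := by
  intro P Q
  constructor
  · intro μ
    refine ⟨{ carrier := seqRoot P Q μ, add_mem' := ?_, zero_mem' := ?_, smul_mem' := ?_ }, rfl⟩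
    · rintro x y ⟨hx, N, hN⟩ ⟨hy, N', hN'⟩
      refine ⟨fun i => ?_, max N N', ?_⟩
      · have := (hx i).add (hy i)
        rw [p_B7_iter] at this ⊢
        rw [p_B7_iter] at this
        rw [lp.coeFn_add, map_add]
        exact this
      · rw [p_B7_iter] at hN hN' ⊢
        rw [lp.coeFn_add, map_add]
        have e1 : ((p_B7_T P Q - μ • (1 : Module.End ℂ (ℤ → ℂ))) ^ (max N N')) x = 0 :=
          Module.End.pow_map_zero_of_le (le_max_left _ _) hN
        have e2 : ((p_B7_T P Q - μ • (1 : Module.End ℂ (ℤ → ℂ))) ^ (max N N')) y = 0 :=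
          Module.End.pow_map_zero_of_le (le_max_right _ _) hN'
        rw [e1, e2, add_zero]
    · refine ⟨fun i => ?_, 0, rfl⟩
      rw [p_B7_iter, lp.coeFn_zero, map_zero]
      exact zero_memℓp
    · rintro c x ⟨hx, N, hN⟩
      refine ⟨fun i => ?_, N, ?_⟩
      · have := (hx i).const_smul c
        rw [p_B7_iter] at this ⊢
        rw [lp.coeFn_smul, map_smul]
        exact this
      · rw [p_B7_iter] at hN ⊢
        rw [lp.coeFn_smul, map_smul, hN, smul_zero]
  · intro s x hx hsum a ha
    have hind := Module.End.independent_maxGenEigenspace (p_B7_T P Q)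
    rw [iSupIndep_iff_finsetSum_eq_zero_imp_eq_zero] at hind
    have h1 := hind s (fun a => (x a : ℤ → ℂ)) (fun a ha => by
      obtain ⟨_, N, hN⟩ := hx a ha
      rw [p_B7_iter] at hN
      rw [Module.End.mem_maxGenEigenspace]
      exact ⟨N, hN⟩) (by
      rw [← lp.coeFn_sum, hsum, lp.coeFn_zero]) a ha
    exact Subtype.ext h1

end HillRoots
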