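import Pool.Agent.Lib.MP_e63cf8_mp.StmC
import Pool.Agent.Lib.MP_e63cf8_mp.StmD

open Polynomial Filter Topology MeasureTheory Asymptotics

namespace HillRoots

theorem c1m_hh (M n s : ℕ) (c c' : ℂ) (hc : c ≠ 0) (hc' : c' ≠ 0) (hM : 1 ≤ M) (hs : s < n) :
    Real.log (‖hh M c n s‖) - Real.log (‖hh M c' n s‖) = s * (Real.log ‖c‖ - Real.log ‖c'‖) := by
  unfold hh
  rw [norm_mul, norm_mul, norm_pow, norm_pow]
  set ρ : ℝ := ‖(((4 * (M : ℝ) ^ 2) ^ (-((s : ℝ) / M)) * Real.Gamma (((n : ℝ) - s) / M) /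
    (Real.Gamma ((n : ℝ) / M) * Real.Gamma (1 + (s : ℝ) / M)) : ℝ) : ℂ)‖ with hρ
  have hM' : (0 : ℝ) < M := by exact_mod_cast hM
  have hsn : (s : ℝ) < n := by exact_mod_cast hs
  have h1 : 0 < Real.Gamma (((n : ℝ) - s) / M) := Real.Gamma_pos_of_pos (by apply div_pos; linarith; exact hM')
  have h2 : 0 < Real.Gamma ((n : ℝ) / M) := Real.Gamma_pos_of_pos (by
    apply div_pos _ hM'; have : (0 : ℝ) ≤ s := Nat.cast_nonneg s; linarith)
  have h3 : 0 < Real.Gamma (1 + (s : ℝ) / M) := Real.Gamma_pos_of_pos (by positivity)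
  have hρ0 : ρ ≠ 0 := by
    rw [hρ, Complex.norm_real, norm_ne_zero_iff]
    positivity
  have hcn : ‖c‖ ^ s ≠ 0 := pow_ne_zero _ (norm_ne_zero_iff.2 hc)
  have hcn' : ‖c'‖ ^ s ≠ 0 := pow_ne_zero _ (norm_ne_zero_iff.2 hc')
  rw [Real.log_mul hcn hρ0, Real.log_mul hcn' hρ0, Real.log_pow, Real.log_pow]
  ring

theorem c1m_GG (M n k : ℕ) (c : ℂ) (g : ℂ → ℂ) (h : ∀ i ∈ Finset.Icc 1 k, 0 < ‖br M c g 0 (tau M n i)‖) :
    Real.log (GG M c g n k) = ∑ i ∈ Finset.Icc 1 k, Real.log ‖br M c g 0 (tau M n i)‖ := by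
  unfold GG
  exact Real.log_prod (fun i hi => (h i hi).ne')

theorem c1m_rmin (M : ℕ) (E r r' x x' t : ℝ) (hr : 0 < r) (hr' : 0 < r') (ht : 0 < t) (hx : 0 < x) (hx' : 0 < x') :
    Real.log ((r * t * x)⁻¹ / (r' * t * x')⁻¹) = (Real.log r' + Real.log x') - (Real.log r + Real.log x) := by
  rw [Real.log_div (by positivity) (by positivity), Real.log_inv, Real.log_inv, Real.log_mul (by positivity) (by positivity),
    Real.log_mul (by positivity) (by positivity), Real.log_mul (by positivity) (by positivity),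
    Real.log_mul (by positivity) (by positivity)]
  ring

theorem p_C1 (hR5 : S_R5) (hU1 : S_U1) (hH1 : S_H1) : S_C1 := by
  intro P Q c c' g g' τ₀ K δ τ₀' K' δ' hP hQ hd hb hb'
  obtain ⟨E₀, hE₀⟩ := eventually_atTop.1 (hR5 P c g τ₀ K δ hP hb)
  obtain ⟨E₁, hE₁⟩ := eventually_atTop.1 (hR5 Q c' g' τ₀' K' δ' hQ hb')
  have hM := hb.ld.hM
  have u1 := hU1 P.natDegree τ₀ hM hb.ld.ht
  have u2 := hU1 P.natDegree τ₀' hM hb'.ld.ht
  filter_upwards [u1, u2, eventually_ge_atTop (P.natDegree + 1), eventually_ge_atTop (Nat.ceil (max E₀ E₁) + 2)] with n h1 h2 h3 h4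
  set M := P.natDegree with hMdef
  have hMR : (0 : ℝ) < M := by exact_mod_cast hM
  have ha : 0 < ‖P.leadingCoeff‖ := by
    rw [norm_pos_iff]; intro h; rw [leadingCoeff_eq_zero] at h
    rw [hMdef, h, natDegree_zero] at hM; omega
  have hb0 : 0 < ‖Q.leadingCoeff‖ := by
    rw [norm_pos_iff]; intro h; rw [leadingCoeff_eq_zero] at h
    rw [hd, h, natDegree_zero] at hM; omega
  have hc := hb.c0
  have hc' := hb'.c0
  have hbr : ∀ i ∈ Finset.Icc 1 (n - M), 0 < ‖br M c g 0 (tau M n i)‖ := by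
    intro i hi
    rw [Finset.mem_Icc] at hi
    have := hb.ld.low 0 (by omega) (tau M n i) (h1 i (by omega))
    linarith
  have hbr' : ∀ i ∈ Finset.Icc 1 (n - M), 0 < ‖br M c' g' 0 (tau M n i)‖ := by
    intro i hi
    rw [Finset.mem_Icc] at hi
    have := hb'.ld.low 0 (by omega) (tau M n i) (h2 i (by omega))
    rw [← hd] at this
    linarith
  have hh1 : hh M c n (n - M) ≠ 0 := (hH1 M n c hM hc (by omega)).2.1 _ (by omega)
  have hh2 : hh M c' n (n - M) ≠ 0 := (hH1 M n c' hM hc' (by omega)).2.1 _ (by omega)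
  have hG1 : 0 < GG M c g n (n - M) := Finset.prod_pos hbr
  have hG2 : 0 < GG M c' g' n (n - M) := Finset.prod_pos hbr'
  have hn1 := norm_pos_iff.2 hh1
  have hn2 := norm_pos_iff.2 hh2
  unfold RR
  rw [← hd, ← hMdef]
  rw [Real.log_div (by positivity) (by positivity), Real.log_mul (by positivity) (by positivity),
    Real.log_mul (by positivity) (by positivity), Real.log_mul (by positivity) (by positivity),
    Real.log_mul (by positivity) (by positivity), c1m_GG _ _ _ _ _ hbr, c1m_GG _ _ _ _ _ hbr',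
    Real.log_div (by positivity) (by positivity)]
  have hhd := c1m_hh M n (n - M) c c' hc hc' hM (by omega)
  have key : ∀ k ∈ Finset.Icc 1 (n - M), Real.log (rmin P (En n k) / rmin Q (En n k)) =
      (Real.log ‖c'‖ + Real.log ‖br M c' g' 0 (tau M n k)‖) - (Real.log ‖c‖ + Real.log ‖br M c g 0 (tau M n k)‖) := by
    intro k hk
    have hk' := Finset.mem_Icc.1 hk
    have hkn : (k : ℝ) + 1 ≤ n := by
      have : k + 1 ≤ n := by omega
      exact_mod_cast this
    have hk1 : (1 : ℝ) ≤ k := by exact_mod_cast hk'.1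
    have hEk : (n : ℝ) - 1 ≤ En n k := by
      have : En n (k : ℤ) = 4 * (k : ℝ) * ((n : ℝ) - k) := by unfold En; push_cast; ring
      rw [this]; nlinarith
    have hn4 : max E₀ E₁ ≤ (n : ℝ) - 1 := by
      have h5 : (Nat.ceil (max E₀ E₁) : ℝ) + 2 ≤ n := by exact_mod_cast h4
      have := Nat.le_ceil (max E₀ E₁)
      linarith
    have hEpos : 0 < En n k := by
      have : En n (k : ℤ) = 4 * (k : ℝ) * ((n : ℝ) - k) := by unfold En; push_cast; ring
      rw [this]; nlinarith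
    have e1 := hE₀ (En n k) (le_trans (le_trans (le_max_left _ _) hn4) hEk)
    have e2 := hE₁ (En n k) (le_trans (le_trans (le_max_right _ _) hn4) hEk)
    have ht : En n k ^ (-(1 / (M : ℝ))) = tau M n k := by
      unfold En tau; push_cast; rfl
    rw [ht] at e1
    rw [← hd, ht] at e2
    rw [e1, e2]
    have htp : 0 < tau M n k := by rw [← ht]; exact Real.rpow_pos_of_pos hEpos _
    exact c1m_rmin M 0 _ _ _ _ _ (norm_pos_iff.2 hc) (norm_pos_iff.2 hc') htp (hbr k hk) (hbr' k hk)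
  rw [Finset.sum_congr rfl key]
  rw [Finset.sum_sub_distrib, Finset.sum_add_distrib, Finset.sum_add_distrib, Finset.sum_const, Finset.sum_const,
    Nat.card_Icc, nsmul_eq_mul, nsmul_eq_mul]
  have hcast : ((n - M + 1 - 1 : ℕ) : ℝ) = ((n - M : ℕ) : ℝ) := by simp
  rw [hcast]
  linarith

end HillRoots
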