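import Pool.Agent.Lib.MP_e63cf8_mp.StmC
import Pool.Agent.Lib.MP_e63cf8_mp.StmD

/-!
# MP_e63cf8_mp, piece C2: the criterion bounds the quotient
-/

open Polynomial Filter Topology MeasureTheory Asymptotics

namespace HillRoots

private theorem p_C2_sum (m : ℕ) : ∑ k ∈ Finset.Icc 1 m, 1 / Real.sqrt k ≤ 2 * Real.sqrt m := by
  induction m with
  | zero => simp
  | succ m ih =>
    rw [Finset.sum_Icc_succ_top (by omega)]
    have h1 : 0 < Real.sqrt ((m + 1 : ℕ) : ℝ) := Real.sqrt_pos.2 (by positivity)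
    have h2 : 0 ≤ Real.sqrt (m : ℝ) := Real.sqrt_nonneg _
    have h3 : Real.sqrt ((m + 1 : ℕ) : ℝ) ^ 2 = m + 1 := by
      rw [Real.sq_sqrt (by positivity)]; push_cast; ring
    have h4 : Real.sqrt (m : ℝ) ^ 2 = m := Real.sq_sqrt (by positivity)
    have h5 : 1 / Real.sqrt ((m + 1 : ℕ) : ℝ) ≤
        2 * Real.sqrt ((m + 1 : ℕ) : ℝ) - 2 * Real.sqrt (m : ℝ) := by
      rw [div_le_iff₀ h1]
      nlinarith [sq_nonneg (Real.sqrt ((m + 1 : ℕ) : ℝ) - Real.sqrt (m : ℝ))]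
    linarith

private theorem p_C2_term (n k : ℝ) (hk : 0 < k) (hkn : k < n) :
    (4 * k * (n - k)) ^ (-(1 / 2) : ℝ) ≤
      1 / 2 * (1 / Real.sqrt n) * (1 / Real.sqrt k + 1 / Real.sqrt (n - k)) := by
  have hnk : 0 < n - k := by linarith
  have hn : 0 < n := by linarith
  have e : (4 * k * (n - k)) ^ (-(1 / 2) : ℝ) = 1 / (2 * (Real.sqrt k * Real.sqrt (n - k))) := by
    rw [Real.rpow_neg (by positivity), ← Real.sqrt_eq_rpow, Real.sqrt_mul (by positivity),
      Real.sqrt_mul (by norm_num), show (4 : ℝ) = 2 ^ 2 by norm_num, Real.sqrt_sq (by norm_num),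
      one_div, mul_assoc]
  rw [e]
  have a := Real.sqrt_pos.2 hk
  have b := Real.sqrt_pos.2 hnk
  have c := Real.sqrt_pos.2 hn
  have h : Real.sqrt n ≤ Real.sqrt k + Real.sqrt (n - k) := by
    rw [Real.sqrt_le_left (by positivity)]
    nlinarith [Real.sq_sqrt hk.le, Real.sq_sqrt hnk.le, mul_pos a b]
  have e2 : 1 / 2 * (1 / Real.sqrt n) * (1 / Real.sqrt k + 1 / Real.sqrt (n - k)) =
      (Real.sqrt k + Real.sqrt (n - k)) / Real.sqrt n *
        (1 / (2 * (Real.sqrt k * Real.sqrt (n - k)))) := by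
    field_simp
    ring
  rw [e2]
  have h5 : 1 ≤ (Real.sqrt k + Real.sqrt (n - k)) / Real.sqrt n := (one_le_div c).2 h
  have h6 : 0 ≤ 1 / (2 * (Real.sqrt k * Real.sqrt (n - k))) := by positivity
  nlinarith

private theorem p_C2_all (n : ℕ) (hn : 1 ≤ n) :
    ∑ k ∈ Finset.Icc 1 (n - 1), (En n k) ^ (-(1 / 2) : ℝ) ≤ 2 := by
  have hnR : (0 : ℝ) < n := by exact_mod_cast hn
  have h1 : ∀ k ∈ Finset.Icc 1 (n - 1), (En n k) ^ (-(1 / 2) : ℝ) ≤
      1 / 2 * (1 / Real.sqrt n) * (1 / Real.sqrt k + 1 / Real.sqrt ((n - k : ℕ) : ℝ)) := by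
    intro k hk
    rw [Finset.mem_Icc] at hk
    have hk1 : (0 : ℝ) < k := by exact_mod_cast hk.1
    have hk2 : (k : ℝ) < n := by
      have : k < n := by omega
      exact_mod_cast this
    have := p_C2_term n k hk1 hk2
    rw [Nat.cast_sub (by omega)]
    simpa [En] using this
  refine (Finset.sum_le_sum h1).trans ?_
  rw [← Finset.mul_sum, Finset.sum_add_distrib]
  have h2 : ∑ k ∈ Finset.Icc 1 (n - 1), 1 / Real.sqrt ((n - k : ℕ) : ℝ) =
      ∑ k ∈ Finset.Icc 1 (n - 1), 1 / Real.sqrt (k : ℝ) := by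
    refine Finset.sum_nbij' (fun k => n - k) (fun k => n - k) ?_ ?_ ?_ ?_ ?_
    · intro k hk; rw [Finset.mem_Icc] at hk ⊢; omega
    · intro k hk; rw [Finset.mem_Icc] at hk ⊢; omega
    · intro k hk; rw [Finset.mem_Icc] at hk; omega
    · intro k hk; rw [Finset.mem_Icc] at hk; omega
    · intro k _; rfl
  rw [h2]
  have h3 := p_C2_sum (n - 1)
  have h4 : Real.sqrt ((n - 1 : ℕ) : ℝ) ≤ Real.sqrt n :=
    Real.sqrt_le_sqrt (by exact_mod_cast Nat.sub_le n 1)
  have h5 : 0 < Real.sqrt (n : ℝ) := Real.sqrt_pos.2 hnR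
  have h6 : 0 ≤ 1 / 2 * (1 / Real.sqrt (n : ℝ)) := by positivity
  calc 1 / 2 * (1 / Real.sqrt (n : ℝ)) * (∑ k ∈ Finset.Icc 1 (n - 1), 1 / Real.sqrt (k : ℝ) +
        ∑ k ∈ Finset.Icc 1 (n - 1), 1 / Real.sqrt (k : ℝ))
      ≤ 1 / 2 * (1 / Real.sqrt (n : ℝ)) * (2 * Real.sqrt n + 2 * Real.sqrt n) :=
        mul_le_mul_of_nonneg_left (by linarith) h6
    _ = 2 := by field_simp; ring

theorem p_C2 (hC1 : S_C1) (hU1 : S_U1) : S_C2 := by
  intro P Q c c' g g' τ₀ K δ τ₀' K' δ' hP hQ hd hB hB' hcr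
  obtain ⟨K₀, hK₀, hb⟩ := hcr.exists_pos
  have hb' := hb.bound
  rw [eventually_atTop] at hb'
  obtain ⟨E₁, hE₁⟩ := hb'
  obtain ⟨m, hm⟩ := exists_nat_ge (E₁ / 4 + 1)
  refine ⟨|Real.log (‖P.leadingCoeff‖ / ‖Q.leadingCoeff‖)| + K₀ * 2, ?_⟩
  filter_upwards [hC1 P Q c c' g g' τ₀ K δ τ₀' K' δ' hP hQ hd hB hB', eventually_ge_atTop (m + 1)]
    with n hn hnm
  have hM : 1 ≤ P.natDegree := hB.ld.hM
  rw [hn]
  refine (abs_sub _ _).trans (add_le_add le_rfl ?_)
  refine (Finset.abs_sum_le_sum_abs _ _).trans ?_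
  calc ∑ k ∈ Finset.Icc 1 (n - P.natDegree), |Real.log (rmin P (En n k) / rmin Q (En n k))|
      ≤ ∑ k ∈ Finset.Icc 1 (n - P.natDegree), K₀ * (En n k) ^ (-(1 / 2) : ℝ) := by
        refine Finset.sum_le_sum fun k hk => ?_
        rw [Finset.mem_Icc] at hk
        have hk1 : (1 : ℝ) ≤ k := by exact_mod_cast hk.1
        have hk2 : (k : ℝ) + 1 ≤ n := by
          have : k + 1 ≤ n := by omega
          exact_mod_cast this
        have hmn : (m : ℝ) + 1 ≤ n := by exact_mod_cast hnm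
        have hEn : En n k = 4 * (k : ℝ) * ((n : ℝ) - k) := by simp [En]
        have hE : E₁ ≤ En n k := by
          rw [hEn]
          nlinarith [mul_nonneg (sub_nonneg.2 hk1) (by linarith : (0 : ℝ) ≤ (n : ℝ) - k - 1)]
        have hpos : 0 ≤ En n k := by
          rw [hEn]
          have : (0 : ℝ) ≤ (n : ℝ) - k := by linarith
          positivity
        have := hE₁ _ hE
        rw [Real.norm_eq_abs, Real.norm_eq_abs, abs_of_nonneg (Real.rpow_nonneg hpos _)] at this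
        exact this
    _ ≤ ∑ k ∈ Finset.Icc 1 (n - 1), K₀ * (En n k) ^ (-(1 / 2) : ℝ) := by
        refine Finset.sum_le_sum_of_subset_of_nonneg (Finset.Icc_subset_Icc le_rfl (by omega)) ?_
        intro k hk _
        rw [Finset.mem_Icc] at hk
        have hk2 : (k : ℝ) ≤ n := by
          have : k ≤ n := by omega
          exact_mod_cast this
        have hEn : En n k = 4 * (k : ℝ) * ((n : ℝ) - k) := by simp [En]
        have hpos : 0 ≤ En n k := by
          rw [hEn]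
          have : (0 : ℝ) ≤ (n : ℝ) - k := by linarith
          positivity
        exact mul_nonneg hK₀.le (Real.rpow_nonneg hpos _)
    _ ≤ K₀ * 2 := by
        rw [← Finset.mul_sum]
        exact mul_le_mul_of_nonneg_left (p_C2_all n (by omega)) hK₀.le

end HillRoots
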