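import Pool.Agent.Lib.MP_e63cf8_mp.StmC
import Pool.Agent.Lib.MP_e63cf8_mp.StmD

/-!
# C3: the failure of the criterion
-/

set_option autoImplicit false

open Polynomial Filter Topology Asymptotics

namespace HillRoots

private lemma p_C3_an (c : ℂ) (g : ℂ → ℂ) (hg : AnalyticAt ℂ g 0) (h1 : g 0 = 1) :
    AnalyticAt ℝ (fun t : ℝ => (Complex.log (g (c * (t : ℂ)))).re) 0 := by
  have h2 : AnalyticAt ℂ (fun z => Complex.log (g z)) 0 :=
    hg.clog (by rw [h1]; exact Complex.one_mem_slitPlane)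
  have h3 : AnalyticAt ℝ (fun z : ℂ => Complex.log (g z)) 0 := h2.restrictScalars
  have h4 : AnalyticAt ℝ (fun t : ℝ => c * (t : ℂ)) 0 :=
    analyticAt_const.mul (Complex.ofRealCLM.analyticAt 0)
  have h5 := h3.comp_of_eq h4 (by simp)
  exact (Complex.reCLM.analyticAt _).comp h5

private lemma p_C3_br (M : ℕ) (c : ℂ) (g : ℂ → ℂ) (t : ℝ) : br M c g 0 t = g (c * t) := by
  unfold br
  simp

private lemma p_C3_log {a a' x x' t : ℝ} (ha : 0 < a) (ha' : 0 < a') (hx : 0 < x) (hx' : 0 < x')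
    (ht : 0 < t) : Real.log ((a * t * x)⁻¹ / (a' * t * x')⁻¹) =
      -((Real.log a + Real.log x) - (Real.log a' + Real.log x')) := by
  rw [Real.log_div (by positivity) (by positivity), Real.log_inv, Real.log_inv,
    Real.log_mul (by positivity) hx.ne', Real.log_mul (by positivity) hx'.ne',
    Real.log_mul ha.ne' ht.ne', Real.log_mul ha'.ne' ht.ne']
  ring

private lemma p_C3_an0 {P : ℂ[X]} {c : ℂ} {g : ℂ → ℂ} {τ₀ K δ : ℝ} (hB : Branch P c g τ₀ K δ) :
    AnalyticAt ℂ g 0 := by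
  obtain ⟨r, hr, han⟩ := hB.an
  refine han 0 (Metric.mem_ball_self ?_)
  have h1 : 0 ≤ ‖c‖ * τ₀ := mul_nonneg (norm_nonneg _) hB.ld.ht.le
  linarith

theorem p_C3 (hC1 : S_C1) (hR5 : S_R5) (hU1 : S_U1) : S_C3 := by
  intro P Q c c' g g' τ₀ K δ τ₀' K' δ' hP hQ hdeg hB hB' hCrit
  have hM : 1 ≤ P.natDegree := hB.ld.hM
  have hC1' := hC1 P Q c c' g g' τ₀ K δ τ₀' K' δ' hP hQ hdeg hB hB'
  have hRP := hR5 P c g τ₀ K δ hP hB
  have hRQ := hR5 Q c' g' τ₀' K' δ' hQ hB'
  have hlowP := hB.ld.low 0 hM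
  have hlowQ := hB'.ld.low 0 (by rw [← hdeg]; exact hM)
  rw [← hdeg] at hRQ hlowQ
  have hU := hU1 P.natDegree
  have an1 := p_C3_an c g (p_C3_an0 hB) hB.one
  have an2 := p_C3_an c' g' (p_C3_an0 hB') hB'.one
  have hc0 : 0 < ‖c‖ := norm_pos_iff.mpr hB.c0
  have hc0' : 0 < ‖c'‖ := norm_pos_iff.mpr hB'.c0
  have hτ := hB.ld.ht
  have hτ' := hB'.ld.ht
  clear hdeg
  generalize P.natDegree = M at hM hC1' hRP hRQ hlowP hlowQ hU
  have hMr : (0 : ℝ) < (M : ℝ) := by exact_mod_cast hM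
  have hy : (0 : ℝ) < 1 / (M : ℝ) := by positivity
  have t0 : Tendsto (fun E : ℝ => E ^ (-(1 / (M : ℝ)))) atTop (𝓝 0) := tendsto_rpow_neg_atTop hy
  obtain ⟨D, hDdef⟩ : ∃ D : ℝ → ℝ, D = fun t : ℝ =>
      (Real.log ‖c‖ + (Complex.log (g (c * (t : ℂ)))).re) -
        (Real.log ‖c'‖ + (Complex.log (g' (c' * (t : ℂ)))).re) := ⟨_, rfl⟩
  have anD : AnalyticAt ℝ D 0 := by
    rw [hDdef]
    exact (analyticAt_const.add an1).sub (analyticAt_const.add an2)
  -- the logarithm of the quotient of the smallest solutions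
  have hrel : ∀ᶠ E : ℝ in atTop,
      Real.log (rmin P E / rmin Q E) = - D (E ^ (-(1 / (M : ℝ)))) := by
    have e1 : ∀ᶠ E : ℝ in atTop, E ^ (-(1 / (M : ℝ))) < τ₀ := t0.eventually (Iio_mem_nhds hτ)
    have e2 : ∀ᶠ E : ℝ in atTop, E ^ (-(1 / (M : ℝ))) < τ₀' := t0.eventually (Iio_mem_nhds hτ')
    filter_upwards [hRP, hRQ, e1, e2, eventually_gt_atTop 0] with E h1 h2 h3 h4 h5
    have ht : 0 < E ^ (-(1 / (M : ℝ))) := Real.rpow_pos_of_pos h5 _
    have l1 := hlowP _ ⟨ht.le, h3.le⟩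
    have l2 := hlowQ _ ⟨ht.le, h4.le⟩
    rw [h1, h2]
    rw [p_C3_br] at l1 l2
    rw [p_C3_br, p_C3_br, p_C3_log hc0 hc0' (by linarith) (by linarith) ht, hDdef]
    simp only [Complex.log_re]
  by_cases hD0 : ∀ᶠ z in 𝓝 (0 : ℝ), D z = 0
  · exfalso
    apply hCrit
    unfold Crit
    have h0 : ∀ᶠ E : ℝ in atTop, Real.log (rmin P E / rmin Q E) = 0 := by
      filter_upwards [hrel, t0.eventually hD0] with E h1 h2
      rw [h1, h2, neg_zero]
    have h1 : (fun _ : ℝ => (0 : ℝ)) =O[atTop] (fun E : ℝ => E ^ (-(1 / 2) : ℝ)) := isBigO_zero _ _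
    refine h1.congr' ?_ EventuallyEq.rfl
    filter_upwards [h0] with E hE
    exact hE.symm
  obtain ⟨r, k, hk, hk0, hDk⟩ := anD.exists_eventuallyEq_pow_smul_nonzero_iff.mpr hD0
  by_cases hr : M ≤ 2 * r
  · exfalso
    apply hCrit
    unfold Crit
    have hkb : ∀ᶠ z in 𝓝 (0 : ℝ), |k z| ≤ |k 0| + 1 :=
      hk.continuousAt.abs.eventually (Iic_mem_nhds (lt_add_one _))
    refine IsBigO.of_bound (|k 0| + 1) ?_
    filter_upwards [hrel, t0.eventually hDk, t0.eventually hkb, eventually_ge_atTop 1]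
      with E h1 h2 h3 h4
    have hE0 : 0 ≤ E := by linarith
    have hp : (E ^ (-(1 / (M : ℝ)))) ^ r ≤ E ^ (-(1 / 2) : ℝ) := by
      rw [← Real.rpow_natCast, ← Real.rpow_mul hE0]
      refine Real.rpow_le_rpow_of_exponent_le h4 ?_
      have h5 : (M : ℝ) ≤ 2 * r := by exact_mod_cast hr
      have h6 : 1 / 2 ≤ 1 / (M : ℝ) * r := by
        rw [one_div_mul_eq_div, div_le_div_iff₀ (by norm_num) hMr]
        linarith
      linarith
    have hp0 : 0 ≤ (E ^ (-(1 / (M : ℝ)))) ^ r := by positivity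
    rw [h1, norm_neg, h2, sub_zero, smul_eq_mul, norm_mul, Real.norm_of_nonneg hp0,
      Real.norm_of_nonneg (Real.rpow_nonneg hE0 _), Real.norm_eq_abs, mul_comm]
    exact mul_le_mul h3 hp hp0 (by positivity)
  -- the main case
  push Not at hr
  obtain ⟨σ, hσ1, hσ2⟩ : ∃ σ : ℝ, |σ| = 1 ∧ σ * k 0 = |k 0| := by
    rcases lt_or_gt_of_ne hk0 with h | h
    · exact ⟨-1, by norm_num, by rw [abs_of_neg h]; ring⟩
    · exact ⟨1, by norm_num, by rw [abs_of_pos h]; ring⟩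
  obtain ⟨κ, hκ⟩ : ∃ κ : ℝ, κ = |k 0| / 2 := ⟨_, rfl⟩
  have hκ0 : 0 < κ := by
    have := abs_pos.mpr hk0
    rw [hκ]
    positivity
  have hks : ∀ᶠ z in 𝓝 (0 : ℝ), κ < σ * k z := by
    have hc : ContinuousAt (fun z => σ * k z) 0 := continuousAt_const.mul hk.continuousAt
    refine hc.eventually (Ioi_mem_nhds ?_)
    change κ < σ * k 0
    rw [hσ2, hκ]
    have := abs_pos.mpr hk0
    linarith
  obtain ⟨ε, hε, hεD⟩ := Metric.eventually_nhds_iff.mp (hDk.and hks)
  obtain ⟨E₁, hE₁⟩ := eventually_atTop.mp hrel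
  obtain ⟨C₀, hC₀⟩ : ∃ C₀ : ℝ, C₀ = Real.log (‖P.leadingCoeff‖ / ‖Q.leadingCoeff‖) := ⟨_, rfl⟩
  rw [← hC₀] at hC1'
  obtain ⟨e, he⟩ : ∃ e : ℝ, e = 2 * (-(1 / (M : ℝ))) * r := ⟨_, rfl⟩
  have he1 : 0 < 1 + e := by
    have h5 : 2 * (r : ℝ) < M := by exact_mod_cast hr
    have h6 : 2 * (r : ℝ) / M < 1 := by
      rw [div_lt_one hMr]
      exact h5
    have h7 : e = -(2 * (r : ℝ) / M) := by
      rw [he]
      ring
    rw [h7]
    linarith
  -- the lower bound
  have hlow : ∀ᶠ n : ℕ in atTop, κ / 2 * (n : ℝ) ^ (1 + e) - |C₀| ≤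
      |Real.log (RR P c g n / RR Q c' g' n)| := by
    filter_upwards [hC1', hU (ε / 2) hM (by positivity), eventually_ge_atTop (2 * M),
      tendsto_natCast_atTop_atTop.eventually_ge_atTop (E₁ / 4 + 1), eventually_ge_atTop 1]
      with n h1 h2 h3 h4 h5
    have hn0 : (0 : ℝ) < n := by exact_mod_cast h5
    have hterm : ∀ j ∈ Finset.Icc 1 (n - M),
        Real.log (rmin P (En n j) / rmin Q (En n j)) = -D (tau M n j) ∧
          κ * (n : ℝ) ^ e ≤ σ * D (tau M n j) := by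
      intro j hj
      rw [Finset.mem_Icc] at hj
      have hj1 : (1 : ℝ) ≤ j := by exact_mod_cast hj.1
      have hjn : j + 1 ≤ n := by omega
      have hjn' : (j : ℝ) + 1 ≤ n := by exact_mod_cast hjn
      have hEn : En n (j : ℤ) = 4 * (j : ℝ) * ((n : ℝ) - j) := by
        unfold En
        push_cast
        ring
      have hEtau : (En n (j : ℤ)) ^ (-(1 / (M : ℝ))) = tau M n j := by
        rw [hEn]
        rfl
      have hEbig : E₁ ≤ En n (j : ℤ) := by
        rw [hEn]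
        nlinarith [mul_nonneg (sub_nonneg.mpr hj1) (sub_nonneg.mpr hjn')]
      have hEpos : 0 < 4 * (j : ℝ) * ((n : ℝ) - j) := by
        have : 0 < (n : ℝ) - j := by linarith
        positivity
      have hEle : 4 * (j : ℝ) * ((n : ℝ) - j) ≤ (n : ℝ) ^ 2 := by
        nlinarith [sq_nonneg ((n : ℝ) - 2 * j)]
      have hτj := h2 j (by omega)
      have hτabs : dist (tau M n j) 0 < ε := by
        rw [Real.dist_eq, sub_zero, abs_of_nonneg hτj.1]
        linarith [hτj.2]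
      obtain ⟨hD1, hD2⟩ := hεD hτabs
      refine ⟨?_, ?_⟩
      · have := hE₁ _ hEbig
        rw [hEtau] at this
        exact this
      · have h6 : ((n : ℝ) ^ 2) ^ (-(1 / (M : ℝ))) ≤ tau M n j := by
          unfold tau
          exact Real.rpow_le_rpow_of_nonpos hEpos hEle (by linarith)
        have h7 : (n : ℝ) ^ e ≤ tau M n j ^ r := by
          calc (n : ℝ) ^ e = (((n : ℝ) ^ 2) ^ (-(1 / (M : ℝ)))) ^ r := by
                rw [he, Real.rpow_mul hn0.le, Real.rpow_mul hn0.le, Real.rpow_natCast,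
                  Real.rpow_ofNat]
            _ ≤ tau M n j ^ r := by
                gcongr
        have h8 : 0 ≤ tau M n j ^ r := pow_nonneg hτj.1 r
        rw [hD1, sub_zero, smul_eq_mul]
        calc κ * (n : ℝ) ^ e ≤ κ * tau M n j ^ r := by gcongr
          _ ≤ (σ * k (tau M n j)) * tau M n j ^ r := by gcongr
          _ = σ * (tau M n j ^ r * k (tau M n j)) := by ring
    have hlog : Real.log (RR P c g n / RR Q c' g' n) =
        C₀ + ∑ j ∈ Finset.Icc 1 (n - M), D (tau M n j) := by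
      rw [h1, Finset.sum_congr rfl fun j hj => (hterm j hj).1, Finset.sum_neg_distrib]
      ring
    have hsum : ((n : ℝ) - M) * (κ * (n : ℝ) ^ e) ≤
        σ * ∑ j ∈ Finset.Icc 1 (n - M), D (tau M n j) := by
      rw [Finset.mul_sum]
      calc ((n : ℝ) - M) * (κ * (n : ℝ) ^ e)
          = ∑ _j ∈ Finset.Icc 1 (n - M), κ * (n : ℝ) ^ e := by
            rw [Finset.sum_const, Nat.card_Icc, nsmul_eq_mul, Nat.add_sub_cancel,
              Nat.cast_sub (by omega)]
        _ ≤ _ := Finset.sum_le_sum fun j hj => (hterm j hj).2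
    have hn2 : (n : ℝ) / 2 ≤ (n : ℝ) - M := by
      have : (2 : ℝ) * M ≤ n := by exact_mod_cast h3
      linarith
    have hpow : (n : ℝ) ^ (1 + e) = n * (n : ℝ) ^ e := by
      rw [Real.rpow_add hn0, Real.rpow_one]
    have hpe : 0 ≤ κ * (n : ℝ) ^ e := by positivity
    calc κ / 2 * (n : ℝ) ^ (1 + e) - |C₀| = (n : ℝ) / 2 * (κ * (n : ℝ) ^ e) - |C₀| := by
          rw [hpow]
          ring
      _ ≤ ((n : ℝ) - M) * (κ * (n : ℝ) ^ e) - |C₀| := by
          have := mul_le_mul_of_nonneg_right hn2 hpe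
          linarith
      _ ≤ σ * (∑ j ∈ Finset.Icc 1 (n - M), D (tau M n j)) + σ * C₀ := by
          have h9 : -|C₀| ≤ σ * C₀ := by
            have : |σ * C₀| = |C₀| := by rw [abs_mul, hσ1, one_mul]
            rw [← this]
            exact neg_abs_le _
          linarith
      _ = σ * Real.log (RR P c g n / RR Q c' g' n) := by
          rw [hlog]
          ring
      _ ≤ |σ * Real.log (RR P c g n / RR Q c' g' n)| := le_abs_self _
      _ = |Real.log (RR P c g n / RR Q c' g' n)| := by rw [abs_mul, hσ1, one_mul]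
  refine tendsto_atTop_mono' _ hlow ?_
  have h1 : Tendsto (fun n : ℕ => (n : ℝ) ^ (1 + e)) atTop atTop :=
    (tendsto_rpow_atTop he1).comp tendsto_natCast_atTop_atTop
  have h2 : Tendsto (fun n : ℕ => κ / 2 * (n : ℝ) ^ (1 + e)) atTop atTop :=
    h1.const_mul_atTop (by positivity)
  have h3 := tendsto_atTop_add_const_right atTop (-|C₀|) h2
  simpa only [sub_eq_add_neg] using h3

end HillRoots
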