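import Pool.Agent.Lib.MP_e63cf8_mp.StmC
import Pool.Agent.Lib.MP_e63cf8_mp.StmD

/-!
Piece [e63 C4]: different degrees: the criterion fails and `|log (R / R')| → ∞`.
-/

open Polynomial Filter Topology MeasureTheory Asymptotics

namespace HillRoots

theorem p_C4_Gamma_add (x : ℝ) (hx : 0 < x) (k : ℕ) :
    x ^ k * Real.Gamma x ≤ Real.Gamma (x + k) := by
  induction k with
  | zero => simp
  | succ k ih =>
    have h1 : Real.Gamma (x + (k + 1 : ℕ)) = (x + k) * Real.Gamma (x + k) := by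
      rw [← Real.Gamma_add_one (by positivity)]
      push_cast
      congr 1
      ring
    rw [h1, pow_succ']
    have h2 : 0 < Real.Gamma (x + k) := Real.Gamma_pos_of_pos (by positivity)
    calc x * x ^ k * Real.Gamma x = x * (x ^ k * Real.Gamma x) := by ring
      _ ≤ x * Real.Gamma (x + k) := mul_le_mul_of_nonneg_left ih hx.le
      _ ≤ (x + k) * Real.Gamma (x + k) :=
        mul_le_mul_of_nonneg_right (by linarith [Nat.cast_nonneg (α := ℝ) k]) h2.le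

theorem p_C4_G (M M' : ℕ) (hM : 1 ≤ M) (hMM : M < M') (C : ℝ) :
    Tendsto (fun n : ℕ => Real.log (Real.Gamma ((n : ℝ) / M)) -
      Real.log (Real.Gamma ((n : ℝ) / M')) - C * n) atTop atTop := by
  have hM0 : (0 : ℝ) < M := by exact_mod_cast hM
  have hM'0 : (0 : ℝ) < M' := by
    have : 0 < M' := by omega
    exact_mod_cast this
  obtain ⟨δ, hδ⟩ : ∃ δ : ℝ, δ = 1 / M - 1 / M' := ⟨_, rfl⟩
  have hδ0 : 0 < δ := by
    rw [hδ, sub_pos]
    exact one_div_lt_one_div_of_lt hM0 (by exact_mod_cast hMM)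
  have hn : Tendsto (fun n : ℕ => (n : ℝ)) atTop atTop := tendsto_natCast_atTop_atTop
  have h1 : ∀ᶠ n : ℕ in atTop, 2 ≤ (n : ℝ) / M' :=
    (hn.atTop_div_const hM'0).eventually_ge_atTop 2
  have h2 : ∀ᶠ n : ℕ in atTop, 2 ≤ δ * n := (hn.const_mul_atTop hδ0).eventually_ge_atTop 2
  have h3 : ∀ᶠ n : ℕ in atTop, (|C| + 1) * (2 / δ) ≤ Real.log ((n : ℝ) / M') :=
    (Real.tendsto_log_atTop.comp (hn.atTop_div_const hM'0)).eventually_ge_atTop _
  refine tendsto_atTop_mono' _ ?_ hn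
  filter_upwards [h1, h2, h3] with n h1 h2 h3
  have hx0 : 0 < (n : ℝ) / M' := by linarith
  have hk1 : (⌊δ * n⌋₊ : ℝ) ≤ δ * n := Nat.floor_le (by linarith)
  have hk2 : δ * n - 1 < (⌊δ * n⌋₊ : ℝ) := Nat.sub_one_lt_floor _
  obtain ⟨k, hk⟩ : ∃ k : ℕ, k = ⌊δ * n⌋₊ := ⟨_, rfl⟩
  rw [← hk] at hk1 hk2
  have hsum : (n : ℝ) / M = n / M' + δ * n := by
    rw [hδ]
    field_simp
    ring
  have hmono : Real.Gamma ((n : ℝ) / M' + k) ≤ Real.Gamma ((n : ℝ) / M) := by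
    apply Real.Gamma_strictMonoOn_Ici.monotoneOn
    · show (2 : ℝ) ≤ _
      linarith [Nat.cast_nonneg (α := ℝ) k]
    · show (2 : ℝ) ≤ _
      linarith
    · linarith
  have hG := (p_C4_Gamma_add _ hx0 k).trans hmono
  have hGx : 0 < Real.Gamma ((n : ℝ) / M') := Real.Gamma_pos_of_pos hx0
  have hlog := Real.log_le_log (by positivity) hG
  rw [Real.log_mul (by positivity) hGx.ne', Real.log_pow] at hlog
  have hkk : δ * n / 2 ≤ k := by linarith
  have hC0 : 0 ≤ |C| := abs_nonneg C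
  have hL0 : 0 ≤ Real.log ((n : ℝ) / M') := Real.log_nonneg (by linarith)
  have h5 : (δ * n / 2) * ((|C| + 1) * (2 / δ)) ≤ k * Real.log ((n : ℝ) / M') := by
    apply mul_le_mul hkk h3 (by positivity) (by positivity)
  have h6 : (δ * n / 2) * ((|C| + 1) * (2 / δ)) = n * (|C| + 1) := by
    field_simp
  rw [h6] at h5
  have h7 : C * n ≤ |C| * n := mul_le_mul_of_nonneg_right (le_abs_self C) (Nat.cast_nonneg n)
  linarith

theorem p_C4_G' (M M' : ℕ) (hM : 1 ≤ M) (hM' : 1 ≤ M') (hMM : M ≠ M') (C : ℝ) :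
    Tendsto (fun n : ℕ => |Real.log (Real.Gamma ((n : ℝ) / M)) -
      Real.log (Real.Gamma ((n : ℝ) / M'))| - C * n) atTop atTop := by
  rcases lt_or_gt_of_ne hMM with h | h
  · refine tendsto_atTop_mono (fun n => ?_) (p_C4_G M M' hM h C)
    linarith [le_abs_self (Real.log (Real.Gamma ((n : ℝ) / M)) -
      Real.log (Real.Gamma ((n : ℝ) / M')))]
  · refine tendsto_atTop_mono (fun n => ?_) (p_C4_G M' M hM' h C)
    linarith [neg_abs_le (Real.log (Real.Gamma ((n : ℝ) / M)) -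
      Real.log (Real.Gamma ((n : ℝ) / M')))]

theorem p_C4_logbd (x : ℝ) (h1 : 1 / 2 ≤ x) (h2 : x ≤ 2) : |Real.log x| ≤ Real.log 2 := by
  rw [abs_le]
  constructor
  · rw [← Real.log_inv]
    exact Real.log_le_log (by norm_num) (by linarith)
  · exact Real.log_le_log (by linarith) h2

theorem p_C4_GG (M : ℕ) (c : ℂ) (g : ℂ → ℂ) (n : ℕ) (A : ℕ → ℂ) (τ₀ K δ : ℝ)
    (h : LDat M A (br M c g) τ₀ K δ) (hn : ∀ k < n, tau M n k ∈ Set.Icc 0 τ₀) :
    ∀ m : ℕ, m < n → 0 < GG M c g n m ∧ |Real.log (GG M c g n m)| ≤ m * Real.log 2 := by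
  intro m
  induction m with
  | zero => intro _; simp [GG]
  | succ m ih =>
    intro hm
    obtain ⟨h1, h2⟩ := ih (by omega)
    have h3 : GG M c g n (m + 1) = GG M c g n m * ‖br M c g 0 (tau M n (m + 1))‖ := by
      unfold GG
      rw [Finset.prod_Icc_succ_top (by omega)]
    have hM : 0 < M := h.hM
    have h4 := h.low 0 hM _ (hn (m + 1) hm)
    have h5 := h.upp 0 hM _ (hn (m + 1) hm)
    have h6 : 0 < ‖br M c g 0 (tau M n (m + 1))‖ := by linarith
    rw [h3]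
    refine ⟨by positivity, ?_⟩
    rw [Real.log_mul h1.ne' h6.ne']
    refine (abs_add_le _ _).trans ?_
    have h7 := p_C4_logbd _ h4 h5
    push_cast
    linarith

theorem p_C4_RR (hU1 : S_U1) (P : ℂ[X]) (c : ℂ) (g : ℂ → ℂ) (τ₀ K δ : ℝ)
    (hb : Branch P c g τ₀ K δ) :
    ∃ C : ℝ, ∀ᶠ n : ℕ in atTop, 0 < RR P c g n ∧
      |Real.log (RR P c g n) + 2 * Real.log (Real.Gamma ((n : ℝ) / P.natDegree))| ≤ C * n := by
  obtain ⟨M, hM⟩ : ∃ M : ℕ, M = P.natDegree := ⟨_, rfl⟩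
  have hld := hb.ld
  rw [← hM] at hld
  have hM1 : 1 ≤ M := hld.hM
  have hM0 : (0 : ℝ) < M := by exact_mod_cast hM1
  have ha : P.leadingCoeff ≠ 0 := by
    rw [← hb.hc]
    exact pow_ne_zero _ hb.c0
  have ha0 : 0 < ‖P.leadingCoeff‖ := norm_pos_iff.2 ha
  have hc0 : 0 < ‖c‖ := norm_pos_iff.2 hb.c0
  refine ⟨|Real.log ‖P.leadingCoeff‖| + |Real.log ‖c‖| + |Real.log (4 * (M : ℝ) ^ 2)| +
    Real.log 2, ?_⟩
  filter_upwards [hU1 M τ₀ hM1 hld.ht, eventually_gt_atTop M, eventually_ge_atTop 1] with n hn hnM hn1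
  obtain ⟨hG0, hG⟩ := p_C4_GG M c g n _ τ₀ K δ hld hn (n - M) (by omega)
  have hcast : ((n - M : ℕ) : ℝ) = n - M := by
    rw [Nat.cast_sub hnM.le]
  have hnM' : (M : ℝ) < n := by exact_mod_cast hnM
  have hn1' : (1 : ℝ) ≤ n := by exact_mod_cast hn1
  have hGam : 0 < Real.Gamma ((n : ℝ) / M) := Real.Gamma_pos_of_pos (by positivity)
  have hh1 : hh M c n (n - M) = c ^ (n - M) * (((4 * (M : ℝ) ^ 2) ^ (-(((n : ℝ) - M) / M)) /
      (Real.Gamma ((n : ℝ) / M) * Real.Gamma ((n : ℝ) / M)) : ℝ) : ℂ) := by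
    unfold hh
    rw [hcast]
    have e1 : ((n : ℝ) - (n - M)) / M = 1 := by field_simp; ring
    have e2 : 1 + ((n : ℝ) - M) / M = n / M := by field_simp; ring
    rw [e1, e2, Real.Gamma_one, mul_one]
  have hpos : 0 < (4 * (M : ℝ) ^ 2) ^ (-(((n : ℝ) - M) / M)) /
      (Real.Gamma ((n : ℝ) / M) * Real.Gamma ((n : ℝ) / M)) := by positivity
  have hh2 : ‖hh M c n (n - M)‖ = ‖c‖ ^ (n - M) * ((4 * (M : ℝ) ^ 2) ^ (-(((n : ℝ) - M) / M)) /
      (Real.Gamma ((n : ℝ) / M) * Real.Gamma ((n : ℝ) / M))) := by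
    rw [hh1, norm_mul, norm_pow, Complex.norm_real, Real.norm_eq_abs, abs_of_pos hpos]
  have hh3 : 0 < ‖hh M c n (n - M)‖ := by rw [hh2]; positivity
  have hRR : RR P c g n = ‖P.leadingCoeff‖ * ‖hh M c n (n - M)‖ * GG M c g n (n - M) := by
    unfold RR
    rw [← hM]
  rw [← hM, hRR]
  refine ⟨by positivity, ?_⟩
  rw [Real.log_mul (by positivity) hG0.ne', Real.log_mul ha0.ne' hh3.ne', hh2,
    Real.log_mul (by positivity) hpos.ne', Real.log_div (by positivity) (by positivity),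
    Real.log_mul hGam.ne' hGam.ne', Real.log_pow, Real.log_rpow (by positivity), hcast]
  rw [hcast] at hG
  have hl2 : 0 ≤ Real.log 2 := Real.log_nonneg (by norm_num)
  have e0 : Real.log ‖P.leadingCoeff‖ + (((n : ℝ) - M) * Real.log ‖c‖ +
      (-(((n : ℝ) - M) / M) * Real.log (4 * (M : ℝ) ^ 2) - (Real.log (Real.Gamma ((n : ℝ) / M)) +
        Real.log (Real.Gamma ((n : ℝ) / M))))) + Real.log (GG M c g n (n - M)) +
        2 * Real.log (Real.Gamma ((n : ℝ) / M)) =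
      Real.log ‖P.leadingCoeff‖ + ((n : ℝ) - M) * Real.log ‖c‖ +
        (-(((n : ℝ) - M) / M)) * Real.log (4 * (M : ℝ) ^ 2) + Real.log (GG M c g n (n - M)) := by
    ring
  rw [e0]
  refine (abs_add_le _ _).trans ?_
  have b1 : |Real.log ‖P.leadingCoeff‖ + ((n : ℝ) - M) * Real.log ‖c‖ +
      (-(((n : ℝ) - M) / M)) * Real.log (4 * (M : ℝ) ^ 2)| ≤ |Real.log ‖P.leadingCoeff‖| +
      |((n : ℝ) - M) * Real.log ‖c‖| + |(-(((n : ℝ) - M) / M)) * Real.log (4 * (M : ℝ) ^ 2)| :=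
    abs_add_three _ _ _
  have b2 : |Real.log ‖P.leadingCoeff‖| ≤ |Real.log ‖P.leadingCoeff‖| * n :=
    le_mul_of_one_le_right (abs_nonneg _) hn1'
  have b3 : |((n : ℝ) - M) * Real.log ‖c‖| ≤ |Real.log ‖c‖| * n := by
    rw [abs_mul, mul_comm, abs_of_pos (by linarith : (0 : ℝ) < n - M)]
    exact mul_le_mul_of_nonneg_left (by linarith) (abs_nonneg _)
  have b4 : |(-(((n : ℝ) - M) / M)) * Real.log (4 * (M : ℝ) ^ 2)| ≤
      |Real.log (4 * (M : ℝ) ^ 2)| * n := by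
    rw [abs_mul, mul_comm, abs_neg, abs_of_pos (div_pos (by linarith : (0 : ℝ) < n - M) hM0)]
    refine mul_le_mul_of_nonneg_left ?_ (abs_nonneg _)
    rw [div_le_iff₀ hM0]
    have : (1 : ℝ) ≤ M := by exact_mod_cast hM1
    nlinarith
  have b5 : ((n : ℝ) - M) * Real.log 2 ≤ Real.log 2 * n := by
    rw [mul_comm]
    exact mul_le_mul_of_nonneg_left (by linarith) hl2
  have b6 := hG
  linarith

theorem p_C4_rmin (hR5 : S_R5) (P : ℂ[X]) (c : ℂ) (g : ℂ → ℂ) (τ₀ K δ : ℝ) (hP : P.coeff 0 = 0)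
    (hb : Branch P c g τ₀ K δ) :
    ∃ C : ℝ, ∀ᶠ E : ℝ in atTop, 0 < rmin P E ∧
      |Real.log (rmin P E) - 1 / P.natDegree * Real.log E| ≤ C := by
  have hM1 : 1 ≤ P.natDegree := hb.ld.hM
  have hM0 : (0 : ℝ) < P.natDegree := by exact_mod_cast hM1
  have hc0 : 0 < ‖c‖ := norm_pos_iff.2 hb.c0
  have htend : Tendsto (fun E : ℝ => E ^ (-(1 / (P.natDegree : ℝ)))) atTop (𝓝 0) :=
    tendsto_rpow_neg_atTop (by positivity)
  have hτ : ∀ᶠ E : ℝ in atTop, E ^ (-(1 / (P.natDegree : ℝ))) < τ₀ :=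
    htend.eventually_lt_const hb.ld.ht
  refine ⟨|Real.log ‖c‖| + Real.log 2, ?_⟩
  filter_upwards [hR5 P c g τ₀ K δ hP hb, hτ, eventually_gt_atTop 0] with E h1 h2 h3
  have ht0 : 0 < E ^ (-(1 / (P.natDegree : ℝ))) := by positivity
  have hmem : E ^ (-(1 / (P.natDegree : ℝ))) ∈ Set.Icc 0 τ₀ := ⟨ht0.le, h2.le⟩
  have h4 := hb.ld.low 0 hM1 _ hmem
  have h5 := hb.ld.upp 0 hM1 _ hmem
  have h6 : 0 < ‖br P.natDegree c g 0 (E ^ (-(1 / (P.natDegree : ℝ))))‖ := by linarith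
  have h7 := p_C4_logbd _ h4 h5
  rw [h1]
  refine ⟨by positivity, ?_⟩
  rw [Real.log_inv, Real.log_mul (by positivity) h6.ne', Real.log_mul hc0.ne' ht0.ne',
    Real.log_rpow h3]
  have e0 : -(Real.log ‖c‖ + -(1 / (P.natDegree : ℝ)) * Real.log E +
      Real.log ‖br P.natDegree c g 0 (E ^ (-(1 / (P.natDegree : ℝ))))‖) -
      1 / (P.natDegree : ℝ) * Real.log E = -(Real.log ‖c‖ +
      Real.log ‖br P.natDegree c g 0 (E ^ (-(1 / (P.natDegree : ℝ))))‖) := by ring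
  rw [e0, abs_neg]
  refine (abs_add_le _ _).trans ?_
  linarith

theorem p_C4 (hR5 : S_R5) (hU1 : S_U1) (hH1 : S_H1) : S_C4 := by
  intro P Q c c' g g' τ₀ K δ τ₀' K' δ' hP hQ hdeg hbP hbQ
  have hM1 : 1 ≤ P.natDegree := hbP.ld.hM
  have hM1' : 1 ≤ Q.natDegree := hbQ.ld.hM
  constructor
  · intro hcrit
    obtain ⟨C, hC⟩ := p_C4_rmin hR5 P c g τ₀ K δ hP hbP
    obtain ⟨C', hC'⟩ := p_C4_rmin hR5 Q c' g' τ₀' K' δ' hQ hbQ
    have h0 : Tendsto (fun E : ℝ => Real.log (rmin P E / rmin Q E)) atTop (𝓝 0) :=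
      IsBigO.trans_tendsto hcrit (tendsto_rpow_neg_atTop (by norm_num))
    have h1 : ∀ᶠ E : ℝ in atTop, |Real.log (rmin P E / rmin Q E)| < 1 := by
      have := h0.abs
      rw [abs_zero] at this
      exact this.eventually_lt_const one_pos
    have hne : (1 / (P.natDegree : ℝ) - 1 / Q.natDegree) ≠ 0 := by
      intro h
      apply hdeg
      have h2 : (1 / (P.natDegree : ℝ)) = 1 / Q.natDegree := by linarith
      rw [one_div, one_div] at h2
      have h3 := inv_injective h2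
      exact_mod_cast h3
    have hpos : 0 < |1 / (P.natDegree : ℝ) - 1 / Q.natDegree| := abs_pos.2 hne
    have h2 : ∀ᶠ E : ℝ in atTop, C + C' + 1 ≤ |1 / (P.natDegree : ℝ) - 1 / Q.natDegree| * Real.log E :=
      (Real.tendsto_log_atTop.const_mul_atTop hpos).eventually_ge_atTop _
    obtain ⟨E, hE1, hE2, hE3, hE4, hE5⟩ :=
      (hC.and (hC'.and (h1.and (h2.and (eventually_ge_atTop 1))))).exists
    have hE6 : 0 ≤ Real.log E := Real.log_nonneg hE5
    rw [Real.log_div hE1.1.ne' hE2.1.ne'] at hE3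
    have e0 : (1 / (P.natDegree : ℝ) - 1 / Q.natDegree) * Real.log E =
        (Real.log (rmin P E) - Real.log (rmin Q E)) -
          (Real.log (rmin P E) - 1 / P.natDegree * Real.log E) +
          (Real.log (rmin Q E) - 1 / Q.natDegree * Real.log E) := by ring
    have e1 : |(1 / (P.natDegree : ℝ) - 1 / Q.natDegree) * Real.log E| ≤
        |Real.log (rmin P E) - Real.log (rmin Q E)| +
          |Real.log (rmin P E) - 1 / P.natDegree * Real.log E| +
          |Real.log (rmin Q E) - 1 / Q.natDegree * Real.log E| := by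
      rw [e0]
      refine (abs_add_le _ _).trans ?_
      gcongr
      exact abs_sub _ _
    rw [abs_mul, abs_of_nonneg hE6] at e1
    linarith [hE1.2, hE2.2]
  · obtain ⟨C, hC⟩ := p_C4_RR hU1 P c g τ₀ K δ hbP
    obtain ⟨C', hC'⟩ := p_C4_RR hU1 Q c' g' τ₀' K' δ' hbQ
    have hG := (p_C4_G' P.natDegree Q.natDegree hM1 hM1' hdeg ((C + C') / 2)).const_mul_atTop
      (two_pos : (0 : ℝ) < 2)
    refine tendsto_atTop_mono' _ ?_ hG
    filter_upwards [hC, hC'] with n h1 h2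
    rw [Real.log_div h1.1.ne' h2.1.ne']
    have e0 : 2 * (Real.log (Real.Gamma ((n : ℝ) / P.natDegree)) -
        Real.log (Real.Gamma ((n : ℝ) / Q.natDegree))) =
        -(Real.log (RR P c g n) - Real.log (RR Q c' g' n)) +
        (Real.log (RR P c g n) + 2 * Real.log (Real.Gamma ((n : ℝ) / P.natDegree))) -
        (Real.log (RR Q c' g' n) + 2 * Real.log (Real.Gamma ((n : ℝ) / Q.natDegree))) := by ring
    have e1 : |2 * (Real.log (Real.Gamma ((n : ℝ) / P.natDegree)) -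
        Real.log (Real.Gamma ((n : ℝ) / Q.natDegree)))| ≤
        |Real.log (RR P c g n) - Real.log (RR Q c' g' n)| +
        |Real.log (RR P c g n) + 2 * Real.log (Real.Gamma ((n : ℝ) / P.natDegree))| +
        |Real.log (RR Q c' g' n) + 2 * Real.log (Real.Gamma ((n : ℝ) / Q.natDegree))| := by
      rw [e0]
      refine (abs_sub _ _).trans ?_
      gcongr
      refine (abs_add_le _ _).trans ?_
      rw [abs_neg]
    rw [abs_mul, abs_two] at e1
    linarith [h1.2, h2.2]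

end HillRoots
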