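import Pool.Agent.Lib.MP_e63cf8_mp.StmB

/-! # Piece F7: pairs of eigenvectors along `S` -/

open Polynomial Filter Topology MeasureTheory Asymptotics

namespace HillRoots

theorem p_F7_div (K : ℝ) (_hK : 0 < K) (c : ℝ) (hc : 0 < c) (n : ℕ) (hn : ⌈K / c⌉₊ + 1 ≤ n) :
    K / n ≤ c := by
  have h1 : K / c ≤ n := by
    have h2 : K / c ≤ ⌈K / c⌉₊ := Nat.le_ceil _
    have h3 : ((⌈K / c⌉₊ : ℕ) : ℝ) ≤ n := by
      have : ⌈K / c⌉₊ ≤ n := by omega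
      exact_mod_cast this
    linarith
  have h2 : (0 : ℝ) < n := by
    have : 0 < n := by omega
    exact_mod_cast this
  rw [div_le_iff₀ h2]
  rw [div_le_iff₀ hc] at h1
  linarith

/-- the consequences of `Reg` at one `n` -/
theorem p_F7_reg (β : ℕ → ℂ → ℂ) (R : ℕ → ℝ) (S : Set ℕ) (h : Reg β R S) :
    ∃ (ε : ℝ) (n₀ : ℕ), 0 < ε ∧ ∀ n ∈ S, n₀ ≤ n → 0 < R n ∧ β n 0 ≠ 0 ∧
      ε * R n ≤ ‖β n 0‖ ∧ ‖β n 0‖ ≤ 2 * R n ∧ ∀ z z' : ℂ, ‖z‖ ≤ 1 → ‖z'‖ ≤ 1 →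
        ‖β n z - β n z'‖ ≤ 1 / 16 * ‖β n 0‖ * ‖z - z'‖ := by
  obtain ⟨ε, hε, h⟩ := h
  obtain ⟨n₀, hn₀⟩ := h (ε / 16) (by positivity)
  refine ⟨ε, n₀, hε, fun n hn hle => ?_⟩
  obtain ⟨hR, hz⟩ := hn₀ n hn hle
  have h0 : ‖(0 : ℂ)‖ ≤ 1 := by simp
  obtain ⟨h1, h2, -⟩ := hz 0 0 h0 h0
  have hpos : 0 < ‖β n 0‖ := lt_of_lt_of_le (by positivity) h1
  refine ⟨hR, norm_pos_iff.mp hpos, h1, h2, fun z z' hz1 hz2 => ?_⟩
  obtain ⟨-, -, h3⟩ := hz z z' hz1 hz2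
  calc ‖β n z - β n z'‖ ≤ ε / 16 * ‖z - z'‖ * R n := h3
    _ = 1 / 16 * (ε * R n) * ‖z - z'‖ := by ring
    _ ≤ 1 / 16 * ‖β n 0‖ * ‖z - z'‖ := by gcongr

theorem p_F7 (_hF1 : S_F1) (_hF3 : S_F3) (hF4 : S_F4) (hF5 : S_F5) (hF6 : S_F6) : S_F7 := by
  intro P Q R R' S hP hQ hR hR'
  obtain ⟨ε, nR, hε, hR⟩ := p_F7_reg _ _ _ hR
  obtain ⟨ε', nR', hε', hR'⟩ := p_F7_reg _ _ _ hR'
  obtain ⟨n4, K4, hK4, h4⟩ := hF4 P Q 1 hP hQ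
  obtain ⟨n4', K4', hK4', h4'⟩ := hF4 Q P 1 hQ hP
  obtain ⟨n5, K5, hK5, h5⟩ := hF5 P Q 1
  refine ⟨K5 + 2 / ε + 2 / ε',
    nR + nR' + n4 + n4' + n5 + (⌈K4 / (1 / 8)⌉₊ + 1) + (⌈K4' / (1 / 4)⌉₊ + 1), by positivity,
    fun k hk hkn => ?_⟩
  obtain ⟨hRp, ha0, ha1, ha2, ha3⟩ := hR (2 * k) hk (by omega)
  obtain ⟨hRp', hb0, hb1, hb2, hb3⟩ := hR' (2 * k) hk (by omega)
  refine ⟨hRp, hRp', ?_⟩
  have hk4 : K4 / ((2 * k : ℕ) : ℝ) ≤ 1 / 8 := p_F7_div K4 hK4 _ (by norm_num) _ (by omega)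
  have hk4' : K4' / ((2 * k : ℕ) : ℝ) ≤ 1 / 4 := p_F7_div K4' hK4' _ (by norm_num) _ (by omega)
  have h0 : ‖(0 : ℂ)‖ ≤ 1 := by simp
  have ha4 : ‖beta P Q (2 * k) 0‖ ≤ 1 / 4 := by
    have := (h4 (2 * k) (by omega) 0 0 h0 h0).2.1
    linarith
  have hb4 : ‖beta Q P (2 * k) 0‖ ≤ 1 / 4 := by
    have := (h4' (2 * k) (by omega) 0 0 h0 h0).2.1
    linarith
  obtain ⟨z, z', r, r', r₀, hzz, hz, hz', hr₀, hr, hr', hrr, e1, e2, e3, e4⟩ :=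
    hF6 (beta P Q (2 * k)) (beta Q P (2 * k)) (alpha P Q (2 * k)) ha0 hb0 ha4 hb4 (by
      intro z z' hz hz'
      obtain ⟨a1, a2, a3⟩ := h4 (2 * k) (by omega) z z' hz hz'
      refine ⟨a1.trans hk4, a3.trans ?_, ha3 z z' hz hz', hb3 z z' hz hz'⟩
      exact mul_le_mul_of_nonneg_right hk4 (norm_nonneg _))
  obtain ⟨x, hx1, -, hx2⟩ := h5 k (by omega) (by omega) z 1 r hz (by rw [mul_one]; exact e1)
    (by rw [mul_one]; exact e2)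
  obtain ⟨x', hx1', -, hx2'⟩ := h5 k (by omega) (by omega) z' 1 r' hz' (by rw [mul_one]; exact e3)
    (by rw [mul_one]; exact e4)
  have hk0 : (0 : ℝ) < k := by
    have : 0 < k := by omega
    exact_mod_cast this
  have hbp : 0 < ‖beta Q P (2 * k) 0‖ := norm_pos_iff.mpr hb0
  have hKK : ∀ c : ℝ, 0 ≤ c → K5 / k * (‖(1 : ℂ)‖ + c) ≤ (K5 + 2 / ε + 2 / ε') / k * (1 + c) := by
    intro c hc
    rw [norm_one]
    have : K5 ≤ K5 + 2 / ε + 2 / ε' := by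
      have h1 : 0 < 2 / ε := by positivity
      have h2 : 0 < 2 / ε' := by positivity
      linarith
    gcongr
  refine ⟨x, x', z, z', r, r', r₀, hzz, hz, hz', hr₀, hr, hr', ?_, ?_, hx1, hx1', ?_, ?_⟩
  · rw [hrr, div_le_iff₀ hbp]
    have h1 : 2 * R (2 * k) ≤ 2 / ε' * (R (2 * k) / R' (2 * k)) * (ε' * R' (2 * k)) := by
      apply le_of_eq
      field_simp
    calc ‖beta P Q (2 * k) 0‖ ≤ 2 * R (2 * k) := ha2
      _ ≤ 2 / ε' * (R (2 * k) / R' (2 * k)) * (ε' * R' (2 * k)) := h1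
      _ ≤ 2 / ε' * (R (2 * k) / R' (2 * k)) * ‖beta Q P (2 * k) 0‖ := by gcongr
      _ ≤ (K5 + 2 / ε + 2 / ε') * (R (2 * k) / R' (2 * k)) * ‖beta Q P (2 * k) 0‖ := by
        have : 2 / ε' ≤ K5 + 2 / ε + 2 / ε' := by
          have h1 : 0 < 2 / ε := by positivity
          linarith
        gcongr
  · rw [hrr]
    calc R (2 * k) / R' (2 * k) = 2 / ε * (ε * R (2 * k) / (2 * R' (2 * k))) := by field_simp
      _ ≤ 2 / ε * (‖beta P Q (2 * k) 0‖ / ‖beta Q P (2 * k) 0‖) := by gcongr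
      _ ≤ (K5 + 2 / ε + 2 / ε') * (‖beta P Q (2 * k) 0‖ / ‖beta Q P (2 * k) 0‖) := by
        have : 2 / ε ≤ K5 + 2 / ε + 2 / ε' := by
          have h1 : 0 < 2 / ε' := by positivity
          linarith
        gcongr
  · rw [one_smul] at hx2
    exact hx2.trans (hKK _ (norm_nonneg _))
  · rw [one_smul] at hx2'
    exact hx2'.trans (hKK _ (norm_nonneg _))

end HillRoots
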