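import Pool.Agent.Lib.MP_e63cf8_mp.StmB
import Pool.Agent.Lib.MP_e63cf8_mp.StmE
import Pool.Agent.Lib.MP_e63cf8_mp.P.F7

/-! # Piece E1: pairs of eigenvectors, with constants independent of `S` (same proof as F7) -/

open Polynomial Filter Topology MeasureTheory Asymptotics

namespace HillRoots

theorem p_E1 (_hF1 : S_F1) (_hF3 : S_F3) (hF4 : S_F4) (hF5 : S_F5) (hF6 : S_F6) : S_E1 := by
  intro P Q hP hQ
  obtain ⟨n4, K4, hK4, h4⟩ := hF4 P Q 1 hP hQ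
  obtain ⟨n4', K4', hK4', h4'⟩ := hF4 Q P 1 hQ hP
  obtain ⟨n5, K5, hK5, h5⟩ := hF5 P Q 1
  refine ⟨K5, hK5, ?_⟩
  intro R R' S hR hR'
  obtain ⟨ε, nR, hε, hR⟩ := p_F7_reg _ _ _ hR
  obtain ⟨ε', nR', hε', hR'⟩ := p_F7_reg _ _ _ hR'
  refine ⟨nR + nR' + n4 + n4' + n5 + (⌈K4 / (1 / 8)⌉₊ + 1) + (⌈K4' / (1 / 4)⌉₊ + 1),
    fun k hk hkn => ?_⟩
  obtain ⟨hRp, ha0, ha1, ha2, ha3⟩ := hR (2 * k) hk (by omega)
  obtain ⟨hRp', hb0, hb1, hb2, hb3⟩ := hR' (2 * k) hk (by omega)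
  refine ⟨norm_pos_iff.mpr ha0, norm_pos_iff.mpr hb0, ?_⟩
  have hk4 : K4 / ((2 * k : ℕ) : ℝ) ≤ 1 / 8 := p_F7_div K4 hK4 _ (by norm_num) _ (by omega)
  have hk4' : K4' / ((2 * k : ℕ) : ℝ) ≤ 1 / 4 := p_F7_div K4' hK4' _ (by norm_num) _ (by omega)
  have h0 : ‖(0 : ℂ)‖ ≤ 1 := by simp
  have ha4 : ‖beta P Q (2 * k) 0‖ ≤ 1 / 4 := by
    have := (h4 (2 * k) (by omega) 0 0 h0 h0).2.1
    linarith
  have hb4 : ‖beta Q P (2 * k) 0‖ ≤ 1 / 4 := by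
    have := (h4' (2 * k) (by omega) 0 0 h0 h0).2.1
    linarith
  obtain ⟨z, z', r, r', r₀, hzz, hz, hz', hr₀, hr, hr', hrr, e1, e2, e3, e4⟩ :=
    hF6 (beta P Q (2 * k)) (beta Q P (2 * k)) (alpha P Q (2 * k)) ha0 hb0 ha4 hb4 (by
      intro z z' hz hz'
      obtain ⟨a1, a2, a3⟩ := h4 (2 * k) (by omega) z z' hz hz'
      refine ⟨a1.trans hk4, a3.trans ?_, ha3 z z' hz hz', hb3 z z' hz hz'⟩
      exact mul_le_mul_of_nonneg_right hk4 (norm_nonneg _))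
  obtain ⟨x, hx1, -, hx2⟩ := h5 k (by omega) (by omega) z 1 r hz (by rw [mul_one]; exact e1)
    (by rw [mul_one]; exact e2)
  obtain ⟨x', hx1', -, hx2'⟩ := h5 k (by omega) (by omega) z' 1 r' hz' (by rw [mul_one]; exact e3)
    (by rw [mul_one]; exact e4)
  refine ⟨x, x', z, z', r, r', r₀, hzz, hz, hz', hr₀, hr, hr', hrr, hx1, hx1', ?_, ?_⟩
  · rw [one_smul, norm_one] at hx2
    exact hx2
  · rw [one_smul, norm_one] at hx2'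
    exact hx2'

end HillRoots
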