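import Pool.Agent.Lib.MP_e63cf8_mp.StmA
import Pool.Agent.Lib.MP_e63cf8_mp.StmB
import Pool.Agent.Lib.MP_e63cf8_mp.StmE

/-! [E2] arbitrarily unequal sizes give bad pairs. -/

open Polynomial Filter Topology MeasureTheory Asymptotics

namespace HillRoots

private theorem p_E2_norm_ee (j : ℤ) : ‖ee j‖ = 1 := by
  unfold ee
  rw [lp.norm_single (by norm_num)]
  simp

/-- small `r` -/
private theorem p_E2_small (x : Hs) (k : ℕ) (r : ℂ) (K ε : ℝ)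
    (h : ‖x - ee (-(k : ℤ)) - r • ee k‖ ≤ K / k * (1 + ‖r‖)) (hK : K / k ≤ ε / 4) (hε : 0 ≤ ε)
    (hr : ‖r‖ ≤ ε / 4) (hr1 : ‖r‖ ≤ 1) : ‖x - ee (-(k : ℤ))‖ ≤ ε := by
  have h1 : ‖x - ee (-(k : ℤ))‖ ≤ ‖x - ee (-(k : ℤ)) - r • ee k‖ + ‖r • ee (k : ℤ)‖ := by
    have := norm_add_le (x - ee (-(k : ℤ)) - r • ee k) (r • ee (k : ℤ))
    rwa [sub_add_cancel] at this
  rw [norm_smul, p_E2_norm_ee, mul_one] at h1
  have h2 : K / k * (1 + ‖r‖) ≤ ε / 4 * (1 + ‖r‖) :=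
    mul_le_mul_of_nonneg_right hK (by positivity)
  have h3 : ε / 4 * (1 + ‖r‖) ≤ ε / 4 * 2 :=
    mul_le_mul_of_nonneg_left (by linarith) (by positivity)
  linarith

/-- large `r` -/
private theorem p_E2_large (x : Hs) (k : ℕ) (r : ℂ) (K ε : ℝ)
    (h : ‖x - ee (-(k : ℤ)) - r • ee k‖ ≤ K / k * (1 + ‖r‖)) (hK : K / k ≤ ε / 4)
    (hε : 0 < ε) (hr : 4 / ε ≤ ‖r‖) (hr1 : 1 ≤ ‖r‖) : ‖r⁻¹ • x - ee k‖ ≤ ε := by
  have hr0 : 0 < ‖r‖ := by linarith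
  have hrn : r ≠ 0 := norm_pos_iff.1 hr0
  have h1 : r⁻¹ • x - ee k = r⁻¹ • (x - ee (-(k : ℤ)) - r • ee k) + r⁻¹ • ee (-(k : ℤ)) := by
    have h2 : x - ee (-(k : ℤ)) - r • ee k + ee (-(k : ℤ)) = x - r • ee (k : ℤ) := by abel
    rw [← smul_add, h2, smul_sub, smul_smul, inv_mul_cancel₀ hrn, one_smul]
  rw [h1]
  refine (norm_add_le _ _).trans ?_
  rw [norm_smul, norm_smul, p_E2_norm_ee, norm_inv, mul_one]
  have h3 : ‖r‖⁻¹ ≤ ε / 4 := by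
    rw [inv_le_comm₀ hr0 (by positivity)]
    rw [inv_div]
    exact hr
  have h4 : ‖r‖⁻¹ * ‖x - ee (-(k : ℤ)) - r • ee k‖ ≤ ‖r‖⁻¹ * (ε / 4 * (1 + ‖r‖)) := by
    refine mul_le_mul_of_nonneg_left (h.trans ?_) (by positivity)
    exact mul_le_mul_of_nonneg_right hK (by positivity)
  have h5 : ‖r‖⁻¹ * (ε / 4 * (1 + ‖r‖)) = ε / 4 * (‖r‖⁻¹ + 1) := by
    field_simp
  have h6 : ‖r‖⁻¹ ≤ 1 := inv_le_one_of_one_le₀ hr1
  have h7 : ε / 4 * (‖r‖⁻¹ + 1) ≤ ε / 4 * 2 :=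
    mul_le_mul_of_nonneg_left (by linarith) (by positivity)
  linarith

theorem p_E2 (hE1 : S_E1) (hB7 : S_B7) : S_E2 := by
  intro P Q hP hQ H
  obtain ⟨K, hK, hE⟩ := hE1 P Q hP hQ
  refine ⟨1, fun ε hε => ?_⟩
  set η : ℝ := min ε 1 with hη
  have hη0 : 0 < η := lt_min hε one_pos
  have hηε : η ≤ ε := min_le_left _ _
  have hη1 : η ≤ 1 := min_le_right _ _
  obtain ⟨S, R, R', hSi, hSe, hR, hR', hC⟩ := H (2 * Real.log (8 / η))
  obtain ⟨n₀, hn₀⟩ := hE R R' S hR hR'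
  -- choose a large `k`
  obtain ⟨k₁, hk₁⟩ := exists_nat_ge (1 / ε)
  obtain ⟨k₂, hk₂⟩ := exists_nat_ge (4 * K / η)
  obtain ⟨n, hnS, hn⟩ := hSi.exists_gt (2 * (n₀ + k₁ + k₂ + 1))
  obtain ⟨k, hk⟩ := hSe n hnS
  have hnk : n = 2 * k := by omega
  subst hnk
  have hk0 : n₀ ≤ k := by omega
  have hk1 : (k₁ : ℝ) ≤ k := by exact_mod_cast (by omega : k₁ ≤ k)
  have hk2 : (k₂ : ℝ) ≤ k := by exact_mod_cast (by omega : k₂ ≤ k)
  have hkpos : (0 : ℝ) < k := by exact_mod_cast (by omega : 0 < k)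
  have hKk : K / k ≤ η / 4 := by
    rw [div_le_div_iff₀ hkpos (by norm_num)]
    have : 4 * K / η ≤ k := hk₂.trans hk2
    rw [div_le_iff₀ hη0] at this
    linarith
  obtain ⟨hb, hb', x, x', z, z', r, r', r₀, hzz, hz, hz', hr0, hr, hr', hsq, hx, hx', hxn, hxn'⟩ :=
    hn₀ k hnS hk0
  have hc := hC (2 * k) hnS
  have hq : 0 < ‖beta P Q (2 * k) 0‖ / ‖beta Q P (2 * k) 0‖ := div_pos hb hb'
  rw [← hsq] at hc hq
  have hr0n : 0 < ‖r₀‖ := norm_pos_iff.2 hr0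
  have hlog : Real.log (‖r₀‖ ^ 2) = 2 * Real.log ‖r₀‖ := by
    rw [Real.log_pow]
    norm_num
  rw [hlog] at hc
  have hab : ∀ w : ℂ, ‖4 * (k : ℂ) ^ 2 + w - 4 * (k : ℂ) ^ 2‖ = ‖w‖ := by
    intro w
    rw [add_sub_cancel_left]
  have hne : 4 * (k : ℂ) ^ 2 + z ≠ 4 * (k : ℂ) ^ 2 + z' := fun h => hzz (add_left_cancel h)
  have h8 : 0 < 8 / η := by positivity
  have hup : ∀ w v : ℂ, ‖w - v‖ ≤ ‖v‖ / 4 → ‖w‖ ≤ 2 * ‖v‖ := by
    intro w v h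
    have := norm_add_le (w - v) v
    rw [sub_add_cancel] at this
    have := norm_nonneg v
    linarith
  have hlow : ∀ w v : ℂ, ‖w - v‖ ≤ ‖v‖ / 4 → ‖v‖ / 2 ≤ ‖w‖ := by
    intro w v h
    have := norm_sub_le w (w - v)
    rw [sub_sub_cancel] at this
    have := norm_nonneg v
    linarith
  have hr'' : ‖r' - (-r₀)‖ ≤ ‖-r₀‖ / 4 := by rwa [sub_neg_eq_add, norm_neg]
  rcases le_abs.1 hc with hc | hc
  · -- large
    have hlr : Real.log (8 / η) ≤ Real.log ‖r₀‖ := by linarith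
    have hr8 : 8 / η ≤ ‖r₀‖ := (Real.log_le_log_iff h8 hr0n).1 hlr
    have hA : 4 / η ≤ ‖r‖ := by
      have := hlow r r₀ hr
      have h4 : 8 / η = 2 * (4 / η) := by ring
      linarith
    have hB : 4 / η ≤ ‖r'‖ := by
      have := hlow r' (-r₀) hr''
      rw [norm_neg] at this
      have h4 : 8 / η = 2 * (4 / η) := by ring
      linarith
    have h41 : 1 ≤ 4 / η := by
      rw [one_le_div hη0]
      linarith
    obtain ⟨S₁, hS₁⟩ := (hB7 P Q).1 (4 * (k : ℂ) ^ 2 + z)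
    obtain ⟨S₂, hS₂⟩ := (hB7 P Q).1 (4 * (k : ℂ) ^ 2 + z')
    refine ⟨k, r⁻¹ • x, r'⁻¹ • x', 4 * (k : ℂ) ^ 2 + z, 4 * (k : ℂ) ^ 2 + z', k,
      hk₁.trans hk1, hne, by rw [hab]; exact hz, by rw [hab]; exact hz', ?_, ?_, ?_, ?_⟩
    · rw [← hS₁]
      exact S₁.smul_mem _ (by rw [← SetLike.mem_coe, hS₁]; exact hx)
    · rw [← hS₂]
      exact S₂.smul_mem _ (by rw [← SetLike.mem_coe, hS₂]; exact hx')
    · exact (p_E2_large x k r K η hxn hKk hη0 hA (h41.trans hA)).trans hηε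
    · exact (p_E2_large x' k r' K η hxn' hKk hη0 hB (h41.trans hB)).trans hηε
  · -- small
    have hlr : Real.log ‖r₀‖ ≤ Real.log (8 / η)⁻¹ := by
      rw [Real.log_inv]
      linarith
    have hr8 : ‖r₀‖ ≤ (8 / η)⁻¹ := (Real.log_le_log_iff hr0n (by positivity)).1 hlr
    rw [inv_div] at hr8
    have hA : ‖r‖ ≤ η / 4 := by
      have := hup r r₀ hr
      linarith
    have hB : ‖r'‖ ≤ η / 4 := by
      have := hup r' (-r₀) hr''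
      rw [norm_neg] at this
      linarith
    refine ⟨k, x, x', 4 * (k : ℂ) ^ 2 + z, 4 * (k : ℂ) ^ 2 + z', -(k : ℤ),
      hk₁.trans hk1, hne, by rw [hab]; exact hz, by rw [hab]; exact hz', hx, hx', ?_, ?_⟩
    · exact (p_E2_small x k r K η hxn hKk hη0.le hA (by linarith)).trans hηε
    · exact (p_E2_small x' k r' K η hxn' hKk hη0.le hB (by linarith)).trans hηε

end HillRoots
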