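import Pool.Agent.Lib.MP_e63cf8_mp.StmB

open Polynomial Filter Topology MeasureTheory Asymptotics

namespace HillRoots

private theorem p_F1_nu (P Q : ℂ[X]) : 0 ≤ nu P Q := by
  unfold nu
  positivity

private theorem p_F1_vop (P Q : ℂ[X]) (x : ℤ → ℂ) (C : ℝ) (h : ∀ s, ‖x s‖ ≤ C) (s : ℤ) :
    ‖Vop P Q x s‖ ≤ nu P Q * C := by
  unfold Vop nu
  rw [add_mul, Finset.sum_mul, Finset.sum_mul]
  refine (norm_add_le _ _).trans (add_le_add ?_ ?_)
  · refine (norm_sum_le _ _).trans (Finset.sum_le_sum fun j _ => ?_)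
    rw [norm_mul]
    exact mul_le_mul_of_nonneg_left (h _) (norm_nonneg _)
  · refine (norm_sum_le _ _).trans (Finset.sum_le_sum fun j _ => ?_)
    rw [norm_mul]
    exact mul_le_mul_of_nonneg_left (h _) (norm_nonneg _)

private theorem p_F1_sub (P Q : ℂ[X]) (x y : ℤ → ℂ) (s : ℤ) :
    Vop P Q x s - Vop P Q y s = Vop P Q (fun t => x t - y t) s := by
  unfold Vop
  simp only [mul_sub, Finset.sum_sub_distrib]
  ring

/-- `|s||n-s| ≥ n - 1` -/
private theorem p_F1_int (n : ℕ) (s : ℤ) (h0 : s ≠ 0) (hn : s ≠ n) :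
    (n : ℝ) - 1 ≤ |(s : ℝ)| * |(n : ℝ) - s| := by
  have h : (n : ℤ) - 1 ≤ |s| * |(n : ℤ) - s| := by
    have hn0 : (0 : ℤ) ≤ n := by positivity
    rcases lt_or_gt_of_ne h0 with h1 | h1
    · rw [abs_of_neg h1, abs_of_pos (by omega)]
      nlinarith
    · rcases lt_or_gt_of_ne hn with h2 | h2
      · rw [abs_of_pos h1, abs_of_pos (by omega)]
        nlinarith [mul_nonneg (by omega : (0 : ℤ) ≤ s - 1) (by omega : (0 : ℤ) ≤ n - s - 1)]
      · rw [abs_of_pos h1, abs_of_neg (by omega)]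
        nlinarith
  exact_mod_cast h

private theorem p_F1_en (n : ℕ) (s : ℤ) : |En n s| = 4 * (|(s : ℝ)| * |(n : ℝ) - s|) := by
  unfold En
  rw [abs_mul, abs_mul, abs_of_pos (by norm_num : (0 : ℝ) < 4), mul_assoc]

/-- the threshold -/
private theorem p_F1_low (ν Z : ℝ) (hν : 0 ≤ ν) (n : ℕ) (hn : ν + |Z| + 2 ≤ n) (z : ℂ)
    (hz : ‖z‖ ≤ Z) (s : ℤ) (h0 : s ≠ 0) (hs : s ≠ n) :
    2 * (|(s : ℝ)| * |(n : ℝ) - s|) ≤ ‖(En n s : ℂ) + z‖ ∧ 2 * (ν + 1) ≤ ‖(En n s : ℂ) + z‖ := by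
  have h1 := p_F1_int n s h0 hs
  have h2 := p_F1_en n s
  have h3 : |En n s| - ‖z‖ ≤ ‖(En n s : ℂ) + z‖ := by
    have := norm_sub_norm_le (En n s : ℂ) (-z)
    rw [norm_neg, sub_neg_eq_add, Complex.norm_real, Real.norm_eq_abs] at this
    exact this
  have h4 : Z ≤ |Z| := le_abs_self Z
  have h5 : 0 ≤ |Z| := abs_nonneg Z
  constructor <;> linarith

/-- a priori bound -/
private theorem p_F1_apriori (P Q : ℂ[X]) (Z : ℝ) (n : ℕ) (hn : nu P Q + |Z| + 2 ≤ n) (z : ℂ)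
    (hz : ‖z‖ ≤ Z) (M : ℝ) (hM : 0 ≤ M) (p q : ℂ) (hp : ‖p‖ ≤ M) (hq : ‖q‖ ≤ M) (x : ℤ → ℂ)
    (hx : Sol P Q n z p q 0 x) : ∀ s, ‖x s‖ ≤ M := by
  obtain ⟨C, hC⟩ := hx.bdd
  set f : BoundedContinuousFunction ℤ ℂ :=
    BoundedContinuousFunction.ofNormedAddCommGroupDiscrete x C hC with hf
  have hfx : ∀ s, f s = x s := fun s => rfl
  have hν := p_F1_nu P Q
  have key : ∀ s, ‖x s‖ ≤ max M (‖f‖ / 2) := by
    intro s
    by_cases h0 : s = 0
    · subst h0
      rw [hx.zero]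
      exact hp.trans (le_max_left _ _)
    · by_cases hs : s = n
      · subst hs
        rw [hx.top]
        exact hq.trans (le_max_left _ _)
      · refine le_trans ?_ (le_max_right _ _)
        have h1 := hx.eqn s h0 hs
        have h2 := (p_F1_low (nu P Q) Z hν n hn z hz s h0 hs).2
        have h3 : ‖Vop P Q x s‖ ≤ nu P Q * ‖f‖ :=
          p_F1_vop P Q x ‖f‖ (fun t => by rw [← hfx]; exact f.norm_coe_le_norm t) s
        have h4 : ‖(En n s : ℂ) + z‖ * ‖x s‖ = ‖Vop P Q x s‖ := by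
          rw [← norm_mul, h1]
          simp
        have h5 : 0 ≤ ‖f‖ := norm_nonneg _
        have h6 : 2 * (nu P Q + 1) * ‖x s‖ ≤ nu P Q * ‖f‖ := by
          refine le_trans ?_ h3
          rw [← h4]
          exact mul_le_mul_of_nonneg_right h2 (norm_nonneg _)
        by_contra hcon
        push Not at hcon
        nlinarith
  have h1 : ‖f‖ ≤ max M (‖f‖ / 2) := by
    rw [BoundedContinuousFunction.norm_le (le_trans hM (le_max_left _ _))]
    exact key
  have h2 : ‖f‖ ≤ M := by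
    rcases le_max_iff.1 h1 with h | h
    · exact h
    · linarith
  intro s
  rw [← hfx]
  exact (f.norm_coe_le_norm s).trans h2

private theorem p_F1_exists (P Q : ℂ[X]) (Z : ℝ) (n : ℕ) (hn : nu P Q + |Z| + 2 ≤ n) (z : ℂ)
    (hz : ‖z‖ ≤ Z) : ∃ x, Sol P Q n z 1 0 0 x := by
  classical
  have hν := p_F1_nu P Q
  have hlow := p_F1_low (nu P Q) Z hν n hn z hz
  have hn0 : (n : ℤ) ≠ 0 := by
    intro h
    have h' : (n : ℝ) = 0 := by exact_mod_cast h
    have := abs_nonneg Z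
    linarith
  have hb : ∀ (x : ℤ → ℂ) (C : ℝ), 0 ≤ C → (∀ s, ‖x s‖ ≤ C) → ∀ s : ℤ, s ≠ 0 → s ≠ n →
      ‖Vop P Q x s / ((En n s : ℂ) + z)‖ ≤ C / 2 := by
    intro x C hC hx s h0 hs
    have h1 := (hlow s h0 hs).2
    rw [norm_div, div_le_iff₀ (by linarith)]
    refine (p_F1_vop P Q x C hx s).trans ?_
    nlinarith
  let T0 : (ℤ → ℂ) → ℤ → ℂ := fun x s =>
    if s = 0 then 1 else if s = n then 0 else Vop P Q x s / ((En n s : ℂ) + z)
  have hT0 : ∀ (x : ℤ → ℂ) (C : ℝ), 0 ≤ C → (∀ s, ‖x s‖ ≤ C) → ∀ s, ‖T0 x s‖ ≤ 1 + C / 2 := by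
    intro x C hC hx s
    simp only [T0]
    split_ifs with h1 h2
    · rw [norm_one]; linarith
    · rw [norm_zero]; positivity
    · have := hb x C hC hx s h1 h2
      linarith
  let T : BoundedContinuousFunction ℤ ℂ → BoundedContinuousFunction ℤ ℂ := fun f =>
    BoundedContinuousFunction.ofNormedAddCommGroupDiscrete (T0 f) (1 + ‖f‖ / 2)
      (hT0 f ‖f‖ (norm_nonneg _) (fun s => f.norm_coe_le_norm s))
  have hTc : ∀ f s, T f s = T0 f s := fun f s => rfl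
  have hcon : ContractingWith (1 / 2) T := by
    refine ⟨by norm_num, LipschitzWith.of_dist_le_mul fun f g => ?_⟩
    rw [dist_eq_norm, dist_eq_norm]
    have e : ((1 / 2 : NNReal) : ℝ) * ‖f - g‖ = ‖f - g‖ / 2 := by
      push_cast
      ring
    rw [e, BoundedContinuousFunction.norm_le (by positivity)]
    intro s
    rw [BoundedContinuousFunction.sub_apply, hTc, hTc]
    simp only [T0]
    split_ifs with h1 h2
    · simp; positivity
    · simp; positivity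
    · rw [← sub_div, p_F1_sub]
      refine hb _ ‖f - g‖ (norm_nonneg _) (fun t => ?_) s h1 h2
      exact (f - g).norm_coe_le_norm t
  have hfix := hcon.fixedPoint_isFixedPt
  set f := hcon.fixedPoint T with hf
  have hval : ∀ s, f s = T0 f s := by
    intro s
    rw [← hTc, hfix]
  refine ⟨f, ⟨⟨‖f‖, fun s => f.norm_coe_le_norm s⟩, ?_, ?_, ?_⟩⟩
  · rw [hval]
    simp [T0]
  · rw [hval]
    simp only [T0, if_neg hn0, if_true]
  · intro s h0 hs
    rw [hval s]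
    simp only [T0, if_neg h0, if_neg hs]
    have h1 := (hlow s h0 hs).2
    have h2 : (En n s : ℂ) + z ≠ 0 := by
      intro h
      rw [h, norm_zero] at h1
      linarith
    rw [mul_div_cancel₀ _ h2]
    simp

theorem p_F1 : S_F1 := by
  intro P Q Z
  have hν := p_F1_nu P Q
  refine ⟨⌈nu P Q + |Z| + 2⌉₊, nu P Q / 2 + 1, by positivity, ?_⟩
  intro n hn z hz
  have hn' : nu P Q + |Z| + 2 ≤ n := (Nat.le_ceil _).trans (by exact_mod_cast hn)
  have hS : Sol P Q n z 1 0 0 (C0 P Q n z) :=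
    Classical.epsilon_spec (p_F1_exists P Q Z n hn' z hz)
  refine ⟨hS, ?_, ?_⟩
  · intro s h0 hs
    have h1 := p_F1_apriori P Q Z n hn' z hz 1 zero_le_one 1 0 (by simp) (by simp) _ hS
    have h2 := p_F1_vop P Q _ 1 h1 s
    have h3 := (p_F1_low (nu P Q) Z hν n hn' z hz s h0 hs).1
    have h4 : ‖(En n s : ℂ) + z‖ * ‖C0 P Q n z s‖ = ‖Vop P Q (C0 P Q n z) s‖ := by
      rw [← norm_mul, hS.eqn s h0 hs]
      simp
    have h5 := p_F1_int n s h0 hs
    have h6 : 0 < |(s : ℝ)| * |(n : ℝ) - s| := by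
      have := abs_nonneg Z
      linarith
    rw [le_div_iff₀ h6]
    have h7 : 0 ≤ ‖C0 P Q n z s‖ := norm_nonneg _
    nlinarith
  · intro x hx
    have h1 := p_F1_apriori P Q Z n hn' z hz 0 le_rfl 0 0 (by simp) (by simp) _ hx
    funext s
    exact norm_le_zero_iff.1 (h1 s)

end HillRoots
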