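import Pool.Agent.Lib.MP_e63cf8_mp.StmB

open Polynomial Filter Topology MeasureTheory Asymptotics

namespace HillRoots

theorem p_F11 (hF7 : S_F7) (hF8 : S_F8) : S_F11 := by
  intro P Q R R' g C hP hQ hgP hgQ hR hR' hC
  obtain ⟨K₁, n₁, hK₁, h7⟩ := hF7 P Q R R' (evenMul g) hP hQ hR hR'
  obtain ⟨K₂, n₂, hK₂, h8⟩ := hF8 P Q g hP hQ hgP hgQ
  obtain ⟨n₃, hn₃⟩ := eventually_atTop.1 hC
  set ρ : ℝ := √(K₁ * Real.exp C) with hρ
  have hρpos : 0 < ρ := Real.sqrt_pos.2 (by positivity)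
  have hρsq : ρ ^ 2 = K₁ * Real.exp C := Real.sq_sqrt (by positivity)
  refine ⟨n₁ + n₂ + n₃, K₁ * (1 + 2 * ρ) + K₂ + 2 * ρ + 1, by positivity, fun k hk hk1 => ?_⟩
  set K : ℝ := K₁ * (1 + 2 * ρ) + K₂ + 2 * ρ + 1 with hKdef
  have hKpos : 0 < K := by positivity
  have hK1 : 1 ≤ K := by
    rw [hKdef]
    have : 0 < K₁ * (1 + 2 * ρ) := by positivity
    linarith
  have hKρ : 2 * ρ ≤ K := by
    rw [hKdef]
    have : 0 < K₁ * (1 + 2 * ρ) := by positivity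
    linarith
  have hKK : K₁ * (1 + 2 * ρ) ≤ K := by rw [hKdef]; linarith
  have hKK2 : K₂ ≤ K := by
    rw [hKdef]
    have : 0 < K₁ * (1 + 2 * ρ) := by positivity
    linarith
  have hkR : (0 : ℝ) < k := by exact_mod_cast hk1
  by_cases hg : g ∣ 2 * k
  · have hmem : 2 * k ∈ evenMul g := ⟨even_two_mul k, hg⟩
    obtain ⟨hRp, hRp', x, x', z, z', r, r', r₀, hz, hz1, hz1', hr0, hr, hr', h1, h2, hx, hx',
      hxn, hxn'⟩ := h7 k hmem (by omega)
    have hlog := hn₃ (2 * k) (by omega)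
    have hq : 0 < R (2 * k) / R' (2 * k) := div_pos hRp hRp'
    obtain ⟨hl1, hl2⟩ := abs_le.1 hlog
    have hu : R (2 * k) / R' (2 * k) ≤ Real.exp C := (Real.log_le_iff_le_exp hq).1 hl2
    have hl : Real.exp (-C) ≤ R (2 * k) / R' (2 * k) := (Real.le_log_iff_exp_le hq).1 hl1
    have hr₀p : 0 < ‖r₀‖ := norm_pos_iff.2 hr0
    have hr₀u : ‖r₀‖ ≤ ρ := by
      apply Real.le_sqrt_of_sq_le
      exact h1.trans (mul_le_mul_of_nonneg_left hu hK₁.le)
    have hr₀l : 1 ≤ ρ * ‖r₀‖ := by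
      have h3 : Real.exp (-C) ≤ K₁ * ‖r₀‖ ^ 2 := hl.trans h2
      have h4 : 1 ≤ (ρ * ‖r₀‖) ^ 2 := by
        rw [mul_pow, hρsq]
        have h5 := mul_le_mul_of_nonneg_left h3 (Real.exp_pos C).le
        rw [← Real.exp_add, add_neg_cancel, Real.exp_zero] at h5
        calc (1 : ℝ) ≤ Real.exp C * (K₁ * ‖r₀‖ ^ 2) := h5
          _ = K₁ * Real.exp C * ‖r₀‖ ^ 2 := by ring
      have h6 : (1 : ℝ) ^ 2 ≤ (ρ * ‖r₀‖) ^ 2 := by rw [one_pow]; exact h4
      exact le_of_sq_le_sq h6 (by positivity)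
    have hru : ‖r‖ ≤ 2 * ρ := by
      have := norm_add_le (r - r₀) r₀
      rw [sub_add_cancel] at this
      linarith
    have hru' : ‖r'‖ ≤ 2 * ρ := by
      have := norm_sub_le (r' + r₀) r₀
      rw [add_sub_cancel_right] at this
      linarith
    have hdet : ‖r₀‖ ≤ ‖r' - r‖ := by
      have h3 : ‖(2 : ℂ) * r₀‖ ≤ ‖r' + r₀‖ + ‖r - r₀‖ + ‖r' - r‖ := by
        have h4 : (2 : ℂ) * r₀ = (r' + r₀) - (r - r₀) - (r' - r) := by ring
        rw [h4]
        exact (norm_sub_le _ _).trans (add_le_add (norm_sub_le _ _) le_rfl)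
      rw [norm_mul, RCLike.norm_ofNat] at h3
      linarith
    have hbd : ∀ s : ℂ, ‖s‖ ≤ 2 * ρ → K₁ / k * (1 + ‖s‖) ≤ K / k := by
      intro s hs
      rw [div_mul_eq_mul_div]
      refine div_le_div_of_nonneg_right (le_trans ?_ hKK) hkR.le
      exact mul_le_mul_of_nonneg_left (by linarith) hK₁.le
    refine ⟨x, x', 4 * (k : ℂ) ^ 2 + z, 4 * (k : ℂ) ^ 2 + z', 1, r, 1, r', hx, hx', ?_, ?_, ?_,
      ?_, ?_, hru.trans hKρ, ?_, hru'.trans hKρ, ?_⟩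
    · rw [add_sub_cancel_left]; exact hz1.trans hK1
    · rw [add_sub_cancel_left]; exact hz1'.trans hK1
    · rw [one_smul]; exact hxn.trans (hbd r hru)
    · rw [one_smul]; exact hxn'.trans (hbd r' hru')
    · rw [norm_one]; exact hK1
    · rw [norm_one]; exact hK1
    · rw [one_mul, one_mul, div_le_iff₀ hKpos]
      calc (1 : ℝ) ≤ ρ * ‖r₀‖ := hr₀l
        _ ≤ K * ‖r' - r‖ := by
            refine mul_le_mul (by linarith) hdet hr₀p.le hKpos.le
        _ = ‖r' - r‖ * K := mul_comm _ _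
  · obtain ⟨x, x', z, hz, hx, hx', hxn, hxn'⟩ := h8 k hg (by omega)
    have hbd : K₂ / k ≤ K / k := div_le_div_of_nonneg_right hKK2 hkR.le
    refine ⟨x, x', 4 * (k : ℂ) ^ 2 + z, 4 * (k : ℂ) ^ 2 + z, 1, 0, 0, 1, hx, hx', ?_, ?_, ?_,
      ?_, ?_, ?_, ?_, ?_, ?_⟩
    · rw [add_sub_cancel_left]; exact hz.trans hK1
    · rw [add_sub_cancel_left]; exact hz.trans hK1
    · rw [one_smul, zero_smul, sub_zero]; exact hxn.trans hbd
    · rw [one_smul, zero_smul, sub_zero]; exact hxn'.trans hbd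
    · rw [norm_one]; exact hK1
    · rw [norm_zero]; exact hKpos.le
    · rw [norm_zero]; exact hKpos.le
    · rw [norm_one]; exact hK1
    · rw [one_mul, zero_mul, sub_zero, norm_one, div_le_iff₀ hKpos, one_mul]; exact hK1

end HillRoots
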