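import Pool.Agent.Lib.MP_e63cf8_mp.StmA
import Pool.Agent.Lib.MP_e63cf8_mp.StmB

open Polynomial Filter Topology MeasureTheory Asymptotics

namespace HillRoots

private theorem p_F12_ee (j : ℤ) : ‖ee j‖ = 1 := by
  unfold ee
  rw [lp.norm_single (by norm_num), norm_one]

/-- small ratio -/
private theorem p_F12_small (k : ℕ) (K δ : ℝ) (x : Hs) (r : ℂ) (hk : 0 < k) (hδ1 : δ ≤ 1)
    (hK : 2 * K / k ≤ δ / 2) (hK0 : 0 < K) (hr : ‖r‖ ≤ δ / 4)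
    (hx : ‖x - ee (-(k : ℤ)) - r • ee k‖ ≤ K / k * (1 + ‖r‖)) :
    ‖x - ee (-(k : ℤ))‖ ≤ δ := by
  have hk' : (0 : ℝ) < k := by exact_mod_cast hk
  have h1 : ‖x - ee (-(k : ℤ))‖ ≤ ‖x - ee (-(k : ℤ)) - r • ee k‖ + ‖r • ee (k : ℤ)‖ := by
    have := norm_add_le (x - ee (-(k : ℤ)) - r • ee k) (r • ee (k : ℤ))
    rwa [sub_add_cancel] at this
  rw [norm_smul, p_F12_ee, mul_one] at h1
  have h2 : K / k * (1 + ‖r‖) ≤ K / k * 2 := by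
    refine mul_le_mul_of_nonneg_left ?_ (by positivity)
    linarith
  have h3 : K / k * 2 = 2 * K / k := by ring
  linarith [norm_nonneg r]

/-- large ratio -/
private theorem p_F12_large (k : ℕ) (K δ : ℝ) (x : Hs) (r : ℂ) (hk : 0 < k) (hδ : 0 < δ)
    (hδ1 : δ ≤ 1) (hK : 2 * K / k ≤ δ / 2) (hK0 : 0 < K) (hr : 4 / δ ≤ ‖r‖)
    (hx : ‖x - ee (-(k : ℤ)) - r • ee k‖ ≤ K / k * (1 + ‖r‖)) :
    ‖r⁻¹ • x - ee (k : ℤ)‖ ≤ δ := by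
  have hk' : (0 : ℝ) < k := by exact_mod_cast hk
  have hrp : 0 < ‖r‖ := lt_of_lt_of_le (by positivity) hr
  have hr0 : r ≠ 0 := norm_pos_iff.1 hrp
  have h1 : ‖x - r • ee (k : ℤ)‖ ≤ K / k * (1 + ‖r‖) + 1 := by
    have := norm_add_le (x - ee (-(k : ℤ)) - r • ee k) (ee (-(k : ℤ)))
    rw [p_F12_ee] at this
    have h2 : x - ee (-(k : ℤ)) - r • ee k + ee (-(k : ℤ)) = x - r • ee (k : ℤ) := by abel
    rw [h2] at this
    linarith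
  have h3 : r⁻¹ • x - ee (k : ℤ) = r⁻¹ • (x - r • ee (k : ℤ)) := by
    rw [smul_sub, smul_smul, inv_mul_cancel₀ hr0, one_smul]
  rw [h3, norm_smul, norm_inv]
  have h4 : ‖r‖⁻¹ ≤ δ / 4 := by
    rw [inv_le_comm₀ hrp (by positivity), inv_div]; exact hr
  have h5 : ‖r‖⁻¹ * ‖x - r • ee (k : ℤ)‖ ≤ ‖r‖⁻¹ * (K / k * (1 + ‖r‖) + 1) :=
    mul_le_mul_of_nonneg_left h1 (by positivity)
  have h6 : ‖r‖⁻¹ * (K / k * (1 + ‖r‖) + 1) = K / k * (‖r‖⁻¹ + 1) + ‖r‖⁻¹ := by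
    field_simp
  have h7 : K / k * (‖r‖⁻¹ + 1) ≤ K / k * 2 := by
    refine mul_le_mul_of_nonneg_left ?_ (by positivity)
    linarith
  have h8 : K / k * 2 = 2 * K / k := by ring
  linarith

theorem p_F12 (hF7 : S_F7) (hB7 : S_B7) : S_F12 := by
  intro P Q R R' S hP hQ hS hev hR hR' hT
  obtain ⟨K, n₀, hK, h7⟩ := hF7 P Q R R' S hP hQ hR hR'
  refine ⟨1, fun ε hε => ?_⟩
  set δ : ℝ := min ε 1 with hδdef
  have hδ : 0 < δ := lt_min hε one_pos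
  have hδε : δ ≤ ε := min_le_left _ _
  have hδ1 : δ ≤ 1 := min_le_right _ _
  -- the threshold
  set B : ℝ := 64 * K / δ ^ 2 with hB
  have hBpos : 0 < B := by positivity
  obtain ⟨n₁, hn₁⟩ := eventually_atTop.1 (tendsto_atTop.1 hT (Real.log B))
  obtain ⟨n, hnS, hn⟩ := hS.exists_gt (max n₁ (2 * (n₀ + ⌈1 / ε⌉₊ + ⌈4 * K / δ⌉₊ + 1)))
  obtain ⟨k, hk⟩ := hev n hnS
  have hn2 : n = 2 * k := by omega
  subst hn2
  have hkn₁ : n₁ ≤ 2 * k := le_of_max_le_left hn.le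
  have hk2 : 2 * (n₀ + ⌈1 / ε⌉₊ + ⌈4 * K / δ⌉₊ + 1) < 2 * k := lt_of_le_of_lt (le_max_right _ _) hn
  have hk3 : n₀ + ⌈1 / ε⌉₊ + ⌈4 * K / δ⌉₊ + 1 < k := by omega
  have hkpos : 0 < k := by omega
  have hkR : (0 : ℝ) < k := by exact_mod_cast hkpos
  have hk4 : 1 / ε ≤ k := (Nat.le_ceil _).trans (by exact_mod_cast (by omega : ⌈1 / ε⌉₊ ≤ k))
  have hk5 : 4 * K / δ ≤ k :=
    (Nat.le_ceil _).trans (by exact_mod_cast (by omega : ⌈4 * K / δ⌉₊ ≤ k))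
  have hKk : 2 * K / k ≤ δ / 2 := by
    rw [div_le_iff₀ hδ] at hk5
    rw [div_le_iff₀ hkR]
    linarith
  obtain ⟨hRp, hRp', x, x', z, z', r, r', r₀, hz, hz1, hz1', hr0, hr, hr', h1, h2, hx, hx',
    hxn, hxn'⟩ := h7 k hnS (by omega)
  have hlog := hn₁ (2 * k) hkn₁
  have hq : 0 < R (2 * k) / R' (2 * k) := div_pos hRp hRp'
  have hr₀p : 0 < ‖r₀‖ := norm_pos_iff.2 hr0
  have hru : ‖r‖ ≤ 2 * ‖r₀‖ := by
    have := norm_add_le (r - r₀) r₀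
    rw [sub_add_cancel] at this
    linarith
  have hru' : ‖r'‖ ≤ 2 * ‖r₀‖ := by
    have := norm_sub_le (r' + r₀) r₀
    rw [add_sub_cancel_right] at this
    linarith
  have hrl : ‖r₀‖ / 2 ≤ ‖r‖ := by
    have h3 : ‖r₀‖ ≤ ‖r - r₀‖ + ‖r‖ := by
      have := norm_sub_le r (r - r₀)
      rw [sub_sub_cancel] at this
      linarith
    linarith
  have hrl' : ‖r₀‖ / 2 ≤ ‖r'‖ := by
    have h3 : ‖r₀‖ ≤ ‖r' + r₀‖ + ‖r'‖ := by
      have := norm_sub_le (r' + r₀) r'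
      rw [add_sub_cancel_left] at this
      linarith
    linarith
  have hab : (4 * (k : ℂ) ^ 2 + z) ≠ 4 * (k : ℂ) ^ 2 + z' := fun h => hz (add_left_cancel h)
  have ha : ‖(4 * (k : ℂ) ^ 2 + z) - 4 * (k : ℂ) ^ 2‖ ≤ 1 := by
    rw [add_sub_cancel_left]; exact hz1
  have hb : ‖(4 * (k : ℂ) ^ 2 + z') - 4 * (k : ℂ) ^ 2‖ ≤ 1 := by
    rw [add_sub_cancel_left]; exact hz1'
  rcases le_or_gt 0 (Real.log (R (2 * k) / R' (2 * k))) with hl | hl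
  · -- large ratio
    rw [abs_of_nonneg hl] at hlog
    have h3 : B ≤ R (2 * k) / R' (2 * k) := (Real.log_le_log_iff hBpos hq).1 hlog
    have h4 : B ≤ K * ‖r₀‖ ^ 2 := h3.trans h2
    have h5 : (8 / δ) ^ 2 ≤ ‖r₀‖ ^ 2 := by
      have h6 : B = K * (8 / δ) ^ 2 := by rw [hB]; field_simp; norm_num
      rw [h6] at h4
      exact le_of_mul_le_mul_left h4 hK
    have h6 : 8 / δ ≤ ‖r₀‖ := by
      exact le_of_sq_le_sq h5 hr₀p.le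
    have h7 : 4 / δ ≤ ‖r₀‖ / 2 := by
      have : 8 / δ = 2 * (4 / δ) := by ring
      linarith
    obtain ⟨Sa, hSa⟩ := (hB7 P Q).1 (4 * (k : ℂ) ^ 2 + z)
    obtain ⟨Sb, hSb⟩ := (hB7 P Q).1 (4 * (k : ℂ) ^ 2 + z')
    refine ⟨k, r⁻¹ • x, r'⁻¹ • x', _, _, (k : ℤ), hk4, hab, ha, hb, ?_, ?_, ?_, ?_⟩
    · rw [← hSa] at hx ⊢
      exact Sa.smul_mem _ hx
    · rw [← hSb] at hx' ⊢
      exact Sb.smul_mem _ hx'
    · exact (p_F12_large k K δ x r hkpos hδ hδ1 hKk hK (h7.trans hrl) hxn).trans hδε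
    · exact (p_F12_large k K δ x' r' hkpos hδ hδ1 hKk hK (h7.trans hrl') hxn').trans hδε
  · -- small ratio
    rw [abs_of_neg hl, ← Real.log_inv] at hlog
    have h3 : B ≤ (R (2 * k) / R' (2 * k))⁻¹ :=
      (Real.log_le_log_iff hBpos (inv_pos.2 hq)).1 hlog
    have h4 : R (2 * k) / R' (2 * k) ≤ B⁻¹ := by
      rw [le_inv_comm₀ hBpos hq] at h3; exact h3
    have h5 : ‖r₀‖ ^ 2 ≤ (δ / 8) ^ 2 := by
      have h6 : K * B⁻¹ = (δ / 8) ^ 2 := by rw [hB]; field_simp; norm_num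
      rw [← h6]
      exact h1.trans (mul_le_mul_of_nonneg_left h4 hK.le)
    have h6 : ‖r₀‖ ≤ δ / 8 := le_of_sq_le_sq h5 (by positivity)
    refine ⟨k, x, x', _, _, -(k : ℤ), hk4, hab, ha, hb, hx, hx', ?_, ?_⟩
    · exact (p_F12_small k K δ x r hkpos hδ1 hKk hK (by linarith) hxn).trans hδε
    · exact (p_F12_small k K δ x' r' hkpos hδ1 hKk hK (by linarith) hxn').trans hδε

end HillRoots
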