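import Pool.Agent.Lib.MP_e63cf8_mp.StmB

set_option autoImplicit false

open Polynomial Filter Topology MeasureTheory Asymptotics

namespace HillRoots

theorem p_F3_hs (x y : ℤ → ℂ) (n : ℤ) (hx : Summable fun s => ‖x s‖) (C : ℝ)
    (hy : ∀ s, ‖y s‖ ≤ C) (j : ℤ) :
    HasSum (fun s => x (s - j) * y (n - s) - x s * y (n - s - j)) 0 := by
  have h1 : Summable (fun s => x s * y (n - s - j)) :=
    Summable.of_norm_bounded (hx.mul_right C) (fun s => by
      rw [norm_mul]
      exact mul_le_mul_of_nonneg_left (hy _) (norm_nonneg _))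
  have h2 : HasSum (fun s => x (s - j) * y (n - s)) (∑' s, x s * y (n - s - j)) := by
    have h3 := (Equiv.hasSum_iff (Equiv.subRight j) (f := fun s => x s * y (n - s - j))).2 h1.hasSum
    convert h3 using 2 with s
    simp only [Function.comp_apply, Equiv.subRight_apply]
    congr 2
    ring
  have h4 := h2.sub h1.hasSum
  rwa [sub_self] at h4

theorem p_F3_sum (P Q : ℂ[X]) (x y : ℤ → ℂ) (n : ℤ) (hx : Summable fun s => ‖x s‖) (C : ℝ)
    (hy : ∀ s, ‖y s‖ ≤ C) :
    HasSum (fun s => Vop P Q x s * y (n - s) - x s * Vop P Q y (n - s)) 0 := by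
  have h1 : HasSum (fun s => ∑ j ∈ Finset.range (P.natDegree + 1),
      P.coeff j * (x (s - j) * y (n - s) - x s * y (n - s - j))) 0 := by
    have := hasSum_sum (s := Finset.range (P.natDegree + 1)) (a := fun _ => (0 : ℂ))
      (f := fun j s => P.coeff j * (x (s - j) * y (n - s) - x s * y (n - s - j)))
      (fun j _ => by simpa using (p_F3_hs x y n hx C hy j).mul_left (P.coeff j))
    simpa using this
  have h2 : HasSum (fun s => ∑ j ∈ Finset.range (Q.natDegree + 1),
      Q.coeff j * (x (s + j) * y (n - s) - x s * y (n - s + j))) 0 := by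
    have := hasSum_sum (s := Finset.range (Q.natDegree + 1)) (a := fun _ => (0 : ℂ))
      (f := fun j s => Q.coeff j * (x (s + j) * y (n - s) - x s * y (n - s + j)))
      (fun j _ => by simpa using (p_F3_hs x y n hx C hy (-(j : ℤ))).mul_left (Q.coeff j))
    simpa using this
  have h3 := h1.add h2
  rw [add_zero] at h3
  convert h3 using 2 with s
  unfold Vop
  rw [add_mul, mul_add, Finset.sum_mul, Finset.sum_mul, Finset.mul_sum, Finset.mul_sum]
  have e1 : ∑ j ∈ Finset.range (P.natDegree + 1),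
      P.coeff j * (x (s - j) * y (n - s) - x s * y (n - s - j)) =
      ∑ j ∈ Finset.range (P.natDegree + 1), P.coeff j * x (s - j) * y (n - s) -
      ∑ j ∈ Finset.range (P.natDegree + 1), x s * (P.coeff j * y (n - s - j)) := by
    rw [← Finset.sum_sub_distrib]
    exact Finset.sum_congr rfl fun j _ => by ring
  have e2 : ∑ j ∈ Finset.range (Q.natDegree + 1),
      Q.coeff j * (x (s + j) * y (n - s) - x s * y (n - s + j)) =
      ∑ j ∈ Finset.range (Q.natDegree + 1), Q.coeff j * x (s + j) * y (n - s) -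
      ∑ j ∈ Finset.range (Q.natDegree + 1), x s * (Q.coeff j * y (n - s + j)) := by
    rw [← Finset.sum_sub_distrib]
    exact Finset.sum_congr rfl fun j _ => by ring
  rw [e1, e2]
  ring

theorem p_F3_summable (x : ℤ → ℂ) (n : ℕ) (K : ℝ) (hK : 0 < K)
    (h : ∀ s : ℤ, s ≠ 0 → s ≠ n → ‖x s‖ ≤ K / (|(s : ℝ)| * |(n : ℝ) - s|)) :
    Summable fun s => ‖x s‖ := by
  have h1 : Summable (fun s : ℤ => 1 / (s : ℝ) ^ 2) := Real.summable_one_div_int_pow.2 (by norm_num)
  have h2 : Summable (fun s : ℤ => 1 / ((n : ℝ) - s) ^ 2) := by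
    have := (Equiv.summable_iff (Equiv.subLeft (n : ℤ)) (f := fun s : ℤ => 1 / (s : ℝ) ^ 2)).2 h1
    refine this.congr fun s => ?_
    simp
  refine Summable.of_norm_bounded_eventually ((h1.add h2).mul_left K) ?_
  have hfin : ({0, (n : ℤ)} : Set ℤ).Finite := Set.toFinite _
  filter_upwards [hfin.compl_mem_cofinite] with s hs
  rw [Set.mem_compl_iff, Set.mem_insert_iff, Set.mem_singleton_iff, not_or] at hs
  rw [norm_norm]
  refine (h s hs.1 hs.2).trans ?_
  have h3 : (0 : ℝ) < |(s : ℝ)| := abs_pos.2 (by exact_mod_cast hs.1)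
  have h4 : (0 : ℝ) < |(n : ℝ) - s| := abs_pos.2 (sub_ne_zero.2 (by exact_mod_cast (Ne.symm hs.2)))
  rw [div_eq_mul_one_div]
  refine mul_le_mul_of_nonneg_left ?_ hK.le
  rw [← sq_abs (s : ℝ), ← sq_abs ((n : ℝ) - s)]
  set a := |(s : ℝ)|
  set b := |(n : ℝ) - s|
  have h5 : 1 / (a * b) ≤ (1 / a ^ 2 + 1 / b ^ 2) / 2 := by
    have h6 : (1 / a ^ 2 + 1 / b ^ 2) / 2 - 1 / (a * b) = (1 / a - 1 / b) ^ 2 / 2 := by
      field_simp
      ring
    have h7 : 0 ≤ (1 / a - 1 / b) ^ 2 / 2 := by positivity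
    linarith
  have h8 : 0 ≤ 1 / a ^ 2 + 1 / b ^ 2 := by positivity
  linarith

theorem p_F3 (hF1 : S_F1) (hF2 : S_F2) : S_F3 := by
  intro P Q Z
  obtain ⟨n₁, K₁, hK₁, H₁⟩ := hF1 P Q Z
  obtain ⟨n₂, K₂, hK₂, H₂⟩ := hF1 Q P Z
  refine ⟨max (max n₁ n₂) 1, ?_⟩
  intro n hn z hz
  have hn1 : n₁ ≤ n := (le_max_left _ _).trans ((le_max_left _ _).trans hn)
  have hn2 : n₂ ≤ n := (le_max_right _ _).trans ((le_max_left _ _).trans hn)
  have hn3 : 1 ≤ n := (le_max_right _ _).trans hn
  obtain ⟨S1, D1, -⟩ := H₁ n hn1 z hz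
  obtain ⟨S2, D2, -⟩ := H₂ n hn2 z hz
  have S3 := hF2 Q P n z 1 0 0 _ S2
  set x := C0 P Q n z with hx
  set y : ℤ → ℂ := fun s => C0 Q P n z (n - s) with hy
  obtain ⟨C, hC⟩ := S3.bdd
  have hsum := p_F3_sum P Q x y n (p_F3_summable x n K₁ hK₁ D1) C hC
  have hsingle := hasSum_single (f := fun s => Vop P Q x s * y (n - s) - x s * Vop P Q y (n - s)) 0
    (by
      intro s hs
      by_cases hsn : s = n
      · rw [hsn]
        simp only [sub_self]
        rw [S3.zero, S1.top]
        ring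
      · have e1 := S1.eqn s hs hsn
        have e2 := S3.eqn (n - s) (by omega) (by omega)
        simp only [Pi.zero_apply, add_zero] at e1 e2
        have e3 : En n (n - s) = En n s := by
          unfold En
          push_cast
          ring
        rw [e3] at e2
        rw [← e1, ← e2]
        ring)
  have h0 := hsum.unique hsingle
  have hx0 := S1.zero
  have hyn : y n = 1 := S3.top
  simp only [sub_zero] at h0
  rw [hx0, hyn] at h0
  have h1 : Vop P Q y n = Vop Q P (C0 Q P n z) 0 := by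
    unfold Vop
    rw [add_comm, hy]
    simp only
    congr 1
    · refine Finset.sum_congr rfl fun j _ => ?_
      congr 2
      ring
    · refine Finset.sum_congr rfl fun j _ => ?_
      congr 2
      ring
  unfold alpha
  rw [← h1]
  linear_combination -h0

end HillRoots
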