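import Pool.Agent.Lib.MP_e63cf8_mp.StmB

set_option autoImplicit false

open Polynomial Filter Topology MeasureTheory Asymptotics

namespace HillRoots

theorem p_F4_En (n : ℕ) (s : ℤ) (h0 : s ≠ 0) (hn : s ≠ n) :
    (n : ℝ) - 1 ≤ |(s : ℝ)| * |(n : ℝ) - s| := by
  have key : (n : ℤ) - 1 ≤ |s| * |(n : ℤ) - s| := by
    rcases lt_or_gt_of_ne h0 with h | h
    · rw [abs_of_neg h, abs_of_pos (by omega)]
      nlinarith [Int.natCast_nonneg n]
    · rcases lt_or_gt_of_ne hn with h' | h'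
      · rw [abs_of_pos h, abs_of_pos (by omega)]
        nlinarith
      · rw [abs_of_pos h, abs_of_neg (by omega)]
        nlinarith
  exact_mod_cast key

theorem p_F4_Vop (P Q : ℂ[X]) (x : ℤ → ℂ) (s : ℤ) (M : ℝ) (hP : P.coeff 0 = 0) (hQ : Q.coeff 0 = 0)
    (h : ∀ t : ℤ, t ≠ s → |t - s| ≤ ((P.natDegree + Q.natDegree : ℕ) : ℤ) → ‖x t‖ ≤ M) :
    ‖Vop P Q x s‖ ≤ nu P Q * M := by
  unfold Vop nu
  rw [add_mul, Finset.sum_mul, Finset.sum_mul]
  refine (norm_add_le _ _).trans (add_le_add ?_ ?_)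
  · refine (norm_sum_le _ _).trans (Finset.sum_le_sum fun j hj => ?_)
    rw [norm_mul]
    rcases Nat.eq_zero_or_pos j with rfl | hj0
    · simp [hP]
    · refine mul_le_mul_of_nonneg_left (h _ (by omega) ?_) (norm_nonneg _)
      rw [Finset.mem_range] at hj
      rw [abs_le]
      push_cast
      constructor <;> omega
  · refine (norm_sum_le _ _).trans (Finset.sum_le_sum fun j hj => ?_)
    rw [norm_mul]
    rcases Nat.eq_zero_or_pos j with rfl | hj0
    · simp [hQ]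
    · refine mul_le_mul_of_nonneg_left (h _ (by omega) ?_) (norm_nonneg _)
      rw [Finset.mem_range] at hj
      rw [abs_le]
      push_cast
      constructor <;> omega

theorem p_F4_sub (P Q : ℂ[X]) (x y : ℤ → ℂ) (s : ℤ) :
    Vop P Q x s - Vop P Q y s = Vop P Q (fun t => x t - y t) s := by
  unfold Vop
  have h1 : ∑ j ∈ Finset.range (P.natDegree + 1), P.coeff j * (x (s - j) - y (s - j)) =
      ∑ j ∈ Finset.range (P.natDegree + 1), P.coeff j * x (s - j) -
        ∑ j ∈ Finset.range (P.natDegree + 1), P.coeff j * y (s - j) := by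
    rw [← Finset.sum_sub_distrib]
    exact Finset.sum_congr rfl fun j _ => by ring
  have h2 : ∑ j ∈ Finset.range (Q.natDegree + 1), Q.coeff j * (x (s + j) - y (s + j)) =
      ∑ j ∈ Finset.range (Q.natDegree + 1), Q.coeff j * x (s + j) -
        ∑ j ∈ Finset.range (Q.natDegree + 1), Q.coeff j * y (s + j) := by
    rw [← Finset.sum_sub_distrib]
    exact Finset.sum_congr rfl fun j _ => by ring
  rw [h1, h2]
  ring

/-- a self-improving bound -/
theorem p_F4_sup (w : ℤ → ℂ) (c C : ℝ) (hC : ∀ s, ‖w s‖ ≤ C)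
    (h : ∀ B : ℝ, (∀ s, ‖w s‖ ≤ B) → ∀ s, ‖w s‖ ≤ B / 2 + c) : ∀ s, ‖w s‖ ≤ 2 * c := by
  have hb : BddAbove (Set.range fun s => ‖w s‖) := ⟨C, by rintro _ ⟨s, rfl⟩; exact hC s⟩
  have h1 : ∀ s, ‖w s‖ ≤ ⨆ s, ‖w s‖ := fun s => le_ciSup hb s
  have h2 : (⨆ s, ‖w s‖) ≤ (⨆ s, ‖w s‖) / 2 + c := ciSup_le (h _ h1)
  intro s
  have := h1 s
  linarith

theorem p_F4 (hF1 : S_F1) : S_F4 := by
  intro P Q Z hP hQ
  obtain ⟨n₁, K, hK, H⟩ := hF1 P Q Z
  have hν0 : 0 ≤ nu P Q := add_nonneg (Finset.sum_nonneg fun _ _ => norm_nonneg _)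
    (Finset.sum_nonneg fun _ _ => norm_nonneg _)
  obtain ⟨N, hN⟩ := exists_nat_ge (max (2 * nu P Q) (Z + 4))
  refine ⟨max n₁ (max (2 * (P.natDegree + Q.natDegree) + 1) N), 2 * K * (nu P Q + 1),
    by positivity, ?_⟩
  intro n hn z z' hz hz'
  have hn1 : n₁ ≤ n := (le_max_left _ _).trans hn
  have hnD : 2 * (P.natDegree + Q.natDegree) + 1 ≤ n :=
    (le_max_left _ _).trans ((le_max_right _ _).trans hn)
  have hnN : N ≤ n := (le_max_right _ _).trans ((le_max_right _ _).trans hn)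
  have hnN' : (N : ℝ) ≤ n := by exact_mod_cast hnN
  have hn2 : 2 * nu P Q ≤ n := (le_max_left _ _).trans (hN.trans hnN')
  have hnZ : Z + 4 ≤ n := (le_max_right _ _).trans (hN.trans hnN')
  have hnpos : (0 : ℝ) < n := by exact_mod_cast (by omega : 0 < n)
  have hn1' : (1 : ℝ) ≤ n := by exact_mod_cast (by omega : 1 ≤ n)
  have hnD' : 2 * ((P.natDegree + Q.natDegree : ℕ) : ℝ) + 1 ≤ n := by exact_mod_cast hnD
  have hKn : 0 ≤ 2 * K / n := by positivity
  -- bounds near `0` and near `n`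
  have hb : ∀ z : ℂ, ‖z‖ ≤ Z → ∀ t : ℤ, t ≠ 0 → t ≠ n →
      (n : ℝ) / 2 ≤ |(t : ℝ)| * |(n : ℝ) - t| → ‖C0 P Q n z t‖ ≤ 2 * K / n := by
    intro z hz t ht0 htn ht
    refine ((H n hn1 z hz).2.1 t ht0 htn).trans ?_
    rw [div_le_div_iff₀ (by linarith [half_pos hnpos]) hnpos]
    nlinarith
  have near0 : ∀ z : ℂ, ‖z‖ ≤ Z → ‖Vop P Q (C0 P Q n z) 0‖ ≤ nu P Q * (2 * K / n) := by
    intro z hz
    refine p_F4_Vop P Q _ 0 _ hP hQ fun t ht0 ht => ?_
    rw [sub_zero] at ht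
    have h1 : (1 : ℝ) ≤ |(t : ℝ)| := by exact_mod_cast Int.one_le_abs ht0
    have h2 : |(t : ℝ)| ≤ ((P.natDegree + Q.natDegree : ℕ) : ℝ) := by exact_mod_cast ht
    have h3 : (n : ℝ) / 2 ≤ |(n : ℝ) - t| := by
      refine le_trans ?_ (le_abs_self _)
      have := (abs_le.1 h2).2
      linarith
    refine hb z hz t ht0 (fun h => ?_) (by nlinarith)
    rw [h] at ht
    rw [abs_of_nonneg (by positivity)] at ht
    omega
  have nearn : ∀ z : ℂ, ‖z‖ ≤ Z → ‖Vop P Q (C0 P Q n z) n‖ ≤ nu P Q * (2 * K / n) := by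
    intro z hz
    refine p_F4_Vop P Q _ n _ hP hQ fun t htn ht => ?_
    have h1 : (1 : ℝ) ≤ |(n : ℝ) - t| := by
      have : (1 : ℤ) ≤ |(n : ℤ) - t| := Int.one_le_abs (by omega)
      exact_mod_cast this
    have h2 : |(t : ℝ) - n| ≤ ((P.natDegree + Q.natDegree : ℕ) : ℝ) := by exact_mod_cast ht
    have h3 : (n : ℝ) / 2 ≤ |(t : ℝ)| := by
      refine le_trans ?_ (le_abs_self _)
      have := (abs_le.1 h2).1
      linarith
    refine hb z hz t (fun h => ?_) htn (by nlinarith)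
    rw [h, zero_sub, abs_neg, abs_of_nonneg (by positivity)] at ht
    omega
  have hfin : nu P Q * (2 * K / n) ≤ 2 * K * (nu P Q + 1) / n := by
    rw [mul_div_assoc', div_le_div_iff_of_pos_right hnpos]
    nlinarith
  refine ⟨(near0 z hz).trans hfin, (nearn z hz).trans hfin, ?_⟩
  -- the Lipschitz bound
  set w : ℤ → ℂ := fun s => C0 P Q n z s - C0 P Q n z' s with hw
  have S1 := (H n hn1 z hz).1
  have S2 := (H n hn1 z' hz').1
  obtain ⟨B1, hB1⟩ := S1.bdd
  obtain ⟨B2, hB2⟩ := S2.bdd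
  have hwb : ∀ s, ‖w s‖ ≤ B1 + B2 := fun s =>
    (norm_sub_le _ _).trans (add_le_add (hB1 s) (hB2 s))
  have hsup := p_F4_sup w (K * ‖z - z'‖ / n) _ hwb (by
    intro B hB s
    have hB0 : 0 ≤ B := (norm_nonneg _).trans (hB 0)
    have hc0 : 0 ≤ K * ‖z - z'‖ / n := by positivity
    by_cases hs0 : s = 0
    · have : w s = 0 := by
        rw [hs0, hw]
        simp only
        rw [S1.zero, S2.zero, sub_self]
      rw [this, norm_zero]
      linarith
    by_cases hsn : s = n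
    · have : w s = 0 := by
        rw [hsn, hw]
        simp only
        rw [S1.top, S2.top, sub_self]
      rw [this, norm_zero]
      linarith
    have e1 := S1.eqn s hs0 hsn
    have e2 := S2.eqn s hs0 hsn
    have e3 := p_F4_sub P Q (C0 P Q n z) (C0 P Q n z') s
    simp only [Pi.zero_apply, add_zero] at e1 e2
    have e : ((En n s : ℂ) + z) * w s = Vop P Q w s - (z - z') * C0 P Q n z' s := by
      rw [hw, ← e3]
      simp only
      linear_combination e1 - e2
    have hE : (n : ℝ) ≤ ‖(En n s : ℂ) + z‖ := by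
      have h1 : ‖(En n s : ℂ)‖ = 4 * (|(s : ℝ)| * |(n : ℝ) - s|) := by
        rw [Complex.norm_real, En, Real.norm_eq_abs, abs_mul, abs_mul, abs_of_pos (by norm_num : (0:ℝ) < 4)]
        ring
      have h2 := p_F4_En n s hs0 hsn
      have h3 : ‖(En n s : ℂ)‖ ≤ ‖(En n s : ℂ) + z‖ + ‖z‖ := by
        have := norm_sub_le ((En n s : ℂ) + z) z
        rwa [add_sub_cancel_right] at this
      linarith
    have h4 : ‖((En n s : ℂ) + z) * w s‖ ≤ nu P Q * B + ‖z - z'‖ * K := by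
      rw [e]
      refine (norm_sub_le _ _).trans (add_le_add ?_ ?_)
      · exact p_F4_Vop P Q w s B hP hQ fun t _ _ => hB t
      · rw [norm_mul]
        refine mul_le_mul_of_nonneg_left ?_ (norm_nonneg _)
        refine ((H n hn1 z' hz').2.1 s hs0 hsn).trans ?_
        refine div_le_self hK.le ?_
        have h1 : (1 : ℝ) ≤ |(n : ℝ) - s| := by
          have : (1 : ℤ) ≤ |(n : ℤ) - s| := Int.one_le_abs (by omega)
          exact_mod_cast this
        have h2 : (1 : ℝ) ≤ |(s : ℝ)| := by exact_mod_cast Int.one_le_abs hs0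
        nlinarith
    rw [norm_mul] at h4
    have h5 : (n : ℝ) * ‖w s‖ ≤ nu P Q * B + ‖z - z'‖ * K :=
      (mul_le_mul_of_nonneg_right hE (norm_nonneg _)).trans h4
    have h6 : nu P Q * B ≤ n * (B / 2) := by nlinarith
    have h7 : (n : ℝ) * (B / 2 + K * ‖z - z'‖ / n) = n * (B / 2) + ‖z - z'‖ * K := by
      field_simp
    refine le_of_mul_le_mul_left ?_ hnpos
    rw [h7]
    linarith)
  have h8 : alpha P Q n z - alpha P Q n z' = Vop P Q w 0 := by
    unfold alpha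
    rw [p_F4_sub]
  rw [h8]
  refine (p_F4_Vop P Q w 0 _ hP hQ fun t _ _ => hsup t).trans ?_
  rw [div_mul_eq_mul_div, mul_div_assoc', mul_div_assoc', div_le_div_iff_of_pos_right hnpos]
  have := norm_nonneg (z - z')
  have := mul_nonneg hK.le this
  nlinarith

end HillRoots
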