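import Pool.Agent.Lib.MP_e63cf8_mp.StmB

/-!
# MP_e63cf8_mp, piece F5: eigenvectors from the Feshbach problem
-/

open Polynomial Filter Topology MeasureTheory Asymptotics

namespace HillRoots

private theorem p_F5_lin (P Q : ℂ[X]) (p q : ℂ) (x y : ℤ → ℂ) (t : ℤ) :
    Vop P Q (fun s => p * x s + q * y s) t = p * Vop P Q x t + q * Vop P Q y t := by
  unfold Vop
  simp only [mul_add, Finset.mul_sum, Finset.sum_add_distrib]
  have h : ∀ (R : ℂ[X]) (a : ℂ) (f : ℕ → ℂ) (n : ℕ),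
      ∑ j ∈ Finset.range n, R.coeff j * (a * f j) = ∑ j ∈ Finset.range n, a * (R.coeff j * f j) :=
    fun R a f n => Finset.sum_congr rfl fun j _ => by ring
  rw [h P p (fun j => x (t - j)), h P q (fun j => y (t - j)), h Q p (fun j => x (t + j)),
    h Q q (fun j => y (t + j))]
  ring

private theorem p_F5_shift (P Q : ℂ[X]) (x : ℤ → ℂ) (k t : ℤ) :
    Vop P Q (fun s => x (s + k)) t = Vop P Q x (t + k) := by
  unfold Vop
  congr 1
  · refine Finset.sum_congr rfl fun j _ => ?_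
    show P.coeff j * x (t - (j : ℤ) + k) = _
    rw [show t - (j : ℤ) + k = t + k - j by ring]
  · refine Finset.sum_congr rfl fun j _ => ?_
    show Q.coeff j * x (t + (j : ℤ) + k) = _
    rw [show t + (j : ℤ) + k = t + k + j by ring]

private theorem p_F5_refl (P Q : ℂ[X]) (x : ℤ → ℂ) (n t : ℤ) :
    Vop P Q (fun s => x (n - s)) t = Vop Q P x (n - t) := by
  unfold Vop
  rw [add_comm]
  congr 1
  · refine Finset.sum_congr rfl fun j _ => ?_
    show Q.coeff j * x (n - (t + (j : ℤ))) = _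
    rw [show n - (t + (j : ℤ)) = n - t - j by ring]
  · refine Finset.sum_congr rfl fun j _ => ?_
    show P.coeff j * x (n - (t - (j : ℤ))) = _
    rw [show n - (t - (j : ℤ)) = n - t + j by ring]

private theorem p_F5_zero (P Q : ℂ[X]) (μ : ℂ) (i : ℕ) : (Tsh P Q μ)^[i] 0 = 0 := by
  have h : Tsh P Q μ 0 = 0 := by
    funext s
    simp [Tsh, Top, Vop]
  induction i with
  | zero => rfl
  | succ i ih => rw [Function.iterate_succ_apply, h, ih]

private theorem p_F5_ee (j s : ℤ) : (ee j : ℤ → ℂ) s = if s = j then 1 else 0 := by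
  unfold ee
  rw [lp.single_apply]
  by_cases h : s = j
  · subst h; simp
  · simp [h]

private theorem p_F5_sq (n s : ℝ) (hn : 0 < n) (hs : s ≠ 0) (hns : n - s ≠ 0) :
    (1 / (|s| * |n - s|)) ^ 2 ≤ 2 / n ^ 2 * (1 / s ^ 2 + 1 / (n - s) ^ 2) := by
  have h1 : 0 < |s| := abs_pos.2 hs
  have h2 : 0 < |n - s| := abs_pos.2 hns
  have h3 : n ≤ |s| + |n - s| := by
    have := le_abs_self s
    have := le_abs_self (n - s)
    linarith
  have h4 : 1 / (|s| * |n - s|) ≤ 1 / n * (1 / |s| + 1 / |n - s|) := by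
    have e : 1 / n * (1 / |s| + 1 / |n - s|) = (|s| + |n - s|) / n * (1 / (|s| * |n - s|)) := by
      field_simp
      ring
    rw [e]
    have h5 : 1 ≤ (|s| + |n - s|) / n := (one_le_div hn).2 h3
    have h6 : 0 ≤ 1 / (|s| * |n - s|) := by positivity
    nlinarith
  have h7 : 0 ≤ 1 / (|s| * |n - s|) := by positivity
  calc (1 / (|s| * |n - s|)) ^ 2 ≤ (1 / n * (1 / |s| + 1 / |n - s|)) ^ 2 :=
        pow_le_pow_left₀ h7 h4 2
    _ = 1 / n ^ 2 * (1 / |s| + 1 / |n - s|) ^ 2 := by ring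
    _ ≤ 1 / n ^ 2 * (2 * (1 / |s|) ^ 2 + 2 * (1 / |n - s|) ^ 2) := by
        refine mul_le_mul_of_nonneg_left ?_ (by positivity)
        nlinarith [sq_nonneg (1 / |s| - 1 / |n - s|)]
    _ = 2 / n ^ 2 * (1 / s ^ 2 + 1 / (n - s) ^ 2) := by
        rw [div_pow, div_pow, sq_abs, sq_abs]
        ring

theorem p_F5 (hF1 : S_F1) (hF2 : S_F2) (hF3 : S_F3) : S_F5 := by
  intro P Q Z
  obtain ⟨n₁, K₁, hK₁, h1⟩ := hF1 P Q Z
  obtain ⟨n₂, K₂, hK₂, h2⟩ := hF1 Q P Z
  obtain ⟨n₃, h3⟩ := hF3 P Q Z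
  set K := max K₁ K₂ with hKdef
  have hK : 0 < K := lt_of_lt_of_le hK₁ (le_max_left _ _)
  have hsum : Summable (fun s : ℤ => 1 / (s : ℝ) ^ 2) :=
    Real.summable_one_div_int_pow.2 (by norm_num)
  set Z₀ : ℝ := ∑' s : ℤ, 1 / (s : ℝ) ^ 2 with hZ₀
  have hZ₀n : 0 ≤ Z₀ := tsum_nonneg fun s => by positivity
  refine ⟨max n₁ (max n₂ n₃), K * (Real.sqrt Z₀ + 1), by positivity, ?_⟩
  intro k hk hk1 z p q hz e1 e2
  set n : ℕ := 2 * k with hn
  have hn1 : n₁ ≤ n := by have := le_max_left n₁ (max n₂ n₃); omega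
  have hn2 : n₂ ≤ n := by
    have := le_max_right n₁ (max n₂ n₃); have := le_max_left n₂ n₃; omega
  have hn3 : n₃ ≤ n := by
    have := le_max_right n₁ (max n₂ n₃); have := le_max_right n₂ n₃; omega
  obtain ⟨s1, b1, -⟩ := h1 n hn1 z hz
  obtain ⟨s2, b2, -⟩ := h2 n hn2 z hz
  have e3 := h3 n hn3 z hz
  have s3 := hF2 Q P n z 1 0 0 _ s2
  have hnR : (0 : ℝ) < n := by
    have : 0 < n := by omega
    exact_mod_cast this
  have hnk : (n : ℤ) = 2 * (k : ℤ) := by rw [hn]; push_cast; ring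
  -- the solution
  set c : ℤ → ℂ := fun s => p * C0 P Q n z s + q * C0 Q P n z (n - s) with hc
  have hvec : ∀ s : ℤ, vec P Q k z p q s = c (s + k) := by
    intro s
    simp only [vec, hc]
    rw [← hn, show (n : ℤ) - (s + k) = k - s by rw [hnk]; ring]
  have hV : ∀ t, Vop P Q c t = p * Vop P Q (C0 P Q n z) t + q * Vop Q P (C0 Q P n z) (n - t) := by
    intro t
    rw [hc, p_F5_lin P Q p q (C0 P Q n z) (fun s => C0 Q P n z (n - s)) t, p_F5_refl]
  have hc0 : c 0 = p := by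
    simp only [hc]
    have := s3.zero
    rw [s1.zero, this]; ring
  have hcn : c n = q := by
    simp only [hc]
    have := s3.top
    rw [s1.top, this]; ring
  have heq : ∀ s : ℤ, ((En n s : ℂ) + z) * c s = Vop P Q c s := by
    intro s
    by_cases hs0 : s = 0
    · subst hs0
      rw [hV, hc0]
      have : (En n 0 : ℂ) = 0 := by simp [En]
      rw [this, zero_add, sub_zero]
      have e4 : Vop P Q (C0 P Q n z) 0 = alpha P Q n z := rfl
      have e5 : Vop Q P (C0 Q P n z) n = beta Q P n z := rfl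
      rw [e4, e5]
      linear_combination e1
    · by_cases hsn : s = n
      · subst hsn
        rw [hV, hcn]
        have : (En n n : ℂ) = 0 := by simp [En]
        rw [this, zero_add, sub_self]
        have e4 : Vop P Q (C0 P Q n z) n = beta P Q n z := rfl
        have e5 : Vop Q P (C0 Q P n z) 0 = alpha Q P n z := rfl
        rw [e4, e5, ← e3]
        linear_combination e2
      · have a1 := s1.eqn s hs0 hsn
        have a2 := s3.eqn s hs0 hsn
        rw [p_F5_refl] at a2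
        rw [hV]
        simp only [hc]
        simp only [Pi.zero_apply, add_zero] at a1 a2
        linear_combination p * a1 + q * a2
  -- bounds
  have hcb : ∀ s : ℤ, s ≠ 0 → s ≠ n →
      ‖c s‖ ≤ (‖p‖ + ‖q‖) * K * (1 / (|(s : ℝ)| * |(n : ℝ) - s|)) := by
    intro s hs0 hsn
    have a1 := b1 s hs0 hsn
    have a2 := b2 (n - s) (by intro h; exact hsn (by linarith)) (by intro h; exact hs0 (by linarith))
    have e : |((n - s : ℤ) : ℝ)| * |(n : ℝ) - ((n - s : ℤ) : ℝ)| = |(s : ℝ)| * |(n : ℝ) - s| := by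
      push_cast
      rw [show (n : ℝ) - ((n : ℝ) - s) = s by ring, mul_comm]
    rw [e] at a2
    have hd : 0 ≤ 1 / (|(s : ℝ)| * |(n : ℝ) - s|) := by positivity
    have a1' : ‖C0 P Q n z s‖ ≤ K * (1 / (|(s : ℝ)| * |(n : ℝ) - s|)) := by
      refine a1.trans ?_
      rw [div_eq_mul_one_div]
      exact mul_le_mul_of_nonneg_right (le_max_left _ _) hd
    have a2' : ‖C0 Q P n z (n - s)‖ ≤ K * (1 / (|(s : ℝ)| * |(n : ℝ) - s|)) := by
      refine a2.trans ?_
      rw [div_eq_mul_one_div]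
      exact mul_le_mul_of_nonneg_right (le_max_right _ _) hd
    calc ‖c s‖ ≤ ‖p‖ * ‖C0 P Q n z s‖ + ‖q‖ * ‖C0 Q P n z (n - s)‖ := by
          simp only [hc]
          refine (norm_add_le _ _).trans ?_
          rw [norm_mul, norm_mul]
      _ ≤ ‖p‖ * (K * (1 / (|(s : ℝ)| * |(n : ℝ) - s|))) +
          ‖q‖ * (K * (1 / (|(s : ℝ)| * |(n : ℝ) - s|))) :=
          add_le_add (mul_le_mul_of_nonneg_left a1' (norm_nonneg _))
            (mul_le_mul_of_nonneg_left a2' (norm_nonneg _))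
      _ = _ := by ring
  -- the difference
  set d : ℤ → ℂ := fun s => vec P Q k z p q s - p * (if s = -(k : ℤ) then 1 else 0) -
    q * (if s = (k : ℤ) then 1 else 0) with hd
  set M : ℝ := (‖p‖ + ‖q‖) * K with hM
  have hMn : 0 ≤ M := by positivity
  have hdb : ∀ s : ℤ, ‖d s‖ ^ 2 ≤ M ^ 2 * (2 / (n : ℝ) ^ 2) *
      (1 / ((s + k : ℤ) : ℝ) ^ 2 + 1 / ((k - s : ℤ) : ℝ) ^ 2) := by
    intro s
    by_cases h0 : s = -(k : ℤ)
    · have hsk : s ≠ k := by omega
      have : d s = 0 := by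
        simp only [hd]
        rw [hvec, h0, neg_add_cancel, hc0, if_pos rfl, if_neg (by omega)]
        ring
      rw [this, norm_zero, zero_pow two_ne_zero]
      positivity
    · by_cases h1 : s = k
      · have : d s = 0 := by
          simp only [hd]
          rw [hvec, h1, show (k : ℤ) + k = n by rw [hnk]; ring, hcn, if_neg (by omega), if_pos rfl]
          ring
        rw [this, norm_zero, zero_pow two_ne_zero]
        positivity
      · have hds : d s = c (s + k) := by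
          simp only [hd]
          rw [hvec, if_neg h0, if_neg h1]
          ring
        have g0 : s + (k : ℤ) ≠ 0 := by omega
        have gn : s + (k : ℤ) ≠ n := by omega
        have hb := hcb (s + k) g0 gn
        rw [hds]
        have g1 : ((s + k : ℤ) : ℝ) ≠ 0 := by exact_mod_cast g0
        have g2 : (n : ℝ) - ((s + k : ℤ) : ℝ) ≠ 0 := by
          intro h
          apply gn
          have : ((s + k : ℤ) : ℝ) = ((n : ℤ) : ℝ) := by push_cast; push_cast at h; linarith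
          exact_mod_cast this
        have hq := p_F5_sq n ((s + k : ℤ) : ℝ) hnR g1 g2
        have e : (n : ℝ) - ((s + k : ℤ) : ℝ) = ((k - s : ℤ) : ℝ) := by
          have : (n : ℝ) = 2 * (k : ℝ) := by exact_mod_cast hnk
          rw [this]; push_cast; ring
        rw [e] at hq hb
        calc ‖c (s + k)‖ ^ 2 ≤ (M * (1 / (|((s + k : ℤ) : ℝ)| * |((k - s : ℤ) : ℝ)|))) ^ 2 :=
              pow_le_pow_left₀ (norm_nonneg _) hb 2
          _ = M ^ 2 * (1 / (|((s + k : ℤ) : ℝ)| * |((k - s : ℤ) : ℝ)|)) ^ 2 := by ring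
          _ ≤ M ^ 2 * (2 / (n : ℝ) ^ 2 * (1 / ((s + k : ℤ) : ℝ) ^ 2 + 1 / ((k - s : ℤ) : ℝ) ^ 2)) :=
              mul_le_mul_of_nonneg_left hq (by positivity)
          _ = _ := by ring
  have hS1 : HasSum (fun s : ℤ => 1 / ((s + k : ℤ) : ℝ) ^ 2) Z₀ := by
    have := (Equiv.addRight (k : ℤ)).hasSum_iff.2 hsum.hasSum
    exact this
  have hS2 : HasSum (fun s : ℤ => 1 / ((k - s : ℤ) : ℝ) ^ 2) Z₀ := by
    have := (Equiv.subLeft (k : ℤ)).hasSum_iff.2 hsum.hasSum
    exact this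
  have hS3 := (hS1.add hS2).mul_left (M ^ 2 * (2 / (n : ℝ) ^ 2))
  have hdS : Summable (fun s : ℤ => ‖d s‖ ^ 2) :=
    Summable.of_nonneg_of_le (fun s => by positivity) hdb hS3.summable
  have hdM : Memℓp d 2 := by
    refine memℓp_gen ?_
    simpa using hdS
  set D : Hs := ⟨d, hdM⟩ with hDdef
  have hD : ‖D‖ ≤ K * (Real.sqrt Z₀ + 1) / k * (‖p‖ + ‖q‖) := by
    have a1 : ‖D‖ ^ 2 = ∑' s, ‖d s‖ ^ 2 := by
      have := lp.norm_rpow_eq_tsum (p := 2) (by norm_num) D
      simpa using this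
    have a2 : ∑' s, ‖d s‖ ^ 2 ≤ M ^ 2 * (2 / (n : ℝ) ^ 2) * (Z₀ + Z₀) :=
      (hdS.tsum_le_tsum hdb hS3.summable).trans (le_of_eq hS3.tsum_eq)
    have hkR : (0 : ℝ) < k := by
      have : 0 < k := by omega
      exact_mod_cast this
    have a3 : M ^ 2 * (2 / (n : ℝ) ^ 2) * (Z₀ + Z₀) = (M * Real.sqrt Z₀ / k) ^ 2 := by
      have : (n : ℝ) = 2 * (k : ℝ) := by exact_mod_cast hnk
      have e : (M * Real.sqrt Z₀ / k) ^ 2 = M ^ 2 * Z₀ / (k : ℝ) ^ 2 := by
        rw [div_pow, mul_pow, Real.sq_sqrt hZ₀n]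
      rw [this, e]
      field_simp
      ring
    have a4 : ‖D‖ ≤ M * Real.sqrt Z₀ / k := by
      refine abs_le_of_sq_le_sq' ?_ (by positivity) |>.2
      rw [a1, ← a3]
      exact a2
    refine a4.trans ?_
    have a5 : M * Real.sqrt Z₀ / k = K * Real.sqrt Z₀ / k * (‖p‖ + ‖q‖) := by
      rw [hM]; ring
    rw [a5]
    refine mul_le_mul_of_nonneg_right ?_ (by positivity)
    refine div_le_div_of_nonneg_right ?_ hkR.le
    nlinarith
  set x : Hs := D + p • ee (-(k : ℤ)) + q • ee k with hx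
  have hxs : ∀ s, x s = vec P Q k z p q s := by
    intro s
    have : (x : ℤ → ℂ) s = D s + p * (ee (-(k : ℤ)) : ℤ → ℂ) s + q * (ee (k : ℤ) : ℤ → ℂ) s := rfl
    rw [this, p_F5_ee, p_F5_ee]
    show d s + _ + _ = _
    simp only [hd]
    ring
  refine ⟨x, ?_, hxs, ?_⟩
  · have hT : Tsh P Q (4 * (k : ℂ) ^ 2 + z) x = 0 := by
      funext s
      have hxf : (x : ℤ → ℂ) = fun s => c (s + k) := by
        funext s; rw [hxs, hvec]
      have hE := heq (s + k)
      have hEn : (En n (s + k) : ℂ) = 4 * (k : ℂ) ^ 2 - 4 * (s : ℂ) ^ 2 := by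
        have : (n : ℝ) = 2 * (k : ℝ) := by exact_mod_cast hnk
        unfold En
        rw [this]
        push_cast
        ring
      rw [hEn] at hE
      simp only [Tsh, Top, hxf, Pi.zero_apply]
      rw [p_F5_shift]
      linear_combination -hE
    refine ⟨fun i => ?_, 1, ?_⟩
    · cases i with
      | zero => exact lp.memℓp x
      | succ i =>
        rw [Function.iterate_succ_apply, hT, p_F5_zero]
        exact zero_memℓp
    · rw [Function.iterate_one]; exact hT
  · have : x - p • ee (-(k : ℤ)) - q • ee k = D := by rw [hx]; abel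
    rw [this]
    exact hD

end HillRoots
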