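import Pool.Agent.Lib.MP_e63cf8_mp.StmB

set_option autoImplicit false

namespace HillRoots

open Set

theorem p_F6_sqrt (w : ℂ) : ∃ s : ℂ, s ^ 2 = w ∧ 0 ≤ s.re := by
  obtain ⟨s, hs⟩ := IsAlgClosed.exists_pow_nat_eq w (n := 2) (by norm_num)
  rcases le_total 0 s.re with h | h
  · exact ⟨s, hs, h⟩
  · exact ⟨-s, by rw [neg_pow_two, hs], by simpa using h⟩

theorem p_F6_near (s : ℂ) (h0 : 0 ≤ s.re) (h : ‖s ^ 2 - 1‖ ≤ 1 / 16) : ‖s - 1‖ ≤ 1 / 16 := by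
  have h1 : ‖s ^ 2 - 1‖ = ‖s - 1‖ * ‖s + 1‖ := by
    rw [← norm_mul]; congr 1; ring
  have h2 : (1 : ℝ) ≤ ‖s + 1‖ := by
    refine le_trans ?_ (Complex.re_le_norm (s + 1))
    simp only [Complex.add_re, Complex.one_re]
    linarith
  have h3 : ‖s - 1‖ * 1 ≤ ‖s - 1‖ * ‖s + 1‖ := mul_le_mul_of_nonneg_left h2 (norm_nonneg _)
  linarith

theorem p_F6_re (s : ℂ) (h : ‖s - 1‖ ≤ 1 / 16) : 15 / 16 ≤ s.re := by
  have h1 := Complex.abs_re_le_norm (s - 1)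
  rw [Complex.sub_re, Complex.one_re] at h1
  have h2 := (abs_le.1 (h1.trans h)).1
  linarith

theorem p_F6_norm (s : ℂ) (h : ‖s - 1‖ ≤ 1 / 16) : 15 / 16 ≤ ‖s‖ ∧ ‖s‖ ≤ 17 / 16 := by
  constructor
  · exact (p_F6_re s h).trans (Complex.re_le_norm s)
  · have h1 : ‖s‖ = ‖(s - 1) + 1‖ := by congr 1; ring
    have h2 := norm_add_le (s - 1) 1
    rw [← h1, norm_one] at h2
    linarith

theorem p_F6_lip (s t : ℂ) (hs : ‖s - 1‖ ≤ 1 / 16) (ht : ‖t - 1‖ ≤ 1 / 16) :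
    ‖s - t‖ ≤ ‖s ^ 2 - t ^ 2‖ := by
  have h1 : ‖s ^ 2 - t ^ 2‖ = ‖s - t‖ * ‖s + t‖ := by
    rw [← norm_mul]; congr 1; ring
  have h2 : (1 : ℝ) ≤ ‖s + t‖ := by
    refine le_trans ?_ (Complex.re_le_norm (s + t))
    rw [Complex.add_re]
    linarith [p_F6_re s hs, p_F6_re t ht]
  have h3 : ‖s - t‖ * 1 ≤ ‖s - t‖ * ‖s + t‖ := mul_le_mul_of_nonneg_left h2 (norm_nonneg _)
  linarith

/-- square root of `a z / a 0` on the unit disc -/
theorem p_F6_root (a : ℂ → ℂ) (h0 : a 0 ≠ 0)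
    (h : ∀ z z', ‖z‖ ≤ 1 → ‖z'‖ ≤ 1 → ‖a z - a z'‖ ≤ 1 / 16 * ‖a 0‖ * ‖z - z'‖) :
    ∃ S : ℂ → ℂ, (∀ z, a z = a 0 * S z ^ 2) ∧ (∀ z, ‖z‖ ≤ 1 → ‖S z - 1‖ ≤ 1 / 16) ∧
      (∀ z z', ‖z‖ ≤ 1 → ‖z'‖ ≤ 1 → ‖S z - S z'‖ ≤ 1 / 16 * ‖z - z'‖) := by
  choose S hS1 hS2 using fun z => p_F6_sqrt (a z / a 0)
  have hp : 0 < ‖a 0‖ := norm_pos_iff.2 h0
  have e : ∀ z z', ‖z‖ ≤ 1 → ‖z'‖ ≤ 1 → ‖S z ^ 2 - S z' ^ 2‖ ≤ 1 / 16 * ‖z - z'‖ := by
    intro z z' hz hz'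
    rw [hS1, hS1, ← sub_div, norm_div, div_le_iff₀ hp]
    have := h z z' hz hz'
    linarith
  have n1 : ∀ z, ‖z‖ ≤ 1 → ‖S z - 1‖ ≤ 1 / 16 := by
    intro z hz
    apply p_F6_near _ (hS2 z)
    have h1 : S z ^ 2 - 1 = (a z - a 0) / a 0 := by
      rw [hS1]; field_simp
    rw [h1, norm_div, div_le_iff₀ hp]
    have := h z 0 hz (by simp)
    rw [sub_zero] at this
    have h2 : 1 / 16 * ‖a 0‖ * ‖z‖ ≤ 1 / 16 * ‖a 0‖ * 1 :=
      mul_le_mul_of_nonneg_left hz (by positivity)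
    linarith
  refine ⟨S, ?_, n1, ?_⟩
  · intro z; rw [hS1]; field_simp
  · intro z z' hz hz'
    exact (p_F6_lip _ _ (n1 z hz) (n1 z' hz')).trans (e z z' hz hz')

theorem p_F6_fix (f : ℂ → ℂ) (hm : ∀ z, ‖z‖ ≤ 1 → ‖f z‖ ≤ 1)
    (hl : ∀ z z', ‖z‖ ≤ 1 → ‖z'‖ ≤ 1 → ‖f z - f z'‖ ≤ 1 / 2 * ‖z - z'‖) :
    ∃ z, ‖z‖ ≤ 1 ∧ f z = z := by
  have hmt : MapsTo f (Metric.closedBall (0 : ℂ) 1) (Metric.closedBall 0 1) := by
    intro z hz
    rw [mem_closedBall_zero_iff] at hz ⊢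
    exact hm z hz
  have hc : ContractingWith (1 / 2) (hmt.restrict f _ _) := by
    refine ⟨by norm_num, LipschitzWith.of_dist_le_mul ?_⟩
    rintro ⟨x, hx⟩ ⟨y, hy⟩
    rw [mem_closedBall_zero_iff] at hx hy
    rw [Subtype.dist_eq, Subtype.dist_eq]
    simp only [MapsTo.restrict, Subtype.map]
    rw [dist_eq_norm, dist_eq_norm]
    have := hl x y hx hy
    simpa using this
  obtain ⟨y, hy, hfy, -⟩ := ContractingWith.exists_fixedPoint' (Metric.isClosed_closedBall.isComplete)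
    hmt hc (x := 0) (by simp) (edist_ne_top _ _)
  exact ⟨y, by simpa using hy, hfy⟩

theorem p_F6 : S_F6 := by
  intro a b α ha0 hb0 hna hnb H
  obtain ⟨S, hS1, hS2, hS3⟩ := p_F6_root a ha0 (fun z z' hz hz' => (H z z' hz hz').2.2.1)
  obtain ⟨T, hT1, hT2, hT3⟩ := p_F6_root b hb0 (fun z z' hz hz' => (H z z' hz hz').2.2.2)
  obtain ⟨A, hA⟩ := IsAlgClosed.exists_pow_nat_eq (a 0) (n := 2) (by norm_num)
  obtain ⟨B, hB⟩ := IsAlgClosed.exists_pow_nat_eq (b 0) (n := 2) (by norm_num)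
  have hAn : ‖A‖ ^ 2 = ‖a 0‖ := by rw [← norm_pow, hA]
  have hBn : ‖B‖ ^ 2 = ‖b 0‖ := by rw [← norm_pow, hB]
  have hA0 : A ≠ 0 := by rintro rfl; apply ha0; rw [← hA]; norm_num
  have hB0 : B ≠ 0 := by rintro rfl; apply hb0; rw [← hB]; norm_num
  have hA2 : ‖A‖ ≤ 1 / 2 := by nlinarith [norm_nonneg A]
  have hB2 : ‖B‖ ≤ 1 / 2 := by nlinarith [norm_nonneg B]
  have hAB : ‖A * B‖ ≤ 1 / 4 := by
    rw [norm_mul]; nlinarith [norm_nonneg A, norm_nonneg B]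
  set q : ℂ → ℂ := fun z => A * B * (S z * T z) with hq
  have qn : ∀ z, ‖z‖ ≤ 1 → ‖q z‖ ≤ 1 / 3 := by
    intro z hz
    have h1 := (p_F6_norm _ (hS2 z hz)).2
    have h2 := (p_F6_norm _ (hT2 z hz)).2
    have h3 : ‖S z * T z‖ ≤ 17 / 16 * (17 / 16) := by
      rw [norm_mul]; exact mul_le_mul h1 h2 (norm_nonneg _) (by norm_num)
    have h4 : ‖q z‖ ≤ 1 / 4 * (17 / 16 * (17 / 16)) := by
      simp only [hq]
      rw [norm_mul]; exact mul_le_mul hAB h3 (norm_nonneg _) (by norm_num)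
    linarith
  have ql : ∀ z z', ‖z‖ ≤ 1 → ‖z'‖ ≤ 1 → ‖q z - q z'‖ ≤ 1 / 16 * ‖z - z'‖ := by
    intro z z' hz hz'
    have e : q z - q z' = A * B * (S z * (T z - T z') + (S z - S z') * T z') := by
      simp only [hq]; ring
    have h1 := (p_F6_norm _ (hS2 z hz)).2
    have h2 := (p_F6_norm _ (hT2 z' hz')).2
    have h3 := hS3 z z' hz hz'
    have h4 := hT3 z z' hz hz'
    have h5 : ‖S z * (T z - T z')‖ ≤ 17 / 16 * (1 / 16 * ‖z - z'‖) := by
      rw [norm_mul]; exact mul_le_mul h1 h4 (norm_nonneg _) (by norm_num)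
    have h6 : ‖(S z - S z') * T z'‖ ≤ (1 / 16 * ‖z - z'‖) * (17 / 16) := by
      rw [norm_mul]; exact mul_le_mul h3 h2 (norm_nonneg _) (by positivity)
    rw [e, norm_mul]
    have h7 : ‖S z * (T z - T z') + (S z - S z') * T z'‖ ≤ 17 / 128 * ‖z - z'‖ := by
      refine (norm_add_le _ _).trans ?_
      linarith
    have h8 : ‖A * B‖ * ‖S z * (T z - T z') + (S z - S z') * T z'‖ ≤ 1 / 4 * (17 / 128 * ‖z - z'‖) :=
      mul_le_mul hAB h7 (norm_nonneg _) (by norm_num)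
    have := norm_nonneg (z - z')
    linarith
  have fix : ∀ ε : ℂ, ‖ε‖ = 1 → ∃ z, ‖z‖ ≤ 1 ∧ α z + ε * q z = z := by
    intro ε hε
    apply p_F6_fix (fun z => α z + ε * q z)
    · intro z hz
      have h1 := (H z z hz hz).1
      have h2 := qn z hz
      refine (norm_add_le _ _).trans ?_
      rw [norm_mul, hε]
      linarith
    · intro z z' hz hz'
      have h1 := (H z z' hz hz').2.1
      have h2 := ql z z' hz hz'
      have e : (α z + ε * q z) - (α z' + ε * q z') = (α z - α z') + ε * (q z - q z') := by ring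
      show ‖(α z + ε * q z) - (α z' + ε * q z')‖ ≤ _
      rw [e]
      refine (norm_add_le _ _).trans ?_
      rw [norm_mul, hε]
      have := norm_nonneg (z - z')
      linarith
  obtain ⟨z, hz, hfz⟩ := fix 1 (by simp)
  obtain ⟨z', hz', hfz'⟩ := fix (-1) (by simp)
  have Sne : ∀ z, ‖z‖ ≤ 1 → S z ≠ 0 := by
    intro z hz h
    have := (p_F6_norm _ (hS2 z hz)).1
    rw [h, norm_zero] at this
    norm_num at this
  have Tne : ∀ z, ‖z‖ ≤ 1 → T z ≠ 0 := by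
    intro z hz h
    have := (p_F6_norm _ (hT2 z hz)).1
    rw [h, norm_zero] at this
    norm_num at this
  have hr0 : 0 < ‖A / B‖ := norm_pos_iff.2 (div_ne_zero hA0 hB0)
  have quo : ∀ z, ‖z‖ ≤ 1 → ‖A / B * (S z / T z) - A / B‖ ≤ ‖A / B‖ / 4 := by
    intro z hz
    have e : A / B * (S z / T z) - A / B = A / B * ((S z - T z) / T z) := by
      have := Tne z hz
      field_simp
    rw [e, norm_mul]
    have h1 := (p_F6_norm _ (hT2 z hz)).1
    have h2 : ‖S z - T z‖ ≤ 1 / 8 := by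
      have e2 : S z - T z = (S z - 1) - (T z - 1) := by ring
      rw [e2]
      refine (norm_sub_le _ _).trans ?_
      linarith [hS2 z hz, hT2 z hz]
    have h3 : ‖(S z - T z) / T z‖ ≤ 1 / 4 := by
      rw [norm_div, div_le_iff₀ (by linarith)]
      linarith
    calc ‖A / B‖ * ‖(S z - T z) / T z‖ ≤ ‖A / B‖ * (1 / 4) :=
          mul_le_mul_of_nonneg_left h3 hr0.le
      _ = ‖A / B‖ / 4 := by ring
  refine ⟨z, z', A / B * (S z / T z), -(A / B * (S z' / T z')), A / B, ?_, hz, hz',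
    div_ne_zero hA0 hB0, quo z hz, ?_, ?_, ?_, ?_, ?_, ?_⟩
  · rintro rfl
    have h1 : q z = 0 := by
      linear_combination (hfz - hfz') / 2
    simp only [hq] at h1
    exact (mul_ne_zero (mul_ne_zero hA0 hB0) (mul_ne_zero (Sne z hz) (Tne z hz))) h1
  · have e : -(A / B * (S z' / T z')) + A / B = -(A / B * (S z' / T z') - A / B) := by ring
    rw [e, norm_neg]
    exact quo z' hz'
  · rw [norm_div, div_pow, hAn, hBn]
  · have e : z - α z = A * B * (S z * T z) := by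
      have : z - α z = q z := by linear_combination -hfz
      rw [this]
    rw [e, hT1 z, ← hB]
    have := Tne z hz
    field_simp
  · have e : z - α z = A * B * (S z * T z) := by
      have : z - α z = q z := by linear_combination -hfz
      rw [this]
    rw [e, hS1 z, ← hA]
    have := Tne z hz
    field_simp
  · have e : z' - α z' = -(A * B * (S z' * T z')) := by
      have : z' - α z' = -q z' := by linear_combination -hfz'
      rw [this]
    rw [e, hT1 z', ← hB]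
    have := Tne z' hz'
    field_simp
  · have e : z' - α z' = -(A * B * (S z' * T z')) := by
      have : z' - α z' = -q z' := by linear_combination -hfz'
      rw [this]
    rw [e, hS1 z', ← hA]
    have := Tne z' hz'
    field_simp

end HillRoots
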