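import Pool.Agent.Lib.MP_e63cf8_mp.StmB

/-!
# MP_e63cf8_mp, piece F8: double eigenvalues away from the multiples of g
-/

open Polynomial Filter Topology MeasureTheory Asymptotics

namespace HillRoots

open Classical in
private noncomputable def p_F8_cut (g : ℕ) (x : ℤ → ℂ) (s : ℤ) : ℂ := if (g : ℤ) ∣ s then x s else 0

private theorem p_F8_cut_pos {g : ℕ} {x : ℤ → ℂ} {s : ℤ} (h : (g : ℤ) ∣ s) :
    p_F8_cut g x s = x s := by unfold p_F8_cut; exact if_pos h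

private theorem p_F8_cut_neg {g : ℕ} {x : ℤ → ℂ} {s : ℤ} (h : ¬ (g : ℤ) ∣ s) :
    p_F8_cut g x s = 0 := by unfold p_F8_cut; exact if_neg h

private theorem p_F8_V1 {P Q : ℂ[X]} {g : ℕ} (hP : SuppMul g P) (hQ : SuppMul g Q) (x : ℤ → ℂ)
    {s : ℤ} (hs : (g : ℤ) ∣ s) : Vop P Q (p_F8_cut g x) s = Vop P Q x s := by
  unfold Vop
  congr 1
  · refine Finset.sum_congr rfl fun j _ => ?_
    by_cases h : P.coeff j = 0
    · rw [h, zero_mul, zero_mul]
    · have hj : (g : ℤ) ∣ (j : ℤ) := by exact_mod_cast hP j h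
      rw [p_F8_cut_pos (dvd_sub hs hj)]
  · refine Finset.sum_congr rfl fun j _ => ?_
    by_cases h : Q.coeff j = 0
    · rw [h, zero_mul, zero_mul]
    · have hj : (g : ℤ) ∣ (j : ℤ) := by exact_mod_cast hQ j h
      rw [p_F8_cut_pos (dvd_add hs hj)]

private theorem p_F8_V0 {P Q : ℂ[X]} {g : ℕ} (hP : SuppMul g P) (hQ : SuppMul g Q) (x : ℤ → ℂ)
    {s : ℤ} (hs : ¬ (g : ℤ) ∣ s) : Vop P Q (p_F8_cut g x) s = 0 := by
  unfold Vop
  rw [Finset.sum_eq_zero, Finset.sum_eq_zero, add_zero]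
  · intro j _
    by_cases h : Q.coeff j = 0
    · rw [h, zero_mul]
    · have hj : (g : ℤ) ∣ (j : ℤ) := by exact_mod_cast hQ j h
      rw [p_F8_cut_neg, mul_zero]
      intro h2
      exact hs ((Int.dvd_add_left hj).1 h2)
  · intro j _
    by_cases h : P.coeff j = 0
    · rw [h, zero_mul]
    · have hj : (g : ℤ) ∣ (j : ℤ) := by exact_mod_cast hP j h
      rw [p_F8_cut_neg, mul_zero]
      intro h2
      have := dvd_add h2 hj
      rw [sub_add_cancel] at this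
      exact hs this

private theorem p_F8_Vsub (P Q : ℂ[X]) (x y : ℤ → ℂ) (t : ℤ) :
    Vop P Q (fun s => x s - y s) t = Vop P Q x t - Vop P Q y t := by
  unfold Vop
  simp only [mul_sub, Finset.sum_sub_distrib]
  ring

private theorem p_F8_beta {P Q : ℂ[X]} {g : ℕ} (hP : SuppMul g P) (hQ : SuppMul g Q) {n : ℕ}
    {z : ℂ} (hn : ¬ g ∣ n) (h1 : Sol P Q n z 1 0 0 (C0 P Q n z))
    (h2 : ∀ x : ℤ → ℂ, Sol P Q n z 0 0 0 x → x = 0) : beta P Q n z = 0 := by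
  set x := C0 P Q n z with hx
  have hn' : ¬ (g : ℤ) ∣ (n : ℤ) := by
    intro h
    exact hn (by exact_mod_cast h)
  have hw : Sol P Q n z 0 0 0 (fun s => x s - p_F8_cut g x s) := by
    obtain ⟨C, hC⟩ := h1.bdd
    have hC0 : 0 ≤ C := (norm_nonneg _).trans (hC 0)
    refine ⟨⟨C, fun s => ?_⟩, ?_, ?_, ?_⟩
    · by_cases hs : (g : ℤ) ∣ s
      · simp only [p_F8_cut_pos hs, sub_self, norm_zero]; exact hC0
      · simp only [p_F8_cut_neg hs, sub_zero]; exact hC s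
    · simp only [p_F8_cut_pos (dvd_zero (g : ℤ)), sub_self]
    · simp only [p_F8_cut_neg hn', sub_zero]; exact h1.top
    · intro s hs0 hsn
      rw [p_F8_Vsub]
      have he := h1.eqn s hs0 hsn
      by_cases hs : (g : ℤ) ∣ s
      · simp only [p_F8_cut_pos hs, p_F8_V1 hP hQ x hs, sub_self, mul_zero, Pi.zero_apply,
          add_zero]
      · simp only [p_F8_cut_neg hs, p_F8_V0 hP hQ x hs, sub_zero]
        exact he
  have hz := h2 _ hw
  have hxx : p_F8_cut g x = x := by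
    funext s
    have := congrFun hz s
    simp only [Pi.zero_apply] at this
    exact (sub_eq_zero.1 this).symm
  show Vop P Q x n = 0
  rw [← hxx]
  exact p_F8_V0 hP hQ x hn'

private theorem p_F8_fix (α : ℂ → ℂ) (h : ∀ z z' : ℂ, ‖z‖ ≤ 1 → ‖z'‖ ≤ 1 →
    ‖α z‖ ≤ 1 ∧ ‖α z - α z'‖ ≤ 1 / 2 * ‖z - z'‖) : ∃ z, ‖z‖ ≤ 1 ∧ α z = z := by
  have hm : Set.MapsTo α (Metric.closedBall 0 1) (Metric.closedBall 0 1) := by
    intro z hz
    rw [mem_closedBall_zero_iff] at hz ⊢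
    exact (h z z hz hz).1
  have hc : ContractingWith (1 / 2 : NNReal) (hm.restrict α _ _) := by
    refine ⟨by rw [← NNReal.coe_lt_coe]; norm_num, ?_⟩
    refine LipschitzWith.of_dist_le_mul ?_
    rintro ⟨z, hz⟩ ⟨z', hz'⟩
    rw [mem_closedBall_zero_iff] at hz hz'
    have := (h z z' hz hz').2
    simp only [Subtype.dist_eq, Set.MapsTo.val_restrict_apply, dist_eq_norm]
    simpa using this
  obtain ⟨z, hz, hfix, -⟩ := ContractingWith.exists_fixedPoint' (Metric.isClosed_closedBall.isComplete)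
    hm hc (x := (0 : ℂ)) (by simp) (edist_ne_top _ _)
  exact ⟨z, mem_closedBall_zero_iff.1 hz, hfix⟩

theorem p_F8 (hF1 : S_F1) (hF3 : S_F3) (hF4 : S_F4) (hF5 : S_F5) : S_F8 := by
  intro P Q g hP0 hQ0 hP hQ
  obtain ⟨n₁, K₁, hK₁, h1⟩ := hF1 P Q 1
  obtain ⟨n₂, K₂, hK₂, h2⟩ := hF1 Q P 1
  obtain ⟨n₄, K₄, hK₄, h4⟩ := hF4 P Q 1 hP0 hQ0
  obtain ⟨n₅, K₅, hK₅, h5⟩ := hF5 P Q 1
  obtain ⟨m, hm⟩ := exists_nat_ge K₄
  refine ⟨K₅, n₁ + n₂ + n₄ + n₅ + m + 1, hK₅, ?_⟩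
  intro k hg hk
  have hkR : (1 : ℝ) ≤ k := by
    have : 1 ≤ k := by omega
    exact_mod_cast this
  have hmk : K₄ ≤ k := by
    have : (m : ℝ) ≤ k := by
      have : m ≤ k := by omega
      exact_mod_cast this
    linarith
  have hK4 : K₄ / ((2 * k : ℕ) : ℝ) ≤ 1 / 2 := by
    push_cast
    rw [div_le_div_iff₀ (by positivity) (by positivity)]
    linarith
  obtain ⟨z, hz, hfix⟩ := p_F8_fix (alpha P Q (2 * k)) (by
    intro z z' hz hz'
    obtain ⟨a1, a2, a3⟩ := h4 (2 * k) (by omega) z z' hz hz'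
    refine ⟨a1.trans (hK4.trans (by norm_num)), a3.trans ?_⟩
    exact mul_le_mul_of_nonneg_right hK4 (norm_nonneg _))
  have hb1 : beta P Q (2 * k) z = 0 := by
    obtain ⟨a1, -, a3⟩ := h1 (2 * k) (by omega) z hz
    exact p_F8_beta hP hQ hg a1 a3
  have hb2 : beta Q P (2 * k) z = 0 := by
    obtain ⟨a1, -, a3⟩ := h2 (2 * k) (by omega) z hz
    exact p_F8_beta hQ hP hg a1 a3
  obtain ⟨x, hx, -, hx3⟩ := h5 k (by omega) (by omega) z 1 0 hz (by rw [hfix, hb2]; ring)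
    (by rw [hfix, hb1]; ring)
  obtain ⟨x', hx', -, hx3'⟩ := h5 k (by omega) (by omega) z 0 1 hz (by rw [hfix, hb2]; ring)
    (by rw [hfix, hb1]; ring)
  refine ⟨x, x', z, hz, hx, hx', ?_, ?_⟩
  · simpa using hx3
  · simpa using hx3'

end HillRoots
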