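import Pool.Agent.Lib.MP_e63cf8_mp.StmA

/-! # Piece G1: block diagonal isomorphisms -/

open Polynomial Filter Topology MeasureTheory Asymptotics
open scoped ContDiff

namespace HillRoots

/-- multiplication by a bounded sequence after a permutation of the coordinates -/
theorem p_G1_mul (g : ℤ → ℂ) (C : ℝ) (hC : 0 ≤ C) (hg : ∀ i, ‖g i‖ ≤ C) (σ : ℤ ≃ ℤ) :
    ∃ G : Hs →L[ℂ] Hs, ∀ (x : Hs) (i : ℤ), (G x : ℤ → ℂ) i = g i * x (σ i) := by
  have hp : (0 : ℝ) < (2 : ENNReal).toReal := by simp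
  have key : ∀ (x : Hs) (s : Finset ℤ), ∑ i ∈ s, ‖g i * x (σ i)‖ ^ (2 : ENNReal).toReal ≤
      (C * ‖x‖) ^ (2 : ENNReal).toReal := by
    intro x s
    have h1 := lp.sum_rpow_le_norm_rpow hp x (s.map σ.toEmbedding)
    rw [Finset.sum_map] at h1
    calc ∑ i ∈ s, ‖g i * x (σ i)‖ ^ (2 : ENNReal).toReal
        ≤ ∑ i ∈ s, C ^ (2 : ENNReal).toReal * ‖x (σ i)‖ ^ (2 : ENNReal).toReal := by
          refine Finset.sum_le_sum fun i _ => ?_
          rw [← Real.mul_rpow hC (norm_nonneg _)]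
          refine Real.rpow_le_rpow (norm_nonneg _) ?_ hp.le
          rw [norm_mul]
          exact mul_le_mul_of_nonneg_right (hg i) (norm_nonneg _)
      _ = C ^ (2 : ENNReal).toReal * ∑ i ∈ s, ‖x (σ i)‖ ^ (2 : ENNReal).toReal := by
          rw [Finset.mul_sum]
      _ ≤ C ^ (2 : ENNReal).toReal * ‖x‖ ^ (2 : ENNReal).toReal :=
          mul_le_mul_of_nonneg_left h1 (Real.rpow_nonneg hC _)
      _ = (C * ‖x‖) ^ (2 : ENNReal).toReal := (Real.mul_rpow hC (norm_nonneg _)).symm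
  have hm : ∀ x : Hs, Memℓp (fun i => g i * x (σ i)) 2 := fun x => memℓp_gen' (key x)
  let G₀ : Hs →ₗ[ℂ] Hs :=
    { toFun := fun x => ⟨fun i => g i * x (σ i), hm x⟩
      map_add' := by
        intro x y
        ext i
        simp only [lp.coeFn_add, Pi.add_apply]
        ring
      map_smul' := by
        intro c x
        ext i
        simp only [lp.coeFn_smul, Pi.smul_apply, smul_eq_mul, RingHom.id_apply]
        ring }
  have hG : ∀ x, ‖G₀ x‖ ≤ C * ‖x‖ := fun x =>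
    lp.norm_le_of_forall_sum_le hp (mul_nonneg hC (norm_nonneg _)) (key x)
  exact ⟨G₀.mkContinuous C hG, fun x i => rfl⟩

theorem p_G1_ee (j i : ℤ) : (ee j : ℤ → ℂ) i = if i = j then 1 else 0 := by
  unfold ee
  rw [lp.single_apply, Pi.single_apply]

/-- the two by two part together with a finite rank operator -/
theorem p_G1_op (a b : ℤ → ℂ) (C : ℝ) (hC : 0 ≤ C) (ha : ∀ i, ‖a i‖ ≤ C) (hb : ∀ i, ‖b i‖ ≤ C)
    (F : Finset ℤ) (v : ℤ → Hs) :
    ∃ G : Hs →L[ℂ] Hs, ∀ (x : Hs) (i : ℤ), (G x : ℤ → ℂ) i = a i * x i + b i * x (-i) +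
      ∑ j ∈ F, x j * (v j : ℤ → ℂ) i := by
  obtain ⟨A, hA⟩ := p_G1_mul a C hC ha (Equiv.refl ℤ)
  obtain ⟨B, hB⟩ := p_G1_mul b C hC hb (Equiv.neg ℤ)
  refine ⟨A + B + ∑ j ∈ F, (lp.evalCLM ℂ (fun _ : ℤ => ℂ) 2 j).smulRight (v j), fun x i => ?_⟩
  have e : (A + B + ∑ j ∈ F, (lp.evalCLM ℂ (fun _ : ℤ => ℂ) 2 j).smulRight (v j)) x =
      A x + B x + ∑ j ∈ F, x j • v j := by
    rw [_root_.add_apply, _root_.add_apply,
      _root_.sum_apply]
    rfl
  rw [e, lp.coeFn_add, lp.coeFn_add, Pi.add_apply, Pi.add_apply, hA, hB, lp.coeFn_sum,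
    Finset.sum_apply]
  rfl

theorem p_G1_blk0 (N : ℕ) (i : ℤ) : blk N i = 0 ↔ i ∈ Finset.Icc (-(N : ℤ)) N := by
  unfold blk
  rw [Finset.mem_Icc]
  split_ifs with h
  · simp only [true_iff]
    omega
  · constructor
    · intro h'
      omega
    · intro h'
      omega

theorem p_G1_blk_ne (N : ℕ) (i j : ℤ) (hj : N < j.natAbs) (h1 : i ≠ j) (h2 : i ≠ -j) :
    blk N i ≠ blk N j := by
  unfold blk
  split_ifs <;> omega

/-- the determinant condition, for integer indices -/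
theorem p_G1_det (N : ℕ) (K : ℝ) (u : ℤ → Hs)
    (h : ∀ k : ℕ, N < k → 1 / K ≤ ‖(u (-(k : ℤ)) : ℤ → ℂ) (-(k : ℤ)) * (u k : ℤ → ℂ) k -
      (u k : ℤ → ℂ) (-(k : ℤ)) * (u (-(k : ℤ)) : ℤ → ℂ) k‖) (i : ℤ) (hi : N < i.natAbs) :
    1 / K ≤ ‖(u i : ℤ → ℂ) i * (u (-i) : ℤ → ℂ) (-i) -
      (u (-i) : ℤ → ℂ) i * (u i : ℤ → ℂ) (-i)‖ := by
  have h' := h i.natAbs hi
  rcases Int.natAbs_eq i with hk | hk
  · rw [← hk] at h'
    rw [show (u i : ℤ → ℂ) i * (u (-i) : ℤ → ℂ) (-i) - (u (-i) : ℤ → ℂ) i * (u i : ℤ → ℂ) (-i) =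
      (u (-i) : ℤ → ℂ) (-i) * (u i : ℤ → ℂ) i - (u i : ℤ → ℂ) (-i) * (u (-i) : ℤ → ℂ) i by ring]
    exact h'
  · rw [show ((i.natAbs : ℕ) : ℤ) = -i by omega, neg_neg] at h'
    exact h'

/-- the finite dimensional block -/
theorem p_G1_fin (N : ℕ) (u : ℤ → Hs)
    (hu : ∀ i j : ℤ, blk N i ≠ blk N j → (u j : ℤ → ℂ) i = 0)
    (hli : LinearIndependent ℂ (fun i : {i : ℤ // blk N i = 0} => u i)) :
    (∀ c : ℤ → ℂ, (∀ i ∈ Finset.Icc (-(N : ℤ)) N,
      ∑ j ∈ Finset.Icc (-(N : ℤ)) N, c j * (u j : ℤ → ℂ) i = 0) →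
      ∀ j ∈ Finset.Icc (-(N : ℤ)) N, c j = 0) ∧
    (∀ y : ℤ → ℂ, ∃ c : ℤ → ℂ, ∀ i ∈ Finset.Icc (-(N : ℤ)) N,
      ∑ j ∈ Finset.Icc (-(N : ℤ)) N, c j * (u j : ℤ → ℂ) i = y i) := by
  classical
  set F := Finset.Icc (-(N : ℤ)) N with hF
  have h1 : ∀ c : ℤ → ℂ, (∀ i ∈ F, ∑ j ∈ F, c j * (u j : ℤ → ℂ) i = 0) → ∀ j ∈ F, c j = 0 := by
    intro c hc
    let e : {i : ℤ // i ∈ F} → {i : ℤ // blk N i = 0} := fun i => ⟨i, (p_G1_blk0 N i).2 i.2⟩
    have he : Function.Injective e := fun i j hij => Subtype.ext (congrArg (fun z => z.1) hij)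
    have hli' := hli.comp e he
    have hz : ∑ j : {i : ℤ // i ∈ F}, c j • u j = 0 := by
      rw [lp.eq_zero_iff_coeFn_eq_zero]
      funext i
      rw [lp.coeFn_sum, Finset.sum_apply, Pi.zero_apply]
      have e1 : ∑ j : {i : ℤ // i ∈ F}, (c j • u j : Hs) i = ∑ j ∈ F, c j * (u j : ℤ → ℂ) i := by
        rw [← Finset.sum_coe_sort F]
        rfl
      rw [e1]
      by_cases hi : i ∈ F
      · exact hc i hi
      · refine Finset.sum_eq_zero fun j hj => ?_
        rw [hu i j, mul_zero]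
        rw [(p_G1_blk0 N j).2 hj]
        exact fun h => hi ((p_G1_blk0 N i).1 h)
    intro j hj
    have := (Fintype.linearIndependent_iff.1 hli') (fun j => c j) hz ⟨j, hj⟩
    exact this
  refine ⟨h1, fun y => ?_⟩
  let L : ({i : ℤ // i ∈ F} → ℂ) →ₗ[ℂ] ({i : ℤ // i ∈ F} → ℂ) :=
    { toFun := fun c i => ∑ j : {i : ℤ // i ∈ F}, c j * (u j : ℤ → ℂ) i
      map_add' := by
        intro c d
        funext i
        simp only [Pi.add_apply, add_mul, Finset.sum_add_distrib]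
      map_smul' := by
        intro r c
        funext i
        simp only [Pi.smul_apply, smul_eq_mul, RingHom.id_apply, mul_assoc, Finset.mul_sum] }
  have hLi : Function.Injective L := by
    rw [injective_iff_map_eq_zero]
    intro c hc
    funext j
    have h2 := h1 (fun i => if h : i ∈ F then c ⟨i, h⟩ else 0) (by
      intro i hi
      have h3 := congrFun hc ⟨i, hi⟩
      rw [← Finset.sum_coe_sort F]
      rw [Pi.zero_apply] at h3
      rw [← h3]
      refine Finset.sum_congr rfl fun j _ => ?_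
      simp) j j.2
    simpa using h2
  obtain ⟨c, hc⟩ := (LinearMap.injective_iff_surjective.1 hLi) (fun i => y i)
  refine ⟨fun i => if h : i ∈ F then c ⟨i, h⟩ else 0, fun i hi => ?_⟩
  have h3 := congrFun hc ⟨i, hi⟩
  rw [← Finset.sum_coe_sort F]
  rw [← h3]
  refine Finset.sum_congr rfl fun j _ => ?_
  simp

theorem p_G1 : S_G1 := by
  classical
  intro N K u hK hu hli hbd hdet
  obtain ⟨hinj, hsur⟩ := p_G1_fin N u hu hli
  set F := Finset.Icc (-(N : ℤ)) N with hF
  have hmem : ∀ i : ℤ, i ∈ F ↔ i.natAbs ≤ N := by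
    intro i
    rw [hF, Finset.mem_Icc]
    omega
  have hdet' := p_G1_det N K u hdet
  set a : ℤ → ℂ := fun i => if i ∈ F then 0 else (u i : ℤ → ℂ) i with ha
  set b : ℤ → ℂ := fun i => if i ∈ F then 0 else (u (-i) : ℤ → ℂ) i with hb
  have hnb : ∀ i : ℤ, i ∉ F → N < i.natAbs := fun i hi => not_le.1 fun h => hi ((hmem i).2 h)
  have hneg : ∀ i : ℤ, -i ∈ F ↔ i ∈ F := by
    intro i
    rw [hmem, hmem, Int.natAbs_neg]
  have haK : ∀ i, ‖a i‖ ≤ K := by
    intro i
    simp only [ha]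
    split_ifs with h
    · simpa using hK.le
    · exact hbd i i (hnb i h)
  have hbK : ∀ i, ‖b i‖ ≤ K := by
    intro i
    simp only [hb]
    split_ifs with h
    · simpa using hK.le
    · exact hbd i (-i) (by rw [Int.natAbs_neg]; exact hnb i h)
  obtain ⟨S, hS⟩ := p_G1_op a b K hK.le haK hbK F u
  -- the values on the standard basis
  have hSe : ∀ j, S (ee j) = u j := by
    intro j
    apply lp.ext
    funext i
    rw [hS]
    by_cases hj : j ∈ F
    · -- block zero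
      have e1 : ∑ l ∈ F, (ee j : ℤ → ℂ) l * (u l : ℤ → ℂ) i = (u j : ℤ → ℂ) i := by
        rw [Finset.sum_eq_single j]
        · rw [p_G1_ee, if_pos rfl, one_mul]
        · intro l _ hl
          rw [p_G1_ee, if_neg hl, zero_mul]
        · intro h
          exact absurd hj h
      have e2 : a i * (ee j : ℤ → ℂ) i = 0 := by
        rw [p_G1_ee]
        split_ifs with h
        · rw [h]
          simp [ha, hj]
        · rw [mul_zero]
      have e3 : b i * (ee j : ℤ → ℂ) (-i) = 0 := by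
        rw [p_G1_ee]
        split_ifs with h
        · have : i ∈ F := (hneg i).1 (h ▸ hj)
          simp [hb, this]
        · rw [mul_zero]
      rw [e1, e2, e3]
      ring
    · have e1 : ∑ l ∈ F, (ee j : ℤ → ℂ) l * (u l : ℤ → ℂ) i = 0 := by
        refine Finset.sum_eq_zero fun l hl => ?_
        rw [p_G1_ee, if_neg, zero_mul]
        rintro rfl
        exact hj hl
      rw [e1, add_zero]
      have hjN := hnb j hj
      by_cases h1 : i = j
      · subst h1
        have h2 : -i ≠ i := by omega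
        rw [p_G1_ee, p_G1_ee, if_pos rfl, if_neg h2]
        simp [ha, hj]
      · by_cases h2 : i = -j
        · subst h2
          have h3 : -j ∉ F := fun h => hj ((hneg j).1 h)
          rw [p_G1_ee, p_G1_ee, if_neg h1, if_pos (neg_neg j)]
          simp [hb, h3]
        · rw [p_G1_ee, p_G1_ee, if_neg h1, if_neg (by omega)]
          rw [hu i j (p_G1_blk_ne N i j hjN h1 h2)]
          simp
  -- the sum over the block zero vanishes outside
  have hout : ∀ (x : ℤ → ℂ) (i : ℤ), i ∉ F → ∑ j ∈ F, x j * (u j : ℤ → ℂ) i = 0 := by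
    intro x i hi
    refine Finset.sum_eq_zero fun j hj => ?_
    rw [hu i j, mul_zero]
    rw [(p_G1_blk0 N j).2 hj]
    exact fun h => hi ((p_G1_blk0 N i).1 h)
  have hS1 : ∀ (x : Hs) (i : ℤ), i ∉ F → (S x : ℤ → ℂ) i =
      (u i : ℤ → ℂ) i * x i + (u (-i) : ℤ → ℂ) i * x (-i) := by
    intro x i hi
    rw [hS, hout _ i hi]
    simp only [ha, hb, if_neg hi, add_zero]
  have hS0 : ∀ (x : Hs) (i : ℤ), i ∈ F → (S x : ℤ → ℂ) i =
      ∑ j ∈ F, x j * (u j : ℤ → ℂ) i := by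
    intro x i hi
    rw [hS]
    simp only [ha, hb, if_pos hi, zero_mul, zero_add]
  set D : ℤ → ℂ := fun i => (u i : ℤ → ℂ) i * (u (-i) : ℤ → ℂ) (-i) -
    (u (-i) : ℤ → ℂ) i * (u i : ℤ → ℂ) (-i) with hD
  have hDK : ∀ i, i ∉ F → 1 / K ≤ ‖D i‖ := fun i hi => hdet' i (hnb i hi)
  have hD0 : ∀ i, i ∉ F → D i ≠ 0 := by
    intro i hi h
    have := hDK i hi
    rw [h, norm_zero] at this
    exact absurd this (not_le.2 (by positivity))
  -- injectivity
  have hker : ∀ x : Hs, S x = 0 → x = 0 := by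
    intro x hx
    apply lp.ext
    funext i
    rw [lp.coeFn_zero, Pi.zero_apply]
    by_cases hi : i ∈ F
    · refine hinj (fun j => x j) (fun l hl => ?_) i hi
      rw [← hS0 x l hl, hx, lp.coeFn_zero, Pi.zero_apply]
    · have hi' : -i ∉ F := fun h => hi ((hneg i).1 h)
      have e1 := hS1 x i hi
      have e2 := hS1 x (-i) hi'
      rw [hx, lp.coeFn_zero, Pi.zero_apply] at e1 e2
      rw [neg_neg] at e2
      have e3 : D i * x i = 0 := by
        simp only [hD]
        linear_combination (-(u (-i) : ℤ → ℂ) (-i)) * e1 + ((u (-i) : ℤ → ℂ) i) * e2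
      rcases mul_eq_zero.1 e3 with h | h
      · exact absurd h (hD0 i hi)
      · exact h
  -- surjectivity
  have hran : ∀ y : Hs, ∃ x : Hs, S x = y := by
    intro y
    obtain ⟨c, hc⟩ := hsur (fun i => y i)
    have hCC : ∀ p : ℂ, ∀ i, i ∉ F → ‖p‖ ≤ K → ‖p / D i‖ ≤ K * K := by
      intro p i hi hp
      rw [norm_div, div_le_iff₀ (norm_pos_iff.2 (hD0 i hi))]
      have h1 : 1 ≤ K * ‖D i‖ := by
        have := hDK i hi
        rw [div_le_iff₀ hK] at this
        linarith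
      calc ‖p‖ ≤ K := hp
        _ = K * 1 := (mul_one K).symm
        _ ≤ K * (K * ‖D i‖) := mul_le_mul_of_nonneg_left h1 hK.le
        _ = K * K * ‖D i‖ := by ring
    obtain ⟨T, hT⟩ := p_G1_op (fun i => if i ∈ F then 0 else (u (-i) : ℤ → ℂ) (-i) / D i)
      (fun i => if i ∈ F then 0 else (-(u (-i) : ℤ → ℂ) i) / D i) (K * K)
      (mul_nonneg hK.le hK.le)
      (by
        intro i
        split_ifs with h
        · simpa using mul_nonneg hK.le hK.le
        · exact hCC _ i h (hbd (-i) (-i) (by rw [Int.natAbs_neg]; exact hnb i h)))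
      (by
        intro i
        split_ifs with h
        · simpa using mul_nonneg hK.le hK.le
        · refine hCC _ i h ?_
          rw [norm_neg]
          exact hbd i (-i) (by rw [Int.natAbs_neg]; exact hnb i h)) ∅ (fun _ => 0)
    refine ⟨T y + ∑ j ∈ F, c j • ee j, ?_⟩
    have hx1 : ∀ i, i ∉ F → ((T y + ∑ j ∈ F, c j • ee j : Hs) : ℤ → ℂ) i =
        ((u (-i) : ℤ → ℂ) (-i) * y i - (u (-i) : ℤ → ℂ) i * y (-i)) / D i := by
      intro i hi
      rw [lp.coeFn_add, Pi.add_apply, hT, lp.coeFn_sum, Finset.sum_apply]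
      have e1 : ∑ j ∈ F, (c j • ee j : Hs) i = 0 := by
        refine Finset.sum_eq_zero fun j hj => ?_
        rw [lp.coeFn_smul, Pi.smul_apply, p_G1_ee, if_neg, smul_zero]
        rintro rfl
        exact hi hj
      rw [e1]
      simp only [if_neg hi, Finset.sum_empty, add_zero]
      ring
    have hx0 : ∀ i, i ∈ F → ((T y + ∑ j ∈ F, c j • ee j : Hs) : ℤ → ℂ) i = c i := by
      intro i hi
      rw [lp.coeFn_add, Pi.add_apply, hT, lp.coeFn_sum, Finset.sum_apply]
      have e1 : ∑ j ∈ F, (c j • ee j : Hs) i = c i := by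
        rw [Finset.sum_eq_single i]
        · rw [lp.coeFn_smul, Pi.smul_apply, p_G1_ee, if_pos rfl, smul_eq_mul, mul_one]
        · intro j _ hj
          rw [lp.coeFn_smul, Pi.smul_apply, p_G1_ee, if_neg (Ne.symm hj), smul_zero]
        · intro h
          exact absurd hi h
      rw [e1]
      simp [hi]
    apply lp.ext
    funext i
    by_cases hi : i ∈ F
    · rw [hS0 _ i hi, ← hc i hi]
      exact Finset.sum_congr rfl fun j hj => by rw [hx0 j hj]
    · have hi' : -i ∉ F := fun h => hi ((hneg i).1 h)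
      rw [hS1 _ i hi, hx1 i hi, hx1 (-i) hi', neg_neg]
      have hDs : D (-i) = D i := by
        simp only [hD, neg_neg]
        ring
      rw [hDs]
      have h0 := hD0 i hi
      have e : (u i : ℤ → ℂ) i * (((u (-i) : ℤ → ℂ) (-i) * y i - (u (-i) : ℤ → ℂ) i * y (-i)) / D i) +
          (u (-i) : ℤ → ℂ) i * (((u i : ℤ → ℂ) i * y (-i) - (u i : ℤ → ℂ) (-i) * y i) / D i) =
          (D i * y i) / D i := by
        simp only [hD]
        ring
      rw [e]
      exact mul_div_cancel_left₀ _ h0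
  refine ⟨ContinuousLinearEquiv.ofBijective S ?_ ?_, fun j => ?_⟩
  · exact LinearMap.ker_eq_bot'.2 hker
  · exact LinearMap.range_eq_top.2 hran
  · rw [ContinuousLinearEquiv.coeFn_ofBijective]
    exact hSe j

end HillRoots
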