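import Pool.Agent.Lib.MP_e63cf8_mp.StmA

/-!
# G2: good pairs give a basis
-/

set_option autoImplicit false

open Polynomial Filter Topology MeasureTheory Asymptotics
open scoped ContDiff

namespace HillRoots

private theorem p_G2_ee (j i : ℤ) : (ee j : ℤ → ℂ) i = if i = j then 1 else 0 := by
  unfold ee
  rw [lp.single_apply, Pi.single_apply]

private theorem p_G2_ee_self (j : ℤ) : (ee j : ℤ → ℂ) j = 1 := by rw [p_G2_ee, if_pos rfl]

private theorem p_G2_ee_ne (j i : ℤ) (h : i ≠ j) : (ee j : ℤ → ℂ) i = 0 := by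
  rw [p_G2_ee, if_neg h]

private theorem p_G2_coord (x : Hs) (i : ℤ) : ‖(x : ℤ → ℂ) i‖ ≤ ‖x‖ :=
  lp.norm_apply_le_norm two_ne_zero x i

/-- the coordinate functional -/
private noncomputable def p_G2_ev (i : ℤ) : Hs →L[ℂ] ℂ := lp.evalCLM ℂ (fun _ : ℤ => ℂ) 2 i

private theorem p_G2_ev_apply (i : ℤ) (x : Hs) : p_G2_ev i x = (x : ℤ → ℂ) i := rfl

private theorem p_G2_hasSum (x : Hs) : HasSum (fun j : ℤ => (x : ℤ → ℂ) j • ee j) x := by
  have h := lp.hasSum_single (E := fun _ : ℤ => ℂ) (p := 2) (by norm_num) x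
  have h2 : (fun j : ℤ => (x : ℤ → ℂ) j • ee j) =
      fun j : ℤ => lp.single 2 j ((x : ℤ → ℂ) j) := by
    funext j
    unfold ee
    rw [← lp.single_smul, smul_eq_mul, mul_one]
  rw [h2]
  exact h

private theorem p_G2_blk0 (N : ℕ) (i : ℤ) : blk N i = 0 ↔ i.natAbs ≤ N := by
  unfold blk
  split_ifs with h
  · simp [h]
  · constructor
    · intro h2
      omega
    · intro h2
      omega

private theorem p_G2_blk1 (N : ℕ) (i : ℤ) (h : N < i.natAbs) : blk N i = i.natAbs := by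
  unfold blk
  rw [if_neg (by omega)]

private theorem p_G2_fin (N m : ℕ) : {j : ℤ | blk N j = m}.Finite := by
  refine (Set.finite_Icc (-((max N m : ℕ) : ℤ)) ((max N m : ℕ) : ℤ)).subset ?_
  intro j hj
  rw [Set.mem_ofPred_eq] at hj
  unfold blk at hj
  rw [Set.mem_Icc]
  split_ifs at hj with h
  · have := le_max_left N m
    omega
  · have := le_max_right N m
    omega

private theorem p_G2_near (P Q : ℂ[X]) (K : ℝ) (N : ℕ) (W : Hs ≃L[ℂ] Hs) (Y : Hs →L[ℂ] Hs)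
    (hB : BD P Q K N W Y) (j : ℤ) (hj : N < j.natAbs) :
    ‖W.symm (ee j) - ee j‖ ≤ 2 * (|K| / |(j : ℝ)|) := by
  have h1 : W.symm (ee j) - ee j = W.symm (ee j - W (ee j)) := by
    rw [map_sub, W.symm_apply_apply]
  rw [h1]
  refine (hB.hWs _).trans ?_
  have h2 := hB.near j hj
  rw [norm_sub_rev] at h2
  have h3 : K / |(j : ℝ)| ≤ |K| / |(j : ℝ)| :=
    div_le_div_of_nonneg_right (le_abs_self K) (abs_nonneg _)
  linarith

private theorem p_G2_dist (P Q : ℂ[X]) (K : ℝ) (N : ℕ) (W : Hs ≃L[ℂ] Hs) (Y : Hs →L[ℂ] Hs)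
    (hB : BD P Q K N W Y) (K₁ : ℝ) (k : ℕ) (hk : N < k) (f : Hs) (p q : ℂ)
    (hf : ‖f - p • ee (-(k : ℤ)) - q • ee k‖ ≤ K₁ / k) (hp : ‖p‖ ≤ K₁) (hq : ‖q‖ ≤ K₁) :
    ‖W.symm f - p • ee (-(k : ℤ)) - q • ee k‖ ≤ (2 * K₁ + 4 * K₁ * |K|) / k := by
  have hk0 : (0 : ℝ) < k := by
    have : 0 < k := by omega
    exact_mod_cast this
  have h1 : W.symm f - p • ee (-(k : ℤ)) - q • ee k =
      W.symm (f - p • ee (-(k : ℤ)) - q • ee k) + p • (W.symm (ee (-(k : ℤ))) - ee (-(k : ℤ))) +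
        q • (W.symm (ee (k : ℤ)) - ee (k : ℤ)) := by
    rw [map_sub, map_sub, map_smul, map_smul, smul_sub, smul_sub]
    abel
  have h2 := hB.hWs (f - p • ee (-(k : ℤ)) - q • ee k)
  have h3 := p_G2_near P Q K N W Y hB (-(k : ℤ)) (by simpa using hk)
  have h4 := p_G2_near P Q K N W Y hB (k : ℤ) (by simpa using hk)
  have h5 : |((-(k : ℤ) : ℤ) : ℝ)| = k := by
    push_cast
    rw [abs_neg, abs_of_pos hk0]
  have h6 : |((k : ℤ) : ℝ)| = k := by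
    push_cast
    rw [abs_of_pos hk0]
  rw [h5] at h3
  rw [h6] at h4
  have hKk : 0 ≤ |K| / (k : ℝ) := by positivity
  have h7 : ‖p • (W.symm (ee (-(k : ℤ))) - ee (-(k : ℤ)))‖ ≤ K₁ * (2 * (|K| / k)) := by
    rw [norm_smul]
    exact mul_le_mul hp h3 (norm_nonneg _) ((norm_nonneg _).trans hp)
  have h8 : ‖q • (W.symm (ee (k : ℤ)) - ee (k : ℤ))‖ ≤ K₁ * (2 * (|K| / k)) := by
    rw [norm_smul]
    exact mul_le_mul hq h4 (norm_nonneg _) ((norm_nonneg _).trans hq)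
  rw [h1]
  calc _ ≤ ‖W.symm (f - p • ee (-(k : ℤ)) - q • ee k)‖ +
        ‖p • (W.symm (ee (-(k : ℤ))) - ee (-(k : ℤ)))‖ +
        ‖q • (W.symm (ee (k : ℤ)) - ee (k : ℤ))‖ := norm_add₃_le
    _ ≤ 2 * (K₁ / k) + K₁ * (2 * (|K| / k)) + K₁ * (2 * (|K| / k)) := by
        gcongr
        exact h2.trans (by linarith)
    _ = (2 * K₁ + 4 * K₁ * |K|) / k := by
        field_simp
        ring

private theorem p_G2_cc (k : ℕ) (hk : 0 < k) (x : Hs) (p q : ℂ) (d : ℝ)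
    (h : ‖x - p • ee (-(k : ℤ)) - q • ee k‖ ≤ d) :
    ‖(x : ℤ → ℂ) (-(k : ℤ)) - p‖ ≤ d ∧ ‖(x : ℤ → ℂ) k - q‖ ≤ d := by
  have hne : (-(k : ℤ)) ≠ (k : ℤ) := by omega
  have h1 : ∀ i : ℤ, ‖(x : ℤ → ℂ) i - p * (ee (-(k : ℤ)) : ℤ → ℂ) i - q * (ee (k : ℤ) : ℤ → ℂ) i‖ ≤ d := by
    intro i
    have h2 := (p_G2_coord (x - p • ee (-(k : ℤ)) - q • ee k) i).trans h
    have h3 : ((x - p • ee (-(k : ℤ)) - q • ee k : Hs) : ℤ → ℂ) i =
        (x : ℤ → ℂ) i - p * (ee (-(k : ℤ)) : ℤ → ℂ) i - q * (ee (k : ℤ) : ℤ → ℂ) i := by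
      rw [← p_G2_ev_apply, map_sub, map_sub, map_smul, map_smul]
      rfl
    rwa [h3] at h2
  constructor
  · have h2 := h1 (-(k : ℤ))
    rw [p_G2_ee_self, p_G2_ee_ne _ _ hne, mul_one, mul_zero, sub_zero] at h2
    exact h2
  · have h2 := h1 (k : ℤ)
    rw [p_G2_ee_self, p_G2_ee_ne _ _ hne.symm, mul_one, mul_zero, sub_zero] at h2
    exact h2

private theorem p_G2_det (K₁ d : ℝ) (hK : 0 < K₁) (hd1 : d ≤ 1) (hd2 : d ≤ K₁)
    (hd3 : (4 * K₁ + 2) * d ≤ 1 / (2 * K₁)) (p q p' q' x y x' y' : ℂ)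
    (hp : ‖p‖ ≤ K₁) (hq : ‖q‖ ≤ K₁) (hp' : ‖p'‖ ≤ K₁) (hq' : ‖q'‖ ≤ K₁)
    (hx : ‖x - p‖ ≤ d) (hy : ‖y - q‖ ≤ d) (hx' : ‖x' - p'‖ ≤ d) (hy' : ‖y' - q'‖ ≤ d)
    (hdet : 1 / K₁ ≤ ‖p * q' - p' * q‖) :
    ‖x‖ ≤ 2 * K₁ ∧ ‖y‖ ≤ 2 * K₁ ∧ ‖x'‖ ≤ 2 * K₁ ∧ ‖y'‖ ≤ 2 * K₁ ∧
      1 / (2 * K₁) ≤ ‖x * y' - x' * y‖ := by
  have hd0 : 0 ≤ d := (norm_nonneg _).trans hx
  have key : ∀ u v : ℂ, ‖v‖ ≤ K₁ → ‖u - v‖ ≤ d → ‖u‖ ≤ 2 * K₁ := by
    intro u v hv huv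
    have h1 : ‖u‖ ≤ ‖u - v‖ + ‖v‖ := by
      have := norm_add_le (u - v) v
      rwa [sub_add_cancel] at this
    linarith
  refine ⟨key x p hp hx, key y q hq hy, key x' p' hp' hx', key y' q' hq' hy', ?_⟩
  have h1 : p * q' - p' * q = (x * y' - x' * y) - (p * (y' - q') + (x - p) * q' +
      (x - p) * (y' - q') - (p' * (y - q) + (x' - p') * q + (x' - p') * (y - q))) := by ring
  have h2 : ‖p * q' - p' * q‖ ≤ ‖x * y' - x' * y‖ + (4 * K₁ + 2) * d := by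
    rw [h1]
    refine (norm_sub_le _ _).trans ?_
    gcongr
    refine (norm_sub_le _ _).trans ?_
    have e1 : ‖p * (y' - q') + (x - p) * q' + (x - p) * (y' - q')‖ ≤ K₁ * d + d * K₁ + d * d := by
      refine norm_add₃_le.trans ?_
      rw [norm_mul, norm_mul, norm_mul]
      gcongr
    have e2 : ‖p' * (y - q) + (x' - p') * q + (x' - p') * (y - q)‖ ≤ K₁ * d + d * K₁ + d * d := by
      refine norm_add₃_le.trans ?_
      rw [norm_mul, norm_mul, norm_mul]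
      gcongr
    nlinarith
  have h3 : 1 / K₁ = 1 / (2 * K₁) + 1 / (2 * K₁) := by
    field_simp
    ring
  linarith

private theorem p_G2_loc (ν K₁ : ℝ) (k : ℕ) (hk : 2 * ν + K₁ < 4 * k) (hk1 : 1 ≤ k) (i : ℤ) (a : ℂ)
    (h1 : ‖4 * (i : ℂ) ^ 2 - a‖ ≤ 2 * ν) (h2 : ‖a - 4 * (k : ℂ) ^ 2‖ ≤ K₁) : i.natAbs = k := by
  by_contra hne
  have h3 : ‖4 * (i : ℂ) ^ 2 - 4 * (k : ℂ) ^ 2‖ ≤ 2 * ν + K₁ := by
    have := norm_add_le (4 * (i : ℂ) ^ 2 - a) (a - 4 * (k : ℂ) ^ 2)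
    rw [sub_add_sub_cancel] at this
    linarith
  have h4 : 4 * (i : ℂ) ^ 2 - 4 * (k : ℂ) ^ 2 = ((4 * (i ^ 2 - (k : ℤ) ^ 2) : ℤ) : ℂ) := by
    push_cast
    ring
  rw [h4, Complex.norm_intCast] at h3
  have h5 : (k : ℤ) ≤ |i ^ 2 - (k : ℤ) ^ 2| := by
    have h6 : i ^ 2 = ((i.natAbs : ℤ)) ^ 2 := by
      rw [Int.natCast_natAbs, sq_abs]
    rw [h6]
    rcases Nat.lt_or_gt_of_ne hne with h | h
    · have h7 : (i.natAbs : ℤ) + 1 ≤ k := by exact_mod_cast h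
      have h8 : (0 : ℤ) ≤ i.natAbs := by positivity
      rw [abs_of_nonpos (by nlinarith)]
      nlinarith
    · have h7 : (k : ℤ) + 1 ≤ i.natAbs := by exact_mod_cast h
      have h8 : (0 : ℤ) ≤ k := by positivity
      rw [abs_of_nonneg (by nlinarith)]
      nlinarith
  have h6 : ((k : ℤ) : ℝ) ≤ ((|i ^ 2 - (k : ℤ) ^ 2| : ℤ) : ℝ) := by exact_mod_cast h5
  have h7 : |((4 * (i ^ 2 - (k : ℤ) ^ 2) : ℤ) : ℝ)| = 4 * ((|i ^ 2 - (k : ℤ) ^ 2| : ℤ) : ℝ) := by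
    push_cast
    rw [abs_mul, abs_of_pos (by norm_num : (0 : ℝ) < 4)]
  rw [h7] at h3
  push_cast at h3 h6
  linarith

private theorem p_G2_blk_eq (N k : ℕ) (hk : N < k) (i : ℤ) : blk N i = k ↔ i = k ∨ i = -(k : ℤ) := by
  constructor
  · intro h
    have h1 : N < i.natAbs := by
      by_contra h2
      have := (p_G2_blk0 N i).2 (by omega)
      omega
    rw [p_G2_blk1 N i h1] at h
    omega
  · intro h
    have h1 : i.natAbs = k := by omega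
    rw [p_G2_blk1 N i (by omega), h1]

private theorem p_G2_pair (P Q : ℂ[X]) (K : ℝ) (N : ℕ) (W : Hs ≃L[ℂ] Hs) (Y : Hs →L[ℂ] Hs)
    (hB : BD P Q K N W Y)
    (h5 : ∀ (μ : ℂ) (x : Hs), x ∈ seqRoot P Q μ → x ≠ 0 →
      ∃ i : ℤ, ‖4 * (i : ℂ) ^ 2 - μ‖ ≤ 2 * nu P Q ∧ ∀ j : ℤ, blk N j ≠ blk N i → W.symm x j = 0)
    (K₁ : ℝ) (hK₁ : 0 < K₁) (hN1 : 2 * nu P Q + K₁ ≤ N)
    (hN2 : 2 * K₁ + 4 * K₁ * |K| ≤ N) (hN3 : (2 * K₁ + 4 * K₁ * |K|) / K₁ ≤ N)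
    (hN4 : (2 * K₁ + 4 * K₁ * |K|) * ((4 * K₁ + 2) * (2 * K₁)) ≤ N)
    (k : ℕ) (hk : N < k) (f g : Hs) (a b p q p' q' : ℂ) (hf : f ∈ seqRoot P Q a)
    (hg : g ∈ seqRoot P Q b) (ha : ‖a - 4 * (k : ℂ) ^ 2‖ ≤ K₁) (hb : ‖b - 4 * (k : ℂ) ^ 2‖ ≤ K₁)
    (hfd : ‖f - p • ee (-(k : ℤ)) - q • ee k‖ ≤ K₁ / k)
    (hgd : ‖g - p' • ee (-(k : ℤ)) - q' • ee k‖ ≤ K₁ / k)
    (hp : ‖p‖ ≤ K₁) (hq : ‖q‖ ≤ K₁) (hp' : ‖p'‖ ≤ K₁) (hq' : ‖q'‖ ≤ K₁)
    (hdet : 1 / K₁ ≤ ‖p * q' - p' * q‖) :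
    (∀ i, blk N i ≠ k → (W.symm f : ℤ → ℂ) i = 0) ∧
    (∀ i, blk N i ≠ k → (W.symm g : ℤ → ℂ) i = 0) ∧
    (∀ i, ‖(W.symm f : ℤ → ℂ) i‖ ≤ 2 * K₁) ∧ (∀ i, ‖(W.symm g : ℤ → ℂ) i‖ ≤ 2 * K₁) ∧
    1 / (2 * K₁) ≤ ‖(W.symm f : ℤ → ℂ) (-(k : ℤ)) * (W.symm g : ℤ → ℂ) k -
      (W.symm g : ℤ → ℂ) (-(k : ℤ)) * (W.symm f : ℤ → ℂ) k‖ := by
  have hkN : (N : ℝ) < k := by exact_mod_cast hk
  have hk1 : 1 ≤ k := by omega
  have hk0 : (0 : ℝ) < k := by exact_mod_cast hk1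
  have hloc : 2 * nu P Q + K₁ < 4 * k := by linarith
  have hsupp : ∀ (x : Hs) (c : ℂ), x ∈ seqRoot P Q c → ‖c - 4 * (k : ℂ) ^ 2‖ ≤ K₁ →
      ∀ i, blk N i ≠ k → (W.symm x : ℤ → ℂ) i = 0 := by
    intro x c hx hc i hi
    by_cases hx0 : x = 0
    · rw [hx0, map_zero]
      rfl
    · obtain ⟨j, hj1, hj2⟩ := h5 c x hx hx0
      have h1 := p_G2_loc (nu P Q) K₁ k hloc hk1 j c hj1 hc
      refine hj2 i ?_
      rw [p_G2_blk1 N j (by omega), h1]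
      exact hi
  set D : ℝ := 2 * K₁ + 4 * K₁ * |K| with hD
  have hD0 : 0 < D := by
    have := abs_nonneg K
    positivity
  have hd1 : D / k ≤ 1 := by
    rw [div_le_one hk0]
    linarith
  have hd2 : D / k ≤ K₁ := by
    rw [div_le_iff₀ hk0]
    rw [div_le_iff₀ hK₁] at hN3
    nlinarith
  have hd3 : (4 * K₁ + 2) * (D / k) ≤ 1 / (2 * K₁) := by
    rw [le_div_iff₀ (by positivity), mul_assoc, div_mul_eq_mul_div, ← mul_div_assoc,
      div_le_one hk0]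
    nlinarith
  obtain ⟨hx, hy⟩ := p_G2_cc k hk1 _ p q _
    (p_G2_dist P Q K N W Y hB K₁ k hk f p q hfd hp hq)
  obtain ⟨hx', hy'⟩ := p_G2_cc k hk1 _ p' q' _
    (p_G2_dist P Q K N W Y hB K₁ k hk g p' q' hgd hp' hq')
  obtain ⟨b1, b2, b3, b4, b5⟩ := p_G2_det K₁ (D / k) hK₁ hd1 hd2 hd3 p q p' q' _ _ _ _
    hp hq hp' hq' hx hy hx' hy' hdet
  refine ⟨hsupp f a hf ha, hsupp g b hg hb, ?_, ?_, b5⟩
  · intro i
    by_cases hi : blk N i = k
    · rcases (p_G2_blk_eq N k hk i).1 hi with rfl | rfl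
      · exact b2
      · exact b1
    · rw [hsupp f a hf ha i hi, norm_zero]
      positivity
  · intro i
    by_cases hi : blk N i = k
    · rcases (p_G2_blk_eq N k hk i).1 hi with rfl | rfl
      · exact b4
      · exact b3
    · rw [hsupp g b hg hb i hi, norm_zero]
      positivity

private theorem p_G2_li (U : Hs ≃L[ℂ] Hs) : LinearIndependent ℂ (fun j : ℤ => U (ee j)) := by
  have h : LinearIndependent ℂ (fun j : ℤ => ee j) := by
    rw [linearIndependent_iff']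
    intro s g hg i hi
    have h1 := congrArg (p_G2_ev i) hg
    rw [map_sum, map_zero, Finset.sum_eq_single i] at h1
    · rw [map_smul, p_G2_ev_apply, p_G2_ee_self, smul_eq_mul, mul_one] at h1
      exact h1
    · intro j _ hj
      rw [map_smul, p_G2_ev_apply, p_G2_ee_ne _ _ (Ne.symm hj), smul_zero]
    · intro h2
      exact absurd hi h2
  exact h.map' (U.toLinearEquiv : Hs →ₗ[ℂ] Hs) (LinearEquiv.ker _)

private theorem p_G2_fsum (N m : ℕ) (S : Hs ≃L[ℂ] Hs) (u : ℤ → Hs) (hS : ∀ j, S (ee j) = u j)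
    (hu : ∀ i j : ℤ, blk N i ≠ blk N j → (u j : ℤ → ℂ) i = 0) (y : Hs)
    (hy : ∀ i : ℤ, blk N i ≠ m → (y : ℤ → ℂ) i = 0) :
    y = ∑ j ∈ (p_G2_fin N m).toFinset, (S.symm y : ℤ → ℂ) j • u j := by
  have h1 : HasSum (fun j : ℤ => (S.symm y : ℤ → ℂ) j • u j) y := by
    have h2 := (p_G2_hasSum (S.symm y)).mapL (S : Hs →L[ℂ] Hs)
    have h3 : (fun j : ℤ => (S : Hs →L[ℂ] Hs) ((S.symm y : ℤ → ℂ) j • ee j)) =
        fun j : ℤ => (S.symm y : ℤ → ℂ) j • u j := by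
      funext j
      rw [map_smul]
      congr 1
      exact hS j
    rw [h3] at h2
    have h4 : (S : Hs →L[ℂ] Hs) (S.symm y) = y := S.apply_symm_apply y
    rwa [h4] at h2
  apply lp.ext
  funext i
  have h5 := h1.mapL (p_G2_ev i)
  have h6 : ((∑ j ∈ (p_G2_fin N m).toFinset, (S.symm y : ℤ → ℂ) j • u j : Hs) : ℤ → ℂ) i =
      ∑ j ∈ (p_G2_fin N m).toFinset, (S.symm y : ℤ → ℂ) j * (u j : ℤ → ℂ) i := by
    rw [← p_G2_ev_apply, map_sum]
    refine Finset.sum_congr rfl ?_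
    intro j _
    rw [map_smul, smul_eq_mul, p_G2_ev_apply]
  rw [h6]
  by_cases hi : blk N i = m
  · have h7 : HasSum (fun j : ℤ => (p_G2_ev i) ((S.symm y : ℤ → ℂ) j • u j))
        (∑ j ∈ (p_G2_fin N m).toFinset, (p_G2_ev i) ((S.symm y : ℤ → ℂ) j • u j)) := by
      refine hasSum_sum_of_ne_finset_zero ?_
      intro j hj
      have h8 : blk N j ≠ m := by
        intro h9
        exact hj ((Set.Finite.mem_toFinset _).2 h9)
      rw [map_smul, p_G2_ev_apply, hu i j (by rw [hi]; exact h8.symm), smul_zero]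
    have h8 := h5.unique h7
    rw [p_G2_ev_apply] at h8
    rw [h8]
    refine Finset.sum_congr rfl ?_
    intro j _
    rw [map_smul, smul_eq_mul, p_G2_ev_apply]
  · rw [hy i hi]
    symm
    refine Finset.sum_eq_zero ?_
    intro j hj
    have h9 : blk N j = m := (Set.Finite.mem_toFinset (p_G2_fin N m)).1 hj
    rw [hu i j (by rw [h9]; exact hi), mul_zero]

private theorem p_G2_core (hS1 : S_S1) (P Q : ℂ[X]) (N : ℕ) (W S : Hs ≃L[ℂ] Hs)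
    (h5 : ∀ (μ : ℂ) (x : Hs), x ∈ seqRoot P Q μ → x ≠ 0 →
      ∃ i : ℤ, ‖4 * (i : ℂ) ^ 2 - μ‖ ≤ 2 * nu P Q ∧ ∀ j : ℤ, blk N j ≠ blk N i → W.symm x j = 0)
    (h7a : ∀ μ : ℂ, ∃ S : Submodule ℂ Hs, (S : Set Hs) = seqRoot P Q μ)
    (h7b : ∀ (s : Finset ℂ) (x : ℂ → Hs), (∀ a ∈ s, x a ∈ seqRoot P Q a) → ∑ a ∈ s, x a = 0 →
      ∀ a ∈ s, x a = 0)
    (u : ℤ → Hs) (evz : ℤ → ℂ) (hS : ∀ j, S (ee j) = u j)
    (hu : ∀ i j : ℤ, blk N i ≠ blk N j → (u j : ℤ → ℂ) i = 0)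
    (hev : ∀ j, W (u j) ∈ seqRoot P Q (evz j)) : SeqBasis P Q := by
  set σ : ℕ ≃ ℤ := Equiv.intEquivNat.symm with hσ
  refine ⟨fun n => (S.trans W) (ee (σ n)), fun n => evz (σ n), ?_, ?_, hS1 (S.trans W) σ⟩
  · intro μ
    exact (p_G2_li (S.trans W)).comp (fun n : {n : ℕ // evz (σ n) = μ} => σ n)
      (fun a b hab => Subtype.ext (σ.injective hab))
  · intro μ
    obtain ⟨R, hR⟩ := h7a μ
    have hU : ∀ j, (S.trans W) (ee j) = W (u j) := by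
      intro j
      rw [← hS j]
      rfl
    apply Set.Subset.antisymm
    · rw [← hR]
      have : Submodule.span ℂ ((fun n => (S.trans W) (ee (σ n))) '' {n | evz (σ n) = μ}) ≤ R := by
        rw [Submodule.span_le]
        rintro _ ⟨n, hn, rfl⟩
        rw [hR]
        have h1 := hev (σ n)
        rw [Set.mem_ofPred_eq] at hn
        rw [hn] at h1
        show (S.trans W) (ee (σ n)) ∈ _
        rw [hU]
        exact h1
      exact this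
    · intro x hx
      by_cases hx0 : x = 0
      · rw [hx0]
        exact Submodule.zero_mem _
      obtain ⟨i, _, hi⟩ := h5 μ x hx hx0
      set m := blk N i with hm
      have h1 := p_G2_fsum N m S u hS hu (W.symm x) hi
      set z : ℤ → ℂ := (S.symm (W.symm x) : ℤ → ℂ) with hz
      set bm := (p_G2_fin N m).toFinset with hbm
      have h2 : x = ∑ j ∈ bm, z j • W (u j) := by
        have h3 := congrArg W h1
        rw [W.apply_symm_apply, map_sum] at h3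
        rw [h3]
        refine Finset.sum_congr rfl ?_
        intro j _
        rw [map_smul]
      classical
      set T : Finset ℂ := insert μ (bm.image evz) with hT
      set xx : ℂ → Hs := fun a => (∑ j ∈ bm.filter (fun j => evz j = a), z j • W (u j)) -
        (if a = μ then x else 0) with hxx
      have h3 : ∀ a ∈ T, xx a ∈ seqRoot P Q a := by
        intro a _
        obtain ⟨R', hR'⟩ := h7a a
        rw [← hR']
        refine R'.sub_mem ?_ ?_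
        · refine R'.sum_mem ?_
          intro j hj
          refine R'.smul_mem _ ?_
          have h4 := hev j
          rw [(Finset.mem_filter.1 hj).2, ← hR'] at h4
          exact h4
        · split_ifs with h
          · have h6 : x ∈ (R' : Set Hs) := by
              rw [hR', h]
              exact hx
            exact h6
          · exact R'.zero_mem
      have h4 : ∑ a ∈ T, xx a = 0 := by
        rw [hxx, Finset.sum_sub_distrib, Finset.sum_fiberwise_of_maps_to, ← h2,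
          Finset.sum_ite_eq', if_pos (Finset.mem_insert_self _ _), sub_self]
        intro j hj
        exact Finset.mem_insert_of_mem (Finset.mem_image_of_mem _ hj)
      have h6 := h7b T xx h3 h4 μ (Finset.mem_insert_self _ _)
      rw [hxx] at h6
      simp only [if_true] at h6
      rw [sub_eq_zero] at h6
      rw [← h6]
      refine Submodule.sum_mem _ ?_
      intro j hj
      refine Submodule.smul_mem _ _ ?_
      refine Submodule.subset_span ⟨σ.symm j, ?_, ?_⟩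
      · show evz (σ (σ.symm j)) = μ
        rw [Equiv.apply_symm_apply]
        exact (Finset.mem_filter.1 hj).2
      · show (S.trans W) (ee (σ (σ.symm j))) = W (u j)
        rw [Equiv.apply_symm_apply, hU]

private theorem p_G2_span (N : ℕ) (W : Hs ≃L[ℂ] Hs) (m : ℕ) (x : Hs)
    (hx : x ∈ Submodule.span ℂ (Set.range fun i : {i : ℤ // blk N i = m} => W (ee i)))
    (i : ℤ) (hi : blk N i ≠ m) : (W.symm x : ℤ → ℂ) i = 0 := by
  have h : x ∈ LinearMap.ker (((p_G2_ev i).comp (W.symm : Hs →L[ℂ] Hs) : Hs →L[ℂ] ℂ) : Hs →ₗ[ℂ] ℂ) := by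
    have h2 : Submodule.span ℂ (Set.range fun i : {i : ℤ // blk N i = m} => W (ee i)) ≤
        LinearMap.ker (((p_G2_ev i).comp (W.symm : Hs →L[ℂ] Hs) : Hs →L[ℂ] ℂ) : Hs →ₗ[ℂ] ℂ) := by
      rw [Submodule.span_le]
      rintro _ ⟨j, rfl⟩
      show p_G2_ev i (W.symm (W (ee j))) = 0
      rw [W.symm_apply_apply, p_G2_ev_apply, p_G2_ee_ne]
      intro h3
      rw [h3] at hi
      exact hi j.2
    exact h2 hx
  exact h

theorem p_G2 (hS1 : S_S1) (hB3 : S_B3) (hB5 : S_B5) (hB6 : S_B6) (hB7 : S_B7) (hG1 : S_G1) :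
    S_G2 := by
  intro P Q hGP
  obtain ⟨k₀, K₁, hK₁, hpair⟩ := hGP
  obtain ⟨K, N₀, hB⟩ := hB3 P Q
  obtain ⟨N₁, h5⟩ := hB5 P Q
  obtain ⟨h7a, h7b⟩ := hB7 P Q
  obtain ⟨M₁, hM₁⟩ := exists_nat_ge (2 * nu P Q + K₁)
  obtain ⟨M₂, hM₂⟩ := exists_nat_ge (2 * K₁ + 4 * K₁ * |K|)
  obtain ⟨M₃, hM₃⟩ := exists_nat_ge ((2 * K₁ + 4 * K₁ * |K|) / K₁)
  obtain ⟨M₄, hM₄⟩ := exists_nat_ge ((2 * K₁ + 4 * K₁ * |K|) * ((4 * K₁ + 2) * (2 * K₁)))
  set N : ℕ := k₀ + N₀ + N₁ + M₁ + M₂ + M₃ + M₄ with hN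
  have hc : ∀ M : ℕ, M ≤ N → (M : ℝ) ≤ N := fun M h => by exact_mod_cast h
  have hN1 : 2 * nu P Q + K₁ ≤ N := hM₁.trans (hc _ (by omega))
  have hN2 : 2 * K₁ + 4 * K₁ * |K| ≤ N := hM₂.trans (hc _ (by omega))
  have hN3 : (2 * K₁ + 4 * K₁ * |K|) / K₁ ≤ N := hM₃.trans (hc _ (by omega))
  have hN4 : (2 * K₁ + 4 * K₁ * |K|) * ((4 * K₁ + 2) * (2 * K₁)) ≤ N :=
    hM₄.trans (hc _ (by omega))
  obtain ⟨W, Y, hBD⟩ := hB N (by omega)
  have h5' := h5 K N (by omega) W Y hBD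
  have hex : ∀ k : ℕ, ∃ (f g : Hs) (a b : ℂ), N < k → f ∈ seqRoot P Q a ∧ g ∈ seqRoot P Q b ∧
      (∀ i, blk N i ≠ k → (W.symm f : ℤ → ℂ) i = 0) ∧
      (∀ i, blk N i ≠ k → (W.symm g : ℤ → ℂ) i = 0) ∧
      (∀ i, ‖(W.symm f : ℤ → ℂ) i‖ ≤ 2 * K₁) ∧ (∀ i, ‖(W.symm g : ℤ → ℂ) i‖ ≤ 2 * K₁) ∧
      1 / (2 * K₁) ≤ ‖(W.symm f : ℤ → ℂ) (-(k : ℤ)) * (W.symm g : ℤ → ℂ) k -
        (W.symm g : ℤ → ℂ) (-(k : ℤ)) * (W.symm f : ℤ → ℂ) k‖ := by
    intro k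
    by_cases hk : N < k
    · obtain ⟨f, g, a, b, p, q, p', q', hf, hg, ha, hb, hfd, hgd, hp, hq, hp', hq', hdet⟩ :=
        hpair k (by omega) (by omega)
      exact ⟨f, g, a, b, fun _ => ⟨hf, hg, p_G2_pair P Q K N W Y hBD h5' K₁ hK₁ hN1 hN2 hN3 hN4 k hk
        f g a b p q p' q' hf hg ha hb hfd hgd hp hq hp' hq' hdet⟩⟩
    · exact ⟨0, 0, 0, 0, fun h => absurd h hk⟩
  choose f g a b hfg using hex
  obtain ⟨ψ, ev₀, hψ, hli, hsp⟩ := hB6 P Q K N W Y hBD 0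
  set u : ℤ → Hs := fun j => if h : blk N j = 0 then W.symm (ψ ⟨j, h⟩) else
    if j < 0 then W.symm (f j.natAbs) else W.symm (g j.natAbs) with hu
  set evz : ℤ → ℂ := fun j => if h : blk N j = 0 then ev₀ ⟨j, h⟩ else
    if j < 0 then a j.natAbs else b j.natAbs with hevz
  have hnat : ∀ j : ℤ, blk N j ≠ 0 → N < j.natAbs := by
    intro j hj
    by_contra h
    exact hj ((p_G2_blk0 N j).2 (by omega))
  have hu0 : ∀ (j : ℤ) (h : blk N j = 0), u j = W.symm (ψ ⟨j, h⟩) := fun j h => dif_pos h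
  have hu1 : ∀ (j : ℤ) (h : blk N j ≠ 0), j < 0 → u j = W.symm (f j.natAbs) := by
    intro j h hj
    rw [hu]
    show (if h : blk N j = 0 then W.symm (ψ ⟨j, h⟩) else
      if j < 0 then W.symm (f j.natAbs) else W.symm (g j.natAbs)) = _
    rw [dif_neg h, if_pos hj]
  have hu2 : ∀ (j : ℤ) (h : blk N j ≠ 0), ¬ j < 0 → u j = W.symm (g j.natAbs) := by
    intro j h hj
    show (if h : blk N j = 0 then W.symm (ψ ⟨j, h⟩) else
      if j < 0 then W.symm (f j.natAbs) else W.symm (g j.natAbs)) = _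
    rw [dif_neg h, if_neg hj]
  have hblk : ∀ i j : ℤ, blk N i ≠ blk N j → (u j : ℤ → ℂ) i = 0 := by
    intro i j hij
    by_cases h : blk N j = 0
    · rw [hu0 j h]
      rw [h] at hij
      refine p_G2_span N W 0 _ ?_ i hij
      rw [← hsp]
      exact Submodule.subset_span ⟨_, rfl⟩
    · have h1 := hnat j h
      have h2 := hfg j.natAbs h1
      rw [p_G2_blk1 N j h1] at hij
      by_cases h3 : j < 0
      · rw [hu1 j h h3]
        exact h2.2.2.1 i hij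
      · rw [hu2 j h h3]
        exact h2.2.2.2.1 i hij
  have hbd : ∀ i j : ℤ, N < j.natAbs → ‖(u j : ℤ → ℂ) i‖ ≤ 2 * K₁ := by
    intro i j hj
    have h : blk N j ≠ 0 := by
      rw [p_G2_blk1 N j hj]
      omega
    have h2 := hfg j.natAbs hj
    by_cases h3 : j < 0
    · rw [hu1 j h h3]
      exact h2.2.2.2.2.1 i
    · rw [hu2 j h h3]
      exact h2.2.2.2.2.2.1 i
  have hdet : ∀ k : ℕ, N < k → 1 / (2 * K₁) ≤
      ‖(u (-(k : ℤ)) : ℤ → ℂ) (-(k : ℤ)) * (u k : ℤ → ℂ) k -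
        (u k : ℤ → ℂ) (-(k : ℤ)) * (u (-(k : ℤ)) : ℤ → ℂ) k‖ := by
    intro k hk
    have h1 : blk N (-(k : ℤ)) ≠ 0 := by
      rw [p_G2_blk1 N _ (by simpa using hk)]
      omega
    have h2 : blk N (k : ℤ) ≠ 0 := by
      rw [p_G2_blk1 N _ (by simpa using hk)]
      omega
    rw [hu1 _ h1 (by omega), hu2 _ h2 (by omega)]
    have h3 : (-(k : ℤ)).natAbs = k := by omega
    have h4 : ((k : ℤ)).natAbs = k := by omega
    rw [h3, h4]
    exact (hfg k hk).2.2.2.2.2.2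
  have hli2 : LinearIndependent ℂ (fun i : {i : ℤ // blk N i = 0} => u i) := by
    have h1 : (fun i : {i : ℤ // blk N i = 0} => u i) =
        ((W.symm.toLinearEquiv : Hs ≃ₗ[ℂ] Hs) : Hs →ₗ[ℂ] Hs) ∘ ψ := by
      funext i
      exact hu0 i.1 i.2
    rw [h1]
    exact hli.map' _ (LinearEquiv.ker _)
  obtain ⟨S, hS⟩ := hG1 N (2 * K₁) u (by positivity) hblk hli2 hbd hdet
  refine p_G2_core hS1 P Q N W S h5' h7a h7b u evz hS hblk ?_
  intro j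
  by_cases h : blk N j = 0
  · rw [hu0 j h, W.apply_symm_apply]
    have h1 : evz j = ev₀ ⟨j, h⟩ := dif_pos h
    rw [h1]
    exact hψ _
  · have h1 := hfg j.natAbs (hnat j h)
    by_cases h3 : j < 0
    · rw [hu1 j h h3, W.apply_symm_apply]
      have h4 : evz j = a j.natAbs := by
        show (if h : blk N j = 0 then ev₀ ⟨j, h⟩ else
          if j < 0 then a j.natAbs else b j.natAbs) = _
        rw [dif_neg h, if_pos h3]
      rw [h4]
      exact h1.1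
    · rw [hu2 j h h3, W.apply_symm_apply]
      have h4 : evz j = b j.natAbs := by
        show (if h : blk N j = 0 then ev₀ ⟨j, h⟩ else
          if j < 0 then a j.natAbs else b j.natAbs) = _
        rw [dif_neg h, if_neg h3]
      rw [h4]
      exact h1.2.1

end HillRoots
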