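import Pool.Agent.Lib.MP_e63cf8_mp.StmA

/-!
# MP_e63cf8_mp, piece G3: bad pairs exclude a basis
-/

set_option autoImplicit false

open Polynomial Filter Topology MeasureTheory Asymptotics
open scoped ContDiff

namespace HillRoots

private lemma p_G3_ext (k : ℕ) (X Z : Hs) (hX : ∀ s : ℤ, s.natAbs ≠ k → (X : ℤ → ℂ) s = 0)
    (hZ : ∀ s : ℤ, s.natAbs ≠ k → (Z : ℤ → ℂ) s = 0)
    (h1 : (X : ℤ → ℂ) k = (Z : ℤ → ℂ) k) (h2 : (X : ℤ → ℂ) (-(k : ℤ)) = (Z : ℤ → ℂ) (-(k : ℤ))) :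
    X = Z := by
  apply lp.ext
  funext s
  by_cases hs : s.natAbs = k
  · rcases Int.natAbs_eq_iff.1 hs with rfl | rfl
    · exact h1
    · exact h2
  · rw [hX s hs, hZ s hs]

private lemma p_G3_cramer (k : ℕ) (F G X : Hs)
    (hF : ∀ s : ℤ, s.natAbs ≠ k → (F : ℤ → ℂ) s = 0)
    (hG : ∀ s : ℤ, s.natAbs ≠ k → (G : ℤ → ℂ) s = 0)
    (hX : ∀ s : ℤ, s.natAbs ≠ k → (X : ℤ → ℂ) s = 0) (hF0 : F ≠ 0) :
    (∃ c : ℂ, X = c • F) ∨ ∃ α β : ℂ, G = α • F + β • X := by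
  have hsm : ∀ (c : ℂ) (U : Hs) (s : ℤ), ((c • U : Hs) : ℤ → ℂ) s = c * (U : ℤ → ℂ) s := by
    intro c U s
    simp [lp.coeFn_smul]
  have had : ∀ (U V : Hs) (s : ℤ),
      ((U + V : Hs) : ℤ → ℂ) s = (U : ℤ → ℂ) s + (V : ℤ → ℂ) s := by
    intro U V s
    simp
  set f1 := (F : ℤ → ℂ) k with hf1
  set f2 := (F : ℤ → ℂ) (-(k : ℤ)) with hf2
  set x1 := (X : ℤ → ℂ) k with hx1
  set x2 := (X : ℤ → ℂ) (-(k : ℤ)) with hx2
  set g1 := (G : ℤ → ℂ) k with hg1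
  set g2 := (G : ℤ → ℂ) (-(k : ℤ)) with hg2
  by_cases hd : f1 * x2 - f2 * x1 = 0
  · left
    by_cases h1 : f1 = 0
    · have h2 : f2 ≠ 0 := by
        intro h2
        apply hF0
        apply p_G3_ext k F 0 hF (fun s _ => by simp)
        · simp only [lp.coeFn_zero, Pi.zero_apply]
          exact h1
        · simp only [lp.coeFn_zero, Pi.zero_apply]
          exact h2
      refine ⟨x2 / f2, p_G3_ext k _ _ hX ?_ ?_ ?_⟩
      · intro s hs
        rw [hsm, hF s hs, mul_zero]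
      · rw [hsm, ← hf1, ← hx1, h1, mul_zero]
        rw [h1, zero_mul, zero_sub, neg_eq_zero] at hd
        exact (mul_eq_zero.1 hd).resolve_left h2
      · rw [hsm, ← hf2, ← hx2]
        field_simp
    · refine ⟨x1 / f1, p_G3_ext k _ _ hX ?_ ?_ ?_⟩
      · intro s hs
        rw [hsm, hF s hs, mul_zero]
      · rw [hsm, ← hf1, ← hx1]
        field_simp
      · rw [hsm, ← hf2, ← hx2]
        field_simp
        linear_combination hd
  · right
    refine ⟨(g1 * x2 - g2 * x1) / (f1 * x2 - f2 * x1), (f1 * g2 - f2 * g1) / (f1 * x2 - f2 * x1),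
      p_G3_ext k _ _ hG ?_ ?_ ?_⟩
    · intro s hs
      rw [had, hsm, hsm, hF s hs, hX s hs, mul_zero, mul_zero, add_zero]
    · rw [had, hsm, hsm, ← hf1, ← hx1, ← hg1, div_mul_eq_mul_div, div_mul_eq_mul_div, ← add_div,
        eq_div_iff hd]
      ring
    · rw [had, hsm, hsm, ← hf2, ← hx2, ← hg2, div_mul_eq_mul_div, div_mul_eq_mul_div, ← add_div,
        eq_div_iff hd]
      ring

/-- in a two dimensional invariant space with root vectors for two eigenvalues each root space is a line -/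
private lemma p_G3_line (hB7 : S_B7) (P Q : ℂ[X]) (W : Hs ≃L[ℂ] Hs) (k : ℕ) (a b : ℂ)
    (hab : a ≠ b) (f g : Hs) (hf : f ∈ seqRoot P Q a) (hg : g ∈ seqRoot P Q b) (hf0 : f ≠ 0)
    (hg0 : g ≠ 0)
    (ha : ∀ x ∈ seqRoot P Q a, ∀ s : ℤ, s.natAbs ≠ k → (W.symm x : ℤ → ℂ) s = 0)
    (hb : ∀ x ∈ seqRoot P Q b, ∀ s : ℤ, s.natAbs ≠ k → (W.symm x : ℤ → ℂ) s = 0)
    (x : Hs) (hx : x ∈ seqRoot P Q a) : ∃ c : ℂ, x = c • f := by
  have hF0 : W.symm f ≠ 0 := by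
    intro h
    exact hf0 ((map_eq_zero_iff W.symm W.symm.injective).1 h)
  rcases p_G3_cramer k (W.symm f) (W.symm g) (W.symm x) (ha f hf) (hb g hg) (ha x hx) hF0 with
    ⟨c, hc⟩ | ⟨α, β, hc⟩
  · refine ⟨c, W.symm.injective ?_⟩
    rw [hc, map_smul]
  · exfalso
    have hge : g = α • f + β • x := by
      apply W.symm.injective
      rw [hc, map_add, map_smul, map_smul]
    obtain ⟨S, hS⟩ := (hB7 P Q).1 a
    have hga : g ∈ seqRoot P Q a := by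
      rw [← hS] at hf hx ⊢
      rw [hge]
      exact S.add_mem (S.smul_mem _ hf) (S.smul_mem _ hx)
    obtain ⟨S', hS'⟩ := (hB7 P Q).1 b
    have hnb : -g ∈ seqRoot P Q b := by
      rw [← hS'] at hg ⊢
      exact S'.neg_mem hg
    have h := (hB7 P Q).2 {a, b} (fun μ => if μ = a then g else -g) (by
      intro μ hμ
      rw [Finset.mem_insert, Finset.mem_singleton] at hμ
      rcases hμ with rfl | rfl
      · simpa using hga
      · simpa [hab.symm] using hnb) (by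
      rw [Finset.sum_pair hab]
      simp [hab.symm]) a (Finset.mem_insert_self _ _)
    simp only [if_true] at h
    exact hg0 h

/-- location: `|i| = k` -/
private lemma p_G3_loc (i : ℤ) (k : ℕ) (a : ℂ) (C K : ℝ) (h1 : ‖4 * (i : ℂ) ^ 2 - a‖ ≤ C)
    (h2 : ‖a - 4 * (k : ℂ) ^ 2‖ ≤ K) (hk : C + K < k) : i.natAbs = k := by
  by_contra hne
  have h3 : ‖4 * (i : ℂ) ^ 2 - 4 * (k : ℂ) ^ 2‖ ≤ C + K := by
    calc ‖4 * (i : ℂ) ^ 2 - 4 * (k : ℂ) ^ 2‖ = ‖(4 * (i : ℂ) ^ 2 - a) + (a - 4 * (k : ℂ) ^ 2)‖ := by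
          congr 1; ring
      _ ≤ _ := (norm_add_le _ _).trans (add_le_add h1 h2)
  have h4 : (4 * (i : ℂ) ^ 2 - 4 * (k : ℂ) ^ 2) = ((4 * ((i.natAbs : ℤ) ^ 2 - (k : ℤ) ^ 2) : ℤ) : ℂ) := by
    rw [Int.natCast_natAbs, sq_abs]
    push_cast
    ring
  rw [h4, Complex.norm_intCast] at h3
  have h5 : (k : ℤ) ≤ |4 * ((i.natAbs : ℤ) ^ 2 - (k : ℤ) ^ 2)| := by
    rcases lt_or_gt_of_ne hne with h | h
    · have h6 : (i.natAbs : ℤ) + 1 ≤ k := by exact_mod_cast h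
      have h7 : (0 : ℤ) ≤ i.natAbs := by positivity
      rw [abs_of_neg]
      · nlinarith
      · nlinarith
    · have h6 : (k : ℤ) + 1 ≤ i.natAbs := by exact_mod_cast h
      have h7 : (0 : ℤ) ≤ k := by positivity
      rw [abs_of_pos]
      · nlinarith
      · nlinarith
  have h6 : (k : ℝ) ≤ |((4 * ((i.natAbs : ℤ) ^ 2 - (k : ℤ) ^ 2) : ℤ) : ℝ)| := by
    rw [← Int.cast_abs]
    exact_mod_cast h5
  linarith

theorem p_G3 (hS2 : S_S2) (hB3 : S_B3) (hB5 : S_B5) (hB7 : S_B7) : S_G3 := by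
  intro P Q hbad hbas
  obtain ⟨φ, ev, hli, hspan, hsch⟩ := hbas
  obtain ⟨K, hK0, hK⟩ := hS2 φ hsch
  obtain ⟨K₂, N₀, hN₀⟩ := hB3 P Q
  obtain ⟨N₁, hN₁⟩ := hB5 P Q
  obtain ⟨W, Y, hBD⟩ := hN₀ (max N₀ N₁) (le_max_left _ _)
  set N := max N₀ N₁ with hN
  have hloc := hN₁ K₂ N (le_max_right _ _) W Y hBD
  obtain ⟨K₁, hK₁⟩ := hbad
  -- the choice of ε
  obtain ⟨A, hA⟩ : ∃ A : ℝ, 0 < A ∧ (N : ℝ) + 1 ≤ A ∧ |2 * nu P Q + K₁| + 1 ≤ A ∧ 4 * K ≤ A ∧ 4 ≤ A := by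
    refine ⟨(N : ℝ) + 1 + (|2 * nu P Q + K₁| + 1) + 4 * K + 4, ?_, ?_, ?_, ?_, ?_⟩ <;>
    · have h1 : (0 : ℝ) ≤ N := by positivity
      have h2 := abs_nonneg (2 * nu P Q + K₁)
      linarith
  obtain ⟨hA0, hA1, hA2, hA3, hA4⟩ := hA
  obtain ⟨k, f, g, a, b, j, hk, hab, hak, hbk, hf, hg, hfj, hgj⟩ := hK₁ (1 / A) (by positivity)
  rw [one_div_one_div] at hk
  have hkN : N < k := by
    have : (N : ℝ) < k := by linarith
    exact_mod_cast this
  have hkC : 2 * nu P Q + K₁ < k := by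
    have := le_abs_self (2 * nu P Q + K₁)
    linarith
  have hee : ‖ee j‖ = 1 := by
    unfold ee
    rw [lp.norm_single (by norm_num)]
    simp
  have hε : 1 / A ≤ 1 / 4 := one_div_le_one_div_of_le (by norm_num) hA4
  have hfn : 3 / 4 ≤ ‖f‖ := by
    have h1 : ‖ee j‖ ≤ ‖f‖ + ‖f - ee j‖ := by
      calc ‖ee j‖ = ‖f - (f - ee j)‖ := by congr 1; abel
        _ ≤ _ := norm_sub_le _ _
    linarith
  have hgn : 3 / 4 ≤ ‖g‖ := by
    have h1 : ‖ee j‖ ≤ ‖g‖ + ‖g - ee j‖ := by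
      calc ‖ee j‖ = ‖g - (g - ee j)‖ := by congr 1; abel
        _ ≤ _ := norm_sub_le _ _
    linarith
  have hf0 : f ≠ 0 := by
    intro h
    rw [h, norm_zero] at hfn
    norm_num at hfn
  have hg0 : g ≠ 0 := by
    intro h
    rw [h, norm_zero] at hgn
    norm_num at hgn
  -- support
  have hsupp : ∀ c : ℂ, ‖c - 4 * (k : ℂ) ^ 2‖ ≤ K₁ → ∀ x ∈ seqRoot P Q c, ∀ s : ℤ, s.natAbs ≠ k →
      (W.symm x : ℤ → ℂ) s = 0 := by
    intro c hc x hx s hs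
    by_cases hx0 : x = 0
    · rw [hx0]; simp
    · obtain ⟨i, hi, hz⟩ := hloc c x hx hx0
      have hik := p_G3_loc i k c _ _ hi hc hkC
      apply hz
      unfold blk
      rw [hik, if_neg (not_le.2 hkN)]
      split_ifs with h
      · omega
      · exact hs
  have hline1 := p_G3_line hB7 P Q W k a b hab f g hf hg hf0 hg0 (hsupp a hak) (hsupp b hbk)
  have hline2 := p_G3_line hB7 P Q W k b a hab.symm g f hg hf hg0 hf0 (hsupp b hbk) (hsupp a hak)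
  -- members of the system
  have hex : ∀ (c : ℂ) (x : Hs), x ∈ seqRoot P Q c → x ≠ 0 →
      (∀ y ∈ seqRoot P Q c, ∃ t : ℂ, y = t • x) → ∃ (n : ℕ) (t : ℂ), ev n = c ∧ t ≠ 0 ∧ φ n = t • x := by
    intro c x hx hx0 hl
    have hne : ∃ n, ev n = c := by
      by_contra hno
      push Not at hno
      apply hx0
      have h1 : {n | ev n = c} = ∅ := by
        ext n
        simp [hno n]
      have h2 := hspan c
      rw [h1, Set.image_empty, Submodule.span_empty] at h2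
      rw [← h2] at hx
      simpa using hx
    obtain ⟨n, hn⟩ := hne
    have hmem : φ n ∈ seqRoot P Q c := by
      rw [← hspan c]
      exact Submodule.subset_span ⟨n, hn, rfl⟩
    obtain ⟨t, ht⟩ := hl _ hmem
    refine ⟨n, t, hn, ?_, ht⟩
    rintro rfl
    have h1 := (hli c).ne_zero ⟨n, hn⟩
    apply h1
    simpa using ht
  obtain ⟨n, t, hn, ht0, ht⟩ := hex a f hf hf0 hline1
  obtain ⟨n', t', hn', ht0', ht'⟩ := hex b g hg hg0 hline2
  have hnn : n ≠ n' := by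
    rintro rfl
    exact hab (hn.symm.trans hn')
  have h1 := hK n n' hnn (t / t')
  rw [ht, ht', smul_smul, div_mul_cancel₀ _ ht0', ← smul_sub, norm_smul, norm_smul] at h1
  have h2 : ‖f‖ ≤ K * ‖f - g‖ := by
    have h3 : 0 < ‖t‖ := norm_pos_iff.2 ht0
    have h4 : ‖t‖ * ‖f‖ ≤ ‖t‖ * (K * ‖f - g‖) := by linarith
    exact le_of_mul_le_mul_left h4 h3
  have h3 : ‖f - g‖ ≤ 2 * (1 / A) := by
    calc ‖f - g‖ = ‖(f - ee j) - (g - ee j)‖ := by congr 1; abel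
      _ ≤ _ := (norm_sub_le _ _).trans (by linarith)
  have h4 : K * ‖f - g‖ ≤ K * (2 * (1 / A)) := mul_le_mul_of_nonneg_left h3 hK0.le
  have h5 : K * (2 * (1 / A)) ≤ 1 / 2 := by
    rw [show K * (2 * (1 / A)) = (2 * K) / A by ring, div_le_iff₀ hA0]
    linarith
  linarith

end HillRoots
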