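import Pool.Agent.Lib.MP_e63cf8_mp.StmC

/-!
# MP_e63cf8_mp: piece H0
-/

open Polynomial Filter Topology MeasureTheory Asymptotics

namespace HillRoots

theorem p_H0 : S_H0 := by
  intro x θ hx h0 h1
  have hG := Real.Gamma_pos_of_pos hx
  have hxθ : 0 < x + θ := by linarith
  have hG' := Real.Gamma_pos_of_pos hxθ
  have hxi : 0 < 1 / x := by positivity
  rcases h0.eq_or_lt with h | h0'
  · subst h
    rw [neg_zero, Real.rpow_zero, add_zero, one_mul, one_mul]
    refine ⟨le_rfl, ?_⟩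
    nlinarith [mul_pos hxi hG]
  rcases h1.eq_or_lt with h | h1'
  · subst h
    rw [Real.Gamma_add_one hx.ne', Real.rpow_neg_one]
    have e : x⁻¹ * (x * Real.Gamma x) = Real.Gamma x := by
      rw [← mul_assoc, inv_mul_cancel₀ hx.ne', one_mul]
    refine ⟨e.le, ?_⟩
    have e2 : x⁻¹ * (1 + 1 / x) * (x * Real.Gamma x) = (1 + 1 / x) * Real.Gamma x := by
      rw [← e]
      ring_nf
      rw [mul_inv_cancel₀ hx.ne']
      ring_nf
      field_simp
      ring
    rw [e2]
    nlinarith [mul_pos hxi hG]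
  have hθ' : 0 < 1 - θ := by linarith
  constructor
  · have h2 := Real.Gamma_mul_add_mul_le_rpow_Gamma_mul_rpow_Gamma hx
      (by linarith : 0 < x + 1) hθ' h0' (by ring)
    have e1 : (1 - θ) * x + θ * (x + 1) = x + θ := by ring
    have e2 : Real.Gamma x ^ (1 - θ) * Real.Gamma (x + 1) ^ θ = x ^ θ * Real.Gamma x := by
      rw [Real.Gamma_add_one hx.ne', Real.mul_rpow hx.le hG.le]
      have e3 : Real.Gamma x ^ (1 - θ) * Real.Gamma x ^ θ = Real.Gamma x := by
        rw [← Real.rpow_add hG]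
        ring_nf
        exact Real.rpow_one _
      calc Real.Gamma x ^ (1 - θ) * (x ^ θ * Real.Gamma x ^ θ) =
          x ^ θ * (Real.Gamma x ^ (1 - θ) * Real.Gamma x ^ θ) := by ring
        _ = _ := by rw [e3]
    rw [e1, e2] at h2
    have h3 : 0 < x ^ (-θ) := Real.rpow_pos_of_pos hx _
    have h4 : x ^ (-θ) * x ^ θ = 1 := by
      rw [← Real.rpow_add hx]
      simp
    calc x ^ (-θ) * Real.Gamma (x + θ) ≤ x ^ (-θ) * (x ^ θ * Real.Gamma x) :=
          mul_le_mul_of_nonneg_left h2 h3.le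
      _ = Real.Gamma x := by rw [← mul_assoc, h4, one_mul]
  · have h2 := Real.Gamma_mul_add_mul_le_rpow_Gamma_mul_rpow_Gamma hxθ
      (by linarith : 0 < x + θ + 1) h0' hθ' (by ring)
    have e1 : θ * (x + θ) + (1 - θ) * (x + θ + 1) = x + 1 := by ring
    have e2 : Real.Gamma (x + θ) ^ θ * Real.Gamma (x + θ + 1) ^ (1 - θ) =
        (x + θ) ^ (1 - θ) * Real.Gamma (x + θ) := by
      rw [Real.Gamma_add_one hxθ.ne', Real.mul_rpow hxθ.le hG'.le]
      have e3 : Real.Gamma (x + θ) ^ θ * Real.Gamma (x + θ) ^ (1 - θ) = Real.Gamma (x + θ) := by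
        rw [← Real.rpow_add hG']
        ring_nf
        exact Real.rpow_one _
      calc Real.Gamma (x + θ) ^ θ * ((x + θ) ^ (1 - θ) * Real.Gamma (x + θ) ^ (1 - θ)) =
          (x + θ) ^ (1 - θ) * (Real.Gamma (x + θ) ^ θ * Real.Gamma (x + θ) ^ (1 - θ)) := by ring
        _ = _ := by rw [e3]
    rw [e1, e2, Real.Gamma_add_one hx.ne'] at h2
    have h3 : (x + θ) ^ (1 - θ) ≤ x ^ (1 - θ) * (1 + 1 / x) := by
      have e4 : x + θ = x * (1 + θ / x) := by field_simp
      have h5 : 1 ≤ 1 + θ / x := by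
        have : 0 < θ / x := by positivity
        linarith
      rw [e4, Real.mul_rpow hx.le (by linarith)]
      refine mul_le_mul_of_nonneg_left ?_ (Real.rpow_nonneg hx.le _)
      calc (1 + θ / x) ^ (1 - θ) ≤ (1 + θ / x) ^ (1 : ℝ) :=
            Real.rpow_le_rpow_of_exponent_le h5 (by linarith)
        _ = 1 + θ / x := Real.rpow_one _
        _ ≤ 1 + 1 / x := by
            have := div_le_div_of_nonneg_right h1 hx.le
            linarith
    have e5 : x ^ (1 - θ) = x ^ (-θ) * x := by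
      rw [sub_eq_neg_add, Real.rpow_add hx, Real.rpow_one]
    rw [e5] at h3
    have h6 : x * Real.Gamma x ≤ x * (x ^ (-θ) * (1 + 1 / x) * Real.Gamma (x + θ)) := by
      refine h2.trans ((mul_le_mul_of_nonneg_right h3 hG'.le).trans (le_of_eq ?_))
      ring
    exact le_of_mul_le_mul_left h6 hx

end HillRoots
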