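import Pool.Agent.Lib.MP_e63cf8_mp.StmC

/-! Piece H1: the recursion of the Gamma weights -/

open Polynomial Filter Topology MeasureTheory Asymptotics

namespace HillRoots

theorem p_H1 : S_H1 := by
  intro M n c hM hc hn
  have hM0 : (0 : ℝ) < M := by exact_mod_cast hM
  have hn0 : (0 : ℝ) < n := by exact_mod_cast hn
  have hg0 : 0 < Real.Gamma ((n : ℝ) / M) := Real.Gamma_pos_of_pos (by positivity)
  refine ⟨?_, ?_, ?_⟩
  · unfold hh
    simp only [Nat.cast_zero, zero_div, neg_zero, Real.rpow_zero, sub_zero, add_zero,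
      Real.Gamma_one, mul_one, one_mul, pow_zero]
    rw [div_self hg0.ne']
    norm_num
  · intro s hs
    unfold hh
    refine mul_ne_zero (pow_ne_zero _ hc) ?_
    rw [Complex.ofReal_ne_zero]
    have hs' : (s : ℝ) < n := by exact_mod_cast hs
    have h1 : 0 < Real.Gamma (((n : ℝ) - s) / M) :=
      Real.Gamma_pos_of_pos (div_pos (by linarith) hM0)
    have h2 : 0 < Real.Gamma (1 + (s : ℝ) / M) := Real.Gamma_pos_of_pos (by positivity)
    have h3 : 0 < (4 * (M : ℝ) ^ 2) ^ (-((s : ℝ) / M)) := Real.rpow_pos_of_pos (by positivity) _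
    positivity
  · intro s hMs hs
    have hs' : (s : ℝ) < n := by exact_mod_cast hs
    have hMs' : (M : ℝ) ≤ s := by exact_mod_cast hMs
    have hsub : ((s - M : ℕ) : ℝ) = (s : ℝ) - M := Nat.cast_sub hMs
    set x : ℝ := (s : ℝ) / M with hx
    set y : ℝ := ((n : ℝ) - s) / M with hy
    have hx0 : 0 < x := div_pos (by linarith) hM0
    have hy0 : 0 < y := div_pos (by linarith) hM0
    have e1 : ((s - M : ℕ) : ℝ) / M = x - 1 := by
      rw [hsub, hx]; field_simp
    have e2 : ((n : ℝ) - ((s - M : ℕ) : ℝ)) / M = y + 1 := by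
      rw [hsub, hy]; field_simp; ring
    have e3 : Real.Gamma (y + 1) = y * Real.Gamma y := Real.Gamma_add_one hy0.ne'
    have e4 : Real.Gamma (1 + x) = x * Real.Gamma x := by
      rw [add_comm]; exact Real.Gamma_add_one hx0.ne'
    have e5 : 1 + (x - 1) = x := by ring
    have e6 : (4 * (M : ℝ) ^ 2) ^ (-(x - 1)) = (4 * (M : ℝ) ^ 2) ^ (-x) * (4 * (M : ℝ) ^ 2) := by
      rw [show -(x - 1) = -x + 1 by ring, Real.rpow_add (by positivity), Real.rpow_one]
    have e7 : En n s = 4 * (M : ℝ) ^ 2 * x * y := by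
      unfold En
      rw [hx, hy]
      push_cast
      field_simp
    have hgx : 0 < Real.Gamma x := Real.Gamma_pos_of_pos hx0
    have key : (4 * (M : ℝ) ^ 2) ^ (-(x - 1)) * Real.Gamma (y + 1) /
        (Real.Gamma ((n : ℝ) / M) * Real.Gamma (1 + (x - 1))) =
        En n s * ((4 * (M : ℝ) ^ 2) ^ (-x) * Real.Gamma y /
          (Real.Gamma ((n : ℝ) / M) * Real.Gamma (1 + x))) := by
      rw [e5, e6, e3, e4, e7]
      field_simp
    unfold hh
    rw [e1, e2, key, ← hx, ← hy]
    have hpow : c ^ s = c ^ M * c ^ (s - M) := by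
      rw [← pow_add, Nat.add_sub_cancel' hMs]
    rw [hpow]
    push_cast
    ring

end HillRoots
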