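import Pool.Agent.Lib.MP_e63cf8_mp.StmC

open Polynomial Filter Topology MeasureTheory Asymptotics

namespace HillRoots

private theorem p_H2_real (hH0 : S_H0) (x y θ : ℝ) (hx : 0 < x) (hy : 0 < y) (h0 : 0 ≤ θ) (h1 : θ ≤ 1) :
    |Real.Gamma (y + 1 - θ) / Real.Gamma (y + 1) * (Real.Gamma x / Real.Gamma (x + θ)) - (x * y) ^ (-θ)| ≤
      (x * y) ^ (-θ) * (1 / x + 1 / y) := by
  have hGx : 0 < Real.Gamma (x + θ) := Real.Gamma_pos_of_pos (by linarith)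
  have hGy : 0 < Real.Gamma (y + 1) := Real.Gamma_pos_of_pos (by linarith)
  have hxt : 0 < x ^ (-θ) := Real.rpow_pos_of_pos hx _
  have hyt : 0 < y ^ (-θ) := Real.rpow_pos_of_pos hy _
  obtain ⟨hA1, hA2⟩ := hH0 x θ hx h0 h1
  have hA1' : x ^ (-θ) ≤ Real.Gamma x / Real.Gamma (x + θ) := by
    rw [le_div_iff₀ hGx]; exact hA1
  have hA2' : Real.Gamma x / Real.Gamma (x + θ) ≤ x ^ (-θ) * (1 + 1 / x) := by
    rw [div_le_iff₀ hGx]; exact hA2
  have hB1 : (y + 1) ^ (-θ) ≤ Real.Gamma (y + 1 - θ) / Real.Gamma (y + 1) := by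
    obtain ⟨h, -⟩ := hH0 (y + 1 - θ) θ (by linarith) h0 h1
    rw [sub_add_cancel] at h
    rw [le_div_iff₀ hGy]
    refine le_trans ?_ h
    refine mul_le_mul_of_nonneg_right ?_ hGy.le
    exact Real.rpow_le_rpow_of_nonpos (by linarith) (by linarith) (by linarith)
  have hB2 : Real.Gamma (y + 1 - θ) / Real.Gamma (y + 1) ≤ y ^ (-θ) := by
    obtain ⟨h, -⟩ := hH0 y (1 - θ) hy (by linarith) (by linarith)
    rw [div_le_iff₀ hGy, Real.Gamma_add_one hy.ne']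
    have e1 : y + (1 - θ) = y + 1 - θ := by ring
    rw [e1] at h
    have e2 : y ^ (-θ) * (y * Real.Gamma y) = y ^ (1 - θ) * Real.Gamma y := by
      rw [← mul_assoc]
      congr 1
      rw [show (1 - θ : ℝ) = -θ + 1 by ring, Real.rpow_add_one hy.ne']
    rw [e2]
    have e3 : y ^ (1 - θ) * (y ^ (-(1 - θ)) * Real.Gamma (y + 1 - θ)) = Real.Gamma (y + 1 - θ) := by
      rw [← mul_assoc, ← Real.rpow_add hy]
      simp
    rw [← e3]
    exact mul_le_mul_of_nonneg_left h (Real.rpow_nonneg hy.le _)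
  have hB0 : 0 ≤ (y + 1) ^ (-θ) := Real.rpow_nonneg (by linarith) _
  have hxy : (x * y) ^ (-θ) = x ^ (-θ) * y ^ (-θ) := Real.mul_rpow hx.le hy.le
  rw [hxy]
  have hBy : y ^ (-θ) * (1 - 1 / y) ≤ (y + 1) ^ (-θ) := by
    have e : (y + 1) = y * (1 + 1 / y) := by field_simp
    rw [e, Real.mul_rpow hy.le (by positivity)]
    refine mul_le_mul_of_nonneg_left ?_ hyt.le
    have hu : 0 < 1 / y := by positivity
    have h2 : (1 + 1 / y) ^ (-1 : ℝ) ≤ (1 + 1 / y) ^ (-θ) :=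
      Real.rpow_le_rpow_of_exponent_le (by linarith) (by linarith)
    refine le_trans ?_ h2
    rw [Real.rpow_neg_one, ← one_div, le_div_iff₀ (by positivity)]
    nlinarith
  set A := Real.Gamma x / Real.Gamma (x + θ) with hAdef
  set B := Real.Gamma (y + 1 - θ) / Real.Gamma (y + 1) with hBdef
  have hA0 : 0 ≤ A := hxt.le.trans hA1'
  have hB00 : 0 ≤ B := hB0.trans hB1
  have hux : 0 < 1 / x := by positivity
  have huy : 0 < 1 / y := by positivity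
  have hpp : 0 < x ^ (-θ) * y ^ (-θ) := by positivity
  rw [abs_le]
  constructor
  · have h3 : x ^ (-θ) * (y ^ (-θ) * (1 - 1 / y)) ≤ B * A := by
      calc x ^ (-θ) * (y ^ (-θ) * (1 - 1 / y)) ≤ x ^ (-θ) * (y + 1) ^ (-θ) :=
            mul_le_mul_of_nonneg_left hBy hxt.le
        _ ≤ A * B := mul_le_mul hA1' hB1 hB0 hA0
        _ = B * A := by ring
    have h4 : 0 ≤ x ^ (-θ) * y ^ (-θ) * (1 / x) := by positivity
    nlinarith
  · have h3 : B * A ≤ y ^ (-θ) * (x ^ (-θ) * (1 + 1 / x)) := mul_le_mul hB2 hA2' hA0 hyt.le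
    have h4 : 0 ≤ x ^ (-θ) * y ^ (-θ) * (1 / y) := by positivity
    nlinarith

theorem p_H2 (hH0 : S_H0) : S_H2 := by
  intro P c n s j hc hj hjM hs hsn
  set M := P.natDegree with hM
  have hM0 : (0 : ℝ) < M := by exact_mod_cast (by omega : 0 < M)
  have hs0 : (0 : ℝ) < s := by exact_mod_cast hs
  have hns : (0 : ℝ) < (n : ℝ) - s := by
    have : (s : ℝ) < n := by exact_mod_cast hsn
    linarith
  have hEn : En n s = 4 * (s : ℝ) * ((n : ℝ) - s) := by simp [En]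
  have hE0 : 0 < En n s := by rw [hEn]; positivity
  by_cases hjs : j ≤ s
  swap
  · rw [ff, if_neg hjs, ← hM, sub_self, norm_zero]
    positivity
  rw [ff, if_pos hjs]
  set x : ℝ := (s : ℝ) / M with hx
  set y : ℝ := ((n : ℝ) - s) / M with hy
  set θ : ℝ := 1 - (j : ℝ) / M with hθ
  have hx0 : 0 < x := by positivity
  have hy0 : 0 < y := by positivity
  have hjM' : (j : ℝ) ≤ M := by exact_mod_cast hjM.le
  have hθ0 : 0 ≤ θ := by
    rw [hθ, sub_nonneg, div_le_one hM0]; exact hjM'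
  have hθ1 : θ ≤ 1 := by
    rw [hθ]
    have : 0 ≤ (j : ℝ) / M := by positivity
    linarith
  have hmain := p_H2_real hH0 x y θ hx0 hy0 hθ0 hθ1
  have hExy : En n s = 4 * (M : ℝ) ^ 2 * (x * y) := by
    rw [hEn, hx, hy]; field_simp
  have hEθ : (En n s) ^ (-θ) = (4 * (M : ℝ) ^ 2) ^ (-θ) * (x * y) ^ (-θ) := by
    rw [hExy, Real.mul_rpow (by positivity) (by positivity)]
  -- the coefficient
  have hnn : (0 : ℝ) < (n : ℝ) / M := by
    have : (0 : ℝ) < n := by linarith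
    positivity
  have hGn : Real.Gamma ((n : ℝ) / M) ≠ 0 := (Real.Gamma_pos_of_pos hnn).ne'
  have hGy : Real.Gamma y ≠ 0 := (Real.Gamma_pos_of_pos hy0).ne'
  have hGx : Real.Gamma x ≠ 0 := (Real.Gamma_pos_of_pos hx0).ne'
  have hGxt : Real.Gamma (x + θ) ≠ 0 := (Real.Gamma_pos_of_pos (by linarith)).ne'
  have hcoef : P.coeff j * hh M c n (s - j) / ((En n s : ℂ) * hh M c n s) =
      P.coeff j / c ^ j * (((4 * (M : ℝ) ^ 2) ^ (-θ) *
        (Real.Gamma (y + 1 - θ) / Real.Gamma (y + 1) * (Real.Gamma x / Real.Gamma (x + θ))) : ℝ) : ℂ) := by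
    have hcs : c ^ s = c ^ (s - j) * c ^ j := by rw [← pow_add, Nat.sub_add_cancel hjs]
    have e1 : ((n : ℝ) - ((s - j : ℕ) : ℝ)) / M = y + 1 - θ := by
      rw [Nat.cast_sub hjs, hy, hθ]; ring
    have e2 : 1 + ((s - j : ℕ) : ℝ) / M = x + θ := by
      rw [Nat.cast_sub hjs, hx, hθ]; ring
    have e3 : Real.Gamma (1 + x) = x * Real.Gamma x := by
      rw [add_comm, Real.Gamma_add_one hx0.ne']
    have e4 : Real.Gamma (y + 1) = y * Real.Gamma y := Real.Gamma_add_one hy0.ne'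
    have e5 : (4 * (M : ℝ) ^ 2) ^ (-(((s - j : ℕ) : ℝ) / M)) =
        (4 * (M : ℝ) ^ 2) * (4 * (M : ℝ) ^ 2) ^ (-θ) * (4 * (M : ℝ) ^ 2) ^ (-((s : ℝ) / M)) := by
      have hb : (0 : ℝ) < 4 * (M : ℝ) ^ 2 := by positivity
      conv_rhs => rw [← Real.rpow_one (4 * (M : ℝ) ^ 2)]
      simp only [Real.rpow_one]
      nth_rewrite 2 [← Real.rpow_one (4 * (M : ℝ) ^ 2)]
      rw [← Real.rpow_add hb, ← Real.rpow_add hb]
      congr 1
      rw [Nat.cast_sub hjs, hθ]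
      ring
    have hreal : ((4 * (M : ℝ) ^ 2) ^ (-(((s - j : ℕ) : ℝ) / M)) * Real.Gamma (((n : ℝ) - ((s - j : ℕ) : ℝ)) / M) /
        (Real.Gamma ((n : ℝ) / M) * Real.Gamma (1 + ((s - j : ℕ) : ℝ) / M))) =
        En n s * ((4 * (M : ℝ) ^ 2) ^ (-((s : ℝ) / M)) * Real.Gamma (((n : ℝ) - s) / M) /
          (Real.Gamma ((n : ℝ) / M) * Real.Gamma (1 + (s : ℝ) / M))) *
        ((4 * (M : ℝ) ^ 2) ^ (-θ) *
          (Real.Gamma (y + 1 - θ) / Real.Gamma (y + 1) * (Real.Gamma x / Real.Gamma (x + θ)))) := by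
      rw [e1, e2, e5, ← hx, ← hy, e3, e4, hExy]
      field_simp
    have hb0 : ((4 * (M : ℝ) ^ 2) ^ (-((s : ℝ) / M)) * Real.Gamma (((n : ℝ) - s) / M) /
          (Real.Gamma ((n : ℝ) / M) * Real.Gamma (1 + (s : ℝ) / M))) ≠ 0 := by
      rw [← hx, ← hy, e3]
      have : (0 : ℝ) < (4 * (M : ℝ) ^ 2) ^ (-x) := Real.rpow_pos_of_pos (by positivity) _
      positivity
    unfold hh
    rw [hreal]
    generalize ((4 * (M : ℝ) ^ 2) ^ (-((s : ℝ) / M)) * Real.Gamma (((n : ℝ) - s) / M) /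
          (Real.Gamma ((n : ℝ) / M) * Real.Gamma (1 + (s : ℝ) / M))) = H at hb0 ⊢
    generalize ((4 * (M : ℝ) ^ 2) ^ (-θ) *
          (Real.Gamma (y + 1 - θ) / Real.Gamma (y + 1) * (Real.Gamma x / Real.Gamma (x + θ)))) = R
    have hH : (H : ℂ) ≠ 0 := by exact_mod_cast hb0
    have hEc : (En n s : ℂ) ≠ 0 := by exact_mod_cast hE0.ne'
    rw [hcs]
    push_cast
    field_simp
  have htau : (tau M n s : ℂ) ^ (M - j) = (((4 * (M : ℝ) ^ 2) ^ (-θ) * (x * y) ^ (-θ) : ℝ) : ℂ) := by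
    rw [← hEθ, ← Complex.ofReal_pow]
    congr 1
    unfold tau
    rw [← hEn, ← Real.rpow_natCast, ← Real.rpow_mul hE0.le]
    congr 1
    rw [Nat.cast_sub hjM.le, hθ]
    field_simp
  rw [hcoef, htau, ← mul_sub, norm_mul, ← Complex.ofReal_sub, ← mul_sub, Complex.norm_real, norm_mul,
    Real.norm_eq_abs, Real.norm_eq_abs]
  have hM4 : 0 < (4 * (M : ℝ) ^ 2) ^ (-θ) := Real.rpow_pos_of_pos (by positivity) _
  rw [abs_of_pos hM4, hEθ]
  calc ‖P.coeff j / c ^ j‖ * ((4 * (M : ℝ) ^ 2) ^ (-θ) *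
        |Real.Gamma (y + 1 - θ) / Real.Gamma (y + 1) * (Real.Gamma x / Real.Gamma (x + θ)) - (x * y) ^ (-θ)|)
      ≤ ‖P.coeff j / c ^ j‖ * ((4 * (M : ℝ) ^ 2) ^ (-θ) * ((x * y) ^ (-θ) * (1 / x + 1 / y))) := by
        gcongr
    _ = ‖P.coeff j / c ^ j‖ * M * ((4 * (M : ℝ) ^ 2) ^ (-θ) * (x * y) ^ (-θ)) * (1 / (s : ℝ) + 1 / ((n : ℝ) - s)) := by
        have : 1 / x + 1 / y = M * (1 / (s : ℝ) + 1 / ((n : ℝ) - s)) := by
          rw [hx, hy]
          field_simp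
        rw [this]
        ring

end HillRoots
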