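import Pool.Agent.Lib.MP_e63cf8_mp.StmC

/-!
# MP_e63cf8_mp: proof of `S_H3` (sizes of the Gamma weights)
-/

open Polynomial Filter Topology MeasureTheory Asymptotics

namespace HillRoots

private lemma p_H3_norm (M n s : ℕ) (c : ℂ) (hM : 1 ≤ M) (hs : s < n) :
    ‖hh M c n s‖ = ‖c‖ ^ s * ((4 * (M : ℝ) ^ 2) ^ (-((s : ℝ) / M)) * Real.Gamma (((n : ℝ) - s) / M) /
    (Real.Gamma ((n : ℝ) / M) * Real.Gamma (1 + (s : ℝ) / M))) := by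
  have hM' : (0:ℝ) < M := by exact_mod_cast hM
  have hn : (0:ℝ) < n := by exact_mod_cast (by omega : 0 < n)
  have hs' : (0:ℝ) < (n:ℝ) - s := by
    have : (s:ℝ) < n := by exact_mod_cast hs
    linarith
  have h1 := Real.Gamma_pos_of_pos (div_pos hs' hM')
  have h2 := Real.Gamma_pos_of_pos (div_pos hn hM')
  have h3 : 0 < Real.Gamma (1 + (s:ℝ)/M) := Real.Gamma_pos_of_pos (by positivity)
  unfold hh
  rw [norm_mul, norm_pow, Complex.norm_real, Real.norm_eq_abs, abs_of_nonneg]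
  positivity

private lemma p_H3_base (M : ℕ) (hM : 1 ≤ M) : (1:ℝ) ≤ 4 * (M:ℝ)^2 := by
  have : (1:ℝ) ≤ M := by exact_mod_cast hM
  nlinarith

private lemma p_H3_step (hH0 : S_H0) (M : ℕ) (hM : 1 ≤ M) (y : ℝ) (hy : 1 / (M:ℝ) ≤ y) :
    Real.Gamma y ≤ (M:ℝ) * (1 + M) * Real.Gamma (y + 1 / M) := by
  have hM1 : (1:ℝ) ≤ M := by exact_mod_cast hM
  have hM' : (0:ℝ) < M := by linarith
  have hM'' : 0 < 1 / (M:ℝ) := by positivity
  have hy0 : 0 < y := lt_of_lt_of_le hM'' hy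
  have h := (hH0 y (1 / M) hy0 hM''.le (by rw [div_le_one hM']; exact hM1)).2
  refine h.trans ?_
  have hG : 0 < Real.Gamma (y + 1 / M) := Real.Gamma_pos_of_pos (by positivity)
  refine mul_le_mul_of_nonneg_right ?_ hG.le
  have e1 : y ^ (-(1 / (M:ℝ))) ≤ M := by
    calc y ^ (-(1 / (M:ℝ))) ≤ (1 / (M:ℝ)) ^ (-(1 / (M:ℝ))) :=
          Real.rpow_le_rpow_of_nonpos hM'' hy (by linarith)
      _ = (M:ℝ) ^ (1 / (M:ℝ)) := by
          rw [one_div, Real.inv_rpow hM'.le, Real.rpow_neg hM'.le, inv_inv]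
      _ ≤ (M:ℝ) ^ (1:ℝ) := Real.rpow_le_rpow_of_exponent_le hM1 (by rw [div_le_one hM']; exact hM1)
      _ = M := Real.rpow_one _
  have e2 : 1 + 1 / y ≤ 1 + M := by
    have : 1 / y ≤ M := by
      rw [div_le_iff₀ hy0]
      have := mul_le_mul_of_nonneg_left hy hM'.le
      rw [mul_one_div_cancel hM'.ne'] at this
      exact this
    linarith
  have e3 : 0 ≤ 1 + 1 / y := by positivity
  exact mul_le_mul e1 e2 e3 hM'.le

private lemma p_H3_one (hH0 : S_H0) (M : ℕ) (c : ℂ) (hM : 1 ≤ M) (n s : ℕ) (hs : s + 1 < n) :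
    ‖hh M c n (s + 1)‖ ≤ (‖c‖ * ((M:ℝ) * (1 + M)) ^ 2) * ‖hh M c n s‖ := by
  have hM1 : (1:ℝ) ≤ M := by exact_mod_cast hM
  have hM' : (0:ℝ) < M := by linarith
  have hn : (0:ℝ) < n := by exact_mod_cast (by omega : 0 < n)
  have hs' : (s:ℝ) + 1 + 1 ≤ n := by exact_mod_cast (by omega : s + 1 + 1 ≤ n)
  rw [p_H3_norm M n (s+1) c hM hs, p_H3_norm M n s c hM (by omega)]
  have hb := p_H3_base M hM
  have hbp : 0 < 4 * (M:ℝ)^2 := by linarith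
  set B := 4 * (M:ℝ)^2 with hB
  have hGn := Real.Gamma_pos_of_pos (div_pos hn hM')
  have hx : 0 < Real.Gamma (1 + (s:ℝ)/M) := Real.Gamma_pos_of_pos (by positivity)
  have hx1 : 0 < Real.Gamma (1 + ((s+1 : ℕ):ℝ)/M) := Real.Gamma_pos_of_pos (by positivity)
  have hy : 0 < Real.Gamma (((n:ℝ) - s)/M) := Real.Gamma_pos_of_pos (div_pos (by linarith) hM')
  have hy1 : 0 < Real.Gamma (((n:ℝ) - (s+1 : ℕ))/M) :=
    Real.Gamma_pos_of_pos (div_pos (by push_cast; linarith) hM')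
  have k1 : Real.Gamma (((n:ℝ) - (s+1 : ℕ))/M) ≤ (M:ℝ) * (1 + M) * Real.Gamma (((n:ℝ) - s)/M) := by
    have := p_H3_step hH0 M hM (((n:ℝ) - (s+1 : ℕ))/M) (by
      apply div_le_div_of_nonneg_right _ hM'.le
      push_cast; linarith)
    have e : ((n:ℝ) - (s+1 : ℕ))/M + 1 / M = ((n:ℝ) - s)/M := by push_cast; ring
    rwa [e] at this
  have k2 : Real.Gamma (1 + (s:ℝ)/M) ≤ (M:ℝ) * (1 + M) * Real.Gamma (1 + ((s+1 : ℕ):ℝ)/M) := by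
    have := p_H3_step hH0 M hM (1 + (s:ℝ)/M) (by
      have : 1 / (M:ℝ) ≤ 1 := by rw [div_le_one hM']; exact hM1
      have : 0 ≤ (s:ℝ)/M := by positivity
      linarith)
    have e : 1 + (s:ℝ)/M + 1 / M = 1 + ((s+1 : ℕ):ℝ)/M := by push_cast; ring
    rwa [e] at this
  have k3 : B ^ (-(((s+1 : ℕ):ℝ)/M)) ≤ B ^ (-((s:ℝ)/M)) := by
    apply Real.rpow_le_rpow_of_exponent_le hb
    have : (s:ℝ)/M ≤ ((s+1 : ℕ):ℝ)/M := by
      apply div_le_div_of_nonneg_right _ hM'.le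
      push_cast; linarith
    linarith
  have hB0 : 0 ≤ B ^ (-(((s+1 : ℕ):ℝ)/M)) := Real.rpow_nonneg hbp.le _
  have hB1 : 0 ≤ B ^ (-((s:ℝ)/M)) := Real.rpow_nonneg hbp.le _
  set K := (M:ℝ) * (1 + M) with hK
  have hK0 : 0 < K := by positivity
  have main : B ^ (-(((s+1 : ℕ):ℝ)/M)) * Real.Gamma (((n:ℝ) - (s+1 : ℕ))/M) /
      (Real.Gamma ((n:ℝ)/M) * Real.Gamma (1 + ((s+1 : ℕ):ℝ)/M)) ≤
      K ^ 2 * (B ^ (-((s:ℝ)/M)) * Real.Gamma (((n:ℝ) - s)/M) /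
      (Real.Gamma ((n:ℝ)/M) * Real.Gamma (1 + (s:ℝ)/M))) := by
    rw [← mul_div_assoc, div_le_div_iff₀ (mul_pos hGn hx1) (mul_pos hGn hx)]
    calc B ^ (-(((s+1 : ℕ):ℝ)/M)) * Real.Gamma (((n:ℝ) - (s+1 : ℕ))/M) *
          (Real.Gamma ((n:ℝ)/M) * Real.Gamma (1 + (s:ℝ)/M))
        ≤ B ^ (-((s:ℝ)/M)) * (K * Real.Gamma (((n:ℝ) - s)/M)) *
          (Real.Gamma ((n:ℝ)/M) * (K * Real.Gamma (1 + ((s+1 : ℕ):ℝ)/M))) := by
          refine mul_le_mul (mul_le_mul k3 k1 hy1.le hB1)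
            (mul_le_mul_of_nonneg_left k2 hGn.le) (by positivity) (by positivity)
      _ = K ^ 2 * (B ^ (-((s:ℝ)/M)) * Real.Gamma (((n:ℝ) - s)/M)) *
          (Real.Gamma ((n:ℝ)/M) * Real.Gamma (1 + ((s+1 : ℕ):ℝ)/M)) := by ring
  calc ‖c‖ ^ (s+1) * (B ^ (-(((s+1 : ℕ):ℝ)/M)) * Real.Gamma (((n:ℝ) - (s+1 : ℕ))/M) /
      (Real.Gamma ((n:ℝ)/M) * Real.Gamma (1 + ((s+1 : ℕ):ℝ)/M)))
      ≤ ‖c‖ ^ (s+1) * (K ^ 2 * (B ^ (-((s:ℝ)/M)) * Real.Gamma (((n:ℝ) - s)/M) /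
      (Real.Gamma ((n:ℝ)/M) * Real.Gamma (1 + (s:ℝ)/M)))) :=
        mul_le_mul_of_nonneg_left main (by positivity)
    _ = _ := by ring

private lemma p_H3_iter (M : ℕ) (c : ℂ) (n : ℕ) (D : ℝ) (hD : 1 ≤ D)
    (h : ∀ s, s + 1 < n → ‖hh M c n (s + 1)‖ ≤ D * ‖hh M c n s‖) (s k : ℕ) (hk : s + k < n) :
    ‖hh M c n (s + k)‖ ≤ D ^ k * ‖hh M c n s‖ := by
  induction k with
  | zero => simp
  | succ k ih =>
    have h1 := ih (by omega)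
    have h2 := h (s + k) (by omega)
    calc ‖hh M c n (s + (k + 1))‖ = ‖hh M c n (s + k + 1)‖ := by rw [add_assoc]
      _ ≤ D * ‖hh M c n (s + k)‖ := h2
      _ ≤ D * (D ^ k * ‖hh M c n s‖) := mul_le_mul_of_nonneg_left h1 (by linarith)
      _ = D ^ (k+1) * ‖hh M c n s‖ := by ring

private lemma p_H3_ends (M n j : ℕ) (c : ℂ) (hM : 1 ≤ M) (hj : 1 ≤ j) (hjM : j < M) (hn : M ≤ n) :
    ‖hh M c n (n - j)‖ * (‖c‖ ^ (n - M)) * (4 * (M : ℝ) ^ 2) ^ (1 - (j:ℝ)/M) *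
      Real.Gamma ((n:ℝ)/M + (1 - (j:ℝ)/M)) = 
    ‖hh M c n (n - M)‖ * ‖c‖ ^ (n - j) * Real.Gamma ((j:ℝ)/M) * Real.Gamma ((n:ℝ)/M) := by
  have hM' : (0:ℝ) < M := by exact_mod_cast hM
  have hn' : (0:ℝ) < n := by exact_mod_cast (by omega : 0 < n)
  have hj' : (0:ℝ) < j := by exact_mod_cast hj
  have hjM' : (j:ℝ) < M := by exact_mod_cast hjM
  rw [p_H3_norm M n (n-j) c hM (by omega), p_H3_norm M n (n-M) c hM (by omega)]
  have c1 : ((n - j : ℕ):ℝ) = (n:ℝ) - j := by rw [Nat.cast_sub (by omega)]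
  have c2 : ((n - M : ℕ):ℝ) = (n:ℝ) - M := by rw [Nat.cast_sub hn]
  rw [c1, c2]
  have hb := p_H3_base M hM
  have hbp : 0 < 4 * (M:ℝ)^2 := by linarith
  set B := 4 * (M:ℝ)^2 with hB
  have e1 : ((n:ℝ) - ((n:ℝ) - j))/M = (j:ℝ)/M := by ring
  have e2 : ((n:ℝ) - ((n:ℝ) - M))/M = 1 := by
    rw [show (n:ℝ) - ((n:ℝ) - M) = M by ring, div_self hM'.ne']
  have e3 : 1 + ((n:ℝ) - j)/M = (n:ℝ)/M + (1 - (j:ℝ)/M) := by ring
  have e4 : 1 + ((n:ℝ) - M)/M = (n:ℝ)/M := by field_simp; ring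
  rw [e1, e2, e3, e4, Real.Gamma_one]
  have g1 := Real.Gamma_pos_of_pos (div_pos hn' hM')
  have g2 : 0 < Real.Gamma ((n:ℝ)/M + (1 - (j:ℝ)/M)) := by
    apply Real.Gamma_pos_of_pos
    have : (j:ℝ)/M < 1 := by rw [div_lt_one hM']; exact hjM'
    have : 0 < (n:ℝ)/M := by positivity
    linarith
  have e5 : B ^ (-(((n:ℝ) - M)/M)) = B ^ (-(((n:ℝ) - j)/M)) * B ^ (1 - (j:ℝ)/M) := by
    rw [← Real.rpow_add hbp]
    congr 1
    field_simp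
    ring
  rw [e5]
  generalize Real.Gamma ((n:ℝ)/M + (1 - (j:ℝ)/M)) = G2 at g2 ⊢
  generalize Real.Gamma ((n:ℝ)/M) = G1 at g1 ⊢
  generalize B ^ (-(((n:ℝ) - j)/M)) = B1
  generalize B ^ (1 - (j:ℝ)/M) = B2
  generalize Real.Gamma ((j:ℝ)/M) = G3
  have g1' := g1.ne'
  have g2' := g2.ne'
  field_simp

theorem p_H3 (hH0 : S_H0) : S_H3 := by
  intro M J c hM hc
  have hM1 : (1:ℝ) ≤ M := by exact_mod_cast hM
  have hM' : (0:ℝ) < M := by linarith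
  have hc' : 0 < ‖c‖ := norm_pos_iff.mpr hc
  have hb := p_H3_base M hM
  have hbp : 0 < 4 * (M:ℝ)^2 := by linarith
  set K := (M:ℝ) * (1 + M) with hK
  have hK0 : 0 < K := by positivity
  set D : ℝ := 1 + ‖c‖ * K ^ 2 with hD
  have hD1 : 1 ≤ D := by
    have : 0 ≤ ‖c‖ * K ^ 2 := by positivity
    linarith
  -- constants
  set C2 : ℝ := ∑ j ∈ Finset.Ico 1 M, ‖c‖ ^ (M - j) * Real.Gamma ((j:ℝ)/M) * (2 * M) with hC2
  set C3 : ℝ := ∑ j ∈ Finset.Ico 1 M, (‖c‖ ^ (M - j))⁻¹ * (4 * (M:ℝ)^2) * (Real.Gamma ((j:ℝ)/M))⁻¹ with hC3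
  set C4 : ℝ := ∑ s ∈ Finset.range M, (‖c‖ ^ s)⁻¹ * (4 * (M:ℝ)^2) ^ ((s:ℝ)/M) * Real.Gamma (1 + (s:ℝ)/M) with hC4
  have gj : ∀ j : ℕ, 1 ≤ j → 0 < Real.Gamma ((j:ℝ)/M) := by
    intro j hj
    have : (0:ℝ) < j := by exact_mod_cast hj
    exact Real.Gamma_pos_of_pos (by positivity)
  have t2 : ∀ j ∈ Finset.Ico 1 M, 0 ≤ ‖c‖ ^ (M - j) * Real.Gamma ((j:ℝ)/M) * (2 * M) := by
    intro j hj
    have := gj j (Finset.mem_Ico.mp hj).1
    positivity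
  have t3 : ∀ j ∈ Finset.Ico 1 M, 0 ≤ (‖c‖ ^ (M - j))⁻¹ * (4 * (M:ℝ)^2) * (Real.Gamma ((j:ℝ)/M))⁻¹ := by
    intro j hj
    have := gj j (Finset.mem_Ico.mp hj).1
    positivity
  have t4 : ∀ s ∈ Finset.range M, 0 ≤ (‖c‖ ^ s)⁻¹ * (4 * (M:ℝ)^2) ^ ((s:ℝ)/M) * Real.Gamma (1 + (s:ℝ)/M) := by
    intro s hs
    have : 0 < Real.Gamma (1 + (s:ℝ)/M) := Real.Gamma_pos_of_pos (by positivity)
    have : 0 ≤ (4 * (M:ℝ)^2) ^ ((s:ℝ)/M) := Real.rpow_nonneg hbp.le _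
    positivity
  have C2n : 0 ≤ C2 := Finset.sum_nonneg t2
  have C3n : 0 ≤ C3 := Finset.sum_nonneg t3
  have C4n : 0 ≤ C4 := Finset.sum_nonneg t4
  have DJ : 1 ≤ D ^ J := one_le_pow₀ hD1
  refine ⟨D + C2 + (D ^ J + C3) + C4, by linarith, ?_⟩
  filter_upwards [eventually_ge_atTop (2 * M)] with n hn
  have hnM : M ≤ n := by omega
  have hn1 : 1 ≤ n := by omega
  have hn' : (1:ℝ) ≤ n := by exact_mod_cast hn1
  have hn0 : (0:ℝ) < n := by linarith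
  have hnM' : (M:ℝ) ≤ n := by exact_mod_cast hnM
  have hnM1 : (1:ℝ) ≤ (n:ℝ)/M := by rw [le_div_iff₀ hM']; linarith
  have hnM0 : (0:ℝ) < (n:ℝ)/M := by linarith
  have step : ∀ s, s + 1 < n → ‖hh M c n (s + 1)‖ ≤ D * ‖hh M c n s‖ := by
    intro s hs
    refine (p_H3_one hH0 M c hM n s hs).trans (mul_le_mul_of_nonneg_right ?_ (norm_nonneg _))
    linarith
  refine ⟨?_, ?_, ?_, ?_⟩
  · intro s hs
    refine (step s hs).trans (mul_le_mul_of_nonneg_right ?_ (norm_nonneg _))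
    linarith
  · intro j hj hjM
    have hj' : (0:ℝ) < j := by exact_mod_cast hj
    have hjM' : (j:ℝ) + 1 ≤ M := by exact_mod_cast hjM
    have key := p_H3_ends M n j c hM hj hjM hnM
    set θ : ℝ := 1 - (j:ℝ)/M with hθ
    have hθ1 : 1 / (M:ℝ) ≤ θ := by
      rw [hθ, le_sub_iff_add_le, ← add_div, div_le_one hM']; linarith
    have hM'' : 0 < 1 / (M:ℝ) := by positivity
    have hθ0 : 0 < θ := by linarith
    have hθ2 : θ ≤ 1 := by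
      have : 0 < (j:ℝ)/M := by positivity
      linarith
    have g1 := Real.Gamma_pos_of_pos hnM0
    have g2 : 0 < Real.Gamma ((n:ℝ)/M + θ) := Real.Gamma_pos_of_pos (by linarith)
    have g3 := gj j hj
    have h0 := (hH0 ((n:ℝ)/M) θ hnM0 hθ0.le hθ2).2
    have f1 : ((n:ℝ)/M) ^ (-θ) ≤ (n:ℝ) ^ (-(1 / (M:ℝ))) * M := by
      calc ((n:ℝ)/M) ^ (-θ) ≤ ((n:ℝ)/M) ^ (-(1/(M:ℝ))) :=
            Real.rpow_le_rpow_of_exponent_le hnM1 (by linarith)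
        _ = (n:ℝ) ^ (-(1 / (M:ℝ))) * (M:ℝ) ^ (1/(M:ℝ)) := by
            rw [Real.div_rpow hn0.le hM'.le, Real.rpow_neg hM'.le, div_inv_eq_mul]
        _ ≤ (n:ℝ) ^ (-(1 / (M:ℝ))) * M := by
            refine mul_le_mul_of_nonneg_left ?_ (Real.rpow_nonneg hn0.le _)
            calc (M:ℝ) ^ (1/(M:ℝ)) ≤ (M:ℝ) ^ (1:ℝ) :=
                  Real.rpow_le_rpow_of_exponent_le hM1 (by rw [div_le_one hM']; exact hM1)
              _ = M := Real.rpow_one _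
    have f2 : 1 + 1 / ((n:ℝ)/M) ≤ 2 := by
      have : 1 / ((n:ℝ)/M) ≤ 1 := by rw [div_le_one hnM0]; exact hnM1
      linarith
    have f0 : 0 ≤ (n:ℝ) ^ (-(1 / (M:ℝ))) := Real.rpow_nonneg hn0.le _
    have h1 : Real.Gamma ((n:ℝ)/M) ≤ ((n:ℝ) ^ (-(1 / (M:ℝ))) * M * 2) * Real.Gamma ((n:ℝ)/M + θ) := by
      refine h0.trans (mul_le_mul_of_nonneg_right ?_ g2.le)
      exact mul_le_mul f1 f2 (by positivity) (by positivity)
    have hBθ : 1 ≤ (4 * (M:ℝ)^2) ^ θ := Real.one_le_rpow hb hθ0.le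
    have hcc : ‖c‖ ^ (n - j) = ‖c‖ ^ (n - M) * ‖c‖ ^ (M - j) := by
      rw [← pow_add]; congr 1; omega
    rw [hcc] at key
    have hcp : 0 < ‖c‖ ^ (n - M) := by positivity
    have hcq : 0 < ‖c‖ ^ (M - j) := by positivity
    have main : ‖hh M c n (n - j)‖ ≤ (‖c‖ ^ (M - j) * Real.Gamma ((j:ℝ)/M) * (2 * M)) *
        (n:ℝ) ^ (-(1 / (M:ℝ))) * ‖hh M c n (n - M)‖ := by
      have hpos : 0 < ‖c‖ ^ (n - M) * Real.Gamma ((n:ℝ)/M + θ) := mul_pos hcp g2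
      refine le_of_mul_le_mul_right ?_ hpos
      calc ‖hh M c n (n - j)‖ * (‖c‖ ^ (n - M) * Real.Gamma ((n:ℝ)/M + θ))
          ≤ (‖hh M c n (n - j)‖ * (‖c‖ ^ (n - M) * Real.Gamma ((n:ℝ)/M + θ))) * (4 * (M:ℝ)^2) ^ θ :=
            le_mul_of_one_le_right (by positivity) hBθ
        _ = ‖hh M c n (n - j)‖ * (‖c‖ ^ (n - M)) * (4 * (M : ℝ) ^ 2) ^ θ * Real.Gamma ((n:ℝ)/M + θ) := by ring
        _ = ‖hh M c n (n - M)‖ * (‖c‖ ^ (n - M) * ‖c‖ ^ (M - j)) * Real.Gamma ((j:ℝ)/M) * Real.Gamma ((n:ℝ)/M) := key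
        _ ≤ ‖hh M c n (n - M)‖ * (‖c‖ ^ (n - M) * ‖c‖ ^ (M - j)) * Real.Gamma ((j:ℝ)/M) *
            (((n:ℝ) ^ (-(1 / (M:ℝ))) * M * 2) * Real.Gamma ((n:ℝ)/M + θ)) :=
            mul_le_mul_of_nonneg_left h1 (by positivity)
        _ = _ := by ring
    refine main.trans ?_
    have hle : ‖c‖ ^ (M - j) * Real.Gamma ((j:ℝ)/M) * (2 * M) ≤ C2 :=
      Finset.single_le_sum t2 (Finset.mem_Ico.mpr ⟨hj, hjM⟩)
    have : ‖c‖ ^ (M - j) * Real.Gamma ((j:ℝ)/M) * (2 * M) ≤ D + C2 + (D ^ J + C3) + C4 := by linarith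
    gcongr
  · intro s hsJ hs
    by_cases hsM : s ≤ n - M
    · have h1 := p_H3_iter M c n D hD1 step s (n - M - s) (by omega)
      rw [show s + (n - M - s) = n - M by omega] at h1
      have h2 : D ^ (n - M - s) ≤ D ^ J := pow_le_pow_right₀ hD1 (by omega)
      calc ‖hh M c n (n - M)‖ ≤ D ^ (n - M - s) * ‖hh M c n s‖ := h1
        _ ≤ D ^ J * ‖hh M c n s‖ := mul_le_mul_of_nonneg_right h2 (norm_nonneg _)
        _ ≤ ((D + C2 + (D ^ J + C3) + C4) * n) * ‖hh M c n s‖ := by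
            refine mul_le_mul_of_nonneg_right ?_ (norm_nonneg _)
            have : D ^ J ≤ D + C2 + (D ^ J + C3) + C4 := by linarith
            calc D ^ J ≤ D + C2 + (D ^ J + C3) + C4 := this
              _ ≤ (D + C2 + (D ^ J + C3) + C4) * n := le_mul_of_one_le_right (by linarith) hn'
        _ = _ := by ring
    · obtain ⟨j, hj, hjM, rfl⟩ : ∃ j, 1 ≤ j ∧ j < M ∧ s = n - j := ⟨n - s, by omega, by omega, by omega⟩
      have hj' : (0:ℝ) < j := by exact_mod_cast hj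
      have hjM' : (j:ℝ) + 1 ≤ M := by exact_mod_cast hjM
      have key := p_H3_ends M n j c hM hj hjM hnM
      set θ : ℝ := 1 - (j:ℝ)/M with hθ
      have hθ1 : 1 / (M:ℝ) ≤ θ := by
        rw [hθ, le_sub_iff_add_le, ← add_div, div_le_one hM']; linarith
      have hM'' : 0 < 1 / (M:ℝ) := by positivity
      have hθ0 : 0 < θ := by linarith
      have hθ2 : θ ≤ 1 := by
        have : 0 < (j:ℝ)/M := by positivity
        linarith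
      have g1 := Real.Gamma_pos_of_pos hnM0
      have g2 : 0 < Real.Gamma ((n:ℝ)/M + θ) := Real.Gamma_pos_of_pos (by linarith)
      have g3 := gj j hj
      have h0 := (hH0 ((n:ℝ)/M) θ hnM0 hθ0.le hθ2).1
      have hcc : ‖c‖ ^ (n - j) = ‖c‖ ^ (n - M) * ‖c‖ ^ (M - j) := by
        rw [← pow_add]; congr 1; omega
      rw [hcc] at key
      have hcp : 0 < ‖c‖ ^ (n - M) := by positivity
      have hcq : 0 < ‖c‖ ^ (M - j) := by positivity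
      have h1 : Real.Gamma ((n:ℝ)/M + θ) ≤ n * Real.Gamma ((n:ℝ)/M) := by
        have q : 0 < ((n:ℝ)/M) ^ θ := Real.rpow_pos_of_pos hnM0 _
        rw [Real.rpow_neg hnM0.le, inv_mul_le_iff₀ q] at h0
        refine h0.trans (mul_le_mul_of_nonneg_right ?_ g1.le)
        calc ((n:ℝ)/M) ^ θ ≤ ((n:ℝ)/M) ^ (1:ℝ) := Real.rpow_le_rpow_of_exponent_le hnM1 hθ2
          _ = (n:ℝ)/M := Real.rpow_one _
          _ ≤ n := div_le_self hn0.le hM1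
      have hBθ : (4 * (M:ℝ)^2) ^ θ ≤ 4 * (M:ℝ)^2 := by
        calc (4 * (M:ℝ)^2) ^ θ ≤ (4 * (M:ℝ)^2) ^ (1:ℝ) := Real.rpow_le_rpow_of_exponent_le hb hθ2
          _ = _ := Real.rpow_one _
      have hBθ0 : 0 ≤ (4 * (M:ℝ)^2) ^ θ := Real.rpow_nonneg hbp.le _
      have main : ‖hh M c n (n - M)‖ ≤ ((‖c‖ ^ (M - j))⁻¹ * (4 * (M:ℝ)^2) * (Real.Gamma ((j:ℝ)/M))⁻¹) *
          n * ‖hh M c n (n - j)‖ := by
        have hpos : 0 < (‖c‖ ^ (n - M) * ‖c‖ ^ (M - j)) * Real.Gamma ((j:ℝ)/M) * Real.Gamma ((n:ℝ)/M) := by positivity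
        refine le_of_mul_le_mul_right ?_ hpos
        calc ‖hh M c n (n - M)‖ * ((‖c‖ ^ (n - M) * ‖c‖ ^ (M - j)) * Real.Gamma ((j:ℝ)/M) * Real.Gamma ((n:ℝ)/M))
            = ‖hh M c n (n - M)‖ * (‖c‖ ^ (n - M) * ‖c‖ ^ (M - j)) * Real.Gamma ((j:ℝ)/M) * Real.Gamma ((n:ℝ)/M) := by ring
          _ = ‖hh M c n (n - j)‖ * (‖c‖ ^ (n - M)) * (4 * (M : ℝ) ^ 2) ^ θ * Real.Gamma ((n:ℝ)/M + θ) := key.symm
          _ ≤ ‖hh M c n (n - j)‖ * (‖c‖ ^ (n - M)) * (4 * (M : ℝ) ^ 2) * (n * Real.Gamma ((n:ℝ)/M)) := by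
              refine mul_le_mul (mul_le_mul_of_nonneg_left hBθ (by positivity)) h1 g2.le (by positivity)
          _ = _ := by
              field_simp
      refine main.trans ?_
      have hle : (‖c‖ ^ (M - j))⁻¹ * (4 * (M:ℝ)^2) * (Real.Gamma ((j:ℝ)/M))⁻¹ ≤ C3 :=
        Finset.single_le_sum t3 (Finset.mem_Ico.mpr ⟨hj, hjM⟩)
      have : (‖c‖ ^ (M - j))⁻¹ * (4 * (M:ℝ)^2) * (Real.Gamma ((j:ℝ)/M))⁻¹ ≤ D + C2 + (D ^ J + C3) + C4 := by linarith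
      gcongr
  · intro s hs
    have hs' : (s:ℝ) + 1 ≤ M := by exact_mod_cast hs
    have hs0 : (0:ℝ) ≤ s := Nat.cast_nonneg s
    rw [p_H3_norm M n s c hM (by omega)]
    have hy1 : 1 ≤ ((n:ℝ) - s)/M := by
      rw [le_div_iff₀ hM']
      have : (2:ℝ) * M ≤ n := by exact_mod_cast hn
      linarith
    have hy0 : 0 < ((n:ℝ) - s)/M := by linarith
    have ht0 : 0 ≤ (s:ℝ)/M := by positivity
    have ht1 : (s:ℝ)/M ≤ 1 := by rw [div_le_one hM']; linarith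
    have h0 := (hH0 (((n:ℝ) - s)/M) ((s:ℝ)/M) hy0 ht0 ht1).1
    have e : ((n:ℝ) - s)/M + (s:ℝ)/M = (n:ℝ)/M := by ring
    rw [e] at h0
    have g1 := Real.Gamma_pos_of_pos hnM0
    have g2 := Real.Gamma_pos_of_pos hy0
    have g3 : 0 < Real.Gamma (1 + (s:ℝ)/M) := Real.Gamma_pos_of_pos (by positivity)
    have hq : 1 / (n:ℝ) ≤ (((n:ℝ) - s)/M) ^ (-((s:ℝ)/M)) := by
      calc 1 / (n:ℝ) ≤ 1 / (((n:ℝ) - s)/M) := by
            apply one_div_le_one_div_of_le hy0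
            calc ((n:ℝ) - s)/M ≤ (n:ℝ) - s := div_le_self (by
                  have := (div_pos_iff_of_pos_right hM').mp hy0
                  exact this.le) hM1
              _ ≤ n := by linarith
        _ = (((n:ℝ) - s)/M) ^ (-(1:ℝ)) := by rw [Real.rpow_neg hy0.le, Real.rpow_one, one_div]
        _ ≤ _ := Real.rpow_le_rpow_of_exponent_le hy1 (by linarith)
    have h1 : 1 / (n:ℝ) * Real.Gamma ((n:ℝ)/M) ≤ Real.Gamma (((n:ℝ) - s)/M) :=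
      (mul_le_mul_of_nonneg_right hq g1.le).trans h0
    have hle : (‖c‖ ^ s)⁻¹ * (4 * (M:ℝ)^2) ^ ((s:ℝ)/M) * Real.Gamma (1 + (s:ℝ)/M) ≤ C4 :=
      Finset.single_le_sum t4 (Finset.mem_range.mpr hs)
    have hB1 : 0 < (4 * (M:ℝ)^2) ^ ((s:ℝ)/M) := Real.rpow_pos_of_pos hbp _
    have hcs : 0 < ‖c‖ ^ s := by positivity
    set T : ℝ := (‖c‖ ^ s)⁻¹ * (4 * (M:ℝ)^2) ^ ((s:ℝ)/M) * Real.Gamma (1 + (s:ℝ)/M) with hT
    have hTle : T ≤ D + C2 + (D ^ J + C3) + C4 := by linarith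
    have hX : 0 ≤ ‖c‖ ^ s * ((4 * (M : ℝ) ^ 2) ^ (-((s : ℝ) / M)) * Real.Gamma (((n : ℝ) - s) / M) /
      (Real.Gamma ((n : ℝ) / M) * Real.Gamma (1 + (s : ℝ) / M))) := by
      have : 0 ≤ (4 * (M : ℝ) ^ 2) ^ (-((s : ℝ) / M)) := Real.rpow_nonneg hbp.le _
      positivity
    calc (1:ℝ) ≤ T * n * (‖c‖ ^ s * ((4 * (M : ℝ) ^ 2) ^ (-((s : ℝ) / M)) * Real.Gamma (((n : ℝ) - s) / M) /
      (Real.Gamma ((n : ℝ) / M) * Real.Gamma (1 + (s : ℝ) / M)))) := by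
          have : T * n * (‖c‖ ^ s * ((4 * (M : ℝ) ^ 2) ^ (-((s : ℝ) / M)) * Real.Gamma (((n : ℝ) - s) / M) /
            (Real.Gamma ((n : ℝ) / M) * Real.Gamma (1 + (s : ℝ) / M)))) =
            n * Real.Gamma (((n : ℝ) - s) / M) / Real.Gamma ((n : ℝ) / M) := by
            rw [hT, Real.rpow_neg hbp.le]
            field_simp
          rw [this, le_div_iff₀ g1, one_mul]
          rw [div_mul_eq_mul_div, one_mul, div_le_iff₀ hn0] at h1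
          linarith
      _ ≤ _ := by
          refine mul_le_mul_of_nonneg_right ?_ hX
          exact mul_le_mul_of_nonneg_right hTle hn0.le

end HillRoots
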