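import Pool.Agent.Lib.MP_e63cf8_mp.StmC

/-!
# MP_e63cf8_mp, piece H4
-/

set_option autoImplicit false

open Polynomial Filter Topology MeasureTheory Asymptotics

namespace HillRoots

theorem p_H4 (hH2 : S_H2) (hU4 : S_U4) : S_H4 := by
  intro P c hc
  have hlim : Tendsto (fun n : ℕ => ∑ j ∈ Finset.Ico 1 P.natDegree,
      (‖P.coeff j / c ^ j‖ * P.natDegree) * ∑ s ∈ Finset.Icc 1 (n - 1),
        (En n s) ^ (-(1 - (j : ℝ) / P.natDegree)) * (1 / (s : ℝ) + 1 / ((n : ℝ) - s))) atTop
      (𝓝 0) := by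
    have h : ∀ j ∈ Finset.Ico 1 P.natDegree, Tendsto (fun n : ℕ =>
        (‖P.coeff j / c ^ j‖ * P.natDegree) * ∑ s ∈ Finset.Icc 1 (n - 1),
        (En n s) ^ (-(1 - (j : ℝ) / P.natDegree)) * (1 / (s : ℝ) + 1 / ((n : ℝ) - s))) atTop
        (𝓝 0) := by
      intro j hj
      rw [Finset.mem_Ico] at hj
      have hM : (0 : ℝ) < P.natDegree := by
        have : 0 < P.natDegree := by omega
        exact_mod_cast this
      have hpos : 0 < 1 - (j : ℝ) / P.natDegree := by
        rw [sub_pos, div_lt_one hM]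
        exact_mod_cast hj.2
      have := (hU4 (1 - (j : ℝ) / P.natDegree) hpos).const_mul (‖P.coeff j / c ^ j‖ * P.natDegree)
      rwa [mul_zero] at this
    have := tendsto_finset_sum (Finset.Ico 1 P.natDegree) h
    rwa [Finset.sum_const_zero] at this
  refine squeeze_zero (fun n => Finset.sum_nonneg fun s _ => Finset.sum_nonneg fun j _ =>
    norm_nonneg _) (fun n => ?_) hlim
  rw [Finset.sum_comm]
  refine Finset.sum_le_sum fun j hj => ?_
  rw [Finset.mul_sum]
  refine Finset.sum_le_sum fun s hs => ?_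
  rw [Finset.mem_Ico] at hj
  rw [Finset.mem_Icc] at hs
  refine (hH2 P c n s j hc hj.1 hj.2 hs.1 (by omega)).trans_eq ?_
  ring

end HillRoots
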