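import Pool.Agent.Lib.MP_e63cf8_mp.StmC

open Polynomial Filter Topology MeasureTheory Asymptotics

namespace HillRoots

private theorem p_L1_pow (x y : ℂ) (hx : ‖x‖ ≤ 2) (hy : ‖y‖ ≤ 2) (k : ℕ) :
    ‖x ^ k - y ^ k‖ ≤ k * 2 ^ k * ‖x - y‖ := by
  induction k with
  | zero => simp
  | succ k ih =>
    have h1 : x ^ (k + 1) - y ^ (k + 1) = x * (x ^ k - y ^ k) + (x - y) * y ^ k := by ring
    rw [h1]
    refine (norm_add_le _ _).trans ?_
    rw [norm_mul, norm_mul, norm_pow]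
    have h2 : ‖x‖ * ‖x ^ k - y ^ k‖ ≤ 2 * (k * 2 ^ k * ‖x - y‖) :=
      mul_le_mul hx ih (norm_nonneg _) (by norm_num)
    have h3 : ‖x - y‖ * ‖y‖ ^ k ≤ ‖x - y‖ * 2 ^ k :=
      mul_le_mul_of_nonneg_left (pow_le_pow_left₀ (norm_nonneg _) hy k) (norm_nonneg _)
    have h4 : 0 ≤ ‖x - y‖ * 2 ^ k := by positivity
    push_cast
    rw [pow_succ]
    nlinarith

private theorem p_L1_det {n : ℕ} (A : Matrix (Fin n) (Fin n) ℂ) (x : ℝ)
    (h : ∀ i j, ‖A i j‖ ≤ x) : ‖A.det‖ ≤ n.factorial * x ^ n := by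
  have h1 := Matrix.det_le (abv := (NormedField.toAbsoluteValue ℂ)) (A := A) (x := x)
    (fun i j => h i j)
  rw [Fintype.card_fin, nsmul_eq_mul] at h1
  exact h1

theorem p_L1 : S_L1 := by
  intro M A L τ₀ K δ hL
  set B : ℝ → Matrix (Fin M) (Fin M) ℂ := fun t => Matrix.of fun i l =>
    L l t ^ (M - 1 - (i : ℕ)) with hB
  set V : ℝ → Matrix (Fin M) (Fin M) ℂ := fun t => Matrix.vandermonde fun l : Fin M => L l t
    with hV
  have hBV : ∀ t, B t = (V t).transpose.submatrix Fin.revPerm id := by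
    intro t
    ext i l
    simp only [hB, hV, Matrix.of_apply, Matrix.submatrix_apply, Matrix.transpose_apply,
      Matrix.vandermonde_apply, id, Fin.revPerm_apply, Fin.val_rev]
    congr 1
    omega
  have hdet : ∀ t, ‖(B t).det‖ = ‖(V t).det‖ := by
    intro t
    rw [hBV, Matrix.det_permute, Matrix.det_transpose, norm_mul]
    have h1 : ‖((Equiv.Perm.sign (Fin.revPerm : Equiv.Perm (Fin M)) : ℤ) : ℂ)‖ = 1 := by
      rcases Int.units_eq_one_or (Equiv.Perm.sign (Fin.revPerm : Equiv.Perm (Fin M))) with h | h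
        <;> rw [h] <;> simp
    rw [h1, one_mul]
  set c₀ : ℝ := ∏ i : Fin M, ∏ _j ∈ Finset.Ioi i, δ with hc₀
  have hc₀pos : 0 < c₀ := Finset.prod_pos fun i _ => Finset.prod_pos fun j _ => hL.hδ
  have hdet2 : ∀ t ∈ Set.Icc 0 τ₀, c₀ ≤ ‖(B t).det‖ := by
    intro t ht
    rw [hdet, hV, Matrix.det_vandermonde, norm_prod, hc₀]
    refine Finset.prod_le_prod (fun i _ => Finset.prod_nonneg fun j _ => hL.hδ.le) fun i _ => ?_
    rw [norm_prod]
    refine Finset.prod_le_prod (fun j _ => hL.hδ.le) fun j hj => ?_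
    refine hL.sep j j.2 i i.2 ?_ t ht
    have h1 := Finset.mem_Ioi.1 hj
    exact fun h => (ne_of_gt h1) (Fin.ext h)
  have hB2 : ∀ t ∈ Set.Icc 0 τ₀, ∀ i l, ‖B t i l‖ ≤ 2 ^ M := by
    intro t ht i l
    simp only [hB, Matrix.of_apply, norm_pow]
    calc ‖L l t‖ ^ (M - 1 - (i : ℕ)) ≤ 2 ^ (M - 1 - (i : ℕ)) :=
          pow_le_pow_left₀ (norm_nonneg _) (hL.upp l l.2 t ht) _
      _ ≤ 2 ^ M := pow_le_pow_right₀ (by norm_num) (by omega)
  set C₁ : ℝ := c₀⁻¹ * (M.factorial * (2 ^ M + 1) ^ M) with hC₁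
  set C₂ : ℝ := M * 2 ^ M * |K| with hC₂
  set C₃ : ℝ := ∑ j ∈ Finset.Ico 1 M, ‖A j‖ * τ₀ ^ (M - j) with hC₃
  have hC₁0 : 0 ≤ C₁ := by positivity
  have hC₂0 : 0 ≤ C₂ := by positivity
  have hτ := hL.ht
  have hC₃0 : 0 ≤ C₃ := Finset.sum_nonneg fun j _ => by positivity
  have h2M : (0 : ℝ) < 2 ^ M := by positivity
  refine ⟨2 ^ M + C₁ + C₂ + C₃, B, fun t => (B t)⁻¹, by positivity, fun t ht => ?_⟩
  have hne : (B t).det ≠ 0 := by
    have h1 := hdet2 t ht
    intro h0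
    rw [h0, norm_zero] at h1
    linarith
  have hu : IsUnit (B t).det := isUnit_iff_ne_zero.2 hne
  refine ⟨Matrix.mul_nonsing_inv _ hu, Matrix.nonsing_inv_mul _ hu, fun i l => rfl,
    fun i l => (hB2 t ht i l).trans (by linarith), fun i l => ?_, fun t' ht' i l => ?_,
    fun j hj => ?_⟩
  · have h1 : ‖(B t)⁻¹ i l‖ ≤ C₁ := by
      rw [Matrix.inv_def, Matrix.smul_apply, smul_eq_mul, norm_mul, Ring.inverse_eq_inv,
        norm_inv, hC₁]
      refine mul_le_mul (inv_anti₀ hc₀pos (hdet2 t ht)) ?_ (norm_nonneg _) (by positivity)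
      rw [Matrix.adjugate_apply]
      refine p_L1_det _ _ fun a b => ?_
      rw [Matrix.updateRow_apply]
      split_ifs with h
      · by_cases hb : b = i
        · subst hb
          simp
        · rw [Pi.single_eq_of_ne hb]
          simp
          positivity
      · exact (hB2 t ht a b).trans (by linarith)
    linarith
  · have h1 : ‖B t i l - B t' i l‖ ≤ C₂ * |t - t'| := by
      simp only [hB, Matrix.of_apply]
      refine (p_L1_pow _ _ (hL.upp l l.2 t ht) (hL.upp l l.2 t' ht') _).trans ?_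
      have h2 := hL.lip l l.2 t ht t' ht'
      have h3 : ((M - 1 - (i : ℕ) : ℕ) : ℝ) ≤ M := by
        exact_mod_cast (by omega : M - 1 - (i : ℕ) ≤ M)
      have h4 : (2 : ℝ) ^ (M - 1 - (i : ℕ)) ≤ 2 ^ M :=
        pow_le_pow_right₀ (by norm_num) (by omega)
      have h5 : ‖L l t - L l t'‖ ≤ |K| * |t - t'| :=
        h2.trans (mul_le_mul_of_nonneg_right (le_abs_self K) (abs_nonneg _))
      calc ((M - 1 - (i : ℕ) : ℕ) : ℝ) * 2 ^ (M - 1 - (i : ℕ)) * ‖L l t - L l t'‖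
          ≤ M * 2 ^ M * (|K| * |t - t'|) := by gcongr
        _ = C₂ * |t - t'| := by rw [hC₂]; ring
    refine h1.trans (mul_le_mul_of_nonneg_right ?_ (abs_nonneg _))
    linarith
  · have h1 : ‖A j * (t : ℂ) ^ (M - j)‖ ≤ C₃ := by
      rw [norm_mul, norm_pow, Complex.norm_real, Real.norm_eq_abs, abs_of_nonneg ht.1]
      calc ‖A j‖ * t ^ (M - j) ≤ ‖A j‖ * τ₀ ^ (M - j) :=
            mul_le_mul_of_nonneg_left (pow_le_pow_left₀ ht.1 ht.2 _) (norm_nonneg _)
        _ ≤ C₃ := Finset.single_le_sum (f := fun j => ‖A j‖ * τ₀ ^ (M - j))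
            (fun j _ => by positivity) hj
    linarith

end HillRoots
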