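import Pool.Agent.Lib.MP_e63cf8_mp.StmC

open Polynomial Filter Topology MeasureTheory Asymptotics Matrix

namespace HillRoots

private theorem p_L2_mv {N : ℕ} (B : Matrix (Fin N) (Fin N) ℂ) (C : ℝ) (hC : 0 ≤ C)
    (hB : ∀ i l, ‖B i l‖ ≤ C) (X : Fin N → ℂ) : ‖B *ᵥ X‖ ≤ N * C * ‖X‖ := by
  rw [pi_norm_le_iff_of_nonneg (by positivity)]
  intro i
  have h1 : ‖(B *ᵥ X) i‖ ≤ ∑ l : Fin N, C * ‖X‖ := by
    have h0 : (B *ᵥ X) i = ∑ l, B i l * X l := rfl
    rw [h0]
    refine (norm_sum_le _ _).trans (Finset.sum_le_sum fun l _ => ?_)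
    rw [norm_mul]
    exact mul_le_mul (hB i l) (norm_le_pi_norm X l) (norm_nonneg _) hC
  rw [Finset.sum_const, Finset.card_univ, Fintype.card_fin, nsmul_eq_mul] at h1
  rw [mul_assoc]
  exact h1

private theorem p_L2_step {m : ℕ} (C a h : ℝ) (hC : 0 < C) (ha : 0 ≤ a) (hh : 0 ≤ h)
    (B B' Bi T : Matrix (Fin (m + 1)) (Fin (m + 1)) ℂ) (lam : Fin (m + 1) → ℂ)
    (X : Fin (m + 1) → ℂ) (ρ : ℂ) (hBi : Bi * B = 1) (hTB : T * B = B * Matrix.diagonal lam)
    (hlam : ∀ l, ‖lam l‖ ≤ a) (b1 : ∀ i l, ‖Bi i l‖ ≤ C) (b2 : ∀ i l, ‖T i l‖ ≤ C + 1)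
    (b3 : ∀ i l, ‖B' i l - B i l‖ ≤ C * h) :
    ‖Bi *ᵥ (T *ᵥ (B' *ᵥ X) + Pi.single 0 ρ)‖ ≤
      a * ‖X‖ + ((m + 1 : ℕ) * C) * (((m + 1 : ℕ) * (C + 1)) * (((m + 1 : ℕ) * (C * h)) * ‖X‖)) +
        ((m + 1 : ℕ) * C) * ‖ρ‖ := by
  have e1 : B' *ᵥ X = B *ᵥ X + (B' - B) *ᵥ X := by
    rw [Matrix.sub_mulVec]; abel
  have e2 : Bi *ᵥ (T *ᵥ (B' *ᵥ X) + Pi.single 0 ρ) =
      (Matrix.diagonal lam) *ᵥ X + Bi *ᵥ (T *ᵥ ((B' - B) *ᵥ X)) + Bi *ᵥ (Pi.single 0 ρ) := by
    rw [e1, Matrix.mulVec_add, Matrix.mulVec_add, Matrix.mulVec_add]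
    rw [Matrix.mulVec_mulVec X T B, hTB, Matrix.mulVec_mulVec X Bi, ← Matrix.mul_assoc, hBi,
      Matrix.one_mul]
  rw [e2]
  have n1 : ‖(Matrix.diagonal lam) *ᵥ X‖ ≤ a * ‖X‖ := by
    rw [pi_norm_le_iff_of_nonneg (by positivity)]
    intro i
    rw [Matrix.mulVec_diagonal, norm_mul]
    exact mul_le_mul (hlam i) (norm_le_pi_norm X i) (norm_nonneg _) ha
  have n2 : ‖Bi *ᵥ (T *ᵥ ((B' - B) *ᵥ X))‖ ≤
      ((m + 1 : ℕ) * C) * (((m + 1 : ℕ) * (C + 1)) * (((m + 1 : ℕ) * (C * h)) * ‖X‖)) := by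
    refine (p_L2_mv Bi C hC.le b1 _).trans ?_
    refine mul_le_mul_of_nonneg_left ?_ (by positivity)
    refine (p_L2_mv T (C + 1) (by positivity) b2 _).trans ?_
    refine mul_le_mul_of_nonneg_left ?_ (by positivity)
    exact p_L2_mv (B' - B) (C * h) (by positivity) (fun i l => by simpa using b3 i l) X
  have n3 : ‖Bi *ᵥ (Pi.single 0 ρ)‖ ≤ ((m + 1 : ℕ) * C) * ‖ρ‖ := by
    refine (p_L2_mv Bi C hC.le b1 _).trans ?_
    refine mul_le_mul_of_nonneg_left ?_ (by positivity)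
    rw [pi_norm_le_iff_of_nonneg (norm_nonneg _)]
    intro i
    by_cases hi : i = 0
    · subst hi; simp
    · simp [hi]
  exact (norm_add_le _ _).trans (add_le_add ((norm_add_le _ _).trans (add_le_add n1 n2)) n3)

/-- companion matrix -/
private noncomputable def p_L2_T (m : ℕ) (a : ℕ → ℂ) (i l : Fin (m + 1)) : ℂ :=
  if (i : ℕ) = 0 then (if (l : ℕ) = m then 1 else a (l + 1)) else
    (if (l : ℕ) + 1 = i then 1 else 0)

private theorem p_L2_row0 (m : ℕ) (a : ℕ → ℂ) (x : ℕ → ℂ) :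
    ∑ l : Fin (m + 1), p_L2_T m a 0 l * x l = ∑ j ∈ Finset.Ico 1 (m + 1), a j * x (j - 1) + x m := by
  have h1 : ∑ l : Fin (m + 1), p_L2_T m a 0 l * x l =
      ∑ l ∈ Finset.range (m + 1), (if l = m then 1 else a (l + 1)) * x l := by
    rw [← Fin.sum_univ_eq_sum_range (fun l => (if l = m then 1 else a (l + 1)) * x l)]
    simp [p_L2_T]
  rw [h1, Finset.sum_range_succ, if_pos rfl, one_mul, Finset.sum_Ico_eq_sum_range]
  congr 1
  refine Finset.sum_congr (by simp) fun l hl => ?_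
  have hl' : l ≠ m := by
    simp at hl; omega
  rw [if_neg hl', add_comm 1 l]
  simp

private theorem p_L2_rowi (m : ℕ) (a : ℕ → ℂ) (x : ℕ → ℂ) (i : Fin (m + 1)) (hi : (i : ℕ) ≠ 0) :
    ∑ l : Fin (m + 1), p_L2_T m a i l * x l = x (i - 1) := by
  rw [Finset.sum_eq_single (⟨i - 1, by omega⟩ : Fin (m + 1))]
  · simp only [p_L2_T, if_neg hi]
    rw [if_pos (by omega), one_mul]
  · intro b _ hb
    simp only [p_L2_T, if_neg hi]
    rw [if_neg, zero_mul]
    intro h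
    apply hb
    ext
    simp only
    omega
  · simp

theorem p_L2 (hL1 : S_L1) : S_L2 := by
  intro M A L τ₀ K δ hD
  obtain ⟨C, B, Bi, hC, hB⟩ := hL1 M A L τ₀ K δ hD
  obtain ⟨m, rfl⟩ : ∃ m, M = m + 1 := ⟨M - 1, by have := hD.hM; omega⟩
  set n : ℝ := ((m + 1 : ℕ) : ℝ) with hn
  have hn0 : 0 < n := by rw [hn]; positivity
  set C1 : ℝ := (n * C) * ((n * (C + 1)) * (n * C)) with hC1
  set C2 : ℝ := (n * C) * (n * C) with hC2
  have hC1p : 0 < C1 := by rw [hC1]; positivity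
  have hC2p : 0 < C2 := by rw [hC2]; positivity
  refine ⟨(n * C) * ((n * C) * Real.exp (2 * C1 + 2 * C2)), by positivity, ?_⟩
  intro N t f d r ht0 ht hsum1 hsum2 hd0 hrec
  -- vectors
  set D : ℕ → Fin (m + 1) → ℂ := fun k i => d ((k : ℤ) - (i : ℕ)) with hDdef
  set X : ℕ → Fin (m + 1) → ℂ := fun k => Bi (t k) *ᵥ D k with hX
  set dl : ℕ → ℝ := fun k => ∑ j ∈ Finset.Ico 1 (m + 1), ‖f k j - A j * (t k : ℂ) ^ (m + 1 - j)‖ with hdl
  set η : ℕ → ℝ := fun k => 2 * C1 * |t k - t (k - 1)| + 2 * C2 * dl k with hη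
  set G : ℕ → ℝ := fun k => ∏ i ∈ Finset.Icc 1 k, ‖L 0 (t i)‖ with hG
  have hdl0 : ∀ k, 0 ≤ dl k := fun k => Finset.sum_nonneg fun _ _ => norm_nonneg _
  have hη0 : ∀ k, 0 ≤ η k := fun k => by
    have := hdl0 k
    simp only [hη]; positivity
  have hDX : ∀ k ≤ N, B (t k) *ᵥ X k = D k := by
    intro k hk
    simp only [hX]
    rw [Matrix.mulVec_mulVec, (hB (t k) (ht k hk)).1, Matrix.one_mulVec]
  have hL0 : ∀ k ≤ N, 1 / 2 ≤ ‖L 0 (t k)‖ := fun k hk => hD.low 0 (by omega) _ (ht k hk)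
  have hGpos : ∀ k ≤ N, 0 < G k := by
    intro k hk
    apply Finset.prod_pos
    intro i hi
    have := hL0 i ((Finset.mem_Icc.1 hi).2.trans hk)
    linarith
  have hDbd : ∀ k ≤ N, ∀ i, ‖D k i‖ ≤ n * C * ‖X k‖ := by
    intro k hk i
    have h1 := p_L2_mv (B (t k)) C hC.le (hB (t k) (ht k hk)).2.2.2.1 (X k)
    rw [hDX k hk] at h1
    exact (norm_le_pi_norm _ i).trans h1
  -- the step
  have hstep : ∀ k, k + 1 ≤ N → ‖X (k + 1)‖ ≤
      ‖L 0 (t (k + 1))‖ * (1 + η (k + 1)) * ‖X k‖ + n * C * ‖r (k + 1)‖ := by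
    intro k hk
    have hk' : k ≤ N := by omega
    have htk := ht (k + 1) hk
    have htk' := ht k hk'
    obtain ⟨q1, q2, q3, q4, q5, q6, q7⟩ := hB (t (k + 1)) htk
    set a0 : ℕ → ℂ := fun j => A j * (t (k + 1) : ℂ) ^ (m + 1 - j) with ha0
    set T : Matrix (Fin (m + 1)) (Fin (m + 1)) ℂ := Matrix.of (p_L2_T m a0) with hT
    set ρ : ℂ := r (k + 1) + ∑ j ∈ Finset.Ico 1 (m + 1),
      (f (k + 1) j - A j * (t (k + 1) : ℂ) ^ (m + 1 - j)) * d (((k + 1 : ℕ) : ℤ) - j) with hρ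
    have hTB : T * B (t (k + 1)) = B (t (k + 1)) * Matrix.diagonal (fun l : Fin (m + 1) => L l (t (k + 1))) := by
      ext i l
      rw [Matrix.mul_apply, Matrix.mul_diagonal]
      have e0 : ∑ j, T i j * B (t (k + 1)) j l = ∑ j : Fin (m + 1), p_L2_T m a0 i j *
          (fun j : ℕ => L l (t (k + 1)) ^ (m - j)) j := by
        refine Finset.sum_congr rfl fun j _ => ?_
        rw [q3]
        simp [hT]
      rw [e0, q3]
      by_cases hi : (i : ℕ) = 0
      · have hi' : i = 0 := by ext; simpa using hi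
        subst hi'
        rw [p_L2_row0 m a0 (fun j : ℕ => L l (t (k + 1)) ^ (m - j))]
        have e1 := hD.eqn l l.2 _ htk
        simp only [Fin.val_zero, Nat.sub_zero, Nat.sub_self, pow_zero, Nat.add_sub_cancel]
        rw [← pow_succ, e1, add_comm]
        congr 1
        refine Finset.sum_congr rfl fun j hj => ?_
        have := Finset.mem_Ico.1 hj
        congr 2
        omega
      · rw [p_L2_rowi m a0 (fun j : ℕ => L l (t (k + 1)) ^ (m - j)) i hi]
        have := i.2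
        rw [← pow_succ]
        congr 1
        omega
    have hDrec : D (k + 1) = T *ᵥ (B (t k) *ᵥ X k) + Pi.single 0 ρ := by
      rw [hDX k hk']
      ext i
      have e0 : (T *ᵥ D k) i = ∑ j : Fin (m + 1), p_L2_T m a0 i j *
          (fun j : ℕ => d ((k : ℤ) - (j : ℕ))) j := rfl
      rw [Pi.add_apply, e0]
      by_cases hi : (i : ℕ) = 0
      · have hi' : i = 0 := by ext; simpa using hi
        subst hi'
        rw [p_L2_row0 m a0 (fun j : ℕ => d ((k : ℤ) - (j : ℕ))), Pi.single_eq_same]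
        simp only [hDdef, Fin.val_zero, Nat.cast_zero, sub_zero]
        rw [hrec (k + 1) (by omega) hk, hρ]
        have e1 : ∑ j ∈ Finset.Ico 1 (m + 1), f (k + 1) j * d (((k + 1 : ℕ) : ℤ) - j) =
            ∑ j ∈ Finset.Ico 1 (m + 1), A j * (t (k + 1) : ℂ) ^ (m + 1 - j) *
              d ((k : ℤ) - ((j - 1 : ℕ) : ℤ)) +
            ∑ j ∈ Finset.Ico 1 (m + 1),
              (f (k + 1) j - A j * (t (k + 1) : ℂ) ^ (m + 1 - j)) * d (((k + 1 : ℕ) : ℤ) - j) := by
          rw [← Finset.sum_add_distrib]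
          refine Finset.sum_congr rfl fun j hj => ?_
          have hj' := Finset.mem_Ico.1 hj
          have : (k : ℤ) - ((j - 1 : ℕ) : ℤ) = ((k + 1 : ℕ) : ℤ) - j := by
            push_cast [Nat.cast_sub hj'.1]; ring
          rw [this]
          ring
        rw [e1]
        have e2 : ((k + 1 : ℕ) : ℤ) - ((m + 1 : ℕ) : ℤ) = (k : ℤ) - (m : ℤ) := by
          push_cast; ring
        rw [e2]
        ring
      · rw [p_L2_rowi m a0 (fun j : ℕ => d ((k : ℤ) - (j : ℕ))) i hi, Pi.single_eq_of_ne (by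
          intro h; apply hi; rw [h]; rfl), add_zero]
        simp only [hDdef]
        congr 1
        have : 1 ≤ (i : ℕ) := by omega
        push_cast [Nat.cast_sub this]
        ring
    have hTbd : ∀ i l, ‖T i l‖ ≤ C + 1 := by
      intro i l
      simp only [hT, Matrix.of_apply, p_L2_T]
      split_ifs with h1 h2 h3
      · simp only [norm_one]; linarith
      · have := q7 (l + 1) (Finset.mem_Ico.2 ⟨by omega, by have := l.2; omega⟩)
        linarith
      · simp only [norm_one]; linarith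
      · simp only [norm_zero]; linarith
    have h1 := p_L2_step C ‖L 0 (t (k + 1))‖ |t (k + 1) - t k| hC (norm_nonneg _) (abs_nonneg _)
      (B (t (k + 1))) (B (t k)) (Bi (t (k + 1))) T (fun l : Fin (m + 1) => L l (t (k + 1)))
      (X k) ρ q2 hTB (fun l => hD.dom l l.2 _ htk) q5 hTbd (fun i l => by
        rw [norm_sub_rev]; exact q6 (t k) htk' i l)
    rw [← hDrec] at h1
    have h2 : ‖ρ‖ ≤ ‖r (k + 1)‖ + dl (k + 1) * (n * C * ‖X k‖) := by
      rw [hρ]
      refine (norm_add_le _ _).trans (add_le_add le_rfl ?_)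
      simp only [hdl]
      rw [Finset.sum_mul]
      refine (norm_sum_le _ _).trans (Finset.sum_le_sum fun j hj => ?_)
      rw [norm_mul]
      refine mul_le_mul_of_nonneg_left ?_ (norm_nonneg _)
      have hj' := Finset.mem_Ico.1 hj
      have := hDbd k hk' ⟨j - 1, by omega⟩
      simp only [hDdef] at this
      have e3 : (k : ℤ) - ((j - 1 : ℕ) : ℤ) = ((k + 1 : ℕ) : ℤ) - j := by
        push_cast [Nat.cast_sub hj'.1]; ring
      rw [e3] at this
      exact this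
    have h3 : ‖X (k + 1)‖ = ‖Bi (t (k + 1)) *ᵥ D (k + 1)‖ := rfl
    rw [h3]
    refine h1.trans ?_
    have h4 := hL0 (k + 1) hk
    have h5 : (n * C) * ‖ρ‖ ≤ (n * C) * (‖r (k + 1)‖ + dl (k + 1) * (n * C * ‖X k‖)) :=
      mul_le_mul_of_nonneg_left h2 (by positivity)
    have h6 : (1 : ℝ) ≤ 2 * ‖L 0 (t (k + 1))‖ := by linarith
    have h7 : C1 * |t (k + 1) - t k| * ‖X k‖ ≤
        2 * ‖L 0 (t (k + 1))‖ * (C1 * |t (k + 1) - t k| * ‖X k‖) := by
      have : 0 ≤ C1 * |t (k + 1) - t k| * ‖X k‖ := by positivity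
      nlinarith
    have h8 : C2 * dl (k + 1) * ‖X k‖ ≤
        2 * ‖L 0 (t (k + 1))‖ * (C2 * dl (k + 1) * ‖X k‖) := by
      have : 0 ≤ C2 * dl (k + 1) * ‖X k‖ := by
        have := hdl0 (k + 1)
        positivity
      nlinarith
    simp only [hη, Nat.add_sub_cancel]
    rw [← hn]
    rw [hC1] at h7 ⊢
    rw [hC2] at h8 ⊢
    nlinarith
  -- Gronwall
  have hmain : ∀ k ≤ N, ‖X k‖ ≤ G k * (n * C * ((∏ i ∈ Finset.Icc 1 k, (1 + η i)) *
      ∑ i ∈ Finset.Icc 1 k, ‖r i‖ / G i)) := by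
    intro k
    induction k with
    | zero =>
      intro _
      have : D 0 = 0 := by
        ext i
        simp only [hDdef, Pi.zero_apply]
        apply hd0
        simp
      simp only [hX]
      rw [this]
      simp
    | succ k ih =>
      intro hk
      have ih' := ih (by omega)
      have h1 := hstep k hk
      have hG1 : G (k + 1) = G k * ‖L 0 (t (k + 1))‖ := by
        simp only [hG]
        rw [Finset.prod_Icc_succ_top (by omega)]
      have hP1 : ∏ i ∈ Finset.Icc 1 (k + 1), (1 + η i) =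
          (∏ i ∈ Finset.Icc 1 k, (1 + η i)) * (1 + η (k + 1)) := by
        rw [Finset.prod_Icc_succ_top (by omega)]
      have hS1 : ∑ i ∈ Finset.Icc 1 (k + 1), ‖r i‖ / G i =
          ∑ i ∈ Finset.Icc 1 k, ‖r i‖ / G i + ‖r (k + 1)‖ / G (k + 1) := by
        rw [Finset.sum_Icc_succ_top (by omega)]
      have hPge : 1 ≤ ∏ i ∈ Finset.Icc 1 (k + 1), (1 + η i) := by
        have h9 : ∏ _i ∈ Finset.Icc 1 (k + 1), (1 : ℝ) ≤ ∏ i ∈ Finset.Icc 1 (k + 1), (1 + η i) := by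
          apply Finset.prod_le_prod
          · intro i _; exact zero_le_one
          · intro i _
            have := hη0 i
            linarith
        rwa [Finset.prod_const_one] at h9
      have hGp := hGpos (k + 1) hk
      have hr : n * C * ‖r (k + 1)‖ ≤ G (k + 1) * (n * C *
          ((∏ i ∈ Finset.Icc 1 (k + 1), (1 + η i)) * (‖r (k + 1)‖ / G (k + 1)))) := by
        have e : G (k + 1) * (n * C *
          ((∏ i ∈ Finset.Icc 1 (k + 1), (1 + η i)) * (‖r (k + 1)‖ / G (k + 1)))) =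
          (∏ i ∈ Finset.Icc 1 (k + 1), (1 + η i)) * (n * C * ‖r (k + 1)‖) := by
          field_simp
        rw [e]
        have : 0 ≤ n * C * ‖r (k + 1)‖ := by positivity
        nlinarith
      have hx : ‖L 0 (t (k + 1))‖ * (1 + η (k + 1)) * ‖X k‖ ≤
          G (k + 1) * (n * C * ((∏ i ∈ Finset.Icc 1 (k + 1), (1 + η i)) *
            ∑ i ∈ Finset.Icc 1 k, ‖r i‖ / G i)) := by
        rw [hG1, hP1]
        have h0 : 0 ≤ ‖L 0 (t (k + 1))‖ * (1 + η (k + 1)) := by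
          have := hη0 (k + 1)
          positivity
        refine (mul_le_mul_of_nonneg_left ih' h0).trans (le_of_eq ?_)
        ring
      rw [hS1]
      calc ‖X (k + 1)‖ ≤ _ := h1
        _ ≤ _ := add_le_add hx hr
        _ = _ := by ring
  intro k hk
  have hP : ∏ i ∈ Finset.Icc 1 k, (1 + η i) ≤ Real.exp (2 * C1 + 2 * C2) := by
    have h1 : ∏ i ∈ Finset.Icc 1 k, (1 + η i) ≤ ∏ i ∈ Finset.Icc 1 k, Real.exp (η i) := by
      apply Finset.prod_le_prod
      · intro i _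
        have := hη0 i
        linarith
      · intro i _
        rw [add_comm]
        exact Real.add_one_le_exp _
    refine h1.trans ?_
    rw [← Real.exp_sum]
    apply Real.exp_le_exp.2
    have h2 : ∑ i ∈ Finset.Icc 1 k, η i ≤ ∑ i ∈ Finset.Icc 1 N, η i := by
      apply Finset.sum_le_sum_of_subset_of_nonneg
      · exact Finset.Icc_subset_Icc le_rfl hk
      · intro i _ _
        exact hη0 i
    refine h2.trans ?_
    simp only [hη]
    rw [Finset.sum_add_distrib, ← Finset.mul_sum, ← Finset.mul_sum]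
    have h3 : ∑ i ∈ Finset.Icc 1 N, dl i ≤ 1 := hsum2
    nlinarith
  have h1 := hDbd k hk 0
  have h2 : D k 0 = d k := by
    simp only [hDdef, Fin.val_zero, Nat.cast_zero, sub_zero]
  rw [h2] at h1
  refine h1.trans ?_
  have h3 := hmain k hk
  have hS0 : 0 ≤ ∑ i ∈ Finset.Icc 1 k, ‖r i‖ / G i := by
    apply Finset.sum_nonneg
    intro i hi
    have := hGpos i ((Finset.mem_Icc.1 hi).2.trans hk)
    positivity
  have hGk := hGpos k hk
  have h4 : (∏ i ∈ Finset.Icc 1 k, (1 + η i)) * ∑ i ∈ Finset.Icc 1 k, ‖r i‖ / G i ≤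
      Real.exp (2 * C1 + 2 * C2) * ∑ i ∈ Finset.Icc 1 k, ‖r i‖ / G i :=
    mul_le_mul_of_nonneg_right hP hS0
  calc n * C * ‖X k‖ ≤ n * C * (G k * (n * C * ((∏ i ∈ Finset.Icc 1 k, (1 + η i)) *
      ∑ i ∈ Finset.Icc 1 k, ‖r i‖ / G i))) := mul_le_mul_of_nonneg_left h3 (by positivity)
    _ ≤ n * C * (G k * (n * C * (Real.exp (2 * C1 + 2 * C2) *
      ∑ i ∈ Finset.Icc 1 k, ‖r i‖ / G i))) := by
        refine mul_le_mul_of_nonneg_left ?_ (by positivity)
        refine mul_le_mul_of_nonneg_left ?_ hGk.le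
        exact mul_le_mul_of_nonneg_left h4 (by positivity)
    _ = _ := by ring

end HillRoots
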