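import Pool.Agent.Lib.MP_e63cf8_mp.StmC

/-!
# MP_e63cf8_mp: piece L3
-/

open Polynomial Filter Topology MeasureTheory Asymptotics
open scoped ContDiff

namespace HillRoots

/-- the products of the shifted factors -/
private noncomputable def p_L3_z (M : ℕ) (L : ℕ → ℝ → ℂ) (t : ℕ → ℝ) (l n : ℕ) : ℂ :=
  ∏ i ∈ Finset.range n, L l (t (i + 1 - M))

private theorem p_L3_om {M n : ℕ} (hM : 1 ≤ M) (h1 : 1 ≤ n) (h2 : n < M) :
    ∑ l ∈ Finset.range M, (om M ^ l) ^ n = 0 := by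
  have hp : IsPrimitiveRoot (om M) M := Complex.isPrimitiveRoot_exp M (by omega)
  have hne : om M ^ n - 1 ≠ 0 := by
    rw [sub_ne_zero]
    intro h
    have := (hp.pow_eq_one_iff_dvd n).1 h
    have := Nat.le_of_dvd (by omega) this
    omega
  have e : ∀ l, (om M ^ l) ^ n = (om M ^ n) ^ l := fun l => by rw [← pow_mul, ← pow_mul, mul_comm]
  simp only [e]
  have h3 := mul_geom_sum (om M ^ n) M
  rw [← pow_mul, mul_comm n M, pow_mul, hp.pow_eq_one, one_pow, sub_self] at h3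
  rcases mul_eq_zero.1 h3 with h | h
  · exact absurd h hne
  · exact h

private theorem p_L3_low {M : ℕ} {L : ℕ → ℝ → ℂ} {t : ℕ → ℝ} (ht : t 0 = 0) {l : ℕ}
    (hz : L l 0 = om M ^ l) {n : ℕ} (hn : n ≤ M) : p_L3_z M L t l n = (om M ^ l) ^ n := by
  unfold p_L3_z
  rw [Finset.prod_congr rfl (g := fun _ => om M ^ l), Finset.prod_const, Finset.card_range]
  intro i hi
  rw [Finset.mem_range] at hi
  have : i + 1 - M = 0 := by omega
  rw [this, ht, hz]

private theorem p_L3_high {M : ℕ} (hM : 1 ≤ M) {L : ℕ → ℝ → ℂ} {t : ℕ → ℝ} (ht : t 0 = 0) {l : ℕ}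
    (hz : L l 0 = om M ^ l) (s : ℕ) :
    p_L3_z M L t l (M + s) = ∏ i ∈ Finset.Icc 1 s, L l (t i) := by
  have hp : IsPrimitiveRoot (om M) M := Complex.isPrimitiveRoot_exp M (by omega)
  have h1 := p_L3_low (L := L) ht hz (le_refl M)
  unfold p_L3_z at h1 ⊢
  rw [Finset.prod_range_add, h1, ← pow_mul, mul_comm l M, pow_mul, hp.pow_eq_one, one_pow,
    one_mul, Finset.range_eq_Ico, Finset.prod_Ico_eq_prod_range, Nat.sub_zero]
  have e : Finset.Icc 1 s = Finset.Ico 1 (s + 1) := by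
    ext i
    rw [Finset.mem_Icc, Finset.mem_Ico]
    omega
  rw [e, Finset.prod_Ico_eq_prod_range, Nat.add_sub_cancel]
  refine Finset.prod_congr rfl fun i _ => ?_
  congr 2
  omega

private theorem p_L3_prod (a : ℕ → ℂ) (b : ℂ) (ε : ℝ) (hε : 0 ≤ ε) (hb : ‖b‖ ≤ 2) (m : ℕ)
    (ha : ∀ i < m, ‖a i‖ ≤ 2) (hab : ∀ i < m, ‖a i - b‖ ≤ ε) :
    ‖∏ i ∈ Finset.range m, a i - b ^ m‖ ≤ m * 2 ^ m * ε := by
  induction m with
  | zero => simp
  | succ m ih =>
    have h1 := ih (fun i hi => ha i (by omega)) (fun i hi => hab i (by omega))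
    have h2 := ha m (by omega)
    have h3 := hab m (by omega)
    have e : ∏ i ∈ Finset.range (m + 1), a i - b ^ (m + 1) =
        (∏ i ∈ Finset.range m, a i - b ^ m) * a m + b ^ m * (a m - b) := by
      rw [Finset.prod_range_succ]
      ring
    rw [e]
    have h4 : ‖b ^ m‖ ≤ 2 ^ m := by
      rw [norm_pow]
      exact pow_le_pow_left₀ (norm_nonneg _) hb m
    calc ‖(∏ i ∈ Finset.range m, a i - b ^ m) * a m + b ^ m * (a m - b)‖
        ≤ ‖∏ i ∈ Finset.range m, a i - b ^ m‖ * ‖a m‖ + ‖b ^ m‖ * ‖a m - b‖ := by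
          refine (norm_add_le _ _).trans ?_
          rw [norm_mul, norm_mul]
      _ ≤ (m * 2 ^ m * ε) * 2 + 2 ^ m * ε := by
          refine add_le_add (mul_le_mul h1 h2 (norm_nonneg _) (by positivity))
            (mul_le_mul h4 h3 (norm_nonneg _) (by positivity))
      _ ≤ ((m + 1 : ℕ) : ℝ) * 2 ^ (m + 1) * ε := by
          push_cast
          have : 0 ≤ 2 ^ m * ε := by positivity
          rw [pow_succ]
          nlinarith

private theorem p_L3_var (t : ℕ → ℝ) {a b : ℕ} (hab : a ≤ b) :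
    |t a - t b| ≤ ∑ i ∈ Finset.Ioc a b, |t i - t (i - 1)| := by
  induction b, hab using Nat.le_induction with
  | base => simp
  | succ b hb ih =>
    rw [Finset.sum_Ioc_succ_top hb, Nat.add_sub_cancel]
    have h1 : t a - t (b + 1) = (t a - t b) - (t (b + 1) - t b) := by ring
    rw [h1]
    exact (abs_sub _ _).trans (add_le_add ih le_rfl)

theorem p_L3 : S_L3 := by
  intro M A L τ₀ K δ hL
  have hM := hL.hM
  obtain ⟨Sa, hSa⟩ : ∃ Sa : ℝ, Sa = ∑ j ∈ Finset.Ico 1 M, ‖A j‖ * τ₀ ^ (M - j) := ⟨_, rfl⟩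
  have hSa0 : 0 ≤ Sa := by
    rw [hSa]
    exact Finset.sum_nonneg fun j _ => mul_nonneg (norm_nonneg _) (pow_nonneg hL.ht.le _)
  refine ⟨4 ^ M + 2 ^ M * ((1 + Sa) * (M * 2 ^ M * |K|)), by positivity, ?_⟩
  intro N t f y ht0 htI hyneg hy k hk1 hkN
  -- names
  obtain ⟨V, hV⟩ : ∃ V : ℝ, V = ∑ i ∈ Finset.Ioc (k - M) k, |t i - t (i - 1)| := ⟨_, rfl⟩
  obtain ⟨G, hG⟩ : ∃ G : ℝ, G = ∏ i ∈ Finset.Icc 1 k, ‖L 0 (t i)‖ := ⟨_, rfl⟩
  have hV0 : 0 ≤ V := by
    rw [hV]
    exact Finset.sum_nonneg fun i _ => abs_nonneg _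
  have hG0 : 0 ≤ G := by
    rw [hG]
    exact Finset.prod_nonneg fun i _ => norm_nonneg _
  rw [← hV, ← hG]
  obtain ⟨z, hz⟩ : ∃ z : ℕ → ℕ → ℂ, z = p_L3_z M L t := ⟨_, rfl⟩
  -- the values of `y`
  have hyz : ∀ n, 1 ≤ n → n ≤ N + M → y ((n : ℤ) - M) = (1 / (M : ℂ)) *
      ∑ l ∈ Finset.range M, z l n := by
    intro n hn1 hn2
    by_cases hnM : n < M
    · rw [hyneg _ (by omega)]
      rw [Finset.sum_congr rfl (g := fun l => (om M ^ l) ^ n), p_L3_om hM hn1 hnM, mul_zero]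
      intro l hl
      rw [hz]
      exact p_L3_low ht0 (hL.zero l (Finset.mem_range.1 hl)) hnM.le
    · obtain ⟨s, rfl⟩ := Nat.exists_eq_add_of_le (not_lt.1 hnM)
      have e : ((M + s : ℕ) : ℤ) - M = (s : ℕ) := by push_cast; ring
      rw [e, hy s (by omega)]
      congr 1
      refine Finset.sum_congr rfl fun l hl => ?_
      rw [hz, p_L3_high hM ht0 (hL.zero l (Finset.mem_range.1 hl))]
  have hyk : ∀ j, j ≤ M → y ((k : ℤ) - j) = (1 / (M : ℂ)) *
      ∑ l ∈ Finset.range M, z l (k + (M - j)) := by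
    intro j hj
    rw [← hyz (k + (M - j)) (by omega) (by omega)]
    congr 1
    push_cast [Nat.cast_sub hj]
    ring
  -- the factors
  have htI' : ∀ i, i < M → t (k + i + 1 - M) ∈ Set.Icc 0 τ₀ := fun i hi => htI _ (by omega)
  have htk := htI k hkN
  have hzm : ∀ l m, z l (k + m) = z l k * ∏ i ∈ Finset.range m, L l (t (k + i + 1 - M)) := by
    intro l m
    rw [hz]
    unfold p_L3_z
    rw [Finset.prod_range_add]
  have hdiff : ∀ l < M, ∀ m ≤ M,
      ‖∏ i ∈ Finset.range m, L l (t (k + i + 1 - M)) - L l (t k) ^ m‖ ≤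
        M * 2 ^ M * |K| * V := by
    intro l hl m hm
    have h1 := p_L3_prod (fun i => L l (t (k + i + 1 - M))) (L l (t k)) (|K| * V) (by positivity)
      (hL.upp l hl _ htk) m (fun i hi => hL.upp l hl _ (htI' i (by omega))) (fun i hi => by
        refine (hL.lip l hl _ (htI' i (by omega)) _ htk).trans ?_
        have h2 := p_L3_var t (a := k + i + 1 - M) (b := k) (by omega)
        have h3 : ∑ i ∈ Finset.Ioc (k + i + 1 - M) k, |t i - t (i - 1)| ≤ V := by
          rw [hV]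
          exact Finset.sum_le_sum_of_subset_of_nonneg
            (Finset.Ioc_subset_Ioc (by omega) le_rfl) (fun _ _ _ => abs_nonneg _)
        exact mul_le_mul (le_abs_self K) (h2.trans h3) (abs_nonneg _) (abs_nonneg _))
    refine h1.trans ?_
    have h4 : (m : ℝ) ≤ M := by exact_mod_cast hm
    have h5 : (2 : ℝ) ^ m ≤ 2 ^ M := pow_le_pow_right₀ (by norm_num) hm
    calc (m : ℝ) * 2 ^ m * (|K| * V) ≤ M * 2 ^ M * (|K| * V) :=
          mul_le_mul_of_nonneg_right (mul_le_mul h4 h5 (by positivity) (by positivity))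
            (by positivity)
      _ = _ := by ring
  -- the size of `z l k`
  have hzk : ∀ l < M, ‖z l k‖ ≤ 2 ^ M * G := by
    intro l hl
    have h1 : ‖z l (k + M)‖ ≤ G := by
      rw [hz, add_comm, p_L3_high hM ht0 (hL.zero l hl), norm_prod, hG]
      refine Finset.prod_le_prod (fun i _ => norm_nonneg _) fun i hi => ?_
      rw [Finset.mem_Icc] at hi
      exact hL.dom l hl _ (htI i (by omega))
    rw [hzm, norm_mul, norm_prod] at h1
    have h2 : (1 / 2 : ℝ) ^ M ≤ ∏ i ∈ Finset.range M, ‖L l (t (k + i + 1 - M))‖ := by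
      have h3 : (1 / 2 : ℝ) ^ M = ∏ _i ∈ Finset.range M, (1 / 2 : ℝ) := by
        rw [Finset.prod_const, Finset.card_range]
      rw [h3]
      refine Finset.prod_le_prod (fun i _ => by norm_num) fun i hi => ?_
      exact hL.low l hl _ (htI' i (Finset.mem_range.1 hi))
    have h4 : ‖z l k‖ * (1 / 2) ^ M ≤ G :=
      (mul_le_mul_of_nonneg_left h2 (norm_nonneg _)).trans h1
    have h5 : ((1 : ℝ) / 2) ^ M * 2 ^ M = 1 := by
      rw [← mul_pow]
      norm_num
    calc ‖z l k‖ = 2 ^ M * (‖z l k‖ * (1 / 2) ^ M) := by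
          linear_combination (-‖z l k‖) * h5
      _ ≤ 2 ^ M * G := mul_le_mul_of_nonneg_left h4 (by positivity)
  have hzkm : ∀ l < M, ∀ m ≤ M, ‖z l (k + m)‖ ≤ 4 ^ M * G := by
    intro l hl m hm
    rw [hzm, norm_mul, norm_prod]
    have h2 : ∏ i ∈ Finset.range m, ‖L l (t (k + i + 1 - M))‖ ≤ 2 ^ M := by
      calc ∏ i ∈ Finset.range m, ‖L l (t (k + i + 1 - M))‖ ≤ ∏ _i ∈ Finset.range m, (2 : ℝ) := by
            refine Finset.prod_le_prod (fun i _ => norm_nonneg _) fun i hi => ?_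
            rw [Finset.mem_range] at hi
            exact hL.upp l hl _ (htI' i (by omega))
        _ = 2 ^ m := by rw [Finset.prod_const, Finset.card_range]
        _ ≤ 2 ^ M := pow_le_pow_right₀ (by norm_num) hm
    calc ‖z l k‖ * ∏ i ∈ Finset.range m, ‖L l (t (k + i + 1 - M))‖
        ≤ (2 ^ M * G) * 2 ^ M :=
          mul_le_mul (hzk l hl) h2 (Finset.prod_nonneg fun i _ => norm_nonneg _) (by positivity)
      _ = 4 ^ M * G := by
          have : (4 : ℝ) ^ M = 2 ^ M * 2 ^ M := by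
            rw [← mul_pow]
            norm_num
          rw [this]
          ring
  have hMC : (0 : ℝ) < M := by exact_mod_cast hM
  -- averages
  have havg : ∀ (u : ℕ → ℂ) (c : ℝ), (∀ l < M, ‖u l‖ ≤ c) →
      ‖(1 / (M : ℂ)) * ∑ l ∈ Finset.range M, u l‖ ≤ c := by
    intro u c hu
    rw [norm_mul, norm_div, norm_one, Complex.norm_natCast]
    have h1 : ‖∑ l ∈ Finset.range M, u l‖ ≤ M * c := by
      refine (norm_sum_le _ _).trans ?_
      refine (Finset.sum_le_sum fun l hl => hu l (Finset.mem_range.1 hl)).trans ?_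
      rw [Finset.sum_const, Finset.card_range, nsmul_eq_mul]
    calc 1 / (M : ℝ) * ‖∑ l ∈ Finset.range M, u l‖ ≤ 1 / (M : ℝ) * (M * c) :=
          mul_le_mul_of_nonneg_left h1 (by positivity)
      _ = c := by
          field_simp
  -- the decomposition
  have hmain : y k - y ((k : ℤ) - M) - ∑ j ∈ Finset.Ico 1 M, f k j * y ((k : ℤ) - j) =
      (1 / (M : ℂ)) * ∑ l ∈ Finset.range M, (z l k * ((∏ i ∈ Finset.range M,
        L l (t (k + i + 1 - M)) - L l (t k) ^ M) - ∑ j ∈ Finset.Ico 1 M, A j * (t k : ℂ) ^ (M - j) *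
          (∏ i ∈ Finset.range (M - j), L l (t (k + i + 1 - M)) - L l (t k) ^ (M - j)))) -
      ∑ j ∈ Finset.Ico 1 M, (f k j - A j * (t k : ℂ) ^ (M - j)) * y ((k : ℤ) - j) := by
    have e0 : y (k : ℤ) = (1 / (M : ℂ)) * ∑ l ∈ Finset.range M, z l (k + M) := by
      have := hyk 0 (Nat.zero_le M)
      rw [Nat.cast_zero, sub_zero, Nat.sub_zero] at this
      exact this
    have eM : y ((k : ℤ) - M) = (1 / (M : ℂ)) * ∑ l ∈ Finset.range M, z l k := by
      have := hyk M le_rfl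
      rw [Nat.sub_self, add_zero] at this
      exact this
    have e1 : ∑ j ∈ Finset.Ico 1 M, (f k j - A j * (t k : ℂ) ^ (M - j)) * y ((k : ℤ) - j) =
        ∑ j ∈ Finset.Ico 1 M, f k j * y ((k : ℤ) - j) -
        ∑ j ∈ Finset.Ico 1 M, A j * (t k : ℂ) ^ (M - j) * y ((k : ℤ) - j) := by
      rw [← Finset.sum_sub_distrib]
      exact Finset.sum_congr rfl fun j _ => by ring
    have e2 : ∑ j ∈ Finset.Ico 1 M, A j * (t k : ℂ) ^ (M - j) * y ((k : ℤ) - j) =
        (1 / (M : ℂ)) * ∑ l ∈ Finset.range M, z l k * ∑ j ∈ Finset.Ico 1 M,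
          A j * (t k : ℂ) ^ (M - j) * ∏ i ∈ Finset.range (M - j), L l (t (k + i + 1 - M)) := by
      have h1 : ∀ j ∈ Finset.Ico 1 M, A j * (t k : ℂ) ^ (M - j) * y ((k : ℤ) - j) =
          ∑ l ∈ Finset.range M, (1 / (M : ℂ)) * (z l k * (A j * (t k : ℂ) ^ (M - j) *
            ∏ i ∈ Finset.range (M - j), L l (t (k + i + 1 - M)))) := by
        intro j hj
        rw [Finset.mem_Ico] at hj
        rw [hyk j hj.2.le, Finset.mul_sum, Finset.mul_sum]
        refine Finset.sum_congr rfl fun l _ => ?_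
        rw [hzm]
        ring
      rw [Finset.sum_congr rfl h1, Finset.sum_comm, Finset.mul_sum]
      refine Finset.sum_congr rfl fun l _ => ?_
      rw [Finset.mul_sum, Finset.mul_sum]
    have e3 : ∀ l ∈ Finset.range M, z l k * ((∏ i ∈ Finset.range M,
        L l (t (k + i + 1 - M)) - L l (t k) ^ M) - ∑ j ∈ Finset.Ico 1 M, A j * (t k : ℂ) ^ (M - j) *
          (∏ i ∈ Finset.range (M - j), L l (t (k + i + 1 - M)) - L l (t k) ^ (M - j))) =
        z l (k + M) - z l k - z l k * ∑ j ∈ Finset.Ico 1 M,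
          A j * (t k : ℂ) ^ (M - j) * ∏ i ∈ Finset.range (M - j), L l (t (k + i + 1 - M)) := by
      intro l hl
      have h1 := hL.eqn l (Finset.mem_range.1 hl) _ htk
      have h2 : ∑ j ∈ Finset.Ico 1 M, A j * (t k : ℂ) ^ (M - j) *
          (∏ i ∈ Finset.range (M - j), L l (t (k + i + 1 - M)) - L l (t k) ^ (M - j)) =
          ∑ j ∈ Finset.Ico 1 M, A j * (t k : ℂ) ^ (M - j) *
            ∏ i ∈ Finset.range (M - j), L l (t (k + i + 1 - M)) -
          ∑ j ∈ Finset.Ico 1 M, A j * (t k : ℂ) ^ (M - j) * L l (t k) ^ (M - j) := by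
        rw [← Finset.sum_sub_distrib]
        exact Finset.sum_congr rfl fun j _ => by ring
      rw [h2, h1, hzm]
      ring
    rw [e1, e2, Finset.sum_congr rfl e3, Finset.sum_sub_distrib, Finset.sum_sub_distrib, e0, eM]
    ring
  rw [hmain]
  obtain ⟨Dl, hDl⟩ : ∃ Dl : ℝ, Dl = ∑ j ∈ Finset.Ico 1 M, ‖f k j - A j * (t k : ℂ) ^ (M - j)‖ :=
    ⟨_, rfl⟩
  have hDl0 : 0 ≤ Dl := by
    rw [hDl]
    exact Finset.sum_nonneg fun j _ => norm_nonneg _
  rw [← hDl]
  have hb1 : ‖(1 / (M : ℂ)) * ∑ l ∈ Finset.range M, (z l k * ((∏ i ∈ Finset.range M,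
        L l (t (k + i + 1 - M)) - L l (t k) ^ M) - ∑ j ∈ Finset.Ico 1 M, A j * (t k : ℂ) ^ (M - j) *
          (∏ i ∈ Finset.range (M - j), L l (t (k + i + 1 - M)) - L l (t k) ^ (M - j))))‖ ≤
      2 ^ M * G * ((1 + Sa) * (M * 2 ^ M * |K| * V)) := by
    apply havg
    intro l hl
    rw [norm_mul]
    refine mul_le_mul (hzk l hl) ?_ (norm_nonneg _) (by positivity)
    refine (norm_sub_le _ _).trans ?_
    have h1 := hdiff l hl M le_rfl
    have h2 : ‖∑ j ∈ Finset.Ico 1 M, A j * (t k : ℂ) ^ (M - j) *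
          (∏ i ∈ Finset.range (M - j), L l (t (k + i + 1 - M)) - L l (t k) ^ (M - j))‖ ≤
        Sa * (M * 2 ^ M * |K| * V) := by
      rw [hSa, Finset.sum_mul]
      refine (norm_sum_le _ _).trans (Finset.sum_le_sum fun j hj => ?_)
      rw [norm_mul, norm_mul, norm_pow]
      refine mul_le_mul (mul_le_mul_of_nonneg_left ?_ (norm_nonneg _))
        (hdiff l hl (M - j) (Nat.sub_le _ _)) (norm_nonneg _)
        (mul_nonneg (norm_nonneg _) (pow_nonneg hL.ht.le _))
      refine pow_le_pow_left₀ (norm_nonneg _) ?_ _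
      rw [Complex.norm_real, Real.norm_eq_abs, abs_of_nonneg htk.1]
      exact htk.2
    linarith
  have hb2 : ‖∑ j ∈ Finset.Ico 1 M, (f k j - A j * (t k : ℂ) ^ (M - j)) * y ((k : ℤ) - j)‖ ≤
      Dl * (4 ^ M * G) := by
    rw [hDl, Finset.sum_mul]
    refine (norm_sum_le _ _).trans (Finset.sum_le_sum fun j hj => ?_)
    rw [Finset.mem_Ico] at hj
    rw [norm_mul]
    refine mul_le_mul_of_nonneg_left ?_ (norm_nonneg _)
    rw [hyk j hj.2.le]
    exact havg _ _ fun l hl => hzkm l hl _ (Nat.sub_le _ _)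
  refine (norm_sub_le _ _).trans ((add_le_add hb1 hb2).trans ?_)
  have p1 : 0 ≤ 2 ^ M * ((1 + Sa) * (M * 2 ^ M * |K|)) * G * Dl := by positivity
  have p2 : 0 ≤ (4 : ℝ) ^ M * G * V := by positivity
  nlinarith

end HillRoots
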