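import Pool.Agent.Lib.MP_e63cf8_mp.StmC

/-! # Piece L4: the stability and the consistency of the recursion together -/

open Polynomial Filter Topology MeasureTheory Asymptotics

namespace HillRoots

theorem p_L4_swap (M N k : ℕ) (hk : k ≤ N) (v : ℕ → ℝ) (hv : ∀ i, 0 ≤ v i) :
    ∑ i ∈ Finset.Icc 1 k, ∑ m ∈ Finset.Ioc (i - M) i, v m ≤ M * ∑ m ∈ Finset.Icc 1 N, v m := by
  classical
  have h1 : ∑ i ∈ Finset.Icc 1 k, ∑ m ∈ Finset.Ioc (i - M) i, v m =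
      ∑ m ∈ Finset.Icc 1 k, ∑ i ∈ (Finset.Icc 1 k).filter (fun i => i - M < m ∧ m ≤ i), v m := by
    refine Finset.sum_comm' (fun i m => ?_)
    simp only [Finset.mem_Icc, Finset.mem_Ioc, Finset.mem_filter]
    omega
  rw [h1, Finset.mul_sum]
  calc ∑ m ∈ Finset.Icc 1 k, ∑ i ∈ (Finset.Icc 1 k).filter (fun i => i - M < m ∧ m ≤ i), v m
      ≤ ∑ m ∈ Finset.Icc 1 k, (M : ℝ) * v m := by
        refine Finset.sum_le_sum (fun m _ => ?_)
        rw [Finset.sum_const, nsmul_eq_mul]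
        refine mul_le_mul_of_nonneg_right ?_ (hv m)
        have h2 : (Finset.Icc 1 k).filter (fun i => i - M < m ∧ m ≤ i) ⊆
            Finset.Ico m (m + M) := by
          intro i hi
          simp only [Finset.mem_Icc, Finset.mem_filter] at hi
          rw [Finset.mem_Ico]
          omega
        have h3 := Finset.card_le_card h2
        rw [Nat.card_Ico] at h3
        have h4 : ((Finset.Icc 1 k).filter (fun i => i - M < m ∧ m ≤ i)).card ≤ M := by omega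
        exact_mod_cast h4
    _ ≤ ∑ m ∈ Finset.Icc 1 N, (M : ℝ) * v m := by
        refine Finset.sum_le_sum_of_subset_of_nonneg (Finset.Icc_subset_Icc le_rfl hk)
          (fun i _ _ => mul_nonneg (Nat.cast_nonneg _) (hv i))

/-- the sum of the products of the branches -/
noncomputable def p_L4_y (M : ℕ) (L : ℕ → ℝ → ℂ) (t : ℕ → ℝ) (s : ℤ) : ℂ :=
  if s < 0 then 0 else
    (1 / (M : ℂ)) * ∑ l ∈ Finset.range M, ∏ i ∈ Finset.Icc 1 s.toNat, L l (t i)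

theorem p_L4_y_neg (M : ℕ) (L : ℕ → ℝ → ℂ) (t : ℕ → ℝ) (s : ℤ) (hs : s < 0) :
    p_L4_y M L t s = 0 := by
  unfold p_L4_y
  rw [if_pos hs]

theorem p_L4_y_nat (M : ℕ) (L : ℕ → ℝ → ℂ) (t : ℕ → ℝ) (s : ℕ) :
    p_L4_y M L t s = (1 / (M : ℂ)) * ∑ l ∈ Finset.range M, ∏ i ∈ Finset.Icc 1 s, L l (t i) := by
  unfold p_L4_y
  rw [if_neg (by omega), Int.toNat_natCast]

theorem p_L4_y_zero (M : ℕ) (hM : 1 ≤ M) (L : ℕ → ℝ → ℂ) (t : ℕ → ℝ) :
    p_L4_y M L t 0 = 1 := by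
  have h := p_L4_y_nat M L t 0
  have hM' : (M : ℂ) ≠ 0 := by
    have : M ≠ 0 := by omega
    exact_mod_cast this
  simp at h
  rw [h]
  field_simp

theorem p_L4 (hL2 : S_L2) (hL3 : S_L3) : S_L4 := by
  intro M A L τ₀ K δ hL
  obtain ⟨C2, hC2, h2⟩ := hL2 M A L τ₀ K δ hL
  obtain ⟨C3, hC3, h3⟩ := hL3 M A L τ₀ K δ hL
  refine ⟨C2 * (1 + C3 * (M + 1)), by positivity, ?_⟩
  intro N t f u r γ V Δ ht0 ht hV hV1 hΔ hΔ1 hun hu0 hu k hk
  have hV0 : 0 ≤ V := le_trans (Finset.sum_nonneg fun _ _ => abs_nonneg _) hV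
  have hΔ0 : 0 ≤ Δ :=
    le_trans (Finset.sum_nonneg fun _ _ => Finset.sum_nonneg fun _ _ => norm_nonneg _) hΔ
  have hG : ∀ i, i ≤ N → 0 < ∏ i' ∈ Finset.Icc 1 i, ‖L 0 (t i')‖ := by
    intro i hi
    refine Finset.prod_pos (fun i' hi' => ?_)
    rw [Finset.mem_Icc] at hi'
    have := hL.low 0 (lt_of_lt_of_le Nat.zero_lt_one hL.hM) (t i') (ht i' (by omega))
    linarith
  set y : ℤ → ℂ := p_L4_y M L t with hy
  have hyn : ∀ s : ℤ, s < 0 → y s = 0 := fun s hs => p_L4_y_neg M L t s hs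
  have hyN : ∀ s : ℕ, s ≤ N →
      y s = (1 / (M : ℂ)) * ∑ l ∈ Finset.range M, ∏ i ∈ Finset.Icc 1 s, L l (t i) :=
    fun s _ => p_L4_y_nat M L t s
  have h3' := h3 N t f y ht0 ht hyn hyN
  let r' : ℕ → ℂ := fun k => r k -
    γ * (y k - y ((k : ℤ) - M) - ∑ j ∈ Finset.Ico 1 M, f k j * y ((k : ℤ) - j))
  have h2' := h2 N t f (fun s => u s - γ * y s) r' ht0 ht (hV.trans hV1) (hΔ.trans hΔ1)
    (by
      intro s hs
      rcases hs.lt_or_eq with h | h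
      · show u s - γ * y s = 0
        rw [hun s h, hyn s h]
        ring
      · show u s - γ * y s = 0
        rw [h, hu0, hy, p_L4_y_zero M hL.hM]
        ring)
    (by
      intro k hk1 hkN
      show u k - γ * y k = u ((k : ℤ) - M) - γ * y ((k : ℤ) - M) +
        ∑ j ∈ Finset.Ico 1 M, f k j * (u ((k : ℤ) - j) - γ * y ((k : ℤ) - j)) +
        (r k - γ * (y k - y ((k : ℤ) - M) - ∑ j ∈ Finset.Ico 1 M, f k j * y ((k : ℤ) - j)))
      have e : ∑ j ∈ Finset.Ico 1 M, f k j * (u ((k : ℤ) - j) - γ * y ((k : ℤ) - j)) =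
          ∑ j ∈ Finset.Ico 1 M, f k j * u ((k : ℤ) - j) -
          γ * ∑ j ∈ Finset.Ico 1 M, f k j * y ((k : ℤ) - j) := by
        rw [Finset.mul_sum, ← Finset.sum_sub_distrib]
        refine Finset.sum_congr rfl (fun j _ => ?_)
        ring
      rw [e, hu k hk1 hkN]
      ring)
    k hk
  have e1 : u k - γ * ((1 / (M : ℂ)) * ∑ l ∈ Finset.range M, ∏ i ∈ Finset.Icc 1 k, L l (t i)) =
      u k - γ * y k := by rw [hyN k hk]
  rw [e1]
  refine h2'.trans ?_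
  set G : ℝ := ∏ i ∈ Finset.Icc 1 k, ‖L 0 (t i)‖ with hGdef
  have hGk : 0 < G := hG k hk
  set v : ℕ → ℝ := fun i => |t i - t (i - 1)| with hvdef
  have hv : ∀ i, 0 ≤ v i := fun i => abs_nonneg _
  have hr : ∀ i ∈ Finset.Icc 1 k, ‖r' i‖ / ∏ i' ∈ Finset.Icc 1 i, ‖L 0 (t i')‖ ≤
      ‖r i‖ / ∏ i' ∈ Finset.Icc 1 i, ‖L 0 (t i')‖ + ‖γ‖ * C3 *
        (∑ j ∈ Finset.Ico 1 M, ‖f i j - A j * (t i : ℂ) ^ (M - j)‖ +
          ∑ m ∈ Finset.Ioc (i - M) i, v m) := by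
    intro i hi
    rw [Finset.mem_Icc] at hi
    have hGi := hG i (by omega)
    rw [div_add' _ _ _ hGi.ne']
    refine div_le_div_of_nonneg_right ?_ hGi.le
    have h4 := h3' i hi.1 (by omega)
    calc ‖r' i‖ ≤ ‖r i‖ + ‖γ * (y i - y ((i : ℤ) - M) -
          ∑ j ∈ Finset.Ico 1 M, f i j * y ((i : ℤ) - j))‖ := norm_sub_le _ _
      _ = ‖r i‖ + ‖γ‖ * ‖y i - y ((i : ℤ) - M) -
          ∑ j ∈ Finset.Ico 1 M, f i j * y ((i : ℤ) - j)‖ := by rw [norm_mul]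
      _ ≤ ‖r i‖ + ‖γ‖ * (C3 * (∏ i' ∈ Finset.Icc 1 i, ‖L 0 (t i')‖) *
          (∑ j ∈ Finset.Ico 1 M, ‖f i j - A j * (t i : ℂ) ^ (M - j)‖ +
            ∑ m ∈ Finset.Ioc (i - M) i, v m)) := by
          have := mul_le_mul_of_nonneg_left h4 (norm_nonneg γ)
          linarith
      _ = _ := by ring
  have hsum : ∑ i ∈ Finset.Icc 1 k, ‖r' i‖ / ∏ i' ∈ Finset.Icc 1 i, ‖L 0 (t i')‖ ≤
      ∑ i ∈ Finset.Icc 1 k, ‖r i‖ / ∏ i' ∈ Finset.Icc 1 i, ‖L 0 (t i')‖ +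
        ‖γ‖ * C3 * (Δ + M * V) := by
    refine (Finset.sum_le_sum hr).trans ?_
    rw [Finset.sum_add_distrib, ← Finset.mul_sum, Finset.sum_add_distrib]
    have h5 : ∑ i ∈ Finset.Icc 1 k, ∑ j ∈ Finset.Ico 1 M,
        ‖f i j - A j * (t i : ℂ) ^ (M - j)‖ ≤ Δ := by
      refine le_trans ?_ hΔ
      exact Finset.sum_le_sum_of_subset_of_nonneg (Finset.Icc_subset_Icc le_rfl hk)
        (fun i _ _ => Finset.sum_nonneg fun _ _ => norm_nonneg _)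
    have h6 : ∑ i ∈ Finset.Icc 1 k, ∑ m ∈ Finset.Ioc (i - M) i, v m ≤ M * V := by
      refine (p_L4_swap M N k hk v hv).trans ?_
      exact mul_le_mul_of_nonneg_left hV (Nat.cast_nonneg _)
    have h7 : 0 ≤ ‖γ‖ * C3 := by positivity
    have := mul_le_mul_of_nonneg_left (add_le_add h5 h6) h7
    linarith
  set S : ℝ := ∑ i ∈ Finset.Icc 1 k, ‖r i‖ / ∏ i' ∈ Finset.Icc 1 i, ‖L 0 (t i')‖ with hS
  have hS0 : 0 ≤ S := by
    refine Finset.sum_nonneg (fun i hi => ?_)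
    rw [Finset.mem_Icc] at hi
    exact div_nonneg (norm_nonneg _) (hG i (by omega)).le
  have h8 : S + ‖γ‖ * C3 * (Δ + M * V) ≤
      (1 + C3 * (M + 1)) * (S + ‖γ‖ * (V + Δ)) := by
    have hM0 : (0 : ℝ) ≤ M := Nat.cast_nonneg _
    have hγ : 0 ≤ ‖γ‖ := norm_nonneg _
    have a1 : 0 ≤ C3 * (M + 1) * S := by positivity
    have a2 : 0 ≤ ‖γ‖ * (V + Δ) := by positivity
    have a3 : 0 ≤ ‖γ‖ * C3 * V := by positivity
    have a4 : 0 ≤ ‖γ‖ * C3 * (M * Δ) := by positivity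
    nlinarith
  calc C2 * G * ∑ i ∈ Finset.Icc 1 k, ‖r' i‖ / ∏ i' ∈ Finset.Icc 1 i, ‖L 0 (t i')‖
      ≤ C2 * G * (S + ‖γ‖ * C3 * (Δ + M * V)) :=
        mul_le_mul_of_nonneg_left hsum (by positivity)
    _ ≤ C2 * G * ((1 + C3 * (M + 1)) * (S + ‖γ‖ * (V + Δ))) :=
        mul_le_mul_of_nonneg_left h8 (by positivity)
    _ = C2 * (1 + C3 * (M + 1)) * G * (S + ‖γ‖ * (V + Δ)) := by ring

end HillRoots
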