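import Pool.Agent.Lib.MP_e63cf8_mp.StmC
import Pool.Agent.Lib.MP_e63cf8_mp.StmD

/-!
# MP_e63cf8_mp: piece N1
-/

open Polynomial Filter Topology MeasureTheory Asymptotics

namespace HillRoots

/-- the explicit branches of the solutions of `P(w) = E` -/
private noncomputable def p_N1_W (M : ℕ) (c : ℂ) (g : ℂ → ℂ) (l : ℕ) (E : ℝ) : ℂ :=
  (c * ((E ^ (-(1 / (M : ℝ))) : ℝ) : ℂ) * br M c g l (E ^ (-(1 / (M : ℝ)))))⁻¹

private theorem p_N1_mem (M : ℕ) (hM : 1 ≤ M) (τ₀ : ℝ) (h0 : 0 < τ₀) :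
    ∀ᶠ E : ℝ in atTop, 0 < E ∧ E ^ (-(1 / (M : ℝ))) ∈ Set.Icc 0 τ₀ := by
  have hM' : (0 : ℝ) < 1 / (M : ℝ) := by
    have : (0 : ℝ) < (M : ℝ) := by exact_mod_cast hM
    positivity
  have h1 : ∀ᶠ E : ℝ in atTop, E ^ (-(1 / (M : ℝ))) < τ₀ :=
    (tendsto_rpow_neg_atTop hM').eventually_lt_const h0
  filter_upwards [h1, eventually_gt_atTop 0] with E h2 h3
  exact ⟨h3, Real.rpow_nonneg h3.le _, h2.le⟩

private theorem p_N1_cont (M : ℕ) (A : ℕ → ℂ) (c : ℂ) (g : ℂ → ℂ) (τ₀ K δ : ℝ) (hc : c ≠ 0)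
    (hL : LDat M A (br M c g) τ₀ K δ) (l : ℕ) (hl : l < M) (E₂ : ℝ)
    (hE : ∀ E, E₂ ≤ E → 0 < E ∧ E ^ (-(1 / (M : ℝ))) ∈ Set.Icc 0 τ₀) :
    ContinuousOn (p_N1_W M c g l) (Set.Ici E₂) := by
  have ht : ContinuousOn (fun E : ℝ => E ^ (-(1 / (M : ℝ)))) (Set.Ici E₂) := by
    refine ContinuousOn.rpow_const continuousOn_id ?_
    intro E hE'
    exact Or.inl (hE E hE').1.ne'
  have hl' : ContinuousOn (br M c g l) (Set.Icc 0 τ₀) := by
    have h1 : LipschitzOnWith (Real.toNNReal K) (br M c g l) (Set.Icc 0 τ₀) := by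
      refine LipschitzOnWith.of_dist_le_mul ?_
      intro x hx y hy
      rw [dist_eq_norm, Real.dist_eq]
      refine (hL.lip l hl x hx y hy).trans ?_
      exact mul_le_mul_of_nonneg_right (Real.le_coe_toNNReal K) (abs_nonneg _)
    exact h1.continuousOn
  have h2 : ContinuousOn (fun E : ℝ => br M c g l (E ^ (-(1 / (M : ℝ))))) (Set.Ici E₂) :=
    hl'.comp ht fun E hE' => (hE E hE').2
  refine ContinuousOn.inv₀ ?_ ?_
  · exact (continuousOn_const.mul (Complex.continuous_ofReal.comp_continuousOn ht)).mul h2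
  · intro E hE'
    obtain ⟨h3, h4⟩ := hE E hE'
    refine mul_ne_zero (mul_ne_zero hc ?_) ?_
    · have : (0 : ℝ) < E ^ (-(1 / (M : ℝ))) := Real.rpow_pos_of_pos h3 _
      exact_mod_cast this.ne'
    · intro h5
      have := hL.low l hl _ h4
      rw [h5, norm_zero] at this
      linarith

private theorem p_N1_inj (M : ℕ) (A : ℕ → ℂ) (c : ℂ) (g : ℂ → ℂ) (τ₀ K δ : ℝ) (hc : c ≠ 0)
    (hL : LDat M A (br M c g) τ₀ K δ) (l l' : ℕ) (hl : l < M) (hl' : l' < M) (E : ℝ)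
    (hE : 0 < E ∧ E ^ (-(1 / (M : ℝ))) ∈ Set.Icc 0 τ₀)
    (h : p_N1_W M c g l E = p_N1_W M c g l' E) : l = l' := by
  by_contra hne
  have h1 := inv_injective h
  have h2 : (0 : ℝ) < E ^ (-(1 / (M : ℝ))) := Real.rpow_pos_of_pos hE.1 _
  have h3 : c * ((E ^ (-(1 / (M : ℝ))) : ℝ) : ℂ) ≠ 0 :=
    mul_ne_zero hc (by exact_mod_cast h2.ne')
  have h4 := mul_left_cancel₀ h3 h1
  have h5 := hL.sep l hl l' hl' hne _ hE.2
  rw [h4, sub_self, norm_zero] at h5
  have := hL.hδ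
  linarith

/-- a continuous function which is at each point one of finitely many pairwise distinct
continuous functions is one of them -/
private theorem p_N1_const (M : ℕ) (w : ℝ → ℂ) (W : ℕ → ℝ → ℂ) (hw : Continuous w)
    (hW : ∀ l < M, Continuous (W l)) (hne : ∀ l < M, ∀ l' < M, ∀ x, W l x = W l' x → l = l')
    (hex : ∀ x, ∃ l < M, w x = W l x) : ∃ l < M, ∀ x, w x = W l x := by
  obtain ⟨l, hl, h0⟩ := hex 0
  refine ⟨l, hl, ?_⟩
  by_contra hcon
  push Not at hcon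
  obtain ⟨x₁, hx₁⟩ := hcon
  have hc1 : IsClosed {x | w x = W l x} := isClosed_eq hw (hW l hl)
  have hc2 : IsClosed (⋃ l' ∈ {l' : ℕ | l' < M ∧ l' ≠ l}, {x | w x = W l' x}) := by
    refine Set.Finite.isClosed_biUnion ?_ ?_
    · exact (Set.finite_lt_nat M).subset fun x hx => hx.1
    · intro l' hl'
      exact isClosed_eq hw (hW l' hl'.1)
  have hpre := (isPreconnected_closed_iff.mp (isPreconnected_univ (α := ℝ))) _ _ hc1 hc2 ?_
    ⟨0, Set.mem_univ _, h0⟩ ?_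
  · obtain ⟨x, -, h1, h2⟩ := hpre
    simp only [Set.mem_iUnion] at h2
    obtain ⟨l', ⟨h3, h4⟩, h5⟩ := h2
    exact h4 (hne l' h3 l hl x (by rw [← h5, ← h1]))
  · intro x _
    obtain ⟨l', h3, h4⟩ := hex x
    by_cases h5 : l' = l
    · left
      rw [h5] at h4
      exact h4
    · right
      simp only [Set.mem_iUnion]
      exact ⟨l', ⟨h3, h5⟩, h4⟩
  · obtain ⟨l', h3, h4⟩ := hex x₁
    refine ⟨x₁, Set.mem_univ _, ?_⟩
    simp only [Set.mem_iUnion]
    refine ⟨l', ⟨h3, ?_⟩, h4⟩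
    rintro rfl
    exact hx₁ h4

theorem p_N1 (hR4 : S_R4) (_hU1 : S_U1) : S_N1 := by
  intro P c g τ₀ K δ S h0 hB hN
  have hL := hB.ld
  have hM := hL.hM
  have hMpos : (0 : ℝ) < (P.natDegree : ℝ) := by exact_mod_cast hM
  obtain ⟨E₀, ε, w, hε, hwc, hwr, hns⟩ := hN
  obtain ⟨E₁, hE₁⟩ := eventually_atTop.mp
    ((hR4 P c g τ₀ K δ h0 hB).and (p_N1_mem P.natDegree hM τ₀ hL.ht))
  set E₂ := max E₀ E₁ with hE₂
  have hE₂0 : E₀ ≤ E₂ := le_max_left _ _
  have hE₂1 : E₁ ≤ E₂ := le_max_right _ _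
  have hWc : ∀ l < P.natDegree, ContinuousOn (p_N1_W P.natDegree c g l) (Set.Ici E₂) :=
    fun l hl => p_N1_cont P.natDegree _ c g τ₀ K δ hB.c0 hL l hl E₂
      fun E hE => (hE₁ E (hE₂1.trans hE)).2
  have hmax : Continuous fun x : ℝ => max x E₂ := continuous_id.max continuous_const
  have hσ : ∀ i : Fin P.natDegree, ∃ l : Fin P.natDegree, ∀ E, E₂ ≤ E →
      w i E = p_N1_W P.natDegree c g l E := by
    intro i
    have hc1 : Continuous fun x => w i (max x E₂) :=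
      (hwc i).comp_continuous hmax fun x => hE₂0.trans (le_max_right x E₂)
    have hc2 : ∀ l < P.natDegree, Continuous fun x => p_N1_W P.natDegree c g l (max x E₂) :=
      fun l hl => (hWc l hl).comp_continuous hmax fun x => le_max_right x E₂
    obtain ⟨l, hl, h1⟩ := p_N1_const P.natDegree (fun x => w i (max x E₂))
      (fun l x => p_N1_W P.natDegree c g l (max x E₂)) hc1 hc2
      (fun l hl l' hl' x hx => p_N1_inj P.natDegree _ c g τ₀ K δ hB.c0 hL l l' hl hl' _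
        (hE₁ _ (hE₂1.trans (le_max_right x E₂))).2 hx)
      (fun x => ((hE₁ _ (hE₂1.trans (le_max_right x E₂))).1 _).mp
        ((hwr (max x E₂) (hE₂0.trans (le_max_right x E₂))).1 i))
    refine ⟨⟨l, hl⟩, fun E hE => ?_⟩
    have := h1 E
    simp only [max_eq_left hE] at this
    exact this
  choose σ hσ using hσ
  have hσi : Function.Injective σ := by
    intro i j hij
    have h1 := (hwr E₂ hE₂0).2
    apply h1
    change w i E₂ = w j E₂
    rw [hσ i E₂ le_rfl, hσ j E₂ le_rfl, hij]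
  have hσb : Function.Bijective σ := Finite.injective_iff_bijective.mp hσi
  refine ⟨ε / P.natDegree, by positivity, ?_⟩
  obtain ⟨N, hN⟩ := exists_nat_ge (max E₂ 2)
  filter_upwards [eventually_ge_atTop N] with n hn hnS
  have hnE : E₂ ≤ (n : ℝ) := by
    have : (N : ℝ) ≤ (n : ℝ) := by exact_mod_cast hn
    exact (le_max_left _ _).trans (hN.trans this)
  have hn2 : (2 : ℝ) ≤ (n : ℝ) := by
    have : (N : ℝ) ≤ (n : ℝ) := by exact_mod_cast hn
    exact (le_max_right _ _).trans (hN.trans this)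
  have hEk : ∀ k ∈ Finset.Icc 1 (n - P.natDegree), E₂ ≤ 4 * (k : ℝ) * ((n : ℝ) - k) := by
    intro k hk
    rw [Finset.mem_Icc] at hk
    have h1 : (1 : ℝ) ≤ (k : ℝ) := by exact_mod_cast hk.1
    have h2 : (k : ℝ) + 1 ≤ (n : ℝ) := by
      have : k + 1 ≤ n := by omega
      exact_mod_cast this
    have h6 : (n : ℝ) - 1 ≤ (k : ℝ) * ((n : ℝ) - k) := by nlinarith
    nlinarith
  have hne0 : ∀ l : Fin P.natDegree, ∀ k ∈ Finset.Icc 1 (n - P.natDegree),
      (p_N1_W P.natDegree c g l (4 * (k : ℝ) * ((n : ℝ) - k)))⁻¹ =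
        (c * ((tau P.natDegree n k : ℝ) : ℂ)) * br P.natDegree c g l (tau P.natDegree n k) := by
    intro l k _
    rw [p_N1_W, inv_inv, tau]
  set G : ℂ := ∏ k ∈ Finset.Icc 1 (n - P.natDegree), (c * ((tau P.natDegree n k : ℝ) : ℂ)) with hG
  have hprod : ∀ i : Fin P.natDegree, ∏ k ∈ Finset.Icc 1 (n - P.natDegree),
      (w i (4 * (k : ℝ) * ((n : ℝ) - k)))⁻¹ = G * ∏ k ∈ Finset.Icc 1 (n - P.natDegree),
        br P.natDegree c g (σ i) (tau P.natDegree n k) := by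
    intro i
    rw [hG, ← Finset.prod_mul_distrib]
    refine Finset.prod_congr rfl fun k hk => ?_
    rw [hσ i _ (hEk k hk), hne0 (σ i) k hk]
  have hGne : G ≠ 0 := by
    rw [hG, Finset.prod_ne_zero_iff]
    intro k hk
    refine mul_ne_zero hB.c0 ?_
    have h1 : 0 < 4 * (k : ℝ) * ((n : ℝ) - k) :=
      (hE₁ _ (hE₂1.trans (hEk k hk))).2.1
    have : 0 < tau P.natDegree n k := Real.rpow_pos_of_pos h1 _
    exact_mod_cast this.ne'
  have hGpos : 0 < ‖G‖ := norm_pos_iff.mpr hGne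
  have hsum : ∑ i, ∏ k ∈ Finset.Icc 1 (n - P.natDegree), (w i (4 * (k : ℝ) * ((n : ℝ) - k)))⁻¹ =
      G * (P.natDegree * yy P.natDegree c g n (n - P.natDegree)) := by
    rw [Finset.sum_congr rfl fun i _ => hprod i, ← Finset.mul_sum]
    rw [hσb.sum_comp (fun l : Fin P.natDegree => ∏ k ∈ Finset.Icc 1 (n - P.natDegree),
        br P.natDegree c g l (tau P.natDegree n k)),
      Fin.sum_univ_eq_sum_range (fun l => ∏ k ∈ Finset.Icc 1 (n - P.natDegree),
        br P.natDegree c g l (tau P.natDegree n k)) P.natDegree, yy, ← mul_assoc (_ : ℂ) (1 / _)]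
    rw [mul_one_div_cancel (by exact_mod_cast hMpos.ne'), one_mul]
  obtain ⟨i, hi⟩ := hσb.2 ⟨0, hM⟩
  have h1 := hns n hnS (hE₂0.trans hnE) i
  rw [hsum] at h1
  have h2 : ∏ k ∈ Finset.Icc 1 (n - P.natDegree), ‖w i (4 * (k : ℝ) * ((n : ℝ) - k))‖⁻¹ =
      ‖G‖ * GG P.natDegree c g n (n - P.natDegree) := by
    have h3 : ∏ k ∈ Finset.Icc 1 (n - P.natDegree), ‖w i (4 * (k : ℝ) * ((n : ℝ) - k))‖⁻¹ =
        ‖∏ k ∈ Finset.Icc 1 (n - P.natDegree), (w i (4 * (k : ℝ) * ((n : ℝ) - k)))⁻¹‖ := by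
      rw [norm_prod]
      exact Finset.prod_congr rfl fun k _ => (norm_inv _).symm
    rw [h3, hprod i, norm_mul, norm_prod, norm_prod, GG, hi]
  rw [h2, norm_mul, norm_mul, Complex.norm_natCast] at h1
  have h4 : ε * GG P.natDegree c g n (n - P.natDegree) ≤
      P.natDegree * ‖yy P.natDegree c g n (n - P.natDegree)‖ := by
    refine le_of_mul_le_mul_left ?_ hGpos
    linarith
  rw [div_mul_eq_mul_div, div_le_iff₀ hMpos]
  linarith

end HillRoots
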