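import Pool.Agent.Lib.MP_e63cf8_mp.StmE

/-!
# MP_e63cf8_mp, piece N3
-/

set_option autoImplicit false

open Polynomial Filter Topology MeasureTheory Asymptotics

namespace HillRoots

theorem p_N3_GGpos (P : ℂ[X]) (c : ℂ) (g : ℂ → ℂ) (τ₀ K δ : ℝ) (hB : Branch P c g τ₀ K δ)
    (n s : ℕ) (hs : s < n) (hτ : ∀ k < n, tau P.natDegree n k ∈ Set.Icc 0 τ₀) :
    0 < GG P.natDegree c g n s := by
  unfold GG
  refine Finset.prod_pos fun i hi => ?_
  rw [Finset.mem_Icc] at hi
  have := hB.ld.low 0 (by have := hB.ld.hM; omega) _ (hτ i (by omega))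
  linarith

theorem p_N3_yyle (P : ℂ[X]) (c : ℂ) (g : ℂ → ℂ) (τ₀ K δ : ℝ) (hB : Branch P c g τ₀ K δ)
    (n s : ℕ) (hs : s < n) (hτ : ∀ k < n, tau P.natDegree n k ∈ Set.Icc 0 τ₀) :
    ‖yy P.natDegree c g n s‖ ≤ GG P.natDegree c g n s := by
  have hM : (0 : ℝ) < P.natDegree := by
    have := hB.ld.hM
    exact_mod_cast (by omega : 0 < P.natDegree)
  unfold yy GG
  rw [norm_mul, norm_div, norm_one, Complex.norm_natCast]
  rw [div_mul_eq_mul_div, one_mul, div_le_iff₀ hM]
  refine (norm_sum_le _ _).trans ?_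
  have h : ∀ l ∈ Finset.range P.natDegree,
      ‖∏ i ∈ Finset.Icc 1 s, br P.natDegree c g l (tau P.natDegree n i)‖ ≤
        ∏ i ∈ Finset.Icc 1 s, ‖br P.natDegree c g 0 (tau P.natDegree n i)‖ := by
    intro l hl
    rw [norm_prod]
    refine Finset.prod_le_prod (fun _ _ => norm_nonneg _) fun i hi => ?_
    rw [Finset.mem_Icc] at hi
    exact hB.ld.dom l (Finset.mem_range.1 hl) _ (hτ i (by omega))
  refine (Finset.sum_le_sum h).trans_eq ?_
  rw [Finset.sum_const, Finset.card_range, nsmul_eq_mul, mul_comm]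

theorem p_N3 (hA5 : S_A5) (hU1 : S_U1) (hH1 : S_H1) : S_N3 := by
  intro P Q c g τ₀ K δ S ε hP hQ hB hε hlow
  have hM : 1 ≤ P.natDegree := hB.ld.hM
  have hlc : P.leadingCoeff ≠ 0 := by
    intro h
    rw [leadingCoeff_eq_zero] at h
    rw [h, natDegree_zero] at hM
    omega
  refine ⟨ε / 2, by positivity, fun η hη => ?_⟩
  set η' : ℝ := min η (min 1 (ε / 2)) with hη'
  have hη'0 : 0 < η' := by rw [hη']; positivity
  have h1 : η' ≤ η := min_le_left _ _
  have h2 : η' ≤ 1 := (min_le_right _ _).trans (min_le_left _ _)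
  have h3 : η' ≤ ε / 2 := (min_le_right _ _).trans (min_le_right _ _)
  have hev := (hA5 P Q c g τ₀ K δ hP hQ hB η' hη'0).and
    ((hU1 P.natDegree τ₀ hM hB.ld.ht).and (hlow.and (eventually_ge_atTop 1)))
  obtain ⟨n₀, hn₀⟩ := eventually_atTop.1 hev
  refine ⟨n₀, fun n hn hnn => ?_⟩
  obtain ⟨a5, u1, low, hn1⟩ := hn₀ n hnn
  have hs : n - P.natDegree < n := by omega
  have hG := p_N3_GGpos P c g τ₀ K δ hB n (n - P.natDegree) hs u1
  have hY := p_N3_yyle P c g τ₀ K δ hB n (n - P.natDegree) hs u1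
  have hh0 := (hH1 P.natDegree n c hM hB.c0 hn1).2.1 (n - P.natDegree) hs
  have hL := low hn
  have hR : 0 < RR P c g n := by
    unfold RR
    exact mul_pos (mul_pos (norm_pos_iff.2 hlc) (norm_pos_iff.2 hh0)) hG
  refine ⟨hR, fun z z' hz hz' => ?_⟩
  obtain ⟨a1, a2⟩ := a5 z z' hz hz'
  have hA : 0 < ‖P.leadingCoeff‖ * ‖hh P.natDegree c n (n - P.natDegree)‖ :=
    mul_pos (norm_pos_iff.2 hlc) (norm_pos_iff.2 hh0)
  have e1 : ‖P.leadingCoeff * hh P.natDegree c n (n - P.natDegree) *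
      yy P.natDegree c g n (n - P.natDegree)‖ =
      ‖P.leadingCoeff‖ * ‖hh P.natDegree c n (n - P.natDegree)‖ *
        ‖yy P.natDegree c g n (n - P.natDegree)‖ := by rw [norm_mul, norm_mul]
  have e2 : ‖P.leadingCoeff * hh P.natDegree c n (n - P.natDegree) *
      yy P.natDegree c g n (n - P.natDegree)‖ ≤ RR P c g n := by
    rw [e1]
    exact mul_le_mul_of_nonneg_left hY hA.le
  have e3 : ε * RR P c g n ≤ ‖P.leadingCoeff * hh P.natDegree c n (n - P.natDegree) *
      yy P.natDegree c g n (n - P.natDegree)‖ := by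
    rw [e1]
    have := mul_le_mul_of_nonneg_left hL hA.le
    unfold RR
    linarith
  have t1 := norm_sub_norm_le (P.leadingCoeff * hh P.natDegree c n (n - P.natDegree) *
      yy P.natDegree c g n (n - P.natDegree)) (beta P Q n z)
  have t2 := norm_sub_norm_le (beta P Q n z) (P.leadingCoeff * hh P.natDegree c n (n - P.natDegree) *
      yy P.natDegree c g n (n - P.natDegree))
  rw [norm_sub_rev] at t1
  refine ⟨?_, ?_, ?_⟩
  · have := mul_le_mul_of_nonneg_right h3 hR.le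
    linarith
  · have := mul_le_mul_of_nonneg_right h2 hR.le
    linarith
  · refine a2.trans ?_
    have := mul_le_mul_of_nonneg_right h1 (norm_nonneg (z - z'))
    exact mul_le_mul_of_nonneg_right this hR.le

end HillRoots
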