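import Pool.Agent.Lib.MP_e63cf8_mp.StmC

open Polynomial Filter Topology MeasureTheory Asymptotics

namespace HillRoots

theorem p_R1 : S_R1 := by
  intro P hP
  set M := P.natDegree with hM
  have hM0 : M ≠ 0 := by omega
  have hlc : P.leadingCoeff ≠ 0 := by
    rw [Polynomial.leadingCoeff_ne_zero]
    rintro rfl
    simp at hM
    omega
  set A : ℂ → ℂ := fun t => ∑ j ∈ Finset.Icc 1 M, P.coeff j / P.leadingCoeff * t ^ (M - j) with hA
  have hA0 : A 0 = 1 := by
    simp only [hA]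
    rw [Finset.sum_eq_single M]
    · rw [Nat.sub_self, pow_zero, mul_one, hM, Polynomial.coeff_natDegree, div_self hlc]
    · intro j hj hjM
      have : M - j ≠ 0 := by
        have := (Finset.mem_Icc.1 hj).2
        omega
      rw [zero_pow this, mul_zero]
    · intro h
      exact absurd (Finset.mem_Icc.2 ⟨hP, le_rfl⟩) h
  have hAan : ∀ t, AnalyticAt ℂ A t := by
    intro t
    simp only [hA]
    refine Finset.analyticAt_fun_sum _ fun j _ => ?_
    exact analyticAt_const.mul (analyticAt_id.pow _)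
  set B : ℂ → ℂ := fun t => A t ^ ((M : ℂ)⁻¹) with hB
  have hBan : AnalyticAt ℂ B 0 := by
    refine (hAan 0).cpow analyticAt_const ?_
    rw [hA0]
    exact Complex.one_mem_slitPlane
  have hB0 : B 0 = 1 := by
    simp only [hB]
    rw [hA0, Complex.one_cpow]
  have hBM : ∀ t, B t ^ M = A t := fun t => Complex.cpow_nat_inv_pow _ hM0
  set Ψ : ℂ → ℂ := fun t => t / B t with hΨ
  have hB0' : B 0 ≠ 0 := by rw [hB0]; exact one_ne_zero
  have hΨan : AnalyticAt ℂ Ψ 0 := analyticAt_id.div hBan hB0'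
  have hΨ0 : Ψ 0 = 0 := by simp [hΨ]
  have hΨd : HasDerivAt Ψ 1 0 := by
    have h := (hasDerivAt_id (0 : ℂ)).div hBan.differentiableAt.hasDerivAt hB0'
    have h2 : (1 * B 0 - id 0 * deriv B 0) / B 0 ^ 2 = 1 := by
      rw [hB0]; simp
    rw [h2] at h
    exact h
  have hΨd' : deriv Ψ 0 ≠ 0 := by rw [hΨd.deriv]; exact one_ne_zero
  set G : ℂ → ℂ := hΨan.hasStrictDerivAt.localInverse _ _ _ hΨd' with hG
  have hGan : AnalyticAt ℂ G 0 := by
    have h := hΨan.analyticAt_localInverse hΨd'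
    rw [hΨ0] at h
    exact h
  have hG0 : G 0 = 0 := by
    have h : G (Ψ 0) = 0 := HasStrictFDerivAt.localInverse_apply_image ..
    rwa [hΨ0] at h
  have hGr : ∀ᶠ x in 𝓝 (0 : ℂ), Ψ (G x) = x := by
    have h := hΨan.hasStrictDerivAt.eventually_right_inverse (hf' := hΨd')
    rw [hΨ0] at h
    exact h
  have hgan : AnalyticAt ℂ (fun x => B (G x)) 0 := by
    have h : AnalyticAt ℂ B (G 0) := by rw [hG0]; exact hBan
    exact h.comp hGan
  have hne : ∀ᶠ x in 𝓝 (0 : ℂ), B (G x) ≠ 0 := by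
    refine hgan.continuousAt.eventually_ne ?_
    rw [hG0, hB0]
    exact one_ne_zero
  have hall : ∀ᶠ x in 𝓝 (0 : ℂ), AnalyticAt ℂ (fun x => B (G x)) x ∧
      B (G x) ^ M = ∑ j ∈ Finset.Icc 1 M, P.coeff j / P.leadingCoeff *
        (x * B (G x)) ^ (M - j) := by
    filter_upwards [hgan.eventually_analyticAt, hGr, hne] with x h1 h2 h3
    refine ⟨h1, ?_⟩
    have h4 : x * B (G x) = G x := by
      have h5 : G x / B (G x) = x := h2
      rw [div_eq_iff h3] at h5
      exact h5.symm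
    rw [hBM, h4]
  obtain ⟨r, hr, hball⟩ := Metric.eventually_nhds_iff_ball.1 hall
  refine ⟨r, fun x => B (G x), hr, fun x hx => (hball x hx).1, ?_, fun x hx => (hball x hx).2⟩
  show B (G 0) = 1
  rw [hG0, hB0]

end HillRoots
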