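import Pool.Agent.Lib.MP_e63cf8_mp.StmC

/-! [R3] existence of branch data. -/

open Polynomial Filter Topology MeasureTheory Asymptotics

namespace HillRoots

private theorem p_R3_min {ι : Type*} (s : Finset ι) (f : ι → ℝ) (h : ∀ p ∈ s, 0 < f p) :
    ∃ δ : ℝ, 0 < δ ∧ ∀ p ∈ s, δ ≤ f p := by
  classical
  induction s using Finset.induction_on with
  | empty => exact ⟨1, one_pos, by simp⟩
  | insert a s _ ih =>
    obtain ⟨δ, hδ, h2⟩ := ih fun p hp => h p (Finset.mem_insert_of_mem hp)
    refine ⟨min δ (f a), lt_min hδ (h a (Finset.mem_insert_self _ _)), fun p hp => ?_⟩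
    rcases Finset.mem_insert.1 hp with rfl | hp
    · exact min_le_right _ _
    · exact (min_le_left _ _).trans (h2 p hp)

private theorem p_R3_om (M : ℕ) (hM : 1 ≤ M) : IsPrimitiveRoot (om M) M :=
  Complex.isPrimitiveRoot_exp M (by omega)

private theorem p_R3_norm_om (M : ℕ) (hM : 1 ≤ M) (l : ℕ) : ‖om M ^ l‖ = 1 := by
  rw [norm_pow, (p_R3_om M hM).norm'_eq_one (by omega), one_pow]

theorem p_R3 (hR1 : S_R1) (hR2 : S_R2) : S_R3 := by
  classical
  intro P hP
  obtain ⟨r, g, hr, hg, hg1, heq⟩ := hR1 P hP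
  have hlc : P.leadingCoeff ≠ 0 := by
    intro h
    rw [Polynomial.leadingCoeff_eq_zero] at h
    rw [h] at hP
    simp at hP
  obtain ⟨c, t₀, hc, ht₀, hct, hdom⟩ := hR2 P.natDegree g P.leadingCoeff r hP hr hg hg1 hlc
  have hMpos : P.natDegree ≠ 0 := by omega
  have hc0 : c ≠ 0 := by
    rintro rfl
    rw [zero_pow hMpos] at hc
    exact hlc hc.symm
  have hcpos : 0 < ‖c‖ := norm_pos_iff.2 hc0
  -- separation of the roots of unity
  obtain ⟨d, hd, hsep⟩ := p_R3_min
    ((Finset.range P.natDegree ×ˢ Finset.range P.natDegree).filter fun p => p.1 ≠ p.2)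
    (fun p => ‖om P.natDegree ^ p.1 - om P.natDegree ^ p.2‖) (by
      intro p hp
      rw [Finset.mem_filter, Finset.mem_product, Finset.mem_range, Finset.mem_range] at hp
      rw [norm_pos_iff, sub_ne_zero]
      intro h
      exact hp.2 ((p_R3_om _ hP).pow_inj hp.1.1 hp.1.2 h))
  -- continuity of g at 0
  have hgc : ContinuousAt g 0 := (hg 0 (Metric.mem_ball_self hr)).continuousAt
  obtain ⟨ρ, hρ, hgρ⟩ := Metric.continuousAt_iff.1 hgc (min (1 / 2) (d / 4)) (by positivity)
  rw [hg1] at hgρ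
  set τ₀ : ℝ := min t₀ (ρ / (2 * ‖c‖)) with hτ₀
  have hτpos : 0 < τ₀ := by positivity
  have hτt : τ₀ ≤ t₀ := min_le_left _ _
  have hcτ : ‖c‖ * τ₀ < r := lt_of_le_of_lt (mul_le_mul_of_nonneg_left hτt hcpos.le) hct
  have hcτρ : ‖c‖ * τ₀ < ρ := by
    calc ‖c‖ * τ₀ ≤ ‖c‖ * (ρ / (2 * ‖c‖)) :=
          mul_le_mul_of_nonneg_left (min_le_right _ _) hcpos.le
      _ = ρ / 2 := by field_simp
      _ < ρ := by linarith
  -- the arguments
  have harg : ∀ l : ℕ, ∀ t ∈ Set.Icc 0 τ₀, ‖c * om P.natDegree ^ l * (t : ℂ)‖ ≤ ‖c‖ * τ₀ := by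
    intro l t ht
    rw [norm_mul, norm_mul, p_R3_norm_om _ hP, mul_one, Complex.norm_real,
      Real.norm_of_nonneg ht.1]
    exact mul_le_mul_of_nonneg_left ht.2 hcpos.le
  have hclose : ∀ l : ℕ, ∀ t ∈ Set.Icc 0 τ₀,
      ‖g (c * om P.natDegree ^ l * (t : ℂ)) - 1‖ < min (1 / 2) (d / 4) := by
    intro l t ht
    rw [← dist_eq_norm]
    apply hgρ
    rw [dist_zero_right]
    exact lt_of_le_of_lt (harg l t ht) hcτρ
  -- Lipschitz
  have hcomp : IsCompact (Metric.closedBall (0 : ℂ) (‖c‖ * τ₀)) := isCompact_closedBall _ _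
  have hsub : Metric.closedBall (0 : ℂ) (‖c‖ * τ₀) ⊆ Metric.ball 0 r :=
    Metric.closedBall_subset_ball hcτ
  obtain ⟨C, hC⟩ := hcomp.exists_bound_of_continuousOn
    ((hg.deriv.continuousOn).mono hsub)
  have hlip : ∀ x ∈ Metric.closedBall (0 : ℂ) (‖c‖ * τ₀),
      ∀ y ∈ Metric.closedBall (0 : ℂ) (‖c‖ * τ₀), ‖g y - g x‖ ≤ C * ‖y - x‖ := by
    intro x hx y hy
    exact Convex.norm_image_sub_le_of_norm_deriv_le
      (fun z hz => (hg z (hsub hz)).differentiableAt) hC (convex_closedBall _ _) hx hy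
  have hball : ∀ l : ℕ, ∀ t ∈ Set.Icc 0 τ₀,
      c * om P.natDegree ^ l * (t : ℂ) ∈ Metric.closedBall (0 : ℂ) (‖c‖ * τ₀) := by
    intro l t ht
    rw [Metric.mem_closedBall, dist_zero_right]
    exact harg l t ht
  have hbr : ∀ l : ℕ, ∀ t ∈ Set.Icc 0 τ₀,
      ‖br P.natDegree c g l t - om P.natDegree ^ l‖ < min (1 / 2) (d / 4) := by
    intro l t ht
    have h1 : br P.natDegree c g l t - om P.natDegree ^ l =
        om P.natDegree ^ l * (g (c * om P.natDegree ^ l * (t : ℂ)) - 1) := by
      unfold br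
      ring
    rw [h1, norm_mul, p_R3_norm_om _ hP, one_mul]
    exact hclose l t ht
  refine ⟨c, g, τ₀, C * ‖c‖, d / 2, ⟨hc, hc0, ⟨r, hcτ, hg⟩, hg1, ?_, ?_⟩⟩
  · intro x hx
    exact heq x (by rw [Metric.mem_ball, dist_zero_right]; exact lt_of_le_of_lt hx hcτ)
  · refine ⟨hP, hτpos, by positivity, ?_, ?_, ?_, ?_, ?_, ?_, ?_⟩
    · intro l _
      unfold br
      simp [hg1]
    · intro l _ t ht
      have hx := heq (c * om P.natDegree ^ l * (t : ℂ))
        (by rw [Metric.mem_ball, dist_zero_right]; exact lt_of_le_of_lt (harg l t ht) hcτ)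
      have h1 : (om P.natDegree ^ l) ^ P.natDegree = 1 := by
        rw [← pow_mul, mul_comm, pow_mul, (p_R3_om _ hP).pow_eq_one, one_pow]
      have h2 : br P.natDegree c g l t ^ P.natDegree =
          g (c * om P.natDegree ^ l * (t : ℂ)) ^ P.natDegree := by
        unfold br
        rw [mul_pow, h1, one_mul]
      rw [h2, hx, ← Finset.sum_Ico_add_eq_sum_Icc hP, add_comm]
      congr 1
      · rw [Nat.sub_self, pow_zero, mul_one]
        exact div_self hlc
      · refine Finset.sum_congr rfl fun j hj => ?_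
        rw [Finset.mem_Ico] at hj
        have h3 : c ^ P.natDegree = c ^ j * c ^ (P.natDegree - j) := by
          rw [← pow_add]
          congr 1
          omega
        have h4 : c ^ j ≠ 0 := pow_ne_zero _ hc0
        have h5 : c ^ (P.natDegree - j) ≠ 0 := pow_ne_zero _ hc0
        unfold br
        rw [← hc, h3, mul_pow, mul_pow, mul_pow, mul_pow]
        field_simp
    · intro l hl t ht
      exact hdom l hl t ⟨ht.1, ht.2.trans hτt⟩
    · intro l _ t ht
      have h1 := hbr l t ht
      have h2 : ‖om P.natDegree ^ l‖ ≤ ‖br P.natDegree c g l t‖ +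
          ‖br P.natDegree c g l t - om P.natDegree ^ l‖ := by
        have := norm_sub_le (br P.natDegree c g l t)
          (br P.natDegree c g l t - om P.natDegree ^ l)
        rwa [sub_sub_cancel] at this
      rw [p_R3_norm_om _ hP] at h2
      have h3 := min_le_left (1 / 2 : ℝ) (d / 4)
      linarith
    · intro l _ t ht
      have h1 := hbr l t ht
      have h2 : ‖br P.natDegree c g l t‖ ≤ ‖om P.natDegree ^ l‖ +
          ‖br P.natDegree c g l t - om P.natDegree ^ l‖ := by
        have := norm_add_le (om P.natDegree ^ l)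
          (br P.natDegree c g l t - om P.natDegree ^ l)
        rwa [add_sub_cancel] at this
      rw [p_R3_norm_om _ hP] at h2
      have h3 := min_le_left (1 / 2 : ℝ) (d / 4)
      linarith
    · intro l _ t ht t' ht'
      have h1 := hlip _ (hball l t' ht') _ (hball l t ht)
      have h2 : br P.natDegree c g l t - br P.natDegree c g l t' = om P.natDegree ^ l *
          (g (c * om P.natDegree ^ l * (t : ℂ)) - g (c * om P.natDegree ^ l * (t' : ℂ))) := by
        unfold br
        ring
      rw [h2, norm_mul, p_R3_norm_om _ hP, one_mul]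
      refine h1.trans (le_of_eq ?_)
      have h3 : c * om P.natDegree ^ l * (t : ℂ) - c * om P.natDegree ^ l * (t' : ℂ) =
          c * om P.natDegree ^ l * ((t - t' : ℝ) : ℂ) := by
        push_cast
        ring
      rw [h3, norm_mul, norm_mul, p_R3_norm_om _ hP, Complex.norm_real, Real.norm_eq_abs]
      ring
    · intro l hl l' hl' hne t ht
      have h1 := hbr l t ht
      have h2 := hbr l' t ht
      have h3 := min_le_right (1 / 2 : ℝ) (d / 4)
      have h4 := hsep (l, l') (by
        rw [Finset.mem_filter, Finset.mem_product, Finset.mem_range, Finset.mem_range]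
        exact ⟨⟨hl, hl'⟩, hne⟩)
      simp only at h4
      have h5 : ‖om P.natDegree ^ l - om P.natDegree ^ l'‖ ≤
          ‖br P.natDegree c g l t - br P.natDegree c g l' t‖ +
            (‖br P.natDegree c g l t - om P.natDegree ^ l‖ +
              ‖br P.natDegree c g l' t - om P.natDegree ^ l'‖) := by
        have h6 : om P.natDegree ^ l - om P.natDegree ^ l' =
            (br P.natDegree c g l t - br P.natDegree c g l' t) -
              ((br P.natDegree c g l t - om P.natDegree ^ l) -
                (br P.natDegree c g l' t - om P.natDegree ^ l')) := by ring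
        rw [h6]
        exact (norm_sub_le _ _).trans (by gcongr; exact norm_sub_le _ _)
      linarith

end HillRoots
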