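import Pool.Agent.Lib.MP_e63cf8_mp.StmC

/-!
# MP_e63cf8_mp: proof of `S_R4` (the branches are the solutions of `P(w) = E`)
-/

open Polynomial Filter Topology MeasureTheory Asymptotics

namespace HillRoots

private lemma p_R4_om (M : ℕ) (hM : 1 ≤ M) : IsPrimitiveRoot (om M) M := by
  have := Complex.isPrimitiveRoot_exp M (by omega)
  unfold om
  exact this

private lemma p_R4_eval (P : ℂ[X]) (h0 : P.coeff 0 = 0) (ζ : ℂ) (hζ : ζ ≠ 0) :
    P.eval ζ⁻¹ * ζ ^ P.natDegree = ∑ j ∈ Finset.Icc 1 P.natDegree, P.coeff j * ζ ^ (P.natDegree - j) := by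
  rw [Polynomial.eval_eq_sum_range, Finset.range_eq_Ico, Finset.sum_eq_sum_Ico_succ_bot (by omega), h0,
    zero_mul, zero_add, Finset.sum_mul]
  have e : Finset.Ico (0+1) (P.natDegree + 1) = Finset.Icc 1 P.natDegree := by
    ext j; simp only [Finset.mem_Ico, Finset.mem_Icc]; omega
  rw [e]
  refine Finset.sum_congr rfl fun j hj => ?_
  have hj' := (Finset.mem_Icc.mp hj).2
  rw [mul_assoc]
  congr 1
  rw [inv_pow, pow_sub₀ ζ hζ hj', mul_comm]

theorem p_R4 : S_R4 := by
  intro P c g τ₀ K δ h0 hB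
  have hM : 1 ≤ P.natDegree := hB.ld.hM
  have hM' : (0:ℝ) < P.natDegree := by exact_mod_cast hM
  have hP0 : P ≠ 0 := by
    intro h
    rw [h] at hM
    simp at hM
  have hlc : P.leadingCoeff ≠ 0 := Polynomial.leadingCoeff_ne_zero.mpr hP0
  have hlim : Tendsto (fun E : ℝ => E ^ (-(1 / (P.natDegree:ℝ)))) atTop (𝓝 0) :=
    tendsto_rpow_neg_atTop (by positivity)
  have hev : ∀ᶠ E : ℝ in atTop, E ^ (-(1 / (P.natDegree:ℝ))) < τ₀ := hlim.eventually (gt_mem_nhds hB.ld.ht)
  filter_upwards [hev, eventually_gt_atTop (0:ℝ)] with E hE hE0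
  have hEc : (E:ℂ) ≠ 0 := by exact_mod_cast hE0.ne'
  have ht0 : 0 < E ^ (-(1 / (P.natDegree:ℝ))) := Real.rpow_pos_of_pos hE0 _
  have htM : (E ^ (-(1 / (P.natDegree:ℝ)))) ^ P.natDegree = E⁻¹ := by
    rw [← Real.rpow_natCast, ← Real.rpow_mul hE0.le]
    rw [show -(1/(P.natDegree:ℝ)) * (P.natDegree:ℝ) = -1 by field_simp, Real.rpow_neg_one]
  generalize E ^ (-(1 / (P.natDegree:ℝ))) = t at hE ht0 htM ⊢
  have htI : t ∈ Set.Icc 0 τ₀ := ⟨ht0.le, hE.le⟩
  have htc : (t:ℂ) ≠ 0 := by exact_mod_cast ht0.ne'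
  have hbr : ∀ l < P.natDegree, br P.natDegree c g l t ≠ 0 := by
    intro l hl h
    have := hB.ld.low l hl t htI
    rw [h, norm_zero] at this
    norm_num at this
  have hc0 := hB.c0
  have hval : ∀ l < P.natDegree, P.eval (c * (t:ℂ) * br P.natDegree c g l t)⁻¹ = (E:ℂ) := by
    intro l hl
    have hω := p_R4_om P.natDegree hM
    have hω1 : om P.natDegree ^ P.natDegree = 1 := hω.pow_eq_one
    have hωn : ‖om P.natDegree‖ = 1 := hω.norm'_eq_one (by omega)
    have hb := hbr l hl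
    have hζ0 : c * (t:ℂ) * br P.natDegree c g l t ≠ 0 := mul_ne_zero (mul_ne_zero hc0 htc) hb
    have hζ : c * (t:ℂ) * br P.natDegree c g l t =
        (c * om P.natDegree ^ l * t) * g (c * om P.natDegree ^ l * t) := by
      unfold br; ring
    have hx : ‖c * om P.natDegree ^ l * (t:ℂ)‖ ≤ ‖c‖ * τ₀ := by
      rw [norm_mul, norm_mul, norm_pow, hωn, one_pow, mul_one, Complex.norm_real, Real.norm_eq_abs,
        abs_of_pos ht0]
      exact mul_le_mul_of_nonneg_left hE.le (norm_nonneg _)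
    have he := hB.eqn _ hx
    have hev := p_R4_eval P h0 _ hζ0
    rw [hζ] at hev hζ0 ⊢
    generalize hxx : c * om P.natDegree ^ l * (t:ℂ) = x at *
    have hxM : x ^ P.natDegree = P.leadingCoeff * (E:ℂ)⁻¹ := by
      rw [← hxx, mul_pow, mul_pow, hB.hc, ← pow_mul, mul_comm l, pow_mul, hω1, one_pow, mul_one,
        ← Complex.ofReal_pow, htM, Complex.ofReal_inv]
    have e1 : ∑ j ∈ Finset.Icc 1 P.natDegree, P.coeff j * (x * g x) ^ (P.natDegree - j) =
        P.leadingCoeff * g x ^ P.natDegree := by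
      rw [he, Finset.mul_sum]
      refine Finset.sum_congr rfl fun j _ => ?_
      field_simp
    have hg : g x ≠ 0 := right_ne_zero_of_mul hζ0
    have hgM : g x ^ P.natDegree ≠ 0 := pow_ne_zero _ hg
    rw [e1, mul_pow, hxM] at hev
    have : eval (x * g x)⁻¹ P * (P.leadingCoeff * (E:ℂ)⁻¹ * g x ^ P.natDegree) =
      (E:ℂ) * (P.leadingCoeff * (E:ℂ)⁻¹ * g x ^ P.natDegree) := by
      rw [hev]; field_simp
    exact mul_right_cancel₀ (mul_ne_zero (mul_ne_zero hlc (inv_ne_zero hEc)) hgM) this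
  -- roots
  have hdeg : (P - C (E:ℂ)).natDegree = P.natDegree := Polynomial.natDegree_sub_C
  have hQ0 : P - C (E:ℂ) ≠ 0 := by
    intro h
    rw [h] at hdeg
    simp at hdeg
    omega
  set z : ℕ → ℂ := fun l => (c * (t:ℂ) * br P.natDegree c g l t)⁻¹ with hz
  have hinj : Set.InjOn z (Finset.range P.natDegree : Set ℕ) := by
    intro l hl l' hl' h
    by_contra hne
    have hl1 : l < P.natDegree := by simpa using hl
    have hl2 : l' < P.natDegree := by simpa using hl'
    have hs := hB.ld.sep l hl1 l' hl2 hne t htI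
    have h1 : c * (t:ℂ) * br P.natDegree c g l t = c * (t:ℂ) * br P.natDegree c g l' t := inv_injective h
    have h2 := mul_left_cancel₀ (mul_ne_zero hc0 htc) h1
    rw [h2, sub_self, norm_zero] at hs
    exact absurd hs (not_le.mpr hB.ld.hδ)
  have hsub : (Finset.range P.natDegree).image z ⊆ (P - C (E:ℂ)).roots.toFinset := by
    intro w hw
    obtain ⟨l, hl, rfl⟩ := Finset.mem_image.mp hw
    rw [Multiset.mem_toFinset, Polynomial.mem_roots hQ0, Polynomial.IsRoot.def, eval_sub, eval_C,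
      hval l (Finset.mem_range.mp hl), sub_self]
  have hcard : ((Finset.range P.natDegree).image z).card = P.natDegree := by
    rw [Finset.card_image_of_injOn hinj, Finset.card_range]
  have hcard2 : (P - C (E:ℂ)).roots.toFinset.card ≤ P.natDegree :=
    (Multiset.toFinset_card_le _).trans ((Polynomial.card_roots' _).trans hdeg.le)
  have heq := Finset.eq_of_subset_of_card_le hsub (by rw [hcard]; exact hcard2)
  intro w
  constructor
  · intro hw
    have : w ∈ (P - C (E:ℂ)).roots.toFinset := by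
      rw [Multiset.mem_toFinset, Polynomial.mem_roots hQ0, Polynomial.IsRoot.def, eval_sub, eval_C,
        hw, sub_self]
    rw [← heq] at this
    obtain ⟨l, hl, hlw⟩ := Finset.mem_image.mp this
    exact ⟨l, Finset.mem_range.mp hl, hlw.symm⟩
  · rintro ⟨l, hl, rfl⟩
    exact hval l hl

end HillRoots
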