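import Pool.Agent.Lib.MP_e63cf8_mp.StmC

/-! # Piece R5: the smallest solution of `P(w) = E` -/

open Polynomial Filter Topology MeasureTheory Asymptotics

namespace HillRoots

theorem p_R5 (hR4 : S_R4) : S_R5 := by
  intro P c g τ₀ K δ hP h
  have hM : 1 ≤ P.natDegree := h.ld.hM
  have hM' : (0 : ℝ) < 1 / (P.natDegree : ℝ) := by
    have : (0 : ℝ) < P.natDegree := by exact_mod_cast hM
    positivity
  have ht : Tendsto (fun E : ℝ => E ^ (-(1 / (P.natDegree : ℝ)))) atTop (𝓝 0) :=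
    tendsto_rpow_neg_atTop hM'
  have ht' : ∀ᶠ E : ℝ in atTop, E ^ (-(1 / (P.natDegree : ℝ))) < τ₀ :=
    (tendsto_order.1 ht).2 τ₀ h.ld.ht
  filter_upwards [hR4 P c g τ₀ K δ hP h, ht', eventually_gt_atTop (0 : ℝ)] with E hE hEt hE0
  set t : ℝ := E ^ (-(1 / (P.natDegree : ℝ))) with htdef
  have ht0 : 0 < t := Real.rpow_pos_of_pos hE0 _
  have htI : t ∈ Set.Icc 0 τ₀ := ⟨ht0.le, hEt.le⟩
  have hc : 0 < ‖c‖ := norm_pos_iff.2 h.c0
  have hn : ∀ l, ‖(c * (t : ℂ) * br P.natDegree c g l t)⁻¹‖ =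
      (‖c‖ * t * ‖br P.natDegree c g l t‖)⁻¹ := by
    intro l
    rw [norm_inv, norm_mul, norm_mul, Complex.norm_real, Real.norm_of_nonneg ht0.le]
  have hleast : IsLeast {r : ℝ | ∃ w : ℂ, P.eval w = (E : ℂ) ∧ ‖w‖ = r}
      (‖c‖ * t * ‖br P.natDegree c g 0 t‖)⁻¹ := by
    constructor
    · exact ⟨(c * (t : ℂ) * br P.natDegree c g 0 t)⁻¹, (hE _).2 ⟨0, hM, rfl⟩, hn 0⟩
    · rintro r ⟨w, hw, rfl⟩
      obtain ⟨l, hl, rfl⟩ := (hE w).1 hw
      rw [hn l]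
      have h1 := h.ld.dom l hl t htI
      have h2 := h.ld.low l hl t htI
      have h3 : 0 < ‖br P.natDegree c g l t‖ := lt_of_lt_of_le (by norm_num) h2
      exact inv_anti₀ (by positivity) (mul_le_mul_of_nonneg_left h1 (by positivity))
  exact hleast.csInf_eq

end HillRoots
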