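import Pool.Agent.Lib.MP_e63cf8_mp.StmA

/-!
# MP_e63cf8_mp, piece S1: the image of the standard basis under an isomorphism
-/

open Polynomial Filter Topology MeasureTheory Asymptotics
open scoped ContDiff

namespace HillRoots

private theorem p_S1_coord (σ : ℕ ≃ ℤ) (c : ℕ → ℂ) (N m : ℕ) (hm : m < N) :
    ((∑ n ∈ Finset.range N, c n • ee (σ n) : Hs) : ℤ → ℂ) (σ m) = c m := by
  rw [lp.coeFn_sum, Finset.sum_apply, Finset.sum_eq_single m]
  · rw [lp.coeFn_smul, Pi.smul_apply, ee, lp.single_apply_self, smul_eq_mul, mul_one]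
  · intro n _ hn
    rw [lp.coeFn_smul, Pi.smul_apply, ee, lp.single_apply_ne, smul_zero]
    intro h
    exact hn (σ.injective h).symm
  · intro h
    exact absurd (Finset.mem_range.2 hm) h

theorem p_S1 : S_S1 := by
  intro U σ f
  refine ⟨fun n => (U.symm f : ℤ → ℂ) (σ n), ?_, ?_⟩
  · have h1 : HasSum (fun i : ℤ => lp.single 2 i ((U.symm f : ℤ → ℂ) i)) (U.symm f) :=
      lp.hasSum_single (by norm_num) (U.symm f)
    have h2 := ((Equiv.hasSum_iff σ).2 h1).tendsto_sum_nat
    have h3 := (U.continuous.tendsto (U.symm f)).comp h2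
    rw [U.apply_symm_apply] at h3
    refine h3.congr fun N => ?_
    simp only [Function.comp]
    rw [map_sum]
    apply Finset.sum_congr rfl
    intro n _
    rw [← map_smul]
    congr 1
    rw [ee, ← lp.single_smul, smul_eq_mul, mul_one]
  · intro c hc
    funext m
    have h1 := (U.symm.continuous.tendsto f).comp hc
    have hev : Continuous (fun a : Hs => (a : ℤ → ℂ) (σ m)) :=
      (continuous_apply (σ m)).comp
        (lp.uniformContinuous_coe (E := fun _ : ℤ => ℂ) (p := 2)).continuous
    have h2 := (hev.tendsto (U.symm f)).comp h1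
    have h3 : Tendsto (fun _ : ℕ => c m) atTop (𝓝 ((U.symm f : ℤ → ℂ) (σ m))) := by
      refine h2.congr' ?_
      filter_upwards [eventually_gt_atTop m] with N hN
      have e : U.symm (∑ n ∈ Finset.range N, c n • U (ee (σ n))) =
          ∑ n ∈ Finset.range N, c n • ee (σ n) := by
        rw [map_sum]
        apply Finset.sum_congr rfl
        intro n _
        rw [map_smul, U.symm_apply_apply]
      simp only [Function.comp]
      rw [e, p_S1_coord σ c N m hN]
    exact tendsto_nhds_unique tendsto_const_nhds h3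

end HillRoots
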