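import Pool.Agent.Lib.MP_e63cf8_mp.StmA

/-!
# S2: the coordinate functionals of a Schauder basis are uniformly continuous
-/

set_option autoImplicit false

open Filter Topology

namespace HillRoots

/-- the closed subspace of the partial sums of convergent expansions, as continuous functions on
`OnePoint ℕ` -/
private noncomputable def p_S2_sub (φ : ℕ → Hs) : Submodule ℂ C(OnePoint ℕ, Hs) where
  carrier := {S | S ((0 : ℕ) : OnePoint ℕ) = 0 ∧
    ∀ N : ℕ, S ((N + 1 : ℕ) : OnePoint ℕ) - S ((N : ℕ) : OnePoint ℕ) ∈ Submodule.span ℂ {φ N}}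
  zero_mem' := by
    refine ⟨rfl, fun N => ?_⟩
    simp
  add_mem' := by
    rintro S T ⟨h1, h2⟩ ⟨h3, h4⟩
    refine ⟨?_, fun N => ?_⟩
    · rw [ContinuousMap.add_apply, h1, h3, add_zero]
    · rw [ContinuousMap.add_apply, ContinuousMap.add_apply, add_sub_add_comm]
      exact Submodule.add_mem _ (h2 N) (h4 N)
  smul_mem' := by
    rintro a S ⟨h1, h2⟩
    refine ⟨?_, fun N => ?_⟩
    · rw [ContinuousMap.smul_apply, h1, smul_zero]
    · rw [ContinuousMap.smul_apply, ContinuousMap.smul_apply, ← smul_sub]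
      exact Submodule.smul_mem _ a (h2 N)

private lemma p_S2_closed (φ : ℕ → Hs) : IsClosed (p_S2_sub φ : Set C(OnePoint ℕ, Hs)) := by
  have e : (p_S2_sub φ : Set C(OnePoint ℕ, Hs)) =
      {S | S ((0 : ℕ) : OnePoint ℕ) = 0} ∩ ⋂ N : ℕ,
        {S | S ((N + 1 : ℕ) : OnePoint ℕ) - S ((N : ℕ) : OnePoint ℕ) ∈
          (Submodule.span ℂ {φ N} : Set Hs)} := by
    ext S
    simp only [p_S2_sub, Submodule.coe_set_mk, AddSubmonoid.coe_set_mk, AddSubsemigroup.coe_set_mk,
      Set.mem_ofPred_eq, Set.mem_inter_iff, Set.mem_iInter, SetLike.mem_coe]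
  rw [e]
  refine IsClosed.inter ?_ (isClosed_iInter fun N => ?_)
  · exact isClosed_eq (continuous_eval_const _) continuous_const
  · have hc : IsClosed (Submodule.span ℂ {φ N} : Set Hs) :=
      Submodule.closed_of_finiteDimensional _
    exact hc.preimage ((continuous_eval_const _).sub
      (continuous_eval_const _))

theorem p_S2 : S_S2 := by
  intro φ hφ
  have : CompleteSpace (p_S2_sub φ) := (p_S2_closed φ).completeSpace_coe
  let L : p_S2_sub φ →L[ℂ] Hs :=
    (ContinuousMap.evalCLM ℂ (OnePoint.infty : OnePoint ℕ)).comp (p_S2_sub φ).subtypeL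
  have hL : ∀ S : p_S2_sub φ, L S = (S : C(OnePoint ℕ, Hs)) OnePoint.infty := fun S => rfl
  have hsurj : Function.Surjective L := by
    intro f
    obtain ⟨c, hc, -⟩ := hφ f
    refine ⟨⟨OnePoint.continuousMapMkNat (fun N : ℕ => ∑ n ∈ Finset.range N, c n • φ n) f hc,
      ?_, fun N => ?_⟩, ?_⟩
    · change ∑ n ∈ Finset.range 0, c n • φ n = 0
      simp
    · change ∑ n ∈ Finset.range (N + 1), c n • φ n - ∑ n ∈ Finset.range N, c n • φ n ∈ _
      rw [Finset.sum_range_succ, add_sub_cancel_left]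
      exact Submodule.smul_mem _ _ (Submodule.mem_span_singleton_self _)
    · rfl
  obtain ⟨C, hC0, hC⟩ := ContinuousLinearMap.exists_preimage_norm_le L hsurj
  refine ⟨2 * C, by positivity, fun n n' hnn t => ?_⟩
  obtain ⟨⟨S, hS0, hS1⟩, hS2, hS3⟩ := hC (φ n - t • φ n')
  rw [hL] at hS2
  change S OnePoint.infty = φ n - t • φ n' at hS2
  change ‖S‖ ≤ C * ‖φ n - t • φ n'‖ at hS3
  choose d hd using fun N : ℕ => Submodule.mem_span_singleton.mp (hS1 N)
  have hsum : ∀ N : ℕ, S ((N : ℕ) : OnePoint ℕ) = ∑ k ∈ Finset.range N, d k • φ k := by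
    intro N
    induction N with
    | zero => simpa using hS0
    | succ N ih =>
      rw [Finset.sum_range_succ, ← ih, hd N]
      abel
  have ht1 : Tendsto (fun N : ℕ => ∑ k ∈ Finset.range N, d k • φ k) atTop
      (𝓝 (φ n - t • φ n')) := by
    have h := (OnePoint.continuous_iff_from_nat (S : OnePoint ℕ → Hs)).mp S.continuous
    rw [hS2] at h
    exact h.congr hsum
  have ht2 : Tendsto (fun N : ℕ => ∑ k ∈ Finset.range N,
      (if k = n then (1 : ℂ) else if k = n' then -t else 0) • φ k) atTop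
      (𝓝 (φ n - t • φ n')) := by
    refine tendsto_const_nhds.congr' ?_
    filter_upwards [eventually_gt_atTop (max n n')] with N hN
    have h1 : n ∈ Finset.range N := Finset.mem_range.mpr ((le_max_left _ _).trans_lt hN)
    have h2 : n' ∈ (Finset.range N).erase n :=
      Finset.mem_erase.mpr ⟨hnn.symm, Finset.mem_range.mpr ((le_max_right _ _).trans_lt hN)⟩
    rw [← Finset.add_sum_erase _ _ h1, ← Finset.add_sum_erase _ _ h2]
    rw [if_pos rfl, if_neg hnn.symm, if_pos rfl]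
    rw [Finset.sum_eq_zero]
    · rw [one_smul, neg_smul, add_zero, sub_eq_add_neg]
    · intro k hk
      rw [Finset.mem_erase, Finset.mem_erase] at hk
      rw [if_neg hk.2.1, if_neg hk.1, zero_smul]
  have hdn : d n = 1 := by
    have h := (hφ (φ n - t • φ n')).unique ht1 ht2
    rw [h]
    simp
  have hφn : φ n = S ((n + 1 : ℕ) : OnePoint ℕ) - S ((n : ℕ) : OnePoint ℕ) := by
    rw [← hd n, hdn, one_smul]
  calc ‖φ n‖ = ‖S ((n + 1 : ℕ) : OnePoint ℕ) - S ((n : ℕ) : OnePoint ℕ)‖ := by rw [← hφn]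
    _ ≤ ‖S ((n + 1 : ℕ) : OnePoint ℕ)‖ + ‖S ((n : ℕ) : OnePoint ℕ)‖ := norm_sub_le _ _
    _ ≤ ‖S‖ + ‖S‖ := add_le_add (S.norm_coe_le_norm _) (S.norm_coe_le_norm _)
    _ ≤ 2 * C * ‖φ n - t • φ n'‖ := by linarith

end HillRoots
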