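import Pool.Agent.Lib.MP_e63cf8_mp.StmA

/-!
# MP_e63cf8_mp, piece T0: the constant term only shifts the spectrum
-/

open Polynomial Filter Topology MeasureTheory Asymptotics
open scoped ContDiff

namespace HillRoots

private theorem p_T0_shift (v w : ℂ) (P Q : ℂ[X]) (μ : ℂ) :
    shiftOp v P Q μ = shiftOp w P Q (μ - v + w) := by
  funext y x
  unfold shiftOp pot
  ring

private theorem p_T0_root (v w : ℂ) (P Q : ℂ[X]) (μ : ℂ) :
    rootFun v P Q μ = rootFun w P Q (μ - v + w) := by
  unfold rootFun
  rw [p_T0_shift v w]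

private theorem p_T0_basis (v w : ℂ) (P Q : ℂ[X]) (h : HasRootBasis v P Q) :
    HasRootBasis w P Q := by
  obtain ⟨φ, ev, h1, h2, h3⟩ := h
  refine ⟨φ, fun n => ev n - v + w, ?_, ?_, h3⟩
  · intro μ
    have e : ∀ n, (ev n - v + w = μ) ↔ (ev n = μ + v - w) := by
      intro n
      constructor
      · intro h
        rw [← h]
        ring
      · intro h
        rw [h]
        ring
    have := (h1 (μ + v - w)).comp
      (fun n : {n : ℕ // ev n - v + w = μ} => (⟨n.1, (e n.1).1 n.2⟩ : {n : ℕ // ev n = μ + v - w}))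
      (fun a b hab => Subtype.ext (congrArg (fun z => z.1) hab))
    exact this
  · intro μ
    have e : {n | ev n - v + w = μ} = {n | ev n = μ + v - w} := by
      ext n
      simp only [Set.mem_setOf_eq]
      constructor
      · intro h
        rw [← h]
        ring
      · intro h
        rw [h]
        ring
    rw [e, h2, p_T0_root v w]
    congr 1
    ring

theorem p_T0 : S_T0 := fun v₀ P Q => ⟨p_T0_basis v₀ 0 P Q, p_T0_basis 0 v₀ P Q⟩

end HillRoots
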