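import Pool.Agent.Lib.MP_e63cf8_mp.StmA

/-!
# MP_e63cf8_mp, piece T1: the operator on the Fourier side
-/

open Polynomial Filter Topology MeasureTheory Asymptotics
open scoped ContDiff

namespace HillRoots

private theorem p_T1_pot_smooth (v₀ : ℂ) (P Q : ℂ[X]) : ContDiff ℝ ∞ (pot v₀ P Q) := by
  have h1 : ContDiff ℝ ∞ (fun x : ℝ => Complex.exp (2 * x * Complex.I)) :=
    ((contDiff_const.mul Complex.ofRealCLM.contDiff).mul contDiff_const).cexp
  have h2 : ContDiff ℝ ∞ (fun x : ℝ => Complex.exp (-(2 * x * Complex.I))) :=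
    ((contDiff_const.mul Complex.ofRealCLM.contDiff).mul contDiff_const).neg.cexp
  unfold pot
  simp only [Polynomial.eval_eq_sum_range]
  refine (contDiff_const.add ?_).add ?_
  · exact ContDiff.sum (fun i _ => contDiff_const.mul (h1.pow i))
  · exact ContDiff.sum (fun i _ => contDiff_const.mul (h2.pow i))

private theorem p_T1_exp (s : ℤ) (x : ℝ) :
    Complex.exp (-(2 * s * ((x + Real.pi : ℝ) : ℂ) * Complex.I)) =
      Complex.exp (-(2 * s * x * Complex.I)) := by
  have h : -(2 * s * ((x + Real.pi : ℝ) : ℂ) * Complex.I) =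
      -(2 * s * x * Complex.I) + ((-s : ℤ) : ℂ) * (2 * Real.pi * Complex.I) := by
    push_cast
    ring
  rw [h, Complex.exp_add, Complex.exp_int_mul_two_pi_mul_I, mul_one]

private theorem p_T1_pot_per (v₀ : ℂ) (P Q : ℂ[X]) : Function.Periodic (pot v₀ P Q) Real.pi := by
  intro x
  have h1 := p_T1_exp 1 x
  have h2 := p_T1_exp (-1) x
  have e1 : ∀ t : ℝ, -(2 * ((1 : ℤ) : ℂ) * t * Complex.I) = -(2 * t * Complex.I) := by
    intro t
    push_cast
    ring
  have e2 : ∀ t : ℝ, -(2 * ((-1 : ℤ) : ℂ) * t * Complex.I) = 2 * t * Complex.I := by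
    intro t
    push_cast
    ring
  rw [e1, e1] at h1
  rw [e2, e2] at h2
  unfold pot
  rw [h1, h2]

private theorem p_T1_ibp (f : ℝ → ℂ) (hf : ContDiff ℝ ∞ f) (hp : Function.Periodic f Real.pi)
    (s : ℤ) : fc (deriv f) s = 2 * s * Complex.I * fc f s := by
  have hd := contDiff_infty_iff_deriv.1 hf
  have he : ∀ x : ℝ, HasDerivAt (fun x : ℝ => Complex.exp (-(2 * s * x * Complex.I)))
      (Complex.exp (-(2 * s * x * Complex.I)) * (-(2 * s * 1 * Complex.I))) x := by
    intro x
    have h0 : HasDerivAt (fun x : ℝ => (x : ℂ)) 1 x := Complex.ofRealCLM.hasDerivAt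
    exact (((h0.const_mul (2 * (s : ℂ))).mul_const Complex.I).neg).cexp
  have hec : Continuous (fun x : ℝ => Complex.exp (-(2 * s * x * Complex.I))) := by fun_prop
  have hi := intervalIntegral.integral_deriv_mul_eq_sub (a := 0) (b := Real.pi)
    (u := f) (u' := deriv f) (fun x _ => (hd.1 x).hasDerivAt) (fun x _ => he x)
    (hd.2.continuous.intervalIntegrable _ _)
    (Continuous.intervalIntegrable (by fun_prop) _ _)
  have hb : f Real.pi = f 0 := by
    have := hp 0
    rwa [zero_add] at this
  have hb2 : Complex.exp (-(2 * s * ((Real.pi : ℝ) : ℂ) * Complex.I)) =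
      Complex.exp (-(2 * s * ((0 : ℝ) : ℂ) * Complex.I)) := by
    have := p_T1_exp s 0
    rwa [zero_add] at this
  have hfc := hf.continuous
  have hfc' := hd.2.continuous
  have hA : Continuous (fun x : ℝ => deriv f x * Complex.exp (-(2 * s * x * Complex.I))) := by
    fun_prop
  have hB : Continuous (fun x : ℝ => f x *
      (Complex.exp (-(2 * s * x * Complex.I)) * (-(2 * s * 1 * Complex.I)))) := by
    fun_prop
  rw [hb, hb2, sub_self, intervalIntegral.integral_add
    (hA.intervalIntegrable _ _) (hB.intervalIntegrable _ _)] at hi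
  have hj : ∫ x in (0 : ℝ)..Real.pi, f x *
      (Complex.exp (-(2 * s * x * Complex.I)) * (-(2 * s * 1 * Complex.I))) =
      (-(2 * s * Complex.I)) * ∫ x in (0 : ℝ)..Real.pi, f x *
        Complex.exp (-(2 * s * x * Complex.I)) := by
    rw [← intervalIntegral.integral_const_mul]
    congr 1
    funext x
    ring
  rw [hj] at hi
  unfold fc
  have hk := eq_neg_of_add_eq_zero_left hi
  rw [hk]
  ring

private theorem p_T1_fc_shift (f : ℝ → ℂ) (s : ℤ) (j : ℕ) :
    fc (fun x => Complex.exp (2 * x * Complex.I) ^ j * f x) s = fc f (s - j) := by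
  unfold fc
  congr 2
  funext x
  change Complex.exp (2 * x * Complex.I) ^ j * f x * Complex.exp (-(2 * s * x * Complex.I)) = _
  rw [← Complex.exp_nat_mul]
  have h : Complex.exp (-(2 * ((s - j : ℤ) : ℂ) * x * Complex.I)) =
      Complex.exp (j * (2 * x * Complex.I)) * Complex.exp (-(2 * s * x * Complex.I)) := by
    rw [← Complex.exp_add]
    congr 1
    push_cast
    ring
  rw [h]
  ring

private theorem p_T1_fc_shift' (f : ℝ → ℂ) (s : ℤ) (j : ℕ) :
    fc (fun x => Complex.exp (-(2 * x * Complex.I)) ^ j * f x) s = fc f (s + j) := by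
  unfold fc
  congr 2
  funext x
  change Complex.exp (-(2 * x * Complex.I)) ^ j * f x *
    Complex.exp (-(2 * s * x * Complex.I)) = _
  rw [← Complex.exp_nat_mul]
  have h : Complex.exp (-(2 * ((s + j : ℤ) : ℂ) * x * Complex.I)) =
      Complex.exp (j * (-(2 * x * Complex.I))) * Complex.exp (-(2 * s * x * Complex.I)) := by
    rw [← Complex.exp_add]
    congr 1
    push_cast
    ring
  rw [h]
  ring

private theorem p_T1_fc_add (f g : ℝ → ℂ) (hf : Continuous f) (hg : Continuous g) (s : ℤ) :
    fc (fun x => f x + g x) s = fc f s + fc g s := by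
  have hA : Continuous (fun x : ℝ => f x * Complex.exp (-(2 * s * x * Complex.I))) := by
    fun_prop
  have hB : Continuous (fun x : ℝ => g x * Complex.exp (-(2 * s * x * Complex.I))) := by
    fun_prop
  unfold fc
  rw [← mul_add, ← intervalIntegral.integral_add
    (hA.intervalIntegrable _ _) (hB.intervalIntegrable _ _)]
  congr 2
  funext x
  ring

private theorem p_T1_fc_add4 (a b c d : ℝ → ℂ) (ha : Continuous a) (hb : Continuous b)
    (hc : Continuous c) (hd : Continuous d) (s : ℤ) :
    fc (fun x => (a x + (b x + c x)) + d x) s = fc a s + (fc b s + fc c s) + fc d s := by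
  have h1 := p_T1_fc_add (fun x => a x + (b x + c x)) d (ha.add (hb.add hc)) hd s
  have h2 := p_T1_fc_add a (fun x => b x + c x) ha (hb.add hc) s
  rw [h1, h2, p_T1_fc_add b c hb hc s]

private theorem p_T1_fc_mul (c : ℂ) (f : ℝ → ℂ) (s : ℤ) :
    fc (fun x => c * f x) s = c * fc f s := by
  have h : ∫ x in (0 : ℝ)..Real.pi, (c * f x) * Complex.exp (-(2 * s * x * Complex.I)) =
      c * ∫ x in (0 : ℝ)..Real.pi, f x * Complex.exp (-(2 * s * x * Complex.I)) := by
    rw [← intervalIntegral.integral_const_mul]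
    congr 1
    funext x
    ring
  unfold fc
  rw [h]
  ring

private theorem p_T1_fc_sum (t : Finset ℕ) (f : ℕ → ℝ → ℂ) (hf : ∀ j, Continuous (f j)) (s : ℤ) :
    fc (fun x => ∑ j ∈ t, f j x) s = ∑ j ∈ t, fc (f j) s := by
  classical
  induction t using Finset.induction_on with
  | empty =>
    simp [fc]
  | insert a t ha ih =>
    rw [Finset.sum_insert ha, ← ih]
    have := p_T1_fc_add (f a) (fun x => ∑ j ∈ t, f j x) (hf a)
      (continuous_finsetSum _ (fun j _ => hf j)) s
    rw [← this]
    congr 1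
    funext x
    rw [Finset.sum_insert ha]

theorem p_T1 : S_T1 := by
  intro P Q μ y hy hp
  have hd := contDiff_infty_iff_deriv.1 hy
  have hdd := contDiff_infty_iff_deriv.1 hd.2
  have hpd : Function.Periodic (deriv y) Real.pi := by
    intro x
    have h : (fun t => y (t + Real.pi)) = y := funext hp
    rw [← deriv_comp_add_const, h]
  have hpdd : Function.Periodic (deriv (deriv y)) Real.pi := by
    intro x
    have h : (fun t => deriv y (t + Real.pi)) = deriv y := funext hpd
    rw [← deriv_comp_add_const, h]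
  refine ⟨?_, ?_, ?_⟩
  · unfold shiftOp
    exact hdd.2.neg.add (((p_T1_pot_smooth 0 P Q).sub contDiff_const).mul hy)
  · intro x
    unfold shiftOp
    rw [hpdd x, p_T1_pot_per 0 P Q x, hp x]
  · funext s
    have hc1 : Continuous (fun x : ℝ => Complex.exp (2 * x * Complex.I)) := by fun_prop
    have hc2 : Continuous (fun x : ℝ => Complex.exp (-(2 * x * Complex.I))) := by fun_prop
    have hyc := hy.continuous
    have e : shiftOp 0 P Q μ y = fun x => ((-1) * deriv (deriv y) x +
        (∑ j ∈ Finset.range (P.natDegree + 1), P.coeff j *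
          (Complex.exp (2 * x * Complex.I) ^ j * y x) +
        ∑ j ∈ Finset.range (Q.natDegree + 1), Q.coeff j *
          (Complex.exp (-(2 * x * Complex.I)) ^ j * y x))) + (-μ) * y x := by
      funext x
      unfold shiftOp pot
      rw [Polynomial.eval_eq_sum_range, Polynomial.eval_eq_sum_range]
      simp only [← mul_assoc]
      rw [← Finset.sum_mul, ← Finset.sum_mul]
      ring
    have hddc := hdd.2.continuous
    have k1 : Continuous (fun x => (-1) * deriv (deriv y) x) := by fun_prop
    have k2 : ∀ j, Continuous (fun x : ℝ => P.coeff j *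
        (Complex.exp (2 * x * Complex.I) ^ j * y x)) := fun j => by fun_prop
    have k3 : ∀ j, Continuous (fun x : ℝ => Q.coeff j *
        (Complex.exp (-(2 * x * Complex.I)) ^ j * y x)) := fun j => by fun_prop
    have k4 : Continuous (fun x : ℝ => ∑ j ∈ Finset.range (P.natDegree + 1), P.coeff j *
        (Complex.exp (2 * x * Complex.I) ^ j * y x)) := continuous_finsetSum _ (fun j _ => k2 j)
    have k5 : Continuous (fun x : ℝ => ∑ j ∈ Finset.range (Q.natDegree + 1), Q.coeff j *
        (Complex.exp (-(2 * x * Complex.I)) ^ j * y x)) := continuous_finsetSum _ (fun j _ => k3 j)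
    have k6 : Continuous (fun x => (-μ) * y x) := by fun_prop
    rw [e, p_T1_fc_add4 _ _ _ _ k1 k4 k5 k6 s, p_T1_fc_sum _ _ k2, p_T1_fc_sum _ _ k3,
      p_T1_fc_mul, p_T1_fc_mul, p_T1_ibp _ hd.2 hpd, p_T1_ibp _ hy hp]
    simp only [p_T1_fc_mul, p_T1_fc_shift, p_T1_fc_shift']
    unfold Tsh Top Vop
    have hI : Complex.I * Complex.I = -1 := Complex.I_mul_I
    linear_combination (-4 * (s : ℂ) ^ 2 * fc y s) * hI

end HillRoots
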