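import Pool.Agent.Lib.MP_e63cf8_mp.StmA

/-! [T3] Riesz-Fischer. -/

open Polynomial Filter Topology MeasureTheory Asymptotics
open scoped ContDiff

namespace HillRoots

theorem p_T3 : S_T3 := by
  intro x
  have : Fact (0 < Real.pi) := ⟨Real.pi_pos⟩
  let F : Lp ℂ 2 (@AddCircle.haarAddCircle Real.pi _) :=
    (fourierBasis (T := Real.pi)).repr.symm x
  have hF : ∀ s : ℤ, fourierCoeff (F : AddCircle Real.pi → ℂ) s = x s := by
    intro s
    rw [← fourierBasis_repr]
    simp only [F, LinearIsometryEquiv.apply_symm_apply]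
  have hm : MemLp (F : AddCircle Real.pi → ℂ) 2 (volume : Measure (AddCircle Real.pi)) :=
    (Lp.memLp F).of_haarAddCircle
  have hp := AddCircle.measurePreserving_mk Real.pi 0
  rw [zero_add] at hp
  refine ⟨fun t : ℝ => F (t : AddCircle Real.pi), hm.comp_measurePreserving hp, fun s => ?_⟩
  rw [← hF s, fourierCoeff_eq_intervalIntegral _ s 0, zero_add]
  unfold fc
  rw [Complex.real_smul]
  push_cast
  congr 1
  refine intervalIntegral.integral_congr fun t _ => ?_
  simp only [smul_eq_mul]
  rw [fourier_coe_apply, mul_comm]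
  congr 2
  have hpi : (Real.pi : ℂ) ≠ 0 := by exact_mod_cast Real.pi_ne_zero
  push_cast
  field_simp

end HillRoots
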