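import Pool.Agent.Lib.MP_e63cf8_mp.StmA

/-! [T4] root vectors decay rapidly -/

open Polynomial Filter Topology MeasureTheory Asymptotics
open scoped ContDiff

namespace HillRoots

/-- decay of order `p` -/
private def T4Dec (p : ℕ) (y : ℤ → ℂ) : Prop := ∃ C : ℝ, ∀ s : ℤ, ‖y s‖ * (1 + |(s : ℝ)|) ^ p ≤ C

private lemma T4_add {p : ℕ} {y z : ℤ → ℂ} (hy : T4Dec p y) (hz : T4Dec p z) :
    T4Dec p (fun s => y s + z s) := by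
  obtain ⟨C, hC⟩ := hy
  obtain ⟨D, hD⟩ := hz
  refine ⟨C + D, fun s => ?_⟩
  have h1 : 0 ≤ (1 + |(s : ℝ)|) ^ p := by positivity
  have h2 := mul_le_mul_of_nonneg_right (norm_add_le (y s) (z s)) h1
  have h3 := hC s
  have h4 := hD s
  rw [add_mul] at h2
  linarith

private lemma T4_smul {p : ℕ} {y : ℤ → ℂ} (a : ℂ) (hy : T4Dec p y) :
    T4Dec p (fun s => a * y s) := by
  obtain ⟨C, hC⟩ := hy
  refine ⟨‖a‖ * C, fun s => ?_⟩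
  rw [norm_mul, mul_assoc]
  exact mul_le_mul_of_nonneg_left (hC s) (norm_nonneg a)

private lemma T4_shift {p : ℕ} {y : ℤ → ℂ} (j : ℤ) (hy : T4Dec p y) :
    T4Dec p (fun s => y (s - j)) := by
  obtain ⟨C, hC⟩ := hy
  refine ⟨C * (1 + |(j : ℝ)|) ^ p, fun s => ?_⟩
  have h0 : 0 ≤ |((s - j : ℤ) : ℝ)| * |(j : ℝ)| := by positivity
  have h1 : (1 + |(s : ℝ)|) ≤ (1 + |((s - j : ℤ) : ℝ)|) * (1 + |(j : ℝ)|) := by
    have h2 : |(s : ℝ)| ≤ |((s - j : ℤ) : ℝ)| + |(j : ℝ)| := by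
      have h3 : (s : ℝ) = ((s - j : ℤ) : ℝ) + (j : ℝ) := by push_cast; ring
      calc |(s : ℝ)| = |((s - j : ℤ) : ℝ) + (j : ℝ)| := by rw [← h3]
        _ ≤ _ := abs_add_le _ _
    nlinarith [h0, h2]
  calc ‖y (s - j)‖ * (1 + |(s : ℝ)|) ^ p
      ≤ ‖y (s - j)‖ * ((1 + |((s - j : ℤ) : ℝ)|) * (1 + |(j : ℝ)|)) ^ p := by gcongr
    _ = ‖y (s - j)‖ * (1 + |((s - j : ℤ) : ℝ)|) ^ p * (1 + |(j : ℝ)|) ^ p := by
        rw [mul_pow]; ring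
    _ ≤ C * (1 + |(j : ℝ)|) ^ p := by gcongr; exact hC (s - j)

private lemma T4_sum {p : ℕ} (F : ℕ → ℤ → ℂ) (h : ∀ j, T4Dec p (F j)) (n : ℕ) :
    T4Dec p (fun s => ∑ j ∈ Finset.range n, F j s) := by
  induction n with
  | zero => exact ⟨0, fun s => by simp⟩
  | succ n ih =>
    have h1 := T4_add ih (h n)
    simpa only [Finset.sum_range_succ] using h1

private lemma T4_Vop {p : ℕ} (P Q : ℂ[X]) {y : ℤ → ℂ} (hy : T4Dec p y) :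
    T4Dec p (Vop P Q y) := by
  have h1 := T4_sum (fun j s => P.coeff j * y (s - j)) (fun j => T4_smul _ (T4_shift (j : ℤ) hy))
    (P.natDegree + 1)
  have h2 := T4_sum (fun j s => Q.coeff j * y (s + j)) (fun j => by
    have h3 := T4_smul (Q.coeff j) (T4_shift (-(j : ℤ)) hy)
    simpa only [sub_neg_eq_add] using h3) (Q.natDegree + 1)
  exact T4_add h1 h2

private lemma T4_step {p : ℕ} (P Q : ℂ[X]) (μ : ℂ) {y : ℤ → ℂ} (hz : T4Dec p (Tsh P Q μ y))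
    (hy : T4Dec p y) : T4Dec (p + 2) y := by
  obtain ⟨A, hA⟩ := hz
  obtain ⟨B, hB⟩ := T4_Vop P Q hy
  obtain ⟨C, hC⟩ := hy
  refine ⟨2 * C + (A + B + ‖μ‖ * C), fun s => ?_⟩
  have h1 : (4 * (s : ℂ) ^ 2) * y s = Tsh P Q μ y s - Vop P Q y s + μ * y s := by
    simp only [Tsh, Top]; ring
  have h2 : 4 * (s : ℝ) ^ 2 * ‖y s‖ ≤ ‖Tsh P Q μ y s‖ + ‖Vop P Q y s‖ + ‖μ‖ * ‖y s‖ := by
    have h3 : ‖(4 * (s : ℂ) ^ 2) * y s‖ = 4 * (s : ℝ) ^ 2 * ‖y s‖ := by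
      rw [norm_mul, norm_mul, norm_pow]
      have h4 : ‖(s : ℂ)‖ = |(s : ℝ)| := by
        have h5 : (s : ℂ) = ((s : ℝ) : ℂ) := by push_cast; rfl
        rw [h5, Complex.norm_real, Real.norm_eq_abs]
      rw [h4, sq_abs]; simp
    rw [← h3, h1]
    calc ‖Tsh P Q μ y s - Vop P Q y s + μ * y s‖
        ≤ ‖Tsh P Q μ y s - Vop P Q y s‖ + ‖μ * y s‖ := norm_add_le _ _
      _ ≤ ‖Tsh P Q μ y s‖ + ‖Vop P Q y s‖ + ‖μ‖ * ‖y s‖ := by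
          rw [norm_mul]
          gcongr
          exact norm_sub_le _ _
  have h5 : (1 + |(s : ℝ)|) ^ 2 ≤ 2 + 4 * (s : ℝ) ^ 2 := by
    have h6 := sq_abs (s : ℝ)
    nlinarith [sq_nonneg (1 - |(s : ℝ)|), h6, sq_nonneg (s : ℝ)]
  set w : ℝ := (1 + |(s : ℝ)|) ^ p with hw
  have hw0 : 0 ≤ w := by rw [hw]; positivity
  have h7 := hA s
  have h8 := hB s
  have h9 := hC s
  rw [← hw] at h7 h8 h9
  have h10 : ‖μ‖ * (‖y s‖ * w) ≤ ‖μ‖ * C := mul_le_mul_of_nonneg_left h9 (norm_nonneg μ)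
  calc ‖y s‖ * (1 + |(s : ℝ)|) ^ (p + 2) = ‖y s‖ * w * (1 + |(s : ℝ)|) ^ 2 := by
        rw [pow_add, hw]; ring
    _ ≤ ‖y s‖ * w * (2 + 4 * (s : ℝ) ^ 2) := by gcongr
    _ = 2 * (‖y s‖ * w) + (4 * (s : ℝ) ^ 2 * ‖y s‖) * w := by ring
    _ ≤ 2 * (‖y s‖ * w) + (‖Tsh P Q μ y s‖ + ‖Vop P Q y s‖ + ‖μ‖ * ‖y s‖) * w := by gcongr
    _ = 2 * (‖y s‖ * w) + (‖Tsh P Q μ y s‖ * w + ‖Vop P Q y s‖ * w + ‖μ‖ * (‖y s‖ * w)) := by ring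
    _ ≤ 2 * C + (A + B + ‖μ‖ * C) := by linarith

private lemma T4_mono {p q : ℕ} (hpq : p ≤ q) {y : ℤ → ℂ} (hy : T4Dec q y) : T4Dec p y := by
  obtain ⟨C, hC⟩ := hy
  refine ⟨C, fun s => le_trans ?_ (hC s)⟩
  have h1 : (1 : ℝ) ≤ 1 + |(s : ℝ)| := by linarith [abs_nonneg (s : ℝ)]
  have h2 := pow_le_pow_right₀ h1 hpq
  exact mul_le_mul_of_nonneg_left h2 (norm_nonneg _)

private lemma T4_all (P Q : ℂ[X]) (μ : ℂ) {y : ℤ → ℂ} (h0 : T4Dec 0 y)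
    (hz : ∀ p, T4Dec p (Tsh P Q μ y)) (p : ℕ) : T4Dec p y := by
  have h1 : ∀ k : ℕ, T4Dec (2 * k) y := by
    intro k
    induction k with
    | zero => exact h0
    | succ k ih =>
      have h2 := T4_step P Q μ (hz (2 * k)) ih
      exact h2
  exact T4_mono (by omega) (h1 p)

private lemma T4_bdd {y : ℤ → ℂ} (hy : Memℓp y 2) : T4Dec 0 y := by
  have h1 : Memℓp y ⊤ := hy.of_exponent_ge le_top
  obtain ⟨C, hC⟩ := (memℓp_infty_iff.1 h1)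
  refine ⟨C, fun s => ?_⟩
  rw [pow_zero, mul_one]
  exact hC ⟨s, rfl⟩

private lemma T4_main (P Q : ℂ[X]) (μ : ℂ) (N : ℕ) : ∀ y : ℤ → ℂ,
    (∀ i : ℕ, Memℓp ((Tsh P Q μ)^[i] y) 2) → (Tsh P Q μ)^[N] y = 0 → ∀ p, T4Dec p y := by
  induction N with
  | zero =>
    intro y _ h p
    have h1 : y = 0 := h
    refine ⟨0, fun s => ?_⟩
    rw [h1]; simp
  | succ N ih =>
    intro y hm h p
    refine T4_all P Q μ (T4_bdd (hm 0)) (ih (Tsh P Q μ y) (fun i => ?_) ?_) p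
    · have h1 := hm (i + 1)
      rwa [Function.iterate_succ_apply] at h1
    · rwa [Function.iterate_succ_apply] at h

theorem p_T4 : S_T4 := by
  intro P Q μ x hx p
  obtain ⟨h1, N, h2⟩ := hx
  exact T4_main P Q μ N x h1 h2 p

end HillRoots
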