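import Pool.Agent.Lib.MP_e63cf8_mp.StmA

open Polynomial Filter Topology MeasureTheory Asymptotics
open scoped ContDiff

namespace HillRoots

private noncomputable def p_T5_term (a : ℂ) (s : ℤ) (t : ℝ) : ℂ := a * Complex.exp (2 * s * t * Complex.I)

private theorem p_T5_hasDeriv (a : ℂ) (s : ℤ) (t : ℝ) :
    HasDerivAt (p_T5_term a s) (p_T5_term (a * (2 * s * Complex.I)) s t) t := by
  unfold p_T5_term
  have h1 : HasDerivAt (fun t : ℝ => (2 * (s : ℂ) * (t : ℂ) * Complex.I)) (2 * s * Complex.I) t := by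
    have := ((Complex.ofRealCLM.hasDerivAt (x := t)).const_mul (2 * (s : ℂ))).mul_const Complex.I
    simpa using this
  have h2 := (h1.cexp).const_mul a
  refine h2.congr_deriv ?_
  ring

private theorem p_T5_iter (s : ℤ) (k : ℕ) : ∀ a : ℂ,
    iteratedDeriv k (p_T5_term a s) = p_T5_term (a * (2 * s * Complex.I) ^ k) s := by
  induction k with
  | zero => intro a; simp
  | succ k ih =>
    intro a
    rw [iteratedDeriv_succ', show deriv (p_T5_term a s) = p_T5_term (a * (2 * s * Complex.I)) s from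
      funext fun t => (p_T5_hasDeriv a s t).deriv, ih]
    congr 1
    ring

private theorem p_T5_norm (a : ℂ) (s : ℤ) (t : ℝ) : ‖p_T5_term a s t‖ = ‖a‖ := by
  unfold p_T5_term
  rw [norm_mul, show (2 * (s : ℂ) * (t : ℂ) * Complex.I) = ((2 * (s : ℝ) * t : ℝ) : ℂ) * Complex.I by push_cast; ring,
    Complex.norm_exp_ofReal_mul_I, mul_one]

private theorem p_T5_contDiff (a : ℂ) (s : ℤ) : ContDiff ℝ ∞ (p_T5_term a s) := by
  unfold p_T5_term
  have h1 : ContDiff ℝ ∞ (fun t : ℝ => (2 * (s : ℂ) * (t : ℂ) * Complex.I)) :=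
    (contDiff_const.mul Complex.ofRealCLM.contDiff).mul contDiff_const
  exact contDiff_const.mul h1.cexp

private theorem p_T5_summable (x : ℤ → ℂ)
    (hx : ∀ p : ℕ, ∃ C : ℝ, ∀ s : ℤ, ‖x s‖ * (1 + |(s : ℝ)|) ^ p ≤ C) (k : ℕ) :
    Summable (fun s : ℤ => ‖x s * (2 * s * Complex.I) ^ k‖) := by
  obtain ⟨C, hC⟩ := hx (k + 2)
  have h0 : Summable (fun n : ℤ => (2 ^ k * C) * (1 / |(n : ℝ) + 1 / 2| ^ (2 : ℝ))) :=
    ((Real.summable_one_div_int_add_rpow (1 / 2) 2).mpr (by norm_num)).mul_left _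
  refine Summable.of_nonneg_of_le (fun _ => norm_nonneg _) (fun s => ?_) h0
  have hC0 : 0 ≤ C := le_trans (by positivity) (hC 0)
  have hs : 0 < |(s : ℝ) + 1 / 2| := by
    rw [abs_pos]
    intro h
    have : (2 * s + 1 : ℝ) = 0 := by linarith
    have h2 : (2 * s + 1 : ℤ) = 0 := by exact_mod_cast this
    omega
  have hle : |(s : ℝ) + 1 / 2| ≤ 1 + |(s : ℝ)| := by
    refine (abs_add_le _ _).trans ?_
    rw [abs_of_pos (show (0 : ℝ) < 1 / 2 by norm_num)]
    linarith
  have hn : ‖x s * (2 * s * Complex.I) ^ k‖ = ‖x s‖ * (2 ^ k * |(s : ℝ)| ^ k) := by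
    rw [norm_mul, norm_pow, norm_mul, norm_mul, Complex.norm_I, mul_one, ← mul_pow]
    simp
  rw [hn, mul_one_div, Real.rpow_two, le_div_iff₀ (by positivity)]
  have h3 : |(s : ℝ)| ^ k * |(s : ℝ) + 1 / 2| ^ 2 ≤ (1 + |(s : ℝ)|) ^ (k + 2) := by
    rw [pow_add]
    gcongr
    linarith
  calc ‖x s‖ * (2 ^ k * |(s : ℝ)| ^ k) * |(s : ℝ) + 1 / 2| ^ 2
      = 2 ^ k * (‖x s‖ * (|(s : ℝ)| ^ k * |(s : ℝ) + 1 / 2| ^ 2)) := by ring
    _ ≤ 2 ^ k * (‖x s‖ * (1 + |(s : ℝ)|) ^ (k + 2)) := by gcongr
    _ ≤ 2 ^ k * C := by gcongr; exact hC s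

private theorem p_T5_integral (m : ℤ) :
    (∫ t in (0 : ℝ)..Real.pi, Complex.exp (2 * m * t * Complex.I)) = if m = 0 then (Real.pi : ℂ) else 0 := by
  split_ifs with hm
  · subst hm
    simp
  · have hc : (2 * (m : ℂ) * Complex.I) ≠ 0 := by
      simp [hm, Complex.I_ne_zero]
    have h := integral_exp_mul_complex (a := 0) (b := Real.pi) hc
    have h2 : (fun t : ℝ => Complex.exp (2 * m * t * Complex.I)) =
        fun t : ℝ => Complex.exp (2 * (m : ℂ) * Complex.I * t) := by
      funext t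
      congr 1
      ring
    rw [h2, h]
    have h3 : Complex.exp (2 * (m : ℂ) * Complex.I * (Real.pi : ℝ)) = 1 := by
      rw [Complex.exp_eq_one_iff]
      exact ⟨m, by ring⟩
    rw [h3]
    simp

theorem p_T5 : S_T5 := by
  intro x hx
  have hsum0 : Summable (fun s : ℤ => ‖x s‖) := by
    simpa using p_T5_summable x hx 0
  refine ⟨fun t => ∑' s : ℤ, p_T5_term (x s) s t, ?_, ?_, ?_⟩
  · refine contDiff_tsum (v := fun k s => ‖x s * (2 * s * Complex.I) ^ k‖) (fun s => p_T5_contDiff (x s) s)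
      (fun k _ => p_T5_summable x hx k) (fun k s t _ => ?_)
    rw [norm_iteratedFDeriv_eq_norm_iteratedDeriv, p_T5_iter, p_T5_norm]
  · intro t
    refine tsum_congr fun s => ?_
    unfold p_T5_term
    congr 1
    rw [Complex.exp_eq_exp_iff_exists_int]
    refine ⟨s, ?_⟩
    push_cast
    ring
  · funext s
    have hF : HasSum (fun m : ℤ => ∫ t in (0 : ℝ)..Real.pi, p_T5_term (x m) m t * Complex.exp (-(2 * s * t * Complex.I)))
        (∫ t in (0 : ℝ)..Real.pi, (∑' m : ℤ, p_T5_term (x m) m t) * Complex.exp (-(2 * s * t * Complex.I))) := by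
      refine intervalIntegral.hasSum_integral_of_dominated_convergence (fun m _ => ‖x m‖) (fun m => ?_) (fun m => ?_)
        ?_ ?_ ?_
      · refine Continuous.aestronglyMeasurable ?_
        refine ((p_T5_contDiff (x m) m).continuous).mul ?_
        fun_prop
      · refine Eventually.of_forall fun t _ => ?_
        rw [norm_mul, p_T5_norm, show (-(2 * (s : ℂ) * (t : ℂ) * Complex.I)) = ((-(2 * (s : ℝ) * t) : ℝ) : ℂ) * Complex.I by
          push_cast; ring, Complex.norm_exp_ofReal_mul_I, mul_one]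
      · exact Eventually.of_forall fun t _ => hsum0
      · exact intervalIntegrable_const
      · refine Eventually.of_forall fun t _ => ?_
        refine HasSum.mul_right _ (Summable.hasSum ?_)
        refine Summable.of_norm ?_
        simpa only [p_T5_norm] using hsum0
    have hterm : ∀ m : ℤ, (∫ t in (0 : ℝ)..Real.pi, p_T5_term (x m) m t * Complex.exp (-(2 * s * t * Complex.I))) =
        if m = s then x s * Real.pi else 0 := by
      intro m
      have h1 : (fun t : ℝ => p_T5_term (x m) m t * Complex.exp (-(2 * s * t * Complex.I))) =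
          fun t : ℝ => x m * Complex.exp (2 * ((m - s : ℤ) : ℂ) * t * Complex.I) := by
        funext t
        unfold p_T5_term
        rw [mul_assoc, ← Complex.exp_add]
        congr 2
        push_cast
        ring
      rw [h1, intervalIntegral.integral_const_mul, p_T5_integral]
      by_cases h : m = s
      · subst h
        simp
      · have h' : m - s ≠ 0 := sub_ne_zero.mpr h
        simp [h, h']
    have hres : HasSum (fun m : ℤ => if m = s then x s * (Real.pi : ℂ) else 0) (x s * Real.pi) :=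
      hasSum_ite_eq s _
    simp only [hterm] at hF
    have heq := hF.unique hres
    unfold fc
    rw [heq]
    have hpi : (Real.pi : ℂ) ≠ 0 := by exact_mod_cast Real.pi_ne_zero
    field_simp

end HillRoots
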