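import Pool.Agent.Lib.MP_e63cf8_mp.StmA

open Polynomial Filter Topology MeasureTheory Asymptotics
open scoped ContDiff

namespace HillRoots

private theorem p_T6_fc (y : ℝ → ℂ) (s : ℤ) : fc y s = fourierCoeffOn Real.pi_pos y s := by
  have hpi : (Real.pi : ℂ) ≠ 0 := by exact_mod_cast Real.pi_ne_zero
  rw [fourierCoeffOn_eq_integral, fc]
  rw [show (1 / (Real.pi : ℂ)) = ((1 / (Real.pi - 0) : ℝ) : ℂ) by simp, Complex.real_smul]
  congr 1
  refine intervalIntegral.integral_congr fun x _ => ?_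
  simp only [fourier_coe_apply, smul_eq_mul, sub_zero]
  rw [mul_comm]
  congr 2
  push_cast
  field_simp

theorem p_T6 : S_T6 := by
  intro y hc hper hfc
  have hL : MemLp y 2 (volume.restrict (Set.Ioc 0 Real.pi)) := by
    obtain ⟨C, hC⟩ := (isCompact_Icc (a := (0 : ℝ)) (b := Real.pi)).exists_bound_of_continuousOn
      hc.continuousOn
    exact MemLp.of_bound hc.aestronglyMeasurable C
      (ae_restrict_of_forall_mem measurableSet_Ioc fun x hx => hC x (Set.Ioc_subset_Icc_self hx))
  have hs := hasSum_sq_fourierCoeffOn Real.pi_pos hL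
  have h0 : (fun i : ℤ => ‖fourierCoeffOn Real.pi_pos y i‖ ^ 2) = fun _ => 0 := by
    funext i
    rw [← p_T6_fc, hfc]
    simp
  rw [h0] at hs
  have hI := hs.unique hasSum_zero
  have hI' : ∫ x in (0 : ℝ)..Real.pi, ‖y x‖ ^ 2 = 0 := by
    have hpi := Real.pi_pos
    rcases smul_eq_zero.1 hI with h | h
    · simp at h
    · exact h
  have hz : ∀ x ∈ Set.Icc (0 : ℝ) Real.pi, y x = 0 := by
    intro x hx
    by_contra hne
    have := intervalIntegral.integral_pos (f := fun x => ‖y x‖ ^ 2) Real.pi_pos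
      (hc.norm.pow 2).continuousOn (fun t _ => by positivity) ⟨x, hx, by positivity⟩
    rw [hI'] at this
    exact lt_irrefl _ this
  funext x
  obtain ⟨t, ht, hxt⟩ := hper.exists_mem_Ico₀ Real.pi_pos x
  rw [hxt, hz t ⟨ht.1, ht.2.le⟩]
  rfl

end HillRoots
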