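import Pool.Agent.Lib.MP_e63cf8_mp.StmA

/-!
# MP_e63cf8_mp, piece T7: the transfer theorem
-/

set_option autoImplicit false

open Polynomial Filter Topology MeasureTheory Asymptotics
open scoped ContDiff

namespace HillRoots

/-- the relation: `x` is the sequence of Fourier coefficients of the smooth periodic function `y` -/
def p_T7_Rel (y : ℝ → ℂ) (x : Hs) : Prop :=
  ContDiff ℝ ∞ y ∧ Function.Periodic y Real.pi ∧ ∀ s, x s = fc y s

theorem p_T7_memLp (y : ℝ → ℂ) (hy : Continuous y) :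
    MemLp y 2 (volume.restrict (Set.Ioc 0 Real.pi)) := by
  obtain ⟨C, hC⟩ := (isCompact_Icc (a := (0 : ℝ)) (b := Real.pi)).exists_bound_of_continuousOn
    hy.continuousOn
  refine MemLp.of_bound hy.aestronglyMeasurable C ?_
  filter_upwards [ae_restrict_mem measurableSet_Ioc] with t ht
  exact hC t (Set.Ioc_subset_Icc_self ht)

theorem p_T7_int (f : ℝ → ℂ) (hf : MemLp f 2 (volume.restrict (Set.Ioc 0 Real.pi))) :
    IntervalIntegrable f volume 0 Real.pi := by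
  rw [intervalIntegrable_iff_integrableOn_Ioc_of_le Real.pi_pos.le]
  exact hf.integrable one_le_two

theorem p_T7_int' (f : ℝ → ℂ) (hf : IntervalIntegrable f volume 0 Real.pi) (s : ℤ) :
    IntervalIntegrable (fun x => f x * Complex.exp (-(2 * s * x * Complex.I))) volume 0 Real.pi :=
  hf.mul_continuousOn (by fun_prop)

theorem p_T7_fc_add (f g : ℝ → ℂ) (hf : IntervalIntegrable f volume 0 Real.pi)
    (hg : IntervalIntegrable g volume 0 Real.pi) (s : ℤ) :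
    fc (fun x => f x + g x) s = fc f s + fc g s := by
  unfold fc
  rw [← mul_add, ← intervalIntegral.integral_add (p_T7_int' f hf s) (p_T7_int' g hg s)]
  congr 1
  refine intervalIntegral.integral_congr fun x _ => ?_
  simp only
  ring

theorem p_T7_fc_smul (f : ℝ → ℂ) (c : ℂ) (s : ℤ) :
    fc (fun x => c * f x) s = c * fc f s := by
  unfold fc
  have e : (fun x : ℝ => c * f x * Complex.exp (-(2 * s * x * Complex.I))) =
      fun x : ℝ => c * (f x * Complex.exp (-(2 * s * x * Complex.I))) := by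
    funext x; ring
  rw [e, intervalIntegral.integral_const_mul]
  ring

theorem p_T7_fc_zero (s : ℤ) : fc 0 s = 0 := by
  unfold fc
  simp

theorem p_T7_fc_sum (φ : ℕ → ℝ → ℂ) (hφ : ∀ n, IntervalIntegrable (φ n) volume 0 Real.pi)
    (c : ℕ → ℂ) (S : Finset ℕ) (s : ℤ) :
    IntervalIntegrable (fun x => ∑ n ∈ S, c n * φ n x) volume 0 Real.pi ∧
    fc (fun x => ∑ n ∈ S, c n * φ n x) s = ∑ n ∈ S, c n * fc (φ n) s := by
  classical
  induction S using Finset.induction_on with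
  | empty =>
    refine ⟨by simp, ?_⟩
    simp only [Finset.sum_empty]
    exact p_T7_fc_zero s
  | insert a S ha ih =>
    have h1 : IntervalIntegrable (fun x => c a * φ a x) volume 0 Real.pi := (hφ a).const_mul (c a)
    simp only [Finset.sum_insert ha]
    refine ⟨h1.add ih.1, ?_⟩
    rw [p_T7_fc_add _ _ h1 ih.1, p_T7_fc_smul, ih.2]

/-- the Fourier side of root functions -/
theorem p_T7_iter (hT1 : S_T1) (P Q : ℂ[X]) (μ : ℂ) (y : ℝ → ℂ) (h1 : ContDiff ℝ ∞ y)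
    (h2 : Function.Periodic y Real.pi) (i : ℕ) :
    ContDiff ℝ ∞ ((shiftOp 0 P Q μ)^[i] y) ∧ Function.Periodic ((shiftOp 0 P Q μ)^[i] y) Real.pi ∧
      fc ((shiftOp 0 P Q μ)^[i] y) = (Tsh P Q μ)^[i] (fc y) := by
  induction i with
  | zero => exact ⟨h1, h2, rfl⟩
  | succ i ih =>
    rw [Function.iterate_succ_apply', Function.iterate_succ_apply']
    obtain ⟨a, b, c⟩ := hT1 P Q μ _ ih.1 ih.2.1
    exact ⟨a, b, by rw [c, ih.2.2]⟩

theorem p_T7_coe (y : ℝ → ℂ) (x : Hs) (h : ∀ s, x s = fc y s) : (x : ℤ → ℂ) = fc y := funext h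

theorem p_T7_root (hT1 : S_T1) (hT2 : S_T2) (hT6 : S_T6) (P Q : ℂ[X]) (μ : ℂ) (y : ℝ → ℂ) (x : Hs)
    (h : p_T7_Rel y x) : y ∈ rootFun 0 P Q μ ↔ x ∈ seqRoot P Q μ := by
  obtain ⟨h1, h2, h3⟩ := h
  have hx := p_T7_coe y x h3
  constructor
  · rintro ⟨_, _, N, hN⟩
    refine ⟨fun i => ?_, N, ?_⟩
    · obtain ⟨a, _, c⟩ := p_T7_iter hT1 P Q μ y h1 h2 i
      obtain ⟨x', hx', _⟩ := hT2 _ (p_T7_memLp _ a.continuous)
      have : ((Tsh P Q μ)^[i] (x : ℤ → ℂ)) = (x' : ℤ → ℂ) := by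
        rw [hx, ← c]; exact (funext hx').symm
      rw [this]
      exact lp.memℓp x'
    · obtain ⟨_, _, c⟩ := p_T7_iter hT1 P Q μ y h1 h2 N
      rw [hx, ← c, hN]
      funext s
      exact p_T7_fc_zero s
  · rintro ⟨_, N, hN⟩
    refine ⟨h1, h2, N, ?_⟩
    obtain ⟨a, b, c⟩ := p_T7_iter hT1 P Q μ y h1 h2 N
    refine hT6 _ a.continuous b ?_
    rw [c, ← hx, hN]

theorem p_T7_exX (hT2 : S_T2) (y : ℝ → ℂ) (h1 : ContDiff ℝ ∞ y)
    (h2 : Function.Periodic y Real.pi) : ∃ x, p_T7_Rel y x := by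
  obtain ⟨x, hx, _⟩ := hT2 y (p_T7_memLp y h1.continuous)
  exact ⟨x, h1, h2, hx⟩

theorem p_T7_exY (hT4 : S_T4) (hT5 : S_T5) (P Q : ℂ[X]) (μ : ℂ) (x : Hs)
    (h : x ∈ seqRoot P Q μ) : ∃ y, p_T7_Rel y x := by
  obtain ⟨y, h1, h2, h3⟩ := hT5 x (hT4 P Q μ x h)
  exact ⟨y, h1, h2, fun s => by rw [h3]⟩

theorem p_T7_add (y y' : ℝ → ℂ) (x x' : Hs) (h : p_T7_Rel y x) (h' : p_T7_Rel y' x') :
    p_T7_Rel (y + y') (x + x') := by
  refine ⟨h.1.add h'.1, h.2.1.add h'.2.1, fun s => ?_⟩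
  have e := p_T7_fc_add y y' (h.1.continuous.intervalIntegrable _ _)
    (h'.1.continuous.intervalIntegrable _ _) s
  rw [show fc (y + y') s = fc (fun x => y x + y' x) s from rfl, e, ← h.2.2 s, ← h'.2.2 s]
  rfl

theorem p_T7_smul (c : ℂ) (y : ℝ → ℂ) (x : Hs) (h : p_T7_Rel y x) :
    p_T7_Rel (c • y) (c • x) := by
  refine ⟨h.1.const_smul c, fun t => ?_, fun s => ?_⟩
  · have := h.2.1 t
    simp only [Pi.smul_apply, this]
  · have e := p_T7_fc_smul y c s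
    rw [show fc (c • y) s = fc (fun x => c * y x) s from rfl, e, ← h.2.2 s]
    rfl

theorem p_T7_zero : p_T7_Rel 0 0 := by
  refine ⟨contDiff_const, fun _ => rfl, fun s => ?_⟩
  rw [p_T7_fc_zero]
  rfl

theorem p_T7_injX (y : ℝ → ℂ) (x x' : Hs) (h : p_T7_Rel y x) (h' : p_T7_Rel y x') : x = x' := by
  ext s
  rw [h.2.2 s, h'.2.2 s]

theorem p_T7_injY (hT6 : S_T6) (y y' : ℝ → ℂ) (x : Hs) (h : p_T7_Rel y x) (h' : p_T7_Rel y' x) :
    y = y' := by
  have h1 := p_T7_add _ _ _ _ h (p_T7_smul (-1) y' x h')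
  have h2 : y + (-1 : ℂ) • y' = 0 := by
    refine hT6 _ h1.1.continuous h1.2.1 ?_
    funext s
    rw [← h1.2.2 s]
    simp
  have h3 : y - y' = 0 := by rw [← h2]; simp [sub_eq_add_neg]
  exact sub_eq_zero.1 h3

theorem p_T7_sum {ι : Type*} (S : Finset ι) (c : ι → ℂ) (φ : ι → ℝ → ℂ) (φ' : ι → Hs)
    (h : ∀ n, p_T7_Rel (φ n) (φ' n)) :
    p_T7_Rel (∑ n ∈ S, c n • φ n) (∑ n ∈ S, c n • φ' n) := by
  classical
  induction S using Finset.induction_on with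
  | empty => simpa using p_T7_zero
  | insert a S ha ih =>
    rw [Finset.sum_insert ha, Finset.sum_insert ha]
    exact p_T7_add _ _ _ _ (p_T7_smul _ _ _ (h a)) ih

theorem p_T7_lin (hT6 : S_T6) {ι : Type*} (φ : ι → ℝ → ℂ) (φ' : ι → Hs)
    (h : ∀ n, p_T7_Rel (φ n) (φ' n)) :
    LinearIndependent ℂ φ ↔ LinearIndependent ℂ φ' := by
  rw [linearIndependent_iff', linearIndependent_iff']
  have key : ∀ (S : Finset ι) (c : ι → ℂ), ∑ n ∈ S, c n • φ n = 0 ↔ ∑ n ∈ S, c n • φ' n = 0 := by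
    intro S c
    have hr := p_T7_sum S c φ φ' h
    constructor
    · intro h0
      rw [h0] at hr
      exact p_T7_injX _ _ _ hr p_T7_zero
    · intro h0
      rw [h0] at hr
      exact p_T7_injY hT6 _ _ _ hr p_T7_zero
  constructor
  · intro H S c hc
    exact H S c ((key S c).2 hc)
  · intro H S c hc
    exact H S c ((key S c).1 hc)

theorem p_T7_spanY (φ : ℕ → ℝ → ℂ) (φ' : ℕ → Hs) (h : ∀ n, p_T7_Rel (φ n) (φ' n)) (A : Set ℕ)
    (y : ℝ → ℂ) (hy : y ∈ Submodule.span ℂ (φ '' A)) :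
    ∃ x ∈ Submodule.span ℂ (φ' '' A), p_T7_Rel y x := by
  induction hy using Submodule.span_induction with
  | mem y hy =>
    obtain ⟨n, hn, rfl⟩ := hy
    exact ⟨φ' n, Submodule.subset_span ⟨n, hn, rfl⟩, h n⟩
  | zero => exact ⟨0, Submodule.zero_mem _, p_T7_zero⟩
  | add y y' _ _ h1 h2 =>
    obtain ⟨x, hx, hr⟩ := h1
    obtain ⟨x', hx', hr'⟩ := h2
    exact ⟨x + x', Submodule.add_mem _ hx hx', p_T7_add _ _ _ _ hr hr'⟩
  | smul c y _ h1 =>
    obtain ⟨x, hx, hr⟩ := h1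
    exact ⟨c • x, Submodule.smul_mem _ _ hx, p_T7_smul _ _ _ hr⟩

theorem p_T7_spanX (φ : ℕ → ℝ → ℂ) (φ' : ℕ → Hs) (h : ∀ n, p_T7_Rel (φ n) (φ' n)) (A : Set ℕ)
    (x : Hs) (hx : x ∈ Submodule.span ℂ (φ' '' A)) :
    ∃ y ∈ Submodule.span ℂ (φ '' A), p_T7_Rel y x := by
  induction hx using Submodule.span_induction with
  | mem x hx =>
    obtain ⟨n, hn, rfl⟩ := hx
    exact ⟨φ n, Submodule.subset_span ⟨n, hn, rfl⟩, h n⟩
  | zero => exact ⟨0, Submodule.zero_mem _, p_T7_zero⟩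
  | add x x' _ _ h1 h2 =>
    obtain ⟨y, hy, hr⟩ := h1
    obtain ⟨y', hy', hr'⟩ := h2
    exact ⟨y + y', Submodule.add_mem _ hy hy', p_T7_add _ _ _ _ hr hr'⟩
  | smul c x _ h1 =>
    obtain ⟨y, hy, hr⟩ := h1
    exact ⟨c • y, Submodule.smul_mem _ _ hy, p_T7_smul _ _ _ hr⟩

theorem p_T7_span (hT1 : S_T1) (hT2 : S_T2) (hT4 : S_T4) (hT5 : S_T5) (hT6 : S_T6) (P Q : ℂ[X])
    (μ : ℂ) (φ : ℕ → ℝ → ℂ) (φ' : ℕ → Hs) (h : ∀ n, p_T7_Rel (φ n) (φ' n)) (A : Set ℕ) :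
    (Submodule.span ℂ (φ '' A) : Set (ℝ → ℂ)) = rootFun 0 P Q μ ↔
      (Submodule.span ℂ (φ' '' A) : Set Hs) = seqRoot P Q μ := by
  have hroot := p_T7_root hT1 hT2 hT6 P Q μ
  constructor
  · intro H
    ext x
    constructor
    · intro hx
      obtain ⟨y, hy, hr⟩ := p_T7_spanX φ φ' h A x hx
      have : y ∈ rootFun 0 P Q μ := by rw [← H]; exact hy
      exact (hroot y x hr).1 this
    · intro hx
      obtain ⟨y, hr⟩ := p_T7_exY hT4 hT5 P Q μ x hx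
      have : y ∈ (Submodule.span ℂ (φ '' A) : Set (ℝ → ℂ)) := by
        rw [H]; exact (hroot y x hr).2 hx
      obtain ⟨x', hx', hr'⟩ := p_T7_spanY φ φ' h A y this
      rw [p_T7_injX y x x' hr hr']
      exact hx'
  · intro H
    ext y
    constructor
    · intro hy
      obtain ⟨x, hx, hr⟩ := p_T7_spanY φ φ' h A y hy
      have : x ∈ seqRoot P Q μ := by rw [← H]; exact hx
      exact (hroot y x hr).2 this
    · intro hy
      obtain ⟨x, hr⟩ := p_T7_exX hT2 y hy.1 hy.2.1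
      have : x ∈ (Submodule.span ℂ (φ' '' A) : Set Hs) := by
        rw [H]; exact (hroot y x hr).1 hy
      obtain ⟨y', hy', hr'⟩ := p_T7_spanX φ φ' h A x this
      rw [p_T7_injY hT6 y y' x hr hr']
      exact hy'

theorem p_T7_conv (hT2 : S_T2) (φ : ℕ → ℝ → ℂ) (φ' : ℕ → Hs) (h : ∀ n, p_T7_Rel (φ n) (φ' n))
    (f : ℝ → ℂ) (hf : MemLp f 2 (volume.restrict (Set.Ioc 0 Real.pi))) (a : Hs)
    (ha : ∀ s, a s = fc f s) (c : ℕ → ℂ) :
    Tendsto (fun N : ℕ => eLpNorm (fun x => f x - ∑ n ∈ Finset.range N, c n * φ n x) 2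
      (volume.restrict (Set.Ioc 0 Real.pi))) atTop (𝓝 0) ↔
    Tendsto (fun N : ℕ => ∑ n ∈ Finset.range N, c n • φ' n) atTop (𝓝 a) := by
  have hint : ∀ n, IntervalIntegrable (φ n) volume 0 Real.pi := fun n =>
    (h n).1.continuous.intervalIntegrable _ _
  have hmem : ∀ N : ℕ, MemLp (fun x => f x - ∑ n ∈ Finset.range N, c n * φ n x) 2
      (volume.restrict (Set.Ioc 0 Real.pi)) := by
    intro N
    refine hf.sub ?_
    refine p_T7_memLp _ ?_
    exact continuous_finsetSum _ fun n _ => continuous_const.mul (h n).1.continuous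
  have hval : ∀ N : ℕ, (eLpNorm (fun x => f x - ∑ n ∈ Finset.range N, c n * φ n x) 2
      (volume.restrict (Set.Ioc 0 Real.pi))).toReal =
      Real.sqrt Real.pi * ‖∑ n ∈ Finset.range N, c n • φ' n - a‖ := by
    intro N
    obtain ⟨x, hx, hn⟩ := hT2 _ (hmem N)
    rw [hn, norm_sub_rev]
    congr 2
    ext s
    rw [hx s]
    obtain ⟨i1, i2⟩ := p_T7_fc_sum φ hint c (Finset.range N) s
    have e1 : fc (fun x => f x - ∑ n ∈ Finset.range N, c n * φ n x) s =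
        fc f s - ∑ n ∈ Finset.range N, c n * fc (φ n) s := by
      have := p_T7_fc_add f (fun x => (-1 : ℂ) * ∑ n ∈ Finset.range N, c n * φ n x)
        (p_T7_int f hf) (i1.const_mul (-1)) s
      rw [p_T7_fc_smul, i2] at this
      have e2 : (fun x => f x - ∑ n ∈ Finset.range N, c n * φ n x) =
          (fun x => f x + (-1 : ℂ) * ∑ n ∈ Finset.range N, c n * φ n x) := by
        funext x; ring
      rw [e2, this]
      ring
    rw [e1]
    have e3 : (∑ n ∈ Finset.range N, c n • φ' n : Hs) s = ∑ n ∈ Finset.range N, c n * fc (φ n) s := by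
      rw [lp.coeFn_sum, Finset.sum_apply]
      refine Finset.sum_congr rfl fun n _ => ?_
      rw [lp.coeFn_smul, Pi.smul_apply, smul_eq_mul, (h n).2.2 s]
    rw [lp.coeFn_sub, Pi.sub_apply, e3, ha s]
  have h0 : ∀ N : ℕ, eLpNorm (fun x => f x - ∑ n ∈ Finset.range N, c n * φ n x) 2
      (volume.restrict (Set.Ioc 0 Real.pi)) ≠ ⊤ := fun N => (hmem N).eLpNorm_lt_top.ne
  rw [← ENNReal.tendsto_toReal_iff h0 ENNReal.zero_ne_top]
  rw [tendsto_iff_norm_sub_tendsto_zero (b := a)]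
  simp only [hval, ENNReal.toReal_zero]
  have hpi : 0 < Real.sqrt Real.pi := Real.sqrt_pos.2 Real.pi_pos
  constructor
  · intro H
    have := H.const_mul (Real.sqrt Real.pi)⁻¹
    rw [mul_zero] at this
    refine this.congr fun N => ?_
    rw [← mul_assoc, inv_mul_cancel₀ hpi.ne', one_mul]
  · intro H
    have := H.const_mul (Real.sqrt Real.pi)
    rwa [mul_zero] at this

theorem p_T7_schauder (hT2 : S_T2) (hT3 : S_T3) (φ : ℕ → ℝ → ℂ) (φ' : ℕ → Hs)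
    (h : ∀ n, p_T7_Rel (φ n) (φ' n)) : IsSchauder φ ↔ SchauderH φ' := by
  constructor
  · intro H a
    obtain ⟨f, hf, hfa⟩ := hT3 a
    have key := p_T7_conv hT2 φ φ' h f hf a (fun s => (hfa s).symm)
    obtain ⟨c, hc, hu⟩ := H f hf
    exact ⟨c, (key c).1 hc, fun c' hc' => hu c' ((key c').2 hc')⟩
  · intro H f hf
    obtain ⟨a, ha, _⟩ := hT2 f hf
    have key := p_T7_conv hT2 φ φ' h f hf a ha
    obtain ⟨c, hc, hu⟩ := H a
    exact ⟨c, (key c).2 hc, fun c' hc' => hu c' ((key c').1 hc')⟩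

theorem p_T7 (hT1 : S_T1) (hT2 : S_T2) (hT3 : S_T3) (hT4 : S_T4) (hT5 : S_T5) (hT6 : S_T6) :
    S_T7 := by
  intro P Q
  constructor
  · rintro ⟨φ, ev, hl, hs, hb⟩
    have hmem : ∀ n, φ n ∈ rootFun 0 P Q (ev n) := by
      intro n
      rw [← hs (ev n)]
      exact Submodule.subset_span ⟨n, rfl, rfl⟩
    choose φ' hφ' using fun n => p_T7_exX hT2 (φ n) (hmem n).1 (hmem n).2.1
    refine ⟨φ', ev, fun μ => ?_, fun μ => ?_, (p_T7_schauder hT2 hT3 φ φ' hφ').1 hb⟩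
    · exact (p_T7_lin hT6 (fun n : {n : ℕ // ev n = μ} => φ n)
        (fun n : {n : ℕ // ev n = μ} => φ' n) fun n => hφ' n).1 (hl μ)
    · exact (p_T7_span hT1 hT2 hT4 hT5 hT6 P Q μ φ φ' hφ' _).1 (hs μ)
  · rintro ⟨φ', ev, hl, hs, hb⟩
    have hmem : ∀ n, φ' n ∈ seqRoot P Q (ev n) := by
      intro n
      rw [← hs (ev n)]
      exact Submodule.subset_span ⟨n, rfl, rfl⟩
    choose φ hφ using fun n => p_T7_exY hT4 hT5 P Q (ev n) (φ' n) (hmem n)
    refine ⟨φ, ev, fun μ => ?_, fun μ => ?_, (p_T7_schauder hT2 hT3 φ φ' hφ).2 hb⟩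
    · exact (p_T7_lin hT6 (fun n : {n : ℕ // ev n = μ} => φ n)
        (fun n : {n : ℕ // ev n = μ} => φ' n) fun n => hφ n).2 (hl μ)
    · exact (p_T7_span hT1 hT2 hT4 hT5 hT6 P Q μ φ φ' hφ _).2 (hs μ)

end HillRoots
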