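import Pool.Agent.Lib.MP_e63cf8_mp.StmC

/-!
# MP_e63cf8_mp, piece U1: the `τ_k` are small
-/

open Polynomial Filter Topology MeasureTheory Asymptotics

namespace HillRoots

theorem p_U1 : S_U1 := by
  intro M ε hM hε
  have hM' : (0 : ℝ) < M := by exact_mod_cast hM
  have hpos : (0 : ℝ) < 1 / (M : ℝ) := by positivity
  have hlim : Tendsto (fun n : ℕ => ((n : ℝ)) ^ (-(1 / (M : ℝ)))) atTop (𝓝 0) :=
    (tendsto_rpow_neg_atTop hpos).comp tendsto_natCast_atTop_atTop
  filter_upwards [hlim.eventually (gt_mem_nhds hε), eventually_ge_atTop 2] with n hn hn2 k hk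
  have hn2' : (2 : ℝ) ≤ n := by exact_mod_cast hn2
  unfold tau
  rcases Nat.eq_zero_or_pos k with rfl | hk0
  · rw [Nat.cast_zero, mul_zero, zero_mul, Real.zero_rpow (by
      intro h
      linarith)]
    exact ⟨le_refl _, hε.le⟩
  · have hk1 : (1 : ℝ) ≤ k := by exact_mod_cast hk0
    have hk2 : (k : ℝ) + 1 ≤ n := by exact_mod_cast hk
    have hE : (n : ℝ) ≤ 4 * (k : ℝ) * ((n : ℝ) - k) := by nlinarith
    have h0 : (0 : ℝ) ≤ 4 * (k : ℝ) * ((n : ℝ) - k) := by linarith
    refine ⟨Real.rpow_nonneg h0 _, ?_⟩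
    refine le_trans ?_ hn.le
    exact Real.rpow_le_rpow_of_nonpos (by linarith) hE (by linarith)

end HillRoots
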