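import Pool.Agent.Lib.MP_e63cf8_mp.StmC

/-! # Piece U3: the sum of the inverse energies -/

open Polynomial Filter Topology MeasureTheory Asymptotics

namespace HillRoots

theorem p_U3_harm (n : ℕ) : ∑ k ∈ Finset.Icc 1 n, 1 / (k : ℝ) ≤ 1 + Real.log n := by
  have h := harmonic_le_one_add_log n
  rw [harmonic_eq_sum_Icc] at h
  push_cast at h
  simpa only [one_div] using h

theorem p_U3_refl (n : ℕ) : ∑ k ∈ Finset.Icc 1 (n - 1), 1 / ((n : ℝ) - k) =
    ∑ k ∈ Finset.Icc 1 (n - 1), 1 / (k : ℝ) := by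
  refine Finset.sum_nbij' (fun k => n - k) (fun k => n - k) ?_ ?_ ?_ ?_ ?_
  · intro k hk
    rw [Finset.mem_Icc] at hk ⊢
    omega
  · intro k hk
    rw [Finset.mem_Icc] at hk ⊢
    omega
  · intro k hk
    rw [Finset.mem_Icc] at hk
    omega
  · intro k hk
    rw [Finset.mem_Icc] at hk
    omega
  · intro k hk
    rw [Finset.mem_Icc] at hk
    rw [Nat.cast_sub (by omega)]

theorem p_U3_sum (n : ℕ) (hn : 1 ≤ n) : ∑ k ∈ Finset.Icc 1 (n - 1), 1 / En n k =
    1 / (2 * (n : ℝ)) * ∑ k ∈ Finset.Icc 1 (n - 1), 1 / (k : ℝ) := by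
  have h1 : ∀ k ∈ Finset.Icc 1 (n - 1), 1 / En n k =
      1 / (4 * (n : ℝ)) * (1 / (k : ℝ) + 1 / ((n : ℝ) - k)) := by
    intro k hk
    rw [Finset.mem_Icc] at hk
    have hk0 : (k : ℝ) ≠ 0 := by
      have : k ≠ 0 := by omega
      exact_mod_cast this
    have hn0 : (n : ℝ) ≠ 0 := by
      have : n ≠ 0 := by omega
      exact_mod_cast this
    have hnk : (n : ℝ) - k ≠ 0 := by
      have : k < n := by omega
      have h' : (k : ℝ) < n := by exact_mod_cast this
      exact (sub_pos.2 h').ne'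
    unfold En
    rw [Int.cast_natCast]
    field_simp
    ring
  rw [Finset.sum_congr rfl h1, ← Finset.mul_sum, Finset.sum_add_distrib, p_U3_refl]
  have hn0 : (n : ℝ) ≠ 0 := by
    have : n ≠ 0 := by omega
    exact_mod_cast this
  field_simp
  ring

theorem p_U3 : S_U3 := by
  have hlim : Tendsto (fun n : ℕ => 1 / 2 * (1 / (n : ℝ) + Real.log n / n)) atTop (𝓝 0) := by
    have h1 : Tendsto (fun n : ℕ => 1 / (n : ℝ)) atTop (𝓝 0) := tendsto_one_div_atTop_nhds_zero_nat
    have h2 : Tendsto (fun n : ℕ => Real.log n / (n : ℝ)) atTop (𝓝 0) :=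
      (Real.isLittleO_log_id_atTop.tendsto_div_nhds_zero).comp tendsto_natCast_atTop_atTop
    have h3 := (h1.add h2).const_mul (1 / 2)
    simpa using h3
  refine squeeze_zero' ?_ ?_ hlim
  · filter_upwards [eventually_ge_atTop 1] with n hn
    rw [p_U3_sum n hn]
    exact mul_nonneg (by positivity) (Finset.sum_nonneg fun k _ => by positivity)
  · filter_upwards [eventually_ge_atTop 2] with n hn
    rw [p_U3_sum n (by omega)]
    have h1 := p_U3_harm (n - 1)
    have hn1 : (0 : ℝ) < n := by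
      have : 0 < n := by omega
      exact_mod_cast this
    have hlog : Real.log ((n - 1 : ℕ) : ℝ) ≤ Real.log n := by
      refine Real.log_le_log ?_ ?_
      · have : 0 < n - 1 := by omega
        exact_mod_cast this
      · have : n - 1 ≤ n := Nat.sub_le _ _
        exact_mod_cast this
    calc 1 / (2 * (n : ℝ)) * ∑ k ∈ Finset.Icc 1 (n - 1), 1 / (k : ℝ)
        ≤ 1 / (2 * (n : ℝ)) * (1 + Real.log n) :=
          mul_le_mul_of_nonneg_left (h1.trans (by linarith)) (by positivity)
      _ = 1 / 2 * (1 / (n : ℝ) + Real.log n / n) := by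
          field_simp

end HillRoots
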