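import Pool.Agent.Lib.MP_e63cf8_mp.StmC

/-! [U4] a sum over `k(n-k)` -/

open Filter Topology

namespace HillRoots

private lemma U4_term {θ : ℝ} (hθ : 0 < θ) {n k : ℕ} (hk : 1 ≤ k) (hkn : k + 1 ≤ n) :
    (4 * (k : ℝ) * ((n : ℝ) - k)) ^ (-θ) * (1 / (k : ℝ)) ≤
      (n : ℝ) ^ (-θ) * (1 / (k : ℝ) ^ (1 + θ) + 2 / n) := by
  have hk1 : (1 : ℝ) ≤ k := by exact_mod_cast hk
  have hkn1 : (k : ℝ) + 1 ≤ n := by exact_mod_cast hkn
  have hk0 : (0 : ℝ) < k := by linarith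
  have hn0 : (0 : ℝ) < n := by linarith
  have ha : 0 ≤ (n : ℝ) ^ (-θ) := Real.rpow_nonneg hn0.le _
  have hb : (0 : ℝ) ≤ 1 / (k : ℝ) ^ (1 + θ) := by positivity
  have hc : (0 : ℝ) ≤ 2 / n := by positivity
  by_cases h : 2 * (k : ℝ) ≤ n
  · have h1 : (k : ℝ) * n ≤ 4 * (k : ℝ) * ((n : ℝ) - k) := by nlinarith
    have h2 := Real.rpow_le_rpow_of_nonpos (z := -θ) (mul_pos hk0 hn0) h1 (by linarith)
    rw [Real.mul_rpow hk0.le hn0.le] at h2
    have h3 : (k : ℝ) ^ (-θ) * (1 / (k : ℝ)) = 1 / (k : ℝ) ^ (1 + θ) := by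
      rw [Real.rpow_add hk0, Real.rpow_one, Real.rpow_neg hk0.le]
      field_simp
    calc (4 * (k : ℝ) * ((n : ℝ) - k)) ^ (-θ) * (1 / (k : ℝ))
        ≤ ((k : ℝ) ^ (-θ) * (n : ℝ) ^ (-θ)) * (1 / (k : ℝ)) := by gcongr
      _ = (n : ℝ) ^ (-θ) * (1 / (k : ℝ) ^ (1 + θ)) := by rw [← h3]; ring
      _ ≤ _ := by
          apply mul_le_mul_of_nonneg_left _ ha
          linarith
  · have h' : (n : ℝ) < 2 * k := not_le.1 h
    have h1 : (n : ℝ) ≤ 4 * (k : ℝ) * ((n : ℝ) - k) := by nlinarith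
    have h2 := Real.rpow_le_rpow_of_nonpos (z := -θ) hn0 h1 (by linarith)
    have h3 : 1 / (k : ℝ) ≤ 2 / n := by
      rw [div_le_div_iff₀ hk0 hn0]; linarith
    calc (4 * (k : ℝ) * ((n : ℝ) - k)) ^ (-θ) * (1 / (k : ℝ))
        ≤ (n : ℝ) ^ (-θ) * (2 / n) := by
          apply mul_le_mul h2 h3 (by positivity) ha
      _ ≤ _ := by
          apply mul_le_mul_of_nonneg_left _ ha
          linarith

private lemma U4_sum1 {θ : ℝ} (hθ : 0 < θ) : ∃ Z : ℝ, ∀ n : ℕ,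
    ∑ k ∈ Finset.Icc 1 (n - 1), (4 * (k : ℝ) * ((n : ℝ) - k)) ^ (-θ) * (1 / (k : ℝ)) ≤
      (n : ℝ) ^ (-θ) * Z := by
  have hs : Summable (fun k : ℕ => 1 / (k : ℝ) ^ (1 + θ)) :=
    Real.summable_one_div_nat_rpow.2 (by linarith)
  refine ⟨∑' k : ℕ, 1 / (k : ℝ) ^ (1 + θ) + 2, fun n => ?_⟩
  have ha : 0 ≤ (n : ℝ) ^ (-θ) := Real.rpow_nonneg (Nat.cast_nonneg n) _
  calc ∑ k ∈ Finset.Icc 1 (n - 1), (4 * (k : ℝ) * ((n : ℝ) - k)) ^ (-θ) * (1 / (k : ℝ))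
      ≤ ∑ k ∈ Finset.Icc 1 (n - 1), (n : ℝ) ^ (-θ) * (1 / (k : ℝ) ^ (1 + θ) + 2 / n) := by
        apply Finset.sum_le_sum
        intro k hk
        rw [Finset.mem_Icc] at hk
        exact U4_term hθ hk.1 (by omega)
    _ = (n : ℝ) ^ (-θ) * (∑ k ∈ Finset.Icc 1 (n - 1), 1 / (k : ℝ) ^ (1 + θ) +
          ((n - 1 : ℕ) : ℝ) * (2 / n)) := by
        rw [← Finset.mul_sum, Finset.sum_add_distrib, Finset.sum_const, Nat.card_Icc,
          nsmul_eq_mul]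
        simp
    _ ≤ (n : ℝ) ^ (-θ) * (∑' k : ℕ, 1 / (k : ℝ) ^ (1 + θ) + 2) := by
        apply mul_le_mul_of_nonneg_left _ ha
        have h1 : ∑ k ∈ Finset.Icc 1 (n - 1), 1 / (k : ℝ) ^ (1 + θ) ≤
            ∑' k : ℕ, 1 / (k : ℝ) ^ (1 + θ) :=
          hs.sum_le_tsum _ (fun k _ => by positivity)
        have h2 : ((n - 1 : ℕ) : ℝ) * (2 / n) ≤ 2 := by
          rcases Nat.eq_zero_or_pos n with h | h
          · subst h; simp
          · have hn0 : (0 : ℝ) < n := by exact_mod_cast h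
            rw [mul_div_assoc', div_le_iff₀ hn0]
            have h3 : ((n - 1 : ℕ) : ℝ) ≤ n := by exact_mod_cast Nat.sub_le n 1
            linarith
        linarith

private lemma U4_refl (θ : ℝ) (n : ℕ) :
    ∑ k ∈ Finset.Icc 1 (n - 1), (4 * (k : ℝ) * ((n : ℝ) - k)) ^ (-θ) * (1 / ((n : ℝ) - k)) =
      ∑ k ∈ Finset.Icc 1 (n - 1), (4 * (k : ℝ) * ((n : ℝ) - k)) ^ (-θ) * (1 / (k : ℝ)) := by
  apply Finset.sum_nbij' (fun k => n - k) (fun k => n - k)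
  · intro k hk; rw [Finset.mem_Icc] at hk ⊢; omega
  · intro k hk; rw [Finset.mem_Icc] at hk ⊢; omega
  · intro k hk; rw [Finset.mem_Icc] at hk; omega
  · intro k hk; rw [Finset.mem_Icc] at hk; omega
  · intro k hk
    rw [Finset.mem_Icc] at hk
    have h1 : ((n - k : ℕ) : ℝ) = (n : ℝ) - k := by
      rw [Nat.cast_sub (by omega)]
    rw [h1]
    have h2 : 4 * (k : ℝ) * ((n : ℝ) - k) = 4 * ((n : ℝ) - k) * ((n : ℝ) - ((n : ℝ) - k)) := by
      ring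
    rw [← h2]

/-- [U4] -/
theorem p_U4 : S_U4 := by
  intro θ hθ
  obtain ⟨Z, hZ⟩ := U4_sum1 hθ
  have h0 : Tendsto (fun n : ℕ => (n : ℝ) ^ (-θ)) atTop (𝓝 0) :=
    (tendsto_rpow_neg_atTop hθ).comp tendsto_natCast_atTop_atTop
  have h1 : Tendsto (fun n : ℕ => 2 * ((n : ℝ) ^ (-θ) * Z)) atTop (𝓝 0) := by
    have h2 := (h0.mul_const Z).const_mul 2
    simpa using h2
  refine squeeze_zero (fun n => ?_) (fun n => ?_) h1
  · apply Finset.sum_nonneg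
    intro k hk
    rw [Finset.mem_Icc] at hk
    have hk1 : (1 : ℝ) ≤ k := by exact_mod_cast hk.1
    have hk2 : (k : ℝ) + 1 ≤ n := by
      have : k + 1 ≤ n := by omega
      exact_mod_cast this
    have h3 : (0 : ℝ) < (n : ℝ) - k := by linarith
    have h4 : 0 ≤ En n k := by
      unfold En
      push_cast
      have : (0 : ℝ) ≤ 4 * (k : ℝ) := by linarith
      exact mul_nonneg this h3.le
    have h5 := Real.rpow_nonneg h4 (-θ)
    have h6 : (0 : ℝ) ≤ 1 / (k : ℝ) + 1 / ((n : ℝ) - k) := by positivity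
    exact mul_nonneg h5 h6
  · have h3 : ∀ k : ℕ, En n k = 4 * (k : ℝ) * ((n : ℝ) - k) := by
      intro k; unfold En; push_cast; ring
    simp only [h3, mul_add, Finset.sum_add_distrib]
    rw [U4_refl]
    have h4 := hZ n
    linarith

end HillRoots
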