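import Pool.Agent.Lib.MP_e63cf8_mp.StmE

/-! Piece V1a: a Riemann sum with two integrable singularities -/

open Polynomial Filter Topology MeasureTheory Asymptotics

namespace HillRoots

private noncomputable def p_V1a_f (s u : ℝ) : ℝ := (u * (1 - u)) ^ (-s)

private lemma p_V1a_nonneg {s u : ℝ} (h0 : 0 ≤ u) (h1 : u ≤ 1) : 0 ≤ p_V1a_f s u :=
  Real.rpow_nonneg (mul_nonneg h0 (by linarith)) _

private lemma p_V1a_symm (s u : ℝ) : p_V1a_f s (1 - u) = p_V1a_f s u := by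
  unfold p_V1a_f
  congr 1
  ring

private lemma p_V1a_anti {s : ℝ} (hs : 0 < s) {u v : ℝ} (hu : 0 < u) (huv : u ≤ v) (hv : v ≤ 1 / 2) :
    p_V1a_f s v ≤ p_V1a_f s u := by
  unfold p_V1a_f
  refine Real.rpow_le_rpow_of_nonpos (mul_pos hu (by linarith)) ?_ (by linarith)
  nlinarith

private lemma p_V1a_le {s : ℝ} (hs : 0 < s) (hs1 : s < 1 / 2) {u : ℝ} (hu : 0 < u) (hu2 : u ≤ 1 / 2) :
    p_V1a_f s u ≤ 2 * u ^ (-s) := by
  unfold p_V1a_f
  have h1 : (u * (1 - u)) ^ (-s) ≤ (u * (1 / 2)) ^ (-s) := by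
    refine Real.rpow_le_rpow_of_nonpos (by positivity) ?_ (by linarith)
    nlinarith
  have h2 : (u * (1 / 2)) ^ (-s) = u ^ (-s) * (1 / 2) ^ (-s) :=
    Real.mul_rpow hu.le (by norm_num)
  have h3 : (1 / 2 : ℝ) ^ (-s) ≤ 2 := by
    have h4 : (1 / 2 : ℝ) ^ (-s) ≤ (1 / 2 : ℝ) ^ (-(1 : ℝ)) :=
      Real.rpow_le_rpow_of_exponent_ge (by norm_num) (by norm_num) (by linarith)
    refine h4.trans ?_
    rw [Real.rpow_neg_one]
    norm_num
  have h5 : 0 ≤ u ^ (-s) := Real.rpow_nonneg hu.le _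
  rw [h2] at h1
  nlinarith

private lemma p_V1a_int {s : ℝ} (hs : 0 < s) (hs1 : s < 1 / 2) {a b : ℝ} (ha : a ∈ Set.Icc (0 : ℝ) (1 / 2))
    (hb : b ∈ Set.Icc (0 : ℝ) (1 / 2)) : IntervalIntegrable (p_V1a_f s) volume a b := by
  have h1 : IntervalIntegrable (fun u : ℝ => u ^ (-s)) volume 0 (1 / 2) :=
    intervalIntegral.intervalIntegrable_rpow' (by linarith)
  have h2 : ContinuousOn (fun u : ℝ => (1 - u) ^ (-s)) (Set.uIcc (0 : ℝ) (1 / 2)) := by
    refine ContinuousOn.rpow_const (by fun_prop) fun x hx => Or.inl ?_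
    rw [Set.uIcc_of_le (by norm_num)] at hx
    have := hx.2
    intro h
    linarith
  have h3 := h1.mul_continuousOn h2
  have h4 : IntervalIntegrable (p_V1a_f s) volume 0 (1 / 2) := by
    refine h3.congr ?_
    rw [Set.uIoc_of_le (by norm_num)]
    intro x hx
    show x ^ (-s) * (1 - x) ^ (-s) = (x * (1 - x)) ^ (-s)
    rw [Real.mul_rpow hx.1.le (by linarith [hx.2])]
  refine h4.mono_set ?_
  rw [Set.uIcc_of_le (by norm_num : (0 : ℝ) ≤ 1 / 2)]
  exact Set.uIcc_subset_Icc ha hb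

/-- comparison on one half -/
private lemma p_V1a_half {s : ℝ} (hs : 0 < s) (hs1 : s < 1 / 2) {n p : ℕ} (hp : 1 ≤ p)
    (h1 : (p : ℝ) ≤ n / 2) (h2 : (n : ℝ) / 2 ≤ p + 1) :
    |∑ i ∈ Finset.range p, p_V1a_f s (((i : ℝ) + 1) / n) -
      n * ∫ u in (0 : ℝ)..(1 / 2), p_V1a_f s u| ≤
      p_V1a_f s (1 / n) + n * ∫ u in (0 : ℝ)..(1 / n), p_V1a_f s u := by
  have hp' : (1 : ℝ) ≤ p := by exact_mod_cast hp
  have hn : (0 : ℝ) < n := by linarith
  have hpc : 1 + ((p - 1 : ℕ) : ℝ) = p := by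
    rw [Nat.cast_sub hp]; push_cast; ring
  have hanti : AntitoneOn (fun x : ℝ => p_V1a_f s (x / n)) (Set.Icc (1 : ℝ) (1 + ((p - 1 : ℕ) : ℝ))) := by
    intro x hx y hy hxy
    rw [hpc] at hy
    refine p_V1a_anti hs (div_pos (by linarith [hx.1]) hn) (by gcongr) ?_
    rw [div_le_iff₀ hn]
    linarith [hy.2]
  have hI1 := hanti.integral_le_sum
  have hI2 := hanti.sum_le_integral
  rw [hpc, intervalIntegral.integral_comp_div (fun u => p_V1a_f s u) hn.ne', smul_eq_mul] at hI1 hI2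
  have hmem : ∀ x : ℝ, 0 ≤ x → x ≤ n / 2 → x / n ∈ Set.Icc (0 : ℝ) (1 / 2) := by
    intro x hx0 hx1
    refine ⟨by positivity, ?_⟩
    rw [div_le_iff₀ hn]
    linarith
  have m0 : (0 : ℝ) ∈ Set.Icc (0 : ℝ) (1 / 2) := ⟨le_rfl, by norm_num⟩
  have m2 : (1 / 2 : ℝ) ∈ Set.Icc (0 : ℝ) (1 / 2) := ⟨by norm_num, le_rfl⟩
  have m1 : (1 : ℝ) / n ∈ Set.Icc (0 : ℝ) (1 / 2) := hmem 1 zero_le_one (by linarith)
  have mp : (p : ℝ) / n ∈ Set.Icc (0 : ℝ) (1 / 2) := hmem p (by linarith) h1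
  have hS1 : ∑ i ∈ Finset.range (p - 1), p_V1a_f s ((1 + (i : ℝ)) / n) + p_V1a_f s (p / n)
      = ∑ i ∈ Finset.range p, p_V1a_f s (((i : ℝ) + 1) / n) := by
    obtain ⟨q, rfl⟩ : ∃ q, p = q + 1 := ⟨p - 1, by omega⟩
    rw [Nat.add_sub_cancel, Finset.sum_range_succ]
    congr 1
    · refine Finset.sum_congr rfl fun i _ => ?_
      rw [add_comm]
    · push_cast
      rfl
  have hS2 : ∑ i ∈ Finset.range (p - 1), p_V1a_f s ((1 + ((i + 1 : ℕ) : ℝ)) / n) + p_V1a_f s (1 / n)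
      = ∑ i ∈ Finset.range p, p_V1a_f s (((i : ℝ) + 1) / n) := by
    obtain ⟨q, rfl⟩ : ∃ q, p = q + 1 := ⟨p - 1, by omega⟩
    rw [Nat.add_sub_cancel, Finset.sum_range_succ']
    congr 1
    · refine Finset.sum_congr rfl fun i _ => ?_
      rw [add_comm]
    · norm_num
  have hsplit : ∫ u in (0 : ℝ)..(1 / 2), p_V1a_f s u =
      (∫ u in (0 : ℝ)..(1 / n), p_V1a_f s u) + (∫ u in (1 / n : ℝ)..(p / n), p_V1a_f s u) +
      ∫ u in (p / n : ℝ)..(1 / 2), p_V1a_f s u := by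
    rw [intervalIntegral.integral_add_adjacent_intervals (p_V1a_int hs hs1 m0 m1)
      (p_V1a_int hs hs1 m1 mp), intervalIntegral.integral_add_adjacent_intervals
      (p_V1a_int hs hs1 m0 mp) (p_V1a_int hs hs1 mp m2)]
  have hlast0 : 0 ≤ ∫ u in (p / n : ℝ)..(1 / 2), p_V1a_f s u := by
    refine intervalIntegral.integral_nonneg mp.2 fun u hu => ?_
    exact p_V1a_nonneg (mp.1.trans hu.1) (by linarith [hu.2])
  have hpn : 0 < (p : ℝ) / n := by positivity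
  have hlast1 : n * ∫ u in (p / n : ℝ)..(1 / 2), p_V1a_f s u ≤ p_V1a_f s (p / n) := by
    have h3 : ∫ u in (p / n : ℝ)..(1 / 2), p_V1a_f s u ≤
        ∫ u in (p / n : ℝ)..(1 / 2), p_V1a_f s (p / n) := by
      refine intervalIntegral.integral_mono_on mp.2 (p_V1a_int hs hs1 mp m2)
        intervalIntegrable_const fun u hu => ?_
      exact p_V1a_anti hs hpn hu.1 hu.2
    rw [intervalIntegral.integral_const, smul_eq_mul] at h3
    have h4 : (0 : ℝ) ≤ p_V1a_f s (p / n) := p_V1a_nonneg mp.1 (by linarith [mp.2])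
    have h5 : (n : ℝ) * (1 / 2 - p / n) ≤ 1 := by
      rw [mul_sub, mul_div_cancel₀ _ hn.ne']
      linarith
    calc n * ∫ u in (p / n : ℝ)..(1 / 2), p_V1a_f s u
        ≤ n * ((1 / 2 - p / n) * p_V1a_f s (p / n)) := by gcongr
      _ = (n * (1 / 2 - p / n)) * p_V1a_f s (p / n) := by ring
      _ ≤ 1 * p_V1a_f s (p / n) := by gcongr
      _ = _ := one_mul _
  have hfirst : 0 ≤ n * ∫ u in (0 : ℝ)..(1 / n), p_V1a_f s u := by
    refine mul_nonneg hn.le (intervalIntegral.integral_nonneg m1.1 fun u hu => ?_)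
    exact p_V1a_nonneg hu.1 (by linarith [hu.2, m1.2])
  have hnl : 0 ≤ n * ∫ u in (p / n : ℝ)..(1 / 2), p_V1a_f s u := mul_nonneg hn.le hlast0
  have hf1 : p_V1a_f s (p / n) ≤ p_V1a_f s (1 / n) :=
    p_V1a_anti hs (by positivity) (by gcongr) mp.2
  have hf0 : (0 : ℝ) ≤ p_V1a_f s (p / n) := p_V1a_nonneg mp.1 (by linarith [mp.2])
  rw [hsplit, abs_le]
  constructor
  · nlinarith
  · nlinarith

/-- the size of the error -/
private lemma p_V1a_err {s : ℝ} (hs : 0 < s) (hs1 : s < 1 / 2) {n : ℕ} (hn : 2 ≤ n) :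
    p_V1a_f s (1 / n) + n * ∫ u in (0 : ℝ)..(1 / n), p_V1a_f s u ≤
      (2 + 2 / (1 - s)) * (n : ℝ) ^ s := by
  have hn2 : (2 : ℝ) ≤ n := by exact_mod_cast hn
  have hn0 : (0 : ℝ) < n := by linarith
  have h1n : (1 : ℝ) / n ≤ 1 / 2 := one_div_le_one_div_of_le (by norm_num) hn2
  have hpos : (0 : ℝ) < 1 / n := by positivity
  have e1 : ((1 : ℝ) / n) ^ (-s) = (n : ℝ) ^ s := by
    rw [one_div, Real.inv_rpow hn0.le, Real.rpow_neg hn0.le, inv_inv]
  have h1 : p_V1a_f s (1 / n) ≤ 2 * (n : ℝ) ^ s := by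
    have h := p_V1a_le hs hs1 hpos h1n
    rwa [e1] at h
  have h2 : ∫ u in (0 : ℝ)..(1 / n), p_V1a_f s u ≤ ∫ u in (0 : ℝ)..(1 / n), 2 * u ^ (-s) := by
    refine intervalIntegral.integral_mono_on_of_le_Ioo hpos.le
      (p_V1a_int hs hs1 ⟨le_rfl, by norm_num⟩ ⟨hpos.le, h1n⟩)
      ((intervalIntegral.intervalIntegrable_rpow' (by linarith)).const_mul 2) fun u hu => ?_
    exact p_V1a_le hs hs1 hu.1 (by linarith [hu.2])
  rw [intervalIntegral.integral_const_mul, integral_rpow (Or.inl (by linarith))] at h2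
  have e2 : (n : ℝ) * ((1 : ℝ) / n) ^ (-s + 1) = (n : ℝ) ^ s := by
    rw [Real.rpow_add hpos, Real.rpow_one, e1]
    field_simp
  have h3 : n * ∫ u in (0 : ℝ)..(1 / n), p_V1a_f s u ≤ 2 / (1 - s) * (n : ℝ) ^ s := by
    calc n * ∫ u in (0 : ℝ)..(1 / n), p_V1a_f s u
        ≤ n * (2 * ((((1 : ℝ) / n) ^ (-s + 1) - (0 : ℝ) ^ (-s + 1)) / (-s + 1))) := by gcongr
      _ = 2 / (1 - s) * (n * ((1 : ℝ) / n) ^ (-s + 1)) := by
          rw [Real.zero_rpow (by linarith), sub_zero, show -s + 1 = 1 - s by ring]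
          ring
      _ = 2 / (1 - s) * (n : ℝ) ^ s := by rw [e2]
  calc _ ≤ 2 * (n : ℝ) ^ s + 2 / (1 - s) * (n : ℝ) ^ s := add_le_add h1 h3
    _ = _ := by ring

/-- the full sum -/
private lemma p_V1a_sum {s : ℝ} (hs : 0 < s) (hs1 : s < 1 / 2) {n : ℕ} (hn : 3 ≤ n) :
    |∑ i ∈ Finset.range (n - 1), p_V1a_f s (((i : ℝ) + 1) / n) -
      n * (2 * ∫ u in (0 : ℝ)..(1 / 2), p_V1a_f s u)| ≤
      2 * ((2 + 2 / (1 - s)) * (n : ℝ) ^ s) := by
  have hn0 : (0 : ℝ) < n := by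
    have : 0 < n := by omega
    exact_mod_cast this
  set m := n / 2 with hm
  have hA := p_V1a_half hs hs1 (n := n) (p := m) (by omega)
    (by
      have : 2 * m ≤ n := by omega
      have h : (2 : ℝ) * m ≤ n := by exact_mod_cast this
      linarith)
    (by
      have : n ≤ 2 * m + 1 := by omega
      have h : (n : ℝ) ≤ 2 * m + 1 := by exact_mod_cast this
      linarith)
  have hB := p_V1a_half hs hs1 (n := n) (p := n - 1 - m) (by omega)
    (by
      have : 2 * (n - 1 - m) ≤ n := by omega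
      have h : (2 : ℝ) * ((n - 1 - m : ℕ) : ℝ) ≤ n := by exact_mod_cast this
      linarith)
    (by
      have : n ≤ 2 * (n - 1 - m) + 2 := by omega
      have h : (n : ℝ) ≤ 2 * ((n - 1 - m : ℕ) : ℝ) + 2 := by exact_mod_cast this
      linarith)
  have hE := p_V1a_err hs hs1 (n := n) (by omega)
  have hsum : ∑ i ∈ Finset.range (n - 1), p_V1a_f s (((i : ℝ) + 1) / n) =
      ∑ i ∈ Finset.range m, p_V1a_f s (((i : ℝ) + 1) / n) +
      ∑ i ∈ Finset.range (n - 1 - m), p_V1a_f s (((i : ℝ) + 1) / n) := by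
    have e : n - 1 = m + (n - 1 - m) := by omega
    conv_lhs => rw [e, Finset.sum_range_add]
    congr 1
    rw [← Finset.sum_range_reflect]
    refine Finset.sum_congr rfl fun i hi => ?_
    rw [Finset.mem_range] at hi
    rw [← p_V1a_symm]
    congr 1
    have e2 : n = (m + (n - 1 - m - 1 - i)) + 1 + (i + 1) := by omega
    have e3 : (n : ℝ) = ((m + (n - 1 - m - 1 - i) : ℕ) : ℝ) + 1 + ((i : ℝ) + 1) := by
      exact_mod_cast e2
    rw [eq_div_iff hn0.ne', sub_mul, div_mul_cancel₀ _ hn0.ne', one_mul]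
    linarith
  rw [hsum]
  have e4 : ∑ i ∈ Finset.range m, p_V1a_f s (((i : ℝ) + 1) / n) +
      ∑ i ∈ Finset.range (n - 1 - m), p_V1a_f s (((i : ℝ) + 1) / n) -
      n * (2 * ∫ u in (0 : ℝ)..(1 / 2), p_V1a_f s u) =
      (∑ i ∈ Finset.range m, p_V1a_f s (((i : ℝ) + 1) / n) -
        n * ∫ u in (0 : ℝ)..(1 / 2), p_V1a_f s u) +
      (∑ i ∈ Finset.range (n - 1 - m), p_V1a_f s (((i : ℝ) + 1) / n) -
        n * ∫ u in (0 : ℝ)..(1 / 2), p_V1a_f s u) := by ring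
  rw [e4]
  refine (abs_add_le _ _).trans ?_
  linarith

theorem p_V1a : S_V1a := by
  intro s hs hs1
  set J : ℝ := ∫ u in (0 : ℝ)..(1 / 2), p_V1a_f s u with hJ
  have hJ0 : 0 < J := by
    rw [hJ]
    refine intervalIntegral.intervalIntegral_pos_of_pos_on
      (p_V1a_int hs hs1 ⟨le_rfl, by norm_num⟩ ⟨by norm_num, le_rfl⟩) (fun u hu => ?_) (by norm_num)
    exact Real.rpow_pos_of_pos (mul_pos hu.1 (by linarith [hu.2])) _
  refine ⟨4 ^ (-s) * (2 * J), by positivity, fun M hM => ?_⟩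
  -- the tail
  set C : ℝ := 2 * (2 + 2 / (1 - s)) with hC
  have hbound : ∀ᶠ n : ℕ in atTop, |∑ k ∈ Finset.Icc 1 (n - M), (En n k) ^ (-s) -
      4 ^ (-s) * (2 * J) * (n : ℝ) ^ (1 - 2 * s)| ≤
        C * (n : ℝ) ^ (-s) + M * (n : ℝ) ^ (-s) := by
    filter_upwards [eventually_ge_atTop (M + 3)] with n hn
    have hn3 : 3 ≤ n := by omega
    have hn0 : (0 : ℝ) < n := by
      have : 0 < n := by omega
      exact_mod_cast this
    have hterm : ∀ i : ℕ, i < n - 1 → (En n ((i + 1 : ℕ) : ℤ)) ^ (-s) =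
        4 ^ (-s) * ((n : ℝ) ^ (-(2 * s)) * p_V1a_f s (((i : ℝ) + 1) / n)) := by
      intro i hi
      have hi1 : (i : ℝ) + 1 ≤ n - 1 := by
        have : i + 1 + 1 ≤ n := by omega
        have h : (i : ℝ) + 1 + 1 ≤ n := by exact_mod_cast this
        linarith
      have hi0 : (0 : ℝ) ≤ i := Nat.cast_nonneg i
      have hx : 0 < ((i : ℝ) + 1) / n * (1 - ((i : ℝ) + 1) / n) := by
        refine mul_pos (by positivity) ?_
        rw [sub_pos, div_lt_one hn0]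
        linarith
      have e1 : En n ((i + 1 : ℕ) : ℤ) = 4 * ((n : ℝ) ^ (2 : ℝ) *
          (((i : ℝ) + 1) / n * (1 - ((i : ℝ) + 1) / n))) := by
        unfold En
        rw [Real.rpow_two]
        push_cast
        field_simp
      rw [e1, Real.mul_rpow (by norm_num) (by positivity), Real.mul_rpow (by positivity) hx.le,
        ← Real.rpow_mul hn0.le, show (2 : ℝ) * -s = -(2 * s) by ring]
      rfl
    have hfull : ∑ i ∈ Finset.range (n - 1), (En n ((i + 1 : ℕ) : ℤ)) ^ (-s) =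
        4 ^ (-s) * ((n : ℝ) ^ (-(2 * s)) *
          ∑ i ∈ Finset.range (n - 1), p_V1a_f s (((i : ℝ) + 1) / n)) := by
      rw [Finset.mul_sum, Finset.mul_sum]
      exact Finset.sum_congr rfl fun i hi => hterm i (Finset.mem_range.1 hi)
    have hIcc : ∑ k ∈ Finset.Icc 1 (n - M), (En n k) ^ (-s) =
        ∑ i ∈ Finset.range (n - M), (En n ((i + 1 : ℕ) : ℤ)) ^ (-s) := by
      rw [Finset.range_eq_Ico, Finset.sum_Ico_add' (fun k : ℕ => (En n (k : ℤ)) ^ (-s)) 0 (n - M) 1]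
      rfl
    have hsplit : ∑ i ∈ Finset.range (n - 1), (En n ((i + 1 : ℕ) : ℤ)) ^ (-s) =
        ∑ i ∈ Finset.range (n - M), (En n ((i + 1 : ℕ) : ℤ)) ^ (-s) +
        ∑ i ∈ Finset.range (M - 1), (En n (((n - M + i) + 1 : ℕ) : ℤ)) ^ (-s) := by
      have e : n - 1 = (n - M) + (M - 1) := by omega
      conv_lhs => rw [e, Finset.sum_range_add]
    have htail : ∀ i ∈ Finset.range (M - 1),
        (En n (((n - M + i) + 1 : ℕ) : ℤ)) ^ (-s) ≤ (n : ℝ) ^ (-s) := by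
      intro i hi
      rw [Finset.mem_range] at hi
      refine Real.rpow_le_rpow_of_nonpos hn0 ?_ (by linarith)
      set k := n - M + i + 1 with hk
      have hk1 : (1 : ℝ) ≤ k := by
        have : 1 ≤ k := by omega
        exact_mod_cast this
      have hk2 : (k : ℝ) + 1 ≤ n := by
        have : k + 1 ≤ n := by omega
        exact_mod_cast this
      unfold En
      push_cast
      have hn3' : (3 : ℝ) ≤ n := by exact_mod_cast hn3
      nlinarith [mul_nonneg (sub_nonneg.2 hk1) (by linarith : (0 : ℝ) ≤ (n : ℝ) - k - 1)]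
    have htail0 : 0 ≤ ∑ i ∈ Finset.range (M - 1), (En n (((n - M + i) + 1 : ℕ) : ℤ)) ^ (-s) := by
      refine Finset.sum_nonneg fun i hi => Real.rpow_nonneg ?_ _
      rw [Finset.mem_range] at hi
      unfold En
      push_cast
      have hk2 : (((n - M + i) + 1 : ℕ) : ℝ) ≤ n := by
        have : n - M + i + 1 ≤ n := by omega
        exact_mod_cast this
      push_cast at hk2
      have : (0 : ℝ) ≤ ((n - M : ℕ) : ℝ) + i + 1 := by positivity
      exact mul_nonneg (by positivity) (by linarith)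
    have htail1 : ∑ i ∈ Finset.range (M - 1), (En n (((n - M + i) + 1 : ℕ) : ℤ)) ^ (-s) ≤
        M * (n : ℝ) ^ (-s) := by
      refine (Finset.sum_le_sum htail).trans ?_
      rw [Finset.sum_const, Finset.card_range, nsmul_eq_mul]
      have : ((M - 1 : ℕ) : ℝ) ≤ M := by exact_mod_cast Nat.sub_le M 1
      have h0 : 0 ≤ (n : ℝ) ^ (-s) := Real.rpow_nonneg hn0.le _
      gcongr
    have hmain := p_V1a_sum hs hs1 hn3
    rw [← hJ] at hmain
    have e5 : (n : ℝ) ^ (1 - 2 * s) = (n : ℝ) ^ (-(2 * s)) * n := by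
      rw [show 1 - 2 * s = -(2 * s) + 1 by ring, Real.rpow_add hn0, Real.rpow_one]
    have e6 : (n : ℝ) ^ (-(2 * s)) * (n : ℝ) ^ s = (n : ℝ) ^ (-s) := by
      rw [← Real.rpow_add hn0]
      congr 1
      ring
    have hmain2 : |4 ^ (-s) * ((n : ℝ) ^ (-(2 * s)) *
          ∑ i ∈ Finset.range (n - 1), p_V1a_f s (((i : ℝ) + 1) / n)) -
          4 ^ (-s) * (2 * J) * (n : ℝ) ^ (1 - 2 * s)| ≤ C * (n : ℝ) ^ (-s) := by
      have e7 : 4 ^ (-s) * ((n : ℝ) ^ (-(2 * s)) *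
          ∑ i ∈ Finset.range (n - 1), p_V1a_f s (((i : ℝ) + 1) / n)) -
          4 ^ (-s) * (2 * J) * (n : ℝ) ^ (1 - 2 * s) =
          4 ^ (-s) * ((n : ℝ) ^ (-(2 * s)) *
          (∑ i ∈ Finset.range (n - 1), p_V1a_f s (((i : ℝ) + 1) / n) - n * (2 * J))) := by
        rw [e5]; ring
      have h4 : (4 : ℝ) ^ (-s) ≤ 1 := Real.rpow_le_one_of_one_le_of_nonpos (by norm_num) (by linarith)
      have h40 : (0 : ℝ) ≤ 4 ^ (-s) := by positivity
      have hn2s : 0 ≤ (n : ℝ) ^ (-(2 * s)) := Real.rpow_nonneg hn0.le _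
      rw [e7, abs_mul, abs_mul, abs_of_nonneg h40, abs_of_nonneg hn2s]
      calc (4 : ℝ) ^ (-s) * ((n : ℝ) ^ (-(2 * s)) *
          |∑ i ∈ Finset.range (n - 1), p_V1a_f s (((i : ℝ) + 1) / n) - n * (2 * J)|)
          ≤ 1 * ((n : ℝ) ^ (-(2 * s)) * (2 * ((2 + 2 / (1 - s)) * (n : ℝ) ^ s))) := by
            gcongr
        _ = C * ((n : ℝ) ^ (-(2 * s)) * (n : ℝ) ^ s) := by rw [hC]; ring
        _ = C * (n : ℝ) ^ (-s) := by rw [e6]
    rw [hIcc]
    rw [← hfull, hsplit] at hmain2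
    rw [abs_le] at hmain2 ⊢
    constructor
    · linarith [hmain2.1]
    · have h0 : 0 ≤ (M : ℝ) * (n : ℝ) ^ (-s) := by positivity
      linarith [hmain2.2]
  have hlim : Tendsto (fun n : ℕ => C * (n : ℝ) ^ (-s) + M * (n : ℝ) ^ (-s)) atTop (𝓝 0) := by
    have h := (tendsto_rpow_neg_atTop hs).comp tendsto_natCast_atTop_atTop (α := ℕ)
    have h2 := (h.const_mul C).add (h.const_mul (M : ℝ))
    simpa using h2
  exact squeeze_zero_norm' hbound hlim

end HillRoots
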