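import Pool.Agent.Lib.MP_e63cf8_mp.StmE

/-! # Piece V1b: the sum of `(4k(n-k))^{-1/2}` tends to `π/2` -/

open Polynomial Filter Topology MeasureTheory Asymptotics

namespace HillRoots

/-- the primitive `(1/2) arcsin(2x/n - 1)` of `(4x(n-x))^{-1/2}` -/
noncomputable def p_V1b_G (n x : ℝ) : ℝ := 1 / 2 * Real.arcsin (2 * x / n - 1)

/-- the function `(4x(n-x))^{-1/2}` -/
noncomputable def p_V1b_f (n x : ℝ) : ℝ := (4 * x * (n - x)) ^ (-(1 / 2) : ℝ)

theorem p_V1b_f_eq (n x : ℝ) (hx : 0 < x) (hxn : x < n) :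
    p_V1b_f n x = 1 / Real.sqrt (4 * x * (n - x)) := by
  have : 0 < 4 * x * (n - x) := mul_pos (by linarith) (by linarith)
  unfold p_V1b_f
  rw [Real.rpow_neg this.le, Real.sqrt_eq_rpow]
  exact (one_div _).symm

theorem p_V1b_deriv (n x : ℝ) (hx : 0 < x) (hxn : x < n) :
    HasDerivAt (p_V1b_G n) (p_V1b_f n x) x := by
  have hn : 0 < n := hx.trans hxn
  have h1 : 2 * x / n - 1 ≠ -1 := by
    have : 0 < 2 * x / n := by positivity
    intro h
    linarith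
  have h2 : 2 * x / n - 1 ≠ 1 := by
    have : 2 * x / n < 2 := by
      rw [div_lt_iff₀ hn]
      linarith
    intro h
    linarith
  have h3 : HasDerivAt (fun y : ℝ => 2 * y / n - 1) (2 / n) x := by
    have := (((hasDerivAt_id x).const_mul 2).div_const n).sub_const 1
    simpa using this
  have h4 := ((Real.hasDerivAt_arcsin h1 h2).comp x h3).const_mul (1 / 2)
  have h5 : Real.sqrt (4 * x * (n - x)) = n * Real.sqrt (1 - (2 * x / n - 1) ^ 2) := by
    have h6 : 4 * x * (n - x) = n ^ 2 * (1 - (2 * x / n - 1) ^ 2) := by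
      field_simp
      ring
    rw [h6, Real.sqrt_mul (by positivity), Real.sqrt_sq hn.le]
  rw [p_V1b_f_eq n x hx hxn, h5]
  have h7 : (1 : ℝ) / (n * Real.sqrt (1 - (2 * x / n - 1) ^ 2)) =
      1 / 2 * (1 / Real.sqrt (1 - (2 * x / n - 1) ^ 2) * (2 / n)) := by
    rw [one_div, mul_inv, one_div (Real.sqrt _)]
    ring
  rw [h7]
  exact h4

theorem p_V1b_mvt (n a b : ℝ) (ha : 0 ≤ a) (hab : a < b) (hb : b ≤ n) :
    ∃ ξ ∈ Set.Ioo a b, p_V1b_f n ξ = (p_V1b_G n b - p_V1b_G n a) / (b - a) := by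
  refine exists_hasDerivAt_eq_slope (p_V1b_G n) (p_V1b_f n) hab ?_ fun x hx => ?_
  · refine Continuous.continuousOn ?_
    unfold p_V1b_G
    exact continuous_const.mul (Real.continuous_arcsin.comp (by fun_prop))
  · exact p_V1b_deriv n x (lt_of_le_of_lt ha hx.1) (lt_of_lt_of_le hx.2 hb)

theorem p_V1b_mono (n a b : ℝ) (hn : 0 < n) (hab : a ≤ b) : p_V1b_G n a ≤ p_V1b_G n b := by
  unfold p_V1b_G
  have h : 2 * a / n - 1 ≤ 2 * b / n - 1 := by
    have : 2 * a / n ≤ 2 * b / n := by gcongr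
    linarith
  have := Real.monotone_arcsin h
  linarith

theorem p_V1b_anti (n x y : ℝ) (hx : 0 < x) (hxn : x < n)
    (h : x * (n - x) ≤ y * (n - y)) : p_V1b_f n y ≤ p_V1b_f n x := by
  unfold p_V1b_f
  refine Real.rpow_le_rpow_of_nonpos ?_ ?_ (by norm_num)
  · exact mul_pos (by linarith) (by linarith)
  · nlinarith

theorem p_V1b_1 (n k : ℝ) (hk : 1 ≤ k) (hkn : 2 * k ≤ n) :
    p_V1b_f n k ≤ p_V1b_G n k - p_V1b_G n (k - 1) := by
  obtain ⟨ξ, ⟨h1, h2⟩, h3⟩ := p_V1b_mvt n (k - 1) k (by linarith) (by linarith) (by linarith)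
  rw [sub_sub_cancel, div_one] at h3
  rw [← h3]
  refine p_V1b_anti n ξ k (by linarith) (by linarith) ?_
  nlinarith [mul_nonneg (sub_nonneg.2 h2.le) (by linarith : (0 : ℝ) ≤ n - k - ξ)]

theorem p_V1b_2 (n k : ℝ) (hk : 0 ≤ k) (hkn : n ≤ 2 * k) (hk1 : k + 1 ≤ n) :
    p_V1b_f n k ≤ p_V1b_G n (k + 1) - p_V1b_G n k := by
  obtain ⟨ξ, ⟨h1, h2⟩, h3⟩ := p_V1b_mvt n k (k + 1) hk (by linarith) hk1
  rw [add_sub_cancel_left, div_one] at h3
  rw [← h3]
  refine p_V1b_anti n ξ k (by linarith) (by linarith) ?_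
  nlinarith [mul_nonneg (sub_nonneg.2 h1.le) (by linarith : (0 : ℝ) ≤ k + ξ - n)]

theorem p_V1b_3 (n k : ℝ) (hk : 1 ≤ k) (hkn : 2 * k + 1 ≤ n) :
    p_V1b_G n (k + 1) - p_V1b_G n k ≤ p_V1b_f n k := by
  obtain ⟨ξ, ⟨h1, h2⟩, h3⟩ := p_V1b_mvt n k (k + 1) (by linarith) (by linarith) (by linarith)
  rw [add_sub_cancel_left, div_one] at h3
  rw [← h3]
  refine p_V1b_anti n k ξ (by linarith) (by linarith) ?_
  nlinarith [mul_nonneg (sub_nonneg.2 h1.le) (by linarith : (0 : ℝ) ≤ n - k - ξ)]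

theorem p_V1b_4 (n k : ℝ) (hk : 1 ≤ k) (hkn : n ≤ 2 * k - 1) (hk1 : k < n) :
    p_V1b_G n k - p_V1b_G n (k - 1) ≤ p_V1b_f n k := by
  obtain ⟨ξ, ⟨h1, h2⟩, h3⟩ := p_V1b_mvt n (k - 1) k (by linarith) (by linarith) hk1.le
  rw [sub_sub_cancel, div_one] at h3
  rw [← h3]
  refine p_V1b_anti n k ξ (by linarith) hk1 ?_
  nlinarith [mul_nonneg (sub_nonneg.2 h2.le) (by linarith : (0 : ℝ) ≤ k + ξ - n)]

theorem p_V1b_U1 (n j : ℕ) (hj : 2 * j ≤ n) :
    ∑ k ∈ Finset.Ioc 0 j, p_V1b_f n k ≤ p_V1b_G n j - p_V1b_G n 0 := by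
  induction j with
  | zero => simp
  | succ j ih =>
    rw [Finset.sum_Ioc_succ_top (Nat.zero_le j)]
    have h1 := ih (by omega)
    have h2 := p_V1b_1 n ((j + 1 : ℕ) : ℝ) (by push_cast; linarith [Nat.cast_nonneg (α := ℝ) j])
      (by exact_mod_cast hj)
    have h3 : ((j + 1 : ℕ) : ℝ) - 1 = j := by push_cast; ring
    rw [h3] at h2
    linarith

theorem p_V1b_U2 (n a j : ℕ) (ha : n ≤ 2 * (a + 1)) (haj : a ≤ j) (hj : j + 1 ≤ n) :
    ∑ k ∈ Finset.Ioc a j, p_V1b_f n k ≤ p_V1b_G n (j + 1) - p_V1b_G n (a + 1) := by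
  induction j, haj using Nat.le_induction with
  | base => simp
  | succ j haj ih =>
    rw [Finset.sum_Ioc_succ_top haj]
    have h1 := ih (by omega)
    have h2 := p_V1b_2 n ((j + 1 : ℕ) : ℝ) (by positivity)
      (by exact_mod_cast (by omega : n ≤ 2 * (j + 1))) (by exact_mod_cast hj)
    have h3 : ((j + 1 : ℕ) : ℝ) = j + 1 := by push_cast; ring
    rw [h3] at h2 ⊢
    linarith

theorem p_V1b_L1 (n j : ℕ) (hj : 2 * j + 1 ≤ n) :
    p_V1b_G n (j + 1) - p_V1b_G n 1 ≤ ∑ k ∈ Finset.Ioc 0 j, p_V1b_f n k := by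
  induction j with
  | zero => simp
  | succ j ih =>
    rw [Finset.sum_Ioc_succ_top (Nat.zero_le j)]
    have h1 := ih (by omega)
    have h2 := p_V1b_3 n ((j + 1 : ℕ) : ℝ) (by push_cast; linarith [Nat.cast_nonneg (α := ℝ) j])
      (by exact_mod_cast hj)
    have h3 : ((j + 1 : ℕ) : ℝ) = j + 1 := by push_cast; ring
    rw [h3] at h2 ⊢
    linarith

theorem p_V1b_L2 (n a j : ℕ) (ha : n ≤ 2 * a + 1) (haj : a ≤ j) (hj : j < n) :
    p_V1b_G n j - p_V1b_G n a ≤ ∑ k ∈ Finset.Ioc a j, p_V1b_f n k := by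
  induction j, haj using Nat.le_induction with
  | base => simp
  | succ j haj ih =>
    rw [Finset.sum_Ioc_succ_top haj]
    have h1 := ih (by omega)
    have h0 : (n : ℝ) ≤ 2 * ((j + 1 : ℕ) : ℝ) - 1 := by
      have : (n : ℝ) ≤ 2 * (j : ℝ) + 1 := by exact_mod_cast (by omega : n ≤ 2 * j + 1)
      push_cast
      linarith
    have h2 := p_V1b_4 n ((j + 1 : ℕ) : ℝ) (by push_cast; linarith [Nat.cast_nonneg (α := ℝ) j])
      h0 (by exact_mod_cast hj)
    have h3 : ((j + 1 : ℕ) : ℝ) - 1 = j := by push_cast; ring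
    rw [h3] at h2
    linarith

theorem p_V1b_upper (n M : ℕ) (hM : 1 ≤ M) (hn : 2 * M ≤ n) :
    ∑ k ∈ Finset.Ioc 0 (n - M), p_V1b_f n k ≤ p_V1b_G n n - p_V1b_G n 0 := by
  have hn0 : (0 : ℝ) < n := by exact_mod_cast (by omega : 0 < n)
  rw [← Finset.sum_Ioc_consecutive _ (Nat.zero_le (n / 2)) (by omega : n / 2 ≤ n - M)]
  have h1 := p_V1b_U1 n (n / 2) (by omega)
  have h2 := p_V1b_U2 n (n / 2) (n - M) (by omega) (by omega) (by omega)
  have h3 := p_V1b_mono n ((n / 2 : ℕ) : ℝ) ((n / 2 : ℕ) + 1) hn0 (by linarith)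
  have h4 := p_V1b_mono n (((n - M : ℕ) : ℝ) + 1) n hn0 (by
    exact_mod_cast (by omega : n - M + 1 ≤ n))
  linarith

theorem p_V1b_f_nonneg (n k : ℕ) (h : k ≤ n) : 0 ≤ p_V1b_f n k := by
  unfold p_V1b_f
  refine Real.rpow_nonneg ?_ _
  have : (k : ℝ) ≤ n := by exact_mod_cast h
  exact mul_nonneg (by positivity) (by linarith)

theorem p_V1b_lower (n M : ℕ) (hM : 1 ≤ M) (hn : 2 * M ≤ n) :
    p_V1b_G n ((n - M : ℕ) : ℝ) - p_V1b_G n 1 ≤ ∑ k ∈ Finset.Ioc 0 (n - M), p_V1b_f n k := by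
  have hn0 : (0 : ℝ) < n := by exact_mod_cast (by omega : 0 < n)
  rw [← Finset.sum_Ioc_consecutive _ (Nat.zero_le (n / 2)) (by omega : n / 2 ≤ n - M)]
  have h1 := p_V1b_L1 n ((n - 1) / 2) (by omega)
  have h2 := p_V1b_L2 n (n / 2) (n - M) (by omega) (by omega) (by omega)
  have h3 : ∑ k ∈ Finset.Ioc 0 ((n - 1) / 2), p_V1b_f n k ≤ ∑ k ∈ Finset.Ioc 0 (n / 2), p_V1b_f n k := by
    refine Finset.sum_le_sum_of_subset_of_nonneg
      (Finset.Ioc_subset_Ioc_right (by omega)) fun k hk _ => ?_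
    rw [Finset.mem_Ioc] at hk
    exact p_V1b_f_nonneg n k (by omega)
  have h4 := p_V1b_mono n ((n / 2 : ℕ) : ℝ) ((((n - 1) / 2 : ℕ) : ℝ) + 1) hn0 (by
    exact_mod_cast (by omega : n / 2 ≤ (n - 1) / 2 + 1))
  linarith

theorem p_V1b : S_V1b := by
  intro M hM
  have hinv : Tendsto (fun n : ℕ => (n : ℝ)⁻¹) atTop (𝓝 0) :=
    tendsto_inv_atTop_zero.comp tendsto_natCast_atTop_atTop
  have hlow : Tendsto (fun n : ℕ => p_V1b_G n ((n - M : ℕ) : ℝ) - p_V1b_G n 1) atTop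
      (𝓝 (Real.pi / 2)) := by
    have h1 : Tendsto (fun n : ℕ => 1 / 2 * Real.arcsin (1 - 2 * (M : ℝ) * (n : ℝ)⁻¹) -
        1 / 2 * Real.arcsin (2 * (n : ℝ)⁻¹ - 1)) atTop
        (𝓝 (1 / 2 * Real.arcsin (1 - 2 * (M : ℝ) * 0) - 1 / 2 * Real.arcsin (2 * 0 - 1))) := by
      refine Tendsto.sub (Tendsto.const_mul _ ?_) (Tendsto.const_mul _ ?_)
      · exact (Real.continuous_arcsin.tendsto _).comp (tendsto_const_nhds.sub (hinv.const_mul _))
      · exact (Real.continuous_arcsin.tendsto _).comp ((hinv.const_mul _).sub tendsto_const_nhds)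
    have h2 : 1 / 2 * Real.arcsin (1 - 2 * (M : ℝ) * 0) - 1 / 2 * Real.arcsin (2 * 0 - 1) =
        Real.pi / 2 := by
      rw [mul_zero, mul_zero, sub_zero, zero_sub, Real.arcsin_one, Real.arcsin_neg_one]
      ring
    rw [h2] at h1
    refine h1.congr' ?_
    filter_upwards [eventually_ge_atTop (2 * M)] with n hn
    have hn0 : (n : ℝ) ≠ 0 := by
      have : 0 < n := by omega
      positivity
    unfold p_V1b_G
    rw [Nat.cast_sub (by omega : M ≤ n)]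
    congr 3
    · field_simp
      ring
    · field_simp
  have hup : ∀ n : ℕ, 1 ≤ n → p_V1b_G n n - p_V1b_G n 0 = Real.pi / 2 := by
    intro n hn
    have hn0 : (n : ℝ) ≠ 0 := by positivity
    unfold p_V1b_G
    rw [mul_div_assoc, div_self hn0, mul_zero, zero_div, mul_one, zero_sub, Real.arcsin_neg_one]
    norm_num
    ring
  have hsum : ∀ n : ℕ, ∑ k ∈ Finset.Icc 1 (n - M), (En n k) ^ (-(1 / 2) : ℝ) =
      ∑ k ∈ Finset.Ioc 0 (n - M), p_V1b_f n k := by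
    intro n
    have : Finset.Icc 1 (n - M) = Finset.Ioc 0 (n - M) := by
      ext k
      simp only [Finset.mem_Icc, Finset.mem_Ioc]
      omega
    rw [this]
    refine Finset.sum_congr rfl fun k _ => ?_
    simp only [En, p_V1b_f, Int.cast_natCast]
  simp only [hsum]
  refine tendsto_of_tendsto_of_tendsto_of_le_of_le' hlow tendsto_const_nhds ?_ ?_
  · filter_upwards [eventually_ge_atTop (2 * M)] with n hn
    exact p_V1b_lower n M hM hn
  · filter_upwards [eventually_ge_atTop (2 * M)] with n hn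
    rw [← hup n (by omega)]
    exact p_V1b_upper n M hM hn

end HillRoots
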