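import Pool.Agent.Lib.MP_e63cf8_mp.StmE

/-!
# MP_e63cf8_mp, piece V1c
-/

set_option autoImplicit false

open Polynomial Filter Topology MeasureTheory Asymptotics

namespace HillRoots

private lemma p_V1c_harm (n : ℕ) (hn : 1 ≤ n) :
    ∑ k ∈ Finset.Icc 1 (n - 1), (1 / (k : ℝ) + 1 / ((n : ℝ) - k)) ≤ 2 * (1 + Real.log n) := by
  have h1 : ∑ k ∈ Finset.Icc 1 (n - 1), (1 / ((n : ℝ) - k)) = ∑ k ∈ Finset.Icc 1 (n - 1), (1 / (k : ℝ)) := by
    apply Finset.sum_nbij' (fun k => n - k) (fun k => n - k)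
    · intro k hk
      rw [Finset.mem_Icc] at hk ⊢
      omega
    · intro k hk
      rw [Finset.mem_Icc] at hk ⊢
      omega
    · intro k hk
      rw [Finset.mem_Icc] at hk
      show n - (n - k) = k
      omega
    · intro k hk
      rw [Finset.mem_Icc] at hk
      show n - (n - k) = k
      omega
    · intro k hk
      rw [Finset.mem_Icc] at hk
      rw [Nat.cast_sub (by omega)]
  have h2 : ∑ k ∈ Finset.Icc 1 (n - 1), (1 / (k : ℝ)) ≤ 1 + Real.log n := by
    have h3 := harmonic_le_one_add_log n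
    rw [harmonic_eq_sum_Icc] at h3
    push_cast at h3
    refine le_trans ?_ h3
    simp only [one_div]
    apply Finset.sum_le_sum_of_subset_of_nonneg
    · intro k hk
      rw [Finset.mem_Icc] at hk ⊢
      omega
    · intro k _ _
      positivity
  rw [Finset.sum_add_distrib, h1]
  linarith

theorem p_V1c : S_V1c := by
  intro s M hs hM
  set t : ℝ := min s 1 with ht
  have ht1 : 1 / 2 < t := lt_min hs (by norm_num)
  have ht2 : t ≤ 1 := min_le_right _ _
  have hts : t ≤ s := min_le_left _ _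
  set ε : ℝ := (2 * t - 1) / 2 with hε
  have hε0 : 0 < ε := by rw [hε]; linarith
  have hlim : Tendsto (fun n : ℕ => (1 + 1 / ε) * (n : ℝ) ^ (-ε)) atTop (𝓝 0) := by
    have h1 := (tendsto_rpow_neg_atTop hε0).comp tendsto_natCast_atTop_atTop
    have h2 := h1.const_mul (1 + 1 / ε)
    rw [mul_zero] at h2
    exact h2
  have hEn : ∀ n k : ℕ, k ∈ Finset.Icc 1 (n - M) → En n (k : ℤ) = 4 * (k : ℝ) * ((n : ℝ) - k) ∧
      (1 : ℝ) ≤ k ∧ (k : ℝ) + 1 ≤ n := by
    intro n k hk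
    rw [Finset.mem_Icc] at hk
    refine ⟨by simp [En], by exact_mod_cast hk.1, ?_⟩
    have : k + 1 ≤ n := by omega
    exact_mod_cast this
  refine squeeze_zero' (Eventually.of_forall ?_) ?_ hlim
  · intro n
    apply Finset.sum_nonneg
    intro k hk
    obtain ⟨h1, h2, h3⟩ := hEn n k hk
    apply Real.rpow_nonneg
    rw [h1]
    have : 0 ≤ (n : ℝ) - k := by linarith
    positivity
  · filter_upwards [eventually_ge_atTop 1] with n hn
    have hn1 : (1 : ℝ) ≤ n := by exact_mod_cast hn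
    have hn0 : (0 : ℝ) < n := by linarith
    have hterm : ∀ k ∈ Finset.Icc 1 (n - M), (En n (k : ℤ)) ^ (-s) ≤
        (n : ℝ) ^ (2 - 2 * t) * (1 / (4 * n)) * (1 / (k : ℝ) + 1 / ((n : ℝ) - k)) := by
      intro k hk
      obtain ⟨h1, h2, h3⟩ := hEn n k hk
      rw [h1]
      set E : ℝ := 4 * (k : ℝ) * ((n : ℝ) - k) with hE
      have hE1 : 1 ≤ E := by rw [hE]; nlinarith
      have hE2 : E ≤ (n : ℝ) ^ 2 := by rw [hE]; nlinarith [sq_nonneg ((n : ℝ) - 2 * k)]
      have hE0 : 0 < E := by linarith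
      have h4 : E ^ (-s) ≤ E ^ (-t) := Real.rpow_le_rpow_of_exponent_le hE1 (by linarith)
      have h5 : E ^ (-t) = E ^ (1 - t) * E⁻¹ := by
        rw [← Real.rpow_neg_one, ← Real.rpow_add hE0]
        congr 1
        ring
      have h6 : E ^ (1 - t) ≤ (n : ℝ) ^ (2 - 2 * t) := by
        have h7 : E ^ (1 - t) ≤ ((n : ℝ) ^ 2) ^ (1 - t) :=
          Real.rpow_le_rpow hE0.le hE2 (by linarith)
        refine h7.trans (le_of_eq ?_)
        rw [← Real.rpow_natCast (n : ℝ) 2, ← Real.rpow_mul hn0.le]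
        congr 1
        push_cast
        ring
      have h7 : E⁻¹ = (1 / (4 * n)) * (1 / (k : ℝ) + 1 / ((n : ℝ) - k)) := by
        have hk0 : (k : ℝ) ≠ 0 := by linarith
        have hnk : (n : ℝ) - k ≠ 0 := by
          have : 0 < (n : ℝ) - k := by linarith
          exact this.ne'
        rw [hE]
        field_simp
        ring
      have h8 : 0 ≤ E⁻¹ := by positivity
      calc E ^ (-s) ≤ E ^ (1 - t) * E⁻¹ := h4.trans h5.le
        _ ≤ (n : ℝ) ^ (2 - 2 * t) * E⁻¹ := mul_le_mul_of_nonneg_right h6 h8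
        _ = _ := by rw [h7]; ring
    refine (Finset.sum_le_sum hterm).trans ?_
    rw [← Finset.mul_sum]
    have h1 : ∑ k ∈ Finset.Icc 1 (n - M), (1 / (k : ℝ) + 1 / ((n : ℝ) - k)) ≤
        2 * (1 + Real.log n) := by
      refine le_trans ?_ (p_V1c_harm n hn)
      apply Finset.sum_le_sum_of_subset_of_nonneg
      · intro k hk
        rw [Finset.mem_Icc] at hk ⊢
        omega
      · intro k hk _
        rw [Finset.mem_Icc] at hk
        have h2 : (k : ℝ) + 1 ≤ n := by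
          have : k + 1 ≤ n := by omega
          exact_mod_cast this
        have h3 : 0 ≤ (n : ℝ) - k := by linarith
        positivity
    have h2 : Real.log n ≤ (n : ℝ) ^ ε / ε := Real.log_le_rpow_div hn0.le hε0
    have h3 : (1 : ℝ) ≤ (n : ℝ) ^ ε := Real.one_le_rpow hn1 hε0.le
    have h4 : 1 + Real.log n ≤ (1 + 1 / ε) * (n : ℝ) ^ ε := by
      have : (1 + 1 / ε) * (n : ℝ) ^ ε = (n : ℝ) ^ ε + (n : ℝ) ^ ε / ε := by ring
      rw [this]
      linarith
    have h5 : (n : ℝ) ^ (2 - 2 * t) * (1 / (4 * n)) = (n : ℝ) ^ (-(2 * ε)) / 4 := by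
      have : (n : ℝ) ^ (-(2 * ε)) = (n : ℝ) ^ (2 - 2 * t) * (n : ℝ)⁻¹ := by
        rw [← Real.rpow_neg_one, ← Real.rpow_add hn0]
        congr 1
        rw [hε]
        ring
      rw [this]
      field_simp
    have h6 : 0 ≤ (n : ℝ) ^ (-(2 * ε)) / 4 := by positivity
    rw [h5]
    calc (n : ℝ) ^ (-(2 * ε)) / 4 * ∑ k ∈ Finset.Icc 1 (n - M), (1 / (k : ℝ) + 1 / ((n : ℝ) - k))
        ≤ (n : ℝ) ^ (-(2 * ε)) / 4 * (2 * ((1 + 1 / ε) * (n : ℝ) ^ ε)) :=
          mul_le_mul_of_nonneg_left (h1.trans (by linarith)) h6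
      _ = (1 + 1 / ε) * ((n : ℝ) ^ (-(2 * ε)) * (n : ℝ) ^ ε) / 2 := by ring
      _ = (1 + 1 / ε) * (n : ℝ) ^ (-ε) / 2 := by
          rw [← Real.rpow_add hn0]
          congr 3
          ring
      _ ≤ (1 + 1 / ε) * (n : ℝ) ^ (-ε) := by
          have : 0 ≤ (1 + 1 / ε) * (n : ℝ) ^ (-ε) := by positivity
          linarith

end HillRoots
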