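import Pool.Agent.Lib.MP_e63cf8_mp.StmE

/-!
# MP_e63cf8_mp, proof of V2: asymptotics of the products of the branches
-/

open Polynomial Filter Topology MeasureTheory Asymptotics

namespace HillRoots

private theorem p_V2_om_norm (M l : ℕ) : ‖om M ^ l‖ = 1 := by
  have h : ‖om M‖ = 1 := by
    unfold om
    have : (2 * (Real.pi : ℂ) * Complex.I / M) = ((2 * Real.pi / M : ℝ) : ℂ) * Complex.I := by
      push_cast; ring
    rw [this, Complex.norm_exp_ofReal_mul_I]
  rw [norm_pow, h, one_pow]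

private theorem p_V2_tau_pow (M n k r : ℕ) (hk : k < n) :
    tau M n k ^ r = (En n k) ^ (-((r : ℝ) / M)) := by
  have hE : (0 : ℝ) ≤ 4 * (k : ℝ) * ((n : ℝ) - k) := by
    have : (k : ℝ) < n := by exact_mod_cast hk
    have h0 : (0 : ℝ) ≤ k := by positivity
    have h1 : (0 : ℝ) ≤ (n : ℝ) - k := by linarith
    positivity
  unfold tau En
  rw [← Real.rpow_natCast, ← Real.rpow_mul hE]
  have : -(1 / (M : ℝ)) * (r : ℝ) = -((r : ℝ) / M) := by ring
  rw [this]
  push_cast
  rfl

/-- the sum over `k` of the `r`-th powers -/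
private theorem p_V2_sum_pow (M n r : ℕ) (hM : 1 ≤ M) :
    ∑ k ∈ Finset.Icc 1 (n - M), tau M n k ^ r =
      ∑ k ∈ Finset.Icc 1 (n - M), (En n k) ^ (-((r : ℝ) / M)) := by
  refine Finset.sum_congr rfl fun k hk => ?_
  rw [Finset.mem_Icc] at hk
  exact p_V2_tau_pow M n k r (by omega)

/-- the exponent written as one sum -/
private theorem p_V2_exp_sum (M : ℕ) (hM : 1 ≤ M) (c : ℂ) (γ : ℕ → ℂ) (B : ℕ → ℝ) (l n : ℕ) :
    qq M c γ B l n + KK M c γ l = ∑ r ∈ Finset.range (M / 2 + 1),
      γ r * (c * om M ^ l) ^ r *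
        (if 1 ≤ r then (if 2 * r < M then ((B r * (n : ℝ) ^ (1 - 2 * (r : ℝ) / M) : ℝ) : ℂ)
          else ((Real.pi / 2 : ℝ) : ℂ)) else 0) := by
  have h1 : qq M c γ B l n = ∑ r ∈ Finset.range (M / 2 + 1),
      if 1 ≤ r ∧ 2 * r < M then γ r * (c * om M ^ l) ^ r *
        ((B r * (n : ℝ) ^ (1 - 2 * (r : ℝ) / M) : ℝ) : ℂ) else 0 := by
    unfold qq
    rw [← Finset.sum_filter]
    refine Finset.sum_congr ?_ fun _ _ => rfl
    ext r
    simp only [Finset.mem_filter, Finset.mem_Ico, Finset.mem_range]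
    omega
  have h2 : KK M c γ l = ∑ r ∈ Finset.range (M / 2 + 1),
      if 1 ≤ r ∧ ¬ 2 * r < M then γ r * (c * om M ^ l) ^ r * ((Real.pi / 2 : ℝ) : ℂ) else 0 := by
    unfold KK
    split_ifs with hev
    · obtain ⟨m, hm⟩ := hev
      rw [Finset.sum_eq_single (M / 2)]
      · rw [if_pos (by omega)]
        push_cast
        rfl
      · intro r hr hne
        rw [Finset.mem_range] at hr
        rw [if_neg (by omega)]
      · intro h
        exact absurd (Finset.mem_range.2 (by omega)) h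
    · symm
      refine Finset.sum_eq_zero fun r hr => ?_
      rw [Finset.mem_range] at hr
      rw [if_neg]
      rintro ⟨-, h⟩
      exact hev ⟨r, by omega⟩
  rw [h1, h2, ← Finset.sum_add_distrib]
  refine Finset.sum_congr rfl fun r _ => ?_
  by_cases ha : 1 ≤ r
  · by_cases hb : 2 * r < M
    · simp [ha, hb]
    · simp [ha, hb]
  · simp [ha]

/-- the first Taylor coefficient of `log g` -/
private theorem p_V2_deriv (P : ℂ[X]) (c : ℂ) (g : ℂ → ℂ) (τ₀ K δ : ℝ)
    (hB : Branch P c g τ₀ K δ) (hg : DifferentiableAt ℂ g 0) (hM : 2 ≤ P.natDegree) :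
    deriv g 0 = P.coeff (P.natDegree - 1) / (P.natDegree * P.leadingCoeff) := by
  have hg' : HasDerivAt g (deriv g 0) 0 := hg.hasDerivAt
  have h1 : HasDerivAt (fun x => g x ^ P.natDegree)
      ((P.natDegree : ℂ) * g 0 ^ (P.natDegree - 1) * deriv g 0) 0 := hg'.fun_pow _
  have h2 : HasDerivAt (fun x : ℂ => x * g x) (1 * g 0 + 0 * deriv g 0) 0 :=
    (hasDerivAt_id (0 : ℂ)).fun_mul hg'
  have h3 : HasDerivAt (fun x : ℂ => ∑ j ∈ Finset.Icc 1 P.natDegree,
      P.coeff j / P.leadingCoeff * (x * g x) ^ (P.natDegree - j))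
      (∑ j ∈ Finset.Icc 1 P.natDegree, P.coeff j / P.leadingCoeff *
        (((P.natDegree - j : ℕ) : ℂ) * (0 * g 0) ^ (P.natDegree - j - 1) *
          (1 * g 0 + 0 * deriv g 0))) 0 := by
    refine HasDerivAt.fun_sum fun j _ => ?_
    exact (h2.fun_pow _).const_mul _
  have hpos : 0 < ‖c‖ * τ₀ := mul_pos (norm_pos_iff.2 hB.c0) hB.ld.ht
  have hev : (fun x => g x ^ P.natDegree) =ᶠ[𝓝 0] (fun x : ℂ => ∑ j ∈ Finset.Icc 1 P.natDegree,
      P.coeff j / P.leadingCoeff * (x * g x) ^ (P.natDegree - j)) := by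
    filter_upwards [Metric.closedBall_mem_nhds (0 : ℂ) hpos] with x hx
    rw [mem_closedBall_zero_iff] at hx
    exact hB.eqn x hx
  have h4 := h1.unique (h3.congr_of_eventuallyEq hev)
  rw [hB.one, one_pow, mul_one] at h4
  have h5 : ∑ j ∈ Finset.Icc 1 P.natDegree, P.coeff j / P.leadingCoeff *
        (((P.natDegree - j : ℕ) : ℂ) * (0 * (1 : ℂ)) ^ (P.natDegree - j - 1) *
          (1 * 1 + 0 * deriv g 0)) = P.coeff (P.natDegree - 1) / P.leadingCoeff := by
    rw [Finset.sum_eq_single (P.natDegree - 1)]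
    · have : P.natDegree - (P.natDegree - 1) = 1 := by omega
      rw [this]; simp
    · intro j hj hne
      rw [Finset.mem_Icc] at hj
      rcases Nat.lt_or_ge (P.natDegree - j) 1 with h | h
      · have : P.natDegree - j = 0 := by omega
        rw [this]; simp
      · have : P.natDegree - j - 1 ≠ 0 := by omega
        simp [this]
    · intro h
      exact absurd (Finset.mem_Icc.2 ⟨by omega, by omega⟩) h
  rw [h5] at h4
  have hMne : (P.natDegree : ℂ) ≠ 0 := by
    have : P.natDegree ≠ 0 := by omega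
    exact_mod_cast this
  have hlc : P.leadingCoeff ≠ 0 := by
    intro h
    have := hB.hc
    rw [h] at this
    exact hB.c0 (pow_eq_zero_iff (by omega) |>.1 this)
  rw [eq_div_iff (mul_ne_zero hMne hlc)]
  calc deriv g 0 * (P.natDegree * P.leadingCoeff) =
      (P.natDegree * deriv g 0) * P.leadingCoeff := by ring
    _ = P.coeff (P.natDegree - 1) := by rw [h4, div_mul_cancel₀ _ hlc]

theorem p_V2 (hV1a : S_V1a) (hV1b : S_V1b) (hV1c : S_V1c) (hU1 : S_U1) : S_V2 := by
  intro P c g τ₀ K δ hB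
  set M := P.natDegree with hMdef
  have hM : 1 ≤ M := hB.ld.hM
  have hMpos : (0 : ℝ) < M := by exact_mod_cast hM
  obtain ⟨r₀, hr₀, han⟩ := hB.an
  have hr₀pos : 0 < r₀ := lt_of_le_of_lt (mul_nonneg (norm_nonneg c) hB.ld.ht.le) hr₀
  have hg0 : AnalyticAt ℂ g 0 := han 0 (Metric.mem_ball_self hr₀pos)
  have hslit : g 0 ∈ Complex.slitPlane := by rw [hB.one]; exact Complex.one_mem_slitPlane
  have hF : AnalyticAt ℂ (fun x => Complex.log (g x)) 0 := hg0.clog hslit
  obtain ⟨p, hp⟩ := hF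
  set γ : ℕ → ℂ := fun r => p.coeff r with hγ
  -- `γ 0 = 0`
  have hγ0 : γ 0 = 0 := by
    have := hp.coeff_zero (1 : Fin 0 → ℂ)
    simp only [hγ]
    unfold FormalMultilinearSeries.coeff
    rw [this, hB.one, Complex.log_one]
  -- Taylor expansion
  have hO := hp.isBigO_sub_partialSum_pow (M / 2 + 1)
  obtain ⟨C, hC⟩ := hO.bound
  have hTay : ∀ᶠ x : ℂ in 𝓝 0, ‖Complex.log (g x) -
      ∑ r ∈ Finset.range (M / 2 + 1), γ r * x ^ r‖ ≤ C * ‖x‖ ^ (M / 2 + 1) := by
    filter_upwards [hC] with x hx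
    have h1 : p.partialSum (M / 2 + 1) x = ∑ r ∈ Finset.range (M / 2 + 1), γ r * x ^ r := by
      unfold FormalMultilinearSeries.partialSum
      refine Finset.sum_congr rfl fun r _ => ?_
      rw [FormalMultilinearSeries.apply_eq_pow_smul_coeff, smul_eq_mul, mul_comm]
    rw [h1, zero_add] at hx
    simpa using hx
  have hne : ∀ᶠ x : ℂ in 𝓝 0, g x ≠ 0 :=
    hg0.continuousAt.eventually_ne (by rw [hB.one]; exact one_ne_zero)
  obtain ⟨ε, hε, hball⟩ := Metric.eventually_nhds_iff_ball.1 (hTay.and hne)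
  -- the constants `B`
  have hBr : ∀ r : ℕ, ∃ b : ℝ, (1 ≤ r → 2 * r < M → 0 < b ∧
      Tendsto (fun n : ℕ => ∑ k ∈ Finset.Icc 1 (n - M), (En n k) ^ (-((r : ℝ) / M)) -
        b * (n : ℝ) ^ (1 - 2 * ((r : ℝ) / M))) atTop (𝓝 0)) := by
    intro r
    by_cases h : 1 ≤ r ∧ 2 * r < M
    · have h1 : (0 : ℝ) < (r : ℝ) / M := by
        have : (0 : ℝ) < r := by exact_mod_cast h.1
        positivity
      have h2 : (r : ℝ) / M < 1 / 2 := by
        rw [div_lt_div_iff₀ hMpos (by norm_num)]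
        have : (2 : ℝ) * r < M := by exact_mod_cast h.2
        linarith
      obtain ⟨b, hb, hb2⟩ := hV1a _ h1 h2
      exact ⟨b, fun _ _ => ⟨hb, hb2 M hM⟩⟩
    · exact ⟨0, fun ha hb => absurd ⟨ha, hb⟩ h⟩
  choose B hB1 using hBr
  refine ⟨γ, B, ⟨fun r h1 h2 => (hB1 r h1 h2).1, ?_⟩, ?_⟩
  · intro l hl
    set w : ℂ := c * om M ^ l with hw
    have hwn : ‖w‖ = ‖c‖ := by rw [hw, norm_mul, p_V2_om_norm, mul_one]
    -- part A
    have hA : Tendsto (fun n : ℕ => ∑ r ∈ Finset.range (M / 2 + 1), γ r * w ^ r *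
        ((∑ k ∈ Finset.Icc 1 (n - M), tau M n k ^ r : ℝ) : ℂ) -
        (qq M c γ B l n + KK M c γ l)) atTop (𝓝 0) := by
      have hterm : ∀ r ∈ Finset.range (M / 2 + 1), Tendsto (fun n : ℕ => γ r * w ^ r *
          ((∑ k ∈ Finset.Icc 1 (n - M), tau M n k ^ r : ℝ) : ℂ) - γ r * w ^ r *
          (if 1 ≤ r then (if 2 * r < M then ((B r * (n : ℝ) ^ (1 - 2 * (r : ℝ) / M) : ℝ) : ℂ)
            else ((Real.pi / 2 : ℝ) : ℂ)) else 0)) atTop (𝓝 0) := by
        intro r hr
        rw [Finset.mem_range] at hr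
        by_cases h1 : 1 ≤ r
        · by_cases h2 : 2 * r < M
          · have h3 := (hB1 r h1 h2).2
            have h4 : Tendsto (fun n : ℕ => γ r * w ^ r *
                ((∑ k ∈ Finset.Icc 1 (n - M), (En n k) ^ (-((r : ℝ) / M)) -
                  B r * (n : ℝ) ^ (1 - 2 * ((r : ℝ) / M)) : ℝ) : ℂ)) atTop
                (𝓝 (γ r * w ^ r * ((0 : ℝ) : ℂ))) :=
              ((Complex.continuous_ofReal.tendsto _).comp h3).const_mul _
            rw [Complex.ofReal_zero, mul_zero] at h4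
            refine h4.congr fun n => ?_
            rw [if_pos h1, if_pos h2, p_V2_sum_pow M n r hM, ← mul_sub]
            have : (1 : ℝ) - 2 * ((r : ℝ) / M) = 1 - 2 * (r : ℝ) / M := by ring
            rw [this, Complex.ofReal_sub]
          · have h3 := hV1b M hM
            have hrM : (r : ℝ) / M = 1 / 2 := by
              have : 2 * r = M := by omega
              have h' : (M : ℝ) = 2 * r := by rw [← this]; push_cast; ring
              have hr' : (r : ℝ) ≠ 0 := by
                have : r ≠ 0 := by omega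
                exact_mod_cast this
              rw [h']; field_simp
            have h4 : Tendsto (fun n : ℕ => γ r * w ^ r *
                (((∑ k ∈ Finset.Icc 1 (n - M), (En n k) ^ (-(1 / 2) : ℝ) : ℝ) : ℂ)) -
                  γ r * w ^ r * ((Real.pi / 2 : ℝ) : ℂ)) atTop
                (𝓝 (γ r * w ^ r * ((Real.pi / 2 : ℝ) : ℂ) -
                  γ r * w ^ r * ((Real.pi / 2 : ℝ) : ℂ))) :=
              (((Complex.continuous_ofReal.tendsto _).comp h3).const_mul _).sub_const _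
            rw [sub_self] at h4
            refine h4.congr fun n => ?_
            rw [if_pos h1, if_neg h2, p_V2_sum_pow M n r hM, hrM]
        · have : r = 0 := by omega
          subst this
          simp only [hγ0, zero_mul, sub_self]
          exact tendsto_const_nhds
      have hsum := tendsto_finsetSum (Finset.range (M / 2 + 1)) hterm
      rw [Finset.sum_const_zero] at hsum
      refine hsum.congr fun n => ?_
      rw [p_V2_exp_sum M hM, Finset.sum_sub_distrib]
    -- part B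
    have hBsmall : Tendsto (fun n : ℕ => ∑ k ∈ Finset.Icc 1 (n - M),
        tau M n k ^ (M / 2 + 1)) atTop (𝓝 0) := by
      have hs : (1 : ℝ) / 2 < ((M / 2 + 1 : ℕ) : ℝ) / M := by
        rw [div_lt_div_iff₀ (by norm_num) hMpos]
        have : M < 2 * (M / 2 + 1) := by omega
        have h' : (M : ℝ) < 2 * ((M / 2 + 1 : ℕ) : ℝ) := by exact_mod_cast this
        linarith
      refine (hV1c _ M hs hM).congr fun n => ?_
      rw [p_V2_sum_pow M n _ hM]
    have hcpos : 0 < ‖c‖ := norm_pos_iff.2 hB.c0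
    have hx : ∀ᶠ n : ℕ in atTop, ∀ k ∈ Finset.Icc 1 (n - M),
        w * (tau M n k : ℂ) ∈ Metric.ball (0 : ℂ) ε ∧ ‖w * (tau M n k : ℂ)‖ = ‖c‖ * tau M n k := by
      filter_upwards [hU1 M (ε / (2 * ‖c‖)) hM (by positivity)] with n hn k hk
      rw [Finset.mem_Icc] at hk
      obtain ⟨h1, h2⟩ := hn k (by omega)
      have h3 : ‖w * (tau M n k : ℂ)‖ = ‖c‖ * tau M n k := by
        rw [norm_mul, hwn, Complex.norm_real, Real.norm_of_nonneg h1]
      refine ⟨?_, h3⟩
      rw [mem_ball_zero_iff, h3]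
      calc ‖c‖ * tau M n k ≤ ‖c‖ * (ε / (2 * ‖c‖)) := by gcongr
        _ = ε / 2 := by field_simp
        _ < ε := by linarith
    have hBpart : Tendsto (fun n : ℕ => ∑ k ∈ Finset.Icc 1 (n - M),
        Complex.log (g (w * (tau M n k : ℂ))) -
        ∑ r ∈ Finset.range (M / 2 + 1), γ r * w ^ r *
          ((∑ k ∈ Finset.Icc 1 (n - M), tau M n k ^ r : ℝ) : ℂ)) atTop (𝓝 0) := by
      have hlim : Tendsto (fun n : ℕ => C * ‖c‖ ^ (M / 2 + 1) * ∑ k ∈ Finset.Icc 1 (n - M),
          tau M n k ^ (M / 2 + 1)) atTop (𝓝 0) := by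
        have := hBsmall.const_mul (C * ‖c‖ ^ (M / 2 + 1))
        rwa [mul_zero] at this
      refine squeeze_zero_norm' ?_ hlim
      filter_upwards [hx] with n hn
      have h1 : ∑ r ∈ Finset.range (M / 2 + 1), γ r * w ^ r *
          ((∑ k ∈ Finset.Icc 1 (n - M), tau M n k ^ r : ℝ) : ℂ) =
          ∑ k ∈ Finset.Icc 1 (n - M), ∑ r ∈ Finset.range (M / 2 + 1),
            γ r * (w * (tau M n k : ℂ)) ^ r := by
        rw [Finset.sum_comm]
        refine Finset.sum_congr rfl fun r _ => ?_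
        rw [Complex.ofReal_sum, Finset.mul_sum]
        refine Finset.sum_congr rfl fun k _ => ?_
        rw [Complex.ofReal_pow, mul_pow]
        ring
      rw [h1, ← Finset.sum_sub_distrib, Finset.mul_sum]
      refine norm_sum_le_of_le _ fun k hk => ?_
      obtain ⟨hb, hnorm⟩ := hn k hk
      refine ((hball _ hb).1).trans ?_
      rw [hnorm, mul_pow]
      exact le_of_eq (by ring)
    have hAB := hBpart.add hA
    rw [add_zero] at hAB
    have hexp := (Complex.continuous_exp.tendsto 0).comp hAB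
    rw [Complex.exp_zero] at hexp
    refine hexp.congr' ?_
    filter_upwards [hx] with n hn
    have hprod : ∏ k ∈ Finset.Icc 1 (n - M), g (w * (tau M n k : ℂ)) =
        Complex.exp (∑ k ∈ Finset.Icc 1 (n - M), Complex.log (g (w * (tau M n k : ℂ)))) := by
      rw [Complex.exp_sum]
      refine Finset.prod_congr rfl fun k hk => ?_
      rw [Complex.exp_log ((hball _ (hn k hk).1).2)]
    show Complex.exp _ = _
    rw [hprod, ← Complex.exp_add]
    congr 1
    ring
  · intro h2
    have h1 : deriv (fun x => Complex.log (g x)) 0 = γ 1 := by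
      rw [hp.deriv]
      rfl
    rw [← h1, (hg0.differentiableAt.hasDerivAt.clog hslit).deriv, hB.one, div_one]
    exact p_V2_deriv P c g τ₀ K δ hB hg0.differentiableAt h2

end HillRoots
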