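import Pool.Agent.Lib.MP_e63cf8_mp.StmE

open Polynomial Filter Topology MeasureTheory Asymptotics

namespace HillRoots

private theorem p_V3_lim (s : Finset ℕ) (e p : ℕ → ℝ) (hp : ∀ r ∈ s, 0 < p r)
    (hanti : ∀ r ∈ s, ∀ r' ∈ s, r < r' → p r' < p r) (r₁ : ℕ) (hr₁ : r₁ ∈ s) (he : e r₁ ≠ 0) :
    Tendsto (fun n : ℕ => ∑ r ∈ s, e r * (n : ℝ) ^ (p r)) atTop atTop ∨
      Tendsto (fun n : ℕ => ∑ r ∈ s, e r * (n : ℝ) ^ (p r)) atTop atBot := by
  classical
  set s' := s.filter (fun r => e r ≠ 0) with hs'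
  have hne : s'.Nonempty := ⟨r₁, Finset.mem_filter.2 ⟨hr₁, he⟩⟩
  obtain ⟨r₀, hr₀, hmin⟩ : ∃ r₀ ∈ s', ∀ r ∈ s', r₀ ≤ r :=
    ⟨s'.min' hne, s'.min'_mem hne, fun r hr => s'.min'_le r hr⟩
  obtain ⟨h0s, h0e⟩ := Finset.mem_filter.1 hr₀
  have hf : Tendsto (fun n : ℕ => ∑ r ∈ s, e r * (n : ℝ) ^ (p r - p r₀)) atTop (𝓝 (e r₀)) := by
    have h1 : Tendsto (fun n : ℕ => ∑ r ∈ s, e r * (n : ℝ) ^ (p r - p r₀)) atTop
        (𝓝 (∑ r ∈ s, if r = r₀ then e r₀ else 0)) := by
      apply tendsto_finsetSum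
      intro r hr
      split_ifs with h
      · subst h
        simp
      · by_cases h2 : e r = 0
        · simp [h2]
        · have h3 : r₀ < r := lt_of_le_of_ne (hmin r (Finset.mem_filter.2 ⟨hr, h2⟩)) (Ne.symm h)
          have h4 := hanti r₀ h0s r hr h3
          have h5 := ((tendsto_rpow_neg_atTop (y := p r₀ - p r) (by linarith)).comp
            tendsto_natCast_atTop_atTop).const_mul (e r)
          rw [mul_zero] at h5
          refine h5.congr fun n => ?_
          simp only [Function.comp_apply, neg_sub]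
    rwa [Finset.sum_ite_eq' s r₀, if_pos h0s] at h1
  have hg : Tendsto (fun n : ℕ => (n : ℝ) ^ (p r₀)) atTop atTop :=
    (tendsto_rpow_atTop (hp r₀ h0s)).comp tendsto_natCast_atTop_atTop
  have hev : (fun n : ℕ => (n : ℝ) ^ (p r₀) * ∑ r ∈ s, e r * (n : ℝ) ^ (p r - p r₀)) =ᶠ[atTop]
      (fun n : ℕ => ∑ r ∈ s, e r * (n : ℝ) ^ (p r)) := by
    filter_upwards [eventually_ge_atTop 1] with n hn
    rw [Finset.mul_sum]
    refine Finset.sum_congr rfl fun r _ => ?_
    have hn0 : (0 : ℝ) < n := by exact_mod_cast hn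
    rw [mul_left_comm, ← Real.rpow_add hn0]
    congr 2
    ring
  rcases lt_or_gt_of_ne h0e with h | h
  · right
    exact (hg.atTop_mul_neg h hf).congr' hev
  · left
    exact (hg.atTop_mul_pos h hf).congr' hev

theorem p_V3 (hU1 : S_U1) : S_V3 := by
  intro P c g τ₀ K δ γ B hBr hE l hl
  set M := P.natDegree with hMdef
  have hM : 1 ≤ M := hBr.ld.hM
  have hM0 : (0 : ℝ) < M := by exact_mod_cast hM
  by_cases hall : ∀ r, 1 ≤ r → 2 * r < M → (γ r * (c * om M ^ l) ^ r).re = (γ r * c ^ r).re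
  · exact Or.inl hall
  right
  push Not at hall
  obtain ⟨r₁, hr1, hr2, hr3⟩ := hall
  set F := (Finset.Ico 1 M).filter (fun r => 2 * r < M) with hF
  set e : ℕ → ℝ := fun r => B r * ((γ r * (c * om M ^ l) ^ r).re - (γ r * c ^ r).re) with he
  have hsum : ∀ n : ℕ, (qq M c γ B l n - qq M c γ B 0 n).re =
      ∑ r ∈ F, e r * (n : ℝ) ^ (1 - 2 * (r : ℝ) / M) := by
    intro n
    unfold qq
    rw [← Finset.sum_sub_distrib, Complex.re_sum]
    refine Finset.sum_congr rfl fun r _ => ?_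
    rw [Complex.sub_re, Complex.re_mul_ofReal, Complex.re_mul_ofReal]
    simp only [he, pow_zero, mul_one]
    ring
  have hlim := p_V3_lim F e (fun r => 1 - 2 * (r : ℝ) / M)
    (fun r hr => by
      have h1 := (Finset.mem_filter.1 hr).2
      have h2 : 2 * (r : ℝ) < M := by exact_mod_cast h1
      have h3 : 2 * (r : ℝ) / M < 1 := by rwa [div_lt_one hM0]
      linarith)
    (fun r _ r' _ h => by
      have h1 : (r : ℝ) < r' := by exact_mod_cast h
      have h2 : 2 * (r : ℝ) / M < 2 * (r' : ℝ) / M := by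
        apply div_lt_div_of_pos_right _ hM0
        linarith
      linarith)
    r₁ (Finset.mem_filter.2 ⟨Finset.mem_Ico.2 ⟨hr1, by omega⟩, hr2⟩)
    (mul_ne_zero (hE.1 r₁ hr1 hr2).ne' (sub_ne_zero.2 hr3))
  have hfun : (fun n : ℕ => (qq M c γ B l n - qq M c γ B 0 n).re) =
      fun n : ℕ => ∑ r ∈ F, e r * (n : ℝ) ^ (1 - 2 * (r : ℝ) / M) := funext hsum
  rw [hfun]
  rcases hlim with h | h
  swap
  · exact h
  exfalso
  -- bounded above
  have hω : ‖om M‖ = 1 := by
    unfold om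
    have : (2 * Real.pi * Complex.I / M : ℂ) = ((2 * Real.pi / M : ℝ) : ℂ) * Complex.I := by
      push_cast; ring
    rw [this, Complex.norm_exp_ofReal_mul_I]
  have hbr : ∀ l' t, ‖br M c g l' t‖ = ‖g (c * om M ^ l' * t)‖ := by
    intro l' t
    unfold br
    rw [norm_mul, norm_pow, hω, one_pow, one_mul]
  have e1 := (hE.2 l hl).norm
  have e2 := (hE.2 0 (by omega)).norm
  rw [norm_one] at e1 e2
  have e1' := e1.eventually (lt_mem_nhds (show (1 / 2 : ℝ) < 1 by norm_num))
  have e2' := e2.eventually (gt_mem_nhds (show (1 : ℝ) < 2 by norm_num))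
  have hbd : ∀ᶠ n : ℕ in atTop, (qq M c γ B l n - qq M c γ B 0 n).re ≤
      Real.log 4 - (KK M c γ l).re + (KK M c γ 0).re := by
    filter_upwards [e1', e2', hU1 M τ₀ hM hBr.ld.ht] with n a1 a2 a3
    rw [norm_mul, Complex.norm_exp] at a1 a2
    have hle : ‖∏ k ∈ Finset.Icc 1 (n - M), g (c * om M ^ l * (tau M n k : ℂ))‖ ≤
        ‖∏ k ∈ Finset.Icc 1 (n - M), g (c * om M ^ 0 * (tau M n k : ℂ))‖ := by
      rw [norm_prod, norm_prod]
      apply Finset.prod_le_prod
      · intro k _; exact norm_nonneg _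
      · intro k hk
        rw [← hbr, ← hbr]
        have := Finset.mem_Icc.1 hk
        exact hBr.ld.dom l hl _ (a3 k (by omega))
    set u := (qq M c γ B l n + KK M c γ l).re with hu
    set v := (qq M c γ B 0 n + KK M c γ 0).re with hv
    rw [Complex.neg_re, ← hu] at a1
    rw [Complex.neg_re, ← hv] at a2
    have b1 : Real.exp u ≤ 4 * Real.exp v := by
      have c1 : Real.exp (-u) * Real.exp u = 1 := by rw [← Real.exp_add]; simp
      have c2 : Real.exp (-v) * Real.exp v = 1 := by rw [← Real.exp_add]; simp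
      have c3 := Real.exp_pos u
      have c4 := Real.exp_pos v
      have d1 : 1 / 2 * Real.exp u ≤
          ‖∏ k ∈ Finset.Icc 1 (n - M), g (c * om M ^ l * (tau M n k : ℂ))‖ := by
        have := mul_le_mul_of_nonneg_right a1.le c3.le
        rwa [mul_assoc _ (Real.exp (-u)), c1, mul_one] at this
      have d2 : ‖∏ k ∈ Finset.Icc 1 (n - M), g (c * om M ^ 0 * (tau M n k : ℂ))‖ ≤
          2 * Real.exp v := by
        have := mul_le_mul_of_nonneg_right a2.le c4.le
        rwa [mul_assoc _ (Real.exp (-v)), c2, mul_one] at this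
      linarith
    have b2 : u ≤ Real.log 4 + v := by
      have := Real.log_le_log (Real.exp_pos u) b1
      rwa [Real.log_exp, Real.log_mul (by norm_num) (Real.exp_pos v).ne', Real.log_exp] at this
    rw [hu, hv, Complex.add_re, Complex.add_re] at b2
    rw [Complex.sub_re]
    linarith
  rw [← hfun] at h
  obtain ⟨n, hn1, hn2⟩ := (hbd.and (h.eventually_gt_atTop
    (Real.log 4 - (KK M c γ l).re + (KK M c γ 0).re))).exists
  linarith

end HillRoots
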