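import Pool.Agent.Lib.MP_e63cf8_mp.StmE

open Polynomial Filter Topology MeasureTheory Asymptotics
open scoped Pointwise

namespace HillRoots

theorem p_V5_gp_add (φ ψ : ℝ →₀ ℝ) (n : ℕ) : gp (φ + ψ) n = gp φ n + gp ψ n := by
  unfold gp
  exact Finsupp.sum_add_index' (fun a => by simp) (fun a b c => by ring)

theorem p_V5_gp_zero (n : ℕ) : gp 0 n = 0 := by
  unfold gp
  simp

theorem p_V5_gp_sub (φ ψ : ℝ →₀ ℝ) (n : ℕ) : gp (φ - ψ) n = gp φ n - gp ψ n := by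
  have h := p_V5_gp_add (φ - ψ) ψ n
  rw [sub_add_cancel] at h
  linarith

/-- the character `φ ↦ e^{iφ(n)}` -/
noncomputable def p_V5_F (n : ℕ) : Multiplicative (ℝ →₀ ℝ) →* ℂ where
  toFun φ := Complex.exp (Complex.I * (gp (Multiplicative.toAdd φ) n : ℂ))
  map_one' := by simp [p_V5_gp_zero]
  map_mul' φ ψ := by
    rw [toAdd_mul, p_V5_gp_add, Complex.ofReal_add, mul_add, Complex.exp_add]

theorem p_V5_lift (A : AddMonoidAlgebra ℂ (ℝ →₀ ℝ)) (n : ℕ) :
    AddMonoidAlgebra.lift ℂ ℂ (ℝ →₀ ℝ) (p_V5_F n) A = trig A.coeff n := by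
  rw [AddMonoidAlgebra.lift_apply]
  unfold trig
  rfl

theorem p_V5_mul (A B : AddMonoidAlgebra ℂ (ℝ →₀ ℝ)) (n : ℕ) :
    trig (A * B).coeff n = trig A.coeff n * trig B.coeff n := by
  rw [← p_V5_lift, ← p_V5_lift, ← p_V5_lift, map_mul]

theorem p_V5_norm_exp (x : ℝ) : ‖Complex.exp (Complex.I * (x : ℂ))‖ = 1 := by
  rw [mul_comm]
  exact Complex.norm_exp_ofReal_mul_I x

theorem p_V5_bd (A : (ℝ →₀ ℝ) →₀ ℂ) (n : ℕ) : ‖trig A n‖ ≤ ∑ φ ∈ A.support, ‖A φ‖ := by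
  unfold trig Finsupp.sum
  refine (norm_sum_le _ _).trans (Finset.sum_le_sum fun φ _ => ?_)
  rw [norm_mul, p_V5_norm_exp, mul_one]

theorem p_V5_sq (A : (ℝ →₀ ℝ) →₀ ℂ) (n : ℕ) : ((‖trig A n‖ ^ 2 : ℝ) : ℂ) =
    ∑ φ ∈ A.support, ∑ ψ ∈ A.support, A φ * (starRingEnd ℂ) (A ψ) *
      Complex.exp (Complex.I * (gp (φ - ψ) n : ℂ)) := by
  have h1 : ((‖trig A n‖ ^ 2 : ℝ) : ℂ) = trig A n * (starRingEnd ℂ) (trig A n) := by
    rw [Complex.mul_conj, Complex.normSq_eq_norm_sq]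
  rw [h1]
  unfold trig Finsupp.sum
  rw [map_sum, Finset.sum_mul_sum]
  refine Finset.sum_congr rfl fun φ _ => Finset.sum_congr rfl fun ψ _ => ?_
  rw [p_V5_gp_sub, map_mul, ← Complex.exp_conj, map_mul, Complex.conj_I, Complex.conj_ofReal,
    Complex.ofReal_sub, mul_sub, Complex.exp_sub, neg_mul, Complex.exp_neg]
  field_simp

theorem p_V5_mean (hV4 : S_V4) (A : (ℝ →₀ ℝ) →₀ ℂ) (D : ℕ) (hD : 0 < D)
    (hA : ∀ φ ∈ A.support, ∀ a ∈ φ.support, 0 < a ∧ a < 1) :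
    Tendsto (fun N : ℕ => (1 / (N : ℝ)) * ∑ m ∈ Finset.range N, ‖trig A (D * m)‖ ^ 2) atTop
      (𝓝 (∑ φ ∈ A.support, ‖A φ‖ ^ 2)) := by
  classical
  have h1 : Tendsto (fun N : ℕ => ∑ φ ∈ A.support, ∑ ψ ∈ A.support,
      A φ * (starRingEnd ℂ) (A ψ) * ((1 / (N : ℂ)) * ∑ m ∈ Finset.range N,
        Complex.exp (Complex.I * (gp (φ - ψ) (D * m) : ℂ)))) atTop
      (𝓝 (∑ φ ∈ A.support, ∑ ψ ∈ A.support, A φ * (starRingEnd ℂ) (A ψ) *
        (if φ = ψ then 1 else 0))) := by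
    refine tendsto_finset_sum _ fun φ hφ => tendsto_finset_sum _ fun ψ hψ => ?_
    refine Tendsto.const_mul _ ?_
    by_cases h : φ = ψ
    · subst h
      rw [if_pos rfl]
      refine Tendsto.congr' ?_ tendsto_const_nhds
      filter_upwards [eventually_gt_atTop 0] with N hN
      have hN' : (N : ℂ) ≠ 0 := by exact_mod_cast hN.ne'
      simp only [sub_self, p_V5_gp_zero, Complex.ofReal_zero, mul_zero, Complex.exp_zero,
        Finset.sum_const, Finset.card_range, nsmul_eq_mul, mul_one]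
      field_simp
    · rw [if_neg h]
      refine hV4 (φ - ψ) D (sub_ne_zero.2 h) ?_ hD
      intro a ha
      have h2 : a ∈ φ.support ∪ ψ.support := Finsupp.support_sub ha
      rcases Finset.mem_union.1 h2 with h3 | h3
      · exact hA φ hφ a h3
      · exact hA ψ hψ a h3
  have h2 : (∑ φ ∈ A.support, ∑ ψ ∈ A.support, A φ * (starRingEnd ℂ) (A ψ) *
        (if φ = ψ then (1 : ℂ) else 0)) = ((∑ φ ∈ A.support, ‖A φ‖ ^ 2 : ℝ) : ℂ) := by
    rw [Complex.ofReal_sum]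
    refine Finset.sum_congr rfl fun φ hφ => ?_
    rw [Finset.sum_eq_single_of_mem φ hφ]
    · rw [if_pos rfl, mul_one, Complex.mul_conj, Complex.normSq_eq_norm_sq]
    · intro ψ _ h
      rw [if_neg (Ne.symm h), mul_zero]
  rw [h2] at h1
  have h3 := (Complex.continuous_re.tendsto _).comp h1
  rw [Complex.ofReal_re] at h3
  refine h3.congr fun N => ?_
  have h4 : (∑ φ ∈ A.support, ∑ ψ ∈ A.support,
      A φ * (starRingEnd ℂ) (A ψ) * ((1 / (N : ℂ)) * ∑ m ∈ Finset.range N,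
        Complex.exp (Complex.I * (gp (φ - ψ) (D * m) : ℂ)))) =
      (((1 / (N : ℝ)) * ∑ m ∈ Finset.range N, ‖trig A (D * m)‖ ^ 2 : ℝ) : ℂ) := by
    rw [Complex.ofReal_mul, Complex.ofReal_sum]
    simp_rw [p_V5_sq]
    conv_rhs => rw [Finset.sum_comm, Finset.mul_sum]
    refine Finset.sum_congr rfl fun φ _ => ?_
    conv_rhs => rw [Finset.sum_comm, Finset.mul_sum]
    refine Finset.sum_congr rfl fun ψ _ => ?_
    rw [← Finset.mul_sum]
    push_cast
    ring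
  simp only [Function.comp]
  rw [h4, Complex.ofReal_re]

/-- a Cesàro limit of a sequence which is eventually at most `δ` is at most `δ` -/
theorem p_V5_ces {u : ℕ → ℝ} {L δ : ℝ}
    (hu : Tendsto (fun N : ℕ => (1 / (N : ℝ)) * ∑ m ∈ Finset.range N, u m) atTop (𝓝 L))
    (h : ∀ᶠ m : ℕ in atTop, u m ≤ δ) : L ≤ δ := by
  have h1 : Tendsto (fun m => u m - min (u m) δ) atTop (𝓝 0) := by
    refine Tendsto.congr' ?_ tendsto_const_nhds
    filter_upwards [h] with m hm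
    rw [min_eq_left hm, sub_self]
  have h2 := h1.cesaro
  have h3 : ∀ᶠ N : ℕ in atTop, (1 / (N : ℝ)) * ∑ m ∈ Finset.range N, u m ≤
      (N⁻¹ : ℝ) * ∑ m ∈ Finset.range N, (u m - min (u m) δ) + δ := by
    filter_upwards [eventually_gt_atTop 0] with N hN
    have hN' : (0 : ℝ) < N := by exact_mod_cast hN
    rw [Finset.sum_sub_distrib, mul_sub, one_div]
    have h4 : (N : ℝ)⁻¹ * ∑ m ∈ Finset.range N, min (u m) δ ≤ δ := by
      rw [inv_mul_le_iff₀ hN']
      calc ∑ m ∈ Finset.range N, min (u m) δ ≤ ∑ m ∈ Finset.range N, δ :=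
            Finset.sum_le_sum fun m _ => min_le_right _ _
        _ = N * δ := by simp
    linarith
  have h5 := le_of_tendsto_of_tendsto hu (h2.add_const δ) h3
  simpa using h5

theorem p_V5 (hV4 : S_V4) : S_V5 := by
  classical
  rintro D D' z z' hD hD' ⟨A, hA, hAs, hz⟩ ⟨A', hA', hAs', hz'⟩
  let B : AddMonoidAlgebra ℂ (ℝ →₀ ℝ) := AddMonoidAlgebra.ofCoeff A
  let B' : AddMonoidAlgebra ℂ (ℝ →₀ ℝ) := AddMonoidAlgebra.ofCoeff A'
  have hB : B ≠ 0 := fun h => hA (AddMonoidAlgebra.ofCoeff_eq_zero.1 h)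
  have hB' : B' ≠ 0 := fun h => hA' (AddMonoidAlgebra.ofCoeff_eq_zero.1 h)
  have hC : B * B' ≠ 0 := mul_ne_zero hB hB'
  set C : (ℝ →₀ ℝ) →₀ ℂ := (B * B').coeff with hCdef
  have hC0 : C ≠ 0 := by
    intro h
    apply hC
    rw [← AddMonoidAlgebra.ofCoeff_coeff (B * B'), ← hCdef, h]
    rfl
  have hCs : ∀ φ ∈ C.support, ∀ a ∈ φ.support, 0 < a ∧ a < 1 := by
    intro φ hφ a ha
    have h1 := AddMonoidAlgebra.support_coeff_mul_subset B B' hφ
    obtain ⟨φ₁, h2, φ₂, h3, rfl⟩ := Finset.mem_add.1 h1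
    have h4 : a ∈ φ₁.support ∪ φ₂.support := Finsupp.support_add ha
    rcases Finset.mem_union.1 h4 with h5 | h5
    · exact hAs φ₁ h2 a h5
    · exact hAs' φ₂ h3 a h5
  have hE : 0 < 2 * D * D' := by positivity
  have hmean := p_V5_mean hV4 C (2 * D * D') hE hCs
  set L : ℝ := ∑ φ ∈ C.support, ‖C φ‖ ^ 2 with hL
  have hLpos : 0 < L := by
    obtain ⟨φ, hφ⟩ := Finsupp.support_nonempty_iff.2 hC0
    refine Finset.sum_pos' (fun _ _ => by positivity) ⟨φ, hφ, ?_⟩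
    have : 0 < ‖C φ‖ := norm_pos_iff.2 (Finsupp.mem_support_iff.1 hφ)
    positivity
  set b : ℝ := (∑ φ ∈ A.support, ‖A φ‖) + (∑ φ ∈ A'.support, ‖A' φ‖) + 1 with hb
  have ha0 : 0 ≤ ∑ φ ∈ A.support, ‖A φ‖ := Finset.sum_nonneg fun _ _ => norm_nonneg _
  have ha0' : 0 ≤ ∑ φ ∈ A'.support, ‖A' φ‖ := Finset.sum_nonneg fun _ _ => norm_nonneg _
  have hb1 : 0 < b := by rw [hb]; linarith
  have hsq : 0 < Real.sqrt L := Real.sqrt_pos.2 hLpos
  refine ⟨Real.sqrt L / (4 * b), by positivity, ?_⟩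
  set ε : ℝ := Real.sqrt L / (4 * b) with hε
  have hεpos : 0 < ε := by positivity
  have hεb : 2 * ε * b = Real.sqrt L / 2 := by
    rw [hε]; field_simp; ring
  by_contra hcon
  rw [not_frequently] at hcon
  have ht : Tendsto (fun m : ℕ => 2 * D * D' * m) atTop atTop :=
    tendsto_id.const_mul_atTop' hE
  have hev : ∀ᶠ m : ℕ in atTop, ‖trig C (2 * D * D' * m)‖ ^ 2 ≤ L / 4 := by
    filter_upwards [ht.eventually hcon, ht.eventually (hz ε hεpos), ht.eventually (hz' ε hεpos)]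
      with m h1 h2 h3
    have d1 : D ∣ 2 * D * D' * m := ⟨2 * D' * m, by ring⟩
    have d2 : D' ∣ 2 * D * D' * m := ⟨2 * D * m, by ring⟩
    have h2' := h2 d1
    have h3' := h3 d2
    set n := 2 * D * D' * m with hn
    have hdn : 2 * D * D' ∣ n := ⟨m, hn⟩
    have hprod : trig C n = trig A n * trig A' n := p_V5_mul B B' n
    have hbA : ‖trig A n‖ ≤ b := (p_V5_bd A n).trans (by rw [hb]; linarith)
    have hbA' : ‖trig A' n‖ ≤ b := (p_V5_bd A' n).trans (by rw [hb]; linarith)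
    have key : ‖trig C n‖ ≤ 2 * ε * b := by
      rw [hprod, norm_mul]
      by_cases h4 : ε ≤ ‖z n‖
      · have h5 : ‖z' n‖ < ε := by
          by_contra h6
          exact h1 ⟨hdn, h4, not_lt.1 h6⟩
        have h6 : ‖trig A' n‖ ≤ 2 * ε := by
          have := norm_sub_norm_le (trig A' n) (z' n)
          rw [norm_sub_rev] at this
          linarith
        calc ‖trig A n‖ * ‖trig A' n‖ ≤ b * (2 * ε) :=
              mul_le_mul hbA h6 (norm_nonneg _) hb1.le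
          _ = 2 * ε * b := by ring
      · have h6 : ‖trig A n‖ ≤ 2 * ε := by
          have := norm_sub_norm_le (trig A n) (z n)
          rw [norm_sub_rev] at this
          linarith
        exact mul_le_mul h6 hbA' (norm_nonneg _) (by positivity)
    rw [hεb] at key
    calc ‖trig C n‖ ^ 2 ≤ (Real.sqrt L / 2) ^ 2 := pow_le_pow_left₀ (norm_nonneg _) key 2
      _ = L / 4 := by rw [div_pow, Real.sq_sqrt hLpos.le]; norm_num
  have := p_V5_ces hmean hev
  linarith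

end HillRoots
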