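import Pool.Agent.Lib.MP_e63cf8_mp.StmE

open Polynomial Filter Topology MeasureTheory Asymptotics

namespace HillRoots

/-- the product of the branch functions `g` -/
noncomputable def p_V6_Pi (M : ℕ) (c : ℂ) (g : ℂ → ℂ) (l n : ℕ) : ℂ :=
  ∏ k ∈ Finset.Icc 1 (n - M), g (c * om M ^ l * (tau M n k : ℂ))

/-- the branches that are as large as branch `0` -/
def p_V6_Dom (M : ℕ) (c : ℂ) (γ : ℕ → ℂ) (l : ℕ) : Prop :=
  ∀ r, 1 ≤ r → 2 * r < M → (γ r * (c * om M ^ l) ^ r).re = (γ r * c ^ r).re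

/-- the main term of branch `l` -/
noncomputable def p_V6_main (M : ℕ) (c : ℂ) (γ : ℕ → ℂ) (B : ℕ → ℝ) (l n : ℕ) : ℂ :=
  Complex.exp (KK M c γ l - ((KK M c γ 0).re : ℂ)) *
    Complex.exp (Complex.I * ((qq M c γ B l n).im : ℂ))

theorem p_V6_om_pow (M : ℕ) (hM : 1 ≤ M) : om M ^ M = 1 := by
  unfold om
  rw [← Complex.exp_nat_mul]
  have : (M : ℂ) ≠ 0 := by exact_mod_cast (by omega : M ≠ 0)
  rw [mul_div_cancel₀ _ this]
  exact Complex.exp_two_pi_mul_I

theorem p_V6_om_norm (M : ℕ) : ‖om M‖ = 1 := by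
  unfold om
  rw [Complex.norm_exp]
  have : (2 * (Real.pi : ℂ) * Complex.I / (M : ℂ)).re = 0 := by
    have : (2 * (Real.pi : ℂ) * Complex.I / (M : ℂ)) = ((2 * Real.pi / M : ℝ) : ℂ) * Complex.I := by
      push_cast; ring
    rw [this]
    simp
  rw [this, Real.exp_zero]

theorem p_V6_GG (M : ℕ) (c : ℂ) (g : ℂ → ℂ) (n : ℕ) :
    GG M c g n (n - M) = ‖p_V6_Pi M c g 0 n‖ := by
  unfold GG p_V6_Pi br
  rw [norm_prod]
  refine Finset.prod_congr rfl fun i _ => ?_
  simp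

theorem p_V6_yy (M : ℕ) (c : ℂ) (g : ℂ → ℂ) (n : ℕ) :
    yy M c g n (n - M) = (1 / (M : ℂ)) * ∑ l ∈ Finset.range M, (om M ^ l) ^ (n - M) * p_V6_Pi M c g l n := by
  unfold yy p_V6_Pi br
  congr 1
  refine Finset.sum_congr rfl fun l _ => ?_
  rw [Finset.prod_mul_distrib, Finset.prod_const, Nat.card_Icc]
  simp

theorem p_V6_pow (M : ℕ) (hM : 1 ≤ M) (l n : ℕ) (hn : M ≤ n) :
    (om M ^ l) ^ (n - M) = (om M ^ l) ^ n := by
  have h1 : (om M ^ l) ^ M = 1 := by
    rw [← pow_mul, mul_comm, pow_mul, p_V6_om_pow M hM, one_pow]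
  conv_rhs => rw [← Nat.sub_add_cancel hn, pow_add, h1, mul_one]

theorem p_V6_qre (M : ℕ) (c : ℂ) (γ : ℕ → ℂ) (B : ℕ → ℝ) (l n : ℕ) (h : p_V6_Dom M c γ l) :
    (qq M c γ B l n).re = (qq M c γ B 0 n).re := by
  unfold qq
  rw [Complex.re_sum, Complex.re_sum]
  refine Finset.sum_congr rfl fun r hr => ?_
  rw [Finset.mem_filter, Finset.mem_Ico] at hr
  rw [Complex.re_mul_ofReal, Complex.re_mul_ofReal, h r hr.1.1 hr.2]
  simp

theorem p_V6_norm_main (M : ℕ) (c : ℂ) (γ : ℕ → ℂ) (B : ℕ → ℝ) (l n : ℕ) :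
    ‖p_V6_main M c γ B l n‖ = Real.exp ((KK M c γ l).re - (KK M c γ 0).re) := by
  unfold p_V6_main
  rw [norm_mul, Complex.norm_exp, Complex.norm_exp]
  simp

/-- the quotient that tends to one -/
noncomputable def p_V6_rho (M : ℕ) (c : ℂ) (g : ℂ → ℂ) (γ : ℕ → ℂ) (B : ℕ → ℝ) (l n : ℕ) : ℂ :=
  p_V6_Pi M c g l n * Complex.exp (-(qq M c γ B l n + KK M c γ l))

/-- quotient formula -/
theorem p_V6_quot (M : ℕ) (c : ℂ) (g : ℂ → ℂ) (γ : ℕ → ℂ) (B : ℕ → ℝ) (l n : ℕ) :
    p_V6_Pi M c g l n / (‖p_V6_Pi M c g 0 n‖ : ℂ) =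
      p_V6_rho M c g γ B l n / (‖p_V6_rho M c g γ B 0 n‖ : ℂ) *
      Complex.exp (qq M c γ B l n + KK M c γ l - ((qq M c γ B 0 n).re + (KK M c γ 0).re : ℂ)) := by
  unfold p_V6_rho
  have h1 : (‖p_V6_Pi M c g 0 n * Complex.exp (-(qq M c γ B 0 n + KK M c γ 0))‖ : ℂ) =
      (‖p_V6_Pi M c g 0 n‖ : ℂ) * Complex.exp (-((qq M c γ B 0 n).re + (KK M c γ 0).re : ℂ)) := by
    rw [norm_mul, Complex.norm_exp]
    push_cast
    congr 1
    simp
  rw [h1]
  set a := qq M c γ B l n + KK M c γ l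
  set b := ((qq M c γ B 0 n).re + (KK M c γ 0).re : ℂ)
  have h2 : Complex.exp (a - b) = Complex.exp a * Complex.exp (-b) := by
    rw [sub_eq_add_neg, Complex.exp_add]
  rw [h2]
  have h3 : Complex.exp (-b) ≠ 0 := Complex.exp_ne_zero _
  have h4 : Complex.exp (-a) * Complex.exp a = 1 := by
    rw [← Complex.exp_add]; simp
  by_cases hz : (‖p_V6_Pi M c g 0 n‖ : ℂ) = 0
  · rw [hz]; simp
  · field_simp
    linear_combination (-(p_V6_Pi M c g l n)) * h4

theorem p_V6_rho_lim (M : ℕ) (c : ℂ) (g : ℂ → ℂ) (γ : ℕ → ℂ) (B : ℕ → ℝ) (hE : Expo M c g γ B) (hM : 1 ≤ M)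
    (l : ℕ) (hl : l < M) :
    Tendsto (fun n : ℕ => p_V6_rho M c g γ B l n / (‖p_V6_rho M c g γ B 0 n‖ : ℂ)) atTop (𝓝 1) := by
  have e1 : Tendsto (fun n : ℕ => p_V6_rho M c g γ B l n) atTop (𝓝 1) := hE.2 l hl
  have e0 : Tendsto (fun n : ℕ => p_V6_rho M c g γ B 0 n) atTop (𝓝 1) := hE.2 0 (by omega)
  have h0 : Tendsto (fun n : ℕ => ((‖p_V6_rho M c g γ B 0 n‖ : ℝ) : ℂ))
      atTop (𝓝 ((‖(1 : ℂ)‖ : ℝ) : ℂ)) := (Complex.continuous_ofReal.tendsto _).comp e0.norm
  have h1 : Tendsto (fun n : ℕ => p_V6_rho M c g γ B l n / (‖p_V6_rho M c g γ B 0 n‖ : ℂ)) atTop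
      (𝓝 (1 / ((‖(1 : ℂ)‖ : ℝ) : ℂ))) := Tendsto.div e1 h0 (by simp)
  have h2 : (1 / ((‖(1 : ℂ)‖ : ℝ) : ℂ)) = 1 := by simp
  rw [h2] at h1
  exact h1

theorem p_V6_dom (M : ℕ) (c : ℂ) (g : ℂ → ℂ) (γ : ℕ → ℂ) (B : ℕ → ℝ) (hE : Expo M c g γ B) (hM : 1 ≤ M)
    (l : ℕ) (hl : l < M) (h : p_V6_Dom M c γ l) :
    Tendsto (fun n : ℕ => p_V6_Pi M c g l n / (‖p_V6_Pi M c g 0 n‖ : ℂ) - p_V6_main M c γ B l n) atTop (𝓝 0) := by
  have e2 : Tendsto (fun n : ℕ => p_V6_rho M c g γ B l n / (‖p_V6_rho M c g γ B 0 n‖ : ℂ) - 1) atTop (𝓝 0) := by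
    have h1 := (p_V6_rho_lim M c g γ B hE hM l hl).sub_const 1
    rw [sub_self] at h1
    exact h1
  have e3 : ∀ n : ℕ, p_V6_Pi M c g l n / (‖p_V6_Pi M c g 0 n‖ : ℂ) - p_V6_main M c γ B l n =
      (p_V6_rho M c g γ B l n / (‖p_V6_rho M c g γ B 0 n‖ : ℂ) - 1) * p_V6_main M c γ B l n := by
    intro n
    have h1 : Complex.exp (qq M c γ B l n + KK M c γ l - ((qq M c γ B 0 n).re + (KK M c γ 0).re : ℂ)) =
        p_V6_main M c γ B l n := by
      unfold p_V6_main
      rw [← Complex.exp_add]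
      congr 1
      have h2 : (qq M c γ B l n) = ((qq M c γ B 0 n).re : ℂ) + Complex.I * ((qq M c γ B l n).im : ℂ) := by
        rw [← p_V6_qre M c γ B l n h]
        conv_lhs => rw [← Complex.re_add_im (qq M c γ B l n)]
        ring
      conv_lhs => rw [h2]
      ring
    rw [p_V6_quot M c g γ B l n, h1]
    ring
  simp_rw [e3]
  rw [tendsto_zero_iff_norm_tendsto_zero]
  have e4 := (tendsto_zero_iff_norm_tendsto_zero.mp e2).mul_const (Real.exp ((KK M c γ l).re - (KK M c γ 0).re))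
  rw [zero_mul] at e4
  refine e4.congr fun n => ?_
  rw [norm_mul (p_V6_rho M c g γ B l n / (‖p_V6_rho M c g γ B 0 n‖ : ℂ) - 1) (p_V6_main M c γ B l n),
    p_V6_norm_main]

theorem p_V6_ndom (M : ℕ) (c : ℂ) (g : ℂ → ℂ) (γ : ℕ → ℂ) (B : ℕ → ℝ) (hE : Expo M c g γ B) (hM : 1 ≤ M)
    (l : ℕ) (hl : l < M)
    (h : Tendsto (fun n : ℕ => (qq M c γ B l n - qq M c γ B 0 n).re) atTop atBot) :
    Tendsto (fun n : ℕ => p_V6_Pi M c g l n / (‖p_V6_Pi M c g 0 n‖ : ℂ)) atTop (𝓝 0) := by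
  have e2 := p_V6_rho_lim M c g γ B hE hM l hl
  have e3 : Tendsto (fun n : ℕ => Complex.exp (qq M c γ B l n + KK M c γ l -
      ((qq M c γ B 0 n).re + (KK M c γ 0).re : ℂ))) atTop (𝓝 0) := by
    rw [tendsto_zero_iff_norm_tendsto_zero]
    have h1 : Tendsto (fun n : ℕ => (qq M c γ B l n - qq M c γ B 0 n).re + ((KK M c γ l).re - (KK M c γ 0).re))
        atTop atBot := tendsto_atBot_add_const_right _ _ h
    have h2 := Real.tendsto_exp_atBot.comp h1
    refine h2.congr fun n => ?_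
    simp only [Function.comp]
    rw [Complex.norm_exp]
    congr 1
    simp
    ring
  have e4 := e2.mul e3
  rw [one_mul] at e4
  exact e4.congr fun n => (p_V6_quot M c g γ B l n).symm

/-- asymptotics of `y/G` -/
theorem p_V6_core (hV3 : S_V3) (P : ℂ[X]) (c : ℂ) (g : ℂ → ℂ) (τ₀ K δ : ℝ) (γ : ℕ → ℂ) (B : ℕ → ℝ)
    (hB : Branch P c g τ₀ K δ) (hE : Expo P.natDegree c g γ B)
    [DecidablePred (p_V6_Dom P.natDegree c γ)] :
    Tendsto (fun n : ℕ => yy P.natDegree c g n (n - P.natDegree) / (GG P.natDegree c g n (n - P.natDegree) : ℂ) -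
      (1 / (P.natDegree : ℂ)) * ∑ l ∈ (Finset.range P.natDegree).filter (p_V6_Dom P.natDegree c γ),
        (om P.natDegree ^ l) ^ n * p_V6_main P.natDegree c γ B l n) atTop (𝓝 0) := by
  have hM : 1 ≤ P.natDegree := hB.ld.hM
  set M := P.natDegree with hMdef
  have h1 : Tendsto (fun n : ℕ => (1 / (M : ℂ)) * ∑ l ∈ Finset.range M, (om M ^ l) ^ n *
      (p_V6_Pi M c g l n / (‖p_V6_Pi M c g 0 n‖ : ℂ) - if p_V6_Dom M c γ l then p_V6_main M c γ B l n else 0))
      atTop (𝓝 0) := by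
    have : Tendsto (fun n : ℕ => ∑ l ∈ Finset.range M, (om M ^ l) ^ n *
      (p_V6_Pi M c g l n / (‖p_V6_Pi M c g 0 n‖ : ℂ) - if p_V6_Dom M c γ l then p_V6_main M c γ B l n else 0))
      atTop (𝓝 (∑ l ∈ Finset.range M, 0)) := by
      refine tendsto_finsetSum _ fun l hl => ?_
      have hl' : l < M := Finset.mem_range.mp hl
      have h2 : Tendsto (fun n : ℕ => p_V6_Pi M c g l n / (‖p_V6_Pi M c g 0 n‖ : ℂ) -
          if p_V6_Dom M c γ l then p_V6_main M c γ B l n else 0) atTop (𝓝 0) := by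
        by_cases hd : p_V6_Dom M c γ l
        · simp only [hd, if_true]
          exact p_V6_dom M c g γ B hE hM l hl' hd
        · simp only [hd, if_false, sub_zero]
          rcases hV3 P c g τ₀ K δ γ B hB hE l hl' with h | h
          · exact absurd h hd
          · exact p_V6_ndom M c g γ B hE hM l hl' h
      rw [tendsto_zero_iff_norm_tendsto_zero] at h2 ⊢
      refine h2.congr fun n => ?_
      rw [norm_mul, norm_pow, norm_pow, p_V6_om_norm, one_pow, one_pow, one_mul]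
    have h3 := this.const_mul (1 / (M : ℂ))
    simpa using h3
  refine h1.congr' ?_
  filter_upwards [eventually_ge_atTop M] with n hn
  rw [p_V6_yy, p_V6_GG, Finset.sum_filter]
  have h4 : ∀ l ∈ Finset.range M, (om M ^ l) ^ (n - M) * p_V6_Pi M c g l n = (om M ^ l) ^ n * p_V6_Pi M c g l n := by
    intro l _
    rw [p_V6_pow M hM l n hn]
  rw [Finset.sum_congr rfl h4, mul_div_assoc, Finset.sum_div, ← mul_sub, ← Finset.sum_sub_distrib]
  congr 1
  refine Finset.sum_congr rfl fun l _ => ?_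
  split_ifs
  · ring
  · ring

/-- the phase of branch `l` -/
noncomputable def p_V6_phi (M : ℕ) (c : ℂ) (γ : ℕ → ℂ) (B : ℕ → ℝ) (l : ℕ) : ℝ →₀ ℝ :=
  ∑ r ∈ (Finset.Ico 1 M).filter (fun r => 2 * r < M),
    Finsupp.single (1 - 2 * (r : ℝ) / M) ((γ r * (c * om M ^ l) ^ r).im * B r)

theorem p_V6_gp_sum {ι : Type*} (s : Finset ι) (f : ι → ℝ →₀ ℝ) (n : ℕ) :
    gp (∑ i ∈ s, f i) n = ∑ i ∈ s, gp (f i) n := by
  unfold gp
  exact (Finsupp.sum_finsetSum_index (fun a => by simp) (fun a b₁ b₂ => by ring)).symm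

theorem p_V6_gp_phi (M : ℕ) (c : ℂ) (γ : ℕ → ℂ) (B : ℕ → ℝ) (l n : ℕ) :
    gp (p_V6_phi M c γ B l) n = (qq M c γ B l n).im := by
  unfold p_V6_phi qq
  rw [p_V6_gp_sum, Complex.im_sum]
  refine Finset.sum_congr rfl fun r _ => ?_
  unfold gp
  rw [Finsupp.sum_single_index (by simp), Complex.im_mul_ofReal]
  ring

theorem p_V6_phi_apply (M : ℕ) (c : ℂ) (γ : ℕ → ℂ) (B : ℕ → ℝ) (l r : ℕ) (h1 : 1 ≤ r) (h2 : 2 * r < M) :
    p_V6_phi M c γ B l (1 - 2 * (r : ℝ) / M) = (γ r * (c * om M ^ l) ^ r).im * B r := by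
  unfold p_V6_phi
  rw [Finsupp.finsetSum_apply, Finset.sum_eq_single r]
  · simp
  · intro b hb hne
    rw [Finset.mem_filter, Finset.mem_Ico] at hb
    rw [Finsupp.single_apply, if_neg]
    intro h
    apply hne
    have hM : (M : ℝ) ≠ 0 := by
      have : 0 < M := by omega
      exact_mod_cast this.ne'
    have h3 : 2 * (b : ℝ) / M = 2 * (r : ℝ) / M := by linarith
    rw [div_left_inj' hM] at h3
    have h4 : (b : ℝ) = r := by linarith
    exact_mod_cast h4
  · intro h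
    exfalso
    apply h
    rw [Finset.mem_filter, Finset.mem_Ico]
    omega

theorem p_V6_phi_supp (M : ℕ) (c : ℂ) (γ : ℕ → ℂ) (B : ℕ → ℝ) (l : ℕ) (a : ℝ)
    (ha : a ∈ (p_V6_phi M c γ B l).support) : 0 < a ∧ a < 1 := by
  classical
  unfold p_V6_phi at ha
  have h1 := Finsupp.support_finsetSum ha
  rw [Finset.mem_biUnion] at h1
  obtain ⟨r, hr, h2⟩ := h1
  rw [Finset.mem_filter, Finset.mem_Ico] at hr
  have h3 := Finsupp.support_single_subset h2
  rw [Finset.mem_singleton] at h3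
  rw [h3]
  have hM : (0 : ℝ) < M := by
    have : 0 < M := by omega
    exact_mod_cast this
  have h4 : 2 * (r : ℝ) < M := by exact_mod_cast hr.2
  have h5 : (1 : ℝ) ≤ r := by exact_mod_cast hr.1.1
  constructor
  · have : 2 * (r : ℝ) / M < 1 := by rw [div_lt_one hM]; exact h4
    linarith
  · have : 0 < 2 * (r : ℝ) / M := by positivity
    linarith

/-- The decisive sum is not zero. -/
theorem p_V6_sum (P : ℂ[X]) (c : ℂ) (g : ℂ → ℂ) (τ₀ K δ : ℝ) (γ : ℕ → ℂ) (S : Finset ℕ)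
    (hB : Branch P c g τ₀ K δ) (hT : Tame P)
    (hγ : 2 ≤ P.natDegree → γ 1 = P.coeff (P.natDegree - 1) / (P.natDegree * P.leadingCoeff))
    (hS : ∀ l, l ∈ S ↔ l < P.natDegree ∧ ∀ r, 1 ≤ r → 2 * r < P.natDegree →
      γ r * (c * om P.natDegree ^ l) ^ r = γ r * c ^ r) :
    ∑ l ∈ S, Complex.exp (KK P.natDegree c γ l - ((KK P.natDegree c γ 0).re : ℂ)) ≠ 0 := by
  have hM : 1 ≤ P.natDegree := hB.ld.hM
  have h0S : 0 ∈ S := by
    rw [hS]
    refine ⟨by omega, fun r _ _ => ?_⟩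
    simp
  have hlc : P.leadingCoeff ≠ 0 := by
    rw [← hB.hc]
    exact pow_ne_zero _ hB.c0
  rcases hT with hodd | ⟨h3, ha⟩ | ⟨h2, hl⟩
  · have hK : ∀ l, KK P.natDegree c γ l = 0 := by
      intro l
      unfold KK
      rw [if_neg (Nat.not_even_iff_odd.mpr hodd)]
    have : ∑ l ∈ S, Complex.exp (KK P.natDegree c γ l - ((KK P.natDegree c γ 0).re : ℂ)) = (S.card : ℂ) := by
      simp [hK]
    rw [this]
    have : S.card ≠ 0 := Finset.card_ne_zero_of_mem h0S
    exact_mod_cast this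
  · have hγ1 : γ 1 ≠ 0 := by
      rw [hγ (by omega)]
      apply div_ne_zero ha
      apply mul_ne_zero _ hlc
      exact_mod_cast (by omega : P.natDegree ≠ 0)
    have hS' : S = {0} := by
      ext l
      rw [Finset.mem_singleton]
      constructor
      · intro hl
        rw [hS] at hl
        have h4 := hl.2 1 le_rfl (by omega)
        rw [pow_one, pow_one] at h4
        have h5 := mul_left_cancel₀ hγ1 h4
        have h6 : om P.natDegree ^ l = 1 := by
          apply mul_left_cancel₀ hB.c0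
          rw [h5, mul_one]
        have hprim : IsPrimitiveRoot (om P.natDegree) P.natDegree :=
          Complex.isPrimitiveRoot_exp P.natDegree (by omega)
        have h7 := hprim.dvd_of_pow_eq_one l h6
        exact Nat.eq_zero_of_dvd_of_lt h7 hl.1
      · rintro rfl
        exact h0S
    rw [hS', Finset.sum_singleton]
    exact Complex.exp_ne_zero _
  · have hS' : S = {0, 1} := by
      ext l
      rw [hS, h2]
      simp only [Finset.mem_insert, Finset.mem_singleton]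
      constructor
      · rintro ⟨h3, -⟩
        omega
      · intro h3
        refine ⟨by omega, fun r h4 h5 => by omega⟩
    have hom : om P.natDegree = -1 := by
      unfold om
      rw [h2]
      have : (2 * (Real.pi : ℂ) * Complex.I / ((2 : ℕ) : ℂ)) = Real.pi * Complex.I := by
        push_cast; ring
      rw [this, Complex.exp_pi_mul_I]
    have hK0 : KK P.natDegree c γ 0 = γ 1 * c * (Real.pi / 2) := by
      unfold KK
      rw [hom, h2]
      simp
    have hK1 : KK P.natDegree c γ 1 = -(γ 1 * c * (Real.pi / 2)) := by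
      unfold KK
      rw [hom, h2]
      simp
    rw [hS', Finset.sum_pair (by norm_num), hK0, hK1]
    set w := γ 1 * c * (Real.pi / 2) with hw
    intro hsum
    rw [Complex.exp_sub, Complex.exp_sub, ← add_div, div_eq_zero_iff] at hsum
    rcases hsum with hsum | hsum
    swap
    · exact Complex.exp_ne_zero _ hsum
    have h3 : Complex.exp (2 * w) = -1 := by
      have h4 : Complex.exp (-w) * Complex.exp w = 1 := by rw [← Complex.exp_add]; simp
      have h5 : Complex.exp (2 * w) = Complex.exp w * Complex.exp w := by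
        rw [← Complex.exp_add]; ring_nf
      rw [h5]
      linear_combination Complex.exp w * hsum - h4
    have h6 : Complex.exp (2 * w) = Complex.exp (Real.pi * Complex.I) := by
      rw [h3, Complex.exp_pi_mul_I]
    rw [Complex.exp_eq_exp_iff_exists_int] at h6
    obtain ⟨k, hk⟩ := h6
    apply hl k
    have hpi : (Real.pi : ℂ) ≠ 0 := by exact_mod_cast Real.pi_ne_zero
    have h7 : γ 1 * c = (2 * k + 1) * Complex.I := by
      have h8 : (Real.pi : ℂ) * (γ 1 * c) = Real.pi * ((2 * k + 1) * Complex.I) := by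
        rw [hw] at hk
        linear_combination hk
      exact mul_left_cancel₀ hpi h8
    have h9 : γ 1 = P.coeff 1 / (2 * P.leadingCoeff) := by
      rw [hγ (by omega), h2]
      norm_num
    have h10 : c ^ 2 = P.coeff 2 := by
      have := hB.hc
      rw [h2] at this
      rw [this, Polynomial.leadingCoeff, h2]
    have h11 : P.leadingCoeff = P.coeff 2 := by rw [Polynomial.leadingCoeff, h2]
    rw [h11] at hlc h9
    have h12 : (γ 1 * c) ^ 2 = -(2 * (k : ℂ) + 1) ^ 2 := by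
      rw [h7, mul_pow, Complex.I_sq]; ring
    rw [mul_pow, h10, h9, div_pow] at h12
    field_simp at h12
    have h13 : P.coeff 2 * (P.coeff 1 ^ 2) = P.coeff 2 * (-4 * (2 * (k : ℂ) + 1) ^ 2 * P.coeff 2) := by
      linear_combination P.coeff 2 * h12
    exact mul_left_cancel₀ hlc h13

theorem p_V6 (hV2 : S_V2) (hV3 : S_V3) (hU1 : S_U1) : S_V6 := by
  classical
  intro P c g τ₀ K δ hB hT
  obtain ⟨γ, B, hE, hγ⟩ := hV2 P c g τ₀ K δ hB
  have hM : 1 ≤ P.natDegree := hB.ld.hM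
  have hcore := p_V6_core hV3 P c g τ₀ K δ γ B hB hE
  set M := P.natDegree with hMdef
  set D := (Finset.range M).filter (p_V6_Dom M c γ) with hD
  set A : (ℝ →₀ ℝ) →₀ ℂ := ∑ l ∈ D, Finsupp.single (p_V6_phi M c γ B l)
    ((1 / (M : ℂ)) * Complex.exp (KK M c γ l - ((KK M c γ 0).re : ℂ))) with hA
  have htrig : ∀ n, trig A n = (1 / (M : ℂ)) * ∑ l ∈ D, p_V6_main M c γ B l n := by
    intro n
    unfold trig
    rw [hA, ← Finsupp.sum_finsetSum_index (fun a => by simp) (fun a b₁ b₂ => by ring), Finset.mul_sum]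
    refine Finset.sum_congr rfl fun l _ => ?_
    rw [Finsupp.sum_single_index (by simp), p_V6_gp_phi]
    unfold p_V6_main
    ring
  refine ⟨A, ?_, ?_, ?_⟩
  · intro h0
    have h1 : A (p_V6_phi M c γ B 0) = 0 := by rw [h0]; rfl
    rw [hA, Finsupp.finsetSum_apply] at h1
    have h2 : ∑ l ∈ D, (Finsupp.single (p_V6_phi M c γ B l)
        ((1 / (M : ℂ)) * Complex.exp (KK M c γ l - ((KK M c γ 0).re : ℂ)))) (p_V6_phi M c γ B 0) =
        (1 / (M : ℂ)) * ∑ l ∈ D.filter (fun l => p_V6_phi M c γ B l = p_V6_phi M c γ B 0),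
          Complex.exp (KK M c γ l - ((KK M c γ 0).re : ℂ)) := by
      rw [Finset.mul_sum]
      conv_rhs => rw [Finset.sum_filter]
      refine Finset.sum_congr rfl fun l _ => ?_
      rw [Finsupp.single_apply]
    rw [h2] at h1
    have hMne : (1 / (M : ℂ)) ≠ 0 := by
      apply one_div_ne_zero
      exact_mod_cast (by omega : M ≠ 0)
    rcases mul_eq_zero.mp h1 with h3 | h3
    · exact hMne h3
    · refine p_V6_sum P c g τ₀ K δ γ _ hB hT hγ ?_ h3
      intro l
      rw [Finset.mem_filter, hD, Finset.mem_filter, Finset.mem_range]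
      constructor
      · rintro ⟨⟨h4, h5⟩, h6⟩
        refine ⟨h4, fun r h7 h8 => ?_⟩
        have h9 := p_V6_phi_apply M c γ B l r h7 h8
        rw [h6, p_V6_phi_apply M c γ B 0 r h7 h8] at h9
        have h10 := mul_right_cancel₀ (hE.1 r h7 h8).ne' h9
        apply Complex.ext
        · exact h5 r h7 h8
        · rw [← h10]; simp
      · rintro ⟨h4, h5⟩
        refine ⟨⟨h4, fun r h7 h8 => by rw [h5 r h7 h8]⟩, ?_⟩
        unfold p_V6_phi
        refine Finset.sum_congr rfl fun r hr => ?_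
        rw [Finset.mem_filter, Finset.mem_Ico] at hr
        rw [h5 r hr.1.1 hr.2]
        simp
  · intro φ hφ a ha
    rw [hA] at hφ
    have h1 := Finsupp.support_finsetSum hφ
    rw [Finset.mem_biUnion] at h1
    obtain ⟨l, -, h2⟩ := h1
    have h3 := Finsupp.support_single_subset h2
    rw [Finset.mem_singleton] at h3
    rw [h3] at ha
    exact p_V6_phi_supp M c γ B l a ha
  · intro ε hε
    have h1 := (Metric.tendsto_nhds.mp hcore) ε hε
    filter_upwards [h1] with n hn hdiv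
    rw [dist_zero_right] at hn
    rw [htrig]
    have h2 : ∀ l ∈ D, (om M ^ l) ^ n * p_V6_main M c γ B l n = p_V6_main M c γ B l n := by
      intro l _
      obtain ⟨k, rfl⟩ := hdiv
      have : (om M ^ l) ^ (M * k) = 1 := by
        rw [← pow_mul, mul_comm l, mul_assoc, pow_mul, p_V6_om_pow M hM, one_pow]
      rw [this, one_mul]
    rw [Finset.sum_congr rfl h2] at hn
    exact hn.le

end HillRoots
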