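import Pool.Agent.Lib.MP_e63cf8_mp.StmD

/-!
# MP_e63cf8_mp, piece X2: lemma on `M`-th roots
-/

open Filter Topology

namespace HillRoots

private theorem p_X2_prim {M : ℕ} (hM : 1 ≤ M) : IsPrimitiveRoot (om M) M := by
  unfold om
  exact Complex.isPrimitiveRoot_exp M (by omega)

theorem p_X2 : S_X2 := by
  intro M ξ hM hξ hmax l hl0 hlM
  have hprim := p_X2_prim hM
  have hξ0 : ξ ≠ 0 := by
    rintro rfl
    rw [zero_pow (by omega)] at hξ
    exact Complex.zero_notMem_slitPlane hξ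
  rcases lt_or_eq_of_le (hmax l hlM) with h | h
  · exact h
  exfalso
  have hn : ‖ξ * om M ^ l‖ = ‖ξ‖ := by
    rw [norm_mul, norm_pow, hprim.norm'_eq_one (by omega), one_pow, mul_one]
  have hsq : (ξ * om M ^ l).im ^ 2 = ξ.im ^ 2 := by
    have h1 := Complex.sq_norm (ξ * om M ^ l)
    have h2 := Complex.sq_norm ξ
    rw [hn, h2, Complex.normSq_apply, Complex.normSq_apply, h] at h1
    nlinarith [h1]
  have hne : ξ * om M ^ l ≠ ξ := by
    intro h1
    have h2 : om M ^ l = 1 := by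
      apply mul_left_cancel₀ hξ0
      rw [h1, mul_one]
    exact hprim.pow_ne_one_of_pos_of_lt (by omega) hlM h2
  have him : (ξ * om M ^ l).im = -ξ.im := by
    rcases sq_eq_sq_iff_eq_or_eq_neg.1 hsq with h1 | h1
    · exact absurd (Complex.ext h h1) hne
    · exact h1
  have hconj : ξ * om M ^ l = (starRingEnd ℂ) ξ := Complex.ext (by simpa using h) (by simpa using him)
  have hM1 : (starRingEnd ℂ) (ξ ^ M) = ξ ^ M := by
    rw [map_pow, ← hconj, mul_pow, ← pow_mul, mul_comm l M, pow_mul, hprim.pow_eq_one, one_pow,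
      mul_one]
  have him0 : (ξ ^ M).im = 0 := Complex.conj_eq_iff_im.1 hM1
  have hre0 : 0 < (ξ ^ M).re := by
    rcases Complex.mem_slitPlane_iff.1 hξ with h1 | h1
    · exact h1
    · exact absurd him0 h1
  have hnM : ((‖ξ‖ : ℝ) : ℂ) ^ M = ξ ^ M := by
    have h1 : ξ ^ M = ((ξ ^ M).re : ℂ) := Complex.ext (by simp) (by simpa using him0)
    have h2 : ‖ξ ^ M‖ = (ξ ^ M).re := by
      rw [h1, Complex.norm_real, Real.norm_eq_abs, abs_of_pos (by simpa using hre0)]
      simp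
    rw [norm_pow] at h2
    rw [← Complex.ofReal_pow, h2, ← h1]
  have h1 : (((‖ξ‖ : ℝ) : ℂ) / ξ) ^ M = 1 := by
    rw [div_pow, hnM, div_self (pow_ne_zero _ hξ0)]
  have : NeZero M := ⟨by omega⟩
  obtain ⟨j, hj, hj'⟩ := hprim.eq_pow_of_pow_eq_one h1
  have h2 : ξ * om M ^ j = ((‖ξ‖ : ℝ) : ℂ) := by
    rw [hj']
    field_simp
  have h3 := hmax j hj
  rw [h2, Complex.ofReal_re] at h3
  have h4 : ξ.im = 0 := by
    have h5 := Complex.sq_norm ξ
    rw [Complex.normSq_apply] at h5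
    have h6 : ‖ξ‖ ^ 2 ≤ ξ.re ^ 2 := by
      have := norm_nonneg ξ
      nlinarith
    have : ξ.im * ξ.im ≤ 0 := by nlinarith
    nlinarith [mul_self_nonneg ξ.im, mul_self_eq_zero.1 (le_antisymm this (mul_self_nonneg ξ.im))]
  have h5 : (starRingEnd ℂ) ξ = ξ := Complex.conj_eq_iff_im.2 h4
  exact hne (hconj.trans h5)

end HillRoots
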