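import Pool.Agent.Lib.MP_e63cf8_mp.StmD

/-!
# MP_e63cf8_mp, piece X6: the sum of `E_k^{-1/2}`
-/

open Filter Topology

namespace HillRoots

/-- the antiderivative of `1/√(4x(n-x))` -/
private noncomputable def p_X6_G (n x : ℝ) : ℝ := (1 / 2) * Real.arcsin (2 * x / n - 1)

private noncomputable def p_X6_f (n x : ℝ) : ℝ := 1 / √(4 * x * (n - x))

private theorem p_X6_cont (n : ℝ) : Continuous (p_X6_G n) := by
  unfold p_X6_G
  exact continuous_const.mul (Real.continuous_arcsin.comp (by fun_prop))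

private theorem p_X6_deriv {n x : ℝ} (hx : 0 < x) (hxn : x < n) :
    HasDerivAt (p_X6_G n) (p_X6_f n x) x := by
  have hn : 0 < n := hx.trans hxn
  have h1 : 2 * x / n - 1 ≠ -1 := by
    have : 0 < 2 * x / n := by positivity
    linarith
  have h2 : 2 * x / n - 1 ≠ 1 := by
    have : 2 * x / n < 2 := by
      rw [div_lt_iff₀ hn]; linarith
    linarith
  have h3 : HasDerivAt (fun y : ℝ => 2 * y / n - 1) (2 / n) x := by
    have := ((hasDerivAt_id x).const_mul 2).div_const n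
    simpa using this.sub_const 1
  have h4 := ((Real.hasDerivAt_arcsin h1 h2).comp x h3).const_mul (1 / 2)
  have h5 : (1 : ℝ) / 2 * (1 / √(1 - (2 * x / n - 1) ^ 2) * (2 / n)) = p_X6_f n x := by
    have h6 : 1 - (2 * x / n - 1) ^ 2 = 4 * x * (n - x) / n ^ 2 := by
      field_simp
      ring
    have h7 : √(1 - (2 * x / n - 1) ^ 2) = √(4 * x * (n - x)) / n := by
      rw [h6, Real.sqrt_div' _ (by positivity), Real.sqrt_sq hn.le]
    have h8 : 0 < √(4 * x * (n - x)) := Real.sqrt_pos.2 (by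
      have : 0 < n - x := by linarith
      positivity)
    rw [h7]
    unfold p_X6_f
    field_simp
  rw [h5] at h4
  exact h4

private theorem p_X6_mvt {n x y : ℝ} (hx : 0 ≤ x) (hxy : x < y) (hy : y ≤ n) :
    ∃ ξ ∈ Set.Ioo x y, p_X6_G n y - p_X6_G n x = p_X6_f n ξ * (y - x) := by
  obtain ⟨ξ, hξ, h⟩ := exists_hasDerivAt_eq_slope (p_X6_G n) (p_X6_f n) hxy
    (p_X6_cont n).continuousOn
    (fun z hz => p_X6_deriv (lt_of_le_of_lt hx hz.1) (lt_of_lt_of_le hz.2 hy))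
  refine ⟨ξ, hξ, ?_⟩
  rw [h]
  field_simp [(sub_pos.2 hxy).ne']

private theorem p_X6_f_le {n x y : ℝ} (hx : 0 < x) (hxn : x < n)
    (h : 4 * x * (n - x) ≤ 4 * y * (n - y)) : p_X6_f n y ≤ p_X6_f n x := by
  unfold p_X6_f
  have h0 : 0 < 4 * x * (n - x) := by
    have : 0 < n - x := by linarith
    positivity
  exact one_div_le_one_div_of_le (Real.sqrt_pos.2 h0) (Real.sqrt_le_sqrt h)

private theorem p_X6_up1 {n k : ℝ} (hk : 0 ≤ k) (hk2 : 2 * (k + 1) ≤ n) :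
    p_X6_f n (k + 1) ≤ p_X6_G n (k + 1) - p_X6_G n k := by
  obtain ⟨ξ, hξ, h⟩ := p_X6_mvt hk (lt_add_one k) (show k + 1 ≤ n by linarith)
  rw [h]
  have := p_X6_f_le (n := n) (x := ξ) (y := k + 1) (lt_of_le_of_lt hk hξ.1) (by linarith [hξ.2])
    (by nlinarith [hξ.1, hξ.2])
  linarith

private theorem p_X6_up2 {n k : ℝ} (hk : 0 ≤ k) (hk2 : n ≤ 2 * k) (hkn : k + 1 ≤ n) :
    p_X6_f n k ≤ p_X6_G n (k + 1) - p_X6_G n k := by
  obtain ⟨ξ, hξ, h⟩ := p_X6_mvt hk (lt_add_one k) hkn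
  rw [h]
  have := p_X6_f_le (n := n) (x := ξ) (y := k) (lt_of_le_of_lt hk hξ.1) (by linarith [hξ.2])
    (by nlinarith [hξ.1, hξ.2])
  linarith

private theorem p_X6_lo1 {n k : ℝ} (hk : 0 < k) (hk2 : 2 * (k + 1) ≤ n) :
    p_X6_G n (k + 1) - p_X6_G n k ≤ p_X6_f n k := by
  obtain ⟨ξ, hξ, h⟩ := p_X6_mvt hk.le (lt_add_one k) (show k + 1 ≤ n by linarith)
  rw [h]
  have := p_X6_f_le (n := n) (x := k) (y := ξ) hk (by linarith [hξ.2])
    (by nlinarith [hξ.1, hξ.2])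
  linarith

private theorem p_X6_lo2 {n k : ℝ} (hk : 0 ≤ k) (hk2 : n ≤ 2 * k) (hkn : k + 1 < n) :
    p_X6_G n (k + 1) - p_X6_G n k ≤ p_X6_f n (k + 1) := by
  obtain ⟨ξ, hξ, h⟩ := p_X6_mvt hk (lt_add_one k) hkn.le
  rw [h]
  have := p_X6_f_le (n := n) (x := k + 1) (y := ξ) (by linarith) hkn
    (by nlinarith [hξ.1, hξ.2])
  linarith

private theorem p_X6_eq (n k : ℕ) (hk : k ≤ n) : (En n k) ^ (-(1 / 2) : ℝ) = p_X6_f n k := by
  unfold p_X6_f En
  have h : 0 ≤ 4 * (((k : ℕ) : ℤ) : ℝ) * ((n : ℝ) - ((k : ℕ) : ℤ)) := by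
    have h1 : (k : ℝ) ≤ n := by exact_mod_cast hk
    have h2 : 0 ≤ (n : ℝ) - ((k : ℕ) : ℤ) := by
      push_cast
      linarith
    have h3 : (0 : ℝ) ≤ (((k : ℕ) : ℤ) : ℝ) := by
      push_cast
      positivity
    positivity
  rw [Real.rpow_neg h, Real.sqrt_eq_rpow, one_div]
  push_cast
  simp

private theorem p_X6_mono (n : ℝ) (hn : 0 < n) : Monotone (p_X6_G n) := by
  intro x y hxy
  unfold p_X6_G
  have : 2 * x / n - 1 ≤ 2 * y / n - 1 := by
    have : 2 * x / n ≤ 2 * y / n := by gcongr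
    linarith
  have := Real.monotone_arcsin this
  linarith

private theorem p_X6_nonneg (n x : ℝ) : 0 ≤ p_X6_f n x := by
  unfold p_X6_f
  positivity

private theorem p_X6_upper (n : ℕ) (hn : 6 ≤ n) :
    ∑ k ∈ Finset.Ico 1 (n - 1), p_X6_f n k ≤ Real.pi / 2 := by
  obtain ⟨m, hm⟩ : ∃ m, m = n / 2 := ⟨_, rfl⟩
  have hm1 : 2 * m ≤ n := by omega
  have hm2 : n ≤ 2 * m + 1 := by omega
  have hm1' : 2 * (m : ℝ) ≤ n := by exact_mod_cast hm1
  have hm2' : (n : ℝ) ≤ 2 * m + 1 := by exact_mod_cast hm2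
  rw [← Finset.sum_Ico_consecutive _ (show 1 ≤ m + 1 by omega) (show m + 1 ≤ n - 1 by omega)]
  have h1 : ∑ k ∈ Finset.Ico 1 (m + 1), p_X6_f n k ≤ p_X6_G n m - p_X6_G n 0 := by
    rw [Finset.sum_Ico_eq_sum_range]
    have h2 := Finset.sum_range_sub (fun i : ℕ => p_X6_G n i) m
    simp only [Nat.cast_zero] at h2
    rw [← h2, Nat.add_sub_cancel]
    refine Finset.sum_le_sum (fun i hi => ?_)
    have hi' : i + 1 ≤ m := Finset.mem_range.1 hi
    have hi2 : (i : ℝ) + 1 ≤ m := by exact_mod_cast hi'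
    have := p_X6_up1 (n := n) (k := i) (by positivity) (by linarith)
    push_cast
    rw [add_comm (1 : ℝ)]
    exact this
  have h2 : ∑ k ∈ Finset.Ico (m + 1) (n - 1), p_X6_f n k ≤
      p_X6_G n ((n - 1 : ℕ) : ℝ) - p_X6_G n ((m + 1 : ℕ) : ℝ) := by
    rw [← Finset.sum_Ico_sub (fun i : ℕ => p_X6_G n i) (show m + 1 ≤ n - 1 by omega)]
    refine Finset.sum_le_sum (fun i hi => ?_)
    obtain ⟨hi1, hi2⟩ := Finset.mem_Ico.1 hi
    have hi1' : (m : ℝ) + 1 ≤ i := by exact_mod_cast hi1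
    have hi2' : (i : ℝ) + 1 ≤ n := by
      have : i + 1 ≤ n := by omega
      exact_mod_cast this
    have := p_X6_up2 (n := n) (k := i) (by positivity) (by linarith) hi2'
    push_cast
    exact this
  have hn0 : (0 : ℝ) < n := by
    have : 0 < n := by omega
    exact_mod_cast this
  have h3 : p_X6_G n ((n - 1 : ℕ) : ℝ) ≤ p_X6_G n n :=
    p_X6_mono n hn0 (by exact_mod_cast (Nat.sub_le n 1))
  have h4 : p_X6_G n m ≤ p_X6_G n ((m + 1 : ℕ) : ℝ) :=
    p_X6_mono n hn0 (by exact_mod_cast (Nat.le_succ m))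
  have h5 : p_X6_G n n = Real.pi / 4 := by
    unfold p_X6_G
    rw [mul_div_assoc, div_self hn0.ne']
    norm_num [Real.arcsin_one]
    ring
  have h6 : p_X6_G n 0 = -(Real.pi / 4) := by
    unfold p_X6_G
    norm_num [Real.arcsin_neg_one]
    ring
  linarith

private theorem p_X6_lower (n : ℕ) (hn : 6 ≤ n) :
    p_X6_G n ((n / 2 : ℕ) : ℝ) - p_X6_G n 1 + (p_X6_G n ((n - 2 : ℕ) : ℝ) -
      p_X6_G n ((n / 2 : ℕ) + 1 : ℝ)) ≤ ∑ k ∈ Finset.Ico 1 (n - 1), p_X6_f n k := by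
  obtain ⟨m, hm⟩ : ∃ m, m = n / 2 := ⟨_, rfl⟩
  have hm1 : 2 * m ≤ n := by omega
  have hm2 : n ≤ 2 * m + 1 := by omega
  have hm1' : 2 * (m : ℝ) ≤ n := by exact_mod_cast hm1
  have hm2' : (n : ℝ) ≤ 2 * m + 1 := by exact_mod_cast hm2
  rw [← hm, ← Finset.sum_Ico_consecutive _ (show 1 ≤ m + 2 by omega) (show m + 2 ≤ n - 1 by omega)]
  have h1 : p_X6_G n m - p_X6_G n 1 ≤ ∑ k ∈ Finset.Ico 1 (m + 2), p_X6_f n k := by
    have h0 : ∑ k ∈ Finset.Ico 1 m, p_X6_f n k ≤ ∑ k ∈ Finset.Ico 1 (m + 2), p_X6_f n k :=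
      Finset.sum_le_sum_of_subset_of_nonneg
        (Finset.Ico_subset_Ico_right (by omega)) (fun _ _ _ => p_X6_nonneg _ _)
    refine le_trans ?_ h0
    have h2 := Finset.sum_Ico_sub (fun i : ℕ => p_X6_G n i) (show 1 ≤ m by omega)
    simp only [Nat.cast_one] at h2
    rw [← h2]
    refine Finset.sum_le_sum (fun i hi => ?_)
    obtain ⟨hi1, hi2⟩ := Finset.mem_Ico.1 hi
    have hi1' : (1 : ℝ) ≤ i := by exact_mod_cast hi1
    have hi2' : (i : ℝ) + 1 ≤ m := by exact_mod_cast hi2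
    have := p_X6_lo1 (n := n) (k := i) (by linarith) (by linarith)
    push_cast
    exact this
  have h2 : p_X6_G n ((n - 2 : ℕ) : ℝ) - p_X6_G n ((m : ℝ) + 1) ≤
      ∑ k ∈ Finset.Ico (m + 2) (n - 1), p_X6_f n k := by
    have h3 := Finset.sum_Ico_sub (fun i : ℕ => p_X6_G n i) (show m + 1 ≤ n - 2 by omega)
    have h4 : p_X6_G n ((m : ℝ) + 1) = p_X6_G n ((m + 1 : ℕ) : ℝ) := by push_cast; rfl
    rw [h4, ← h3, Finset.sum_Ico_eq_sum_range, Finset.sum_Ico_eq_sum_range,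
      show n - 2 - (m + 1) = n - 1 - (m + 2) by omega]
    refine Finset.sum_le_sum (fun i hi => ?_)
    have hi' := Finset.mem_range.1 hi
    have hi2 : (m : ℝ) + 2 + i < n := by
      have : m + 2 + i < n := by omega
      exact_mod_cast this
    have := p_X6_lo2 (n := n) (k := (m : ℝ) + 1 + i) (by positivity) (by
      have : (0 : ℝ) ≤ i := by positivity
      linarith) (by linarith)
    push_cast
    rw [show (m : ℝ) + 2 + i = m + 1 + i + 1 by ring]
    exact this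
  linarith

theorem p_X6 : S_X6 := by
  unfold S_X6
  have hc : ∀ a : ℕ → ℝ, ∀ b : ℝ, Tendsto a atTop (𝓝 b) →
      Tendsto (fun n : ℕ => (1 / 2) * Real.arcsin (a n)) atTop (𝓝 ((1 / 2) * Real.arcsin b)) :=
    fun a b h => ((Real.continuous_arcsin.tendsto b).comp h).const_mul _
  have hi : Tendsto (fun n : ℕ => 1 / (n : ℝ)) atTop (𝓝 0) := tendsto_one_div_atTop_nhds_zero_nat
  have hl1 : Tendsto (fun n : ℕ => 2 * ((n / 2 : ℕ) : ℝ) / n - 1) atTop (𝓝 0) := by
    refine tendsto_of_tendsto_of_tendsto_of_le_of_le' (g := fun n : ℕ => -(1 / (n : ℝ)))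
      (h := fun _ => 0) (by simpa using hi.neg) tendsto_const_nhds ?_ ?_
    · filter_upwards [eventually_ge_atTop 1] with n hn
      have hn0 : (0 : ℝ) < n := by exact_mod_cast hn
      have : (n : ℝ) ≤ 2 * ((n / 2 : ℕ) : ℝ) + 1 := by
        have : n ≤ 2 * (n / 2) + 1 := by omega
        exact_mod_cast this
      rw [neg_le_sub_iff_le_add, ← add_div, le_div_iff₀ hn0]
      linarith
    · filter_upwards [eventually_ge_atTop 1] with n hn
      have hn0 : (0 : ℝ) < n := by exact_mod_cast hn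
      have : 2 * ((n / 2 : ℕ) : ℝ) ≤ n := by
        have : 2 * (n / 2) ≤ n := by omega
        exact_mod_cast this
      rw [sub_nonpos, div_le_one hn0]
      exact this
  have hl2 : Tendsto (fun n : ℕ => 2 * (((n / 2 : ℕ) : ℝ) + 1) / n - 1) atTop (𝓝 0) := by
    have := hl1.add (hi.const_mul 2)
    simp only [mul_zero, add_zero] at this
    refine this.congr (fun n => ?_)
    ring
  have hl3 : Tendsto (fun n : ℕ => 2 * (1 : ℝ) / n - 1) atTop (𝓝 (-1)) := by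
    have := (hi.const_mul 2).sub_const 1
    simp only [mul_zero, zero_sub] at this
    refine this.congr (fun n => ?_)
    ring
  have hl4 : Tendsto (fun n : ℕ => 2 * ((n - 2 : ℕ) : ℝ) / n - 1) atTop (𝓝 1) := by
    have := (hi.const_mul (-4)).add_const 1
    simp only [mul_zero, zero_add] at this
    refine this.congr' ?_
    filter_upwards [eventually_ge_atTop 2] with n hn
    have hn0 : (n : ℝ) ≠ 0 := by
      have : n ≠ 0 := by omega
      exact_mod_cast this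
    rw [Nat.cast_sub hn]
    field_simp
    push_cast
    ring
  have hlow : Tendsto (fun n : ℕ => p_X6_G n ((n / 2 : ℕ) : ℝ) - p_X6_G n 1 +
      (p_X6_G n ((n - 2 : ℕ) : ℝ) - p_X6_G n ((n / 2 : ℕ) + 1 : ℝ))) atTop (𝓝 (Real.pi / 2)) := by
    have := ((hc _ _ hl1).sub (hc _ _ hl3)).add ((hc _ _ hl4).sub (hc _ _ hl2))
    simp only [Real.arcsin_zero, Real.arcsin_neg_one, Real.arcsin_one, mul_zero] at this
    have e : (0 : ℝ) - 1 / 2 * (-(Real.pi / 2)) + (1 / 2 * (Real.pi / 2) - 0) = Real.pi / 2 := by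
      ring
    rw [e] at this
    exact this.congr (fun n => rfl)
  have hsum : ∀ n : ℕ, 6 ≤ n → ∑ k ∈ Finset.Icc 1 (n - 2), (En n k) ^ (-(1 / 2) : ℝ) =
      ∑ k ∈ Finset.Ico 1 (n - 1), p_X6_f n k := by
    intro n hn
    have h1 : Finset.Icc 1 (n - 2) = Finset.Ico 1 (n - 1) := by
      ext k
      simp only [Finset.mem_Icc, Finset.mem_Ico]
      omega
    rw [h1]
    refine Finset.sum_congr rfl (fun k hk => ?_)
    exact p_X6_eq n k (by have := (Finset.mem_Ico.1 hk).2; omega)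
  refine tendsto_of_tendsto_of_tendsto_of_le_of_le' hlow tendsto_const_nhds ?_ ?_
  · filter_upwards [eventually_ge_atTop 6] with n hn
    exact (p_X6_lower n hn).trans (le_of_eq (hsum n hn).symm)
  · filter_upwards [eventually_ge_atTop 6] with n hn
    exact le_trans (le_of_eq (hsum n hn)) (p_X6_upper n hn)

end HillRoots
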