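import Pool.Agent.Lib.MP_e63cf8_mp.StmD

/-!
# MP_e63cf8_mp: piece X7 (degree two)
-/

open Polynomial Filter Topology MeasureTheory Asymptotics

namespace HillRoots

/-- a square root of `1 + x²` -/
private noncomputable def p_X7_r (x : ℂ) : ℂ := Complex.exp (Complex.log (1 + x ^ 2) / 2)

private theorem p_X7_re (x : ℂ) (hx : ‖x‖ ≤ 1 / 2) : 0 < (1 + x ^ 2).re := by
  have h1 : |(x ^ 2).re| ≤ ‖x ^ 2‖ := Complex.abs_re_le_norm _
  rw [norm_pow] at h1
  have h2 : ‖x‖ ^ 2 ≤ 1 / 4 := by nlinarith [norm_nonneg x]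
  have h3 := neg_abs_le (x ^ 2).re
  rw [Complex.add_re, Complex.one_re]
  linarith

private theorem p_X7_slit (x : ℂ) (hx : ‖x‖ ≤ 1 / 2) : 1 + x ^ 2 ∈ Complex.slitPlane :=
  Or.inl (p_X7_re x hx)

private theorem p_X7_ne (x : ℂ) (hx : ‖x‖ ≤ 1 / 2) : 1 + x ^ 2 ≠ 0 :=
  Complex.slitPlane_ne_zero (p_X7_slit x hx)

private theorem p_X7_sq (x : ℂ) (hx : ‖x‖ ≤ 1 / 2) : p_X7_r x ^ 2 = 1 + x ^ 2 := by
  unfold p_X7_r
  rw [← Complex.exp_nat_mul]
  rw [show ((2 : ℕ) : ℂ) * (Complex.log (1 + x ^ 2) / 2) = Complex.log (1 + x ^ 2) by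
    push_cast; ring]
  exact Complex.exp_log (p_X7_ne x hx)

private theorem p_X7_r_ne (x : ℂ) : p_X7_r x ≠ 0 := Complex.exp_ne_zero _

private theorem p_X7_r_re (x : ℂ) : 0 ≤ (p_X7_r x).re := by
  unfold p_X7_r
  rw [Complex.exp_re]
  refine mul_nonneg (Real.exp_pos _).le ?_
  have h : (Complex.log (1 + x ^ 2) / 2).im = (1 + x ^ 2).arg / 2 := by
    rw [Complex.div_ofNat_im, Complex.log_im]
  rw [h]
  refine Real.cos_nonneg_of_mem_Icc ⟨?_, ?_⟩
  · have := Complex.neg_pi_lt_arg (1 + x ^ 2)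
    linarith
  · have := Complex.arg_le_pi (1 + x ^ 2)
    linarith

private theorem p_X7_r_one (x : ℂ) (hx : ‖x‖ ≤ 1 / 2) : ‖p_X7_r x - 1‖ ≤ ‖x‖ ^ 2 := by
  have h1 : (p_X7_r x - 1) * (p_X7_r x + 1) = x ^ 2 := by
    have := p_X7_sq x hx
    linear_combination this
  have h2 : 1 ≤ ‖p_X7_r x + 1‖ := by
    have h3 : |(p_X7_r x + 1).re| ≤ ‖p_X7_r x + 1‖ := Complex.abs_re_le_norm _
    have h4 := le_abs_self (p_X7_r x + 1).re
    have h5 := p_X7_r_re x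
    rw [Complex.add_re, Complex.one_re] at h4
    rw [Complex.add_re, Complex.one_re] at h3
    linarith
  have h6 : ‖p_X7_r x - 1‖ * ‖p_X7_r x + 1‖ = ‖x‖ ^ 2 := by
    rw [← norm_mul, h1, norm_pow]
  calc ‖p_X7_r x - 1‖ = ‖p_X7_r x - 1‖ * 1 := (mul_one _).symm
    _ ≤ ‖p_X7_r x - 1‖ * ‖p_X7_r x + 1‖ := mul_le_mul_of_nonneg_left h2 (norm_nonneg _)
    _ = ‖x‖ ^ 2 := h6

/-- `x + r = e^x (1 + O(x²))` -/
private theorem p_X7_near (x : ℂ) (hx : ‖x‖ ≤ 1 / 2) :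
    ‖(x + p_X7_r x) * Complex.exp (-x) - 1‖ ≤ 6 * ‖x‖ ^ 2 := by
  have h1 := p_X7_r_one x hx
  have h2 : ‖Complex.exp x - 1 - x‖ ≤ ‖x‖ ^ 2 :=
    Complex.norm_exp_sub_one_sub_id_le (by linarith)
  have h3 : (x + p_X7_r x) * Complex.exp (-x) - 1 =
      ((p_X7_r x - 1) - (Complex.exp x - 1 - x)) * Complex.exp (-x) := by
    have : Complex.exp x * Complex.exp (-x) = 1 := by
      rw [← Complex.exp_add]
      simp
    linear_combination this
  rw [h3, norm_mul]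
  have h4 : ‖Complex.exp (-x)‖ ≤ 3 := by
    rw [Complex.norm_exp]
    have h5 : (-x).re ≤ 1 := by
      have := (Complex.abs_re_le_norm (-x))
      rw [norm_neg] at this
      have h6 := le_abs_self (-x).re
      linarith
    calc Real.exp (-x).re ≤ Real.exp 1 := Real.exp_le_exp.mpr h5
      _ ≤ 3 := by
        have := Real.exp_one_lt_d9
        linarith
  have h7 : ‖(p_X7_r x - 1) - (Complex.exp x - 1 - x)‖ ≤ 2 * ‖x‖ ^ 2 := by
    refine (norm_sub_le _ _).trans ?_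
    linarith
  calc ‖(p_X7_r x - 1) - (Complex.exp x - 1 - x)‖ * ‖Complex.exp (-x)‖
      ≤ (2 * ‖x‖ ^ 2) * 3 := mul_le_mul h7 h4 (norm_nonneg _) (by positivity)
    _ = 6 * ‖x‖ ^ 2 := by ring

private theorem p_X7_mul (x : ℂ) (hx : ‖x‖ ≤ 1 / 2) : (x + p_X7_r x) * (p_X7_r x - x) = 1 := by
  have := p_X7_sq x hx
  linear_combination this

/-- the variable `x = b / (2 c √E)` -/
private noncomputable def p_X7_x (b c : ℂ) (E : ℝ) : ℂ := b / (2 * c * ((√E : ℝ) : ℂ))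

private theorem p_X7_x_norm (b c : ℂ) (E : ℝ) (hc : c ≠ 0) (hE : 0 < E)
    (h : (‖b‖ / ‖c‖) ^ 2 ≤ E) : ‖p_X7_x b c E‖ ≤ 1 / 2 := by
  unfold p_X7_x
  have hc' : 0 < ‖c‖ := norm_pos_iff.mpr hc
  have hs : 0 < √E := Real.sqrt_pos.mpr hE
  rw [norm_div, norm_mul, norm_mul, Complex.norm_real, Real.norm_of_nonneg hs.le,
    Complex.norm_ofNat]
  have h1 : ‖b‖ / ‖c‖ ≤ √E := Real.le_sqrt_of_sq_le h
  rw [div_le_iff₀ hc'] at h1
  rw [div_le_iff₀ (by positivity)]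
  linarith

private theorem p_X7_x_normsq (b c : ℂ) (E : ℝ) (hc : c ≠ 0) (hE : 0 < E) :
    ‖p_X7_x b c E‖ ^ 2 = (‖b‖ / (2 * ‖c‖)) ^ 2 * (E ^ (-(1 / 2) : ℝ) * E ^ (-(1 / 2) : ℝ)) := by
  unfold p_X7_x
  have hc' : 0 < ‖c‖ := norm_pos_iff.mpr hc
  have hs : 0 < √E := Real.sqrt_pos.mpr hE
  rw [norm_div, norm_mul, norm_mul, Complex.norm_real, Real.norm_of_nonneg hs.le,
    Complex.norm_ofNat]
  rw [Real.rpow_neg hE.le, ← Real.sqrt_eq_rpow]
  field_simp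

private theorem p_X7_x_eq (b c : ℂ) (E : ℝ) (hE : 0 < E) :
    p_X7_x b c E = b / (2 * c) * ((E ^ (-(1 / 2) : ℝ) : ℝ) : ℂ) := by
  unfold p_X7_x
  rw [Real.rpow_neg hE.le, ← Real.sqrt_eq_rpow]
  push_cast
  rw [div_mul_eq_div_div, div_eq_mul_inv]

/-- the two branches -/
private noncomputable def p_X7_w (b c : ℂ) (i : ℕ) (E : ℝ) : ℂ :=
  if i = 0 then (c / ((√E : ℝ) : ℂ) * (p_X7_x b c E + p_X7_r (p_X7_x b c E)))⁻¹
  else (c / ((√E : ℝ) : ℂ) * (p_X7_x b c E - p_X7_r (p_X7_x b c E)))⁻¹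

private theorem p_X7_cont (b c : ℂ) (i : ℕ) (E₀ : ℝ) (hc : c ≠ 0) (hE₀ : 0 < E₀)
    (h : (‖b‖ / ‖c‖) ^ 2 ≤ E₀) : ContinuousOn (p_X7_w b c i) (Set.Ici E₀) := by
  have hs : ContinuousOn (fun E : ℝ => ((√E : ℝ) : ℂ)) (Set.Ici E₀) :=
    (Complex.continuous_ofReal.comp Real.continuous_sqrt).continuousOn
  have hsne : ∀ E ∈ Set.Ici E₀, ((√E : ℝ) : ℂ) ≠ 0 := by
    intro E hE
    have : 0 < √E := Real.sqrt_pos.mpr (lt_of_lt_of_le hE₀ hE)
    exact_mod_cast this.ne'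
  have hx : ContinuousOn (fun E : ℝ => p_X7_x b c E) (Set.Ici E₀) := by
    unfold p_X7_x
    refine continuousOn_const.div (continuousOn_const.mul hs) ?_
    intro E hE
    exact mul_ne_zero (mul_ne_zero two_ne_zero hc) (hsne E hE)
  have hxb : ∀ E ∈ Set.Ici E₀, ‖p_X7_x b c E‖ ≤ 1 / 2 := fun E hE =>
    p_X7_x_norm b c E hc (lt_of_lt_of_le hE₀ hE) (h.trans hE)
  have hr : ContinuousOn (fun E : ℝ => p_X7_r (p_X7_x b c E)) (Set.Ici E₀) := by
    unfold p_X7_r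
    refine Complex.continuous_exp.comp_continuousOn ?_
    refine ContinuousOn.div_const ?_ _
    refine ContinuousOn.clog (continuousOn_const.add (hx.pow 2)) ?_
    intro E hE
    exact p_X7_slit _ (hxb E hE)
  have hcs : ContinuousOn (fun E : ℝ => c / ((√E : ℝ) : ℂ)) (Set.Ici E₀) :=
    continuousOn_const.div hs hsne
  unfold p_X7_w
  by_cases hi : i = 0
  · simp only [hi, if_true]
    refine ContinuousOn.inv₀ (hcs.mul (hx.add hr)) ?_
    intro E hE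
    refine mul_ne_zero (div_ne_zero hc (hsne E hE)) ?_
    intro h0
    have := p_X7_mul _ (hxb E hE)
    rw [h0, zero_mul] at this
    exact zero_ne_one this
  · simp only [hi, if_false]
    refine ContinuousOn.inv₀ (hcs.mul (hx.sub hr)) ?_
    intro E hE
    refine mul_ne_zero (div_ne_zero hc (hsne E hE)) ?_
    intro h0
    have := p_X7_mul _ (hxb E hE)
    rw [show p_X7_r (p_X7_x b c E) - p_X7_x b c E = 0 by linear_combination -h0,
      mul_zero] at this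
    exact zero_ne_one this

private theorem p_X7_root (a b c : ℂ) (i : ℕ) (E : ℝ) (hc : c ≠ 0) (ha : c ^ 2 = a) (hE : 0 < E)
    (h : (‖b‖ / ‖c‖) ^ 2 ≤ E) :
    a * p_X7_w b c i E ^ 2 + b * p_X7_w b c i E = (E : ℂ) := by
  have hxb := p_X7_x_norm b c E hc hE h
  have hs : 0 < √E := Real.sqrt_pos.mpr hE
  have hsne : ((√E : ℝ) : ℂ) ≠ 0 := by exact_mod_cast hs.ne'
  have hss : ((√E : ℝ) : ℂ) ^ 2 = (E : ℂ) := by
    rw [← Complex.ofReal_pow, Real.sq_sqrt hE.le]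
  have hx : 2 * c * ((√E : ℝ) : ℂ) * p_X7_x b c E = b := by
    unfold p_X7_x
    field_simp
  have hr := p_X7_sq _ hxb
  have hm := p_X7_mul _ hxb
  unfold p_X7_w
  set x := p_X7_x b c E
  set r := p_X7_r x
  set s : ℂ := ((√E : ℝ) : ℂ)
  rw [← hss, ← ha, ← hx]
  have h1 : x + r ≠ 0 := by
    intro h0
    rw [h0, zero_mul] at hm
    exact zero_ne_one hm
  have h2 : x - r ≠ 0 := by
    intro h0
    rw [show r - x = 0 by linear_combination -h0, mul_zero] at hm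
    exact zero_ne_one hm
  split_ifs with hi
  · field_simp
    linear_combination -hr
  · field_simp
    linear_combination -hr

private theorem p_X7_inj (b c : ℂ) (E : ℝ) (hc : c ≠ 0) (hE : 0 < E) :
    p_X7_w b c 0 E ≠ p_X7_w b c 1 E := by
  have hs : 0 < √E := Real.sqrt_pos.mpr hE
  have hsne : ((√E : ℝ) : ℂ) ≠ 0 := by exact_mod_cast hs.ne'
  unfold p_X7_w
  simp only [if_true, one_ne_zero, if_false]
  intro h
  have h1 := inv_injective h
  have h2 := mul_left_cancel₀ (div_ne_zero hc hsne) h1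
  have h3 : p_X7_r (p_X7_x b c E) = 0 := by linear_combination h2 / 2
  exact p_X7_r_ne _ h3

/-- the products -/
private noncomputable def p_X7_pi (b c : ℂ) (n : ℕ) : ℂ :=
  ∏ k ∈ Finset.Icc 1 (n - 2), (p_X7_x b c (En n k) + p_X7_r (p_X7_x b c (En n k)))

private theorem p_X7_En (n k : ℕ) (hn : 2 ≤ n) (hk : k ∈ Finset.Icc 1 (n - 2)) :
    (n : ℝ) ≤ En n k ∧ 4 * ((n : ℝ) - 1) ≤ En n k := by
  rw [Finset.mem_Icc] at hk
  obtain ⟨h1, h2⟩ := hk
  have h3 : (1 : ℝ) ≤ (k : ℝ) := by exact_mod_cast h1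
  have h4 : (k : ℝ) + 2 ≤ (n : ℝ) := by
    have : k + 2 ≤ n := by omega
    exact_mod_cast this
  have h5 : (2 : ℝ) ≤ (n : ℝ) := by exact_mod_cast hn
  unfold En
  rw [Int.cast_natCast]
  have h6 : (n : ℝ) - 1 ≤ (k : ℝ) * ((n : ℝ) - k) := by nlinarith
  constructor <;> nlinarith

private theorem p_X7_lim (hX6 : S_X6) (b c : ℂ) (hc : c ≠ 0) :
    Tendsto (p_X7_pi b c) atTop (𝓝 (Complex.exp (b / (2 * c) * ((Real.pi / 2 : ℝ) : ℂ)))) := by
  have hsum : Tendsto (fun n : ℕ => ∑ k ∈ Finset.Icc 1 (n - 2), (En n k) ^ (-(1 / 2) : ℝ)) atTop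
      (𝓝 (Real.pi / 2)) := hX6
  have hX : ∀ᶠ n : ℕ in atTop, ∀ k ∈ Finset.Icc 1 (n - 2), 0 < En n k ∧
      (‖b‖ / ‖c‖) ^ 2 ≤ En n k := by
    obtain ⟨N, hN⟩ := exists_nat_ge ((‖b‖ / ‖c‖) ^ 2)
    filter_upwards [eventually_ge_atTop (max N 2)] with n hn k hk
    have h2 : 2 ≤ n := (le_max_right _ _).trans hn
    have h3 := (p_X7_En n k h2 hk).1
    have h4 : (N : ℝ) ≤ (n : ℝ) := by exact_mod_cast (le_max_left _ _).trans hn
    have h5 : (2 : ℝ) ≤ (n : ℝ) := by exact_mod_cast h2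
    exact ⟨by linarith, by linarith⟩
  -- the exponential part
  have he : Tendsto (fun n : ℕ => Complex.exp (b / (2 * c) *
      ((∑ k ∈ Finset.Icc 1 (n - 2), (En n k) ^ (-(1 / 2) : ℝ) : ℝ) : ℂ))) atTop
      (𝓝 (Complex.exp (b / (2 * c) * ((Real.pi / 2 : ℝ) : ℂ)))) := by
    refine (Complex.continuous_exp.tendsto _).comp ?_
    refine Tendsto.const_mul _ ?_
    exact (Complex.continuous_ofReal.tendsto _).comp hsum
  -- the quadratic part
  have hq : Tendsto (fun n : ℕ => ∏ k ∈ Finset.Icc 1 (n - 2),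
      (1 + ((p_X7_x b c (En n k) + p_X7_r (p_X7_x b c (En n k))) *
        Complex.exp (-p_X7_x b c (En n k)) - 1))) atTop (𝓝 1) := by
    have hz : Tendsto (fun n : ℕ => 6 * ((‖b‖ / (2 * ‖c‖)) ^ 2 * ((4 * ((n : ℝ) - 1)) ^
        (-(1 / 2) : ℝ) * ∑ k ∈ Finset.Icc 1 (n - 2), (En n k) ^ (-(1 / 2) : ℝ)))) atTop (𝓝 0) := by
      have h1 : Tendsto (fun n : ℕ => (4 * ((n : ℝ) - 1)) ^ (-(1 / 2) : ℝ)) atTop (𝓝 0) := by
        refine (tendsto_rpow_neg_atTop (by norm_num : (0 : ℝ) < 1 / 2)).comp ?_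
        refine Tendsto.const_mul_atTop (by norm_num) ?_
        exact tendsto_atTop_add_const_right _ _ tendsto_natCast_atTop_atTop
      have h2 := (h1.mul hsum).const_mul ((‖b‖ / (2 * ‖c‖)) ^ 2)
      have h3 := h2.const_mul 6
      simpa using h3
    rw [tendsto_iff_norm_sub_tendsto_zero]
    have hz2 : Tendsto (fun n : ℕ => Real.exp (6 * ((‖b‖ / (2 * ‖c‖)) ^ 2 * ((4 * ((n : ℝ) - 1)) ^
        (-(1 / 2) : ℝ) * ∑ k ∈ Finset.Icc 1 (n - 2), (En n k) ^ (-(1 / 2) : ℝ)))) - 1) atTop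
        (𝓝 0) := by
      have := ((Real.continuous_exp.tendsto 0).comp hz).sub_const 1
      simpa using this
    refine squeeze_zero' (Eventually.of_forall fun n => norm_nonneg _) ?_ hz2
    filter_upwards [hX, eventually_ge_atTop 2] with n hn hn2
    refine (Finset.norm_prod_one_add_sub_one_le _ _).trans ?_
    refine sub_le_sub_right (Real.exp_le_exp.mpr ?_) 1
    rw [Finset.mul_sum, Finset.mul_sum, Finset.mul_sum]
    refine Finset.sum_le_sum fun k hk => ?_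
    obtain ⟨h1, h2⟩ := hn k hk
    refine (p_X7_near _ (p_X7_x_norm b c _ hc h1 h2)).trans ?_
    rw [p_X7_x_normsq b c _ hc h1]
    have h3 : (En n k) ^ (-(1 / 2) : ℝ) ≤ (4 * ((n : ℝ) - 1)) ^ (-(1 / 2) : ℝ) := by
      refine Real.rpow_le_rpow_of_nonpos ?_ (p_X7_En n k hn2 hk).2 (by norm_num)
      have h5 : (2 : ℝ) ≤ (n : ℝ) := by exact_mod_cast hn2
      linarith
    have h4 : 0 ≤ (En n k) ^ (-(1 / 2) : ℝ) := Real.rpow_nonneg h1.le _
    exact mul_le_mul_of_nonneg_left (mul_le_mul_of_nonneg_left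
      (mul_le_mul_of_nonneg_right h3 h4) (by positivity)) (by norm_num)
  have h := he.mul hq
  rw [mul_one] at h
  refine h.congr' ?_
  filter_upwards [hX] with n hn
  unfold p_X7_pi
  rw [Complex.ofReal_sum, Finset.mul_sum, Complex.exp_sum, ← Finset.prod_mul_distrib]
  refine Finset.prod_congr rfl fun k hk => ?_
  obtain ⟨h1, h2⟩ := hn k hk
  rw [← p_X7_x_eq b c _ h1]
  have h3 : Complex.exp (p_X7_x b c (En n k)) * Complex.exp (-p_X7_x b c (En n k)) = 1 := by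
    rw [← Complex.exp_add]
    simp
  linear_combination (p_X7_x b c (En n k) + p_X7_r (p_X7_x b c (En n k))) * h3

private theorem p_X7_cosh (a b c : ℂ) (hc : c ≠ 0) (ha : c ^ 2 = a)
    (h : ∀ l : ℤ, b ^ 2 ≠ -4 * (2 * (l : ℂ) + 1) ^ 2 * a) :
    Complex.exp (b / (2 * c) * ((Real.pi / 2 : ℝ) : ℂ)) +
      (Complex.exp (b / (2 * c) * ((Real.pi / 2 : ℝ) : ℂ)))⁻¹ ≠ 0 := by
  intro h0
  set κ := b / (2 * c) * ((Real.pi / 2 : ℝ) : ℂ) with hκ
  have hne := Complex.exp_ne_zero κ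
  have h1 : Complex.exp κ * Complex.exp κ = -1 := by
    have : Complex.exp κ * (Complex.exp κ + (Complex.exp κ)⁻¹) = 0 := by rw [h0, mul_zero]
    rw [mul_add, mul_inv_cancel₀ hne] at this
    linear_combination this
  rw [← Complex.exp_add, ← Complex.exp_pi_mul_I, Complex.exp_eq_exp_iff_exists_int] at h1
  obtain ⟨l, hl⟩ := h1
  refine h l ?_
  have hpi : (Real.pi : ℂ) ≠ 0 := by exact_mod_cast Real.pi_ne_zero
  have h2 : b = 2 * c * ((2 * (l : ℂ) + 1) * Complex.I) := by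
    have h3 : κ = (Real.pi : ℂ) * ((2 * (l : ℂ) + 1) * Complex.I) / 2 := by
      linear_combination hl / 2
    have h4 : κ * (2 * c) = b * (Real.pi : ℂ) / 2 := by
      rw [hκ]
      push_cast
      field_simp
    have h5 : b * (Real.pi : ℂ) = (2 * c * ((2 * (l : ℂ) + 1) * Complex.I)) * (Real.pi : ℂ) := by
      linear_combination (-2) * h4 + 4 * c * h3
    exact mul_right_cancel₀ hpi h5
  rw [h2, ← ha]
  linear_combination 4 * c ^ 2 * (2 * (l : ℂ) + 1) ^ 2 * Complex.I_sq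

theorem p_X7 (hX6 : S_X6) : S_X7 := by
  intro P h0 hdeg hl
  set a := P.coeff 2 with hadef
  set b := P.coeff 1 with hbdef
  have ha : a ≠ 0 := by
    intro h
    have hP : P ≠ 0 := by
      rintro rfl
      simp at hdeg
    have h2 : P.leadingCoeff = 0 := by
      rw [leadingCoeff, hdeg]
      exact h
    exact hP (leadingCoeff_eq_zero.mp h2)
  obtain ⟨c, hc2⟩ := IsAlgClosed.exists_pow_nat_eq a (n := 2) (by norm_num)
  have hc : c ≠ 0 := by
    rintro rfl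
    exact ha (by rw [← hc2]; simp)
  have heval : ∀ z : ℂ, P.eval z = a * z ^ 2 + b * z := by
    intro z
    rw [eval_eq_sum_range, hdeg]
    simp only [Finset.sum_range_succ, Finset.sum_range_zero, h0]
    simp only [← hadef, ← hbdef]
    ring
  have hlim := p_X7_lim hX6 b c hc
  set e := Complex.exp (b / (2 * c) * ((Real.pi / 2 : ℝ) : ℂ)) with hedef
  have hene : e ≠ 0 := Complex.exp_ne_zero _
  have hco := p_X7_cosh a b c hc hc2 hl
  rw [← hedef] at hco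
  have hlim2 : Tendsto (fun n => (p_X7_pi b c n)⁻¹) atTop (𝓝 e⁻¹) := hlim.inv₀ hene
  have hm : 0 < ‖e + e⁻¹‖ := norm_pos_iff.mpr hco
  set B := ‖e‖ + ‖e⁻¹‖ + 1 with hB
  have hBpos : 0 < B := by positivity
  have ev1 : ∀ᶠ n in atTop, ‖e + e⁻¹‖ / 2 < ‖p_X7_pi b c n + (p_X7_pi b c n)⁻¹‖ :=
    (hlim.add hlim2).norm.eventually_const_lt (by linarith)
  have ev2 : ∀ᶠ n in atTop, ‖p_X7_pi b c n‖ < B :=
    hlim.norm.eventually_lt_const (by
      have := norm_nonneg e⁻¹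
      rw [hB]
      linarith)
  have ev3 : ∀ᶠ n in atTop, ‖(p_X7_pi b c n)⁻¹‖ < B :=
    hlim2.norm.eventually_lt_const (by
      have := norm_nonneg e
      rw [hB]
      linarith)
  obtain ⟨N, hN⟩ := eventually_atTop.mp (ev1.and (ev2.and ev3))
  set E₀ : ℝ := max (N : ℝ) (max ((‖b‖ / ‖c‖) ^ 2) 2) with hE₀
  have hE₀1 : (N : ℝ) ≤ E₀ := le_max_left _ _
  have hE₀2 : (‖b‖ / ‖c‖) ^ 2 ≤ E₀ := (le_max_left _ _).trans (le_max_right _ _)
  have hE₀3 : (2 : ℝ) ≤ E₀ := (le_max_right _ _).trans (le_max_right _ _)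
  refine ⟨E₀, ‖e + e⁻¹‖ / 2 / B, fun i => p_X7_w b c i, by positivity, ?_, ?_, ?_⟩
  · intro i
    exact p_X7_cont b c i E₀ hc (by linarith) hE₀2
  · intro E hE
    have hEpos : 0 < E := by linarith
    refine ⟨fun i => ?_, ?_⟩
    · rw [heval]
      exact p_X7_root a b c i E hc hc2 hEpos (hE₀2.trans hE)
    · intro i j hij
      have hi : (i : ℕ) < 2 := by
        have := i.2
        omega
      have hj : (j : ℕ) < 2 := by
        have := j.2
        omega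
      have hne := p_X7_inj b c E hc hEpos
      apply Fin.ext
      change p_X7_w b c i E = p_X7_w b c j E at hij
      have hi' : (i : ℕ) = 0 ∨ (i : ℕ) = 1 := by omega
      have hj' : (j : ℕ) = 0 ∨ (j : ℕ) = 1 := by omega
      rcases hi' with h | h <;> rcases hj' with h' | h' <;> rw [h, h'] at hij ⊢
      · exact absurd hij hne
      · exact absurd hij.symm hne
  · intro n hn hEn l
    obtain ⟨heven, -⟩ := hn
    have hn2 : 2 ≤ n := by
      have : (2 : ℝ) ≤ (n : ℝ) := hE₀3.trans hEn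
      exact_mod_cast this
    have hnN : N ≤ n := by
      have : (N : ℝ) ≤ (n : ℝ) := hE₀1.trans hEn
      exact_mod_cast this
    obtain ⟨e1, e2, e3⟩ := hN n hnN
    have hnd : n - P.natDegree = n - 2 := by rw [hdeg]
    simp only [hnd]
    have hEk : ∀ k ∈ Finset.Icc 1 (n - 2), 0 < En n k ∧ (‖b‖ / ‖c‖) ^ 2 ≤ En n k := by
      intro k hk
      have h1 := (p_X7_En n k hn2 hk).1
      exact ⟨by linarith, by linarith⟩
    have hEeq : ∀ k : ℕ, 4 * (k : ℝ) * ((n : ℝ) - k) = En n k := by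
      intro k
      unfold En
      rw [Int.cast_natCast]
    have hz : ∀ k ∈ Finset.Icc 1 (n - 2), ‖p_X7_x b c (En n k)‖ ≤ 1 / 2 := fun k hk =>
      p_X7_x_norm b c _ hc (hEk k hk).1 (hEk k hk).2
    -- the product of the prefactors
    set G : ℂ := ∏ k ∈ Finset.Icc 1 (n - 2), (c / ((√(En n k) : ℝ) : ℂ)) with hG
    have hp0 : ∏ k ∈ Finset.Icc 1 (n - 2), (p_X7_w b c 0 (4 * (k : ℝ) * ((n : ℝ) - k)))⁻¹ =
        G * p_X7_pi b c n := by
      rw [hG, p_X7_pi, ← Finset.prod_mul_distrib]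
      refine Finset.prod_congr rfl fun k _ => ?_
      rw [hEeq, p_X7_w]
      simp only [if_true, inv_inv]
    have hp1 : ∏ k ∈ Finset.Icc 1 (n - 2), (p_X7_w b c 1 (4 * (k : ℝ) * ((n : ℝ) - k)))⁻¹ =
        G * (p_X7_pi b c n)⁻¹ := by
      rw [hG, p_X7_pi, ← Finset.prod_inv_distrib, ← Finset.prod_mul_distrib]
      have hcard : Even (Finset.Icc 1 (n - 2)).card := by
        rw [Nat.card_Icc]
        obtain ⟨m, hm'⟩ := heven
        exact ⟨m - 1, by omega⟩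
      have h1 : ∏ k ∈ Finset.Icc 1 (n - 2), (-1 : ℂ) = 1 := by
        rw [Finset.prod_const]
        exact hcard.neg_one_pow
      rw [← one_mul (∏ k ∈ Finset.Icc 1 (n - 2), (c / ((√(En n k) : ℝ) : ℂ) *
        (p_X7_x b c (En n k) + p_X7_r (p_X7_x b c (En n k)))⁻¹)), ← h1,
        ← Finset.prod_mul_distrib]
      refine Finset.prod_congr rfl fun k hk => ?_
      rw [hEeq, p_X7_w]
      simp only [one_ne_zero, if_false, inv_inv]
      have h2 := p_X7_mul _ (hz k hk)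
      have h3 : (p_X7_x b c (En n k) + p_X7_r (p_X7_x b c (En n k)))⁻¹ =
          p_X7_r (p_X7_x b c (En n k)) - p_X7_x b c (En n k) := by
        exact inv_eq_of_mul_eq_one_right h2
      rw [h3]
      ring
    have hsum : ∑ i : Fin P.natDegree, ∏ k ∈ Finset.Icc 1 (n - 2),
        (p_X7_w b c i (4 * (k : ℝ) * ((n : ℝ) - k)))⁻¹ =
        G * (p_X7_pi b c n + (p_X7_pi b c n)⁻¹) := by
      rw [Fin.sum_univ_eq_sum_range (fun i => ∏ k ∈ Finset.Icc 1 (n - 2),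
        (p_X7_w b c i (4 * (k : ℝ) * ((n : ℝ) - k)))⁻¹) P.natDegree, hdeg,
        Finset.sum_range_succ, Finset.sum_range_one, hp0, hp1]
      ring
    rw [hsum, norm_mul]
    have hl2 : ∏ k ∈ Finset.Icc 1 (n - 2), ‖p_X7_w b c l (4 * (k : ℝ) * ((n : ℝ) - k))‖⁻¹ ≤
        ‖G‖ * B := by
      have h1 : ∏ k ∈ Finset.Icc 1 (n - 2), ‖p_X7_w b c l (4 * (k : ℝ) * ((n : ℝ) - k))‖⁻¹ =
          ‖∏ k ∈ Finset.Icc 1 (n - 2), (p_X7_w b c l (4 * (k : ℝ) * ((n : ℝ) - k)))⁻¹‖ := by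
        rw [norm_prod]
        refine Finset.prod_congr rfl fun k _ => ?_
        rw [norm_inv]
      rw [h1]
      have hl' : (l : ℕ) = 0 ∨ (l : ℕ) = 1 := by
        have := l.2
        omega
      rcases hl' with h | h
      · rw [h, hp0, norm_mul]
        exact mul_le_mul_of_nonneg_left e2.le (norm_nonneg _)
      · rw [h, hp1, norm_mul]
        exact mul_le_mul_of_nonneg_left e3.le (norm_nonneg _)
    calc ‖e + e⁻¹‖ / 2 / B *
          ∏ k ∈ Finset.Icc 1 (n - 2), ‖p_X7_w b c l (4 * (k : ℝ) * ((n : ℝ) - k))‖⁻¹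
        ≤ ‖e + e⁻¹‖ / 2 / B * (‖G‖ * B) := mul_le_mul_of_nonneg_left hl2 (by positivity)
      _ = ‖G‖ * (‖e + e⁻¹‖ / 2) := by field_simp
      _ ≤ ‖G‖ * ‖p_X7_pi b c n + (p_X7_pi b c n)⁻¹‖ :=
          mul_le_mul_of_nonneg_left e1.le (norm_nonneg _)

end HillRoots
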