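import Pool.Agent.Lib.MP_e63cf8_mp.StmF

open Polynomial Filter Topology MeasureTheory Asymptotics

namespace HillRoots

/-! ### the formal part -/

open PowerSeries in
theorem p_Y1_res (u : PowerSeries ℂ) (hu : PowerSeries.constantCoeff u = 1) (k : ℕ) :
    PowerSeries.coeff k (u⁻¹ ^ (k + 1) * d⁄dX ℂ (PowerSeries.X * u)) = if k = 0 then 1 else 0 := by
  have huh : u * u⁻¹ = 1 := PowerSeries.mul_inv_cancel u (by rw [hu]; exact one_ne_zero)
  set h := u⁻¹ with hh
  have hdX : d⁄dX ℂ (PowerSeries.X * u) = u + PowerSeries.X * d⁄dX ℂ u := by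
    rw [Derivation.leibniz, PowerSeries.derivative_X]
    simp only [smul_eq_mul, mul_one]
    ring
  have e1 : h ^ (k + 1) * d⁄dX ℂ (PowerSeries.X * u) = h ^ k + PowerSeries.X * (h ^ (k + 1) * d⁄dX ℂ u) := by
    rw [hdX]
    linear_combination (h ^ k) * huh
  rw [e1]
  rcases Nat.eq_zero_or_pos k with h0 | h0
  · subst h0
    simp
  · rw [if_neg (by omega)]
    have hk : (k : ℂ) ≠ 0 := by exact_mod_cast (by omega : k ≠ 0)
    have hd : d⁄dX ℂ (h ^ k) = -((k : PowerSeries ℂ) * (h ^ (k + 1) * d⁄dX ℂ u)) := by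
      rw [PowerSeries.derivative_pow, hh, PowerSeries.derivative_inv', ← hh]
      have : h ^ (k + 1) = h ^ (k - 1) * h ^ 2 := by
        rw [← pow_add]
        congr 1
        omega
      rw [this]
      ring
    obtain ⟨k', rfl⟩ : ∃ k', k = k' + 1 := ⟨k - 1, by omega⟩
    rw [map_add, PowerSeries.coeff_succ_X_mul]
    have h2 := congrArg (PowerSeries.coeff k') hd
    rw [PowerSeries.coeff_derivative, map_neg] at h2
    have h3 : PowerSeries.coeff k' (((k' + 1 : ℕ) : PowerSeries ℂ) * (h ^ (k' + 1 + 1) * d⁄dX ℂ u)) =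
        ((k' + 1 : ℕ) : ℂ) * PowerSeries.coeff k' (h ^ (k' + 1 + 1) * d⁄dX ℂ u) := by
      rw [← map_natCast (PowerSeries.C : ℂ →+* PowerSeries ℂ) (k' + 1), PowerSeries.coeff_C_mul]
    rw [h3] at h2
    push_cast at h2 hk
    have h4 : ((k' : ℂ) + 1) * (PowerSeries.coeff (k' + 1) (h ^ (k' + 1)) +
        PowerSeries.coeff k' (h ^ (k' + 1 + 1) * d⁄dX ℂ u)) = 0 := by
      linear_combination h2
    exact (mul_eq_zero.mp h4).resolve_left hk

open PowerSeries in
theorem p_Y1_lagrange (u L : PowerSeries ℂ) (hu : PowerSeries.constantCoeff u = 1)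
    (hL : d⁄dX ℂ L * u = d⁄dX ℂ u) (r : ℕ) (hr : 1 ≤ r) (a : ℕ → ℂ)
    (ha : ∀ k < r + 1, PowerSeries.coeff k (u ^ r - ∑ j ∈ Finset.range (r + 1),
      PowerSeries.C (a j) * (PowerSeries.X ^ j * u ^ j)) = 0) :
    (r : ℂ) * PowerSeries.coeff r L = a r := by
  have huh : u * u⁻¹ = 1 := PowerSeries.mul_inv_cancel u (by rw [hu]; exact one_ne_zero)
  have hres := p_Y1_res u hu
  set h := u⁻¹ with hh
  have hdX : d⁄dX ℂ (PowerSeries.X * u) = u + PowerSeries.X * d⁄dX ℂ u := by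
    rw [Derivation.leibniz, PowerSeries.derivative_X]
    simp only [smul_eq_mul, mul_one]
    ring
  have huhk : ∀ k : ℕ, u ^ k * h ^ k = 1 := by
    intro k
    rw [← mul_pow, huh, one_pow]
  -- left side
  have e1 : h * d⁄dX ℂ (PowerSeries.X * u) = 1 + PowerSeries.X * d⁄dX ℂ L := by
    rw [hdX, ← hL]
    linear_combination (1 + PowerSeries.X * d⁄dX ℂ L) * huh
  have e2 : PowerSeries.coeff r (h * d⁄dX ℂ (PowerSeries.X * u)) = (r : ℂ) * PowerSeries.coeff r L := by
    rw [e1]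
    obtain ⟨r', rfl⟩ : ∃ r', r = r' + 1 := ⟨r - 1, by omega⟩
    rw [map_add, PowerSeries.coeff_succ_X_mul, PowerSeries.coeff_derivative, PowerSeries.coeff_one,
      if_neg (by omega)]
    push_cast
    ring
  -- right side
  have e3 : h * d⁄dX ℂ (PowerSeries.X * u) = u ^ r * (h ^ (r + 1) * d⁄dX ℂ (PowerSeries.X * u)) := by
    linear_combination (-(h * d⁄dX ℂ (PowerSeries.X * u))) * huhk r
  set E := u ^ r - ∑ j ∈ Finset.range (r + 1), PowerSeries.C (a j) * (PowerSeries.X ^ j * u ^ j) with hE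
  have e4 : u ^ r * (h ^ (r + 1) * d⁄dX ℂ (PowerSeries.X * u)) =
      E * (h ^ (r + 1) * d⁄dX ℂ (PowerSeries.X * u)) +
      ∑ j ∈ Finset.range (r + 1), PowerSeries.C (a j) *
        (PowerSeries.X ^ j * (u ^ j * (h ^ (r + 1) * d⁄dX ℂ (PowerSeries.X * u)))) := by
    rw [hE, sub_mul, Finset.sum_mul]
    have : ∀ j ∈ Finset.range (r + 1), PowerSeries.C (a j) * (PowerSeries.X ^ j * u ^ j) *
        (h ^ (r + 1) * d⁄dX ℂ (PowerSeries.X * u)) = PowerSeries.C (a j) *
        (PowerSeries.X ^ j * (u ^ j * (h ^ (r + 1) * d⁄dX ℂ (PowerSeries.X * u)))) := by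
      intro j _
      ring
    rw [Finset.sum_congr rfl this]
    ring
  have e5 : PowerSeries.coeff r (E * (h ^ (r + 1) * d⁄dX ℂ (PowerSeries.X * u))) = 0 := by
    rw [PowerSeries.coeff_mul]
    refine Finset.sum_eq_zero ?_
    intro p hp
    rw [Finset.HasAntidiagonal.mem_antidiagonal] at hp
    rw [ha p.1 (by omega), zero_mul]
  have e6 : ∀ j ∈ Finset.range (r + 1), PowerSeries.coeff r (PowerSeries.C (a j) *
        (PowerSeries.X ^ j * (u ^ j * (h ^ (r + 1) * d⁄dX ℂ (PowerSeries.X * u))))) =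
        if j = r then a r else 0 := by
    intro j hj
    rw [Finset.mem_range] at hj
    obtain ⟨k, rfl⟩ : ∃ k, r = j + k := ⟨r - j, by omega⟩
    rw [PowerSeries.coeff_C_mul, add_comm j k, PowerSeries.coeff_X_pow_mul]
    have : u ^ j * (h ^ (k + j + 1) * d⁄dX ℂ (PowerSeries.X * u)) =
        h ^ (k + 1) * d⁄dX ℂ (PowerSeries.X * u) := by
      linear_combination (h ^ (k + 1) * d⁄dX ℂ (PowerSeries.X * u)) * huhk j
    rw [this, hres k]
    rcases Nat.eq_zero_or_pos k with h0 | h0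
    · subst h0; simp
    · rw [if_neg (by omega), if_neg (by omega), mul_zero]
  rw [← e2, e3, e4, map_add, e5, zero_add, map_sum, Finset.sum_congr rfl e6]
  simp

/-! ### Taylor series -/

/-- the formal Taylor series at `0` -/
noncomputable def p_Y1_T (f : ℂ → ℂ) : PowerSeries ℂ :=
  PowerSeries.mk fun n => iteratedDeriv n f 0 / (n.factorial : ℂ)

theorem p_Y1_T_series (f : ℂ → ℂ) (hf : AnalyticAt ℂ f 0) :
    HasFPowerSeriesAt f (FormalMultilinearSeries.ofScalars ℂ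
      (fun n => PowerSeries.coeff n (p_Y1_T f))) 0 := by
  have := hf.hasFPowerSeriesAt
  simpa [p_Y1_T] using this

theorem p_Y1_T_unique (f : ℂ → ℂ) (a : ℕ → ℂ)
    (h : HasFPowerSeriesAt f (FormalMultilinearSeries.ofScalars ℂ a) 0) (n : ℕ) :
    PowerSeries.coeff n (p_Y1_T f) = a n := by
  have h1 := p_Y1_T_series f h.analyticAt
  have h2 := h1.eq_formalMultilinearSeries h
  have h3 := FormalMultilinearSeries.ofScalars_series_injective (𝕜 := ℂ) ℂ h2
  exact congrFun h3 n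

theorem p_Y1_T_hasSum (f : ℂ → ℂ) (hf : AnalyticAt ℂ f 0) :
    ∀ᶠ z in 𝓝 (0 : ℂ), HasSum (fun n => PowerSeries.coeff n (p_Y1_T f) * z ^ n) (f z) := by
  have h := hasFPowerSeriesAt_iff.mp (p_Y1_T_series f hf)
  filter_upwards [h] with z hz
  rw [zero_add] at hz
  refine hz.congr_fun ?_
  intro n
  simp [mul_comm]

theorem p_Y1_T_of_hasSum (f : ℂ → ℂ) (a : ℕ → ℂ)
    (h : ∀ᶠ z in 𝓝 (0 : ℂ), HasSum (fun n => a n * z ^ n) (f z)) (n : ℕ) :
    PowerSeries.coeff n (p_Y1_T f) = a n := by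
  apply p_Y1_T_unique
  rw [hasFPowerSeriesAt_iff]
  filter_upwards [h] with z hz
  rw [zero_add]
  refine hz.congr_fun ?_
  intro n
  simp [mul_comm]

theorem p_Y1_T_mul (f g : ℂ → ℂ) (hf : AnalyticAt ℂ f 0) (hg : AnalyticAt ℂ g 0) :
    p_Y1_T (fun x => f x * g x) = p_Y1_T f * p_Y1_T g := by
  ext n
  apply p_Y1_T_of_hasSum
  filter_upwards [p_Y1_T_hasSum f hf, p_Y1_T_hasSum g hg] with z h1 h2
  have hs1 : Summable (fun n => ‖PowerSeries.coeff n (p_Y1_T f) * z ^ n‖) := h1.summable.norm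
  have hs2 : Summable (fun n => ‖PowerSeries.coeff n (p_Y1_T g) * z ^ n‖) := h2.summable.norm
  have h3 := summable_norm_sum_mul_antidiagonal_of_summable_norm hs1 hs2
  have h4 := tsum_mul_tsum_eq_tsum_sum_antidiagonal_of_summable_norm hs1 hs2
  rw [h1.tsum_eq, h2.tsum_eq] at h4
  have h5 := h3.of_norm.hasSum
  rw [← h4] at h5
  refine h5.congr_fun ?_
  intro n
  rw [PowerSeries.coeff_mul, Finset.sum_mul]
  refine Finset.sum_congr rfl ?_
  intro p hp
  rw [Finset.HasAntidiagonal.mem_antidiagonal] at hp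
  rw [← hp, pow_add]
  ring

theorem p_Y1_T_pow (f : ℂ → ℂ) (hf : AnalyticAt ℂ f 0) (n : ℕ) :
    p_Y1_T (fun x => f x ^ n) = p_Y1_T f ^ n := by
  induction n with
  | zero =>
    ext m
    rw [pow_zero]
    apply p_Y1_T_of_hasSum
    filter_upwards with z
    have := hasSum_single (f := fun n => PowerSeries.coeff n (1 : PowerSeries ℂ) * z ^ n) 0 (by
      intro m hm
      rw [PowerSeries.coeff_one, if_neg hm, zero_mul])
    simpa using this
  | succ n ih =>
    have : (fun x => f x ^ (n + 1)) = fun x => (fun x => f x ^ n) x * f x := by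
      funext x
      rw [pow_succ]
    rw [this, p_Y1_T_mul _ _ (hf.fun_pow n) hf, ih, pow_succ]

theorem p_Y1_T_X : p_Y1_T (fun x => x) = PowerSeries.X := by
  ext m
  apply p_Y1_T_of_hasSum
  filter_upwards with z
  have := hasSum_single (f := fun n => PowerSeries.coeff n (PowerSeries.X : PowerSeries ℂ) * z ^ n) 1 (by
    intro m hm
    rw [PowerSeries.coeff_X, if_neg hm, zero_mul])
  simpa using this

theorem p_Y1_T_sub (f g : ℂ → ℂ) (hf : AnalyticAt ℂ f 0) (hg : AnalyticAt ℂ g 0) :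
    p_Y1_T (fun x => f x - g x) = p_Y1_T f - p_Y1_T g := by
  ext n
  apply p_Y1_T_of_hasSum
  filter_upwards [p_Y1_T_hasSum f hf, p_Y1_T_hasSum g hg] with z h1 h2
  refine (h1.sub h2).congr_fun ?_
  intro n
  simp [sub_mul]

theorem p_Y1_T_const_mul (c : ℂ) (f : ℂ → ℂ) (hf : AnalyticAt ℂ f 0) :
    p_Y1_T (fun x => c * f x) = PowerSeries.C c * p_Y1_T f := by
  ext n
  apply p_Y1_T_of_hasSum
  filter_upwards [p_Y1_T_hasSum f hf] with z h1
  refine (h1.mul_left c).congr_fun ?_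
  intro n
  rw [PowerSeries.coeff_C_mul]
  ring

theorem p_Y1_T_sum (s : Finset ℕ) (f : ℕ → ℂ → ℂ) (hf : ∀ i ∈ s, AnalyticAt ℂ (f i) 0) :
    p_Y1_T (fun x => ∑ i ∈ s, f i x) = ∑ i ∈ s, p_Y1_T (f i) := by
  ext n
  apply p_Y1_T_of_hasSum
  have h : ∀ᶠ z in 𝓝 (0 : ℂ), ∀ i ∈ s, HasSum (fun n => PowerSeries.coeff n (p_Y1_T (f i)) * z ^ n) (f i z) := by
    rw [Filter.eventually_all_finset]
    intro i hi
    exact p_Y1_T_hasSum (f i) (hf i hi)
  filter_upwards [h] with z hz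
  refine (hasSum_sum hz).congr_fun ?_
  intro n
  rw [map_sum, Finset.sum_mul]

theorem p_Y1_T_congr (f g : ℂ → ℂ) (h : f =ᶠ[𝓝 0] g) : p_Y1_T f = p_Y1_T g := by
  ext n
  simp only [p_Y1_T, PowerSeries.coeff_mk]
  rw [h.iteratedDeriv_eq n]

theorem p_Y1_T_deriv (f : ℂ → ℂ) : p_Y1_T (deriv f) = PowerSeries.derivative ℂ (p_Y1_T f) := by
  ext n
  rw [PowerSeries.coeff_derivative]
  simp only [p_Y1_T, PowerSeries.coeff_mk]
  rw [iteratedDeriv_succ', Nat.factorial_succ]
  have h1 : ((n : ℂ) + 1) ≠ 0 := by exact_mod_cast Nat.succ_ne_zero n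
  have h2 : (n.factorial : ℂ) ≠ 0 := by exact_mod_cast Nat.factorial_ne_zero n
  push_cast
  field_simp

theorem p_Y1_T_expand (f : ℂ → ℂ) (hf : AnalyticAt ℂ f 0) (n : ℕ) :
    (fun x => f x - ∑ k ∈ Finset.range n, PowerSeries.coeff k (p_Y1_T f) * x ^ k) =O[𝓝 0]
      (fun x : ℂ => x ^ n) := by
  have h := (p_Y1_T_series f hf).isBigO_sub_partialSum_pow n
  have h2 : (fun y : ℂ => ‖y‖ ^ n) =O[𝓝 0] (fun x : ℂ => x ^ n) := by
    refine IsBigO.of_bound 1 (Eventually.of_forall ?_)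
    intro x
    simp
  refine (h.trans h2).congr_left ?_
  intro x
  rw [zero_add, FormalMultilinearSeries.partialSum]
  congr 1
  refine Finset.sum_congr rfl ?_
  intro k _
  simp [mul_comm]

theorem p_Y1_T_of_isBigO (f : ℂ → ℂ) (hf : AnalyticAt ℂ f 0) (n : ℕ)
    (h : f =O[𝓝 0] (fun x : ℂ => x ^ n)) : ∀ k < n, PowerSeries.coeff k (p_Y1_T f) = 0 := by
  intro k
  induction k using Nat.strong_induction_on with
  | _ k ih =>
    intro hk
    have h1 := p_Y1_T_expand f hf (k + 1)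
    have h2 : (fun x : ℂ => x ^ n) =O[𝓝 0] (fun x : ℂ => x ^ (k + 1)) := by
      refine IsBigO.of_bound 1 ?_
      filter_upwards [Metric.ball_mem_nhds (0 : ℂ) one_pos] with x hx
      have hx1 : ‖x‖ ≤ 1 := by simpa using (Metric.mem_ball.mp hx).le
      rw [one_mul, norm_pow, norm_pow]
      exact pow_le_pow_of_le_one (norm_nonneg _) hx1 hk
    have h3 := (h.trans h2).sub h1
    have h4 : (fun x : ℂ => PowerSeries.coeff k (p_Y1_T f) * x ^ k) =O[𝓝 0] (fun x : ℂ => x ^ (k + 1)) := by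
      refine h3.congr_left ?_
      intro x
      rw [Finset.sum_range_succ]
      have : ∑ j ∈ Finset.range k, PowerSeries.coeff j (p_Y1_T f) * x ^ j = 0 := by
        refine Finset.sum_eq_zero ?_
        intro j hj
        rw [Finset.mem_range] at hj
        rw [ih j hj (by omega), zero_mul]
      rw [this]
      ring
    have h5 : (fun _ : ℂ => PowerSeries.coeff k (p_Y1_T f)) =O[𝓝[≠] 0] (fun x : ℂ => x) := by
      have h6 := (h4.mono (nhdsWithin_le_nhds (s := {0}ᶜ))).mul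
        (isBigO_refl (fun x : ℂ => (x ^ k)⁻¹) (𝓝[≠] 0))
      refine h6.congr' ?_ ?_
      · filter_upwards [self_mem_nhdsWithin] with x hx
        have hx : x ≠ 0 := hx
        field_simp
      · filter_upwards [self_mem_nhdsWithin] with x hx
        have hx : x ≠ 0 := hx
        field_simp
        ring
    have h7 : Tendsto (fun x : ℂ => x) (𝓝[≠] 0) (𝓝 0) := tendsto_nhdsWithin_of_tendsto_nhds tendsto_id
    have h8 := h5.trans_tendsto h7
    exact tendsto_nhds_unique tendsto_const_nhds h8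

/-! ### the analytic part -/

theorem p_Y1_choose (s : ℂ) (i : ℕ) :
    Ring.choose s i = (∏ k ∈ Finset.range i, (s - k)) / (i.factorial : ℂ) := by
  rw [Ring.choose_eq_smul, Polynomial.descPochhammer_smeval_eq_ascPochhammer,
    Polynomial.ascPochhammer_smeval_eq_eval, ← descPochhammer_eval_eq_ascPochhammer,
    descPochhammer_eval_eq_prod_range, smul_eq_mul]
  ring

/-- the polynomial `A` -/
noncomputable def p_Y1_A (P : ℂ[X]) : ℂ[X] := C P.leadingCoeff⁻¹ * P.reverse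

/-- the truncated binomial series -/
noncomputable def p_Y1_B (P : ℂ[X]) (r : ℕ) : ℂ[X] :=
  ∑ i ∈ Finset.range (r + 1),
    C ((∏ k ∈ Finset.range i, ((r : ℂ) / P.natDegree - k)) / (i.factorial : ℂ)) * (p_Y1_A P - 1) ^ i

theorem p_Y1_gam (P : ℂ[X]) (r : ℕ) : gam P r = (1 / (r : ℂ)) * (p_Y1_B P r).coeff r := by
  unfold gam p_Y1_B p_Y1_A
  rw [Polynomial.finsetSum_coeff]
  congr 1
  refine Finset.sum_congr rfl ?_
  intro i _
  rw [Polynomial.coeff_C_mul]

theorem p_Y1_A_eval (P : ℂ[X]) (hP : P.coeff 0 = 0) (t : ℂ) :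
    (p_Y1_A P).eval t = ∑ j ∈ Finset.Icc 1 P.natDegree, P.coeff j / P.leadingCoeff * t ^ (P.natDegree - j) := by
  unfold p_Y1_A
  rw [eval_mul, eval_C, Polynomial.eval_eq_sum_range' (Nat.lt_succ_of_le (Polynomial.reverse_natDegree_le P)),
    ← Finset.sum_range_reflect, Finset.mul_sum]
  have h1 : ∀ j ∈ Finset.range (P.natDegree.succ), P.leadingCoeff⁻¹ *
      (P.reverse.coeff (P.natDegree.succ - 1 - j) * t ^ (P.natDegree.succ - 1 - j)) =
      P.coeff j / P.leadingCoeff * t ^ (P.natDegree - j) := by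
    intro j hj
    rw [Finset.mem_range] at hj
    have e : P.natDegree.succ - 1 - j = P.natDegree - j := by omega
    rw [e, Polynomial.coeff_reverse, Polynomial.revAt_le (by omega)]
    have e2 : P.natDegree - (P.natDegree - j) = j := by omega
    rw [e2]
    ring
  rw [Finset.sum_congr rfl h1, Finset.range_eq_Ico, Finset.sum_eq_sum_Ico_succ_bot (by omega), hP]
  have hIcc : Finset.Ico (0 + 1) (P.natDegree.succ) = Finset.Icc 1 P.natDegree := by
    ext x
    simp only [Finset.mem_Ico, Finset.mem_Icc]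
    omega
  rw [hIcc]
  simp

theorem p_Y1_poly (B : ℂ[X]) (r : ℕ) :
    (fun t : ℂ => B.eval t - ∑ j ∈ Finset.range (r + 1), B.coeff j * t ^ j) =O[𝓝 0]
      (fun t : ℂ => t ^ (r + 1)) := by
  set N := B.natDegree + 1 + (r + 1) with hN
  have h1 : ∀ t : ℂ, B.eval t - ∑ j ∈ Finset.range (r + 1), B.coeff j * t ^ j =
      ∑ j ∈ Finset.range (B.natDegree + 1), B.coeff (r + 1 + j) * t ^ j * t ^ (r + 1) := by
    intro t
    rw [Polynomial.eval_eq_sum_range' (by omega : B.natDegree < (r + 1) + (B.natDegree + 1)),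
      Finset.sum_range_add]
    rw [add_sub_cancel_left]
    refine Finset.sum_congr rfl ?_
    intro j _
    rw [pow_add]
    ring
  have h2 : (fun t : ℂ => ∑ j ∈ Finset.range (B.natDegree + 1), B.coeff (r + 1 + j) * t ^ j * t ^ (r + 1))
      =O[𝓝 0] (fun t : ℂ => t ^ (r + 1)) := by
    refine IsBigO.fun_sum (A := fun (j : ℕ) (t : ℂ) => B.coeff (r + 1 + j) * t ^ j * t ^ (r + 1)) ?_
    intro j _
    have h3 : (fun t : ℂ => B.coeff (r + 1 + j) * t ^ j) =O[𝓝 0] (fun _ => (1 : ℂ)) := by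
      have hc : Continuous (fun t : ℂ => B.coeff (r + 1 + j) * t ^ j) := by fun_prop
      exact (hc.tendsto 0).isBigO_one ℂ
    have := h3.mul (isBigO_refl (fun t : ℂ => t ^ (r + 1)) (𝓝 0))
    simpa using this
  exact h2.congr_left (fun t => (h1 t).symm)

theorem p_Y1_A_zero (P : ℂ[X]) (hP : P.coeff 0 = 0) (hM : 1 ≤ P.natDegree) : (p_Y1_A P).coeff 0 = 1 := by
  have hlead : P.leadingCoeff ≠ 0 := by
    rw [Polynomial.leadingCoeff_ne_zero]
    intro h
    rw [h] at hM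
    simp at hM
  rw [Polynomial.coeff_zero_eq_eval_zero, p_Y1_A_eval P hP, Finset.sum_eq_single P.natDegree]
  · rw [Nat.sub_self, pow_zero, mul_one, Polynomial.coeff_natDegree, div_self hlead]
  · intro j hj hne
    rw [Finset.mem_Icc] at hj
    have : P.natDegree - j ≠ 0 := by omega
    rw [zero_pow this, mul_zero]
  · intro h
    exfalso
    apply h
    rw [Finset.mem_Icc]
    omega

theorem p_Y1_cpow (s : ℂ) (r : ℕ) :
    (fun w : ℂ => (1 + w) ^ s - ∑ i ∈ Finset.range (r + 1), Ring.choose s i * w ^ i) =O[𝓝 0]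
      (fun w : ℂ => w ^ (r + 1)) := by
  have h := (Complex.one_add_cpow_hasFPowerSeriesOnBall_zero (a := s)).hasFPowerSeriesAt.isBigO_sub_partialSum_pow
    (r + 1)
  have h2 : (fun y : ℂ => ‖y‖ ^ (r + 1)) =O[𝓝 0] (fun x : ℂ => x ^ (r + 1)) := by
    refine IsBigO.of_bound 1 (Eventually.of_forall ?_)
    intro x
    simp
  refine (h.trans h2).congr_left ?_
  intro x
  rw [zero_add, FormalMultilinearSeries.partialSum]
  congr 1
  refine Finset.sum_congr rfl ?_
  intro k _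
  rw [binomialSeries_apply]
  simp

theorem p_Y1_F (P : ℂ[X]) (g : ℂ → ℂ) (hP : P.coeff 0 = 0) (hM : 1 ≤ P.natDegree)
    (hg : AnalyticAt ℂ g 0) (g0 : g 0 = 1)
    (heq : ∀ᶠ x in 𝓝 (0 : ℂ), g x ^ P.natDegree =
      ∑ j ∈ Finset.Icc 1 P.natDegree, P.coeff j / P.leadingCoeff * (x * g x) ^ (P.natDegree - j)) (r : ℕ) :
    (fun x => g x ^ r - ∑ j ∈ Finset.range (r + 1), (p_Y1_B P r).coeff j * (x ^ j * g x ^ j)) =O[𝓝 0]
      (fun x : ℂ => x ^ (r + 1)) := by
  have hGan : AnalyticAt ℂ (fun x : ℂ => x * g x) 0 := analyticAt_id.mul hg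
  have hG : Tendsto (fun x : ℂ => x * g x) (𝓝 0) (𝓝 0) := by
    have := hGan.continuousAt.tendsto
    simpa using this
  have hgO : g =O[𝓝 0] (fun _ => (1 : ℂ)) := hg.continuousAt.tendsto.isBigO_one ℂ
  have hGO : (fun x : ℂ => x * g x) =O[𝓝 0] (fun x : ℂ => x) := by
    simpa using (isBigO_refl (fun x : ℂ => x) (𝓝 0)).mul hgO
  -- `u`
  have hu0 := (p_Y1_poly (p_Y1_A P) 0).comp_tendsto hG
  have huO : (fun x : ℂ => (p_Y1_A P).eval (x * g x) - 1) =O[𝓝 0] (fun x : ℂ => x) := by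
    have h1 : (fun x : ℂ => (p_Y1_A P).eval (x * g x) - 1) =O[𝓝 0] (fun x : ℂ => x * g x) := by
      refine hu0.congr ?_ ?_
      · intro x
        simp [p_Y1_A_zero P hP hM]
      · intro x
        simp
    exact h1.trans hGO
  have hut : Tendsto (fun x : ℂ => (p_Y1_A P).eval (x * g x) - 1) (𝓝 0) (𝓝 0) :=
    huO.trans_tendsto tendsto_id
  have h1 := ((p_Y1_cpow ((r : ℂ) / P.natDegree) r).comp_tendsto hut).trans (huO.pow (r + 1))
  have h2 := ((p_Y1_poly (p_Y1_B P r) r).comp_tendsto hG).trans (hGO.pow (r + 1))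
  refine (h1.add h2).congr' ?_ (Eventually.of_forall fun x => rfl)
  have hMc : (P.natDegree : ℂ) ≠ 0 := by exact_mod_cast (by omega : P.natDegree ≠ 0)
  have hslit : ∀ᶠ x in 𝓝 (0 : ℂ), g x ∈ Complex.slitPlane := by
    apply hg.continuousAt.eventually
    rw [g0]
    exact Complex.isOpen_slitPlane.mem_nhds Complex.one_mem_slitPlane
  have harg : Tendsto (fun x : ℂ => (P.natDegree : ℝ) * Complex.arg (g x)) (𝓝 0) (𝓝 0) := by
    have h3 : ContinuousAt (fun x : ℂ => Complex.arg (g x)) 0 := by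
      have h0 : ContinuousAt Complex.arg (g 0) := by
        rw [g0]
        exact Complex.continuousAt_arg Complex.one_mem_slitPlane
      exact ContinuousAt.comp (g := Complex.arg) (f := g) h0 hg.continuousAt
    have h4 := h3.tendsto.const_mul (P.natDegree : ℝ)
    simpa [g0] using h4
  have harg1 := harg.eventually_lt_const Real.pi_pos
  have harg2 := harg.eventually_const_lt (neg_lt_zero.mpr Real.pi_pos)
  filter_upwards [heq, hslit, harg1, harg2] with x h3 h4 h5 h6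
  simp only [Function.comp_apply]
  have hgx : g x ≠ 0 := Complex.slitPlane_ne_zero h4
  have e1 : (1 : ℂ) + ((p_Y1_A P).eval (x * g x) - 1) = g x ^ P.natDegree := by
    rw [p_Y1_A_eval P hP, h3]
    ring
  have e2 : (g x ^ P.natDegree) ^ ((r : ℂ) / P.natDegree) = g x ^ r := by
    have hlog : Complex.log (g x ^ P.natDegree) = (P.natDegree : ℂ) * Complex.log (g x) := by
      have h7 : g x ^ P.natDegree = Complex.exp ((P.natDegree : ℂ) * Complex.log (g x)) := by
        rw [Complex.exp_nat_mul, Complex.exp_log hgx]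
      have h8 : ((P.natDegree : ℂ) * Complex.log (g x)).im = (P.natDegree : ℝ) * Complex.arg (g x) := by
        rw [Complex.mul_im, Complex.log_im]
        simp
      rw [h7]
      apply Complex.log_exp
      · rw [h8]; exact h6
      · rw [h8]; exact h5.le
    rw [Complex.cpow_def_of_ne_zero (pow_ne_zero _ hgx), hlog]
    have : (P.natDegree : ℂ) * Complex.log (g x) * ((r : ℂ) / P.natDegree) = (r : ℂ) * Complex.log (g x) := by
      field_simp
    rw [this, Complex.exp_nat_mul, Complex.exp_log hgx]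
  have e3 : ∑ i ∈ Finset.range (r + 1), Ring.choose ((r : ℂ) / P.natDegree) i *
      ((p_Y1_A P).eval (x * g x) - 1) ^ i = (p_Y1_B P r).eval (x * g x) := by
    unfold p_Y1_B
    rw [Polynomial.eval_finsetSum]
    refine Finset.sum_congr rfl ?_
    intro i _
    rw [p_Y1_choose]
    simp
  rw [e1, e2, e3]
  have e4 : ∀ j ∈ Finset.range (r + 1), (p_Y1_B P r).coeff j * (x * g x) ^ j =
      (p_Y1_B P r).coeff j * (x ^ j * g x ^ j) := by
    intro j _
    rw [mul_pow]
  rw [Finset.sum_congr rfl e4]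
  ring

theorem p_Y1_coeff (P : ℂ[X]) (g : ℂ → ℂ) (hP : P.coeff 0 = 0) (hM : 1 ≤ P.natDegree)
    (hg : AnalyticAt ℂ g 0) (g0 : g 0 = 1)
    (heq : ∀ᶠ x in 𝓝 (0 : ℂ), g x ^ P.natDegree =
      ∑ j ∈ Finset.Icc 1 P.natDegree, P.coeff j / P.leadingCoeff * (x * g x) ^ (P.natDegree - j))
    (r : ℕ) (hr : 1 ≤ r) :
    PowerSeries.coeff r (p_Y1_T (fun x => Complex.log (g x))) = gam P r := by
  have hslit0 : g 0 ∈ Complex.slitPlane := by rw [g0]; exact Complex.one_mem_slitPlane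
  have hL : AnalyticAt ℂ (fun z => Complex.log (g z)) 0 := hg.clog hslit0
  have hslit : ∀ᶠ x in 𝓝 (0 : ℂ), g x ∈ Complex.slitPlane := by
    apply hg.continuousAt.eventually
    exact Complex.isOpen_slitPlane.mem_nhds hslit0
  have hu : PowerSeries.constantCoeff (p_Y1_T g) = 1 := by
    rw [← PowerSeries.coeff_zero_eq_constantCoeff_apply]
    simp [p_Y1_T, g0]
  have hd : PowerSeries.derivative ℂ (p_Y1_T (fun x => Complex.log (g x))) * p_Y1_T g =
      PowerSeries.derivative ℂ (p_Y1_T g) := by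
    rw [← p_Y1_T_deriv, ← p_Y1_T_deriv, ← p_Y1_T_mul _ _ hL.deriv hg]
    apply p_Y1_T_congr
    filter_upwards [hslit, hg.eventually_analyticAt] with x h1 h2
    have h3 := (h2.differentiableAt.hasDerivAt.clog h1).deriv
    rw [h3]
    have : g x ≠ 0 := Complex.slitPlane_ne_zero h1
    field_simp
  have ha : ∀ k < r + 1, PowerSeries.coeff k (p_Y1_T g ^ r - ∑ j ∈ Finset.range (r + 1),
      PowerSeries.C ((p_Y1_B P r).coeff j) * (PowerSeries.X ^ j * p_Y1_T g ^ j)) = 0 := by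
    have hXan : AnalyticAt ℂ (fun x : ℂ => x) 0 := analyticAt_id
    have han1 : ∀ j : ℕ, AnalyticAt ℂ (fun x : ℂ => x ^ j * g x ^ j) 0 := by
      intro j
      exact (hXan.fun_pow j).fun_mul (hg.fun_pow j)
    have han2 : ∀ j ∈ Finset.range (r + 1), AnalyticAt ℂ (fun x : ℂ => (p_Y1_B P r).coeff j * (x ^ j * g x ^ j)) 0 := by
      intro j _
      exact analyticAt_const.fun_mul (han1 j)
    have han3 : AnalyticAt ℂ (fun x : ℂ => ∑ j ∈ Finset.range (r + 1),
        (p_Y1_B P r).coeff j * (x ^ j * g x ^ j)) 0 := Finset.analyticAt_fun_sum _ han2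
    have hT : p_Y1_T (fun x => g x ^ r - ∑ j ∈ Finset.range (r + 1), (p_Y1_B P r).coeff j * (x ^ j * g x ^ j)) =
        p_Y1_T g ^ r - ∑ j ∈ Finset.range (r + 1),
          PowerSeries.C ((p_Y1_B P r).coeff j) * (PowerSeries.X ^ j * p_Y1_T g ^ j) := by
      rw [p_Y1_T_sub _ _ (hg.fun_pow r) han3, p_Y1_T_pow g hg, p_Y1_T_sum _ _ han2]
      congr 1
      refine Finset.sum_congr rfl ?_
      intro j _
      rw [p_Y1_T_const_mul _ _ (han1 j), p_Y1_T_mul _ _ (hXan.fun_pow j) (hg.fun_pow j),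
        p_Y1_T_pow g hg, p_Y1_T_pow _ hXan, p_Y1_T_X]
    rw [← hT]
    exact p_Y1_T_of_isBigO _ ((hg.fun_pow r).fun_sub han3) (r + 1) (p_Y1_F P g hP hM hg g0 heq r)
  have h := p_Y1_lagrange (p_Y1_T g) (p_Y1_T (fun x => Complex.log (g x))) hu hd r hr
    (fun j => (p_Y1_B P r).coeff j) ha
  have hrc : (r : ℂ) ≠ 0 := by exact_mod_cast (by omega : r ≠ 0)
  rw [p_Y1_gam, ← h]
  field_simp

theorem p_Y1 : S_Y1 := by
  intro P g ρ hP hM hρ han g0 heq R
  have hg : AnalyticAt ℂ g 0 := han 0 (Metric.mem_ball_self hρ)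
  have hslit0 : g 0 ∈ Complex.slitPlane := by rw [g0]; exact Complex.one_mem_slitPlane
  have hL : AnalyticAt ℂ (fun z => Complex.log (g z)) 0 := hg.clog hslit0
  have heq' : ∀ᶠ x in 𝓝 (0 : ℂ), g x ^ P.natDegree =
      ∑ j ∈ Finset.Icc 1 P.natDegree, P.coeff j / P.leadingCoeff * (x * g x) ^ (P.natDegree - j) := by
    filter_upwards [Metric.ball_mem_nhds (0 : ℂ) hρ] with x hx
    exact heq x (by simpa using hx)
  have h := p_Y1_T_expand _ hL (R + 1)
  obtain ⟨C, hC⟩ := h.bound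
  rw [Metric.eventually_nhds_iff_ball] at hC
  obtain ⟨ε, hε, hC⟩ := hC
  refine ⟨C, ε / 2, by positivity, ?_⟩
  intro x hx
  have h1 := hC x (by rw [Metric.mem_ball, dist_zero_right]; linarith)
  rw [norm_pow] at h1
  refine le_trans (le_of_eq ?_) h1
  congr 2
  rw [Finset.range_eq_Ico, Finset.sum_eq_sum_Ico_succ_bot (by omega)]
  have h0 : PowerSeries.coeff 0 (p_Y1_T (fun x => Complex.log (g x))) = 0 := by
    simp [p_Y1_T, g0]
  rw [h0, zero_mul, zero_add]
  have hIcc : Finset.Ico (0 + 1) (R + 1) = Finset.Icc 1 R := by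
    ext y
    simp only [Finset.mem_Ico, Finset.mem_Icc]
    omega
  rw [hIcc]
  refine Finset.sum_congr rfl ?_
  intro r hr
  rw [Finset.mem_Icc] at hr
  rw [p_Y1_coeff P g hP hM hg g0 heq' r hr.1]

end HillRoots
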