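import Pool.Agent.Lib.MP_e63cf8_mp.StmC
import Pool.Agent.Lib.MP_e63cf8_mp.StmD

open Polynomial Filter Topology MeasureTheory Asymptotics

namespace HillRoots

/-- the derivative of `g` at `0` -/
theorem p_X12_deriv (P : ℂ[X]) (c : ℂ) (g : ℂ → ℂ) (τ₀ K δ : ℝ) (hM : 2 ≤ P.natDegree)
    (hB : Branch P c g τ₀ K δ) :
    AnalyticAt ℂ g 0 ∧
      HasDerivAt g (P.coeff (P.natDegree - 1) / (P.natDegree * P.leadingCoeff)) 0 := by
  obtain ⟨r, hr, han⟩ := hB.an
  have hτ : 0 < τ₀ := hB.ld.ht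
  have hc : 0 < ‖c‖ := norm_pos_iff.mpr hB.c0
  have hcτ : 0 < ‖c‖ * τ₀ := mul_pos hc hτ
  have hr0 : 0 < r := lt_trans hcτ hr
  have hg : AnalyticAt ℂ g 0 := han 0 (Metric.mem_ball_self hr0)
  refine ⟨hg, ?_⟩
  have hd : HasDerivAt g (deriv g 0) 0 := hg.differentiableAt.hasDerivAt
  set d := deriv g 0 with hdd
  set M := P.natDegree with hMM
  have hlead : P.leadingCoeff ≠ 0 := by
    rw [Polynomial.leadingCoeff_ne_zero]
    intro h
    rw [h] at hMM
    simp at hMM
    omega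
  have hF : HasDerivAt (fun x => g x ^ M) ((M : ℂ) * g 0 ^ (M - 1) * d) 0 := hd.fun_pow M
  have hxg : HasDerivAt (fun x : ℂ => x * g x) (1 * g 0 + 0 * d) 0 := by
    simpa using (hasDerivAt_id (0 : ℂ)).fun_mul hd
  have hS : HasDerivAt (fun x : ℂ => ∑ j ∈ Finset.Icc 1 M, P.coeff j / P.leadingCoeff * (x * g x) ^ (M - j))
      (∑ j ∈ Finset.Icc 1 M, P.coeff j / P.leadingCoeff *
        (((M - j : ℕ) : ℂ) * ((0 : ℂ) * g 0) ^ (M - j - 1) * (1 * g 0 + 0 * d))) 0 := by
    refine HasDerivAt.fun_sum ?_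
    intro j _
    exact (hxg.fun_pow (M - j)).const_mul _
  have hev : (fun x => g x ^ M) =ᶠ[𝓝 (0 : ℂ)]
      (fun x : ℂ => ∑ j ∈ Finset.Icc 1 M, P.coeff j / P.leadingCoeff * (x * g x) ^ (M - j)) := by
    filter_upwards [Metric.ball_mem_nhds (0 : ℂ) hcτ] with x hx
    exact hB.eqn x (by simpa using (Metric.mem_ball.mp hx).le)
  have huniq := (hS.congr_of_eventuallyEq hev).unique hF
  have hsum : (∑ j ∈ Finset.Icc 1 M, P.coeff j / P.leadingCoeff *
        (((M - j : ℕ) : ℂ) * ((0 : ℂ) * g 0) ^ (M - j - 1) * (1 * g 0 + 0 * d))) =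
      P.coeff (M - 1) / P.leadingCoeff := by
    rw [Finset.sum_eq_single (M - 1)]
    · have h1 : M - (M - 1) = 1 := by omega
      rw [h1]
      simp [hB.one]
    · intro j hj hne
      rw [Finset.mem_Icc] at hj
      rcases Nat.lt_or_ge j (M - 1) with h | h
      · have h2 : M - j - 1 ≠ 0 := by omega
        simp [h2]
      · have h3 : j = M := by omega
        rw [h3]
        simp
    · intro h
      exfalso
      apply h
      rw [Finset.mem_Icc]
      omega
  rw [hsum, hB.one] at huniq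
  have hMne : (M : ℂ) ≠ 0 := by
    exact_mod_cast (by omega : M ≠ 0)
  have : d = P.coeff (M - 1) / (M * P.leadingCoeff) := by
    field_simp
    field_simp at huniq
    linear_combination -huniq
  rw [← this]
  exact hd

/-- first order expansion of `log |g|` -/
theorem p_X12_exp (g : ℂ → ℂ) (hg : AnalyticAt ℂ g 0) (g0 : g 0 = 1) (d : ℂ) (hd : HasDerivAt g d 0)
    (x : ℂ) :
    (fun t : ℝ => Real.log ‖g (x * t)‖ - t * (d * x).re) =O[𝓝 0] (fun t : ℝ => t ^ 2) := by
  have hslit : g 0 ∈ Complex.slitPlane := by rw [g0]; exact Complex.one_mem_slitPlane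
  have hh : AnalyticAt ℂ (fun z => Complex.log (g z)) 0 := hg.clog hslit
  have hhd : HasDerivAt (fun z => Complex.log (g z)) d 0 := by
    have := hd.clog hslit
    simpa [g0] using this
  obtain ⟨p, hp⟩ := hh
  have hO := hp.isBigO_sub_partialSum_pow 2
  have hp1 : p 1 (fun _ => (1 : ℂ)) = d := hp.hasDerivAt.unique hhd
  have hps : ∀ y : ℂ, p.partialSum 2 y = d * y := by
    intro y
    rw [FormalMultilinearSeries.partialSum, Finset.sum_range_succ, Finset.sum_range_one,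
      hp.coeff_zero, p.apply_eq_pow_smul_coeff]
    have : p.coeff 1 = d := by
      rw [← hp1]; rfl
    rw [this]
    simp [g0, mul_comm]
  have hlin : Tendsto (fun t : ℝ => x * (t : ℂ)) (𝓝 0) (𝓝 0) := by
    have : Continuous (fun t : ℝ => x * (t : ℂ)) := by fun_prop
    simpa using this.tendsto 0
  have hO2 := hO.comp_tendsto hlin
  have hO3 : (fun t : ℝ => Complex.log (g (x * t)) - d * (x * t)) =O[𝓝 0] (fun t : ℝ => t ^ 2) := by
    have hA1 : (fun t : ℝ => Complex.log (g (x * t)) - d * (x * t)) =O[𝓝 0]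
        (fun t : ℝ => ‖x * (t : ℂ)‖ ^ 2) := by
      refine hO2.congr ?_ ?_
      · intro t
        simp only [Function.comp_apply, zero_add]
        rw [hps]
      · intro t
        rfl
    have hA2 : (fun t : ℝ => ‖x * (t : ℂ)‖ ^ 2) =O[𝓝 0] (fun t : ℝ => t ^ 2) := by
      refine IsBigO.of_bound (‖x‖ ^ 2) (Eventually.of_forall ?_)
      intro t
      rw [norm_mul, Complex.norm_real, mul_pow]
      simp
    exact hA1.trans hA2
  refine IsBigO.trans ?_ hO3
  refine IsBigO.of_bound 1 (Eventually.of_forall ?_)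
  intro t
  rw [one_mul]
  have : Real.log ‖g (x * t)‖ - t * (d * x).re =
      (Complex.log (g (x * t)) - d * (x * t)).re := by
    rw [Complex.sub_re, Complex.log_re]
    congr 1
    have : d * (x * (t : ℂ)) = (t : ℂ) * (d * x) := by ring
    rw [this, Complex.re_ofReal_mul]
  rw [this, Real.norm_eq_abs]
  exact Complex.abs_re_le_norm _

theorem p_X12_om (M : ℕ) (l : ℕ) : ‖om M ^ l‖ = 1 := by
  rw [norm_pow]
  have : ‖om M‖ = 1 := by
    unfold om
    rw [Complex.norm_exp]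
    have : (2 * (Real.pi : ℂ) * Complex.I / (M : ℂ)).re = 0 := by
      rw [Complex.div_natCast_re]
      simp
    rw [this, Real.exp_zero]
  rw [this, one_pow]

theorem p_X12_brnorm (M : ℕ) (c : ℂ) (g : ℂ → ℂ) (l : ℕ) (t : ℝ) :
    ‖br M c g l t‖ = ‖g (c * om M ^ l * t)‖ := by
  unfold br
  rw [norm_mul, p_X12_om, one_mul]

/-- `muP` is the first order coefficient of the dominating branch -/
theorem p_X12_mu (P : ℂ[X]) (c : ℂ) (g : ℂ → ℂ) (τ₀ K δ : ℝ) (hM : 2 ≤ P.natDegree)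
    (hB : Branch P c g τ₀ K δ) :
    (P.coeff (P.natDegree - 1) / (P.natDegree * P.leadingCoeff) * c).re = muP P / P.natDegree := by
  obtain ⟨hg, hd⟩ := p_X12_deriv P c g τ₀ K δ hM hB
  set d := P.coeff (P.natDegree - 1) / (P.natDegree * P.leadingCoeff) with hdd
  set M := P.natDegree with hMM
  have hτ : 0 < τ₀ := hB.ld.ht
  have hM0 : M ≠ 0 := by omega
  have hMR : (0 : ℝ) < M := by exact_mod_cast Nat.pos_of_ne_zero hM0
  have hlead : P.leadingCoeff ≠ 0 := by
    rw [Polynomial.leadingCoeff_ne_zero]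
    intro h
    rw [h] at hMM
    simp at hMM
    omega
  -- limits
  have hlim : ∀ x : ℂ, Tendsto (fun t : ℝ => Real.log ‖g (x * t)‖ / t) (𝓝[>] 0) (𝓝 (d * x).re) := by
    intro x
    have hO := (p_X12_exp g hg hB.one d hd x).mono (nhdsWithin_le_nhds (s := Set.Ioi 0))
    have h1 : (fun t : ℝ => Real.log ‖g (x * t)‖ / t - (d * x).re) =O[𝓝[>] 0] (fun t : ℝ => t) := by
      have h2 := hO.mul (isBigO_refl (fun t : ℝ => t⁻¹) (𝓝[>] 0))
      refine h2.congr' ?_ ?_
      · filter_upwards [self_mem_nhdsWithin] with t ht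
        have ht' : t ≠ 0 := ne_of_gt ht
        field_simp
      · filter_upwards [self_mem_nhdsWithin] with t ht
        have ht' : t ≠ 0 := ne_of_gt ht
        field_simp
    have h3 : Tendsto (fun t : ℝ => t) (𝓝[>] 0) (𝓝 0) := tendsto_nhdsWithin_of_tendsto_nhds tendsto_id
    have h4 := h1.trans_tendsto h3
    have h5 := h4.add_const ((d * x).re)
    simpa using h5
  have hle : ∀ l < M, (d * (c * om M ^ l)).re ≤ (d * c).re := by
    intro l hl
    have ha := hlim (c * om M ^ l)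
    have hb := hlim c
    refine le_of_tendsto_of_tendsto ha hb ?_
    have hnear : ∀ x : ℂ, ∀ᶠ t : ℝ in 𝓝[>] 0, 0 < ‖g (x * t)‖ := by
      intro x
      have hcont : ContinuousAt (fun t : ℝ => ‖g (x * (t : ℂ))‖) 0 := by
        have h1 : ContinuousAt g (x * ((0 : ℝ) : ℂ)) := by
          simpa using hg.continuousAt
        have h2 : ContinuousAt (fun t : ℝ => x * (t : ℂ)) 0 := by fun_prop
        exact (ContinuousAt.comp (f := fun t : ℝ => x * (t : ℂ)) h1 h2).norm
      have h3 : (0 : ℝ) < ‖g (x * ((0 : ℝ) : ℂ))‖ := by simp [hB.one]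
      exact (hcont.eventually_const_lt h3).filter_mono nhdsWithin_le_nhds
    have hIoo : Set.Ioc (0 : ℝ) τ₀ ∈ 𝓝[>] (0 : ℝ) := Ioc_mem_nhdsGT hτ
    filter_upwards [self_mem_nhdsWithin, hIoo, hnear (c * om M ^ l), hnear c] with t ht htI h1 h2
    have hdom := hB.ld.dom l hl t ⟨htI.1.le, htI.2⟩
    rw [p_X12_brnorm, p_X12_brnorm] at hdom
    have : c * om M ^ 0 = c := by simp
    rw [this] at hdom
    have ht0 : (0 : ℝ) < t := ht
    exact div_le_div_of_nonneg_right (Real.log_le_log h1 hdom) ht0.le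
  -- the maximum
  have hdc : ∀ x : ℂ, (d * x).re * M = (x * P.coeff (M - 1) / P.leadingCoeff).re := by
    intro x
    have : x * P.coeff (M - 1) / P.leadingCoeff = ((M : ℝ) : ℂ) * (d * x) := by
      rw [hdd]
      have : ((M : ℝ) : ℂ) ≠ 0 := by exact_mod_cast hM0
      push_cast
      have hMc : (M : ℂ) ≠ 0 := by exact_mod_cast hM0
      field_simp
    rw [this, Complex.re_ofReal_mul, mul_comm]
  have hgr : IsGreatest {x : ℝ | ∃ c : ℂ, c ^ P.natDegree = P.leadingCoeff ∧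
      x = (c * P.coeff (P.natDegree - 1) / P.leadingCoeff).re} ((d * c).re * M) := by
    constructor
    · exact ⟨c, hB.hc, hdc c⟩
    · rintro x ⟨c', hc', rfl⟩
      have hpr : IsPrimitiveRoot (om M) M := by
        unfold om
        exact Complex.isPrimitiveRoot_exp M hM0
      have hone : (c' / c) ^ M = 1 := by
        rw [div_pow]
        rw [← hMM] at hc'
        have := hB.hc
        rw [← hMM] at this
        rw [hc', this, div_self hlead]
      have : NeZero M := ⟨hM0⟩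
      obtain ⟨l, hl, hlc⟩ := hpr.eq_pow_of_pow_eq_one hone
      have hcc : c' = c * om M ^ l := by
        rw [hlc]
        field_simp [hB.c0]
      rw [← hMM, ← hdc, hcc]
      exact mul_le_mul_of_nonneg_right (hle l hl) hMR.le
  have : muP P = (d * c).re * M := hgr.csSup_eq
  rw [this]
  field_simp

/-- the expansion of `log (rmin P / rmin Q)` -/
theorem p_X12_main (hR3 : S_R3) (hR5 : S_R5) (P Q : ℂ[X]) (hP : P.coeff 0 = 0) (hQ : Q.coeff 0 = 0)
    (hPQ : P.natDegree = Q.natDegree) (hM : 2 ≤ P.natDegree) :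
    ∃ A : ℝ, (A = 0 ↔ ‖P.leadingCoeff‖ = ‖Q.leadingCoeff‖) ∧
      (fun E : ℝ => Real.log (rmin P E / rmin Q E) - A -
        E ^ (-(1 / (P.natDegree : ℝ))) * ((muP Q - muP P) / P.natDegree)) =O[atTop]
        (fun E : ℝ => (E ^ (-(1 / (P.natDegree : ℝ)))) ^ 2) := by
  obtain ⟨c, g, τ₀, K, δ, hB⟩ := hR3 P (by omega)
  obtain ⟨c', g', τ₀', K', δ', hB'⟩ := hR3 Q (by omega)
  obtain ⟨hg, hd⟩ := p_X12_deriv P c g τ₀ K δ hM hB
  obtain ⟨hg', hd'⟩ := p_X12_deriv Q c' g' τ₀' K' δ' (by omega) hB'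
  have hmu := p_X12_mu P c g τ₀ K δ hM hB
  have hmu' := p_X12_mu Q c' g' τ₀' K' δ' (by omega) hB'
  have he := p_X12_exp g hg hB.one _ hd c
  have he' := p_X12_exp g' hg' hB'.one _ hd' c'
  rw [hmu] at he
  rw [hmu', ← hPQ] at he'
  set M := P.natDegree with hMM
  have hMR : (0 : ℝ) < M := by exact_mod_cast (by omega : 0 < M)
  have hc : 0 < ‖c‖ := norm_pos_iff.mpr hB.c0
  have hc' : 0 < ‖c'‖ := norm_pos_iff.mpr hB'.c0
  have ht : Tendsto (fun E : ℝ => E ^ (-(1 / (M : ℝ)))) atTop (𝓝 0) :=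
    tendsto_rpow_neg_atTop (by positivity)
  refine ⟨Real.log ‖c'‖ - Real.log ‖c‖, ?_, ?_⟩
  · rw [← hB.hc, ← hB'.hc, norm_pow, norm_pow, ← hPQ, ← hMM]
    constructor
    · intro h
      have h1 : Real.log ‖c'‖ = Real.log ‖c‖ := by linarith
      have h2 : ‖c'‖ = ‖c‖ := Real.log_injOn_pos (Set.mem_Ioi.mpr hc') (Set.mem_Ioi.mpr hc) h1
      rw [h2]
    · intro h
      have h2 : ‖c‖ = ‖c'‖ := (pow_left_inj₀ hc.le hc'.le (by omega)).mp h
      rw [h2]; ring
  · have h1 := he'.comp_tendsto ht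
    have h2 := he.comp_tendsto ht
    have h3 := h1.sub h2
    refine h3.congr' ?_ (Eventually.of_forall fun E => rfl)
    have hn : ∀ᶠ E : ℝ in atTop, E ^ (-(1 / (M : ℝ))) ∈ Set.Icc 0 τ₀ := by
      filter_upwards [ht.eventually_lt_const hB.ld.ht, eventually_gt_atTop 0] with E h1 h2
      exact ⟨Real.rpow_nonneg h2.le _, h1.le⟩
    have hn' : ∀ᶠ E : ℝ in atTop, E ^ (-(1 / (M : ℝ))) ∈ Set.Icc 0 τ₀' := by
      filter_upwards [ht.eventually_lt_const hB'.ld.ht, eventually_gt_atTop 0] with E h1 h2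
      exact ⟨Real.rpow_nonneg h2.le _, h1.le⟩
    have hr := hR5 P c g τ₀ K δ hP hB
    have hr' := hR5 Q c' g' τ₀' K' δ' hQ hB'
    filter_upwards [hr, hr', hn, hn', eventually_gt_atTop 0] with E h4 h5 h6 h7 h8
    simp only [Function.comp_apply]
    rw [← hMM] at h4
    rw [← hPQ] at h5
    rw [h4, h5]
    set t := E ^ (-(1 / (M : ℝ))) with htt
    have ht0 : 0 < t := Real.rpow_pos_of_pos h8 _
    have hl := hB.ld.low 0 (by have := hB.ld.hM; omega) t h6
    have hl' := hB'.ld.low 0 (by have := hB'.ld.hM; omega) t h7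
    rw [← hMM] at hl
    rw [← hPQ] at hl'
    have e1 : ‖g (c * t)‖ = ‖br M c g 0 t‖ := by rw [p_X12_brnorm]; simp
    have e2 : ‖g' (c' * t)‖ = ‖br M c' g' 0 t‖ := by rw [p_X12_brnorm]; simp
    rw [e1, e2]
    have p1 : 0 < ‖br M c g 0 t‖ := by linarith
    have p2 : 0 < ‖br M c' g' 0 t‖ := by linarith
    rw [Real.log_div (by positivity) (by positivity), Real.log_inv, Real.log_inv,
      Real.log_mul (by positivity) (by positivity), Real.log_mul (by positivity) (by positivity),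
      Real.log_mul (by positivity) (by positivity), Real.log_mul (by positivity) (by positivity)]
    ring

theorem p_X12 (hR3 : S_R3) (hR5 : S_R5) : S_X12 := by
  intro P Q hP hQ hPQ hM hC
  obtain ⟨A, hA, hO⟩ := p_X12_main hR3 hR5 P Q hP hQ hPQ (by omega)
  have hMR : (0 : ℝ) < P.natDegree := by exact_mod_cast (by omega : 0 < P.natDegree)
  have hM3 : (3 : ℝ) ≤ P.natDegree := by exact_mod_cast hM
  have ht : Tendsto (fun E : ℝ => E ^ (-(1 / (P.natDegree : ℝ)))) atTop (𝓝 0) :=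
    tendsto_rpow_neg_atTop (by positivity)
  unfold Crit at hC
  have hhalf : Tendsto (fun E : ℝ => E ^ (-(1 / 2) : ℝ)) atTop (𝓝 0) :=
    tendsto_rpow_neg_atTop (by norm_num)
  have hL0 := hC.trans_tendsto hhalf
  have hD0 := hO.trans_tendsto (by simpa using ht.pow 2)
  have hA0 : A = 0 := by
    have h1 := (hL0.sub hD0).sub (ht.mul_const ((muP Q - muP P) / P.natDegree))
    have h2 : Tendsto (fun _ : ℝ => A) atTop (𝓝 (0 - 0 - 0 * ((muP Q - muP P) / P.natDegree))) := by
      refine h1.congr ?_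
      intro E
      ring
    have := tendsto_nhds_unique h2 tendsto_const_nhds
    simpa using this.symm
  refine ⟨hA.mp hA0, ?_⟩
  set B := (muP Q - muP P) / P.natDegree with hBdef
  -- divide by `t`
  have hinv : ∀ᶠ E : ℝ in atTop, (E ^ (-(1 / (P.natDegree : ℝ))))⁻¹ = E ^ (1 / (P.natDegree : ℝ)) := by
    filter_upwards [eventually_gt_atTop 0] with E hE
    rw [Real.rpow_neg hE.le, inv_inv]
  have h1 := hC.mul (isBigO_refl (fun E : ℝ => (E ^ (-(1 / (P.natDegree : ℝ))))⁻¹) atTop)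
  have h2 : Tendsto (fun E : ℝ => E ^ (-(1 / 2) : ℝ) * (E ^ (-(1 / (P.natDegree : ℝ))))⁻¹) atTop (𝓝 0) := by
    have h3 : Tendsto (fun E : ℝ => E ^ (-(1 / 2 - 1 / (P.natDegree : ℝ)))) atTop (𝓝 0) := by
      apply tendsto_rpow_neg_atTop
      have : 1 / (P.natDegree : ℝ) ≤ 1 / 3 := one_div_le_one_div_of_le (by norm_num) hM3
      linarith
    refine h3.congr' ?_
    filter_upwards [hinv, eventually_gt_atTop 0] with E hE hE0
    rw [hE, ← Real.rpow_add hE0]
    congr 1
    ring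
  have h3 := h1.trans_tendsto h2
  have h4 := hO.mul (isBigO_refl (fun E : ℝ => (E ^ (-(1 / (P.natDegree : ℝ))))⁻¹) atTop)
  have h5 : Tendsto (fun E : ℝ => (E ^ (-(1 / (P.natDegree : ℝ)))) ^ 2 *
      (E ^ (-(1 / (P.natDegree : ℝ))))⁻¹) atTop (𝓝 0) := by
    refine ht.congr' ?_
    filter_upwards [eventually_gt_atTop 0] with E hE0
    have : E ^ (-(1 / (P.natDegree : ℝ))) ≠ 0 := (Real.rpow_pos_of_pos hE0 _).ne'
    field_simp
  have h6 := h4.trans_tendsto h5
  have h7 := h3.sub h6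
  have h8 : Tendsto (fun _ : ℝ => B) atTop (𝓝 (0 - 0)) := by
    refine h7.congr' ?_
    filter_upwards [eventually_gt_atTop 0] with E hE0
    have : E ^ (-(1 / (P.natDegree : ℝ))) ≠ 0 := (Real.rpow_pos_of_pos hE0 _).ne'
    rw [hA0]
    field_simp
    ring
  have hB0 : B = 0 := by
    have := tendsto_nhds_unique h8 tendsto_const_nhds
    simpa using this.symm
  rw [hBdef, div_eq_zero_iff] at hB0
  rcases hB0 with h | h
  · linarith
  · exact absurd h hMR.ne'

end HillRoots
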