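import Pool.Agent.Lib.MP_e63cf8_mp.StmF
import Pool.Agent.Lib.MP_e63cf8_mp.P.X12

open Polynomial Filter Topology MeasureTheory Asymptotics

namespace HillRoots

theorem p_Y2 (hY1 : S_Y1) : S_Y2 := by
  intro P c g τ₀ K δ hP hB
  have hτ : 0 < τ₀ := hB.ld.ht
  have hc : 0 < ‖c‖ := norm_pos_iff.mpr hB.c0
  have hcτ : 0 < ‖c‖ * τ₀ := mul_pos hc hτ
  obtain ⟨r, hr, han⟩ := hB.an
  have han' : AnalyticOnNhd ℂ g (Metric.ball 0 (‖c‖ * τ₀)) :=
    han.mono (Metric.ball_subset_ball hr.le)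
  obtain ⟨C, r₀, hr₀, h⟩ := hY1 P g (‖c‖ * τ₀) hP hB.ld.hM hcτ han' hB.one
    (fun x hx => hB.eqn x hx.le) ((P.natDegree - 1) / 2)
  refine ⟨C * ‖c‖ ^ ((P.natDegree - 1) / 2 + 1), r₀ / ‖c‖, by positivity, ?_⟩
  intro l _ t ht
  have hx : ‖c * om P.natDegree ^ l * (t : ℂ)‖ = ‖c‖ * t := by
    rw [norm_mul, norm_mul, p_X12_om, mul_one, Complex.norm_real, Real.norm_eq_abs,
      abs_of_nonneg ht.1]
  have hxr : ‖c * om P.natDegree ^ l * (t : ℂ)‖ ≤ r₀ := by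
    rw [hx]
    have := ht.2
    rw [le_div_iff₀ hc] at this
    linarith
  have h1 := h _ hxr
  rw [hx, mul_pow] at h1
  rw [p_X12_brnorm]
  have e : Real.log ‖g (c * om P.natDegree ^ l * t)‖ -
      ∑ r ∈ Finset.Icc 1 ((P.natDegree - 1) / 2), (gam P r * (c * om P.natDegree ^ l) ^ r).re * t ^ r =
      (Complex.log (g (c * om P.natDegree ^ l * t)) - ∑ r ∈ Finset.Icc 1 ((P.natDegree - 1) / 2),
        gam P r * (c * om P.natDegree ^ l * t) ^ r).re := by
    rw [Complex.sub_re, Complex.log_re, Complex.re_sum]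
    congr 1
    refine Finset.sum_congr rfl ?_
    intro r _
    have : gam P r * (c * om P.natDegree ^ l * (t : ℂ)) ^ r =
        gam P r * (c * om P.natDegree ^ l) ^ r * ((t ^ r : ℝ) : ℂ) := by
      push_cast
      ring
    rw [this, Complex.re_mul_ofReal]
  rw [e]
  refine le_trans (Complex.abs_re_le_norm _) (le_trans h1 (le_of_eq ?_))
  ring

end HillRoots
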