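import Pool.Agent.Lib.MP_e63cf8_mp.StmF
import Pool.Agent.Lib.MP_e63cf8_mp.P.X12

open Polynomial Filter Topology MeasureTheory Asymptotics

namespace HillRoots

/-- sign of the first coefficient -/
theorem p_Y3_sign (e : ℕ → ℝ) (R i : ℕ) (hi : i ≤ R) (h0 : ∀ r < i, e r = 0) (h : ℝ → ℝ)
    (hh : Tendsto (fun t => h t / t ^ i) (𝓝[>] 0) (𝓝 0))
    (hle : ∀ᶠ t in 𝓝[>] (0 : ℝ), ∑ r ∈ Finset.range (R + 1), e r * t ^ r ≤ h t) : e i ≤ 0 := by
  have hq : Tendsto (fun t : ℝ => ∑ r ∈ Finset.range (R + 1), e r * t ^ (r - i)) (𝓝[>] 0) (𝓝 (e i)) := by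
    have hc : Continuous (fun t : ℝ => ∑ r ∈ Finset.range (R + 1), e r * t ^ (r - i)) := by fun_prop
    have h1 := (hc.tendsto 0).mono_left (nhdsWithin_le_nhds (s := Set.Ioi 0))
    have h2 : ∑ r ∈ Finset.range (R + 1), e r * (0 : ℝ) ^ (r - i) = e i := by
      rw [Finset.sum_eq_single i]
      · simp
      · intro r _ hne
        rcases Nat.lt_or_ge r i with h3 | h3
        · rw [h0 r h3]; simp
        · have : r - i ≠ 0 := by omega
          simp [this]
      · intro h3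
        exact absurd (Finset.mem_range.mpr (by omega)) h3
    rw [h2] at h1
    exact h1
  refine le_of_tendsto_of_tendsto hq hh ?_
  filter_upwards [hle, self_mem_nhdsWithin] with t h1 h2
  have ht : (0 : ℝ) < t := h2
  rw [le_div_iff₀ (by positivity), Finset.sum_mul]
  refine le_trans (le_of_eq ?_) h1
  refine Finset.sum_congr rfl ?_
  intro r _
  rcases Nat.lt_or_ge r i with h3 | h3
  · rw [h0 r h3]; simp
  · rw [mul_assoc, ← pow_add, Nat.sub_add_cancel h3]

/-- the roots of `c' ^ M = c ^ M` -/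
theorem p_Y3_roots (M : ℕ) (hM : M ≠ 0) (c c' : ℂ) (hc : c ≠ 0) (h : c' ^ M = c ^ M) :
    ∃ l < M, c' = c * om M ^ l := by
  have hpr : IsPrimitiveRoot (om M) M := by
    unfold om
    exact Complex.isPrimitiveRoot_exp M hM
  have hone : (c' / c) ^ M = 1 := by
    rw [div_pow, h, div_self (pow_ne_zero _ hc)]
  have : NeZero M := ⟨hM⟩
  obtain ⟨l, hl, hlc⟩ := hpr.eq_pow_of_pow_eq_one hone
  refine ⟨l, hl, ?_⟩
  rw [hlc]
  field_simp

theorem p_Y3 (hY2 : S_Y2) : S_Y3 := by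
  intro P c g τ₀ K δ hP hB
  obtain ⟨C, t₀, ht₀, h⟩ := hY2 P c g τ₀ K δ hP hB
  refine ⟨hB.hc, ?_⟩
  intro c' hc'
  have hM1 : 1 ≤ P.natDegree := hB.ld.hM
  obtain ⟨l, hl, hcl⟩ := p_Y3_roots P.natDegree (by omega) c c' hB.c0 (by rw [hc', hB.hc])
  by_contra hcon
  rw [not_le] at hcon
  obtain ⟨i, hi1, hi2⟩ := hcon
  obtain ⟨iN, hiN⟩ := i
  have hi1' : ∀ j : ℕ, j < iN →
      (gam P (j + 1) * c ^ (j + 1)).re = (gam P (j + 1) * c' ^ (j + 1)).re := by
    intro j hj
    exact hi1 ⟨j, lt_trans hj hiN⟩ hj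
  have hi2' : (gam P (iN + 1) * c ^ (iN + 1)).re < (gam P (iN + 1) * c' ^ (iN + 1)).re := hi2
  clear hi1 hi2
  obtain ⟨R, hR⟩ : ∃ R, R = (P.natDegree - 1) / 2 := ⟨_, rfl⟩
  rw [← hR] at hiN h
  set e : ℕ → ℝ := fun r => if r = 0 then 0 else (gam P r * c' ^ r).re - (gam P r * c ^ r).re with he
  have hiR : iN + 1 ≤ R := hiN
  have hei : e (iN + 1) ≤ 0 := by
    refine p_Y3_sign e R (iN + 1) hiR ?_ (fun t => 2 * |C| * t ^ (R + 1)) ?_ ?_
    · intro r hr
      rcases Nat.eq_zero_or_pos r with h0 | h0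
      · simp [he, h0]
      · have := hi1' (r - 1) (by omega)
        rw [Nat.sub_add_cancel h0] at this
        simp only [he]
        rw [if_neg (by omega), this]
        ring
    · have hc : Continuous (fun t : ℝ => 2 * |C| * t ^ (R + 1 - (iN + 1))) := by fun_prop
      have h1 := (hc.tendsto 0).mono_left (nhdsWithin_le_nhds (s := Set.Ioi 0))
      have h2 : R + 1 - (iN + 1) ≠ 0 := by omega
      rw [zero_pow h2, mul_zero] at h1
      refine h1.congr' ?_
      filter_upwards [self_mem_nhdsWithin] with t ht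
      have ht : (0 : ℝ) < t := ht
      rw [eq_div_iff (by positivity), mul_assoc, ← pow_add]
      congr 2
      omega
    · have hI1 : Set.Ioc (0 : ℝ) t₀ ∈ 𝓝[>] (0 : ℝ) := Ioc_mem_nhdsGT ht₀
      have hI2 : Set.Ioc (0 : ℝ) τ₀ ∈ 𝓝[>] (0 : ℝ) := Ioc_mem_nhdsGT hB.ld.ht
      filter_upwards [hI1, hI2] with t h1 h2
      have ha := h l hl t ⟨h1.1.le, h1.2⟩
      have hb := h 0 (by omega) t ⟨h1.1.le, h1.2⟩
      have hdom := hB.ld.dom l hl t ⟨h2.1.le, h2.2⟩
      have hlow := hB.ld.low l hl t ⟨h2.1.le, h2.2⟩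
      have hlog : Real.log ‖br P.natDegree c g l t‖ ≤ Real.log ‖br P.natDegree c g 0 t‖ :=
        Real.log_le_log (by linarith) hdom
      have e1 : ∑ r ∈ Finset.range (R + 1), e r * t ^ r =
          ∑ r ∈ Finset.Icc 1 R, (gam P r * (c * om P.natDegree ^ l) ^ r).re * t ^ r -
          ∑ r ∈ Finset.Icc 1 R, (gam P r * (c * om P.natDegree ^ 0) ^ r).re * t ^ r := by
        rw [← Finset.sum_sub_distrib, Finset.range_eq_Ico, Finset.sum_eq_sum_Ico_succ_bot (by omega)]
        have : e 0 = 0 := by simp [he]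
        rw [this, zero_mul, zero_add]
        have hIcc : Finset.Ico (0 + 1) (R + 1) = Finset.Icc 1 R := by
          ext x
          simp only [Finset.mem_Ico, Finset.mem_Icc]
          omega
        rw [hIcc]
        refine Finset.sum_congr rfl ?_
        intro r hr
        rw [Finset.mem_Icc] at hr
        simp only [he]
        rw [if_neg (by omega), ← hcl, pow_zero, mul_one]
        ring
      rw [e1]
      have hCa : C * t ^ (R + 1) ≤ |C| * t ^ (R + 1) :=
        mul_le_mul_of_nonneg_right (le_abs_self C) (pow_nonneg h1.1.le _)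
      have := (abs_le.mp ha).1
      have := (abs_le.mp hb).2
      linarith
  simp only [he] at hei
  rw [if_neg (by omega)] at hei
  linarith

end HillRoots
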