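import Pool.Agent.Lib.MP_e63cf8_mp.StmF

/-!
Piece [e63 Y4]: the criterion in terms of the expansions of the dominating branches.
-/

open Polynomial Filter Topology MeasureTheory Asymptotics

namespace HillRoots

theorem p_Y4_asym (M R : ℕ) (hM : 1 ≤ M) (hR1 : 2 * R < M) (hR2 : M ≤ 2 * (R + 1)) (u : ℝ → ℝ)
    (d : ℕ → ℝ) (C : ℝ)
    (hu : ∀ᶠ E : ℝ in atTop, |u E - ∑ s ∈ Finset.range (R + 1), d s * (E ^ (-(1 / (M : ℝ)))) ^ s| ≤
      C * (E ^ (-(1 / (M : ℝ)))) ^ (R + 1)) :
    (u =O[atTop] fun E : ℝ => E ^ (-(1 / 2) : ℝ)) ↔ ∀ s ≤ R, d s = 0 := by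
  have hM0 : (0 : ℝ) < M := by exact_mod_cast hM
  have ht0 : Tendsto (fun E : ℝ => E ^ (-(1 / (M : ℝ)))) atTop (𝓝 0) :=
    tendsto_rpow_neg_atTop (by positivity)
  constructor
  · intro hO s
    induction s using Nat.strong_induction_on with
    | _ r ih =>
    intro hr
    have hd : ∀ s < r, d s = 0 := fun s hs => ih s hs (by omega)
    -- the quotient by the power of t tends to d r
    have hsum : Tendsto (fun E : ℝ => ∑ s ∈ Finset.range (R + 1),
        d s * (E ^ (-(1 / (M : ℝ)))) ^ (s - r)) atTop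
        (𝓝 (∑ s ∈ Finset.range (R + 1), if s = r then d r else 0)) := by
      apply tendsto_finsetSum
      intro s _
      rcases lt_trichotomy s r with h | h | h
      · rw [if_neg h.ne, hd s h]
        simp
      · subst h
        simp
      · rw [if_neg h.ne']
        have h1 := (ht0.pow (s - r)).const_mul (d s)
        rw [zero_pow (by omega), mul_zero] at h1
        exact h1
    have hlim : (∑ s ∈ Finset.range (R + 1), if s = r then d r else 0) = d r := by
      rw [Finset.sum_ite_eq' (Finset.range (R + 1)) r (fun _ => d r), if_pos]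
      exact Finset.mem_range.2 (by omega)
    rw [hlim] at hsum
    have herr : Tendsto (fun E : ℝ => u E / (E ^ (-(1 / (M : ℝ)))) ^ r -
        ∑ s ∈ Finset.range (R + 1), d s * (E ^ (-(1 / (M : ℝ)))) ^ (s - r)) atTop (𝓝 0) := by
      have h1 := (ht0.pow (R + 1 - r)).const_mul C
      rw [zero_pow (by omega), mul_zero] at h1
      refine squeeze_zero_norm' ?_ h1
      filter_upwards [hu, eventually_gt_atTop 0] with E h2 h3
      have ht : 0 < E ^ (-(1 / (M : ℝ))) := by positivity
      have htr : 0 < (E ^ (-(1 / (M : ℝ)))) ^ r := by positivity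
      have e1 : u E / (E ^ (-(1 / (M : ℝ)))) ^ r -
          ∑ s ∈ Finset.range (R + 1), d s * (E ^ (-(1 / (M : ℝ)))) ^ (s - r) =
          (u E - ∑ s ∈ Finset.range (R + 1), d s * (E ^ (-(1 / (M : ℝ)))) ^ s) /
            (E ^ (-(1 / (M : ℝ)))) ^ r := by
        rw [sub_div, Finset.sum_div]
        congr 1
        apply Finset.sum_congr rfl
        intro s _
        rcases lt_or_ge s r with h | h
        · rw [hd s h]
          simp
        · obtain ⟨k, rfl⟩ := Nat.exists_eq_add_of_le h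
          rw [Nat.add_sub_cancel_left, pow_add]
          field_simp
      rw [e1, Real.norm_eq_abs, abs_div, abs_of_pos htr, div_le_iff₀ htr]
      refine h2.trans (le_of_eq ?_)
      rw [mul_assoc, ← pow_add]
      congr 2
      omega
    have hlim1 : Tendsto (fun E : ℝ => u E / (E ^ (-(1 / (M : ℝ)))) ^ r) atTop (𝓝 (d r)) := by
      have := herr.add hsum
      rw [zero_add] at this
      refine this.congr fun E => ?_
      ring
    have hlim2 : Tendsto (fun E : ℝ => u E / (E ^ (-(1 / (M : ℝ)))) ^ r) atTop (𝓝 0) := by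
      obtain ⟨K, hK⟩ := hO.bound
      have hexp : 0 < 1 / 2 - (r : ℝ) / M := by
        rw [sub_pos, div_lt_div_iff₀ hM0 two_pos]
        have : (2 * r : ℝ) < M := by
          have : 2 * r < M := by omega
          exact_mod_cast this
        linarith
      have h1 := (tendsto_rpow_neg_atTop hexp).const_mul K
      rw [mul_zero] at h1
      refine squeeze_zero_norm' ?_ h1
      filter_upwards [hK, eventually_gt_atTop 0] with E h2 h3
      have htr : 0 < (E ^ (-(1 / (M : ℝ)))) ^ r := by positivity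
      have h4 : (E ^ (-(1 / (M : ℝ)))) ^ r = E ^ (-((r : ℝ) / M)) := by
        rw [← Real.rpow_mul_natCast h3.le]
        congr 1
        ring
      rw [norm_div, Real.norm_eq_abs ((E ^ (-(1 / (M : ℝ)))) ^ r), abs_of_pos htr, div_le_iff₀ htr, h4,
        mul_assoc, ← Real.rpow_add h3]
      refine h2.trans (le_of_eq ?_)
      rw [Real.norm_eq_abs, abs_of_pos (by positivity)]
      congr 2
      ring
    exact tendsto_nhds_unique hlim1 hlim2
  · intro hd
    refine IsBigO.of_bound |C| ?_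
    filter_upwards [hu, eventually_ge_atTop 1] with E h1 h2
    have h0 : (0 : ℝ) < E := by linarith
    have e1 : ∑ s ∈ Finset.range (R + 1), d s * (E ^ (-(1 / (M : ℝ)))) ^ s = 0 := by
      apply Finset.sum_eq_zero
      intro s hs
      rw [hd s (by have := Finset.mem_range.1 hs; omega), zero_mul]
    rw [e1, sub_zero] at h1
    rw [Real.norm_eq_abs, Real.norm_eq_abs, abs_of_pos (by positivity : 0 < E ^ (-(1 / 2) : ℝ))]
    refine h1.trans ?_
    have h4 : (E ^ (-(1 / (M : ℝ)))) ^ (R + 1) ≤ E ^ (-(1 / 2) : ℝ) := by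
      rw [← Real.rpow_mul_natCast h0.le]
      apply Real.rpow_le_rpow_of_exponent_le h2
      push_cast
      have h5 : (M : ℝ) ≤ 2 * (R + 1) := by exact_mod_cast hR2
      have h6 : (1 : ℝ) / 2 ≤ 1 / M * (R + 1) := by
        rw [one_div_mul_eq_div, div_le_div_iff₀ two_pos hM0]
        linarith
      linarith
    calc C * (E ^ (-(1 / (M : ℝ)))) ^ (R + 1) ≤ |C| * (E ^ (-(1 / (M : ℝ)))) ^ (R + 1) :=
          mul_le_mul_of_nonneg_right (le_abs_self C) (by positivity)
      _ ≤ |C| * E ^ (-(1 / 2) : ℝ) := mul_le_mul_of_nonneg_left h4 (abs_nonneg C)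

theorem p_Y4 (hR5 : S_R5) (hY2 : S_Y2) : S_Y4 := by
  intro P Q c c' g g' τ₀ K δ τ₀' K' δ' hP hQ hdeg hbP hbQ
  have hY2P := hY2 P c g τ₀ K δ hP hbP
  have hY2Q := hY2 Q c' g' τ₀' K' δ' hQ hbQ
  have hR5P := hR5 P c g τ₀ K δ hP hbP
  have hR5Q := hR5 Q c' g' τ₀' K' δ' hQ hbQ
  have hldP := hbP.ld
  have hldQ := hbQ.ld
  have hcP := hbP.hc
  have hcQ := hbQ.hc
  unfold Crit
  rw [← hdeg] at hY2Q hR5Q hldQ hcQ
  obtain ⟨M, hM⟩ : ∃ M : ℕ, M = P.natDegree := ⟨_, rfl⟩
  rw [← hM] at hY2P hY2Q hR5P hR5Q hldP hldQ hcP hcQ ⊢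
  obtain ⟨C, t₀, ht₀, hC⟩ := hY2P
  obtain ⟨C', t₀', ht₀', hC'⟩ := hY2Q
  have hM1 : 1 ≤ M := hldP.hM
  have hM0 : (0 : ℝ) < M := by exact_mod_cast hM1
  have hc0 : 0 < ‖c‖ := norm_pos_iff.2 hbP.c0
  have hc0' : 0 < ‖c'‖ := norm_pos_iff.2 hbQ.c0
  have htend : Tendsto (fun E : ℝ => E ^ (-(1 / (M : ℝ)))) atTop (𝓝 0) :=
    tendsto_rpow_neg_atTop (by positivity)
  have hR := p_Y4_asym M ((M - 1) / 2) hM1 (by omega) (by omega)
    (fun E : ℝ => Real.log (rmin P E / rmin Q E))
    (fun s => if s = 0 then Real.log ‖c'‖ - Real.log ‖c‖ else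
      (gam Q s * c' ^ s).re - (gam P s * c ^ s).re) (C + C') (by
    filter_upwards [hR5P, hR5Q, htend.eventually_lt_const hldP.ht,
      htend.eventually_lt_const hldQ.ht, htend.eventually_lt_const ht₀,
      htend.eventually_lt_const ht₀', eventually_gt_atTop 0] with E h1 h2 h3 h4 h5 h6 h7
    have ht : 0 < E ^ (-(1 / (M : ℝ))) := by positivity
    rw [h1, h2]
    generalize E ^ (-(1 / (M : ℝ))) = t at ht h3 h4 h5 h6 ⊢
    have hlow : 0 < ‖br M c g 0 t‖ := by
      have := hldP.low 0 hM1 t ⟨ht.le, h3.le⟩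
      linarith
    have hlow' : 0 < ‖br M c' g' 0 t‖ := by
      have := hldQ.low 0 hM1 t ⟨ht.le, h4.le⟩
      linarith
    have hA := hC 0 hM1 t ⟨ht.le, h5.le⟩
    have hA' := hC' 0 hM1 t ⟨ht.le, h6.le⟩
    simp only [pow_zero, mul_one] at hA hA'
    rw [Real.log_div (by positivity) (by positivity), Real.log_inv, Real.log_inv,
      Real.log_mul (by positivity) hlow.ne', Real.log_mul hc0.ne' ht.ne',
      Real.log_mul (by positivity) hlow'.ne', Real.log_mul hc0'.ne' ht.ne']
    have hs : ∑ s ∈ Finset.range ((M - 1) / 2 + 1), (if s = 0 then Real.log ‖c'‖ - Real.log ‖c‖ else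
        (gam Q s * c' ^ s).re - (gam P s * c ^ s).re) * t ^ s =
        (Real.log ‖c'‖ - Real.log ‖c‖) +
        (∑ r ∈ Finset.Icc 1 ((M - 1) / 2), (gam Q r * c' ^ r).re * t ^ r -
          ∑ r ∈ Finset.Icc 1 ((M - 1) / 2), (gam P r * c ^ r).re * t ^ r) := by
      rw [Finset.range_eq_Ico, Finset.sum_eq_sum_Ico_succ_bot (by omega)]
      rw [if_pos rfl, pow_zero, mul_one]
      congr 1
      rw [← Finset.sum_sub_distrib]
      have : Finset.Ico (0 + 1) ((M - 1) / 2 + 1) = Finset.Icc 1 ((M - 1) / 2) := by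
        ext x
        simp only [Finset.mem_Ico, Finset.mem_Icc]
        omega
      rw [this]
      apply Finset.sum_congr rfl
      intro r hr
      have : r ≠ 0 := by
        have := (Finset.mem_Icc.1 hr).1
        omega
      rw [if_neg this]
      ring
    rw [hs]
    rw [abs_le] at hA hA' ⊢
    constructor
    · linarith [hA.1, hA.2, hA'.1, hA'.2]
    · linarith [hA.1, hA.2, hA'.1, hA'.2])
  rw [hR]
  constructor
  · intro h
    constructor
    · have h0 := h 0 (Nat.zero_le _)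
      rw [if_pos rfl] at h0
      have h1 : Real.log ‖c'‖ = Real.log ‖c‖ := by linarith
      have h2 := Real.log_injOn_pos hc0' hc0 h1
      rw [← hcP, ← hcQ, norm_pow, norm_pow, h2]
    · intro r hr1 hr2
      have h1 := h r (by omega)
      rw [if_neg (by omega)] at h1
      linarith
  · rintro ⟨h1, h2⟩ s hs
    by_cases hs0 : s = 0
    · rw [if_pos hs0]
      rw [← hcP, ← hcQ, norm_pow, norm_pow] at h1
      have h3 : ‖c‖ = ‖c'‖ := 
        (pow_left_inj₀ (norm_nonneg c) (norm_nonneg c') (by omega)).1 h1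
      rw [h3, sub_self]
    · rw [if_neg hs0, h2 s (by omega) (by omega), sub_self]

end HillRoots
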