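import Pool.Agent.Lib.MP_e63cf8_mp.StmF

/-!
# MP_e63cf8_mp, piece Y5: the algebraic criterion
-/

open Polynomial Filter Topology MeasureTheory Asymptotics

namespace HillRoots

private theorem p_Y5_deg {P : ℂ[X]} (h0 : P.coeff 0 = 0) (hP : P ≠ 0) : 1 ≤ P.natDegree := by
  by_contra h
  have h1 : P.natDegree = 0 := by omega
  apply hP
  rw [Polynomial.eq_C_of_natDegree_eq_zero h1, h0, C_0]

private theorem p_Y5_uniq {P : ℂ[X]} {c d : ℂ} (hc : IsTop P c) (hd : IsTop P d) :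
    ∀ r, 1 ≤ r → 2 * r < P.natDegree → (gam P r * c ^ r).re = (gam P r * d ^ r).re := by
  intro r hr1 hr2
  have h : lexvec P c = lexvec P d := le_antisymm (hd.2 c hc.1) (hc.2 d hd.1)
  have hr3 : r - 1 < (P.natDegree - 1) / 2 := by omega
  have h1 : (ofLex (lexvec P c)) ⟨r - 1, hr3⟩ = (ofLex (lexvec P d)) ⟨r - 1, hr3⟩ := by rw [h]
  simp only [lexvec, ofLex_toLex] at h1
  rw [Nat.sub_add_cancel hr1] at h1
  exact h1

theorem p_Y5 (hR3 : S_R3) (hC4 : S_C4) (hY3 : S_Y3) (hY4 : S_Y4) : S_Y5 := by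
  intro P Q hP0 hQ0 hP hQ
  have hdP : 1 ≤ P.natDegree := p_Y5_deg hP0 hP
  have hdQ : 1 ≤ Q.natDegree := p_Y5_deg hQ0 hQ
  obtain ⟨c, g, τ₀, K, δ, hB⟩ := hR3 P hdP
  obtain ⟨c', g', τ₀', K', δ', hB'⟩ := hR3 Q hdQ
  by_cases hdeg : P.natDegree = Q.natDegree
  · have h4 := hY4 P Q c c' g g' τ₀ K δ τ₀' K' δ' hP0 hQ0 hdeg hB hB'
    have top := hY3 P c g τ₀ K δ hP0 hB
    have top' := hY3 Q c' g' τ₀' K' δ' hQ0 hB'
    rw [h4]
    constructor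
    · rintro ⟨h1, h2⟩
      exact ⟨hdeg, h1, c, c', top, top', h2⟩
    · rintro ⟨-, h1, d, d', hd, hd', h2⟩
      refine ⟨h1, fun r hr1 hr2 => ?_⟩
      rw [p_Y5_uniq top hd r hr1 hr2, p_Y5_uniq top' hd' r hr1 (hdeg ▸ hr2)]
      exact h2 r hr1 hr2
  · have h := hC4 P Q c c' g g' τ₀ K δ τ₀' K' δ' hP0 hQ0 hdeg hB hB'
    constructor
    · intro h'
      exact absurd h' h.1
    · intro h'
      exact absurd h'.1 hdeg

end HillRoots
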