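import Pool.Agent.Lib.MP_e63cf8_mp.StmG

open Polynomial Filter Topology MeasureTheory Asymptotics

namespace HillRoots

private theorem p_Z0_tau (M n k r : ℕ) (hk : 1 ≤ k) (hkn : k < n) :
    (tau M n k) ^ r = (En n k) ^ (-((r : ℝ) / M)) := by
  unfold tau En
  have hkR : (1 : ℝ) ≤ k := by exact_mod_cast hk
  have hknR : (k : ℝ) < n := by exact_mod_cast hkn
  have h0 : (0 : ℝ) ≤ 4 * (k : ℝ) * ((n : ℝ) - k) := by
    have : 0 ≤ (n : ℝ) - k := by linarith
    positivity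
  rw [← Real.rpow_mul_natCast h0]
  push_cast
  congr 1
  ring

private theorem p_Z0_om (M : ℕ) : ‖om M‖ = 1 := by
  unfold om
  have h : (2 * Real.pi * Complex.I / M : ℂ) = ((2 * Real.pi / M : ℝ) : ℂ) * Complex.I := by
    push_cast; ring
  rw [h, Complex.norm_exp_ofReal_mul_I]

theorem p_Z0 (hY1 : S_Y1) (hV1a : S_V1a) (hV1b : S_V1b) (hV1c : S_V1c) (hU1 : S_U1) : S_Z0 := by
  intro P c g τ₀ K δ hP0 hB
  have hM : 1 ≤ P.natDegree := hB.ld.hM
  set M := P.natDegree with hMdef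
  have hMR : (0 : ℝ) < M := by exact_mod_cast hM
  have hc : 0 < ‖c‖ := norm_pos_iff.2 hB.c0
  have hτ₀ : 0 < τ₀ := hB.ld.ht
  have hBex : ∀ r : ℕ, ∃ b : ℝ, 0 < b ∧ (1 ≤ r → 2 * r < M →
      Tendsto (fun n : ℕ => ∑ k ∈ Finset.Icc 1 (n - M), (En n k) ^ (-((r : ℝ) / M)) -
        b * (n : ℝ) ^ (1 - 2 * (r : ℝ) / M)) atTop (𝓝 0)) := by
    intro r
    by_cases h : 1 ≤ r ∧ 2 * r < M
    · have h1 : (0 : ℝ) < (r : ℝ) / M := by
        have : (1 : ℝ) ≤ r := by exact_mod_cast h.1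
        positivity
      have h2 : (r : ℝ) / M < 1 / 2 := by
        rw [div_lt_iff₀ hMR]
        have : (2 : ℝ) * r < M := by exact_mod_cast h.2
        linarith
      obtain ⟨b, hb, hlim⟩ := hV1a ((r : ℝ) / M) h1 h2
      refine ⟨b, hb, fun _ _ => ?_⟩
      have h3 := hlim M hM
      have h4 : 1 - 2 * (r : ℝ) / M = 1 - 2 * ((r : ℝ) / M) := by ring
      rw [h4]
      exact h3
    · exact ⟨1, one_pos, fun h1 h2 => absurd ⟨h1, h2⟩ h⟩
  choose B hBpos hBlim using hBex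
  refine ⟨B, fun r _ _ => hBpos r, fun l hl => ?_⟩
  set a : ℂ := c * om M ^ l with ha
  have hanorm : ‖a‖ = ‖c‖ := by
    rw [ha, norm_mul, norm_pow, p_Z0_om M, one_pow, mul_one]
  obtain ⟨ra, hra, han⟩ := hB.an
  obtain ⟨C, r₀, hr₀, hY⟩ := hY1 P g (‖c‖ * τ₀) hP0 hM (by positivity)
    (han.mono (Metric.ball_subset_ball hra.le)) hB.one (fun x hx => hB.eqn x hx.le) (M / 2)
  have hev := hU1 M (min τ₀ (r₀ / ‖c‖)) hM (lt_min hτ₀ (by positivity))
  -- membership
  have hmem : ∀ n k : ℕ, k ∈ Finset.Icc 1 (n - M) → 1 ≤ k ∧ k < n := by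
    intro n k hk
    rw [Finset.mem_Icc] at hk
    omega
  -- the products
  have hprod : ∀ᶠ n : ℕ in atTop, ∏ k ∈ Finset.Icc 1 (n - M), g (a * (tau M n k : ℂ)) =
      Complex.exp (∑ k ∈ Finset.Icc 1 (n - M), Complex.log (g (a * (tau M n k : ℂ)))) := by
    filter_upwards [hev] with n hn
    rw [Complex.exp_sum]
    refine Finset.prod_congr rfl fun k hk => ?_
    rw [Complex.exp_log]
    intro h0
    have h1 := (hn k (hmem n k hk).2)
    have h2 := hB.ld.low l hl (tau M n k) ⟨h1.1, h1.2.trans (min_le_left _ _)⟩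
    unfold br at h2
    rw [← hMdef] at h2
    change 1 / 2 ≤ ‖om M ^ l * g (a * (tau M n k : ℂ))‖ at h2
    rw [h0, mul_zero, norm_zero] at h2
    norm_num at h2
  -- the main terms
  let T : ℕ → ℕ → ℝ := fun r n => if 2 * r < M then B r * (n : ℝ) ^ (1 - 2 * (r : ℝ) / M)
    else Real.pi / 2
  have hT : ∀ r ∈ Finset.Icc 1 (M / 2), Tendsto (fun n : ℕ =>
      ∑ k ∈ Finset.Icc 1 (n - M), (tau M n k) ^ r - T r n) atTop (𝓝 0) := by
    intro r hr
    rw [Finset.mem_Icc] at hr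
    have hsum : ∀ n : ℕ, ∑ k ∈ Finset.Icc 1 (n - M), (tau M n k) ^ r =
        ∑ k ∈ Finset.Icc 1 (n - M), (En n k) ^ (-((r : ℝ) / M)) := fun n =>
      Finset.sum_congr rfl fun k hk => p_Z0_tau M n k r (hmem n k hk).1 (hmem n k hk).2
    simp_rw [hsum]
    by_cases h2 : 2 * r < M
    · have h3 := hBlim r hr.1 h2
      refine h3.congr fun n => ?_
      change _ = _ - (if 2 * r < M then B r * (n : ℝ) ^ (1 - 2 * (r : ℝ) / M) else Real.pi / 2)
      rw [if_pos h2]
    · have h3 : 2 * r = M := by omega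
      have h4 : (r : ℝ) / M = 1 / 2 := by
        rw [← h3]
        have : (0 : ℝ) < r := by exact_mod_cast hr.1
        push_cast
        field_simp
      have h5 := (hV1b M hM).sub_const (Real.pi / 2)
      rw [sub_self] at h5
      refine h5.congr fun n => ?_
      change _ = _ - (if 2 * r < M then B r * (n : ℝ) ^ (1 - 2 * (r : ℝ) / M) else Real.pi / 2)
      rw [if_neg h2, h4]
  have hqq : ∀ n : ℕ, qq M c (gam P) B l n + KK M c (gam P) l =
      ∑ r ∈ Finset.Icc 1 (M / 2), gam P r * a ^ r * (T r n : ℂ) := by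
    intro n
    have hfil : (Finset.Ico 1 M).filter (fun r => 2 * r < M) = Finset.Icc 1 ((M - 1) / 2) := by
      ext r
      rw [Finset.mem_filter, Finset.mem_Ico, Finset.mem_Icc]
      omega
    have hterm : ∀ r ∈ Finset.Icc 1 ((M - 1) / 2),
        gam P r * a ^ r * ((B r * (n : ℝ) ^ (1 - 2 * (r : ℝ) / M) : ℝ) : ℂ) =
        gam P r * a ^ r * (T r n : ℂ) := by
      intro r hr
      rw [Finset.mem_Icc] at hr
      change _ = gam P r * a ^ r * (((if 2 * r < M then B r * (n : ℝ) ^ (1 - 2 * (r : ℝ) / M)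
        else Real.pi / 2 : ℝ)) : ℂ)
      rw [if_pos (by omega)]
    unfold qq KK
    rw [hfil, ← ha, Finset.sum_congr rfl hterm]
    rcases Nat.even_or_odd M with he | ho
    · rw [if_pos he]
      obtain ⟨m, hm⟩ := he
      have h1 : M / 2 = (M - 1) / 2 + 1 := by omega
      rw [h1, Finset.sum_Icc_succ_top (by omega)]
      congr 1
      change _ = gam P _ * a ^ _ * (((if 2 * ((M - 1) / 2 + 1) < M then
        B ((M - 1) / 2 + 1) * (n : ℝ) ^ (1 - 2 * (((M - 1) / 2 + 1 : ℕ) : ℝ) / M)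
        else Real.pi / 2 : ℝ)) : ℂ)
      rw [if_neg (by omega)]
      push_cast
      ring
    · rw [if_neg (Nat.not_even_iff_odd.2 ho), add_zero]
      obtain ⟨m, hm⟩ := ho
      have h1 : M / 2 = (M - 1) / 2 := by omega
      rw [h1]
  -- the remainder
  have hrem : Tendsto (fun n : ℕ => ∑ k ∈ Finset.Icc 1 (n - M),
      (Complex.log (g (a * (tau M n k : ℂ))) -
        ∑ r ∈ Finset.Icc 1 (M / 2), gam P r * (a * (tau M n k : ℂ)) ^ r)) atTop (𝓝 0) := by
    have h1 := (hV1c (((M / 2 + 1 : ℕ) : ℝ) / M) M (by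
      rw [div_lt_div_iff₀ (by norm_num) hMR]
      have : M < 2 * (M / 2 + 1) := by omega
      have : (M : ℝ) < 2 * ((M / 2 + 1 : ℕ) : ℝ) := by exact_mod_cast this
      linarith) hM).const_mul (C * ‖c‖ ^ (M / 2 + 1))
    rw [mul_zero] at h1
    refine squeeze_zero_norm' ?_ h1
    filter_upwards [hev] with n hn
    rw [Finset.mul_sum]
    refine (norm_sum_le _ _).trans (Finset.sum_le_sum fun k hk => ?_)
    obtain ⟨hk1, hk2⟩ := hmem n k hk
    have h2 := hn k hk2
    have h3 : ‖a * (tau M n k : ℂ)‖ = ‖c‖ * tau M n k := by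
      rw [norm_mul, hanorm, Complex.norm_real, Real.norm_of_nonneg h2.1]
    have h4 : ‖a * (tau M n k : ℂ)‖ ≤ r₀ := by
      rw [h3]
      have := h2.2.trans (min_le_right _ _)
      rw [le_div_iff₀ hc] at this
      linarith
    refine (hY _ h4).trans ?_
    rw [h3, mul_pow, p_Z0_tau M n k (M / 2 + 1) hk1 hk2, mul_assoc]
  have hD : Tendsto (fun n : ℕ =>
      ∑ k ∈ Finset.Icc 1 (n - M), Complex.log (g (a * (tau M n k : ℂ))) -
        (qq M c (gam P) B l n + KK M c (gam P) l)) atTop (𝓝 0) := by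
    have h1 : Tendsto (fun n : ℕ => ∑ r ∈ Finset.Icc 1 (M / 2), gam P r * a ^ r *
        ((∑ k ∈ Finset.Icc 1 (n - M), (tau M n k) ^ r - T r n : ℝ) : ℂ)) atTop (𝓝 0) := by
      rw [show (0 : ℂ) = ∑ r ∈ Finset.Icc 1 (M / 2), gam P r * a ^ r * ((0 : ℝ) : ℂ) by simp]
      refine tendsto_finsetSum _ fun r hr => ?_
      exact ((Complex.continuous_ofReal.tendsto 0).comp (hT r hr)).const_mul _
    have h2 := hrem.add h1
    rw [add_zero] at h2
    refine h2.congr fun n => ?_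
    rw [hqq n, Finset.sum_sub_distrib, Finset.sum_comm]
    have h3 : ∀ r ∈ Finset.Icc 1 (M / 2), gam P r * a ^ r *
        ((∑ k ∈ Finset.Icc 1 (n - M), (tau M n k) ^ r - T r n : ℝ) : ℂ) =
        ∑ k ∈ Finset.Icc 1 (n - M), gam P r * (a * (tau M n k : ℂ)) ^ r -
          gam P r * a ^ r * (T r n : ℂ) := by
      intro r _
      push_cast
      rw [mul_sub, Finset.mul_sum]
      congr 1
      refine Finset.sum_congr rfl fun k _ => ?_
      rw [mul_pow]; ring
    rw [Finset.sum_congr rfl h3, Finset.sum_sub_distrib]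
    ring
  have hexp : Tendsto (fun n : ℕ => Complex.exp (
      ∑ k ∈ Finset.Icc 1 (n - M), Complex.log (g (a * (tau M n k : ℂ))) -
        (qq M c (gam P) B l n + KK M c (gam P) l))) atTop (𝓝 1) := by
    have := (Complex.continuous_exp.tendsto 0).comp hD
    rw [Complex.exp_zero] at this
    exact this
  refine hexp.congr' ?_
  filter_upwards [hprod] with n hn
  rw [hn, ← Complex.exp_add, ← sub_eq_add_neg]

end HillRoots
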