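import Pool.Agent.Lib.MP_e63cf8_mp.StmG

open Polynomial Filter Topology MeasureTheory Asymptotics

namespace HillRoots

private theorem p_Z1_om (M : ℕ) : ‖om M‖ = 1 := by
  unfold om
  have h : (2 * Real.pi * Complex.I / M : ℂ) = ((2 * Real.pi / M : ℝ) : ℂ) * Complex.I := by
    push_cast; ring
  rw [h, Complex.norm_exp_ofReal_mul_I]

private theorem p_Z1_omM (M : ℕ) (hM : 1 ≤ M) : om M ^ M = 1 := by
  unfold om
  rw [← Complex.exp_nat_mul]
  have hM' : (M : ℂ) ≠ 0 := by exact_mod_cast (by omega : M ≠ 0)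
  rw [mul_div_cancel₀ _ hM', Complex.exp_two_pi_mul_I]

/-- only multiples of `g` occur as exponents -/
private theorem p_Z1_pow (g : ℕ) (D : ℂ[X]) (hD : ∀ j, D.coeff j ≠ 0 → g ∣ j) (i : ℕ) :
    ∀ j, (D ^ i).coeff j ≠ 0 → g ∣ j := by
  induction i with
  | zero =>
    intro j hj
    rw [pow_zero, coeff_one] at hj
    by_cases h : j = 0
    · rw [h]; exact dvd_zero g
    · rw [if_neg h] at hj
      exact absurd rfl hj
  | succ i ih =>
    intro j hj
    rw [pow_succ, coeff_mul] at hj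
    obtain ⟨x, hx, hx0⟩ := Finset.exists_ne_zero_of_sum_ne_zero hj
    rw [Finset.HasAntidiagonal.mem_antidiagonal] at hx
    rw [← hx]
    exact dvd_add (ih _ (left_ne_zero_of_mul hx0)) (hD _ (right_ne_zero_of_mul hx0))

private theorem p_Z1_gam (g : ℕ) (P : ℂ[X]) (hP : SuppMul g P) (hP0 : P ≠ 0) (r : ℕ)
    (hr : ¬ g ∣ r) : gam P r = 0 := by
  have hM : g ∣ P.natDegree := hP _ (by
    rw [coeff_natDegree]; exact leadingCoeff_ne_zero.2 hP0)
  have hD : ∀ j, (C P.leadingCoeff⁻¹ * P.reverse - 1 : ℂ[X]).coeff j ≠ 0 → g ∣ j := by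
    intro j hj
    by_cases h0 : j = 0
    · rw [h0]; exact dvd_zero g
    rw [coeff_sub, coeff_C_mul, coeff_one, if_neg h0, sub_zero] at hj
    have h1 := right_ne_zero_of_mul hj
    rw [coeff_reverse] at h1
    by_cases h2 : j ≤ P.natDegree
    · rw [revAt_le h2] at h1
      have h3 := hP _ h1
      have h4 := (Nat.dvd_sub hM h3)
      rwa [Nat.sub_sub_self h2] at h4
    · exfalso
      apply h1
      rw [revAt_eq_self_of_lt (by omega)]
      exact coeff_eq_zero_of_natDegree_lt (by omega)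
  unfold gam
  rw [Finset.sum_eq_zero, mul_zero]
  intro i _
  have h1 : ((C P.leadingCoeff⁻¹ * P.reverse - 1 : ℂ[X]) ^ i).coeff r = 0 := by
    by_contra hc
    exact hr (p_Z1_pow g _ hD i r hc)
  rw [h1, mul_zero]

theorem p_Z1 (hZ0 : S_Z0) (hV3 : S_V3) (hY3 : S_Y3) (hU1 : S_U1) : S_Z1 := by
  intro P c f τ₀ K δ g hP0 hB hg hsupp huniq
  obtain ⟨B, hBE⟩ := hZ0 P c f τ₀ K δ hP0 hB
  have hV := hV3 P c f τ₀ K δ (gam P) B hB hBE
  have hY := hY3 P c f τ₀ K δ hP0 hB
  have hM : 1 ≤ P.natDegree := hB.ld.hM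
  have hPne : P ≠ 0 := by
    intro h; rw [h, natDegree_zero] at hM; omega
  have hgM : g ∣ P.natDegree := hsupp _ (by
    rw [coeff_natDegree]; exact leadingCoeff_ne_zero.2 hPne)
  have hgam := p_Z1_gam g P hsupp hPne
  set M := P.natDegree with hMdef
  set ω := om M with hω
  have hωn : ‖ω‖ = 1 := p_Z1_om M
  have hωM : ω ^ M = 1 := p_Z1_omM M hM
  have hMR : (0 : ℝ) < M := by exact_mod_cast hM
  -- same value
  have hsame : ∀ l, ω ^ (l * g) = 1 → ∀ r, gam P r * (c * ω ^ l) ^ r = gam P r * c ^ r := by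
    intro l hl r
    by_cases hr : g ∣ r
    · obtain ⟨s, rfl⟩ := hr
      rw [mul_pow, ← pow_mul, ← mul_assoc l g s, pow_mul ω, hl, one_pow, mul_one]
    · rw [hgam r hr, zero_mul, zero_mul]
  have hzero : ∀ r, gam P r * (c * ω ^ 0) ^ r = gam P r * c ^ r := fun r =>
    hsame 0 (by rw [zero_mul, pow_zero]) r
  have hqq : ∀ l, ω ^ (l * g) = 1 → ∀ n, qq M c (gam P) B l n = qq M c (gam P) B 0 n := by
    intro l hl n
    unfold qq
    rw [← hω]
    refine Finset.sum_congr rfl fun r _ => ?_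
    rw [hsame l hl, hzero]
  have hKK : ∀ l, ω ^ (l * g) = 1 → KK M c (gam P) l = KK M c (gam P) 0 := by
    intro l hl
    unfold KK
    rw [← hω, hsame l hl, hzero]
  -- the others are small
  have hsmall : ∀ l < M, ω ^ (l * g) ≠ 1 →
      Tendsto (fun n : ℕ => (qq M c (gam P) B l n - qq M c (gam P) B 0 n).re) atTop atBot := by
    intro l hl hne
    rcases hV l hl with h | h
    · exfalso
      apply hne
      have htop : IsTop P (c * ω ^ l) := by
        refine ⟨?_, fun c' hc' => ?_⟩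
        · rw [mul_pow, ← hMdef, ← pow_mul, mul_comm l M, pow_mul, hωM, one_pow, mul_one]
          exact hY.1
        · have h1 : lexvec P (c * ω ^ l) = lexvec P c := by
            unfold lexvec
            congr 1
            funext i
            have hi := i.2
            exact h (i + 1) (by omega) (by omega)
          rw [h1]
          exact hY.2 c' hc'
      have h2 := huniq _ _ htop hY
      rw [mul_pow, ← pow_mul] at h2
      have h3 : c ^ g ≠ 0 := pow_ne_zero _ hB.c0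
      exact mul_left_cancel₀ h3 (by rw [h2, mul_one])
    · exact h
  -- the normalised products
  let F : ℕ → ℕ → ℂ := fun l n => ∏ k ∈ Finset.Icc 1 (n - M), f (c * ω ^ l * (tau M n k : ℂ))
  let E0 : ℕ → ℂ := fun n => qq M c (gam P) B 0 n + KK M c (gam P) 0
  let w : ℕ → ℕ → ℂ := fun l n => F l n * Complex.exp (-(E0 n))
  have hw1 : ∀ l < M, ω ^ (l * g) = 1 → Tendsto (w l) atTop (𝓝 1) := by
    intro l hl h1
    refine (hBE.2 l hl).congr fun n => ?_
    rw [hqq l h1 n, hKK l h1]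
  have hw0 : ∀ l < M, ω ^ (l * g) ≠ 1 → Tendsto (fun n => ‖w l n‖) atTop (𝓝 0) := by
    intro l hl h1
    have h2 := (hBE.2 l hl).norm
    rw [norm_one] at h2
    have h3 : Tendsto (fun n : ℕ => Real.exp ((qq M c (gam P) B l n - qq M c (gam P) B 0 n).re +
        (KK M c (gam P) l - KK M c (gam P) 0).re)) atTop (𝓝 0) :=
      Real.tendsto_exp_atBot.comp (tendsto_atBot_add_const_right _ _ (hsmall l hl h1))
    have h4 := h2.mul h3
    rw [mul_zero] at h4
    refine h4.congr fun n => ?_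
    rw [← Complex.add_re, ← Complex.norm_exp, ← norm_mul, mul_assoc, ← Complex.exp_add]
    change _ = ‖(∏ k ∈ Finset.Icc 1 (n - M), f (c * om M ^ l * (tau M n k : ℂ))) *
      Complex.exp (-(qq M c (gam P) B 0 n + KK M c (gam P) 0))‖
    congr 3
    ring
  let S := (Finset.range M).filter (fun l => ω ^ (l * g) = 1)
  let S' := (Finset.range M).filter (fun l => ¬ ω ^ (l * g) = 1)
  have hQ : Tendsto (fun n => ∑ l ∈ S, w l n) atTop (𝓝 (∑ l ∈ S, (1 : ℂ))) := by
    refine tendsto_finsetSum _ fun l hl => ?_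
    rw [Finset.mem_filter, Finset.mem_range] at hl
    exact hw1 l hl.1 hl.2
  have hR : Tendsto (fun n => ∑ l ∈ S', ‖w l n‖) atTop (𝓝 0) := by
    rw [show (0 : ℝ) = ∑ l ∈ S', (0 : ℝ) by simp]
    refine tendsto_finsetSum _ fun l hl => ?_
    rw [Finset.mem_filter, Finset.mem_range] at hl
    exact hw0 l hl.1 hl.2
  have h0S : 0 ∈ S := by
    rw [Finset.mem_filter, Finset.mem_range, zero_mul, pow_zero]
    exact ⟨by omega, rfl⟩
  have hcard : (1 : ℝ) ≤ ‖∑ l ∈ S, (1 : ℂ)‖ := by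
    rw [Finset.sum_const, nsmul_eq_mul, mul_one, Complex.norm_natCast]
    exact_mod_cast Finset.card_pos.2 ⟨0, h0S⟩
  have e1 : ∀ᶠ n in atTop, 7 / 8 < ‖∑ l ∈ S, w l n‖ :=
    hQ.norm.eventually_const_lt (by linarith)
  have e2 : ∀ᶠ n in atTop, ∑ l ∈ S', ‖w l n‖ < 1 / 8 := hR.eventually_lt_const (by norm_num)
  have e3 : ∀ᶠ n in atTop, ‖w 0 n‖ < 5 / 4 := by
    have := (hw1 0 (by omega) (by rw [zero_mul, pow_zero])).norm
    rw [norm_one] at this
    exact this.eventually_lt_const (by norm_num)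
  refine ⟨1 / (2 * M), by positivity, ?_⟩
  filter_upwards [e1, e2, e3, eventually_ge_atTop M] with n h1 h2 h3 h4 hgn
  have hgn' : g ∣ n - M := Nat.dvd_sub hgn hgM
  have hy : (M : ℂ) * yy M c f n (n - M) * Complex.exp (-(E0 n)) =
      ∑ l ∈ Finset.range M, ω ^ (l * (n - M)) * w l n := by
    have hM0 : (M : ℂ) ≠ 0 := by exact_mod_cast (by omega : M ≠ 0)
    unfold yy
    rw [← mul_assoc, mul_one_div_cancel hM0, one_mul, Finset.sum_mul]
    refine Finset.sum_congr rfl fun l _ => ?_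
    unfold br
    rw [Finset.prod_mul_distrib, Finset.prod_const, Nat.card_Icc, ← pow_mul, mul_assoc]
    rfl
  have hspl : ∑ l ∈ Finset.range M, ω ^ (l * (n - M)) * w l n =
      ∑ l ∈ S, w l n + ∑ l ∈ S', ω ^ (l * (n - M)) * w l n := by
    rw [← Finset.sum_filter_add_sum_filter_not (Finset.range M) (fun l => ω ^ (l * g) = 1)]
    congr 1
    refine Finset.sum_congr rfl fun l hl => ?_
    rw [Finset.mem_filter] at hl
    obtain ⟨s, hs⟩ := hgn'
    rw [hs, ← mul_assoc l g s, pow_mul ω (l * g) s, hl.2, one_pow, one_mul]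
  have hR' : ‖∑ l ∈ S', ω ^ (l * (n - M)) * w l n‖ ≤ ∑ l ∈ S', ‖w l n‖ := by
    refine (norm_sum_le _ _).trans (Finset.sum_le_sum fun l _ => ?_)
    rw [norm_mul, norm_pow, hωn, one_pow, one_mul]
  have hlow : 3 / 4 ≤ ‖(M : ℂ) * yy M c f n (n - M) * Complex.exp (-(E0 n))‖ := by
    rw [hy, hspl]
    have h5 := norm_sub_le (∑ l ∈ S, w l n + ∑ l ∈ S', ω ^ (l * (n - M)) * w l n)
      (∑ l ∈ S', ω ^ (l * (n - M)) * w l n)
    rw [add_sub_cancel_right] at h5
    linarith
  rw [norm_mul, norm_mul, Complex.norm_natCast] at hlow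
  have hG : GG M c f n (n - M) = ‖F 0 n‖ := by
    unfold GG
    change _ = ‖∏ k ∈ Finset.Icc 1 (n - M), f (c * ω ^ 0 * (tau M n k : ℂ))‖
    rw [norm_prod]
    refine Finset.prod_congr rfl fun k _ => ?_
    unfold br
    rw [pow_zero, one_mul]
  have hw0n : ‖w 0 n‖ = GG M c f n (n - M) * ‖Complex.exp (-(E0 n))‖ := by
    change ‖F 0 n * Complex.exp (-(E0 n))‖ = _
    rw [norm_mul, hG]
  rw [hw0n] at h3
  have he : 0 < ‖Complex.exp (-(E0 n))‖ := norm_pos_iff.2 (Complex.exp_ne_zero _)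
  set e : ℝ := ‖Complex.exp (-(E0 n))‖
  set G : ℝ := GG M c f n (n - M)
  set y : ℝ := ‖yy M c f n (n - M)‖
  rw [div_mul_eq_mul_div, one_mul, div_le_iff₀ (by positivity)]
  have h6 : G * e ≤ (y * (2 * M)) * e := by nlinarith
  exact le_of_mul_le_mul_right h6 he

end HillRoots
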