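import Pool.Agent.Lib.MP_e63cf8_mp.StmE
import Pool.Agent.Lib.MP_e63cf8_mp.P.V6

open Polynomial Filter Topology MeasureTheory Asymptotics

namespace HillRoots

theorem p_V7_GG_nonneg (M : ℕ) (c : ℂ) (g : ℂ → ℂ) (n k : ℕ) : 0 ≤ GG M c g n k := by
  unfold GG
  exact Finset.prod_nonneg fun i _ => norm_nonneg _

theorem p_V7_lower (y : ℂ) (G ε : ℝ) (hG : 0 ≤ G) (h : ε ≤ ‖y / (G : ℂ)‖) : ε * G ≤ ‖y‖ := by
  rcases hG.eq_or_lt with h0 | h0
  · rw [← h0]; simp
  · rw [norm_div, Complex.norm_real, Real.norm_of_nonneg hG, le_div_iff₀ h0] at h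
    exact h

theorem p_V7_upper (y : ℂ) (G ε : ℝ) (hG : 0 < G) (h : ‖y / (G : ℂ)‖ ≤ ε) : ‖y‖ ≤ ε * G := by
  rw [norm_div, Complex.norm_real, Real.norm_of_nonneg hG.le, div_le_iff₀ hG] at h
  exact h

/-- discrete intermediate values -/
theorem p_V7_dense (a : ℕ → ℝ) (ha : Tendsto a atTop atTop)
    (hd : Tendsto (fun j => a (j + 1) - a j) atTop (𝓝 0)) (x η : ℝ) (hη : 0 < η) (J : ℕ) :
    ∃ j, J ≤ j ∧ ∃ k : ℤ, |a j - (x + 2 * Real.pi * k)| < η := by
  classical
  obtain ⟨J₁, hJ₁⟩ := eventually_atTop.mp ((Metric.tendsto_nhds.mp hd) η hη)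
  set J₂ := max J J₁ with hJ₂
  obtain ⟨k, hk⟩ : ∃ k : ℤ, a J₂ < x + 2 * Real.pi * k := by
    obtain ⟨k, hk⟩ := exists_int_gt ((a J₂ - x) / (2 * Real.pi))
    refine ⟨k, ?_⟩
    rw [div_lt_iff₀ (by positivity)] at hk
    linarith
  obtain ⟨j₀, hj₀⟩ := (eventually_atTop.mp (tendsto_atTop.mp ha (x + 2 * Real.pi * k)))
  have hex : ∃ j, J₂ ≤ j ∧ x + 2 * Real.pi * k ≤ a j := ⟨max J₂ j₀, le_max_left _ _, hj₀ _ (le_max_right _ _)⟩
  have h1 := Nat.find_spec hex
  have h2 := fun m => Nat.find_min hex (m := m)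
  set j := Nat.find hex with hj
  have hne : j ≠ J₂ := by
    intro h
    rw [h] at h1
    linarith [h1.2]
  have h3 : J₂ ≤ j - 1 ∧ j - 1 < j := by omega
  have h4 : a (j - 1) < x + 2 * Real.pi * k := by
    by_contra h5
    exact h2 (j - 1) h3.2 ⟨h3.1, not_lt.mp h5⟩
  have h6 := hJ₁ (j - 1) (le_trans (le_max_right _ _) h3.1)
  rw [dist_zero_right, Real.norm_eq_abs, show j - 1 + 1 = j by omega] at h6
  refine ⟨j, by omega, k, ?_⟩
  rw [abs_lt] at h6 ⊢
  constructor <;> linarith [h1.2, h6.1, h6.2]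

theorem p_V7_inc (a h : ℝ) (ha : 0 < a) (ha1 : a < 1) (hh : 0 ≤ h) :
    Tendsto (fun n : ℕ => ((n : ℝ) + h) ^ a - (n : ℝ) ^ a) atTop (𝓝 0) := by
  have h1 : Tendsto (fun n : ℕ => a * h * (n : ℝ) ^ (a - 1)) atTop (𝓝 0) := by
    have h2 : Tendsto (fun n : ℕ => (n : ℝ) ^ (-(1 - a))) atTop (𝓝 0) :=
      (tendsto_rpow_neg_atTop (by linarith)).comp tendsto_natCast_atTop_atTop
    have h3 := h2.const_mul (a * h)
    rw [mul_zero] at h3
    refine h3.congr fun n => ?_
    rw [show -(1 - a) = a - 1 by ring]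
  refine tendsto_of_tendsto_of_tendsto_of_le_of_le' tendsto_const_nhds h1 ?_ ?_
  · filter_upwards [eventually_ge_atTop 1] with n hn
    have : (n : ℝ) ^ a ≤ ((n : ℝ) + h) ^ a := Real.rpow_le_rpow (by positivity) (by linarith) ha.le
    linarith
  · filter_upwards [eventually_ge_atTop 1] with n hn
    have hn0 : (0 : ℝ) < n := by exact_mod_cast hn
    have h2 : ((n : ℝ) + h) ^ a = (n : ℝ) ^ a * (1 + h / n) ^ a := by
      rw [← Real.mul_rpow hn0.le (by positivity)]
      congr 1
      field_simp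
    have h3 : (1 + h / n) ^ a ≤ 1 + a * (h / n) :=
      rpow_one_add_le_one_add_mul_self (by
        have : 0 ≤ h / (n : ℝ) := by positivity
        linarith) ha.le ha1.le
    have h4 : (n : ℝ) ^ (a - 1) = (n : ℝ) ^ a / n := by
      rw [Real.rpow_sub hn0, Real.rpow_one]
    rw [h2, h4]
    have h5 : (n : ℝ) ^ a * (1 + h / n) ^ a ≤ (n : ℝ) ^ a * (1 + a * (h / n)) :=
      mul_le_mul_of_nonneg_left h3 (by positivity)
    have h6 : (n : ℝ) ^ a * (1 + a * (h / n)) = (n : ℝ) ^ a + a * h * ((n : ℝ) ^ a / n) := by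
      ring
    linarith

/-- a generalised polynomial with positive leading coefficient tends to infinity -/
theorem p_V7_atTop (M : ℕ) (e : ℕ → ℝ) (hM : 3 ≤ M) (he : 0 < e 1) :
    Tendsto (fun n : ℕ => ∑ r ∈ (Finset.Ico 1 M).filter (fun r => 2 * r < M),
      e r * (n : ℝ) ^ (1 - 2 * (r : ℝ) / M)) atTop atTop := by
  have hM0 : (0 : ℝ) < M := by
    have : 0 < M := by omega
    exact_mod_cast this
  have h1mem : 1 ∈ (Finset.Ico 1 M).filter (fun r => 2 * r < M) := by
    rw [Finset.mem_filter, Finset.mem_Ico]; omega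
  have h1 : Tendsto (fun n : ℕ => (n : ℝ) ^ (1 - 2 / (M : ℝ))) atTop atTop := by
    refine (tendsto_rpow_atTop ?_).comp tendsto_natCast_atTop_atTop
    have : 2 / (M : ℝ) < 1 := by
      rw [div_lt_one hM0]
      have : (3 : ℝ) ≤ M := by exact_mod_cast hM
      linarith
    linarith
  have h2 : Tendsto (fun n : ℕ => e 1 + ∑ r ∈ ((Finset.Ico 1 M).filter (fun r => 2 * r < M)).erase 1,
      e r * (n : ℝ) ^ (-(2 * ((r : ℝ) - 1) / M))) atTop (𝓝 (e 1 + ∑ r ∈ ((Finset.Ico 1 M).filter (fun r => 2 * r < M)).erase 1, 0)) := by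
    refine tendsto_const_nhds.add (tendsto_finsetSum _ fun r hr => ?_)
    rw [Finset.mem_erase, Finset.mem_filter, Finset.mem_Ico] at hr
    have h3 : (0 : ℝ) < 2 * ((r : ℝ) - 1) / M := by
      have : (1 : ℝ) < r := by
        have : 1 < r := by omega
        exact_mod_cast this
      have h4 : 0 < (r : ℝ) - 1 := by linarith
      positivity
    have h5 : Tendsto (fun n : ℕ => (n : ℝ) ^ (-(2 * ((r : ℝ) - 1) / M))) atTop (𝓝 0) :=
      (tendsto_rpow_neg_atTop h3).comp tendsto_natCast_atTop_atTop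
    have h6 := h5.const_mul (e r)
    rw [mul_zero] at h6
    exact h6
  rw [Finset.sum_const_zero, add_zero] at h2
  refine (h1.atTop_mul_pos he h2).congr' ?_
  filter_upwards [eventually_ge_atTop 1] with n hn
  have hn0 : (0 : ℝ) < n := by exact_mod_cast hn
  rw [← Finset.add_sum_erase _ _ h1mem, mul_add, Finset.mul_sum]
  congr 1
  · push_cast
    rw [mul_one, mul_comm]
  · refine Finset.sum_congr rfl fun r _ => ?_
    have : (n : ℝ) ^ (1 - 2 * (r : ℝ) / M) = (n : ℝ) ^ (1 - 2 / (M : ℝ)) * (n : ℝ) ^ (-(2 * ((r : ℝ) - 1) / M)) := by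
      rw [← Real.rpow_add hn0]
      congr 1
      field_simp
      ring
    rw [this]
    ring

theorem p_V7_diff (M : ℕ) (e : ℕ → ℝ) (hM : 3 ≤ M) :
    Tendsto (fun n : ℕ => ∑ r ∈ (Finset.Ico 1 M).filter (fun r => 2 * r < M),
        e r * ((n + 2 * M : ℕ) : ℝ) ^ (1 - 2 * (r : ℝ) / M) -
      ∑ r ∈ (Finset.Ico 1 M).filter (fun r => 2 * r < M),
        e r * (n : ℝ) ^ (1 - 2 * (r : ℝ) / M)) atTop (𝓝 0) := by
  have hM0 : (0 : ℝ) < M := by
    have : 0 < M := by omega
    exact_mod_cast this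
  have h1 : Tendsto (fun n : ℕ => ∑ r ∈ (Finset.Ico 1 M).filter (fun r => 2 * r < M),
      e r * (((n : ℝ) + 2 * M) ^ (1 - 2 * (r : ℝ) / M) - (n : ℝ) ^ (1 - 2 * (r : ℝ) / M))) atTop
      (𝓝 (∑ r ∈ (Finset.Ico 1 M).filter (fun r => 2 * r < M), 0)) := by
    refine tendsto_finsetSum _ fun r hr => ?_
    rw [Finset.mem_filter, Finset.mem_Ico] at hr
    have h4 : 2 * (r : ℝ) < M := by exact_mod_cast hr.2
    have h5 : (1 : ℝ) ≤ r := by exact_mod_cast hr.1.1
    have h6 : 2 * (r : ℝ) / M < 1 := by rw [div_lt_one hM0]; exact h4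
    have h7 : 0 < 2 * (r : ℝ) / M := by positivity
    have h8 := (p_V7_inc (1 - 2 * (r : ℝ) / M) (2 * M) (by linarith) (by linarith) (by positivity)).const_mul (e r)
    rw [mul_zero] at h8
    exact h8
  rw [Finset.sum_const_zero] at h1
  refine h1.congr fun n => ?_
  rw [← Finset.sum_sub_distrib]
  refine Finset.sum_congr rfl fun r _ => ?_
  push_cast
  ring

/-- the modulus `‖1 + e^{ix}‖` -/
noncomputable def p_V7_F (x : ℝ) : ℝ := ‖1 + Complex.exp (Complex.I * (x : ℂ))‖

theorem p_V7_F_cont : Continuous p_V7_F := by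
  unfold p_V7_F
  fun_prop

theorem p_V7_F_per (x : ℝ) (k : ℤ) : p_V7_F (x + 2 * Real.pi * k) = p_V7_F x := by
  unfold p_V7_F
  have : Complex.I * ((x + 2 * Real.pi * k : ℝ) : ℂ) = Complex.I * (x : ℂ) + k * (2 * Real.pi * Complex.I) := by
    push_cast; ring
  rw [this, Complex.exp_periodic.int_mul k]

theorem p_V7_F_neg (x : ℝ) : p_V7_F (-x) = p_V7_F x := by
  unfold p_V7_F
  rw [← Complex.norm_conj (1 + Complex.exp (Complex.I * (x : ℂ)))]
  rw [map_add, map_one, ← Complex.exp_conj, map_mul, Complex.conj_I, Complex.conj_ofReal]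
  congr 3
  push_cast
  ring

theorem p_V7_F_sum (α β : ℝ) :
    ‖Complex.exp (Complex.I * (α : ℂ)) + Complex.exp (Complex.I * (β : ℂ))‖ = p_V7_F (β - α) := by
  unfold p_V7_F
  have h1 : Complex.exp (Complex.I * (α : ℂ)) + Complex.exp (Complex.I * (β : ℂ)) =
      Complex.exp (Complex.I * (α : ℂ)) * (1 + Complex.exp (Complex.I * ((β - α : ℝ) : ℂ))) := by
    rw [mul_add, mul_one, ← Complex.exp_add]
    congr 2
    push_cast
    ring
  rw [h1, norm_mul, Complex.norm_exp]
  simp

/-- The frequent values. -/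
theorem p_V7_freq (a : ℕ → ℝ) (σ : ℝ) (hσ : σ = 1 ∨ σ = -1) (ha : Tendsto (fun j => σ * a j) atTop atTop)
    (hd : Tendsto (fun j => a (j + 1) - a j) atTop (𝓝 0)) (s : ℝ) (hs : 0 < s) (hs2 : s < 2) (ρ : ℝ) (hρ : 0 < ρ) (J : ℕ) :
    ∃ j, J ≤ j ∧ |p_V7_F (a j) - s| < ρ := by
  have h0 : p_V7_F 0 = 2 := by
    unfold p_V7_F
    norm_num
  have hpi : p_V7_F Real.pi = 0 := by
    unfold p_V7_F
    rw [mul_comm, Complex.exp_pi_mul_I]
    simp
  obtain ⟨x, -, hx⟩ : s ∈ p_V7_F '' Set.Icc 0 Real.pi := by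
    apply intermediate_value_Icc' Real.pi_pos.le p_V7_F_cont.continuousOn
    rw [h0, hpi]
    exact ⟨hs.le, hs2.le⟩
  obtain ⟨η, hη, hη2⟩ := (Metric.continuousAt_iff.mp (p_V7_F_cont.continuousAt (x := x))) ρ hρ
  have hd' : Tendsto (fun j => σ * a (j + 1) - σ * a j) atTop (𝓝 0) := by
    have := hd.const_mul σ
    rw [mul_zero] at this
    refine this.congr fun j => ?_
    ring
  obtain ⟨j, hj, k, hk⟩ := p_V7_dense (fun j => σ * a j) ha hd' x η hη J
  refine ⟨j, hj, ?_⟩
  have h1 : p_V7_F (a j) = p_V7_F (σ * a j - 2 * Real.pi * k) := by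
    have h2 : p_V7_F (σ * a j) = p_V7_F (a j) := by
      rcases hσ with h | h
      · rw [h, one_mul]
      · rw [h, neg_one_mul, p_V7_F_neg]
    rw [← h2, ← p_V7_F_per (σ * a j - 2 * Real.pi * k) k]
    congr 1
    ring
  rw [h1]
  have h3 := hη2 (x := σ * a j - 2 * Real.pi * k) (by
    rw [Real.dist_eq]
    have : σ * a j - 2 * Real.pi * k - x = σ * a j - (x + 2 * Real.pi * k) := by ring
    rw [this]
    exact hk)
  rw [Real.dist_eq, hx] at h3
  exact h3

theorem p_V7 (hV2 : S_V2) (hV3 : S_V3) (hU1 : S_U1) : S_V7 := by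
  classical
  intro P c g τ₀ K δ hB h3 hcoef
  obtain ⟨γ, B, hE, hγ⟩ := hV2 P c g τ₀ K δ hB
  have hM : 1 ≤ P.natDegree := hB.ld.hM
  have hcore := p_V6_core hV3 P c g τ₀ K δ γ B hB hE
  have hlc : P.leadingCoeff ≠ 0 := by
    rw [← hB.hc]
    exact pow_ne_zero _ hB.c0
  have hγ1 : γ 1 ≠ 0 := by
    rw [hγ (by omega)]
    apply div_ne_zero hcoef
    apply mul_ne_zero _ hlc
    exact_mod_cast (by omega : P.natDegree ≠ 0)
  have hprim : IsPrimitiveRoot (om P.natDegree) P.natDegree :=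
    Complex.isPrimitiveRoot_exp P.natDegree (by omega)
  have hw0 : γ 1 * c ≠ 0 := mul_ne_zero hγ1 hB.c0
  set M := P.natDegree with hMdef
  have hMR : (0 : ℝ) < M := by
    have : 0 < M := by omega
    exact_mod_cast this
  have hre : ∀ l, p_V6_Dom M c γ l → (γ 1 * c * om M ^ l).re = (γ 1 * c).re := by
    intro l hl
    have := hl 1 le_rfl (by omega)
    rw [pow_one, pow_one] at this
    rw [mul_assoc]
    exact this
  have hne : ∀ l, 0 < l → l < M → om M ^ l ≠ 1 := by
    intro l h1 h2 h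
    have := Nat.le_of_dvd h1 (hprim.dvd_of_pow_eq_one l h)
    omega
  have hnorm : ∀ l, ‖γ 1 * c * om M ^ l‖ = ‖γ 1 * c‖ := by
    intro l
    rw [norm_mul, norm_pow, p_V6_om_norm, one_pow, mul_one]
  have hconj : ∀ l, 0 < l → l < M → p_V6_Dom M c γ l →
      (γ 1 * c * om M ^ l).im = -(γ 1 * c).im ∧ (γ 1 * c).im ≠ 0 := by
    intro l h1 h2 hl
    have e1 := hre l hl
    have e2 : (γ 1 * c * om M ^ l).im ^ 2 = (γ 1 * c).im ^ 2 := by
      have := hnorm l
      have h4 : ‖γ 1 * c * om M ^ l‖ ^ 2 = ‖γ 1 * c‖ ^ 2 := by rw [this]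
      rw [← Complex.normSq_eq_norm_sq, ← Complex.normSq_eq_norm_sq, Complex.normSq_apply, Complex.normSq_apply, e1] at h4
      linear_combination h4
    have e3 : (γ 1 * c * om M ^ l).im ≠ (γ 1 * c).im := by
      intro h4
      apply hne l h1 h2
      apply mul_left_cancel₀ hw0
      rw [mul_one]
      exact Complex.ext e1 h4
    rcases sq_eq_sq_iff_eq_or_eq_neg.mp e2 with h4 | h4
    · exact absurd h4 e3
    · refine ⟨h4, fun h5 => e3 ?_⟩
      rw [h4, h5, neg_zero]
  have hdom0 : p_V6_Dom M c γ 0 := by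
    intro r _ _
    simp
  by_cases hex : ∃ l₁, 0 < l₁ ∧ l₁ < M ∧ p_V6_Dom M c γ l₁
  swap
  · -- only branch 0
    left
    have hfil : (Finset.range M).filter (p_V6_Dom M c γ) = {0} := by
      ext l
      rw [Finset.mem_filter, Finset.mem_range, Finset.mem_singleton]
      constructor
      · rintro ⟨h1, h2⟩
        by_contra h4
        exact hex ⟨l, Nat.pos_of_ne_zero h4, h1, h2⟩
      · rintro rfl
        exact ⟨by omega, hdom0⟩
    rw [hfil] at hcore
    simp only [Finset.sum_singleton, pow_zero, one_pow, one_mul] at hcore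
    refine ⟨1 / (2 * M), by positivity, ?_⟩
    filter_upwards [(Metric.tendsto_nhds.mp hcore) (1 / (2 * M)) (by positivity)] with n hn
    apply p_V7_lower _ _ _ (p_V7_GG_nonneg _ _ _ _ _)
    rw [dist_zero_right] at hn
    have h5 : ‖(1 / (M : ℂ)) * p_V6_main M c γ B 0 n‖ = 1 / M := by
      rw [norm_mul, p_V6_norm_main, sub_self, Real.exp_zero, mul_one, norm_div, norm_one, Complex.norm_natCast]
    have h6 := norm_sub_norm_le ((1 / (M : ℂ)) * p_V6_main M c γ B 0 n)
      (yy M c g n (n - M) / (GG M c g n (n - M) : ℂ))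
    rw [norm_sub_rev, h5] at h6
    have h7 : 1 / (M : ℝ) = 1 / (2 * M) + 1 / (2 * M) := by field_simp; norm_num
    linarith
  · obtain ⟨l₁, hl0, hlM, hl⟩ := hex
    have hfil : (Finset.range M).filter (p_V6_Dom M c γ) = {0, l₁} := by
      ext l
      rw [Finset.mem_filter, Finset.mem_range, Finset.mem_insert, Finset.mem_singleton]
      constructor
      · rintro ⟨h1, h2⟩
        by_cases h4 : l = 0
        · exact Or.inl h4
        · right
          have h5 := hconj l (Nat.pos_of_ne_zero h4) h1 h2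
          have h6 := hconj l₁ hl0 hlM hl
          have h7 : γ 1 * c * om M ^ l = γ 1 * c * om M ^ l₁ := by
            apply Complex.ext
            · rw [hre l h2, hre l₁ hl]
            · rw [h5.1, h6.1]
          have h8 := mul_left_cancel₀ hw0 h7
          exact hprim.pow_inj h1 hlM h8
      · rintro (rfl | rfl)
        · exact ⟨by omega, hdom0⟩
        · exact ⟨hlM, hl⟩
    rw [hfil] at hcore
    simp only [Finset.sum_pair hl0.ne, pow_zero, one_pow, one_mul] at hcore
    by_cases hK : (KK M c γ l₁).re = (KK M c γ 0).re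
    · right
      refine ⟨1 / M, by positivity, ?_⟩
      intro d hd hd1
      -- the phase
      set e : ℕ → ℝ := fun r => (γ r * (c * om M ^ l₁) ^ r).im * B r - (γ r * (c * om M ^ 0) ^ r).im * B r with he
      have hD : ∀ n : ℕ, (qq M c γ B l₁ n).im - (qq M c γ B 0 n).im =
          ∑ r ∈ (Finset.Ico 1 M).filter (fun r => 2 * r < M), e r * (n : ℝ) ^ (1 - 2 * (r : ℝ) / M) := by
        intro n
        unfold qq
        rw [Complex.im_sum, Complex.im_sum, ← Finset.sum_sub_distrib]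
        refine Finset.sum_congr rfl fun r _ => ?_
        rw [Complex.im_mul_ofReal, Complex.im_mul_ofReal, he]
        ring
      have he1 : e 1 ≠ 0 := by
        have h4 := hconj l₁ hl0 hlM hl
        have h5 : e 1 = -2 * (γ 1 * c).im * B 1 := by
          simp only [he, pow_one, pow_zero, mul_one]
          rw [← mul_assoc, h4.1]
          ring
        rw [h5]
        have h6 := (hE.1 1 le_rfl (by omega)).ne'
        exact mul_ne_zero (mul_ne_zero (by norm_num) h4.2) h6
      obtain ⟨σ, hσ, hσe⟩ : ∃ σ : ℝ, (σ = 1 ∨ σ = -1) ∧ 0 < σ * e 1 := by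
        rcases lt_or_gt_of_ne he1 with h | h
        · exact ⟨-1, Or.inr rfl, by linarith⟩
        · exact ⟨1, Or.inl rfl, by linarith⟩
      set κ : ℝ := (KK M c γ l₁).im - (KK M c γ 0).im with hκ
      set a : ℕ → ℝ := fun j => ((qq M c γ B l₁ (2 * M * j)).im - (qq M c γ B 0 (2 * M * j)).im) + κ with ha
      have htop : Tendsto (fun j => σ * a j) atTop atTop := by
        have h4 := p_V7_atTop M (fun r => σ * e r) h3 hσe
        have h5 : Tendsto (fun j : ℕ => 2 * M * j) atTop atTop :=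
          Filter.tendsto_id.const_mul_atTop' (by omega)
        have h6 := tendsto_atTop_add_const_right atTop (σ * κ) (h4.comp h5)
        refine h6.congr fun j => ?_
        simp only [Function.comp, ha]
        rw [hD, mul_add, Finset.mul_sum]
        congr 1
        refine Finset.sum_congr rfl fun r _ => ?_
        ring
      have hdif : Tendsto (fun j => a (j + 1) - a j) atTop (𝓝 0) := by
        have h4 := p_V7_diff M e h3
        have h5 : Tendsto (fun j : ℕ => 2 * M * j) atTop atTop :=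
          Filter.tendsto_id.const_mul_atTop' (by omega)
        refine (h4.comp h5).congr fun j => ?_
        simp only [Function.comp, ha]
        rw [hD, hD, show 2 * M * (j + 1) = 2 * M * j + 2 * M by ring]
        ring
      have hm : ∀ n, 2 * M ∣ n → ‖(1 / (M : ℂ)) * (p_V6_main M c γ B 0 n + (om M ^ l₁) ^ n * p_V6_main M c γ B l₁ n)‖ =
          (1 / M) * p_V7_F ((qq M c γ B l₁ n).im - (qq M c γ B 0 n).im + κ) := by
        intro n hn
        have h4 : (om M ^ l₁) ^ n = 1 := by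
          obtain ⟨k, rfl⟩ := hn
          rw [← pow_mul, show l₁ * (2 * M * k) = M * (l₁ * 2 * k) by ring, pow_mul, p_V6_om_pow M hM, one_pow]
        rw [h4, one_mul, norm_mul, norm_div, norm_one, Complex.norm_natCast]
        congr 1
        have h5 : ∀ l, (KK M c γ l).re = (KK M c γ 0).re → p_V6_main M c γ B l n =
            Complex.exp (Complex.I * (((KK M c γ l).im + (qq M c γ B l n).im : ℝ) : ℂ)) := by
          intro l hl'
          unfold p_V6_main
          rw [← Complex.exp_add]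
          congr 1
          rw [← hl']
          have h6 : KK M c γ l - ((KK M c γ l).re : ℂ) = Complex.I * ((KK M c γ l).im : ℂ) := by
            have h7 := Complex.re_add_im (KK M c γ l)
            linear_combination -h7
          rw [h6]
          push_cast
          ring
        rw [h5 0 rfl, h5 l₁ hK, p_V7_F_sum]
        congr 1
        rw [hκ]
        ring
      rw [Filter.frequently_atTop]
      intro N
      obtain ⟨N₁, hN₁⟩ := eventually_atTop.mp ((Metric.tendsto_nhds.mp hcore) (d / 6) (by positivity))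
      obtain ⟨j, hj, hj2⟩ := p_V7_freq a σ hσ htop hdif (3 * d * M / 4) (by positivity) (by
        rw [lt_div_iff₀ hMR] at hd1
        nlinarith) (d * M / 12) (by positivity) (max N N₁)
      have hnj : max N N₁ ≤ 2 * M * j := by nlinarith
      refine ⟨2 * M * j, le_trans (le_max_left _ _) hnj, ⟨M * j, by ring⟩, ?_⟩
      have h4 := hN₁ (2 * M * j) (le_trans (le_max_right _ _) hnj)
      rw [dist_zero_right] at h4
      have h5 := hm (2 * M * j) ⟨j, rfl⟩
      set n := 2 * M * j with hn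
      have h6 : (1 / M) * p_V7_F ((qq M c γ B l₁ n).im - (qq M c γ B 0 n).im + κ) = (1 / M) * p_V7_F (a j) := rfl
      rw [h6] at h5
      have h7 : |(1 / M) * p_V7_F (a j) - 3 * d / 4| < d / 12 := by
        have h8 : (1 / M) * p_V7_F (a j) - 3 * d / 4 = (1 / M) * (p_V7_F (a j) - 3 * d * M / 4) := by
          field_simp
        rw [h8, abs_mul, abs_of_pos (by positivity : (0 : ℝ) < 1 / M)]
        calc 1 / (M : ℝ) * |p_V7_F (a j) - 3 * d * M / 4| < 1 / M * (d * M / 12) :=
              mul_lt_mul_of_pos_left hj2 (by positivity)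
          _ = d / 12 := by field_simp
      rw [abs_lt] at h7
      set m := (1 / (M : ℂ)) * (p_V6_main M c γ B 0 n + (om M ^ l₁) ^ n * p_V6_main M c γ B l₁ n) with hmdef
      set q := yy M c g n (n - M) / (GG M c g n (n - M) : ℂ) with hq
      have h9 : |‖q‖ - ‖m‖| ≤ ‖q - m‖ := abs_norm_sub_norm_le q m
      rw [abs_le] at h9
      have h10 : d / 2 < ‖q‖ := by linarith [h9.1, h9.2, h7.1, h7.2, h4, h5]
      have h11 : ‖q‖ < d := by linarith [h9.1, h9.2, h7.1, h7.2, h4, h5]
      refine ⟨p_V7_lower _ _ _ (p_V7_GG_nonneg _ _ _ _ _) h10.le, p_V7_upper _ _ _ ?_ h11.le⟩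
      rcases (p_V7_GG_nonneg M c g n (n - M)).eq_or_lt with h12 | h12
      · exfalso
        rw [hq, ← h12] at h10
        simp at h10
        linarith
      · exact h12
    · left
      set b : ℝ := |1 - Real.exp ((KK M c γ l₁).re - (KK M c γ 0).re)| with hb
      have hb0 : 0 < b := by
        rw [hb, abs_pos, sub_ne_zero]
        intro h
        apply hK
        have := Real.exp_injective (Real.exp_zero.trans h)
        linarith
      refine ⟨b / (2 * M), by positivity, ?_⟩
      filter_upwards [(Metric.tendsto_nhds.mp hcore) (b / (2 * M)) (by positivity)] with n hn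
      apply p_V7_lower _ _ _ (p_V7_GG_nonneg _ _ _ _ _)
      rw [dist_zero_right] at hn
      have h5 : b / M ≤ ‖(1 / (M : ℂ)) * (p_V6_main M c γ B 0 n + (om M ^ l₁) ^ n * p_V6_main M c γ B l₁ n)‖ := by
        rw [norm_mul, norm_div, norm_one, Complex.norm_natCast]
        have h6 := abs_norm_sub_norm_le (p_V6_main M c γ B 0 n) (-((om M ^ l₁) ^ n * p_V6_main M c γ B l₁ n))
        rw [sub_neg_eq_add, norm_neg, norm_mul, norm_pow, norm_pow, p_V6_om_norm, one_pow, one_pow, one_mul,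
          p_V6_norm_main, p_V6_norm_main, sub_self, Real.exp_zero] at h6
        have h7 : 1 / (M : ℝ) * b ≤ 1 / M * ‖p_V6_main M c γ B 0 n + (om M ^ l₁) ^ n * p_V6_main M c γ B l₁ n‖ :=
          mul_le_mul_of_nonneg_left h6 (by positivity)
        have h8 : 1 / (M : ℝ) * b = b / M := by ring
        linarith
      have h6 := norm_sub_norm_le ((1 / (M : ℂ)) * (p_V6_main M c γ B 0 n + (om M ^ l₁) ^ n * p_V6_main M c γ B l₁ n))
        (yy M c g n (n - M) / (GG M c g n (n - M) : ℂ))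
      rw [norm_sub_rev] at h6
      have h7 : b / (M : ℝ) = b / (2 * M) + b / (2 * M) := by field_simp; norm_num
      linarith

end HillRoots
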