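import Pool.Agent.Lib.MP_e63cf8_mp.StmG
import Pool.Agent.Lib.MP_e63cf8_mp.P.V7

open Polynomial Filter Topology MeasureTheory Asymptotics

namespace HillRoots

theorem p_Z2_core (hV3 : S_V3) (P : ℂ[X]) (c : ℂ) (g : ℂ → ℂ) (τ₀ K δ : ℝ) (γ : ℕ → ℂ) (B : ℕ → ℝ)
    (hB : Branch P c g τ₀ K δ) (hE : Expo P.natDegree c g γ B) (h3 : 3 ≤ P.natDegree)
    (hγ1 : γ 1 ≠ 0) :
    (∀ l l', 0 < l → l < P.natDegree → p_V6_Dom P.natDegree c γ l → 0 < l' → l' < P.natDegree →
      p_V6_Dom P.natDegree c γ l' → l = l') ∧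
    ((∀ l₁, 0 < l₁ → l₁ < P.natDegree → p_V6_Dom P.natDegree c γ l₁ →
        (KK P.natDegree c γ l₁).re ≠ (KK P.natDegree c γ 0).re) →
      ∃ ε : ℝ, 0 < ε ∧ ∀ᶠ n : ℕ in atTop, ε * GG P.natDegree c g n (n - P.natDegree) ≤
        ‖yy P.natDegree c g n (n - P.natDegree)‖) ∧
    (∀ l₁, 0 < l₁ → l₁ < P.natDegree → p_V6_Dom P.natDegree c γ l₁ →
        (KK P.natDegree c γ l₁).re = (KK P.natDegree c γ 0).re →
      ∃ δ₀ : ℝ, 0 < δ₀ ∧ ∀ d : ℝ, 0 < d → d < δ₀ → ∃ᶠ n : ℕ in atTop, Even n ∧
        d / 2 * GG P.natDegree c g n (n - P.natDegree) ≤ ‖yy P.natDegree c g n (n - P.natDegree)‖ ∧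
        ‖yy P.natDegree c g n (n - P.natDegree)‖ ≤ d * GG P.natDegree c g n (n - P.natDegree)) := by
  classical
  have hM : 1 ≤ P.natDegree := hB.ld.hM
  have hcore := p_V6_core hV3 P c g τ₀ K δ γ B hB hE
  have hprim : IsPrimitiveRoot (om P.natDegree) P.natDegree :=
    Complex.isPrimitiveRoot_exp P.natDegree (by omega)
  have hw0 : γ 1 * c ≠ 0 := mul_ne_zero hγ1 hB.c0
  set M := P.natDegree with hMdef
  have hMR : (0 : ℝ) < M := by
    have : 0 < M := by omega
    exact_mod_cast this
  have hre : ∀ l, p_V6_Dom M c γ l → (γ 1 * c * om M ^ l).re = (γ 1 * c).re := by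
    intro l hl
    have := hl 1 le_rfl (by omega)
    rw [pow_one, pow_one] at this
    rw [mul_assoc]
    exact this
  have hne : ∀ l, 0 < l → l < M → om M ^ l ≠ 1 := by
    intro l h1 h2 h
    have := Nat.le_of_dvd h1 (hprim.dvd_of_pow_eq_one l h)
    omega
  have hnorm : ∀ l, ‖γ 1 * c * om M ^ l‖ = ‖γ 1 * c‖ := by
    intro l
    rw [norm_mul, norm_pow, p_V6_om_norm, one_pow, mul_one]
  have hconj : ∀ l, 0 < l → l < M → p_V6_Dom M c γ l →
      (γ 1 * c * om M ^ l).im = -(γ 1 * c).im ∧ (γ 1 * c).im ≠ 0 := by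
    intro l h1 h2 hl
    have e1 := hre l hl
    have e2 : (γ 1 * c * om M ^ l).im ^ 2 = (γ 1 * c).im ^ 2 := by
      have := hnorm l
      have h4 : ‖γ 1 * c * om M ^ l‖ ^ 2 = ‖γ 1 * c‖ ^ 2 := by rw [this]
      rw [← Complex.normSq_eq_norm_sq, ← Complex.normSq_eq_norm_sq, Complex.normSq_apply, Complex.normSq_apply, e1] at h4
      linear_combination h4
    have e3 : (γ 1 * c * om M ^ l).im ≠ (γ 1 * c).im := by
      intro h4
      apply hne l h1 h2
      apply mul_left_cancel₀ hw0
      rw [mul_one]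
      exact Complex.ext e1 h4
    rcases sq_eq_sq_iff_eq_or_eq_neg.mp e2 with h4 | h4
    · exact absurd h4 e3
    · refine ⟨h4, fun h5 => e3 ?_⟩
      rw [h4, h5, neg_zero]
  have hdom0 : p_V6_Dom M c γ 0 := by
    intro r _ _
    simp
  have huniq : ∀ l l', 0 < l → l < M → p_V6_Dom M c γ l → 0 < l' → l' < M →
      p_V6_Dom M c γ l' → l = l' := by
    intro l l' hl0 hlM hl hl0' hlM' hl'
    have h5 := hconj l hl0 hlM hl
    have h6 := hconj l' hl0' hlM' hl'
    have h7 : γ 1 * c * om M ^ l = γ 1 * c * om M ^ l' := by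
      apply Complex.ext
      · rw [hre l hl, hre l' hl']
      · rw [h5.1, h6.1]
    have h8 := mul_left_cancel₀ hw0 h7
    exact hprim.pow_inj hlM hlM' h8
  refine ⟨huniq, ?_⟩
  by_cases hex : ∃ l₁, 0 < l₁ ∧ l₁ < M ∧ p_V6_Dom M c γ l₁
  swap
  · -- only branch 0
    refine ⟨fun _ => ?_, fun l₁ h0 hM' hD _ => absurd ⟨l₁, h0, hM', hD⟩ hex⟩
    have hfil : (Finset.range M).filter (p_V6_Dom M c γ) = {0} := by
      ext l
      rw [Finset.mem_filter, Finset.mem_range, Finset.mem_singleton]
      constructor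
      · rintro ⟨h1, h2⟩
        by_contra h4
        exact hex ⟨l, Nat.pos_of_ne_zero h4, h1, h2⟩
      · rintro rfl
        exact ⟨by omega, hdom0⟩
    rw [hfil] at hcore
    simp only [Finset.sum_singleton, pow_zero, one_pow, one_mul] at hcore
    refine ⟨1 / (2 * M), by positivity, ?_⟩
    filter_upwards [(Metric.tendsto_nhds.mp hcore) (1 / (2 * M)) (by positivity)] with n hn
    apply p_V7_lower _ _ _ (p_V7_GG_nonneg _ _ _ _ _)
    rw [dist_zero_right] at hn
    have h5 : ‖(1 / (M : ℂ)) * p_V6_main M c γ B 0 n‖ = 1 / M := by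
      rw [norm_mul, p_V6_norm_main, sub_self, Real.exp_zero, mul_one, norm_div, norm_one, Complex.norm_natCast]
    have h6 := norm_sub_norm_le ((1 / (M : ℂ)) * p_V6_main M c γ B 0 n)
      (yy M c g n (n - M) / (GG M c g n (n - M) : ℂ))
    rw [norm_sub_rev, h5] at h6
    have h7 : 1 / (M : ℝ) = 1 / (2 * M) + 1 / (2 * M) := by field_simp; norm_num
    linarith
  · obtain ⟨l₁, hl0, hlM, hl⟩ := hex
    have hfil : (Finset.range M).filter (p_V6_Dom M c γ) = {0, l₁} := by
      ext l
      rw [Finset.mem_filter, Finset.mem_range, Finset.mem_insert, Finset.mem_singleton]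
      constructor
      · rintro ⟨h1, h2⟩
        by_cases h4 : l = 0
        · exact Or.inl h4
        · right
          have h5 := hconj l (Nat.pos_of_ne_zero h4) h1 h2
          have h6 := hconj l₁ hl0 hlM hl
          have h7 : γ 1 * c * om M ^ l = γ 1 * c * om M ^ l₁ := by
            apply Complex.ext
            · rw [hre l h2, hre l₁ hl]
            · rw [h5.1, h6.1]
          have h8 := mul_left_cancel₀ hw0 h7
          exact hprim.pow_inj h1 hlM h8
      · rintro (rfl | rfl)
        · exact ⟨by omega, hdom0⟩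
        · exact ⟨hlM, hl⟩
    rw [hfil] at hcore
    simp only [Finset.sum_pair hl0.ne, pow_zero, one_pow, one_mul] at hcore
    by_cases hK : (KK M c γ l₁).re = (KK M c γ 0).re
    · refine ⟨fun h => absurd hK (h l₁ hl0 hlM hl), fun _ _ _ _ _ => ?_⟩
      refine ⟨1 / M, by positivity, ?_⟩
      intro d hd hd1
      -- the phase
      set e : ℕ → ℝ := fun r => (γ r * (c * om M ^ l₁) ^ r).im * B r - (γ r * (c * om M ^ 0) ^ r).im * B r with he
      have hD : ∀ n : ℕ, (qq M c γ B l₁ n).im - (qq M c γ B 0 n).im =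
          ∑ r ∈ (Finset.Ico 1 M).filter (fun r => 2 * r < M), e r * (n : ℝ) ^ (1 - 2 * (r : ℝ) / M) := by
        intro n
        unfold qq
        rw [Complex.im_sum, Complex.im_sum, ← Finset.sum_sub_distrib]
        refine Finset.sum_congr rfl fun r _ => ?_
        rw [Complex.im_mul_ofReal, Complex.im_mul_ofReal, he]
        ring
      have he1 : e 1 ≠ 0 := by
        have h4 := hconj l₁ hl0 hlM hl
        have h5 : e 1 = -2 * (γ 1 * c).im * B 1 := by
          simp only [he, pow_one, pow_zero, mul_one]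
          rw [← mul_assoc, h4.1]
          ring
        rw [h5]
        have h6 := (hE.1 1 le_rfl (by omega)).ne'
        exact mul_ne_zero (mul_ne_zero (by norm_num) h4.2) h6
      obtain ⟨σ, hσ, hσe⟩ : ∃ σ : ℝ, (σ = 1 ∨ σ = -1) ∧ 0 < σ * e 1 := by
        rcases lt_or_gt_of_ne he1 with h | h
        · exact ⟨-1, Or.inr rfl, by linarith⟩
        · exact ⟨1, Or.inl rfl, by linarith⟩
      set κ : ℝ := (KK M c γ l₁).im - (KK M c γ 0).im with hκ
      set a : ℕ → ℝ := fun j => ((qq M c γ B l₁ (2 * M * j)).im - (qq M c γ B 0 (2 * M * j)).im) + κ with ha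
      have htop : Tendsto (fun j => σ * a j) atTop atTop := by
        have h4 := p_V7_atTop M (fun r => σ * e r) h3 hσe
        have h5 : Tendsto (fun j : ℕ => 2 * M * j) atTop atTop :=
          Filter.tendsto_id.const_mul_atTop' (by omega)
        have h6 := tendsto_atTop_add_const_right atTop (σ * κ) (h4.comp h5)
        refine h6.congr fun j => ?_
        simp only [Function.comp, ha]
        rw [hD, mul_add, Finset.mul_sum]
        congr 1
        refine Finset.sum_congr rfl fun r _ => ?_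
        ring
      have hdif : Tendsto (fun j => a (j + 1) - a j) atTop (𝓝 0) := by
        have h4 := p_V7_diff M e h3
        have h5 : Tendsto (fun j : ℕ => 2 * M * j) atTop atTop :=
          Filter.tendsto_id.const_mul_atTop' (by omega)
        refine (h4.comp h5).congr fun j => ?_
        simp only [Function.comp, ha]
        rw [hD, hD, show 2 * M * (j + 1) = 2 * M * j + 2 * M by ring]
        ring
      have hm : ∀ n, 2 * M ∣ n → ‖(1 / (M : ℂ)) * (p_V6_main M c γ B 0 n + (om M ^ l₁) ^ n * p_V6_main M c γ B l₁ n)‖ =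
          (1 / M) * p_V7_F ((qq M c γ B l₁ n).im - (qq M c γ B 0 n).im + κ) := by
        intro n hn
        have h4 : (om M ^ l₁) ^ n = 1 := by
          obtain ⟨k, rfl⟩ := hn
          rw [← pow_mul, show l₁ * (2 * M * k) = M * (l₁ * 2 * k) by ring, pow_mul, p_V6_om_pow M hM, one_pow]
        rw [h4, one_mul, norm_mul, norm_div, norm_one, Complex.norm_natCast]
        congr 1
        have h5 : ∀ l, (KK M c γ l).re = (KK M c γ 0).re → p_V6_main M c γ B l n =
            Complex.exp (Complex.I * (((KK M c γ l).im + (qq M c γ B l n).im : ℝ) : ℂ)) := by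
          intro l hl'
          unfold p_V6_main
          rw [← Complex.exp_add]
          congr 1
          rw [← hl']
          have h6 : KK M c γ l - ((KK M c γ l).re : ℂ) = Complex.I * ((KK M c γ l).im : ℂ) := by
            have h7 := Complex.re_add_im (KK M c γ l)
            linear_combination -h7
          rw [h6]
          push_cast
          ring
        rw [h5 0 rfl, h5 l₁ hK, p_V7_F_sum]
        congr 1
        rw [hκ]
        ring
      rw [Filter.frequently_atTop]
      intro N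
      obtain ⟨N₁, hN₁⟩ := eventually_atTop.mp ((Metric.tendsto_nhds.mp hcore) (d / 6) (by positivity))
      obtain ⟨j, hj, hj2⟩ := p_V7_freq a σ hσ htop hdif (3 * d * M / 4) (by positivity) (by
        rw [lt_div_iff₀ hMR] at hd1
        nlinarith) (d * M / 12) (by positivity) (max N N₁)
      have hnj : max N N₁ ≤ 2 * M * j := by nlinarith
      refine ⟨2 * M * j, le_trans (le_max_left _ _) hnj, ⟨M * j, by ring⟩, ?_⟩
      have h4 := hN₁ (2 * M * j) (le_trans (le_max_right _ _) hnj)
      rw [dist_zero_right] at h4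
      have h5 := hm (2 * M * j) ⟨j, rfl⟩
      set n := 2 * M * j with hn
      have h6 : (1 / M) * p_V7_F ((qq M c γ B l₁ n).im - (qq M c γ B 0 n).im + κ) = (1 / M) * p_V7_F (a j) := rfl
      rw [h6] at h5
      have h7 : |(1 / M) * p_V7_F (a j) - 3 * d / 4| < d / 12 := by
        have h8 : (1 / M) * p_V7_F (a j) - 3 * d / 4 = (1 / M) * (p_V7_F (a j) - 3 * d * M / 4) := by
          field_simp
        rw [h8, abs_mul, abs_of_pos (by positivity : (0 : ℝ) < 1 / M)]
        calc 1 / (M : ℝ) * |p_V7_F (a j) - 3 * d * M / 4| < 1 / M * (d * M / 12) :=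
              mul_lt_mul_of_pos_left hj2 (by positivity)
          _ = d / 12 := by field_simp
      rw [abs_lt] at h7
      set m := (1 / (M : ℂ)) * (p_V6_main M c γ B 0 n + (om M ^ l₁) ^ n * p_V6_main M c γ B l₁ n) with hmdef
      set q := yy M c g n (n - M) / (GG M c g n (n - M) : ℂ) with hq
      have h9 : |‖q‖ - ‖m‖| ≤ ‖q - m‖ := abs_norm_sub_norm_le q m
      rw [abs_le] at h9
      have h10 : d / 2 < ‖q‖ := by linarith [h9.1, h9.2, h7.1, h7.2, h4, h5]
      have h11 : ‖q‖ < d := by linarith [h9.1, h9.2, h7.1, h7.2, h4, h5]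
      refine ⟨p_V7_lower _ _ _ (p_V7_GG_nonneg _ _ _ _ _) h10.le, p_V7_upper _ _ _ ?_ h11.le⟩
      rcases (p_V7_GG_nonneg M c g n (n - M)).eq_or_lt with h12 | h12
      · exfalso
        rw [hq, ← h12] at h10
        simp at h10
        linarith
      · exact h12
    · refine ⟨fun _ => ?_, fun l h0 hM' hD hK' => absurd (by
        rw [← huniq l l₁ h0 hM' hD hl0 hlM hl]
        exact hK') hK⟩
      set b : ℝ := |1 - Real.exp ((KK M c γ l₁).re - (KK M c γ 0).re)| with hb
      have hb0 : 0 < b := by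
        rw [hb, abs_pos, sub_ne_zero]
        intro h
        apply hK
        have := Real.exp_injective (Real.exp_zero.trans h)
        linarith
      refine ⟨b / (2 * M), by positivity, ?_⟩
      filter_upwards [(Metric.tendsto_nhds.mp hcore) (b / (2 * M)) (by positivity)] with n hn
      apply p_V7_lower _ _ _ (p_V7_GG_nonneg _ _ _ _ _)
      rw [dist_zero_right] at hn
      have h5 : b / M ≤ ‖(1 / (M : ℂ)) * (p_V6_main M c γ B 0 n + (om M ^ l₁) ^ n * p_V6_main M c γ B l₁ n)‖ := by
        rw [norm_mul, norm_div, norm_one, Complex.norm_natCast]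
        have h6 := abs_norm_sub_norm_le (p_V6_main M c γ B 0 n) (-((om M ^ l₁) ^ n * p_V6_main M c γ B l₁ n))
        rw [sub_neg_eq_add, norm_neg, norm_mul, norm_pow, norm_pow, p_V6_om_norm, one_pow, one_pow, one_mul,
          p_V6_norm_main, p_V6_norm_main, sub_self, Real.exp_zero] at h6
        have h7 : 1 / (M : ℝ) * b ≤ 1 / M * ‖p_V6_main M c γ B 0 n + (om M ^ l₁) ^ n * p_V6_main M c γ B l₁ n‖ :=
          mul_le_mul_of_nonneg_left h6 (by positivity)
        have h8 : 1 / (M : ℝ) * b = b / M := by ring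
        linarith
      have h6 := norm_sub_norm_le ((1 / (M : ℂ)) * (p_V6_main M c γ B 0 n + (om M ^ l₁) ^ n * p_V6_main M c γ B l₁ n))
        (yy M c g n (n - M) / (GG M c g n (n - M) : ℂ))
      rw [norm_sub_rev] at h6
      have h7 : b / (M : ℝ) = b / (2 * M) + b / (2 * M) := by field_simp; norm_num
      linarith

theorem p_Z2_gam1 (P : ℂ[X]) (h : 1 ≤ P.natDegree) :
    gam P 1 = P.coeff (P.natDegree - 1) / (P.natDegree * P.leadingCoeff) := by
  unfold gam
  rw [Finset.sum_range_succ, Finset.sum_range_one]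
  have h1 : P.reverse.coeff 1 = P.coeff (P.natDegree - 1) := by
    rw [coeff_reverse, revAt_le h]
  have h2 : ((1 : ℂ[X])).coeff 1 = 0 := by
    rw [coeff_one]
    simp
  simp only [pow_zero, pow_one, Finset.range_one, Finset.prod_singleton, Finset.range_zero,
    Finset.prod_empty, coeff_sub, coeff_C_mul, h1, h2]
  simp only [Nat.cast_one, Nat.factorial, Nat.cast_zero]
  rw [div_eq_mul_inv (P.coeff (P.natDegree - 1)), mul_inv]
  ring

theorem p_Z2_dom_iff (P : ℂ[X]) (c : ℂ) (l : ℕ) :
    p_V6_Dom P.natDegree c (gam P) l ↔ lexvec P (c * om P.natDegree ^ l) = lexvec P c := by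
  constructor
  · intro h
    unfold lexvec
    congr 1
    funext i
    have hi := i.2
    exact h (i + 1) (by omega) (by omega)
  · intro h r hr1 hr2
    have h2 := congrFun (congrArg ofLex h) ⟨r - 1, by omega⟩
    simp only [lexvec, ofLex_toLex, Nat.sub_add_cancel hr1] at h2
    exact h2

theorem p_Z2_KK (P : ℂ[X]) (c : ℂ) (l l' : ℕ) :
    (KK P.natDegree c (gam P) l).re = (KK P.natDegree c (gam P) l').re ↔
    (Even P.natDegree → (gam P (P.natDegree / 2) * (c * om P.natDegree ^ l) ^ (P.natDegree / 2)).re =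
      (gam P (P.natDegree / 2) * (c * om P.natDegree ^ l') ^ (P.natDegree / 2)).re) := by
  unfold KK
  by_cases hev : Even P.natDegree
  · rw [if_pos hev, if_pos hev]
    have h1 : ∀ z : ℂ, (z * ((Real.pi : ℂ) / 2)).re = z.re * (Real.pi / 2) := by
      intro z
      have : ((Real.pi : ℂ) / 2) = ((Real.pi / 2 : ℝ) : ℂ) := by push_cast; rfl
      rw [this, Complex.re_mul_ofReal]
    rw [h1, h1]
    constructor
    · intro h _
      exact mul_right_cancel₀ (by positivity) h
    · intro h
      rw [h hev]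
  · rw [if_neg hev, if_neg hev]
    exact ⟨fun _ h => absurd h hev, fun _ => rfl⟩

theorem p_Z2 (hZ0 : S_Z0) (hV3 : S_V3) (hY3 : S_Y3) (hU1 : S_U1) : S_Z2 := by
  intro P c g τ₀ K δ hP0 hB h3 hcoef
  obtain ⟨B, hE⟩ := hZ0 P c g τ₀ K δ hP0 hB
  have htop := hY3 P c g τ₀ K δ hP0 hB
  have hlc : P.leadingCoeff ≠ 0 := by
    rw [← hB.hc]
    exact pow_ne_zero _ hB.c0
  have hγ1 : gam P 1 ≠ 0 := by
    rw [p_Z2_gam1 P (by omega)]
    apply div_ne_zero hcoef
    apply mul_ne_zero _ hlc
    exact_mod_cast (by omega : P.natDegree ≠ 0)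
  have hprim : IsPrimitiveRoot (om P.natDegree) P.natDegree :=
    Complex.isPrimitiveRoot_exp P.natDegree (by omega)
  obtain ⟨huniq, hlow, hfreq⟩ := p_Z2_core hV3 P c g τ₀ K δ (gam P) B hB hE h3 hγ1
  refine ⟨fun hnc => hlow ?_, fun hc => ?_⟩
  · intro l₁ hl0 hlM hD hK
    apply hnc
    have hD' := (p_Z2_dom_iff P c l₁).1 hD
    refine ⟨c, c * om P.natDegree ^ l₁, htop, ⟨?_, ?_⟩, ?_, ?_⟩
    · rw [mul_pow, ← pow_mul, mul_comm l₁, pow_mul, hprim.pow_eq_one, one_pow, mul_one]
      exact htop.1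
    · intro c' hc'
      rw [hD']
      exact htop.2 c' hc'
    · intro h
      have h4 : om P.natDegree ^ l₁ = 1 := by
        apply mul_left_cancel₀ hB.c0
        rw [mul_one]
        exact h.symm
      have := Nat.le_of_dvd hl0 (hprim.dvd_of_pow_eq_one l₁ h4)
      omega
    · have h4 := (p_Z2_KK P c 0 l₁).1 hK.symm
      simpa only [pow_zero, mul_one] using h4
  · obtain ⟨c₀, c₁, ht0, ht1, hne, hev⟩ := hc
    have hroot : ∀ c' : ℂ, IsTop P c' → ∃ l < P.natDegree, c' = c * om P.natDegree ^ l ∧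
        p_V6_Dom P.natDegree c (gam P) l := by
      intro c' hc'
      haveI : NeZero P.natDegree := ⟨by omega⟩
      have h4 : (c' / c) ^ P.natDegree = 1 := by
        rw [div_pow, hc'.1, htop.1, div_self hlc]
      obtain ⟨l, hl, hl2⟩ := hprim.eq_pow_of_pow_eq_one h4
      have h5 : c' = c * om P.natDegree ^ l := by
        rw [hl2]
        field_simp [hB.c0]
      refine ⟨l, hl, h5, ?_⟩
      rw [p_Z2_dom_iff, ← h5]
      exact le_antisymm (htop.2 c' hc'.1) (hc'.2 c htop.1)
    obtain ⟨l, hl, hcl, hDl⟩ := hroot c₀ ht0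
    obtain ⟨l', hl', hcl', hDl'⟩ := hroot c₁ ht1
    have hll : l ≠ l' := by
      rintro rfl
      exact hne (hcl.trans hcl'.symm)
    rw [hcl, hcl'] at hev
    have hK := (p_Z2_KK P c l l').2 hev
    rcases Nat.eq_zero_or_pos l with h0 | h0
    · subst h0
      exact hfreq l' (Nat.pos_of_ne_zero hll.symm) hl' hDl' hK.symm
    · rcases Nat.eq_zero_or_pos l' with h0' | h0'
      · subst h0'
        exact hfreq l h0 hl hDl hK
      · exact absurd (huniq l l' h0 hl hDl h0' hl' hDl') hll

end HillRoots
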