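import Pool.Agent.Lib.MP_e63cf8_mp.StmA
import Pool.Agent.Lib.MP_e63cf8_mp.StmB

open Polynomial Filter Topology MeasureTheory Asymptotics

namespace HillRoots

/-- a nonzero root vector gives a true eigenvector -/
private theorem p_F10_eig (P Q : ℂ[X]) (μ : ℂ) (x : Hs) (hx : x ∈ seqRoot P Q μ) (hx0 : x ≠ 0) :
    ∃ y : Hs, y ≠ 0 ∧ ∀ s, Top P Q y s = μ * y s := by
  obtain ⟨hm, N, hN⟩ := hx
  classical
  have hex : ∃ N : ℕ, (Tsh P Q μ)^[N] x = 0 := ⟨N, hN⟩
  obtain ⟨r, hr⟩ : ∃ r, Nat.find hex = r + 1 := by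
    refine Nat.exists_eq_succ_of_ne_zero fun h0 => ?_
    have h1 := Nat.find_spec hex
    rw [h0] at h1
    apply hx0
    apply lp.ext
    exact h1
  have hr1 : (Tsh P Q μ)^[r] x ≠ 0 := Nat.find_min hex (by omega)
  have hr2 : (Tsh P Q μ)^[r + 1] x = 0 := by rw [← hr]; exact Nat.find_spec hex
  refine ⟨⟨(Tsh P Q μ)^[r] x, hm r⟩, fun h => hr1 ?_, fun s => ?_⟩
  · have := congrArg (fun y : Hs => (y : ℤ → ℂ)) h
    exact this
  · rw [Function.iterate_succ_apply'] at hr2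
    have := congrFun hr2 s
    unfold Tsh at this
    exact sub_eq_zero.1 this

theorem p_F10 (hB3 : S_B3) (hB5 : S_B5) (hB6 : S_B6) (hB7 : S_B7) (hF9 : S_F9) : S_F10 := by
  intro P Q hP hQ hPQ
  obtain ⟨K, N₀, h3⟩ := hB3 P Q
  obtain ⟨N₁, h5⟩ := hB5 P Q
  obtain ⟨n₀, h9⟩ := hF9 P Q (2 * nu P Q) hP hQ hPQ
  obtain ⟨W, Y, hBD⟩ := h3 (max N₀ N₁) (le_max_left _ _)
  have h5' := h5 K (max N₀ N₁) (le_max_right _ _) W Y hBD
  set N := max N₀ N₁ with hNdef
  refine ⟨N + 1 + n₀, max K 1, lt_max_of_lt_right one_pos, fun k hk hk1 => ?_⟩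
  have hkN : N < k := by omega
  obtain ⟨ψ, ev, hψ1, hψ2, hψ3⟩ := hB6 P Q K N W Y hBD k
  -- the members of the block
  have hblkpos : blk N (k : ℤ) = k := by
    unfold blk; rw [Int.natAbs_natCast, if_neg (by omega)]
  have hblkneg : blk N (-(k : ℤ)) = k := by
    unfold blk; rw [Int.natAbs_neg, Int.natAbs_natCast, if_neg (by omega)]
  -- support of the elements of the block space
  have hsup : ∀ x ∈ Submodule.span ℂ (Set.range fun i : {i : ℤ // blk N i = k} => W (ee i)),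
      ∀ j : ℤ, blk N j ≠ k → W.symm x j = 0 := by
    intro x hx j hj
    induction hx using Submodule.span_induction with
    | mem x hx =>
      obtain ⟨i, rfl⟩ := hx
      change (W.symm (W (ee i)) : ℤ → ℂ) j = 0
      rw [ContinuousLinearEquiv.symm_apply_apply]
      unfold ee
      rw [lp.single_apply_ne]
      rintro rfl
      exact hj i.2
    | zero => rw [map_zero]; rfl
    | add x y _ _ hx hy => rw [map_add, lp.coeFn_add, Pi.add_apply, hx, hy, add_zero]
    | smul a x _ hx => rw [map_smul, lp.coeFn_smul, Pi.smul_apply, hx, smul_zero]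
  -- the eigenvalues
  have hev : ∀ i, ev i = 4 * (k : ℂ) ^ 2 := by
    intro i
    have hne : ψ i ≠ 0 := hψ2.ne_zero i
    obtain ⟨i', hi1, hi2⟩ := h5' (ev i) (ψ i) (hψ1 i) hne
    have hblk : blk N i' = k := by
      by_contra hc
      apply hne
      have h1 : W.symm (ψ i) = 0 := by
        apply lp.ext
        funext j
        by_cases hj : blk N j = k
        · exact hi2 j (by rw [hj]; exact Ne.symm hc)
        · refine hsup (ψ i) ?_ j hj
          rw [← hψ3]
          exact Submodule.subset_span ⟨i, rfl⟩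
      have h2 := congrArg W h1
      rwa [ContinuousLinearEquiv.apply_symm_apply, map_zero] at h2
    have hsq : (4 : ℂ) * (i' : ℂ) ^ 2 = 4 * (k : ℂ) ^ 2 := by
      have h1 : i'.natAbs = k := by
        unfold blk at hblk
        split_ifs at hblk with h
        · omega
        · exact hblk
      have h2 : i' ^ 2 = (k : ℤ) ^ 2 := by
        rw [← h1, Int.natAbs_sq]
      have h3 : ((i' : ℤ) : ℂ) ^ 2 = (k : ℂ) ^ 2 := by exact_mod_cast congrArg (fun t : ℤ => (t : ℂ)) h2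
      rw [h3]
    rw [hsq] at hi1
    obtain ⟨y, hy0, hy⟩ := p_F10_eig P Q (ev i) (ψ i) (hψ1 i) hne
    have hz := h9 k (by omega) (ev i - 4 * (k : ℂ) ^ 2) y (by rw [norm_sub_rev]; exact hi1) hy0
      (fun s => by rw [hy s]; ring)
    exact sub_eq_zero.1 hz
  obtain ⟨S, hS⟩ := (hB7 P Q).1 (4 * (k : ℂ) ^ 2)
  have hspan : Submodule.span ℂ (Set.range fun i : {i : ℤ // blk N i = k} => W (ee i)) ≤ S := by
    rw [← hψ3, Submodule.span_le]
    rintro _ ⟨i, rfl⟩
    rw [hS, ← hev i]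
    exact hψ1 i
  have hmem : ∀ j : ℤ, blk N j = k → W (ee j) ∈ seqRoot P Q (4 * (k : ℂ) ^ 2) := by
    intro j hj
    rw [← hS]
    exact hspan (Submodule.subset_span ⟨⟨j, hj⟩, rfl⟩)
  have hkR : (0 : ℝ) < k := by exact_mod_cast hk1
  have h1K : (1 : ℝ) ≤ max K 1 := le_max_right _ _
  have h0K : (0 : ℝ) ≤ max K 1 := zero_le_one.trans h1K
  refine ⟨W (ee (-(k : ℤ))), W (ee k), 4 * (k : ℂ) ^ 2, 4 * (k : ℂ) ^ 2, 1, 0, 0, 1,
    hmem _ hblkneg, hmem _ hblkpos, ?_, ?_, ?_, ?_, ?_, ?_, ?_, ?_, ?_⟩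
  · rw [sub_self, norm_zero]; exact h0K
  · rw [sub_self, norm_zero]; exact h0K
  · rw [one_smul, zero_smul, sub_zero]
    refine (hBD.near (-(k : ℤ)) (by rw [Int.natAbs_neg, Int.natAbs_natCast]; exact hkN)).trans ?_
    push_cast
    rw [abs_neg, abs_of_pos hkR]
    exact div_le_div_of_nonneg_right (le_max_left _ _) hkR.le
  · rw [one_smul, zero_smul, sub_zero]
    refine (hBD.near (k : ℤ) (by rw [Int.natAbs_natCast]; exact hkN)).trans ?_
    push_cast
    rw [abs_of_pos hkR]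
    exact div_le_div_of_nonneg_right (le_max_left _ _) hkR.le
  · rw [norm_one]; exact h1K
  · rw [norm_zero]; exact h0K
  · rw [norm_zero]; exact h0K
  · rw [norm_one]; exact h1K
  · rw [one_mul, zero_mul, sub_zero, norm_one, div_le_iff₀ (by linarith), one_mul]; exact h1K

end HillRoots
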