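import Pool.Agent.Lib.MP_e63cf8_mp.StmB

open Polynomial Filter Topology MeasureTheory Asymptotics

namespace HillRoots

/-- sum over the coefficients of `P` -/
private noncomputable def p_F9_nu (P : ℂ[X]) : ℝ := ∑ j ∈ Finset.range (P.natDegree + 1), ‖P.coeff j‖

private theorem p_F9_key (P : ℂ[X]) (hP : P.coeff 0 = 0) (K : ℝ) (n : ℕ)
    (hn : K + 2 * p_F9_nu P + 2 < n) (z : ℂ) (hz : ‖z‖ ≤ K) (hz0 : z ≠ 0)
    (c : ℤ → ℂ) (C : ℝ) (hC : ∀ s, ‖c s‖ ≤ C)
    (heq : ∀ s : ℤ, ((En n s : ℂ) + z) * c s =
      ∑ j ∈ Finset.range (P.natDegree + 1), P.coeff j * c (s - j)) : ∀ s, c s = 0 := by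
  have hK : 0 ≤ K := (norm_nonneg z).trans hz
  have hν : 0 ≤ p_F9_nu P := Finset.sum_nonneg fun _ _ => norm_nonneg _
  have hC0 : 0 ≤ C := (norm_nonneg _).trans (hC 0)
  have hnR : (2 : ℝ) < n := by linarith
  -- size of the coefficient
  have hE : ∀ s : ℤ, s ≠ 0 → s ≠ n → (n : ℝ) - K ≤ ‖(En n s : ℂ) + z‖ := by
    intro s h0 h1
    have h2 : (n : ℝ) ≤ |En n s| := by
      unfold En
      have hs1 : (1 : ℝ) ≤ |(s : ℝ)| := by
        have : (1 : ℤ) ≤ |s| := Int.one_le_abs h0
        exact_mod_cast this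
      have hs2 : (1 : ℝ) ≤ |(n : ℝ) - s| := by
        have : (1 : ℤ) ≤ |(n : ℤ) - s| := Int.one_le_abs (sub_ne_zero.2 (Ne.symm h1))
        exact_mod_cast this
      have hs3 : (n : ℝ) ≤ |(s : ℝ)| + |(n : ℝ) - s| := by
        have := abs_add_le (s : ℝ) ((n : ℝ) - s)
        rw [add_sub_cancel] at this
        exact (le_abs_self _).trans this
      rw [abs_mul, abs_mul, abs_of_pos (by norm_num : (0 : ℝ) < 4)]
      nlinarith
    have h3 : ‖(En n s : ℂ)‖ = |En n s| := by
      rw [Complex.norm_real, Real.norm_eq_abs]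
    have h4 := norm_sub_le ((En n s : ℂ) + z) z
    rw [add_sub_cancel_right, h3] at h4
    linarith
  have hEne : ∀ s : ℤ, (En n s : ℂ) + z ≠ 0 := by
    intro s
    by_cases h0 : s = 0
    · subst h0
      unfold En
      simpa using hz0
    by_cases h1 : s = n
    · subst h1
      unfold En
      simpa using hz0
    · have := hE s h0 h1
      have h5 : 0 < ‖(En n s : ℂ) + z‖ := by linarith
      exact norm_pos_iff.1 h5
  -- negative indices
  have hneg : ∀ m : ℕ, ∀ s : ℤ, s < 0 → ‖c s‖ ≤ C / 2 ^ m := by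
    intro m
    induction m with
    | zero => intro s _; simpa using hC s
    | succ m ih =>
      intro s hs
      have h1 : ‖((En n s : ℂ) + z) * c s‖ ≤ p_F9_nu P * (C / 2 ^ m) := by
        rw [heq s, p_F9_nu, Finset.sum_mul]
        refine (norm_sum_le _ _).trans (Finset.sum_le_sum fun j _ => ?_)
        rw [norm_mul]
        exact mul_le_mul_of_nonneg_left (ih _ (by omega)) (norm_nonneg _)
      rw [norm_mul] at h1
      have h2 := hE s (by omega) (by omega)
      have h3 : (2 * p_F9_nu P + 2) * ‖c s‖ ≤ p_F9_nu P * (C / 2 ^ m) := by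
        refine le_trans (mul_le_mul_of_nonneg_right ?_ (norm_nonneg _)) h1
        linarith
      have h4 : 0 ≤ C / 2 ^ m := by positivity
      have h5 : C / 2 ^ (m + 1) = C / 2 ^ m / 2 := by rw [pow_succ, div_mul_eq_div_div]
      rw [h5]
      by_contra h6
      push Not at h6
      have h7 : (p_F9_nu P + 1) * (C / 2 ^ m) < (2 * p_F9_nu P + 2) * ‖c s‖ := by
        nlinarith
      nlinarith
  have hneg0 : ∀ s : ℤ, s < 0 → c s = 0 := by
    intro s hs
    have h1 : Tendsto (fun m : ℕ => C / 2 ^ m) atTop (𝓝 0) := by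
      have h2 := (tendsto_pow_atTop_nhds_zero_of_lt_one (r := (1 / 2 : ℝ)) (by norm_num)
        (by norm_num)).const_mul C
      rw [mul_zero] at h2
      refine h2.congr fun m => ?_
      rw [one_div, inv_pow, div_eq_mul_inv]
    have h2 : ‖c s‖ ≤ 0 := ge_of_tendsto' h1 fun m => hneg m s hs
    exact norm_le_zero_iff.1 h2
  have hpos : ∀ m : ℕ, ∀ s : ℤ, s < m → c s = 0 := by
    intro m
    induction m with
    | zero => intro s hs; exact hneg0 s (by exact_mod_cast hs)
    | succ m ih =>
      intro s hs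
      have h1 : ((En n s : ℂ) + z) * c s = 0 := by
        rw [heq s]
        refine Finset.sum_eq_zero fun j _ => ?_
        rcases Nat.eq_zero_or_pos j with h | h
        · rw [h, hP, zero_mul]
        · rw [ih (s - j) (by push_cast at hs; omega), mul_zero]
      exact (mul_eq_zero.1 h1).resolve_left (hEne s)
  intro s
  exact hpos (s.toNat + 1) s (by push_cast; have := Int.self_le_toNat s; omega)

theorem p_F9 (hF1 : S_F1) (hF2 : S_F2) : S_F9 := by
  intro P Q K hP hQ hPQ
  obtain ⟨n₀, hn₀⟩ := exists_nat_gt (K + 2 * p_F9_nu P + 2 * p_F9_nu Q + 2)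
  have hνP : 0 ≤ p_F9_nu P := Finset.sum_nonneg fun _ _ => norm_nonneg _
  have hνQ : 0 ≤ p_F9_nu Q := Finset.sum_nonneg fun _ _ => norm_nonneg _
  refine ⟨n₀, fun k hk z x hz hx heq => ?_⟩
  by_contra hz0
  apply hx
  have hkR : (n₀ : ℝ) ≤ k := by exact_mod_cast hk
  have hK0 : 0 ≤ K := (norm_nonneg z).trans hz
  have hbig : ((2 * k : ℕ) : ℝ) = 2 * k := by push_cast; ring
  have hE : ∀ s : ℤ, ((En (2 * k) s : ℝ) : ℂ) = 4 * (k : ℂ) ^ 2 - 4 * ((s - k : ℤ) : ℂ) ^ 2 := by
    intro s; unfold En; push_cast; ring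
  have heq' : ∀ s : ℤ, ((En (2 * k) s : ℂ) + z) * x (s - k) = Vop P Q x (s - k) := by
    intro s
    have h := heq (s - k)
    unfold Top at h
    rw [hE s]
    linear_combination -h
  have hall : ∀ s : ℤ, (x : ℤ → ℂ) s = 0 := by
    rcases hPQ with h0 | h0
    · -- `P = 0`: reflect
      have h1 := p_F9_key Q hQ K (2 * k) (by rw [hbig]; linarith) z hz hz0
        (fun s => x (k - s)) ‖x‖ (fun s => lp.norm_apply_le_norm (by norm_num) x _) (by
          intro s
          have h2 := heq' (2 * k - s)
          have h3 : (En (2 * k) (2 * k - s) : ℂ) = (En (2 * k) s : ℂ) := by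
            unfold En; push_cast; ring
          rw [h3, show (2 * k - s : ℤ) - k = k - s by ring] at h2
          change ((En (2 * k) s : ℂ) + z) * x (k - s) =
            ∑ j ∈ Finset.range (Q.natDegree + 1), Q.coeff j * x (k - (s - j))
          rw [h2]
          unfold Vop
          rw [h0]
          simp only [coeff_zero, zero_mul, Finset.sum_const_zero, zero_add]
          refine Finset.sum_congr rfl fun j _ => ?_
          rw [show (k - s : ℤ) + j = k - (s - j) by ring])
      intro s
      have := h1 (k - s)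
      rwa [sub_sub_cancel] at this
    · have h1 := p_F9_key P hP K (2 * k) (by rw [hbig]; linarith) z hz hz0
        (fun s => x (s - k)) ‖x‖ (fun s => lp.norm_apply_le_norm (by norm_num) x _) (by
          intro s
          have h2 := heq' s
          change ((En (2 * k) s : ℂ) + z) * x (s - k) =
            ∑ j ∈ Finset.range (P.natDegree + 1), P.coeff j * x (s - j - k)
          rw [h2]
          unfold Vop
          rw [h0]
          simp only [coeff_zero, zero_mul, Finset.sum_const_zero, add_zero]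
          refine Finset.sum_congr rfl fun j _ => ?_
          rw [show (s : ℤ) - k - j = s - j - k by ring])
      intro s
      have := h1 (s + k)
      rwa [add_sub_cancel_right] at this
  apply lp.ext
  funext s
  exact hall s

end HillRoots
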