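import Pool.Agent.Lib.MP_e63cf8_mp.P.X12

open Polynomial Filter Topology MeasureTheory Asymptotics

namespace HillRoots

/-- zeroth order expansion -/
theorem p_X10_exp (P : ℂ[X]) (c : ℂ) (g : ℂ → ℂ) (τ₀ K δ : ℝ) (hB : Branch P c g τ₀ K δ) :
    (fun t : ℝ => Real.log ‖g (c * t)‖) =O[𝓝 0] (fun t : ℝ => t) := by
  obtain ⟨r, hr, han⟩ := hB.an
  have hτ : 0 < τ₀ := hB.ld.ht
  have hc : 0 < ‖c‖ := norm_pos_iff.mpr hB.c0
  have hr0 : 0 < r := lt_trans (mul_pos hc hτ) hr
  have hg : AnalyticAt ℂ g 0 := han 0 (Metric.mem_ball_self hr0)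
  have hd : HasDerivAt g (deriv g 0) 0 := hg.differentiableAt.hasDerivAt
  have h1 := p_X12_exp g hg hB.one _ hd c
  have h2 : (fun t : ℝ => t ^ 2) =O[𝓝 0] (fun t : ℝ => t) := by
    refine IsBigO.of_bound 1 ?_
    filter_upwards [Metric.ball_mem_nhds (0 : ℝ) one_pos] with t ht
    have : |t| < 1 := by simpa using ht
    rw [one_mul, norm_pow, Real.norm_eq_abs, pow_two]
    nlinarith [abs_nonneg t]
  have h3 : (fun t : ℝ => t * (deriv g 0 * c).re) =O[𝓝 0] (fun t : ℝ => t) :=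
    (isBigO_refl _ _).mul (isBigO_const_const _ one_ne_zero _) |>.congr_right (fun t => by simp)
  have h4 := (h1.trans h2).add h3
  refine h4.congr_left ?_
  intro t
  ring

theorem p_X10 (hR3 : S_R3) (hR5 : S_R5) : S_X10 := by
  intro P Q hP hQ hPQ hM hM2
  obtain ⟨c, g, τ₀, K, δ, hB⟩ := hR3 P (by omega)
  obtain ⟨c', g', τ₀', K', δ', hB'⟩ := hR3 Q (by omega)
  have he := p_X10_exp P c g τ₀ K δ hB
  have he' := p_X10_exp Q c' g' τ₀' K' δ' hB'
  set M := P.natDegree with hMM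
  have hMR : (0 : ℝ) < M := by exact_mod_cast (by omega : 0 < M)
  have hM2R : (M : ℝ) ≤ 2 := by exact_mod_cast hM2
  have hc : 0 < ‖c‖ := norm_pos_iff.mpr hB.c0
  have hc' : 0 < ‖c'‖ := norm_pos_iff.mpr hB'.c0
  have ht : Tendsto (fun E : ℝ => E ^ (-(1 / (M : ℝ)))) atTop (𝓝 0) :=
    tendsto_rpow_neg_atTop (by positivity)
  have hlead : ‖P.leadingCoeff‖ = ‖Q.leadingCoeff‖ ↔ ‖c‖ = ‖c'‖ := by
    rw [← hB.hc, ← hB'.hc, norm_pow, norm_pow, ← hPQ, ← hMM]
    exact pow_left_inj₀ hc.le hc'.le (by omega)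
  -- the expansion
  have hO : (fun E : ℝ => Real.log (rmin P E / rmin Q E) - (Real.log ‖c'‖ - Real.log ‖c‖)) =O[atTop]
      (fun E : ℝ => E ^ (-(1 / (M : ℝ)))) := by
    have h1 := he'.comp_tendsto ht
    have h2 := he.comp_tendsto ht
    have h3 := h1.sub h2
    refine h3.congr' ?_ (Eventually.of_forall fun E => rfl)
    have hn : ∀ᶠ E : ℝ in atTop, E ^ (-(1 / (M : ℝ))) ∈ Set.Icc 0 τ₀ := by
      filter_upwards [ht.eventually_lt_const hB.ld.ht, eventually_gt_atTop 0] with E h1 h2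
      exact ⟨Real.rpow_nonneg h2.le _, h1.le⟩
    have hn' : ∀ᶠ E : ℝ in atTop, E ^ (-(1 / (M : ℝ))) ∈ Set.Icc 0 τ₀' := by
      filter_upwards [ht.eventually_lt_const hB'.ld.ht, eventually_gt_atTop 0] with E h1 h2
      exact ⟨Real.rpow_nonneg h2.le _, h1.le⟩
    have hr := hR5 P c g τ₀ K δ hP hB
    have hr' := hR5 Q c' g' τ₀' K' δ' hQ hB'
    filter_upwards [hr, hr', hn, hn', eventually_gt_atTop 0] with E h4 h5 h6 h7 h8
    simp only [Function.comp_apply]
    rw [← hMM] at h4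
    rw [← hPQ] at h5
    rw [h4, h5]
    set t := E ^ (-(1 / (M : ℝ))) with htt
    have ht0 : 0 < t := Real.rpow_pos_of_pos h8 _
    have hl := hB.ld.low 0 (by have := hB.ld.hM; omega) t h6
    have hl' := hB'.ld.low 0 (by have := hB'.ld.hM; omega) t h7
    rw [← hMM] at hl
    rw [← hPQ] at hl'
    have e1 : ‖g (c * t)‖ = ‖br M c g 0 t‖ := by rw [p_X12_brnorm]; simp
    have e2 : ‖g' (c' * t)‖ = ‖br M c' g' 0 t‖ := by rw [p_X12_brnorm]; simp
    rw [e1, e2]
    have p1 : 0 < ‖br M c g 0 t‖ := by linarith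
    have p2 : 0 < ‖br M c' g' 0 t‖ := by linarith
    rw [Real.log_div (by positivity) (by positivity), Real.log_inv, Real.log_inv,
      Real.log_mul (by positivity) (by positivity), Real.log_mul (by positivity) (by positivity),
      Real.log_mul (by positivity) (by positivity), Real.log_mul (by positivity) (by positivity)]
    ring
  have hhalf : Tendsto (fun E : ℝ => E ^ (-(1 / 2) : ℝ)) atTop (𝓝 0) :=
    tendsto_rpow_neg_atTop (by norm_num)
  rw [hlead]
  unfold Crit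
  constructor
  · intro hC
    have hL0 := hC.trans_tendsto hhalf
    have hD0 := hO.trans_tendsto ht
    have h1 := hL0.sub hD0
    have h2 : Tendsto (fun _ : ℝ => Real.log ‖c'‖ - Real.log ‖c‖) atTop (𝓝 (0 - 0)) := by
      refine h1.congr ?_
      intro E
      ring
    have h3 := tendsto_nhds_unique h2 tendsto_const_nhds
    have h4 : Real.log ‖c‖ = Real.log ‖c'‖ := by linarith
    exact Real.log_injOn_pos (Set.mem_Ioi.mpr hc) (Set.mem_Ioi.mpr hc') h4
  · intro h
    have h1 : (fun E : ℝ => Real.log (rmin P E / rmin Q E)) =O[atTop]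
        (fun E : ℝ => E ^ (-(1 / (M : ℝ)))) := by
      refine hO.congr_left ?_
      intro E
      rw [h]
      ring
    refine h1.trans ?_
    refine IsBigO.of_bound 1 ?_
    filter_upwards [eventually_ge_atTop 1] with E hE
    have hE0 : (0 : ℝ) < E := by linarith
    rw [one_mul, Real.norm_eq_abs, Real.norm_eq_abs, abs_of_nonneg (by positivity),
      abs_of_nonneg (by positivity)]
    apply Real.rpow_le_rpow_of_exponent_le hE
    have : (1 : ℝ) / 2 ≤ 1 / (M : ℝ) := one_div_le_one_div_of_le hMR hM2R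
    linarith

end HillRoots
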