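import Pool.Agent.Lib.MP_e63cf8_mp.P.X12

open Polynomial Filter Topology MeasureTheory Asymptotics

namespace HillRoots

theorem p_X11 (hR3 : S_R3) (hR5 : S_R5) : S_X11 := by
  intro P Q hP hQ hPQ hM hM4
  refine ⟨fun h => p_X12 hR3 hR5 P Q hP hQ hPQ hM h, ?_⟩
  rintro ⟨hl, hmu⟩
  obtain ⟨A, hA, hO⟩ := p_X12_main hR3 hR5 P Q hP hQ hPQ (by omega)
  have hA0 : A = 0 := hA.mpr hl
  have hMR : (0 : ℝ) < P.natDegree := by exact_mod_cast (by omega : 0 < P.natDegree)
  have hM4' : (P.natDegree : ℝ) ≤ 4 := by exact_mod_cast hM4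
  unfold Crit
  have h1 : (fun E : ℝ => Real.log (rmin P E / rmin Q E)) =O[atTop]
      (fun E : ℝ => (E ^ (-(1 / (P.natDegree : ℝ)))) ^ 2) := by
    refine hO.congr_left ?_
    intro E
    rw [hA0, hmu]
    simp
  refine h1.trans ?_
  refine IsBigO.of_bound 1 ?_
  filter_upwards [eventually_ge_atTop 1] with E hE
  have hE0 : (0 : ℝ) < E := by linarith
  rw [one_mul, Real.norm_eq_abs, Real.norm_eq_abs, abs_of_nonneg (by positivity),
    abs_of_nonneg (by positivity), ← Real.rpow_natCast, ← Real.rpow_mul hE0.le]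
  apply Real.rpow_le_rpow_of_exponent_le hE
  have : (1 : ℝ) / 4 ≤ 1 / (P.natDegree : ℝ) := one_div_le_one_div_of_le hMR hM4'
  push_cast
  linarith

end HillRoots
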