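import Pool.Agent.Lib.MP_e63cf8_mp.StmC

/-! # Piece A4: the value at `n` -/

open Polynomial Filter Topology MeasureTheory Asymptotics

namespace HillRoots

theorem p_A4_GG0 (M : ℕ) (c : ℂ) (g : ℂ → ℂ) (n s : ℕ) : 0 ≤ GG M c g n s :=
  Finset.prod_nonneg fun _ _ => norm_nonneg _

/-- the average of the branch products is at most the dominating product -/
theorem p_A4_yy (M : ℕ) (A : ℕ → ℂ) (c : ℂ) (g : ℂ → ℂ) (τ₀ K δ : ℝ)
    (h : LDat M A (br M c g) τ₀ K δ) (n s : ℕ) (hs : s < n)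
    (ht : ∀ k < n, tau M n k ∈ Set.Icc 0 τ₀) : ‖yy M c g n s‖ ≤ GG M c g n s := by
  have hM : (0 : ℝ) < M := by exact_mod_cast h.hM
  unfold yy
  rw [norm_mul, norm_div, norm_one, Complex.norm_natCast]
  have h1 : ‖∑ l ∈ Finset.range M, ∏ i ∈ Finset.Icc 1 s, br M c g l (tau M n i)‖ ≤
      M * GG M c g n s := by
    calc ‖∑ l ∈ Finset.range M, ∏ i ∈ Finset.Icc 1 s, br M c g l (tau M n i)‖
        ≤ ∑ l ∈ Finset.range M, ‖∏ i ∈ Finset.Icc 1 s, br M c g l (tau M n i)‖ :=
          norm_sum_le _ _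
      _ ≤ ∑ l ∈ Finset.range M, GG M c g n s := by
          refine Finset.sum_le_sum fun l hl => ?_
          rw [norm_prod]
          unfold GG
          refine Finset.prod_le_prod (fun _ _ => norm_nonneg _) fun i hi => ?_
          rw [Finset.mem_Icc] at hi
          exact h.dom l (Finset.mem_range.1 hl) _ (ht i (by omega))
      _ = M * GG M c g n s := by
          rw [Finset.sum_const, Finset.card_range, nsmul_eq_mul]
  calc 1 / (M : ℝ) * ‖∑ l ∈ Finset.range M, ∏ i ∈ Finset.Icc 1 s, br M c g l (tau M n i)‖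
      ≤ 1 / (M : ℝ) * (M * GG M c g n s) := mul_le_mul_of_nonneg_left h1 (by positivity)
    _ = GG M c g n s := by
        field_simp

/-- the products grow at most like powers of two -/
theorem p_A4_GG (M : ℕ) (A : ℕ → ℂ) (c : ℂ) (g : ℂ → ℂ) (τ₀ K δ : ℝ)
    (h : LDat M A (br M c g) τ₀ K δ) (n s : ℕ)
    (ht : ∀ k < n, tau M n k ∈ Set.Icc 0 τ₀) (i : ℕ) (hi : s + i < n) :
    GG M c g n (s + i) ≤ 2 ^ i * GG M c g n s := by
  induction i with
  | zero => simp
  | succ i ih =>
    have h1 := ih (by omega)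
    have h2 : GG M c g n (s + (i + 1)) =
        GG M c g n (s + i) * ‖br M c g 0 (tau M n (s + i + 1))‖ := by
      unfold GG
      rw [← add_assoc, Finset.prod_Icc_succ_top (by omega)]
    rw [h2]
    have h3 := h.upp 0 (by have := h.hM; omega) _ (ht (s + i + 1) (by omega))
    calc GG M c g n (s + i) * ‖br M c g 0 (tau M n (s + i + 1))‖
        ≤ (2 ^ i * GG M c g n s) * 2 :=
          mul_le_mul h1 h3 (norm_nonneg _) (mul_nonneg (by positivity) (p_A4_GG0 _ _ _ _ _))
      _ = 2 ^ (i + 1) * GG M c g n s := by ring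

theorem p_A4 (hA3 : S_A3) (hH3 : S_H3) (hU1 : S_U1) : S_A4 := by
  intro P Q c g τ₀ K δ Z hP hQ hB
  obtain ⟨ρ, hρ, h3⟩ := hA3 P Q c g τ₀ K δ Z hP hQ hB
  have hM : 1 ≤ P.natDegree := hB.ld.hM
  obtain ⟨C, hC1, hC⟩ := hH3 P.natDegree 0 c hM hB.c0
  have hU := hU1 P.natDegree τ₀ hM hB.ld.ht
  set M := P.natDegree with hMdef
  have hlc : P.leadingCoeff ≠ 0 := by
    rw [← hB.hc]
    exact pow_ne_zero _ hB.c0
  have ha : 0 < ‖P.leadingCoeff‖ := norm_pos_iff.2 hlc
  set SP : ℝ := ∑ j ∈ Finset.range M, ‖P.coeff j‖ with hSP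
  set SQ : ℝ := ∑ j ∈ Finset.range (Q.natDegree + 1), ‖Q.coeff j‖ with hSQ
  have hSP0 : 0 ≤ SP := Finset.sum_nonneg fun _ _ => norm_nonneg _
  have hSQ0 : 0 ≤ SQ := Finset.sum_nonneg fun _ _ => norm_nonneg _
  refine ⟨fun n => SP * ((1 + |ρ n|) * C * (n : ℝ) ^ (-(1 / (M : ℝ))) * 2 ^ M) /
    ‖P.leadingCoeff‖ + |ρ n| + SQ * |ρ n| / ‖P.leadingCoeff‖, ?_, ?_⟩
  · have t1 : Tendsto (fun n => |ρ n|) atTop (𝓝 0) := by simpa using hρ.abs
    have t2 : Tendsto (fun n : ℕ => (n : ℝ) ^ (-(1 / (M : ℝ)))) atTop (𝓝 0) :=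
      (tendsto_rpow_neg_atTop (by positivity)).comp tendsto_natCast_atTop_atTop
    have t3 : Tendsto (fun n => (1 + |ρ n|) * C) atTop (𝓝 ((1 + 0) * C)) :=
      (tendsto_const_nhds.add t1).mul_const C
    have t4 := (((t3.mul t2).mul_const ((2 : ℝ) ^ M)).const_mul SP).div_const ‖P.leadingCoeff‖
    have t5 := (t1.const_mul SQ).div_const ‖P.leadingCoeff‖
    have t6 := (t4.add t1).add t5
    simpa using t6
  · filter_upwards [h3, hC, hU, eventually_ge_atTop (M + 1)] with n h3n hCn hUn hn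
    intro z γ Φ φ x hz hΦ hS hF
    obtain ⟨q1, -, q3⟩ := h3n z γ Φ φ x hz hΦ hS hF
    obtain ⟨-, w2, -, -⟩ := hCn
    set E : ℝ := ‖γ‖ + Φ with hE
    have hE0 : 0 ≤ E := add_nonneg (norm_nonneg _) hΦ
    set W : ℝ := ‖hh M c n (n - M)‖ * GG M c g n (n - M) with hW
    have hW0 : 0 ≤ W := mul_nonneg (norm_nonneg _) (p_A4_GG0 _ _ _ _ _)
    set B1 : ℝ := (1 + |ρ n|) * E * (C * (n : ℝ) ^ (-(1 / (M : ℝ))) * 2 ^ M * W) with hB1
    have hB10 : 0 ≤ B1 := by
      have : 0 ≤ (n : ℝ) ^ (-(1 / (M : ℝ))) := Real.rpow_nonneg (Nat.cast_nonneg _) _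
      positivity
    -- first sum
    have e1 : ∀ j ∈ Finset.range M, ‖P.coeff j * x ((n : ℤ) - j)‖ ≤ ‖P.coeff j‖ * B1 := by
      intro j hj
      rw [Finset.mem_range] at hj
      rcases Nat.eq_zero_or_pos j with h0 | h0
      · subst h0
        rw [hP]
        simp
      · rw [norm_mul]
        refine mul_le_mul_of_nonneg_left ?_ (norm_nonneg _)
        have hcast : (n : ℤ) - j = ((n - j : ℕ) : ℤ) := by
          rw [Nat.cast_sub (by omega)]
        rw [hcast]
        have hx := q1 (n - j) (by omega)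
        have hy := p_A4_yy M _ c g τ₀ K δ hB.ld n (n - j) (by omega) hUn
        have hGn : GG M c g n (n - j) ≤ 2 ^ M * GG M c g n (n - M) := by
          have h5 := p_A4_GG M _ c g τ₀ K δ hB.ld n (n - M) hUn (M - j) (by omega)
          rw [show n - M + (M - j) = n - j by omega] at h5
          refine h5.trans (mul_le_mul_of_nonneg_right ?_ (p_A4_GG0 _ _ _ _ _))
          exact pow_le_pow_right₀ (by norm_num) (by omega)
        have hhn := w2 j h0 hj
        have hx1 : ‖x ((n - j : ℕ) : ℤ)‖ ≤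
            (1 + |ρ n|) * E * (‖hh M c n (n - j)‖ * GG M c g n (n - j)) := by
          have e2 : ‖γ * hh M c n (n - j) * yy M c g n (n - j)‖ ≤
              E * (‖hh M c n (n - j)‖ * GG M c g n (n - j)) := by
            rw [norm_mul, norm_mul, mul_assoc]
            exact mul_le_mul (by linarith [norm_nonneg γ])
              (mul_le_mul_of_nonneg_left hy (norm_nonneg _))
              (mul_nonneg (norm_nonneg _) (norm_nonneg _)) hE0
          have e3 : ρ n * E * (‖hh M c n (n - j)‖ * GG M c g n (n - j)) ≤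
              |ρ n| * E * (‖hh M c n (n - j)‖ * GG M c g n (n - j)) :=
            mul_le_mul_of_nonneg_right (mul_le_mul_of_nonneg_right (le_abs_self _) hE0)
              (mul_nonneg (norm_nonneg _) (p_A4_GG0 _ _ _ _ _))
          have e4 : ‖x ((n - j : ℕ) : ℤ)‖ ≤
              ‖x ((n - j : ℕ) : ℤ) - γ * hh M c n (n - j) * yy M c g n (n - j)‖ +
              ‖γ * hh M c n (n - j) * yy M c g n (n - j)‖ := by
            have := norm_add_le (x ((n - j : ℕ) : ℤ) - γ * hh M c n (n - j) * yy M c g n (n - j))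
              (γ * hh M c n (n - j) * yy M c g n (n - j))
            rwa [sub_add_cancel] at this
          linarith
        refine hx1.trans ?_
        rw [hB1]
        refine mul_le_mul_of_nonneg_left ?_ (by positivity)
        have e5 := mul_le_mul hhn hGn (p_A4_GG0 _ _ _ _ _)
          ((norm_nonneg _).trans hhn)
        refine e5.trans (le_of_eq ?_)
        rw [hW]
        ring
    have e2 : ‖∑ j ∈ Finset.range M, P.coeff j * x ((n : ℤ) - j)‖ ≤ SP * B1 := by
      rw [hSP, Finset.sum_mul]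
      exact (norm_sum_le _ _).trans (Finset.sum_le_sum e1)
    -- second sum
    have e3 : ∀ j ∈ Finset.range (Q.natDegree + 1), ‖Q.coeff j * x ((n : ℤ) + j)‖ ≤
        ‖Q.coeff j‖ * (|ρ n| * E * W) := by
      intro j hj
      rcases Nat.eq_zero_or_pos j with h0 | h0
      · subst h0
        rw [hQ]
        simp
      · rw [norm_mul]
        refine mul_le_mul_of_nonneg_left ?_ (norm_nonneg _)
        refine (q3 ((n : ℤ) + j) (by omega)).trans ?_
        exact mul_le_mul_of_nonneg_right (mul_le_mul_of_nonneg_right (le_abs_self _) hE0) hW0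
    have e4 : ‖∑ j ∈ Finset.range (Q.natDegree + 1), Q.coeff j * x ((n : ℤ) + j)‖ ≤
        SQ * (|ρ n| * E * W) := by
      rw [hSQ, Finset.sum_mul]
      exact (norm_sum_le _ _).trans (Finset.sum_le_sum e3)
    -- the main term
    have e5 : ‖P.coeff M * x ((n : ℤ) - M) -
        γ * (P.leadingCoeff * hh M c n (n - M) * yy M c g n (n - M))‖ ≤
        ‖P.leadingCoeff‖ * (|ρ n| * E * W) := by
      have hcast : (n : ℤ) - M = ((n - M : ℕ) : ℤ) := by
        rw [Nat.cast_sub (by omega)]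
      rw [hcast, show P.coeff M = P.leadingCoeff from rfl,
        show P.leadingCoeff * x ((n - M : ℕ) : ℤ) -
          γ * (P.leadingCoeff * hh M c n (n - M) * yy M c g n (n - M)) =
          P.leadingCoeff * (x ((n - M : ℕ) : ℤ) - γ * hh M c n (n - M) * yy M c g n (n - M)) by ring,
        norm_mul]
      refine mul_le_mul_of_nonneg_left ?_ (norm_nonneg _)
      refine (q1 (n - M) (by omega)).trans ?_
      exact mul_le_mul_of_nonneg_right (mul_le_mul_of_nonneg_right (le_abs_self _) hE0) hW0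
    have e6 : Vop P Q x n - γ * (P.leadingCoeff * hh M c n (n - M) * yy M c g n (n - M)) =
        ∑ j ∈ Finset.range M, P.coeff j * x ((n : ℤ) - j) +
        (P.coeff M * x ((n : ℤ) - M) -
          γ * (P.leadingCoeff * hh M c n (n - M) * yy M c g n (n - M))) +
        ∑ j ∈ Finset.range (Q.natDegree + 1), Q.coeff j * x ((n : ℤ) + j) := by
      unfold Vop
      rw [← hMdef, Finset.sum_range_succ]
      ring
    rw [e6]
    refine (norm_add₃_le).trans ?_
    have e7 : SP * B1 + ‖P.leadingCoeff‖ * (|ρ n| * E * W) + SQ * (|ρ n| * E * W) =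
        (SP * ((1 + |ρ n|) * C * (n : ℝ) ^ (-(1 / (M : ℝ))) * 2 ^ M) / ‖P.leadingCoeff‖ + |ρ n| +
          SQ * |ρ n| / ‖P.leadingCoeff‖) * E * RR P c g n := by
      have hR : RR P c g n = ‖P.leadingCoeff‖ * W := by
        unfold RR
        rw [← hMdef, hW]
        ring
      rw [hR, hB1]
      field_simp
    rw [← e7]
    exact add_le_add (add_le_add e2 e5) e4

end HillRoots
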