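import Pool.Agent.Lib.MP_e63cf8_mp.StmA

/-! Piece B3: existence of the block diagonalisation -/

open Polynomial Filter Topology MeasureTheory Asymptotics
open scoped ContDiff

namespace HillRoots

/-- the block with index `m` -/
private noncomputable def p_B3_Bk (N m : ℕ) : Finset ℤ :=
  (Finset.Icc (-((max m N : ℕ) : ℤ)) ((max m N : ℕ) : ℤ)).filter (fun l => blk N l = m)

private lemma p_B3_mem {N m : ℕ} {l : ℤ} : l ∈ p_B3_Bk N m ↔ blk N l = m := by
  unfold p_B3_Bk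
  rw [Finset.mem_filter, Finset.mem_Icc]
  constructor
  · exact fun h => h.2
  · intro h
    refine ⟨?_, h⟩
    unfold blk at h
    have h1 : N ≤ max m N := le_max_right _ _
    have h2 : m ≤ max m N := le_max_left _ _
    split_ifs at h with h3
    · omega
    · omega

private lemma p_B3_toReal : (2 : ENNReal).toReal = 2 := by norm_num

private lemma p_B3_single (j : ℤ) (c : ℂ) : c • ee j = lp.single 2 j c := by
  unfold ee
  rw [← lp.single_smul, smul_eq_mul, mul_one]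

private lemma p_B3_ee (i j : ℤ) : (ee j : ℤ → ℂ) i = if i = j then 1 else 0 := by
  unfold ee
  by_cases h : i = j
  · subst h
    rw [if_pos rfl, lp.single_apply_self]
  · rw [if_neg h, lp.single_apply_ne _ _ _ h]

private lemma p_B3_add (a b : Hs) (s : ℤ) :
    ((a + b : Hs) : ℤ → ℂ) s = (a : ℤ → ℂ) s + (b : ℤ → ℂ) s := by
  rw [lp.coeFn_add, Pi.add_apply]

private lemma p_B3_smul (c : ℂ) (a : Hs) (s : ℤ) :
    ((c • a : Hs) : ℤ → ℂ) s = c * (a : ℤ → ℂ) s := by
  rw [lp.coeFn_smul, Pi.smul_apply, smul_eq_mul]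

private lemma p_B3_sum {ι : Type} (t : Finset ι) (f : ι → Hs) (s : ℤ) :
    ((∑ i ∈ t, f i : Hs) : ℤ → ℂ) s = ∑ i ∈ t, (f i : ℤ → ℂ) s := by
  rw [lp.coeFn_sum, Finset.sum_apply]

/-- the projection on the block `m` -/
private noncomputable def p_B3_pr (N m : ℕ) (a : Hs) : Hs := ∑ l ∈ p_B3_Bk N m, a l • ee l

private lemma p_B3_pr_add (N m : ℕ) (a b : Hs) :
    p_B3_pr N m (a + b) = p_B3_pr N m a + p_B3_pr N m b := by
  unfold p_B3_pr
  rw [← Finset.sum_add_distrib]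
  refine Finset.sum_congr rfl fun l _ => ?_
  rw [lp.coeFn_add, Pi.add_apply, add_smul]

private lemma p_B3_pr_smul (N m : ℕ) (c : ℂ) (a : Hs) :
    p_B3_pr N m (c • a) = c • p_B3_pr N m a := by
  unfold p_B3_pr
  rw [Finset.smul_sum]
  refine Finset.sum_congr rfl fun l _ => ?_
  rw [lp.coeFn_smul, Pi.smul_apply, smul_smul, smul_eq_mul]

private lemma p_B3_sq (x : Hs) (s : Finset ℤ) : ∑ i ∈ s, ‖x i‖ ^ 2 ≤ ‖x‖ ^ 2 := by
  have h := lp.sum_rpow_le_norm_rpow (p := 2) (by norm_num) x s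
  rw [p_B3_toReal] at h
  simpa using h

private lemma p_B3_pr_norm (N m : ℕ) (a : Hs) :
    ‖p_B3_pr N m a‖ ^ 2 = ∑ l ∈ p_B3_Bk N m, ‖a l‖ ^ 2 := by
  have h := lp.norm_sum_single (E := fun _ : ℤ => ℂ) (p := 2) (by norm_num) (fun l => a l)
    (p_B3_Bk N m)
  rw [p_B3_toReal] at h
  unfold p_B3_pr
  simp only [p_B3_single]
  simpa using h

private lemma p_B3_pr_ee (N m : ℕ) (j : ℤ) :
    p_B3_pr N m (ee j) = if blk N j = m then ee j else 0 := by
  unfold p_B3_pr
  have h : ∀ l ∈ p_B3_Bk N m, (ee j : ℤ → ℂ) l • ee l = if l = j then ee l else 0 := by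
    intro l _
    rw [p_B3_ee]
    split_ifs
    · rw [one_smul]
    · rw [zero_smul]
  rw [Finset.sum_congr rfl h, Finset.sum_ite_eq']
  simp only [p_B3_mem]

/-- block diagonal part of an operator -/
private lemma p_B3_diag (N : ℕ) (T : Hs →L[ℂ] Hs) (C : ℝ) (hC : 0 ≤ C) (hT : ∀ x, ‖T x‖ ≤ C * ‖x‖) :
    ∃ Y : Hs →L[ℂ] Hs, (∀ a i, (Y a : ℤ → ℂ) i = (T (p_B3_pr N (blk N i) a) : ℤ → ℂ) i) ∧
      ∀ x, ‖Y x‖ ≤ C * ‖x‖ := by
  have key : ∀ (a : Hs) (s : Finset ℤ),
      ∑ i ∈ s, ‖(T (p_B3_pr N (blk N i) a) : ℤ → ℂ) i‖ ^ 2 ≤ (C * ‖a‖) ^ 2 := by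
    intro a s
    have h1 : ∀ i ∈ s, blk N i ∈ s.image (blk N) := fun i hi => Finset.mem_image_of_mem _ hi
    rw [← Finset.sum_fiberwise_of_maps_to h1]
    have h2 : ∀ m ∈ s.image (blk N),
        ∑ i ∈ s with blk N i = m, ‖(T (p_B3_pr N (blk N i) a) : ℤ → ℂ) i‖ ^ 2
          ≤ C ^ 2 * ∑ l ∈ p_B3_Bk N m, ‖a l‖ ^ 2 := by
      intro m _
      calc ∑ i ∈ s with blk N i = m, ‖(T (p_B3_pr N (blk N i) a) : ℤ → ℂ) i‖ ^ 2
          = ∑ i ∈ s with blk N i = m, ‖(T (p_B3_pr N m a) : ℤ → ℂ) i‖ ^ 2 := by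
            refine Finset.sum_congr rfl fun i hi => ?_
            rw [(Finset.mem_filter.1 hi).2]
        _ ≤ ‖T (p_B3_pr N m a)‖ ^ 2 := p_B3_sq _ _
        _ ≤ (C * ‖p_B3_pr N m a‖) ^ 2 :=
            pow_le_pow_left₀ (norm_nonneg _) (hT _) 2
        _ = C ^ 2 * ∑ l ∈ p_B3_Bk N m, ‖a l‖ ^ 2 := by rw [mul_pow, p_B3_pr_norm]
    refine (Finset.sum_le_sum h2).trans ?_
    rw [← Finset.mul_sum, mul_pow]
    refine mul_le_mul_of_nonneg_left ?_ (by positivity)
    have h3 : ∀ l ∈ (s.image (blk N)).biUnion (p_B3_Bk N), blk N l ∈ s.image (blk N) := by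
      intro l hl
      rw [Finset.mem_biUnion] at hl
      obtain ⟨m, hm, hl⟩ := hl
      rw [p_B3_mem.1 hl]
      exact hm
    have h4 : ∑ m ∈ s.image (blk N), ∑ l ∈ p_B3_Bk N m, ‖a l‖ ^ 2
        = ∑ l ∈ (s.image (blk N)).biUnion (p_B3_Bk N), ‖a l‖ ^ 2 := by
      rw [Finset.sum_biUnion]
      intro m _ m' _ hmm
      rw [Function.onFun, Finset.disjoint_left]
      intro l hl hl'
      exact hmm ((p_B3_mem.1 hl).symm.trans (p_B3_mem.1 hl'))
    rw [h4]
    exact p_B3_sq _ _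
  have hmem : ∀ a : Hs, Memℓp (fun i : ℤ => (T (p_B3_pr N (blk N i) a) : ℤ → ℂ) i) 2 := by
    intro a
    refine memℓp_gen' (C := (C * ‖a‖) ^ 2) fun s => ?_
    rw [p_B3_toReal]
    simpa using key a s
  let L : Hs →ₗ[ℂ] Hs :=
    { toFun := fun a => ⟨fun i : ℤ => (T (p_B3_pr N (blk N i) a) : ℤ → ℂ) i, hmem a⟩
      map_add' := by
        intro a b
        refine lp.ext (funext fun i => ?_)
        rw [lp.coeFn_add, Pi.add_apply]
        show (T (p_B3_pr N (blk N i) (a + b)) : ℤ → ℂ) i =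
          (T (p_B3_pr N (blk N i) a) : ℤ → ℂ) i + (T (p_B3_pr N (blk N i) b) : ℤ → ℂ) i
        rw [p_B3_pr_add, map_add, lp.coeFn_add, Pi.add_apply]
      map_smul' := by
        intro c a
        refine lp.ext (funext fun i => ?_)
        rw [RingHom.id_apply, lp.coeFn_smul, Pi.smul_apply]
        show (T (p_B3_pr N (blk N i) (c • a)) : ℤ → ℂ) i =
          c • (T (p_B3_pr N (blk N i) a) : ℤ → ℂ) i
        rw [p_B3_pr_smul, map_smul, lp.coeFn_smul, Pi.smul_apply] }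
  have hL : ∀ a, ‖L a‖ ≤ C * ‖a‖ := by
    intro a
    refine lp.norm_le_of_forall_sum_le (by norm_num) (by positivity) fun s => ?_
    have h : ∑ i ∈ s, ‖(L a : ℤ → ℂ) i‖ ^ 2 ≤ (C * ‖a‖) ^ 2 := key a s
    rw [p_B3_toReal]
    simpa using h
  exact ⟨L.mkContinuous C hL, fun a i => rfl, hL⟩

/-- the majorant -/
private noncomputable def p_B3_F (N : ℕ) (j : ℤ) : ℝ := 1 / (1 + max |(j : ℝ)| N) ^ 2

private lemma p_B3_F_nonneg (N : ℕ) (j : ℤ) : 0 ≤ p_B3_F N j := by
  unfold p_B3_F; positivity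

private lemma p_B3_F_le (N : ℕ) (j : ℤ) : p_B3_F N j ≤ 1 / (1 + |(j : ℝ)|) ^ 2 := by
  unfold p_B3_F
  have h : |(j : ℝ)| ≤ max |(j : ℝ)| N := le_max_left _ _
  have h0 : 0 ≤ |(j : ℝ)| := abs_nonneg _
  gcongr

private lemma p_B3_bound_summable : Summable (fun j : ℤ => 1 / (1 + |(j : ℝ)|) ^ 2) := by
  have h0 : Summable (fun n : ℕ => 1 / (1 + (n : ℝ)) ^ 2) := by
    have h := (summable_nat_add_iff 1).2 (Real.summable_one_div_nat_pow.2 (by norm_num : 1 < 2))
    refine h.congr fun n => ?_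
    push_cast
    rw [add_comm]
  rw [summable_int_iff_summable_nat_and_neg]
  constructor
  · refine h0.congr fun n => ?_
    simp
  · refine h0.congr fun n => ?_
    simp

private lemma p_B3_F_summable (N : ℕ) : Summable (p_B3_F N) :=
  Summable.of_nonneg_of_le (p_B3_F_nonneg N) (p_B3_F_le N) p_B3_bound_summable

private lemma p_B3_F_tendsto : Tendsto (fun N : ℕ => ∑' j : ℤ, p_B3_F N j) atTop (𝓝 0) := by
  have h := tendsto_tsum_of_dominated_convergence (𝓕 := atTop) (f := p_B3_F)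
    (g := fun _ : ℤ => (0 : ℝ)) (bound := fun j : ℤ => 1 / (1 + |(j : ℝ)|) ^ 2)
    p_B3_bound_summable ?_ ?_
  · simpa using h
  · intro j
    refine squeeze_zero (fun N => p_B3_F_nonneg N j) (g := fun N : ℕ => 1 / ((N : ℝ) + 1)) ?_
      tendsto_one_div_add_atTop_nhds_zero_nat
    intro N
    unfold p_B3_F
    have h1 : (N : ℝ) ≤ max |(j : ℝ)| N := le_max_right _ _
    have h2 : (0 : ℝ) ≤ N := Nat.cast_nonneg N
    refine one_div_le_one_div_of_le (by positivity) ?_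
    nlinarith
  · filter_upwards with N j
    rw [Real.norm_eq_abs, abs_of_nonneg (p_B3_F_nonneg N j)]
    exact p_B3_F_le N j

private lemma p_B3_nu (P Q : ℂ[X]) : 0 ≤ nu P Q := by
  unfold nu; positivity

private lemma p_B3_abs (j : ℤ) : |(j : ℝ)| = (j.natAbs : ℝ) := by
  rw [Nat.cast_natAbs, Int.cast_abs]

private lemma p_B3_sqn (j : ℤ) : (j : ℝ) ^ 2 = (j.natAbs : ℝ) ^ 2 := by
  rw [← p_B3_abs, sq_abs]

/-- columns of one block -/
private lemma p_B3_cols (hB1 : S_B1) (P Q : ℂ[X]) (N : ℕ) (h1 : 4 * nu P Q ^ 2 ≤ N)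
    (h2 : 4 * nu P Q ≤ N) (m : ℕ) :
    ∃ X : ℤ → Hs, (∀ j ∈ p_B3_Bk N m, ‖X j‖ ≤ nu P Q / (1 + max |(j : ℝ)| N)) ∧
      ∀ j ∈ p_B3_Bk N m, ∀ s : ℤ, Top P Q (ee j + X j) s =
      4 * (j : ℂ) ^ 2 * (ee j + X j : ℤ → ℂ) s +
        ∑ l ∈ p_B3_Bk N m, Vop P Q (ee j + X j) l * (ee l + X l : ℤ → ℂ) s := by
  have hν := p_B3_nu P Q
  have hN0 : (0 : ℝ) ≤ N := Nat.cast_nonneg N
  rcases Nat.eq_zero_or_pos m with hm | hm
  · subst hm
    have hblk : ∀ j : ℤ, j ∈ p_B3_Bk N 0 ↔ j.natAbs ≤ N := by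
      intro j
      rw [p_B3_mem]
      unfold blk
      split_ifs with h
      · exact ⟨fun _ => h, fun _ => rfl⟩
      · constructor
        · intro h3
          omega
        · intro h3
          exact absurd h3 h
    have hcard : ((p_B3_Bk N 0).card : ℝ) ≤ 2 * N + 1 := by
      have h3 : (p_B3_Bk N 0).card ≤ (Finset.Icc (-(N : ℤ)) N).card := by
        refine Finset.card_le_card fun j hj => ?_
        rw [hblk] at hj
        rw [Finset.mem_Icc]
        omega
      rw [Int.card_Icc] at h3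
      have h4 : (p_B3_Bk N 0).card ≤ 2 * N + 1 := by omega
      exact_mod_cast h4
    obtain ⟨X, _, hX2, hX3⟩ := hB1 P Q (p_B3_Bk N 0) (8 * N + 4) (by positivity)
      (by
        intro i hi j hj
        rw [hblk] at hi hj
        rw [p_B3_sqn i, p_B3_sqn j]
        have hi' : (N : ℝ) + 1 ≤ (i.natAbs : ℝ) := by
          have : N + 1 ≤ i.natAbs := by omega
          exact_mod_cast this
        have hj' : (j.natAbs : ℝ) ≤ N := by exact_mod_cast hj
        have hj0 : (0 : ℝ) ≤ (j.natAbs : ℝ) := Nat.cast_nonneg _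
        rw [abs_of_nonneg (by nlinarith)]
        nlinarith)
      (by
        have h3 : Real.sqrt ((p_B3_Bk N 0).card : ℝ) ≤ Real.sqrt (2 * N + 1) :=
          Real.sqrt_le_sqrt hcard
        have h4 : 2 * nu P Q ≤ Real.sqrt (2 * N + 1) := by
          refine Real.le_sqrt_of_sq_le ?_
          nlinarith
        have h5 : Real.sqrt (2 * N + 1) * Real.sqrt (2 * N + 1) = 2 * N + 1 :=
          Real.mul_self_sqrt (by positivity)
        have h6 : 0 ≤ Real.sqrt (2 * (N : ℝ) + 1) := Real.sqrt_nonneg _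
        calc 8 * nu P Q * Real.sqrt ((p_B3_Bk N 0).card : ℝ)
            ≤ 8 * nu P Q * Real.sqrt (2 * N + 1) := by gcongr
          _ ≤ 4 * (Real.sqrt (2 * N + 1) * Real.sqrt (2 * N + 1)) := by nlinarith
          _ = 8 * N + 4 := by rw [h5]; ring)
    refine ⟨X, fun j hj => (hX2 j hj).trans ?_, hX3⟩
    rw [hblk] at hj
    have hj' : |(j : ℝ)| ≤ N := by
      rw [p_B3_abs]; exact_mod_cast hj
    rw [max_eq_right hj', div_le_div_iff₀ (by positivity) (by positivity)]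
    nlinarith
  · rcases Nat.lt_or_ge N m with hNm | hNm
    · have hblk : ∀ j : ℤ, j ∈ p_B3_Bk N m ↔ j.natAbs = m := by
        intro j
        rw [p_B3_mem]
        unfold blk
        split_ifs with h
        · constructor
          · intro h3
            omega
          · intro h3
            omega
        · exact Iff.rfl
      have hcard : ((p_B3_Bk N m).card : ℝ) ≤ 2 := by
        have h3 : (p_B3_Bk N m).card ≤ ({(m : ℤ), -(m : ℤ)} : Finset ℤ).card := by
          refine Finset.card_le_card fun j hj => ?_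
          rw [hblk] at hj
          rw [Finset.mem_insert, Finset.mem_singleton]
          omega
        have h4 : ({(m : ℤ), -(m : ℤ)} : Finset ℤ).card ≤ 2 := Finset.card_le_two
        exact_mod_cast h3.trans h4
      have hm1 : (N : ℝ) + 1 ≤ m := by
        have : N + 1 ≤ m := hNm
        exact_mod_cast this
      obtain ⟨X, _, hX2, hX3⟩ := hB1 P Q (p_B3_Bk N m) (8 * m - 4) (by linarith)
        (by
          intro i hi j hj
          rw [hblk] at hi hj
          rw [p_B3_sqn i, p_B3_sqn j, hj]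
          have hi0 : (0 : ℝ) ≤ (i.natAbs : ℝ) := Nat.cast_nonneg _
          rcases Nat.lt_or_gt_of_ne hi with h | h
          · have h' : (i.natAbs : ℝ) + 1 ≤ m := by
              have : i.natAbs + 1 ≤ m := h
              exact_mod_cast this
            rw [abs_of_nonpos (by nlinarith)]
            nlinarith
          · have h' : (m : ℝ) + 1 ≤ (i.natAbs : ℝ) := by
              have : m + 1 ≤ i.natAbs := h
              exact_mod_cast this
            rw [abs_of_nonneg (by nlinarith)]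
            nlinarith)
        (by
          have h3 : Real.sqrt ((p_B3_Bk N m).card : ℝ) ≤ 2 := by
            rw [Real.sqrt_le_left (by norm_num)]
            linarith
          calc 8 * nu P Q * Real.sqrt ((p_B3_Bk N m).card : ℝ)
              ≤ 8 * nu P Q * 2 := by gcongr
            _ ≤ 8 * m - 4 := by linarith)
      refine ⟨X, fun j hj => (hX2 j hj).trans ?_, hX3⟩
      rw [hblk] at hj
      have hj' : |(j : ℝ)| = m := by
        rw [p_B3_abs, hj]
      rw [hj', max_eq_left (by linarith), div_le_div_iff₀ (by linarith) (by positivity)]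
      nlinarith
    · have hblk : ∀ j : ℤ, j ∉ p_B3_Bk N m := by
        intro j
        rw [p_B3_mem]
        unfold blk
        split_ifs with h
        · omega
        · omega
      exact ⟨fun _ => 0, fun j hj => absurd hj (hblk j), fun j hj => absurd hj (hblk j)⟩

theorem p_B3 (hB0 : S_B0) (hB1 : S_B1) (hB2 : S_B2) : S_B3 := by
  intro P Q
  obtain ⟨V, hV, hVn⟩ := hB0 P Q
  have hν := p_B3_nu P Q
  -- the threshold
  have hev : ∀ᶠ N : ℕ in atTop, nu P Q ^ 2 * ∑' j : ℤ, p_B3_F N j ≤ 1 / 4 := by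
    have h := p_B3_F_tendsto.const_mul (nu P Q ^ 2)
    rw [mul_zero] at h
    exact (h.eventually_lt_const (by norm_num : (0 : ℝ) < 1 / 4)).mono fun _ h => h.le
  obtain ⟨N₁, hN₁⟩ := eventually_atTop.1 hev
  refine ⟨nu P Q, max N₁ (max ⌈4 * nu P Q ^ 2⌉₊ ⌈4 * nu P Q⌉₊), fun N hN => ?_⟩
  have ha : N₁ ≤ N := (le_max_left _ _).trans hN
  have hb : 4 * nu P Q ^ 2 ≤ N :=
    Nat.ceil_le.1 ((le_max_left _ _).trans ((le_max_right _ _).trans hN))
  have hc : 4 * nu P Q ≤ N :=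
    Nat.ceil_le.1 ((le_max_right _ _).trans ((le_max_right _ _).trans hN))
  choose Z hZ1 hZ2 using p_B3_cols hB1 P Q N hb hc
  set X : ℤ → Hs := fun j => Z (blk N j) j with hX
  have hXn : ∀ j, ‖X j‖ ≤ nu P Q / (1 + max |(j : ℝ)| N) := fun j =>
    hZ1 (blk N j) j (p_B3_mem.2 rfl)
  have hXsq : ∀ j, ‖X j‖ ^ 2 ≤ nu P Q ^ 2 * p_B3_F N j := by
    intro j
    calc ‖X j‖ ^ 2 ≤ (nu P Q / (1 + max |(j : ℝ)| N)) ^ 2 :=
          pow_le_pow_left₀ (norm_nonneg _) (hXn j) 2
      _ = nu P Q ^ 2 * p_B3_F N j := by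
          unfold p_B3_F
          rw [div_pow, mul_one_div]
  have hsum0 : Summable (fun j => nu P Q ^ 2 * p_B3_F N j) := (p_B3_F_summable N).mul_left _
  have hsum : Summable (fun j => ‖X j‖ ^ 2) :=
    Summable.of_nonneg_of_le (fun j => by positivity) hXsq hsum0
  have htot : ∑' j, ‖X j‖ ^ 2 ≤ 1 / 4 := by
    refine (hsum.tsum_le_tsum hXsq hsum0).trans ?_
    rw [tsum_mul_left]
    exact hN₁ N ha
  obtain ⟨W, hW1, hW2, hW3⟩ := hB2 X hsum htot
  obtain ⟨Y, hY1, hY2⟩ := p_B3_diag N (V.comp (W : Hs →L[ℂ] Hs)) (2 * nu P Q) (by positivity)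
    (by
      intro x
      calc ‖V (W x)‖ ≤ nu P Q * ‖W x‖ := hVn _
        _ ≤ nu P Q * (2 * ‖x‖) := mul_le_mul_of_nonneg_left (hW2 x) hν
        _ = 2 * nu P Q * ‖x‖ := by ring)
  have hYe : ∀ i j : ℤ, (Y (ee j) : ℤ → ℂ) i =
      if blk N i = blk N j then Vop P Q (ee j + X j) i else 0 := by
    intro i j
    rw [hY1, p_B3_pr_ee]
    by_cases h : blk N i = blk N j
    · rw [if_pos h.symm, if_pos h]
      show (V (W (ee j)) : ℤ → ℂ) i = _
      rw [hV, hW1]
      rfl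
    · rw [if_neg (fun h' => h h'.symm), if_neg h, map_zero]
      rfl
  refine ⟨W, Y, hW2, hW3, ?_, ?_, hY2, ?_⟩
  · intro j hj
    rw [hW1, add_sub_cancel_left]
    refine (hXn j).trans ?_
    have hj1 : 0 < |(j : ℝ)| := by
      rw [p_B3_abs]
      have : 0 < j.natAbs := by omega
      exact_mod_cast this
    have h1 : |(j : ℝ)| ≤ 1 + max |(j : ℝ)| N := by
      have := le_max_left |(j : ℝ)| (N : ℝ)
      linarith
    gcongr
  · intro i j hij
    rw [hYe, if_neg hij]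
  · intro j s
    have hYs : Y (ee j) = ∑ l ∈ p_B3_Bk N (blk N j), Vop P Q (ee j + X j) l • ee l := by
      refine lp.ext (funext fun i => ?_)
      rw [hYe, lp.coeFn_sum, Finset.sum_apply]
      have h : ∀ l ∈ p_B3_Bk N (blk N j),
          ((Vop P Q (ee j + X j) l • ee l : Hs) : ℤ → ℂ) i
            = if i = l then Vop P Q (ee j + X j) i else 0 := by
        intro l _
        rw [lp.coeFn_smul, Pi.smul_apply, p_B3_ee]
        split_ifs with h
        · rw [h, smul_eq_mul, mul_one]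
        · rw [smul_zero]
      rw [Finset.sum_congr rfl h, Finset.sum_ite_eq]
      simp only [p_B3_mem]
    have hZX : ∀ l ∈ p_B3_Bk N (blk N j), X l = Z (blk N j) l := by
      intro l hl
      rw [hX]
      show Z (blk N l) l = _
      rw [p_B3_mem.1 hl]
    have h3 := hZ2 (blk N j) j (p_B3_mem.2 rfl) s
    rw [← hZX j (p_B3_mem.2 rfl)] at h3
    rw [hYs, map_add, map_smul, map_sum, p_B3_add, p_B3_smul, p_B3_sum, hW1]
    refine h3.trans ?_
    refine congrArg₂ (· + ·) rfl ?_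
    refine Finset.sum_congr rfl fun l hl => ?_
    rw [map_smul, hW1, p_B3_smul, hZX l hl]
    rfl

end HillRoots
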