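import Pool.Agent.Lib.MP_e63cf8_mp.StmB
import Pool.Agent.Lib.MP_e63cf8_mp.StmE

/-!
# MP_e63cf8_mp: piece E3
-/

open Polynomial Filter Topology MeasureTheory Asymptotics

namespace HillRoots

private theorem p_E3_mono {β : ℕ → ℂ → ℂ} {R : ℕ → ℝ} {S S' : Set ℕ} (h : Reg β R S)
    (hs : S' ⊆ S) : Reg β R S' := by
  obtain ⟨ε, hε, h⟩ := h
  refine ⟨ε, hε, fun η hη => ?_⟩
  obtain ⟨n₀, hn₀⟩ := h η hη
  exact ⟨n₀, fun n hn hn1 => hn₀ n (hs hn) hn1⟩

private theorem p_E3_pos {β : ℕ → ℂ → ℂ} {R : ℕ → ℝ} {S : Set ℕ} (h : Reg β R S) :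
    ∀ᶠ n : ℕ in atTop, n ∈ S → 0 < R n ∧ 0 < ‖β n 0‖ := by
  obtain ⟨ε, hε, h⟩ := h
  obtain ⟨n₀, hn₀⟩ := h 1 one_pos
  filter_upwards [eventually_ge_atTop n₀] with n hn hnS
  obtain ⟨h1, h2⟩ := hn₀ n hnS hn
  obtain ⟨h3, -, -⟩ := h2 0 0 (by simp) (by simp)
  exact ⟨h1, lt_of_lt_of_le (mul_pos hε h1) h3⟩

theorem p_E3 (hE2 : S_E2) (hN3 : S_N3) (hA5 : S_A5) (_hU1 : S_U1) (_hH1 : S_H1) : S_E3 := by
  intro P Q c c' g g' τ₀ K δ τ₀' K' δ' C₁ ε δ₀ hP0 hQ0 hBP hBQ hR hε hδ₀ hQlow hPd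
  have key : ∀ C : ℝ, ∃ S : Set ℕ, S.Infinite ∧ (∀ n ∈ S, Even n) ∧
      Reg (beta P Q) (RR P c g) S ∧ Reg (beta Q P) (RR Q c' g') S ∧
      ∀ n ∈ S, 0 < ‖beta P Q n 0‖ ∧ 0 < ‖beta Q P n 0‖ ∧
        Real.log (‖beta P Q n 0‖ / ‖beta Q P n 0‖) ≤ -C := by
    intro C
    obtain ⟨d, hd⟩ : ∃ d : ℝ, d = min (δ₀ / 2) (ε * Real.exp (-C - C₁) / 4) := ⟨_, rfl⟩
    have hd0 : 0 < d := by
      rw [hd]
      exact lt_min (by linarith) (by positivity)
    have hdδ : d < δ₀ := by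
      rw [hd]
      exact lt_of_le_of_lt (min_le_left _ _) (by linarith)
    have hdε : 4 * d ≤ ε * Real.exp (-C - C₁) := by
      have : d ≤ ε * Real.exp (-C - C₁) / 4 := by
        rw [hd]
        exact min_le_right _ _
      linarith
    -- the regularity
    have hRegP := hN3 P Q c g τ₀ K δ
      {n | Even n ∧ d / 2 * GG P.natDegree c g n (n - P.natDegree) ≤
        ‖yy P.natDegree c g n (n - P.natDegree)‖} (d / 2) hP0 hQ0 hBP (by linarith)
      (Eventually.of_forall fun n hn => hn.2)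
    have hRegQ := hN3 Q P c' g' τ₀' K' δ' {n | Even n} ε hQ0 hP0 hBQ hε hQlow
    have hA5P := hA5 P Q c g τ₀ K δ hP0 hQ0 hBP d hd0
    have hA5Q := hA5 Q P c' g' τ₀' K' δ' hQ0 hP0 hBQ (ε / 2) (by linarith)
    have hev := (((p_E3_pos hRegP).and (p_E3_pos hRegQ)).and (hA5P.and hA5Q)).and (hR.and hQlow)
    obtain ⟨n₀, hn₀⟩ := eventually_atTop.1 hev
    refine ⟨{n | (Even n ∧ d / 2 * GG P.natDegree c g n (n - P.natDegree) ≤
        ‖yy P.natDegree c g n (n - P.natDegree)‖ ∧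
        ‖yy P.natDegree c g n (n - P.natDegree)‖ ≤
          d * GG P.natDegree c g n (n - P.natDegree)) ∧ n₀ ≤ n}, ?_, fun n hn => hn.1.1,
      p_E3_mono hRegP fun n hn => ⟨hn.1.1, hn.1.2.1⟩, p_E3_mono hRegQ fun n hn => hn.1.1, ?_⟩
    · rw [← Nat.frequently_atTop_iff_infinite]
      exact (hPd d hd0 hdδ).and_eventually (eventually_ge_atTop n₀)
    · rintro n ⟨⟨hn1, hn2, hn3⟩, hn4⟩
      obtain ⟨⟨⟨h1, h2⟩, ⟨h3, h4⟩⟩, ⟨h5, h6⟩⟩ := hn₀ n hn4
      obtain ⟨p1, p2⟩ := h1 ⟨hn1, hn2⟩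
      obtain ⟨q1, q2⟩ := h2 hn1
      refine ⟨p2, q2, ?_⟩
      have a1 := (h3 0 0 (by simp) (by simp)).1
      have a2 := (h4 0 0 (by simp) (by simp)).1
      have b1 : ‖beta P Q n 0‖ ≤ 2 * d * RR P c g n := by
        have e1 : ‖P.leadingCoeff * hh P.natDegree c n (n - P.natDegree) *
            yy P.natDegree c g n (n - P.natDegree)‖ ≤ d * RR P c g n := by
          rw [norm_mul, norm_mul]
          unfold RR
          have := mul_le_mul_of_nonneg_left hn3 (by positivity :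
            0 ≤ ‖P.leadingCoeff‖ * ‖hh P.natDegree c n (n - P.natDegree)‖)
          linarith
        have e2 := norm_sub_norm_le (beta P Q n 0) (P.leadingCoeff *
          hh P.natDegree c n (n - P.natDegree) * yy P.natDegree c g n (n - P.natDegree))
        linarith
      have b2 : ε / 2 * RR Q c' g' n ≤ ‖beta Q P n 0‖ := by
        have e1 : ε * RR Q c' g' n ≤ ‖Q.leadingCoeff * hh Q.natDegree c' n (n - Q.natDegree) *
            yy Q.natDegree c' g' n (n - Q.natDegree)‖ := by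
          rw [norm_mul, norm_mul]
          unfold RR
          have := mul_le_mul_of_nonneg_left (h6 hn1) (by positivity :
            0 ≤ ‖Q.leadingCoeff‖ * ‖hh Q.natDegree c' n (n - Q.natDegree)‖)
          linarith
        have e2 := norm_sub_norm_le (Q.leadingCoeff *
          hh Q.natDegree c' n (n - Q.natDegree) * yy Q.natDegree c' g' n (n - Q.natDegree))
          (beta Q P n 0)
        rw [norm_sub_rev] at e2
        linarith
      have b3 : RR P c g n ≤ Real.exp C₁ * RR Q c' g' n := by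
        have e1 := (abs_le.1 h5).2
        have e2 : RR P c g n / RR Q c' g' n ≤ Real.exp C₁ := by
          rw [← Real.log_le_iff_le_exp (div_pos p1 q1)]
          exact e1
        rwa [div_le_iff₀ q1] at e2
      have b4 : ‖beta P Q n 0‖ / ‖beta Q P n 0‖ ≤ Real.exp (-C) := by
        rw [div_le_iff₀ q2]
        have e1 : 2 * d * RR P c g n ≤ 2 * d * (Real.exp C₁ * RR Q c' g' n) :=
          mul_le_mul_of_nonneg_left b3 (by linarith)
        have e2 : Real.exp (-C - C₁) * Real.exp C₁ = Real.exp (-C) := by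
          rw [← Real.exp_add]
          congr 1
          ring
        have e3 : 0 ≤ Real.exp C₁ * RR Q c' g' n := by positivity
        have e4 := mul_le_mul_of_nonneg_right hdε e3
        have e5 : ε * Real.exp (-C - C₁) * (Real.exp C₁ * RR Q c' g' n) =
            2 * Real.exp (-C) * (ε / 2 * RR Q c' g' n) := by
          rw [← e2]
          ring
        have e6 := mul_le_mul_of_nonneg_left b2 (Real.exp_pos (-C)).le
        linarith
      rw [Real.log_le_iff_le_exp (div_pos p2 q2)]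
      exact b4
  constructor
  · apply hE2 P Q hP0 hQ0
    intro C
    obtain ⟨S, h1, h2, h3, h4, h5⟩ := key C
    refine ⟨S, RR P c g, RR Q c' g', h1, h2, h3, h4, fun n hn => ?_⟩
    obtain ⟨-, -, h6⟩ := h5 n hn
    have := neg_le_abs (Real.log (‖beta P Q n 0‖ / ‖beta Q P n 0‖))
    linarith
  · apply hE2 Q P hQ0 hP0
    intro C
    obtain ⟨S, h1, h2, h3, h4, h5⟩ := key C
    refine ⟨S, RR Q c' g', RR P c g, h1, h2, h4, h3, fun n hn => ?_⟩
    obtain ⟨-, -, h6⟩ := h5 n hn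
    have e : Real.log (‖beta Q P n 0‖ / ‖beta P Q n 0‖) =
        -Real.log (‖beta P Q n 0‖ / ‖beta Q P n 0‖) := by
      rw [← Real.log_inv, inv_div]
    rw [e]
    have := le_abs_self (-Real.log (‖beta P Q n 0‖ / ‖beta Q P n 0‖))
    linarith

end HillRoots
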