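import Pool.Agent.Lib.MP_e63cf8_mp.StmB

/-! # Piece F2: the reflection `s ↦ n - s` -/

open Polynomial Filter Topology MeasureTheory Asymptotics

namespace HillRoots

theorem p_F2_Vop (P Q : ℂ[X]) (n : ℤ) (x : ℤ → ℂ) (s : ℤ) :
    Vop Q P (fun s => x (n - s)) s = Vop P Q x (n - s) := by
  unfold Vop
  rw [add_comm]
  congr 1
  · refine Finset.sum_congr rfl fun j _ => ?_
    beta_reduce
    rw [show n - (s + (j : ℤ)) = n - s - j by ring]
  · refine Finset.sum_congr rfl fun j _ => ?_
    beta_reduce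
    rw [show n - (s - (j : ℤ)) = n - s + j by ring]

theorem p_F2 : S_F2 := by
  intro P Q n z p q φ x h
  obtain ⟨C, hC⟩ := h.bdd
  refine ⟨⟨C, fun s => hC _⟩, ?_, ?_, ?_⟩
  · simp only [sub_zero]
    exact h.top
  · simp only [sub_self]
    exact h.zero
  · intro s hs hs'
    rw [p_F2_Vop]
    have h1 := h.eqn ((n : ℤ) - s) (fun h => hs' (by omega)) (fun h => hs (by omega))
    have h2 : En n ((n : ℤ) - s) = En n s := by
      unfold En
      push_cast
      ring
    rw [h2] at h1
    exact h1

end HillRoots
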