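import Pool.Agent.Lib.MP_e63cf8_mp.StmC
import Pool.Agent.Lib.MP_e63cf8_mp.StmD

/-!
# MP_e63cf8_mp: proof of `S_N2` (regularity of `beta` without cancellation)
-/

open Polynomial Filter Topology MeasureTheory Asymptotics

namespace HillRoots

theorem p_N2 (hA5 : S_A5) (hN1 : S_N1) (hU1 : S_U1) (hH1 : S_H1) : S_N2 := by
  intro P Q c g τ₀ K δ S hP0 hQ0 hB hNC
  obtain ⟨ε, hε, hev1⟩ := hN1 P c g τ₀ K δ S hP0 hB hNC
  have hM : 1 ≤ P.natDegree := hB.ld.hM
  have hM' : (0:ℝ) < P.natDegree := by exact_mod_cast hM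
  have hPne : P ≠ 0 := by
    intro h
    rw [h] at hM
    simp at hM
  have hlc : 0 < ‖P.leadingCoeff‖ := norm_pos_iff.mpr (Polynomial.leadingCoeff_ne_zero.mpr hPne)
  refine ⟨ε / 2, by positivity, fun η hη => ?_⟩
  have hη' : 0 < min η (min 1 (ε / 2)) := lt_min hη (lt_min one_pos (by positivity))
  have hev2 := hA5 P Q c g τ₀ K δ hP0 hQ0 hB _ hη'
  have hev3 := hU1 P.natDegree τ₀ hM hB.ld.ht
  obtain ⟨n₀, hn₀⟩ := eventually_atTop.mp (hev1.and (hev2.and (hev3.and (eventually_ge_atTop 1))))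
  refine ⟨n₀, fun n hnS hn => ?_⟩
  obtain ⟨h1, h2, h3, h4⟩ := hn₀ n hn
  have h1 := h1 hnS
  have hh0 : 0 < ‖hh P.natDegree c n (n - P.natDegree)‖ :=
    norm_pos_iff.mpr ((hH1 P.natDegree n c hM hB.c0 h4).2.1 _ (by omega))
  have hGpos : 0 < GG P.natDegree c g n (n - P.natDegree) := by
    unfold GG
    refine Finset.prod_pos fun i hi => ?_
    have hi' := Finset.mem_Icc.mp hi
    have := hB.ld.low 0 hM _ (h3 i (by omega))
    linarith
  have hR : 0 < RR P c g n := mul_pos (mul_pos hlc hh0) hGpos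
  have hy : ‖yy P.natDegree c g n (n - P.natDegree)‖ ≤ GG P.natDegree c g n (n - P.natDegree) := by
    unfold yy
    rw [norm_mul]
    have e1 : ‖(1 / (P.natDegree : ℂ))‖ = 1 / (P.natDegree : ℝ) := by
      rw [norm_div, norm_one, Complex.norm_natCast]
    rw [e1]
    have e2 : ‖∑ l ∈ Finset.range P.natDegree, ∏ i ∈ Finset.Icc 1 (n - P.natDegree),
        br P.natDegree c g l (tau P.natDegree n i)‖ ≤ P.natDegree * GG P.natDegree c g n (n - P.natDegree) := by
      calc _ ≤ ∑ l ∈ Finset.range P.natDegree, ‖∏ i ∈ Finset.Icc 1 (n - P.natDegree),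
            br P.natDegree c g l (tau P.natDegree n i)‖ := norm_sum_le _ _
        _ ≤ ∑ l ∈ Finset.range P.natDegree, GG P.natDegree c g n (n - P.natDegree) := by
            refine Finset.sum_le_sum fun l hl => ?_
            unfold GG
            rw [norm_prod]
            refine Finset.prod_le_prod (fun i _ => norm_nonneg _) fun i hi => ?_
            have hi' := Finset.mem_Icc.mp hi
            exact hB.ld.dom l (Finset.mem_range.mp hl) _ (h3 i (by omega))
        _ = P.natDegree * GG P.natDegree c g n (n - P.natDegree) := by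
            rw [Finset.sum_const, Finset.card_range, nsmul_eq_mul]
    calc 1 / (P.natDegree : ℝ) * _ ≤ 1 / (P.natDegree : ℝ) * (P.natDegree * GG P.natDegree c g n (n - P.natDegree)) :=
          mul_le_mul_of_nonneg_left e2 (by positivity)
      _ = GG P.natDegree c g n (n - P.natDegree) := by field_simp
  set T : ℂ := P.leadingCoeff * hh P.natDegree c n (n - P.natDegree) * yy P.natDegree c g n (n - P.natDegree) with hT
  have hTn : ‖T‖ = ‖P.leadingCoeff‖ * ‖hh P.natDegree c n (n - P.natDegree)‖ *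
      ‖yy P.natDegree c g n (n - P.natDegree)‖ := by
    rw [hT, norm_mul, norm_mul]
  have hT1 : ‖T‖ ≤ RR P c g n := by
    rw [hTn]
    exact mul_le_mul_of_nonneg_left hy (by positivity)
  have hT2 : ε * RR P c g n ≤ ‖T‖ := by
    rw [hTn]
    calc ε * RR P c g n = ‖P.leadingCoeff‖ * ‖hh P.natDegree c n (n - P.natDegree)‖ *
          (ε * GG P.natDegree c g n (n - P.natDegree)) := by unfold RR; ring
      _ ≤ _ := mul_le_mul_of_nonneg_left h1 (by positivity)
  refine ⟨hR, fun z z' hz hz' => ?_⟩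
  obtain ⟨h5, h6⟩ := h2 z z' hz hz'
  have m1 : min η (min 1 (ε / 2)) * RR P c g n ≤ 1 * RR P c g n :=
    mul_le_mul_of_nonneg_right ((min_le_right _ _).trans (min_le_left _ _)) hR.le
  have m2 : min η (min 1 (ε / 2)) * RR P c g n ≤ (ε / 2) * RR P c g n :=
    mul_le_mul_of_nonneg_right ((min_le_right _ _).trans (min_le_right _ _)) hR.le
  have n1 : ‖beta P Q n z‖ ≤ ‖beta P Q n z - T‖ + ‖T‖ := by
    have := norm_add_le (beta P Q n z - T) T
    rwa [sub_add_cancel] at this
  have n2 : ‖T‖ ≤ ‖beta P Q n z - T‖ + ‖beta P Q n z‖ := by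
    have := norm_sub_le (beta P Q n z) (beta P Q n z - T)
    rw [sub_sub_cancel] at this
    linarith
  refine ⟨by linarith, by linarith, h6.trans ?_⟩
  have : 0 ≤ ‖z - z'‖ * RR P c g n := by positivity
  calc min η (min 1 (ε / 2)) * ‖z - z'‖ * RR P c g n = min η (min 1 (ε / 2)) * (‖z - z'‖ * RR P c g n) := by ring
    _ ≤ η * (‖z - z'‖ * RR P c g n) := mul_le_mul_of_nonneg_right (min_le_left _ _) this
    _ = _ := by ring

end HillRoots
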