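import Pool.Agent.Lib.MP_e63cf8_mp.StmE

/-! # Piece N4: no cancellation from a lower bound for `y` -/

open Polynomial Filter Topology MeasureTheory Asymptotics

namespace HillRoots

theorem p_N4_om (M : ℕ) : ‖om M‖ = 1 := by
  unfold om
  rw [Complex.norm_exp]
  have : (2 * (Real.pi : ℂ) * Complex.I / M).re = 0 := by
    rw [show 2 * (Real.pi : ℂ) * Complex.I / M = ((2 * Real.pi / M : ℝ) : ℂ) * Complex.I by
      push_cast; ring]
    simp
  rw [this, Real.exp_zero]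

/-- the inverse of the branch solution -/
private noncomputable def p_N4_v (M : ℕ) (c : ℂ) (g : ℂ → ℂ) (l : ℕ) (E : ℝ) : ℂ :=
  c * ((E ^ (-(1 / (M : ℝ))) : ℝ) : ℂ) * br M c g l (E ^ (-(1 / (M : ℝ))))

private theorem p_N4_cont (M : ℕ) (c : ℂ) (g : ℂ → ℂ) (l : ℕ) (τ₀ r E₀ : ℝ) (hr : ‖c‖ * τ₀ < r)
    (hg : AnalyticOnNhd ℂ g (Metric.ball 0 r)) (hE : 0 < E₀)
    (ht : ∀ E, E₀ ≤ E → E ^ (-(1 / (M : ℝ))) ≤ τ₀) :
    ContinuousOn (p_N4_v M c g l) (Set.Ici E₀) := by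
  have h1 : ContinuousOn (fun E : ℝ => E ^ (-(1 / (M : ℝ)))) (Set.Ici E₀) := by
    intro E hE'
    have hE1 : 0 < E := hE.trans_le hE'
    exact (Real.continuousAt_rpow_const _ _ (Or.inl hE1.ne')).continuousWithinAt
  have h2 : ContinuousOn (fun E : ℝ => ((E ^ (-(1 / (M : ℝ))) : ℝ) : ℂ)) (Set.Ici E₀) :=
    Complex.continuous_ofReal.comp_continuousOn h1
  have h3 : ContinuousOn (fun E : ℝ => g (c * om M ^ l * ((E ^ (-(1 / (M : ℝ))) : ℝ) : ℂ)))
      (Set.Ici E₀) := by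
    refine hg.continuousOn.comp (continuousOn_const.mul h2) ?_
    intro E hE'
    have hE1 : 0 < E := hE.trans_le hE'
    rw [Metric.mem_ball, dist_zero_right, norm_mul, norm_mul, norm_pow, p_N4_om, one_pow, mul_one,
      Complex.norm_real, Real.norm_of_nonneg (Real.rpow_nonneg hE1.le _)]
    exact (mul_le_mul_of_nonneg_left (ht E hE') (norm_nonneg _)).trans_lt hr
  unfold p_N4_v br
  exact (continuousOn_const.mul h2).mul (continuousOn_const.mul h3)

theorem p_N4 (hR4 : S_R4) (hU1 : S_U1) : S_N4 := by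
  intro P c g τ₀ K δ S ε hP hB hε hlow
  obtain ⟨r, hr, hg⟩ := hB.an
  have hM : 1 ≤ P.natDegree := hB.ld.hM
  have hR := hR4 P c g τ₀ K δ hP hB
  have hU := hU1 P.natDegree τ₀ hM hB.ld.ht
  set M := P.natDegree with hMdef
  have hMpos : (0 : ℝ) < M := by exact_mod_cast hM
  have hτ : ∀ᶠ E : ℝ in atTop, E ^ (-(1 / (M : ℝ))) ≤ τ₀ := by
    have h1 : Tendsto (fun E : ℝ => E ^ (-(1 / (M : ℝ)))) atTop (𝓝 0) :=
      tendsto_rpow_neg_atTop (by positivity)
    exact (h1.eventually (ge_mem_nhds hB.ld.ht))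
  obtain ⟨E₁, hE₁⟩ := eventually_atTop.1 (hR.and hτ)
  obtain ⟨n₁, hn₁⟩ := eventually_atTop.1 (hlow.and hU)
  set E₀ : ℝ := max (max E₁ 1) n₁ with hE₀
  have hE₀1 : 1 ≤ E₀ := (le_max_right _ _).trans (le_max_left _ _)
  have hE₀E : ∀ E, E₀ ≤ E → E₁ ≤ E := fun E h =>
    ((le_max_left _ _).trans (le_max_left _ _)).trans h
  have hE₀n : ∀ n : ℕ, E₀ ≤ (n : ℝ) → n₁ ≤ n := fun n h => by
    have : (n₁ : ℝ) ≤ n := (le_max_right _ _).trans h
    exact_mod_cast this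
  -- facts about the branches
  have ht : ∀ E, E₀ ≤ E → E ^ (-(1 / (M : ℝ))) ∈ Set.Icc 0 τ₀ := fun E h =>
    ⟨Real.rpow_nonneg (by linarith) _, (hE₁ E (hE₀E E h)).2⟩
  have htpos : ∀ E, E₀ ≤ E → 0 < E ^ (-(1 / (M : ℝ))) := fun E h =>
    Real.rpow_pos_of_pos (by linarith) _
  have hbr : ∀ l < M, ∀ t ∈ Set.Icc 0 τ₀, br M c g l t ≠ 0 := by
    intro l hl t ht' h0
    have := hB.ld.low l hl t ht'
    rw [h0, norm_zero] at this
    norm_num at this
  have hv0 : ∀ l < M, ∀ E, E₀ ≤ E → p_N4_v M c g l E ≠ 0 := by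
    intro l hl E hE
    unfold p_N4_v
    refine mul_ne_zero (mul_ne_zero hB.c0 ?_) (hbr l hl _ (ht E hE))
    exact_mod_cast (htpos E hE).ne'
  refine ⟨E₀, ε, fun l E => (p_N4_v M c g l E)⁻¹, hε, ?_, ?_, ?_⟩
  · intro l
    refine ContinuousOn.inv₀ (p_N4_cont M c g l τ₀ r E₀ hr hg (by linarith)
      (fun E h => (ht E h).2)) ?_
    exact fun E hE => hv0 l l.2 E hE
  · intro E hE
    refine ⟨fun l => ?_, fun l l' hll => ?_⟩
    · exact ((hE₁ E (hE₀E E hE)).1 _).2 ⟨l, l.2, rfl⟩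
    · have h1 : p_N4_v M c g l E = p_N4_v M c g l' E := inv_injective hll
      unfold p_N4_v at h1
      have h2 : c * ((E ^ (-(1 / (M : ℝ))) : ℝ) : ℂ) ≠ 0 := by
        refine mul_ne_zero hB.c0 ?_
        exact_mod_cast (htpos E hE).ne'
      have h3 := mul_left_cancel₀ h2 h1
      by_contra hne
      have hne' : (l : ℕ) ≠ l' := fun h => hne (Fin.ext h)
      have h4 := hB.ld.sep l l.2 l' l'.2 hne' _ (ht E hE)
      rw [h3, sub_self, norm_zero] at h4
      linarith [hB.ld.hδ]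
  · intro n hn hE l
    obtain ⟨hlow', hU'⟩ := hn₁ n (hE₀n n hE)
    have hlow'' := hlow' hn
    have htau : ∀ i : ℕ, ∀ k : ℕ, p_N4_v M c g i (4 * (k : ℝ) * ((n : ℝ) - k)) =
        c * (tau M n k : ℂ) * br M c g i (tau M n k) := fun i k => rfl
    simp only [inv_inv, norm_inv]
    have hn0 : 1 ≤ n := by
      have : (1 : ℝ) ≤ n := hE₀1.trans hE
      exact_mod_cast this
    have e1 : ∑ i : Fin M, ∏ k ∈ Finset.Icc 1 (n - M),
        p_N4_v M c g i (4 * (k : ℝ) * ((n : ℝ) - k)) =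
        (∏ k ∈ Finset.Icc 1 (n - M), (c * (tau M n k : ℂ))) * (M * yy M c g n (n - M)) := by
      have hM0 : (M : ℂ) ≠ 0 := by
        have : M ≠ 0 := by omega
        exact_mod_cast this
      have e2 : (M : ℂ) * yy M c g n (n - M) =
          ∑ l ∈ Finset.range M, ∏ i ∈ Finset.Icc 1 (n - M), br M c g l (tau M n i) := by
        unfold yy
        rw [← mul_assoc, mul_one_div_cancel hM0, one_mul]
      rw [e2, Finset.mul_sum,
        ← Fin.sum_univ_eq_sum_range (fun l => (∏ k ∈ Finset.Icc 1 (n - M), (c * (tau M n k : ℂ))) *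
          ∏ i ∈ Finset.Icc 1 (n - M), br M c g l (tau M n i)) M]
      refine Finset.sum_congr rfl fun i _ => ?_
      rw [← Finset.prod_mul_distrib]
      exact Finset.prod_congr rfl fun k _ => htau i k
    have e3 : ∏ k ∈ Finset.Icc 1 (n - M), ‖p_N4_v M c g l (4 * (k : ℝ) * ((n : ℝ) - k))‖ ≤
        ‖∏ k ∈ Finset.Icc 1 (n - M), (c * (tau M n k : ℂ))‖ * GG M c g n (n - M) := by
      rw [norm_prod]
      unfold GG
      rw [← Finset.prod_mul_distrib]
      refine Finset.prod_le_prod (fun _ _ => norm_nonneg _) fun k hk => ?_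
      rw [Finset.mem_Icc] at hk
      rw [htau, norm_mul]
      exact mul_le_mul_of_nonneg_left (hB.ld.dom l l.2 _ (hU' k (by omega))) (norm_nonneg _)
    rw [e1, norm_mul, norm_mul, Complex.norm_natCast]
    have hM1 : (1 : ℝ) ≤ M := by exact_mod_cast hM
    calc ε * ∏ k ∈ Finset.Icc 1 (n - M), ‖p_N4_v M c g l (4 * (k : ℝ) * ((n : ℝ) - k))‖
        ≤ ε * (‖∏ k ∈ Finset.Icc 1 (n - M), (c * (tau M n k : ℂ))‖ * GG M c g n (n - M)) :=
          mul_le_mul_of_nonneg_left e3 hε.le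
      _ = ‖∏ k ∈ Finset.Icc 1 (n - M), (c * (tau M n k : ℂ))‖ * (ε * GG M c g n (n - M)) := by ring
      _ ≤ ‖∏ k ∈ Finset.Icc 1 (n - M), (c * (tau M n k : ℂ))‖ * ‖yy M c g n (n - M)‖ :=
          mul_le_mul_of_nonneg_left hlow'' (norm_nonneg _)
      _ ≤ ‖∏ k ∈ Finset.Icc 1 (n - M), (c * (tau M n k : ℂ))‖ * (M * ‖yy M c g n (n - M)‖) := by
          refine mul_le_mul_of_nonneg_left ?_ (norm_nonneg _)
          exact le_mul_of_one_le_left (norm_nonneg _) hM1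

end HillRoots
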