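import Pool.Agent.Lib.MP_e63cf8_mp.StmC

open Polynomial Filter Topology MeasureTheory Asymptotics

namespace HillRoots

private theorem p_R2_om_pow (M : ℕ) (hM : M ≠ 0) : om M ^ M = 1 :=
  (Complex.isPrimitiveRoot_exp M hM).pow_eq_one

private theorem p_R2_om_norm (M : ℕ) (hM : M ≠ 0) : ‖om M‖ = 1 :=
  Complex.norm_eq_one_of_pow_eq_one (p_R2_om_pow M hM) hM

/-- the squared modulus -/
private noncomputable def p_R2_phi (g : ℂ → ℂ) (b : ℂ) (t : ℝ) : ℝ := Complex.normSq (g (b * t))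

private theorem p_R2_an (g : ℂ → ℂ) (b : ℂ) (hg : AnalyticAt ℂ g 0) :
    AnalyticAt ℝ (p_R2_phi g b) 0 := by
  have h1 : AnalyticAt ℝ (fun t : ℝ => b * (t : ℂ)) 0 :=
    analyticAt_const.mul (Complex.ofRealCLM.analyticAt 0)
  have h2 : AnalyticAt ℝ g (b * ((0 : ℝ) : ℂ)) := by
    have : b * ((0 : ℝ) : ℂ) = 0 := by simp
    rw [this]
    exact hg.restrictScalars
  have h3 : AnalyticAt ℝ (fun t : ℝ => g (b * (t : ℂ))) 0 :=
    AnalyticAt.comp (g := g) (f := fun t : ℝ => b * (t : ℂ)) (x := (0 : ℝ)) h2 h1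
  have h4 : AnalyticAt ℝ (fun t : ℝ => (g (b * (t : ℂ))).re) 0 :=
    (Complex.reCLM.analyticAt _).comp h3
  have h5 : AnalyticAt ℝ (fun t : ℝ => (g (b * (t : ℂ))).im) 0 :=
    (Complex.imCLM.analyticAt _).comp h3
  have h6 : p_R2_phi g b = fun t : ℝ => (g (b * (t : ℂ))).re * (g (b * (t : ℂ))).re +
      (g (b * (t : ℂ))).im * (g (b * (t : ℂ))).im := by
    funext t
    unfold p_R2_phi
    rw [Complex.normSq_apply]
  rw [h6]
  exact (h4.mul h4).add (h5.mul h5)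

private theorem p_R2_total (f h : ℝ → ℝ) (hf : AnalyticAt ℝ f 0) (hh : AnalyticAt ℝ h 0) :
    (∀ᶠ t in 𝓝[>] (0 : ℝ), f t ≤ h t) ∨ ∀ᶠ t in 𝓝[>] (0 : ℝ), h t ≤ f t := by
  by_cases hz : ∀ᶠ t in 𝓝 (0 : ℝ), (f - h) t = 0
  · left
    refine nhdsWithin_le_nhds ?_
    filter_upwards [hz] with t ht
    have : f t - h t = 0 := ht
    linarith
  · obtain ⟨n, k, hk, hk0, hev⟩ := (hf.sub hh).exists_eventuallyEq_pow_smul_nonzero_iff.2 hz
    rcases lt_or_gt_of_ne hk0 with hneg | hpos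
    · left
      have h1 : ∀ᶠ t in 𝓝 (0 : ℝ), k t < 0 := hk.continuousAt.eventually_lt_const hneg
      have h2 : ∀ᶠ t in 𝓝[>] (0 : ℝ), (f - h) t = (t - 0) ^ n • k t ∧ k t < 0 :=
        nhdsWithin_le_nhds (hev.and h1)
      filter_upwards [h2, self_mem_nhdsWithin] with t ht ht0
      have h3 : f t - h t = (t - 0) ^ n * k t := ht.1
      have h4 : (0 : ℝ) < t := ht0
      have h5 : (t - 0) ^ n * k t ≤ 0 :=
        mul_nonpos_of_nonneg_of_nonpos (by rw [sub_zero]; positivity) ht.2.le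
      linarith
    · right
      have h1 : ∀ᶠ t in 𝓝 (0 : ℝ), 0 < k t := hk.continuousAt.eventually_const_lt hpos
      have h2 : ∀ᶠ t in 𝓝[>] (0 : ℝ), (f - h) t = (t - 0) ^ n • k t ∧ 0 < k t :=
        nhdsWithin_le_nhds (hev.and h1)
      filter_upwards [h2, self_mem_nhdsWithin] with t ht ht0
      have h3 : f t - h t = (t - 0) ^ n * k t := ht.1
      have h4 : (0 : ℝ) < t := ht0
      have h5 : 0 ≤ (t - 0) ^ n * k t :=
        mul_nonneg (by rw [sub_zero]; positivity) ht.2.le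
      linarith

private theorem p_R2_max (φ : ℕ → ℝ → ℝ)
    (htot : ∀ l l', (∀ᶠ t in 𝓝[>] (0 : ℝ), φ l t ≤ φ l' t) ∨
      ∀ᶠ t in 𝓝[>] (0 : ℝ), φ l' t ≤ φ l t) (n : ℕ) :
    ∃ l₀ ≤ n, ∀ l ≤ n, ∀ᶠ t in 𝓝[>] (0 : ℝ), φ l t ≤ φ l₀ t := by
  induction n with
  | zero =>
    refine ⟨0, le_rfl, fun l hl => ?_⟩
    obtain rfl : l = 0 := by omega
    exact Eventually.of_forall fun _ => le_rfl
  | succ n ih =>
    obtain ⟨l₀, hl₀, h⟩ := ih
    rcases htot (n + 1) l₀ with h1 | h1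
    · refine ⟨l₀, by omega, fun l hl => ?_⟩
      rcases Nat.lt_or_ge n l with h2 | h2
      · obtain rfl : l = n + 1 := by omega
        exact h1
      · exact h l h2
    · refine ⟨n + 1, le_rfl, fun l hl => ?_⟩
      rcases Nat.lt_or_ge n l with h2 | h2
      · obtain rfl : l = n + 1 := by omega
        exact Eventually.of_forall fun _ => le_rfl
      · filter_upwards [h l h2, h1] with t ht ht'
        exact ht.trans ht'

theorem p_R2 : S_R2 := by
  intro M g a r hM hr hg hg0 ha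
  have hM0 : M ≠ 0 := by omega
  have hgan : AnalyticAt ℂ g 0 := hg 0 (Metric.mem_ball_self hr)
  set c₁ : ℂ := a ^ ((M : ℂ)⁻¹) with hc₁
  have hc₁M : c₁ ^ M = a := Complex.cpow_nat_inv_pow _ hM0
  have hω := p_R2_om_pow M hM0
  have hωn := p_R2_om_norm M hM0
  obtain ⟨l₀, hl₀, hmax⟩ := p_R2_max (fun l => p_R2_phi g (c₁ * om M ^ l))
    (fun l l' => p_R2_total _ _ (p_R2_an g _ hgan) (p_R2_an g _ hgan)) (M - 1)
  set c : ℂ := c₁ * om M ^ l₀ with hc
  have hcM : c ^ M = a := by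
    rw [hc, mul_pow, hc₁M, ← pow_mul, mul_comm l₀ M, pow_mul, hω, one_pow, mul_one]
  -- the inequality for small positive `t`
  have hev : ∀ l, ∀ᶠ t in 𝓝[>] (0 : ℝ), ‖br M c g l t‖ ≤ ‖br M c g 0 t‖ := by
    intro l
    have h1 := hmax ((l₀ + l) % M) (by
      have := Nat.mod_lt (l₀ + l) (show 0 < M by omega)
      omega)
    filter_upwards [h1] with t ht
    have h2 : om M ^ ((l₀ + l) % M) = om M ^ (l₀ + l) := by
      conv_rhs => rw [← Nat.mod_add_div (l₀ + l) M, pow_add, pow_mul, hω, one_pow, mul_one]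
    have h3 : ‖g (c * om M ^ l * t)‖ ≤ ‖g (c * om M ^ 0 * t)‖ := by
      have h4 : Complex.normSq (g (c₁ * om M ^ (l₀ + l) * t)) ≤
          Complex.normSq (g (c₁ * om M ^ l₀ * t)) := by
        have := ht
        simp only [p_R2_phi] at this
        rwa [h2] at this
      rw [← Complex.sq_norm, ← Complex.sq_norm] at h4
      have h5 := abs_le_of_sq_le_sq h4 (norm_nonneg _)
      rw [abs_of_nonneg (norm_nonneg _)] at h5
      have h6 : c * om M ^ l = c₁ * om M ^ (l₀ + l) := by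
        rw [hc, pow_add]; ring
      rw [h6, pow_zero, mul_one]
      exact h5
    unfold br
    rw [norm_mul, norm_mul, norm_pow, norm_pow, hωn, one_pow, one_pow, one_mul, one_mul]
    exact h3
  have hall : ∀ᶠ t in 𝓝[>] (0 : ℝ), ∀ l ∈ Finset.range M, ‖br M c g l t‖ ≤ ‖br M c g 0 t‖ :=
    (Finset.eventually_all _).2 fun l _ => hev l
  obtain ⟨t₁, ht₁, hI⟩ := mem_nhdsGT_iff_exists_Ioo_subset.1 hall
  have ht₁0 : (0 : ℝ) < t₁ := ht₁
  refine ⟨c, min (t₁ / 2) (r / (2 * (‖c‖ + 1))), hcM, ?_, ?_, ?_⟩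
  · have : 0 < r / (2 * (‖c‖ + 1)) := by positivity
    exact lt_min (by linarith) this
  · have h1 : ‖c‖ * min (t₁ / 2) (r / (2 * (‖c‖ + 1))) ≤ ‖c‖ * (r / (2 * (‖c‖ + 1))) :=
      mul_le_mul_of_nonneg_left (min_le_right _ _) (norm_nonneg _)
    refine lt_of_le_of_lt h1 ?_
    rw [mul_div_assoc', div_lt_iff₀ (by positivity)]
    nlinarith [norm_nonneg c]
  · intro l hl t ht
    rcases eq_or_lt_of_le ht.1 with h0 | h0
    · rw [← h0]
      unfold br
      rw [norm_mul, norm_mul, norm_pow, norm_pow, hωn, one_pow, one_pow, one_mul, one_mul]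
      simp
    · have h1 : t ∈ Set.Ioo 0 t₁ := ⟨h0, by
        have := ht.2.trans (min_le_left _ _)
        linarith⟩
      exact hI h1 l (Finset.mem_range.2 hl)

end HillRoots
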