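import Pool.Agent.Lib.MP_e63cf8_mp.StmA

/-! # Piece T2: Parseval -/

open Polynomial Filter Topology MeasureTheory Asymptotics
open scoped ContDiff

namespace HillRoots

theorem p_T2_fc (f : ℝ → ℂ) (s : ℤ) : fc f s = fourierCoeffOn Real.pi_pos f s := by
  rw [fourierCoeffOn_eq_integral, Complex.real_smul]
  unfold fc
  have h1 : ((1 / (Real.pi - 0) : ℝ) : ℂ) = 1 / (Real.pi : ℂ) := by
    rw [sub_zero]
    push_cast
    rfl
  rw [h1]
  congr 1
  refine intervalIntegral.integral_congr (fun x _ => ?_)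
  simp only [smul_eq_mul]
  rw [fourier_coe_apply, mul_comm]
  congr 2
  push_cast
  have hpi : (Real.pi : ℂ) ≠ 0 := Complex.ofReal_ne_zero.mpr Real.pi_ne_zero
  rw [sub_zero]
  field_simp

theorem p_T2 : S_T2 := by
  intro f hf
  have h1 := hasSum_sq_fourierCoeffOn Real.pi_pos hf
  have h2 : (fun i : ℤ => ‖fourierCoeffOn Real.pi_pos f i‖ ^ 2) = fun i => ‖fc f i‖ ^ 2 := by
    funext i
    rw [p_T2_fc]
  rw [h2, sub_zero] at h1
  have hp : (0 : ℝ) < (2 : ENNReal).toReal := by simp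
  have hm : Memℓp (fc f) 2 := by
    refine memℓp_gen ?_
    have := h1.summable
    simpa using this
  refine ⟨⟨fc f, hm⟩, fun s => rfl, ?_⟩
  set x : Hs := ⟨fc f, hm⟩ with hx
  have h3 : ‖x‖ ^ 2 = Real.pi⁻¹ * ∫ t in (0 : ℝ)..Real.pi, ‖f t‖ ^ 2 := by
    have h4 := lp.norm_rpow_eq_tsum hp x
    have h5 : ∑' i : ℤ, ‖x i‖ ^ (2 : ENNReal).toReal = ∑' i : ℤ, ‖fc f i‖ ^ 2 := by
      refine tsum_congr (fun i => ?_)
      simp [hx]
    rw [h5, h1.tsum_eq] at h4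
    simpa using h4
  have h6 : (eLpNorm f 2 (volume.restrict (Set.Ioc 0 Real.pi))).toReal ^ 2 =
      ∫ t in (0 : ℝ)..Real.pi, ‖f t‖ ^ 2 := by
    rw [toReal_eLpNorm hf.aestronglyMeasurable,
      lpNorm_eq_integral_norm_rpow_toReal (by norm_num) (by norm_num) hf.aestronglyMeasurable,
      intervalIntegral.integral_of_le Real.pi_pos.le]
    have h7 : (0 : ℝ) ≤ ∫ t in Set.Ioc 0 Real.pi, ‖f t‖ ^ 2 :=
      integral_nonneg (fun t => by positivity)
    have h8 : (∫ t in Set.Ioc 0 Real.pi, ‖f t‖ ^ (2 : ENNReal).toReal) =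
        ∫ t in Set.Ioc 0 Real.pi, ‖f t‖ ^ 2 := by
      simp
    rw [h8, ← Real.rpow_natCast, ← Real.rpow_mul h7]
    simp
  have h9 : (eLpNorm f 2 (volume.restrict (Set.Ioc 0 Real.pi))).toReal ^ 2 =
      (Real.sqrt Real.pi * ‖x‖) ^ 2 := by
    rw [h6, mul_pow, Real.sq_sqrt Real.pi_pos.le, h3, mul_inv_cancel_left₀ Real.pi_ne_zero]
  exact (pow_left_inj₀ ENNReal.toReal_nonneg (by positivity) two_ne_zero).mp h9

end HillRoots
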