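import Pool.Agent.Lib.MP_e63cf8_mp.StmC

open Polynomial Filter Topology MeasureTheory Asymptotics

namespace HillRoots

private theorem p_U2_ind (a : ℕ → ℝ) (n : ℕ) (h0 : a 0 = 0) (ha : ∀ k, 0 ≤ a k)
    (hdec : ∀ k, 1 ≤ k → k + 1 < n → 2 * (k + 1) ≤ n + 1 → a (k + 1) ≤ a k)
    (hinc : ∀ k, 1 ≤ k → k + 1 < n → n + 1 ≤ 2 * (k + 1) → a k ≤ a (k + 1)) :
    ∀ j, 1 ≤ j → j < n →
      (2 * j ≤ n + 1 → ∑ k ∈ Finset.Icc 1 j, |a k - a (k - 1)| ≤ 2 * a 1 - a j) ∧
      ∑ k ∈ Finset.Icc 1 j, |a k - a (k - 1)| ≤ 2 * a 1 + a j := by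
  intro j hj
  induction j, hj using Nat.le_induction with
  | base =>
    intro _
    have := ha 1
    have e : ∑ k ∈ Finset.Icc 1 1, |a k - a (k - 1)| = a 1 := by
      simp [h0, abs_of_nonneg this]
    rw [e]
    exact ⟨fun _ => by linarith, by linarith⟩
  | succ j hj ih =>
    intro hjn
    obtain ⟨i1, i2⟩ := ih (by omega)
    rw [Finset.sum_Icc_succ_top (by omega)]
    simp only [Nat.add_sub_cancel]
    have p1 := ha (j + 1)
    rcases le_or_gt (2 * (j + 1)) (n + 1) with h | h
    · have h1 := hdec j hj hjn h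
      have h2 := i1 (by omega)
      rw [abs_of_nonpos (by linarith)]
      exact ⟨fun _ => by linarith, by linarith⟩
    · have h1 := hinc j hj hjn h.le
      rw [abs_of_nonneg (by linarith)]
      exact ⟨fun h' => by omega, by linarith⟩

theorem p_U2 : S_U2 := by
  intro M hM
  have hMpos : (0 : ℝ) < 1 / (M : ℝ) := by positivity
  have hnn : ∀ n k : ℕ, k < n → 0 ≤ tau M n k := fun n k hk => by
    unfold tau
    apply Real.rpow_nonneg
    have : (k : ℝ) ≤ n := by exact_mod_cast hk.le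
    have : 0 ≤ (n : ℝ) - k := by linarith
    positivity
  have hlim : Tendsto (fun n : ℕ => 3 * (4 * ((n : ℝ) - 1)) ^ (-(1 / (M : ℝ)))) atTop (𝓝 0) := by
    have h1 : Tendsto (fun n : ℕ => 4 * ((n : ℝ) - 1)) atTop atTop := by
      apply Tendsto.const_mul_atTop (by norm_num)
      exact tendsto_atTop_add_const_right _ _ tendsto_natCast_atTop_atTop
    have h2 := ((tendsto_rpow_neg_atTop hMpos).comp h1).const_mul 3
    rw [mul_zero] at h2
    exact h2
  refine squeeze_zero' (Eventually.of_forall fun n => Finset.sum_nonneg fun _ _ => abs_nonneg _) ?_ hlim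
  filter_upwards [eventually_ge_atTop 2] with n hn
  have hE : ∀ k : ℕ, 1 ≤ k → k < n → 0 < 4 * (k : ℝ) * ((n : ℝ) - k) := by
    intro k hk hkn
    have h1 : (1 : ℝ) ≤ k := by exact_mod_cast hk
    have h2 : (k : ℝ) + 1 ≤ n := by exact_mod_cast hkn
    have h3 : 0 < (n : ℝ) - k := by linarith
    positivity
  have key := p_U2_ind (fun k => if k < n then tau M n k else 0) n (by
      simp only [tau]
      rw [if_pos (by omega)]
      simp only [Nat.cast_zero, mul_zero, zero_mul]
      exact Real.zero_rpow (by linarith))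
    (fun k => by
      split_ifs with h
      · exact hnn n k h
      · exact le_rfl)
    (fun k hk hkn h => by
      rw [if_pos hkn, if_pos (by omega)]
      unfold tau
      apply Real.rpow_le_rpow_of_nonpos (hE k hk (by omega)) _ (by linarith)
      have h' : 2 * ((k : ℝ) + 1) ≤ n + 1 := by exact_mod_cast h
      push_cast
      nlinarith)
    (fun k hk hkn h => by
      rw [if_pos hkn, if_pos (by omega)]
      unfold tau
      apply Real.rpow_le_rpow_of_nonpos (hE (k + 1) (by omega) (by omega)) _ (by linarith)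
      have h' : (n : ℝ) + 1 ≤ 2 * ((k : ℝ) + 1) := by exact_mod_cast h
      push_cast
      nlinarith)
    (n - 1) (by omega) (by omega)
  have e1 : ∑ k ∈ Finset.Icc 1 (n - 1), |tau M n k - tau M n (k - 1)| =
      ∑ k ∈ Finset.Icc 1 (n - 1), |(if k < n then tau M n k else 0) -
        (if k - 1 < n then tau M n (k - 1) else 0)| := by
    refine Finset.sum_congr rfl fun k hk => ?_
    have := Finset.mem_Icc.1 hk
    rw [if_pos (by omega), if_pos (by omega)]
  rw [e1]
  refine key.2.trans (le_of_eq ?_)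
  rw [if_pos (by omega), if_pos (by omega)]
  unfold tau
  have c1 : ((n - 1 : ℕ) : ℝ) = (n : ℝ) - 1 := by
    rw [Nat.cast_sub (by omega)]; simp
  rw [c1]
  have c2 : 4 * ((1 : ℕ) : ℝ) * ((n : ℝ) - (1 : ℕ)) = 4 * ((n : ℝ) - 1) := by
    push_cast; ring
  have c3 : 4 * ((n : ℝ) - 1) * ((n : ℝ) - ((n : ℝ) - 1)) = 4 * ((n : ℝ) - 1) := by
    ring
  rw [c2, c3]
  ring

end HillRoots
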