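import Pool.Agent.Lib.MP_e63cf8_mp.StmE

/-!
# MP_e63cf8_mp, V4: mean value zero

Summation by parts: with `z(m) = e^{i(p(m+1)-p(m))}`, `c = 1/(z-1)`, `u = c e^{ip}` one has
`e^{ip(m)} = u(m+1) - u(m) - (c(m+1)-c(m)) e^{ip(m+1)}`, so only `c(m+1) - c(m) → 0` is needed (Cesàro).
-/

open Polynomial Filter Topology MeasureTheory Asymptotics

namespace HillRoots

/-- Cesàro: if the increments of `c` tend to `0`, then `c(N)/N → 0`. -/
private theorem p_V4_cesaro (c : ℕ → ℂ) (h : Tendsto (fun m => c (m + 1) - c m) atTop (𝓝 0)) :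
    Tendsto (fun N : ℕ => (1 / (N : ℂ)) * c N) atTop (𝓝 0) := by
  have h1 := h.cesaro_smul
  have h2 : Tendsto (fun N : ℕ => (1 / (N : ℂ)) * c 0) atTop (𝓝 0) := by
    have := (tendsto_const_div_atTop_nhds_zero_nat (𝕜 := ℂ) 1).mul_const (c 0)
    simpa using this
  have h3 := h1.add h2
  rw [add_zero] at h3
  refine h3.congr fun N => ?_
  rw [Finset.sum_range_sub]
  have : ((N : ℝ)⁻¹ • (c N - c 0) : ℂ) = (1 / (N : ℂ)) * (c N - c 0) := by
    rw [Complex.real_smul]; push_cast; ring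
  rw [this]; ring

/-- the discrete Kusmin–Landau argument -/
private theorem p_V4_parts (p : ℕ → ℝ) (c : ℕ → ℂ)
    (hc : ∀ᶠ m in atTop, c m * (Complex.exp (Complex.I * ((p (m + 1) - p m : ℝ) : ℂ)) - 1) = 1)
    (h : Tendsto (fun m => c (m + 1) - c m) atTop (𝓝 0)) :
    Tendsto (fun N : ℕ => (1 / (N : ℂ)) * ∑ m ∈ Finset.range N, Complex.exp (Complex.I * (p m : ℂ)))
      atTop (𝓝 0) := by
  set e : ℕ → ℂ := fun m => Complex.exp (Complex.I * (p m : ℂ)) with he
  have hne : ∀ m, ‖e m‖ = 1 := fun m => by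
    simp only [he]; rw [mul_comm, Complex.norm_exp_ofReal_mul_I]
  set u : ℕ → ℂ := fun m => c m * e m with hu
  have hr : Tendsto (fun m => e m - (u (m + 1) - u m)) atTop (𝓝 0) := by
    rw [tendsto_zero_iff_norm_tendsto_zero] at h ⊢
    refine h.congr' ?_
    filter_upwards [hc] with m hm
    have h1 : e (m + 1) = e m * Complex.exp (Complex.I * ((p (m + 1) - p m : ℝ) : ℂ)) := by
      simp only [he]; rw [← Complex.exp_add]; congr 1; push_cast; ring
    have h2 : e m - (u (m + 1) - u m) = -((c (m + 1) - c m) * e (m + 1)) := by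
      simp only [hu]
      have h3 : c m * (e (m + 1) - e m) = e m := by
        rw [h1]
        calc c m * (e m * Complex.exp (Complex.I * ((p (m + 1) - p m : ℝ) : ℂ)) - e m)
            = e m * (c m * (Complex.exp (Complex.I * ((p (m + 1) - p m : ℝ) : ℂ)) - 1)) := by ring
          _ = e m := by rw [hm, mul_one]
      linear_combination (-1 : ℂ) * h3
    rw [h2, norm_neg, norm_mul, hne, mul_one]
  have h1 := hr.cesaro_smul
  have h2 : Tendsto (fun N : ℕ => (1 / (N : ℂ)) * u N) atTop (𝓝 0) := by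
    have h3 := p_V4_cesaro c h
    rw [tendsto_zero_iff_norm_tendsto_zero] at h3 ⊢
    refine h3.congr fun N => ?_
    simp only [hu, norm_mul, hne, mul_one]
  have h4 : Tendsto (fun N : ℕ => (1 / (N : ℂ)) * u 0) atTop (𝓝 0) := by
    have := (tendsto_const_div_atTop_nhds_zero_nat (𝕜 := ℂ) 1).mul_const (u 0)
    simpa using this
  have h5 := (h1.add h2).sub h4
  rw [add_zero, sub_zero] at h5
  refine h5.congr fun N => ?_
  rw [Finset.sum_sub_distrib, Finset.sum_range_sub]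
  have : ((N : ℝ)⁻¹ • (∑ m ∈ Finset.range N, e m - (u N - u 0)) : ℂ)
      = (1 / (N : ℂ)) * (∑ m ∈ Finset.range N, e m - (u N - u 0)) := by
    rw [Complex.real_smul]; push_cast; ring
  rw [this]; ring

/-- `x^a` with integer steps: first difference -/
private theorem p_V4_first (a : ℝ) :
    Tendsto (fun m : ℕ => (((m : ℝ) + 1) ^ a - (m : ℝ) ^ a) * (m : ℝ) ^ (1 - a)) atTop (𝓝 a) := by
  have h1 : HasDerivAt (fun x : ℝ => (1 + x) ^ a) a 0 := by
    have h2 : HasDerivAt (fun x : ℝ => 1 + x) 1 0 := (hasDerivAt_id (0 : ℝ)).const_add 1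
    have h3 := h2.rpow_const (p := a) (Or.inl (by norm_num))
    simpa using h3
  have h4 := h1.tendsto_slope_zero
  have h5 : Tendsto (fun m : ℕ => ((m : ℝ))⁻¹) atTop (𝓝[≠] 0) := by
    rw [tendsto_nhdsWithin_iff]
    refine ⟨tendsto_inv_atTop_nhds_zero_nat, ?_⟩
    filter_upwards [eventually_ge_atTop 1] with m hm
    simp only [Set.mem_compl_iff, Set.mem_singleton_iff, inv_eq_zero, Nat.cast_eq_zero]
    omega
  have h6 := h4.comp h5
  refine h6.congr' ?_
  filter_upwards [eventually_ge_atTop 1] with m hm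
  have hm0 : (0 : ℝ) < m := by exact_mod_cast hm
  have h7 : ((m : ℝ) + 1) ^ a = (m : ℝ) ^ a * (1 + (m : ℝ)⁻¹) ^ a := by
    rw [← Real.mul_rpow hm0.le (by positivity)]
    congr 1; field_simp
  have h8 : (m : ℝ) ^ a * (m : ℝ) ^ (1 - a) = m := by
    rw [← Real.rpow_add hm0]; simp
  simp only [Function.comp_apply, inv_inv, zero_add, add_zero, Real.one_rpow, smul_eq_mul]
  rw [h7]
  linear_combination (1 - (1 + (m : ℝ)⁻¹) ^ a) * h8

/-- `x^a` with integer steps: second difference -/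
private theorem p_V4_second (a : ℝ) (ha : 0 < a) (ha1 : a < 1) (m : ℕ) (hm : 1 ≤ m) :
    |((m : ℝ) + 2) ^ a - 2 * ((m : ℝ) + 1) ^ a + (m : ℝ) ^ a| ≤ 2 * (m : ℝ) ^ (a - 2) := by
  have hm0 : (0 : ℝ) < m := by exact_mod_cast hm
  have bern : ∀ (x s : ℝ), 0 < x → -1 ≤ s / x → (x + s) ^ a ≤ x ^ a + a * s * (x ^ a / x) := by
    intro x s hx hs
    have h1 := rpow_one_add_le_one_add_mul_self hs ha.le ha1.le
    have h2 : (x + s) ^ a = x ^ a * (1 + s / x) ^ a := by
      rw [← Real.mul_rpow hx.le (by linarith)]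
      congr 1; field_simp
    rw [h2]
    calc x ^ a * (1 + s / x) ^ a ≤ x ^ a * (1 + a * (s / x)) :=
          mul_le_mul_of_nonneg_left h1 (Real.rpow_nonneg hx.le _)
      _ = x ^ a + a * s * (x ^ a / x) := by ring
  -- upper bounds
  have e1 := bern (m : ℝ) 1 hm0 (by have : 0 < 1 / (m : ℝ) := by positivity
                                    linarith)
  have e2 := bern ((m : ℝ) + 2) (-1) (by positivity) (by
    rw [le_div_iff₀ (by positivity)]; linarith)
  have e3 := bern ((m : ℝ) + 1) 1 (by positivity) (by have : 0 < 1 / ((m : ℝ) + 1) := by positivity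
                                                      linarith)
  have e4 := bern ((m : ℝ) + 1) (-1) (by positivity) (by
    rw [le_div_iff₀ (by positivity)]; linarith)
  have r1 : (m : ℝ) + 2 + -1 = m + 1 := by ring
  have r2 : (m : ℝ) + 1 + 1 = m + 2 := by ring
  have r3 : (m : ℝ) + 1 + -1 = m := by ring
  rw [r1] at e2; rw [r2] at e3; rw [r3] at e4
  have hmono : (m : ℝ) ^ a ≤ ((m : ℝ) + 2) ^ a :=
    Real.rpow_le_rpow hm0.le (by linarith) ha.le
  have hpow : (m : ℝ) ^ (a - 2) = (m : ℝ) ^ a / (m : ℝ) ^ 2 := by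
    rw [Real.rpow_sub hm0]; norm_num
  have hA : (m : ℝ) ^ a / m - ((m : ℝ) + 2) ^ a / (m + 2) ≤ 2 * ((m : ℝ) ^ a / (m : ℝ) ^ 2) := by
    have h1 : (m : ℝ) ^ a / ((m : ℝ) + 2) ≤ ((m : ℝ) + 2) ^ a / (m + 2) :=
      div_le_div_of_nonneg_right hmono (by positivity)
    have h2 : (m : ℝ) ^ a / m - (m : ℝ) ^ a / ((m : ℝ) + 2) ≤ 2 * ((m : ℝ) ^ a / (m : ℝ) ^ 2) := by
      have h3 : (m : ℝ) ^ a / m - (m : ℝ) ^ a / ((m : ℝ) + 2)
          = (m : ℝ) ^ a * (2 / (m * (m + 2))) := by field_simp; ring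
      rw [h3]
      have h4 : 2 / ((m : ℝ) * (m + 2)) ≤ 2 / (m : ℝ) ^ 2 := by
        apply div_le_div_of_nonneg_left (by norm_num) (by positivity)
        nlinarith
      calc (m : ℝ) ^ a * (2 / (m * (m + 2))) ≤ (m : ℝ) ^ a * (2 / (m : ℝ) ^ 2) :=
            mul_le_mul_of_nonneg_left h4 (Real.rpow_nonneg hm0.le _)
        _ = 2 * ((m : ℝ) ^ a / (m : ℝ) ^ 2) := by ring
    linarith
  have hAn : 0 ≤ 2 * ((m : ℝ) ^ a / (m : ℝ) ^ 2) := by positivity
  rw [hpow, abs_le]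
  constructor
  · -- 2 (m+1)^a - m^a - (m+2)^a ≤ a (..) ≤ 2 m^{a-2}
    have h5 : 2 * ((m : ℝ) + 1) ^ a - (m : ℝ) ^ a - ((m : ℝ) + 2) ^ a
        ≤ a * ((m : ℝ) ^ a / m - ((m : ℝ) + 2) ^ a / (m + 2)) := by linarith
    have h6 : a * ((m : ℝ) ^ a / m - ((m : ℝ) + 2) ^ a / (m + 2))
        ≤ a * (2 * ((m : ℝ) ^ a / (m : ℝ) ^ 2)) := mul_le_mul_of_nonneg_left hA ha.le
    have h7 : a * (2 * ((m : ℝ) ^ a / (m : ℝ) ^ 2)) ≤ 1 * (2 * ((m : ℝ) ^ a / (m : ℝ) ^ 2)) :=
      mul_le_mul_of_nonneg_right ha1.le hAn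
    linarith
  · linarith

/-- `(e^{ix} - 1)/x → i` -/
private theorem p_V4_exp (d : ℕ → ℝ) (s : ℕ → ℝ) (L : ℝ) (hd : Tendsto d atTop (𝓝 0))
    (hds : Tendsto (fun m => d m * s m) atTop (𝓝 L)) (hL : L ≠ 0) :
    Tendsto (fun m => (Complex.exp (Complex.I * (d m : ℂ)) - 1) * (s m : ℂ)) atTop
      (𝓝 (Complex.I * L)) := by
  have h1 : HasDerivAt (fun x : ℝ => Complex.exp (Complex.I * (x : ℂ))) Complex.I 0 := by
    have h2 : HasDerivAt (fun x : ℝ => Complex.I * (x : ℂ)) (Complex.I * 1) 0 :=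
      (Complex.ofRealCLM.hasDerivAt (x := (0 : ℝ))).const_mul Complex.I
    have h3 := h2.cexp
    simpa using h3
  have h4 := h1.tendsto_slope_zero
  have hne : ∀ᶠ m in atTop, d m ≠ 0 := by
    have := hds.eventually_ne hL
    filter_upwards [this] with m hm h0
    apply hm; rw [h0, zero_mul]
  have h5 : Tendsto d atTop (𝓝[≠] 0) := by
    rw [tendsto_nhdsWithin_iff]
    exact ⟨hd, hne⟩
  have h6 := h4.comp h5
  have h7 : Tendsto (fun m => ((d m * s m : ℝ) : ℂ)) atTop (𝓝 (L : ℂ)) :=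
    (Complex.continuous_ofReal.tendsto L).comp hds
  have h8 := h6.mul h7
  refine h8.congr' ?_
  filter_upwards [hne] with m hm
  have hm' : (d m : ℂ) ≠ 0 := by exact_mod_cast hm
  simp only [Function.comp_apply, zero_add, Complex.ofReal_zero, mul_zero, Complex.exp_zero,
    Complex.real_smul, Complex.ofReal_mul, Complex.ofReal_inv]
  field_simp

private theorem p_V4_core (p : ℕ → ℝ) (a L C : ℝ) (ha : 0 < a) (ha1 : a < 1) (hL : L ≠ 0)
    (h1 : Tendsto (fun m : ℕ => (p (m + 1) - p m) * (m : ℝ) ^ (1 - a)) atTop (𝓝 L))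
    (h2 : ∀ m : ℕ, 1 ≤ m → |p (m + 2) - 2 * p (m + 1) + p m| ≤ C * (m : ℝ) ^ (a - 2)) :
    Tendsto (fun N : ℕ => (1 / (N : ℂ)) * ∑ m ∈ Finset.range N, Complex.exp (Complex.I * (p m : ℂ)))
      atTop (𝓝 0) := by
  set d : ℕ → ℝ := fun m => p (m + 1) - p m with hd
  set z : ℕ → ℂ := fun m => Complex.exp (Complex.I * (d m : ℂ)) with hz
  have hcast : Tendsto (fun m : ℕ => (m : ℝ)) atTop atTop := tendsto_natCast_atTop_atTop
  have hd0 : Tendsto d atTop (𝓝 0) := by
    have h3 : Tendsto (fun m : ℕ => (m : ℝ) ^ (-(1 - a))) atTop (𝓝 0) :=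
      (tendsto_rpow_neg_atTop (by linarith)).comp hcast
    have h4 := h1.mul h3
    rw [mul_zero] at h4
    refine h4.congr' ?_
    filter_upwards [eventually_ge_atTop 1] with m hm
    have hm0 : (0 : ℝ) < m := by exact_mod_cast hm
    rw [mul_assoc, ← Real.rpow_add hm0]
    simp [hd]
  have hz1 : Tendsto (fun m => (z m - 1) * (((m : ℝ) ^ (1 - a) : ℝ) : ℂ)) atTop
      (𝓝 (Complex.I * L)) := p_V4_exp d (fun m => (m : ℝ) ^ (1 - a)) L hd0 h1 hL
  have hIL : Complex.I * (L : ℂ) ≠ 0 := mul_ne_zero Complex.I_ne_zero (by exact_mod_cast hL)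
  have hzne : ∀ᶠ m in atTop, z m - 1 ≠ 0 := by
    filter_upwards [hz1.eventually_ne hIL] with m hm h0
    apply hm; rw [h0, zero_mul]
  set c : ℕ → ℂ := fun m => (z m - 1)⁻¹ with hc
  -- `c(m) m^{a-1} → 1/(iL)`
  have hc1 : Tendsto (fun m : ℕ => c m * ((((m : ℝ) ^ (1 - a))⁻¹ : ℝ) : ℂ)) atTop
      (𝓝 (Complex.I * L)⁻¹) := by
    refine (hz1.inv₀ hIL).congr fun m => ?_
    rw [mul_inv]; simp [hc]
  -- `c(m+1) m^{a-1} → 1/(iL)`
  have hc2 : Tendsto (fun m : ℕ => c (m + 1) * ((((m : ℝ) ^ (1 - a))⁻¹ : ℝ) : ℂ)) atTop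
      (𝓝 (Complex.I * L)⁻¹) := by
    have h3 := hc1.comp (tendsto_add_atTop_nat 1)
    have h4 : Tendsto (fun m : ℕ => ((((m : ℝ) + 1) / m) ^ (1 - a) : ℝ)) atTop (𝓝 1) := by
      have h5 : Tendsto (fun m : ℕ => ((m : ℝ) + 1) / m) atTop (𝓝 1) := by
        have h6 : Tendsto (fun m : ℕ => 1 + ((m : ℝ))⁻¹) atTop (𝓝 (1 + 0)) :=
          tendsto_const_nhds.add tendsto_inv_atTop_nhds_zero_nat
        rw [add_zero] at h6
        refine h6.congr' ?_
        filter_upwards [eventually_ge_atTop 1] with m hm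
        have hm0 : (0 : ℝ) < m := by exact_mod_cast hm
        field_simp
      have h7 := h5.rpow_const (p := 1 - a) (Or.inl one_ne_zero)
      simpa using h7
    have h8 : Tendsto (fun m : ℕ => (((((m : ℝ) + 1) / m) ^ (1 - a) : ℝ) : ℂ)) atTop (𝓝 ((1 : ℝ) : ℂ)) :=
      (Complex.continuous_ofReal.tendsto 1).comp h4
    have h9 := h3.mul h8
    rw [Complex.ofReal_one, mul_one] at h9
    refine h9.congr' ?_
    filter_upwards [eventually_ge_atTop 1] with m hm
    have hm0 : (0 : ℝ) < m := by exact_mod_cast hm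
    simp only [Function.comp_apply]
    rw [mul_assoc, ← Complex.ofReal_mul]
    congr 2
    rw [Real.div_rpow (by positivity) hm0.le]
    push_cast
    have : ((m : ℝ) + 1) ^ (1 - a) ≠ 0 := by positivity
    field_simp
  -- second differences
  have hzz : Tendsto (fun m : ℕ => (z m - z (m + 1)) * ((((m : ℝ) ^ (1 - a)) ^ 2 : ℝ) : ℂ)) atTop
      (𝓝 0) := by
    rw [tendsto_zero_iff_norm_tendsto_zero]
    have h3 : Tendsto (fun m : ℕ => C * (m : ℝ) ^ (-a)) atTop (𝓝 0) := by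
      have := ((tendsto_rpow_neg_atTop ha).comp hcast).const_mul C
      simpa using this
    refine squeeze_zero' (Eventually.of_forall fun m => norm_nonneg _) ?_ h3
    filter_upwards [eventually_ge_atTop 1] with m hm
    have hm0 : (0 : ℝ) < m := by exact_mod_cast hm
    have h4 : ‖z m - z (m + 1)‖ ≤ |p (m + 2) - 2 * p (m + 1) + p m| := by
      have h5 : z m - z (m + 1)
          = -(z m * (Complex.exp (Complex.I * ((p (m + 2) - 2 * p (m + 1) + p m : ℝ) : ℂ)) - 1)) := by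
        have h6 : z (m + 1)
            = z m * Complex.exp (Complex.I * ((p (m + 2) - 2 * p (m + 1) + p m : ℝ) : ℂ)) := by
          simp only [hz, hd]
          rw [← Complex.exp_add]; congr 1
          have : m + 1 + 1 = m + 2 := rfl
          rw [this]; push_cast; ring
        rw [h6]; ring
      rw [h5, norm_neg, norm_mul]
      have h7 : ‖z m‖ = 1 := by
        simp only [hz]; rw [mul_comm, Complex.norm_exp_ofReal_mul_I]
      rw [h7, one_mul]
      exact Real.norm_exp_I_mul_ofReal_sub_one_le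
    have h8 : ((m : ℝ) ^ (1 - a)) ^ 2 = (m : ℝ) ^ (2 - 2 * a) := by
      rw [← Real.rpow_natCast, ← Real.rpow_mul hm0.le]; congr 1; push_cast; ring
    rw [norm_mul, Complex.norm_real, Real.norm_eq_abs, abs_of_nonneg (by positivity)]
    calc ‖z m - z (m + 1)‖ * ((m : ℝ) ^ (1 - a)) ^ 2
        ≤ (C * (m : ℝ) ^ (a - 2)) * ((m : ℝ) ^ (1 - a)) ^ 2 :=
          mul_le_mul_of_nonneg_right (h4.trans (h2 m hm)) (by positivity)
      _ = C * (m : ℝ) ^ (-a) := by
          rw [h8, mul_assoc, ← Real.rpow_add hm0]; congr 2; ring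
  refine p_V4_parts p c ?_ ?_
  · filter_upwards [hzne] with m hm
    exact inv_mul_cancel₀ hm
  · have h3 := (hzz.mul hc1).mul hc2
    rw [zero_mul, zero_mul] at h3
    refine h3.congr' ?_
    have hzne' : ∀ᶠ m in atTop, z (m + 1) - 1 ≠ 0 := (tendsto_add_atTop_nat 1).eventually hzne
    filter_upwards [hzne, hzne', eventually_ge_atTop 1] with m hm hm' hm1
    have hm0 : (0 : ℝ) < m := by exact_mod_cast hm1
    have h4 : (((m : ℝ) ^ (1 - a) : ℝ) : ℂ) ≠ 0 := by
      have : ((m : ℝ) ^ (1 - a)) ≠ 0 := by positivity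
      exact_mod_cast this
    simp only [hc]
    push_cast at h4 ⊢
    field_simp
    ring

/-- **[V4]** -/
theorem p_V4 : S_V4 := by
  intro φ D hφ hsupp hD
  have hD0 : (0 : ℝ) < D := by exact_mod_cast hD
  -- the largest exponent
  have hne : φ.support.Nonempty := Finsupp.support_nonempty_iff.mpr hφ
  set a₀ := φ.support.max' hne with ha₀
  have ha₀m : a₀ ∈ φ.support := φ.support.max'_mem hne
  obtain ⟨ha0, ha1⟩ := hsupp a₀ ha₀m
  have hle : ∀ a ∈ φ.support, a ≤ a₀ := fun a ha => φ.support.le_max' a ha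
  have hb : φ a₀ ≠ 0 := Finsupp.mem_support_iff.mp ha₀m
  set p : ℕ → ℝ := fun m => gp φ (D * m) with hp
  have hpe : ∀ m, p m = ∑ a ∈ φ.support, φ a * (D : ℝ) ^ a * (m : ℝ) ^ a := by
    intro m
    simp only [hp, gp, Finsupp.sum]
    refine Finset.sum_congr rfl fun a _ => ?_
    push_cast
    rw [Real.mul_rpow (by positivity) (by positivity)]; ring
  have hL : a₀ * (φ a₀ * (D : ℝ) ^ a₀) ≠ 0 :=
    mul_ne_zero ha0.ne' (mul_ne_zero hb (by positivity))
  have hcast : Tendsto (fun m : ℕ => (m : ℝ)) atTop atTop := tendsto_natCast_atTop_atTop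
  refine p_V4_core p a₀ (a₀ * (φ a₀ * (D : ℝ) ^ a₀)) (∑ a ∈ φ.support, |φ a| * (D : ℝ) ^ a * 2)
    ha0 ha1 hL ?_ ?_
  · have h1 : Tendsto (fun m : ℕ => ∑ a ∈ φ.support, φ a * (D : ℝ) ^ a *
        ((((m : ℝ) + 1) ^ a - (m : ℝ) ^ a) * (m : ℝ) ^ (1 - a) * (m : ℝ) ^ (a - a₀))) atTop
        (𝓝 (∑ a ∈ φ.support, φ a * (D : ℝ) ^ a * (a * if a = a₀ then 1 else 0))) := by
      refine tendsto_finsetSum _ fun a ha => ?_
      refine Tendsto.const_mul _ ((p_V4_first a).mul ?_)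
      by_cases h : a = a₀
      · subst h
        simp
      · have h2 : a < a₀ := lt_of_le_of_ne (hle a ha) h
        rw [if_neg h]
        have h3 : Tendsto (fun m : ℕ => (m : ℝ) ^ (-(a₀ - a))) atTop (𝓝 0) :=
          (tendsto_rpow_neg_atTop (by linarith)).comp hcast
        simpa using h3
    have h4 : (∑ a ∈ φ.support, φ a * (D : ℝ) ^ a * (a * if a = a₀ then 1 else 0))
        = a₀ * (φ a₀ * (D : ℝ) ^ a₀) := by
      rw [Finset.sum_eq_single_of_mem a₀ ha₀m]
      · simp; ring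
      · intro b _ hb; simp [hb]
    rw [h4] at h1
    refine h1.congr' ?_
    filter_upwards [eventually_ge_atTop 1] with m hm
    have hm0 : (0 : ℝ) < m := by exact_mod_cast hm
    rw [hpe, hpe, ← Finset.sum_sub_distrib, Finset.sum_mul]
    refine Finset.sum_congr rfl fun a _ => ?_
    rw [mul_assoc (((m : ℝ) + 1) ^ a - (m : ℝ) ^ a), ← Real.rpow_add hm0]
    have : 1 - a + (a - a₀) = 1 - a₀ := by ring
    rw [this]; push_cast; ring
  · intro m hm
    have hm1 : (1 : ℝ) ≤ m := by exact_mod_cast hm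
    have h1 : p (m + 2) - 2 * p (m + 1) + p m = ∑ a ∈ φ.support, φ a * (D : ℝ) ^ a *
        (((m : ℝ) + 2) ^ a - 2 * ((m : ℝ) + 1) ^ a + (m : ℝ) ^ a) := by
      rw [hpe, hpe, hpe, Finset.mul_sum, ← Finset.sum_sub_distrib, ← Finset.sum_add_distrib]
      refine Finset.sum_congr rfl fun a _ => ?_
      push_cast; ring
    rw [h1, Finset.sum_mul]
    refine (Finset.abs_sum_le_sum_abs _ _).trans (Finset.sum_le_sum fun a ha => ?_)
    obtain ⟨h2, h3⟩ := hsupp a ha
    rw [abs_mul, abs_mul, abs_of_nonneg (by positivity : (0 : ℝ) ≤ (D : ℝ) ^ a)]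
    have h4 := p_V4_second a h2 h3 m hm
    have h5 : (m : ℝ) ^ (a - 2) ≤ (m : ℝ) ^ (a₀ - 2) :=
      Real.rpow_le_rpow_of_exponent_le hm1 (by linarith [hle a ha])
    calc |φ a| * (D : ℝ) ^ a * |((m : ℝ) + 2) ^ a - 2 * ((m : ℝ) + 1) ^ a + (m : ℝ) ^ a|
        ≤ |φ a| * (D : ℝ) ^ a * (2 * (m : ℝ) ^ (a₀ - 2)) :=
          mul_le_mul_of_nonneg_left (h4.trans (by linarith)) (by positivity)
      _ = |φ a| * (D : ℝ) ^ a * 2 * (m : ℝ) ^ (a₀ - 2) := by ring

end HillRoots
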