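import Pool.Agent.Lib.MP_e63cf8_mp.StmC
import Pool.Agent.Lib.MP_e63cf8_mp.StmD

/-!
# MP_e63cf8_mp, piece X1: a dominating solution excludes cancellation
-/

open Polynomial Filter Topology MeasureTheory Asymptotics

namespace HillRoots

theorem p_X1_eval {P : ℂ[X]} {g : ℕ} (hS : SuppMul g P) {ζ : ℂ} (w : ℂ) (hζ : ζ ^ g = 1) :
    P.eval (ζ * w) = P.eval w := by
  rw [Polynomial.eval_eq_sum_range, Polynomial.eval_eq_sum_range]
  refine Finset.sum_congr rfl fun j _ => ?_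
  by_cases h : P.coeff j = 0
  · rw [h]
    ring
  · obtain ⟨i, hi⟩ := hS j h
    have : ζ ^ j = 1 := by rw [hi, pow_mul, hζ, one_pow]
    rw [mul_pow, this, one_mul]

theorem p_X1_om {M : ℕ} (hM : 1 ≤ M) : IsPrimitiveRoot (om M) M := by
  unfold om
  exact Complex.isPrimitiveRoot_exp M (by omega)

theorem p_X1_sum_le_prod (s : Finset ℕ) (a : ℕ → ℝ) (ha : ∀ i ∈ s, 0 ≤ a i) :
    ∑ i ∈ s, a i ≤ ∏ i ∈ s, (1 + a i) ∧ 1 + ∑ i ∈ s, a i ≤ ∏ i ∈ s, (1 + a i) := by
  classical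
  induction s using Finset.induction_on with
  | empty => simp
  | insert x s hx ih =>
    have h1 := (ih fun i hi => ha i (Finset.mem_insert_of_mem hi)).2
    have h2 := ha x (Finset.mem_insert_self x s)
    have h3 : 0 ≤ ∑ i ∈ s, a i := Finset.sum_nonneg fun i hi => ha i (Finset.mem_insert_of_mem hi)
    rw [Finset.sum_insert hx, Finset.prod_insert hx]
    have h4 : (1 + a x) * (1 + ∑ i ∈ s, a i) ≤ (1 + a x) * ∏ i ∈ s, (1 + a i) :=
      mul_le_mul_of_nonneg_left h1 (by linarith)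
    have h5 := mul_nonneg h2 h3
    constructor <;> nlinarith

/-- the solutions -/
noncomputable def p_X1_W (M : ℕ) (c : ℂ) (gg : ℂ → ℂ) (l : ℕ) (E : ℝ) : ℂ :=
  (c * (E ^ (-(1 / (M : ℝ))) : ℝ) * br M c gg l (E ^ (-(1 / (M : ℝ)))))⁻¹

/-- pointwise properties of the solutions -/
theorem p_X1_point (hR4 : S_R4) {P : ℂ[X]} {g : ℕ} (hP0 : P.coeff 0 = 0) (hg : 0 < g)
    (hS : SuppMul g P) (hD : Dominant g P) {c : ℂ} {gg : ℂ → ℂ} {τ₀ K δ : ℝ}
    (hB : Branch P c gg τ₀ K δ) : ∃ c₁ θ E₁ : ℝ, 0 < c₁ ∧ 0 ≤ θ ∧ θ < 1 / 2 ∧ 1 ≤ E₁ ∧ ∀ E, E₁ ≤ E →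
      (0 < E ^ (-(1 / (P.natDegree : ℝ))) ∧ E ^ (-(1 / (P.natDegree : ℝ))) ≤ τ₀) ∧
      (∀ l < P.natDegree, P.eval (p_X1_W P.natDegree c gg l E) = (E : ℂ)) ∧
      (∀ l < P.natDegree, ∀ l' < P.natDegree,
        p_X1_W P.natDegree c gg l E = p_X1_W P.natDegree c gg l' E → l = l') ∧
      p_X1_W P.natDegree c gg 0 E ≠ 0 ∧
      (∀ l < P.natDegree, ‖p_X1_W P.natDegree c gg 0 E‖ ≤ ‖p_X1_W P.natDegree c gg l E‖) ∧
      (∀ l < P.natDegree, (om P.natDegree ^ l) ^ g = 1 →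
        (p_X1_W P.natDegree c gg l E)⁻¹ = om P.natDegree ^ l * (p_X1_W P.natDegree c gg 0 E)⁻¹) ∧
      (∀ l < P.natDegree, (om P.natDegree ^ l) ^ g ≠ 1 →
        (1 + c₁ * E ^ (-θ)) * ‖p_X1_W P.natDegree c gg 0 E‖ ≤ ‖p_X1_W P.natDegree c gg l E‖) := by
  obtain ⟨M, hMd⟩ : ∃ M, M = P.natDegree := ⟨_, rfl⟩
  have hM : 1 ≤ M := hMd ▸ hB.ld.hM
  have hMr : (0 : ℝ) < M := by exact_mod_cast hM
  obtain ⟨c₁, θ, E₂, hc₁, hθ, hdom⟩ := hD
  have hR := hR4 P c gg τ₀ K δ hP0 hB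
  have hT0 : Tendsto (fun E : ℝ => E ^ (-(1 / (M : ℝ)))) atTop (𝓝 0) :=
    tendsto_rpow_neg_atTop (by positivity)
  have e1 : ∀ᶠ E : ℝ in atTop, E ^ (-(1 / (M : ℝ))) ≤ τ₀ :=
    (hT0.eventually (gt_mem_nhds hB.ld.ht)).mono fun E hE => le_of_lt hE
  have e2 : ∀ᶠ E : ℝ in atTop, E ^ (-(1 / (M : ℝ))) < δ / (2 * |K| + 1) :=
    hT0.eventually (gt_mem_nhds (div_pos hB.ld.hδ (by positivity)))
  rw [← hMd] at hR
  obtain ⟨E₁, hE₁⟩ := eventually_atTop.1 (((hR.and e1).and e2).and (eventually_ge_atTop E₂))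
  have hdvd : g ∣ M := by
    refine hMd ▸ hS P.natDegree ?_
    intro h0
    have h1 := hB.hc
    have h2 : P.leadingCoeff = 0 := h0
    rw [h2] at h1
    exact hB.c0 (pow_eq_zero_iff (by rw [← hMd]; omega) |>.1 h1)
  have hom := p_X1_om hM
  have homn : ∀ l, ‖om M ^ l‖ = 1 := fun l => by
    rw [norm_pow, Complex.norm_eq_one_of_pow_eq_one hom.pow_eq_one (by omega), one_pow]
  refine ⟨c₁, max θ 0, max E₁ 1, hc₁, le_max_right _ _, max_lt hθ (by norm_num), le_max_right _ _,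
    fun E hE => ?_⟩
  obtain ⟨⟨⟨hE1, hE2⟩, hE3⟩, hE4⟩ := hE₁ E ((le_max_left _ _).trans hE)
  have hE0 : 1 ≤ E := (le_max_right _ _).trans hE
  rw [← hMd]
  obtain ⟨T, hT⟩ : ∃ T, T = E ^ (-(1 / (M : ℝ))) := ⟨_, rfl⟩
  have hW : ∀ l, p_X1_W M c gg l E = (c * (T : ℂ) * br M c gg l T)⁻¹ := fun l => by
    rw [hT]
    rfl
  rw [← hT] at hE1 hE2 hE3 ⊢
  have hT1 : 0 < T := hT ▸ Real.rpow_pos_of_pos (by linarith) _
  have hTmem : T ∈ Set.Icc 0 τ₀ := ⟨hT1.le, hE2⟩
  have h0mem : (0 : ℝ) ∈ Set.Icc 0 τ₀ := ⟨le_rfl, hB.ld.ht.le⟩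
  have hld := hB.ld
  rw [← hMd] at hld
  have hbr0 : ∀ l < M, br M c gg l T ≠ 0 := by
    intro l hl h0
    have := hld.low l hl T hTmem
    rw [h0, norm_zero] at this
    norm_num at this
  have hcT : c * (T : ℂ) ≠ 0 := mul_ne_zero hB.c0 (by exact_mod_cast hT1.ne')
  have hsolW : ∀ l < M, P.eval (p_X1_W M c gg l E) = (E : ℂ) := fun l hl =>
    (hE1 _).2 ⟨l, hl, hW l⟩
  have hWne : ∀ l < M, p_X1_W M c gg l E ≠ 0 := fun l hl => by
    rw [hW]
    exact inv_ne_zero (mul_ne_zero hcT (hbr0 l hl))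
  have hWinv : ∀ l, (p_X1_W M c gg l E)⁻¹ = c * (T : ℂ) * br M c gg l T := fun l => by
    rw [hW, inv_inv]
  -- identification of the branches
  have hid : ∀ l < M, ∀ l' < M, br M c gg l T = om M ^ l' * br M c gg 0 T → l = l' := by
    intro l hl l' hl' h
    by_contra hne
    have h1 := hld.sep l hl l' hl' hne 0 h0mem
    rw [hld.zero l' hl'] at h1
    have h2 : br M c gg l 0 - om M ^ l' = (br M c gg l 0 - br M c gg l T) +
        om M ^ l' * (br M c gg 0 T - br M c gg 0 0) := by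
      rw [h, hld.zero 0 (by omega)]
      ring
    have h3 := hld.lip l hl 0 h0mem T hTmem
    have h4 := hld.lip 0 (by omega) T hTmem 0 h0mem
    have h5 : |(0 : ℝ) - T| = T := by rw [zero_sub, abs_neg, abs_of_pos hT1]
    have h6 : |T - 0| = T := by rw [sub_zero, abs_of_pos hT1]
    rw [h5] at h3
    rw [h6] at h4
    have h7 : ‖br M c gg l 0 - om M ^ l'‖ ≤ K * T + K * T := by
      rw [h2]
      refine (norm_add_le _ _).trans (add_le_add h3 ?_)
      rw [norm_mul, homn, one_mul]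
      exact h4
    have h8 : K * T ≤ |K| * T := mul_le_mul_of_nonneg_right (le_abs_self K) hT1.le
    have h9 : (2 * |K| + 1) * T < δ := by
      rw [lt_div_iff₀ (by positivity)] at hE3
      linarith
    linarith
  have hmin : ∀ l < M, ‖p_X1_W M c gg 0 E‖ ≤ ‖p_X1_W M c gg l E‖ := by
    intro l hl
    rw [hW, hW, norm_inv, norm_inv, norm_mul (c * (T : ℂ)) (br M c gg 0 T),
      norm_mul (c * (T : ℂ)) (br M c gg l T)]
    have h1 := hld.dom l hl T hTmem
    have h2 : 0 < ‖br M c gg l T‖ := norm_pos_iff.2 (hbr0 l hl)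
    exact inv_anti₀ (mul_pos (norm_pos_iff.2 hcT) h2)
      (mul_le_mul_of_nonneg_left h1 (norm_nonneg _))
  refine ⟨⟨hT1, hE2⟩, hsolW, ?_, hWne 0 (by omega), hmin, ?_, ?_⟩
  · intro l hl l' hl' h
    have h1 := congrArg (fun x => x⁻¹) h
    simp only [hWinv] at h1
    have h2 := mul_left_cancel₀ hcT h1
    by_contra hne
    have h3 := hld.sep l hl l' hl' hne T hTmem
    rw [h2, sub_self, norm_zero] at h3
    linarith [hld.hδ]
  · intro l hl hroot
    -- a solution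
    have h1 : P.eval ((om M ^ l)⁻¹ * p_X1_W M c gg 0 E) = (E : ℂ) := by
      rw [p_X1_eval hS _ (by rw [inv_pow, hroot, inv_one])]
      exact hsolW 0 (by omega)
    obtain ⟨l', hl', h2⟩ := (hE1 _).1 h1
    have h3 : c * (T : ℂ) * br M c gg l' T = om M ^ l * (c * (T : ℂ) * br M c gg 0 T) := by
      rw [← hWinv 0, ← inv_inv (c * (T : ℂ) * br M c gg l' T), ← h2, mul_inv, inv_inv]
    have h4 : br M c gg l' T = om M ^ l * br M c gg 0 T := by
      refine mul_left_cancel₀ hcT ?_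
      rw [h3]
      ring
    have h5 := hid l' hl' l hl h4
    rw [h5] at h3
    rw [hWinv, hWinv, h3]
  · intro l hl hroot
    obtain ⟨w₀, hw0, hwd⟩ := hdom E hE4
    obtain ⟨l', hl', h2⟩ := (hE1 _).1 hw0
    rw [← hW] at h2
    have hw0ne : 0 < ‖w₀‖ := by
      rw [h2]
      exact norm_pos_iff.2 (hWne l' hl')
    have hEθ : 0 < E ^ (-θ) := Real.rpow_pos_of_pos (by linarith) _
    have h3 : p_X1_W M c gg 0 E ^ g = w₀ ^ g := by
      by_contra hne
      have h4 := hwd _ (hsolW 0 (by omega)) hne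
      have h5 := hmin l' hl'
      rw [← h2] at h5
      have h6 : 0 < c₁ * E ^ (-θ) * ‖w₀‖ := by positivity
      nlinarith
    have h4 : ‖w₀‖ = ‖p_X1_W M c gg 0 E‖ := by
      have h5 := congrArg norm h3
      rw [norm_pow, norm_pow] at h5
      exact ((pow_left_inj₀ (norm_nonneg _) (norm_nonneg _) (by omega)).1 h5).symm
    have h5 : p_X1_W M c gg l E ^ g ≠ w₀ ^ g := by
      rw [← h3]
      intro h6
      -- the quotient is a root of unity
      have h7 : (br M c gg l T / br M c gg 0 T) ^ g = 1 := by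
        have h8 := congrArg (fun x => x⁻¹) h6
        simp only [← inv_pow, hWinv] at h8
        rw [mul_pow (c * (T : ℂ)) (br M c gg l T) g,
          mul_pow (c * (T : ℂ)) (br M c gg 0 T) g] at h8
        have h9 := mul_left_cancel₀ (pow_ne_zero g hcT) h8
        rw [div_pow, h9]
        exact div_self (pow_ne_zero g (hbr0 0 (by omega)))
      have h8 : (br M c gg l T / br M c gg 0 T) ^ M = 1 := by
        obtain ⟨i, hi⟩ := hdvd
        have h10 : (br M c gg l T / br M c gg 0 T) ^ M =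
            ((br M c gg l T / br M c gg 0 T) ^ g) ^ i := by rw [← pow_mul, ← hi]
        rw [h10, h7, one_pow]
      have : NeZero M := ⟨by omega⟩
      obtain ⟨i, hi, h9⟩ := hom.eq_pow_of_pow_eq_one h8
      have h10 := hid l hl i hi (by
        rw [h9, div_mul_cancel₀ _ (hbr0 0 (by omega))])
      apply hroot
      rw [h10, h9, h7]
    have h6 := hwd _ (hsolW l hl) h5
    rw [h4] at h6
    refine le_trans ?_ h6
    refine mul_le_mul_of_nonneg_right ?_ (norm_nonneg _)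
    have h7 : E ^ (-(max θ 0)) ≤ E ^ (-θ) :=
      Real.rpow_le_rpow_of_exponent_le hE0 (neg_le_neg (le_max_left _ _))
    have := mul_le_mul_of_nonneg_left h7 hc₁.le
    linarith

theorem p_X1_cont {P : ℂ[X]} {c : ℂ} {gg : ℂ → ℂ} {τ₀ K δ : ℝ} (hB : Branch P c gg τ₀ K δ)
    {l : ℕ} (hl : l < P.natDegree) {E₀ : ℝ} (hE₀ : 1 ≤ E₀)
    (hT : ∀ E, E₀ ≤ E → 0 < E ^ (-(1 / (P.natDegree : ℝ))) ∧
      E ^ (-(1 / (P.natDegree : ℝ))) ≤ τ₀) :
    ContinuousOn (p_X1_W P.natDegree c gg l) (Set.Ici E₀) := by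
  have h1 : ContinuousOn (fun E : ℝ => E ^ (-(1 / (P.natDegree : ℝ)))) (Set.Ici E₀) := by
    intro E hE
    have : E ≠ 0 := by
      have h2 : E₀ ≤ E := hE
      linarith
    exact (Real.continuousAt_rpow_const E _ (Or.inl this)).continuousWithinAt
  have h2 : ContinuousOn (br P.natDegree c gg l) (Set.Icc 0 τ₀) := by
    have : LipschitzOnWith K.toNNReal (br P.natDegree c gg l) (Set.Icc 0 τ₀) := by
      refine LipschitzOnWith.of_dist_le_mul fun x hx y hy => ?_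
      rw [dist_eq_norm, Real.dist_eq]
      exact (hB.ld.lip l hl x hx y hy).trans
        (mul_le_mul_of_nonneg_right (Real.le_coe_toNNReal K) (abs_nonneg _))
    exact this.continuousOn
  have h3 : ContinuousOn (fun E : ℝ => br P.natDegree c gg l (E ^ (-(1 / (P.natDegree : ℝ)))))
      (Set.Ici E₀) := h2.comp h1 fun E hE => ⟨(hT E hE).1.le, (hT E hE).2⟩
  refine ContinuousOn.inv₀ ((continuousOn_const.mul
    (Complex.continuous_ofReal.comp_continuousOn h1)).mul h3) fun E hE => ?_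
  obtain ⟨h4, h5⟩ := hT E hE
  refine mul_ne_zero (mul_ne_zero hB.c0 (by exact_mod_cast h4.ne')) fun h0 => ?_
  have := hB.ld.low l hl _ ⟨h4.le, h5⟩
  rw [h0, norm_zero] at this
  norm_num at this

theorem p_X1 (hR3 : S_R3) (hR4 : S_R4) : S_X1 := by
  intro P g hP0 hP hg hS hD
  have hM1 : 1 ≤ P.natDegree := by
    by_contra h
    have h0 : P.natDegree = 0 := by omega
    apply hP
    rw [Polynomial.eq_C_of_natDegree_eq_zero h0, hP0, map_zero]
  obtain ⟨c, gg, τ₀, K, δ, hB⟩ := hR3 P hM1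
  obtain ⟨c₁, θ, E₁, hc₁, hθ0, hθ, hE₁, hpt⟩ := p_X1_point hR4 hP0 hg hS hD hB
  have hdvd : g ∣ P.natDegree := by
    refine hS P.natDegree ?_
    intro h0
    exact hP (Polynomial.leadingCoeff_eq_zero.1 h0)
  obtain ⟨M, hMd⟩ : ∃ M, M = P.natDegree := ⟨_, rfl⟩
  have hMr : (1 : ℝ) ≤ M := by
    rw [hMd]
    exact_mod_cast hM1
  -- the growth
  have hgrow : Tendsto (fun x : ℝ => c₁ / 2 * x ^ (1 - 2 * θ)) atTop atTop :=
    (tendsto_rpow_atTop (by linarith)).const_mul_atTop (by positivity)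
  obtain ⟨x₁, hx₁⟩ := eventually_atTop.1 (hgrow.eventually_ge_atTop (2 * M))
  obtain ⟨E₀, hE₀⟩ : ∃ E₀, E₀ = max E₁ (max x₁ (2 * M)) := ⟨_, rfl⟩
  have hE01 : E₁ ≤ E₀ := hE₀ ▸ le_max_left _ _
  have hE0x : x₁ ≤ E₀ := hE₀ ▸ (le_max_left _ _).trans (le_max_right _ _)
  have hE0M : 2 * (M : ℝ) ≤ E₀ := hE₀ ▸ (le_max_right _ _).trans (le_max_right _ _)
  refine ⟨E₀, 1 / 2, fun l => p_X1_W P.natDegree c gg l, by norm_num, fun l => ?_,
    fun E hE => ⟨fun l => ?_, fun l l' h => ?_⟩, fun n hn hnE l => ?_⟩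
  · exact p_X1_cont hB l.2 (hE₁.trans hE01) fun E hE => (hpt E (hE01.trans hE)).1
  · exact (hpt E (hE01.trans hE)).2.1 l l.2
  · exact Fin.ext ((hpt E (hE01.trans hE)).2.2.1 l l.2 l' l'.2 h)
  · obtain ⟨_, hgn⟩ := hn
    rw [← hMd] at hpt hdvd
    have hn2M : 2 * M ≤ n := by exact_mod_cast hE0M.trans hnE
    have hM1' : 1 ≤ M := hMd ▸ hM1
    have hnr : (1 : ℝ) ≤ n := hE₁.trans (hE01.trans hnE)
    -- the energies
    have hEk : ∀ k ∈ Finset.Icc 1 (n - M), (n : ℝ) ≤ 4 * (k : ℝ) * ((n : ℝ) - k) ∧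
        4 * (k : ℝ) * ((n : ℝ) - k) ≤ (n : ℝ) ^ 2 := by
      intro k hk
      obtain ⟨h1, h2⟩ := Finset.mem_Icc.1 hk
      have h3 : (1 : ℝ) ≤ k := by exact_mod_cast h1
      have h4 : (k : ℝ) + 1 ≤ n := by
        have : k + 1 ≤ n := by omega
        exact_mod_cast this
      constructor
      · nlinarith [mul_nonneg (sub_nonneg.2 h3) (by linarith : (0 : ℝ) ≤ (n : ℝ) - k - 1)]
      · nlinarith [sq_nonneg ((n : ℝ) - 2 * k)]
    have hEk1 : ∀ k ∈ Finset.Icc 1 (n - M), E₁ ≤ 4 * (k : ℝ) * ((n : ℝ) - k) := fun k hk =>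
      (hE01.trans hnE).trans (hEk k hk).1
    let E : ℕ → ℝ := fun k => 4 * (k : ℝ) * ((n : ℝ) - k)
    obtain ⟨B, hB0⟩ : ∃ B, B = ∏ k ∈ Finset.Icc 1 (n - M), ‖p_X1_W M c gg 0 (E k)‖⁻¹ := ⟨_, rfl⟩
    have hBpos : 0 < B := by
      rw [hB0]
      exact Finset.prod_pos fun k hk => inv_pos.2 (norm_pos_iff.2 (hpt _ (hEk1 k hk)).2.2.2.1)
    -- good branches
    have hgood : ∀ i < M, (om M ^ i) ^ g = 1 →
        ∏ k ∈ Finset.Icc 1 (n - M), (p_X1_W M c gg i (E k))⁻¹ =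
          ∏ k ∈ Finset.Icc 1 (n - M), (p_X1_W M c gg 0 (E k))⁻¹ := by
      intro i hi hroot
      have h1 : ∀ k ∈ Finset.Icc 1 (n - M), (p_X1_W M c gg i (E k))⁻¹ =
          om M ^ i * (p_X1_W M c gg 0 (E k))⁻¹ := fun k hk =>
        (hpt _ (hEk1 k hk)).2.2.2.2.2.1 i hi hroot
      rw [Finset.prod_congr rfl h1, Finset.prod_mul_distrib, Finset.prod_const, Nat.card_Icc]
      obtain ⟨q, hq⟩ : g ∣ n - M + 1 - 1 := by
        have : n - M + 1 - 1 = n - M := by omega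
        rw [this]
        exact Nat.dvd_sub hgn hdvd
      rw [hq, pow_mul, hroot, one_pow, one_mul]
    -- the product of the gains
    have hprod : 2 * (M : ℝ) ≤ ∏ k ∈ Finset.Icc 1 (n - M), (1 + c₁ * E k ^ (-θ)) := by
      refine le_trans ?_ (p_X1_sum_le_prod _ _ fun k hk => ?_).1
      · have h1 : ∀ k ∈ Finset.Icc 1 (n - M), c₁ * (n : ℝ) ^ (-(2 * θ)) ≤ c₁ * E k ^ (-θ) := by
          intro k hk
          refine mul_le_mul_of_nonneg_left ?_ hc₁.le
          have h2 : (n : ℝ) ^ (-(2 * θ)) = ((n : ℝ) ^ 2) ^ (-θ) := by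
            rw [← Real.rpow_natCast, ← Real.rpow_mul (by linarith)]
            congr 1
            push_cast
            ring
          rw [h2]
          have h3 : 0 < E k := lt_of_lt_of_le (by linarith) (hEk k hk).1
          exact Real.rpow_le_rpow_of_nonpos h3 (hEk k hk).2 (by linarith)
        refine le_trans ?_ (Finset.sum_le_sum h1)
        rw [Finset.sum_const, Nat.card_Icc, nsmul_eq_mul]
        have h4 : ((n - M + 1 - 1 : ℕ) : ℝ) = (n : ℝ) - M := by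
          have : n - M + 1 - 1 = n - M := by omega
          rw [this, Nat.cast_sub (by omega)]
        rw [h4]
        have h5 := hx₁ n (hE0x.trans hnE)
        have h6 : (n : ℝ) ^ (1 - 2 * θ) = (n : ℝ) * (n : ℝ) ^ (-(2 * θ)) := by
          rw [sub_eq_add_neg, Real.rpow_add (by linarith), Real.rpow_one]
        rw [h6] at h5
        refine h5.trans ?_
        have h7 : (n : ℝ) / 2 ≤ (n : ℝ) - M := by
          have : 2 * (M : ℝ) ≤ n := by exact_mod_cast hn2M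
          linarith
        have h8 : 0 < (n : ℝ) ^ (-(2 * θ)) := Real.rpow_pos_of_pos (by linarith) _
        have h9 := mul_le_mul_of_nonneg_right h7 (mul_pos hc₁ h8).le
        nlinarith
      · have h3 : 0 < E k := lt_of_lt_of_le (by linarith) (hEk k hk).1
        have := Real.rpow_pos_of_pos h3 (-θ)
        positivity
    -- bad branches
    have hbad : ∀ i < M, (om M ^ i) ^ g ≠ 1 →
        ‖∏ k ∈ Finset.Icc 1 (n - M), (p_X1_W M c gg i (E k))⁻¹‖ ≤ B / (2 * M) := by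
      intro i hi hroot
      rw [le_div_iff₀ (by linarith), norm_prod]
      have h1 : (∏ k ∈ Finset.Icc 1 (n - M), ‖(p_X1_W M c gg i (E k))⁻¹‖) *
          ∏ k ∈ Finset.Icc 1 (n - M), (1 + c₁ * E k ^ (-θ)) ≤ B := by
        rw [hB0, ← Finset.prod_mul_distrib]
        refine Finset.prod_le_prod (fun k hk => ?_) fun k hk => ?_
        · have h3 : 0 < E k := lt_of_lt_of_le (by linarith) (hEk k hk).1
          have := Real.rpow_pos_of_pos h3 (-θ)
          positivity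
        · have h2 := (hpt _ (hEk1 k hk)).2.2.2.2.2.2 i hi hroot
          have h3 : 0 < ‖p_X1_W M c gg 0 (E k)‖ := norm_pos_iff.2 (hpt _ (hEk1 k hk)).2.2.2.1
          have h3' : 0 < E k := lt_of_lt_of_le (by linarith) (hEk k hk).1
          have h4 := Real.rpow_pos_of_pos h3' (-θ)
          have h5 : 0 < (1 + c₁ * E k ^ (-θ)) := by positivity
          have h6 : 0 < ‖p_X1_W M c gg i (E k)‖ := lt_of_lt_of_le (mul_pos h5 h3) h2
          rw [norm_inv, inv_mul_le_iff₀ h6, ← div_eq_mul_inv, le_div_iff₀ h3]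
          exact h2
      refine le_trans (mul_le_mul_of_nonneg_left hprod ?_) h1
      exact Finset.prod_nonneg fun k _ => norm_nonneg _
    -- the sum
    have hsum : ∑ i : Fin M, ∏ k ∈ Finset.Icc 1 (n - M), (p_X1_W M c gg i (E k))⁻¹ =
        ∑ i ∈ Finset.range M, ∏ k ∈ Finset.Icc 1 (n - M), (p_X1_W M c gg i (E k))⁻¹ :=
      (Finset.sum_range fun i => ∏ k ∈ Finset.Icc 1 (n - M), (p_X1_W M c gg i (E k))⁻¹).symm
    have hlow : B / 2 ≤ ‖∑ i : Fin M, ∏ k ∈ Finset.Icc 1 (n - M),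
        (p_X1_W M c gg i (E k))⁻¹‖ := by
      classical
      rw [hsum, ← Finset.sum_filter_add_sum_filter_not _ (fun i => (om M ^ i) ^ g = 1)]
      have h1 : ∑ i ∈ (Finset.range M).filter (fun i => (om M ^ i) ^ g = 1),
          ∏ k ∈ Finset.Icc 1 (n - M), (p_X1_W M c gg i (E k))⁻¹ =
          (((Finset.range M).filter (fun i => (om M ^ i) ^ g = 1)).card : ℂ) *
            ∏ k ∈ Finset.Icc 1 (n - M), (p_X1_W M c gg 0 (E k))⁻¹ := by
        rw [Finset.sum_congr rfl fun i hi => hgood i (Finset.mem_range.1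
          (Finset.mem_filter.1 hi).1) (Finset.mem_filter.1 hi).2, Finset.sum_const, nsmul_eq_mul]
      have h2 : ‖∏ k ∈ Finset.Icc 1 (n - M), (p_X1_W M c gg 0 (E k))⁻¹‖ = B := by
        rw [norm_prod, hB0]
        exact Finset.prod_congr rfl fun k _ => norm_inv _
      have h3 : (1 : ℝ) ≤ ((Finset.range M).filter (fun i => (om M ^ i) ^ g = 1)).card := by
        have : 0 ∈ (Finset.range M).filter (fun i => (om M ^ i) ^ g = 1) := by
          rw [Finset.mem_filter, Finset.mem_range]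
          exact ⟨by omega, by simp⟩
        exact_mod_cast Finset.card_pos.2 ⟨0, this⟩
      have h4 : ‖∑ i ∈ (Finset.range M).filter (fun i => ¬ (om M ^ i) ^ g = 1),
          ∏ k ∈ Finset.Icc 1 (n - M), (p_X1_W M c gg i (E k))⁻¹‖ ≤ B / 2 := by
        refine (norm_sum_le _ _).trans ?_
        refine (Finset.sum_le_sum fun i hi => hbad i (Finset.mem_range.1
          (Finset.mem_filter.1 hi).1) (Finset.mem_filter.1 hi).2).trans ?_
        rw [Finset.sum_const, nsmul_eq_mul]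
        have h5 : (((Finset.range M).filter (fun i => ¬ (om M ^ i) ^ g = 1)).card : ℝ) ≤ M := by
          have := Finset.card_filter_le (Finset.range M) (fun i => ¬ (om M ^ i) ^ g = 1)
          rw [Finset.card_range] at this
          exact_mod_cast this
        refine (mul_le_mul_of_nonneg_right h5 (by positivity)).trans (le_of_eq ?_)
        have : (M : ℝ) ≠ 0 := by linarith
        field_simp
      rw [h1]
      have h5 := norm_sub_norm_le ((((Finset.range M).filter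
          (fun i => (om M ^ i) ^ g = 1)).card : ℂ) *
            ∏ k ∈ Finset.Icc 1 (n - M), (p_X1_W M c gg 0 (E k))⁻¹)
        (-∑ i ∈ (Finset.range M).filter (fun i => ¬ (om M ^ i) ^ g = 1),
          ∏ k ∈ Finset.Icc 1 (n - M), (p_X1_W M c gg i (E k))⁻¹)
      rw [sub_neg_eq_add, norm_neg, norm_mul, h2, Complex.norm_natCast] at h5
      nlinarith
    have hup : ∏ k ∈ Finset.Icc 1 (n - M), ‖p_X1_W M c gg l (E k)‖⁻¹ ≤ B := by
      rw [hB0]
      refine Finset.prod_le_prod (fun k _ => by positivity) fun k hk => ?_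
      exact inv_anti₀ (norm_pos_iff.2 (hpt _ (hEk1 k hk)).2.2.2.1)
        ((hpt _ (hEk1 k hk)).2.2.2.2.1 l (by rw [hMd]; exact l.2))
    have hfin : ∑ i : Fin P.natDegree, ∏ k ∈ Finset.Icc 1 (n - M),
        (p_X1_W M c gg i (E k))⁻¹ = ∑ i : Fin M, ∏ k ∈ Finset.Icc 1 (n - M),
        (p_X1_W M c gg i (E k))⁻¹ := by
      rw [hsum, hMd]
      exact (Finset.sum_range fun i => ∏ k ∈ Finset.Icc 1 (n - P.natDegree),
        (p_X1_W P.natDegree c gg i (E k))⁻¹).symm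
    have hgoal : 1 / 2 * ∏ k ∈ Finset.Icc 1 (n - M), ‖p_X1_W M c gg l (E k)‖⁻¹ ≤
        ‖∑ i : Fin P.natDegree, ∏ k ∈ Finset.Icc 1 (n - M), (p_X1_W M c gg i (E k))⁻¹‖ := by
      rw [hfin]
      linarith
    rw [hMd] at hgoal
    exact hgoal

end HillRoots
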