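import Pool.Agent.Lib.MP_e63cf8_mp.StmD

open Polynomial Filter Topology MeasureTheory Asymptotics

namespace HillRoots

theorem p_X13 : S_X13 := by
  intro P S T hTS h
  obtain ⟨E₀, ε, w, hε, h1, h2, h3⟩ := h
  exact ⟨E₀, ε, w, hε, h1, h2, fun n hn => h3 n (hTS hn)⟩

end HillRoots
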