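import Pool.Agent.Lib.MP_e63cf8_mp.StmC
import Pool.Agent.Lib.MP_e63cf8_mp.StmD

/-!
# MP_e63cf8_mp, piece X3: the generic case is dominant
-/

open Polynomial Filter Topology

namespace HillRoots

private theorem p_X3_slope_nonneg {H : ℝ → ℝ} {h' τ : ℝ} (hH : HasDerivAt H h' 0) (h0 : H 0 = 0)
    (hτ : 0 < τ) (hn : ∀ t ∈ Set.Icc 0 τ, 0 ≤ H t) : 0 ≤ h' := by
  have h1 := (hasDerivAt_iff_tendsto_slope_zero.1 hH)
  have h2 : Tendsto (fun t : ℝ => t⁻¹ • (H (0 + t) - H 0)) (𝓝[>] 0) (𝓝 h') :=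
    h1.mono_left (nhdsWithin_mono _ (fun x hx => ne_of_gt hx))
  refine ge_of_tendsto h2 ?_
  filter_upwards [Ioc_mem_nhdsGT hτ] with t ht
  rw [h0, zero_add, sub_zero, smul_eq_mul]
  have := hn t ⟨ht.1.le, ht.2⟩
  have h3 := ht.1
  positivity

private theorem p_X3_slope_pos {H : ℝ → ℝ} {h' : ℝ} (hH : HasDerivAt H h' 0) (h0 : H 0 = 0)
    (hh : 0 < h') : ∀ᶠ t in 𝓝[>] (0 : ℝ), 0 < H t := by
  have h1 := (hasDerivAt_iff_tendsto_slope_zero.1 hH)
  have h2 : Tendsto (fun t : ℝ => t⁻¹ • (H (0 + t) - H 0)) (𝓝[>] 0) (𝓝 h') :=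
    h1.mono_left (nhdsWithin_mono _ (fun x hx => ne_of_gt hx))
  filter_upwards [h2.eventually (lt_mem_nhds hh), self_mem_nhdsWithin] with t ht ht0
  rw [h0, zero_add, sub_zero, smul_eq_mul] at ht
  exact (mul_pos_iff_of_pos_left (inv_pos.2 ht0)).1 ht

/-- derivative of the branch function at `0` -/
private theorem p_X3_deriv {P : ℂ[X]} {c : ℂ} {g : ℂ → ℂ} {τ₀ K δ : ℝ} (hM : 2 ≤ P.natDegree)
    (hB : Branch P c g τ₀ K δ) :
    HasDerivAt g (P.coeff (P.natDegree - 1) / P.leadingCoeff / P.natDegree) 0 := by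
  obtain ⟨r, hr, han⟩ := hB.an
  have hr0 : 0 < r := lt_of_le_of_lt (mul_nonneg (norm_nonneg c) hB.ld.ht.le) hr
  have hg : HasDerivAt g (deriv g 0) 0 :=
    (han 0 (Metric.mem_ball_self hr0)).differentiableAt.hasDerivAt
  have h1 : HasDerivAt (fun x => g x ^ P.natDegree)
      (P.natDegree * g 0 ^ (P.natDegree - 1) * deriv g 0) 0 := hg.fun_pow P.natDegree
  have h2 : HasDerivAt (fun x => ∑ j ∈ Finset.Icc 1 P.natDegree,
      P.coeff j / P.leadingCoeff * (x * g x) ^ (P.natDegree - j))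
      (∑ j ∈ Finset.Icc 1 P.natDegree, P.coeff j / P.leadingCoeff *
        (((P.natDegree - j : ℕ) : ℂ) * (0 * g 0) ^ (P.natDegree - j - 1) *
          (1 * g 0 + 0 * deriv g 0))) 0 := by
    apply HasDerivAt.fun_sum
    intro j _
    exact (((hasDerivAt_id (0 : ℂ)).fun_mul hg).fun_pow _).const_mul _
  have hpos : 0 < ‖c‖ * τ₀ := mul_pos (norm_pos_iff.2 hB.c0) hB.ld.ht
  have h3 : (fun x => g x ^ P.natDegree) =ᶠ[𝓝 0] (fun x => ∑ j ∈ Finset.Icc 1 P.natDegree,
      P.coeff j / P.leadingCoeff * (x * g x) ^ (P.natDegree - j)) := by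
    filter_upwards [Metric.closedBall_mem_nhds (0 : ℂ) hpos] with x hx
    exact hB.eqn x (by simpa using hx)
  have h4 := h1.unique (h2.congr_of_eventuallyEq h3)
  have h5 : ∑ j ∈ Finset.Icc 1 P.natDegree, P.coeff j / P.leadingCoeff *
        (((P.natDegree - j : ℕ) : ℂ) * (0 * g 0) ^ (P.natDegree - j - 1) *
          (1 * g 0 + 0 * deriv g 0)) = P.coeff (P.natDegree - 1) / P.leadingCoeff := by
    rw [Finset.sum_eq_single (P.natDegree - 1)]
    · rw [show P.natDegree - (P.natDegree - 1) = 1 by omega, hB.one]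
      simp
    · intro j hj hj'
      have hj1 := Finset.mem_Icc.1 hj
      rcases eq_or_ne j P.natDegree with h | h
      · rw [h]
        simp
      · rw [zero_mul, zero_pow (by omega)]
        simp
    · intro h
      exact absurd (Finset.mem_Icc.2 ⟨by omega, by omega⟩) h
  rw [h5, hB.one, one_pow, mul_one] at h4
  have hM0 : (P.natDegree : ℂ) ≠ 0 := by
    have : P.natDegree ≠ 0 := by omega
    exact_mod_cast this
  have h6 : P.coeff (P.natDegree - 1) / P.leadingCoeff / P.natDegree = deriv g 0 := by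
    rw [← h4]
    field_simp
  rw [h6]
  exact hg

private theorem p_X3_normsq {g : ℂ → ℂ} {d : ℂ} (hg : HasDerivAt g d 0) (hg1 : g 0 = 1) (ζ : ℂ) :
    HasDerivAt (fun t : ℝ => ‖g (ζ * t)‖ ^ 2) (2 * (d * ζ).re) 0 := by
  have h1 : HasDerivAt (fun t : ℝ => ζ * (t : ℂ)) ζ 0 := by
    have := (Complex.ofRealCLM.hasDerivAt (x := (0 : ℝ))).const_mul ζ
    simpa using this
  have h2 : HasDerivAt (fun t : ℝ => g (ζ * t)) (d * ζ) 0 := by
    have h3 : HasDerivAt g d ((fun t : ℝ => ζ * (t : ℂ)) 0) := by simpa using hg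
    exact h3.comp (0 : ℝ) h1
  have h4 := h2.norm_sq
  have h5 : 2 * inner ℝ (g (ζ * ((0 : ℝ) : ℂ))) (d * ζ) = 2 * (d * ζ).re := by
    rw [Complex.ofReal_zero, mul_zero, hg1]
    simp [Complex.inner]
  rw [h5] at h4
  exact h4

private theorem p_X3_norm_br {M : ℕ} (hM : 1 ≤ M) (c : ℂ) (g : ℂ → ℂ) (l : ℕ) (t : ℝ) :
    ‖br M c g l t‖ = ‖g (c * om M ^ l * t)‖ := by
  have h : ‖om M‖ = 1 := by
    unfold om
    exact (Complex.isPrimitiveRoot_exp M (by omega)).norm'_eq_one (by omega)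
  unfold br
  rw [norm_mul, norm_pow, h, one_pow, one_mul]

theorem p_X3 (hR3 : S_R3) (hR4 : S_R4) (hX2 : S_X2) : S_X3 := by
  intro P hP0 hM hsl
  obtain ⟨c, g, τ₀, K, δ, hB⟩ := hR3 P (by omega)
  have hR := hR4 P c g τ₀ K δ hP0 hB
  have hg := p_X3_deriv (by omega) hB
  obtain ⟨d, hd⟩ : ∃ d, d = P.coeff (P.natDegree - 1) / P.leadingCoeff / P.natDegree := ⟨_, rfl⟩
  rw [← hd] at hg
  have hlc : P.leadingCoeff ≠ 0 := by
    rw [← hB.hc]
    exact pow_ne_zero _ hB.c0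
  have hM0 : (P.natDegree : ℂ) ≠ 0 := by
    have : P.natDegree ≠ 0 := by omega
    exact_mod_cast this
  -- `ξ = d c`
  have hξ : (d * c) ^ P.natDegree ∈ Complex.slitPlane := by
    have h1 : (d * c) ^ P.natDegree = (((P.natDegree : ℝ) ^ P.natDegree)⁻¹ : ℝ) *
        (P.coeff (P.natDegree - 1) ^ P.natDegree / P.leadingCoeff ^ (P.natDegree - 1)) := by
      rw [mul_pow, hB.hc, hd, div_pow, div_pow]
      have h2 : P.leadingCoeff ^ P.natDegree = P.leadingCoeff ^ (P.natDegree - 1) * P.leadingCoeff := by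
        rw [← pow_succ, Nat.sub_add_cancel (by omega)]
      rw [h2]
      push_cast
      field_simp
    rw [h1]
    have h3 : 0 < ((P.natDegree : ℝ) ^ P.natDegree)⁻¹ := by
      have : (0 : ℝ) < P.natDegree := by
        have : 0 < P.natDegree := by omega
        exact_mod_cast this
      positivity
    rw [Complex.mem_slitPlane_iff] at hsl ⊢
    rw [Complex.re_ofReal_mul, Complex.im_ofReal_mul]
    rcases hsl with h | h
    · exact Or.inl (mul_pos h3 h)
    · exact Or.inr (mul_ne_zero h3.ne' h)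
  have hdom : ∀ l < P.natDegree, (d * c * om P.natDegree ^ l).re ≤ (d * c).re := by
    intro l hl
    have h1 := (p_X3_normsq hg hB.one c).sub (p_X3_normsq hg hB.one (c * om P.natDegree ^ l))
    have h2 := p_X3_slope_nonneg h1 (by simp) hB.ld.ht (fun t ht => by
      have h3 := hB.ld.dom l hl t ht
      rw [p_X3_norm_br (by omega), p_X3_norm_br (by omega), pow_zero, mul_one] at h3
      have := norm_nonneg (g (c * om P.natDegree ^ l * t))
      simp only [Pi.sub_apply]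
      nlinarith)
    rw [← mul_assoc] at h2
    linarith
  have hlt := hX2 P.natDegree (d * c) (by omega) hξ hdom
  -- a uniform constant
  obtain ⟨κ, hκ0, hκ⟩ : ∃ κ : ℝ, 0 < κ ∧ ∀ l ∈ Finset.Ico 1 P.natDegree,
      κ < (d * c).re - (d * c * om P.natDegree ^ l).re := by
    have h1 : ∀ᶠ κ : ℝ in 𝓝[>] 0, ∀ l ∈ Finset.Ico 1 P.natDegree,
        κ < (d * c).re - (d * c * om P.natDegree ^ l).re := by
      rw [Filter.eventually_all_finset]
      intro l hl
      have h2 := hlt l (Finset.mem_Ico.1 hl).1 (Finset.mem_Ico.1 hl).2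
      exact nhdsWithin_le_nhds (gt_mem_nhds (sub_pos.2 h2))
    obtain ⟨κ, h3, h4⟩ := (h1.and self_mem_nhdsWithin).exists
    exact ⟨κ, h4, h3⟩
  have hev : ∀ᶠ t : ℝ in 𝓝[>] 0, ∀ l ∈ Finset.Ico 1 P.natDegree,
      (1 + κ * t) * ‖br P.natDegree c g l t‖ ≤ ‖br P.natDegree c g 0 t‖ := by
    rw [Filter.eventually_all_finset]
    intro l hl
    have h1 := hκ l hl
    have h2 : HasDerivAt (fun t : ℝ => (1 + κ * t) ^ 2) (2 * κ) 0 := by
      have := ((((hasDerivAt_id (0 : ℝ)).const_mul κ).const_add 1).fun_pow 2)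
      simpa [mul_comm] using this
    have h3 := (p_X3_normsq hg hB.one c).sub
      (h2.fun_mul (p_X3_normsq hg hB.one (c * om P.natDegree ^ l)))
    have h4 := p_X3_slope_pos h3 (by simp [hB.one]) (by
      simp only [Complex.ofReal_zero, mul_zero, add_zero, hB.one, norm_one, one_pow, mul_one, one_mul]
      rw [← mul_assoc]
      linarith)
    filter_upwards [h4, self_mem_nhdsWithin] with t ht ht0
    rw [p_X3_norm_br (by omega), p_X3_norm_br (by omega), pow_zero, mul_one]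
    simp only [Pi.sub_apply] at ht
    have h5 : ((1 + κ * t) * ‖g (c * om P.natDegree ^ l * t)‖) ^ 2 < ‖g (c * t)‖ ^ 2 := by
      rw [mul_pow]
      linarith
    exact (lt_of_pow_lt_pow_left₀ 2 (norm_nonneg _) h5).le
  have hlim : Tendsto (fun E : ℝ => E ^ (-(1 / (P.natDegree : ℝ)))) atTop (𝓝[>] 0) := by
    refine tendsto_nhdsWithin_iff.2 ⟨tendsto_rpow_neg_atTop (by
      have : (0 : ℝ) < P.natDegree := by
        have : 0 < P.natDegree := by omega
        exact_mod_cast this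
      positivity), ?_⟩
    filter_upwards [eventually_gt_atTop 0] with E hE
    exact Real.rpow_pos_of_pos hE _
  have hτ : ∀ᶠ t : ℝ in 𝓝[>] 0, t ∈ Set.Ioc 0 τ₀ := Ioc_mem_nhdsGT hB.ld.ht
  obtain ⟨E₀, hE₀⟩ := Filter.eventually_atTop.1 (hR.and (hlim.eventually (hev.and hτ)))
  have hMR : (3 : ℝ) ≤ P.natDegree := by exact_mod_cast hM
  refine ⟨κ, 1 / (P.natDegree : ℝ), E₀, hκ0, ?_, ?_⟩
  · rw [div_lt_div_iff₀ (by linarith) (by norm_num)]
    linarith
  intro E hE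
  obtain ⟨h1, h2, h3⟩ := hE₀ E hE
  obtain ⟨t, ht⟩ : ∃ t : ℝ, t = E ^ (-(1 / (P.natDegree : ℝ))) := ⟨_, rfl⟩
  rw [← ht] at h1 h2 h3 ⊢
  refine ⟨(c * t * br P.natDegree c g 0 t)⁻¹, (h1 _).2 ⟨0, by omega, rfl⟩, ?_⟩
  intro w hw hne
  obtain ⟨l, hl, hwl⟩ := (h1 w).1 hw
  rcases Nat.eq_zero_or_pos l with h | h
  · rw [h] at hwl
    rw [hwl] at hne
    exact absurd rfl hne
  have h4 := h2 l (Finset.mem_Ico.2 ⟨h, hl⟩)
  rw [hwl]
  have hl0 : 0 < ‖br P.natDegree c g l t‖ :=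
    lt_of_lt_of_le (by norm_num) (hB.ld.low l hl t ⟨h3.1.le, h3.2⟩)
  have hz0 : 0 < ‖br P.natDegree c g 0 t‖ :=
    lt_of_lt_of_le (by norm_num) (hB.ld.low 0 (by omega) t ⟨h3.1.le, h3.2⟩)
  have hct : 0 < ‖c * t‖ := norm_pos_iff.2 (mul_ne_zero hB.c0 (by
    exact_mod_cast h3.1.ne'))
  rw [norm_inv, norm_inv, norm_mul, norm_mul (c * t), ← div_eq_mul_inv, div_le_iff₀ (by positivity),
    inv_mul_eq_div, le_div_iff₀ (by positivity)]
  nlinarith

end HillRoots
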