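import Pool.Agent.Lib.MP_e63cf8_mp.StmD

open Polynomial Filter Topology MeasureTheory Asymptotics

namespace HillRoots

theorem p_X4_pow (g : ℕ) (hg : 0 < g) (x : ℝ) (hx0 : 0 ≤ x) (hx1 : x ≤ 1) :
    (1 + x / (2 * g)) ^ g ≤ 1 + x := by
  have hgR : (0 : ℝ) < g := by exact_mod_cast hg
  have h1 : 1 + x / (2 * g) ≤ Real.exp (x / (2 * g)) := by
    have := Real.add_one_le_exp (x / (2 * g))
    linarith
  have h2 : (1 + x / (2 * g)) ^ g ≤ Real.exp (x / (2 * g)) ^ g :=
    pow_le_pow_left₀ (by positivity) h1 g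
  have h3 : Real.exp (x / (2 * g)) ^ g = Real.exp (x / 2) := by
    rw [← Real.exp_nat_mul]
    congr 1
    field_simp
  have h4 : Real.exp (x / 2) ≤ 1 + x := by
    have hb := Real.abs_exp_sub_one_sub_id_le (x := x / 2) (by rw [abs_of_nonneg (by positivity)]; linarith)
    have := (abs_le.mp hb).2
    nlinarith
  rw [h3] at h2
  linarith

theorem p_X4 : S_X4 := by
  intro P g hg hD
  obtain ⟨c, θ, E₀, hc, hθ, h⟩ := hD
  have hgR : (0 : ℝ) < g := by exact_mod_cast hg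
  refine ⟨min c 1 / (2 * g), max θ 0, max E₀ 1, by positivity, max_lt hθ (by norm_num), ?_⟩
  intro E hE
  have hE0 : E₀ ≤ E := le_trans (le_max_left _ _) hE
  have hE1 : 1 ≤ E := le_trans (le_max_right _ _) hE
  obtain ⟨v₀, hv₀, hv⟩ := h E hE0
  obtain ⟨w₀, hw₀⟩ := IsAlgClosed.exists_pow_nat_eq v₀ hg
  refine ⟨w₀, ?_, ?_⟩
  · rw [expand_eval, hw₀, hv₀]
  · intro w hw hne
    rw [expand_eval] at hw
    have h1 := hv (w ^ g) hw (by rw [pow_one, pow_one, ← hw₀]; exact hne)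
    have hx0 : 0 ≤ min c 1 * E ^ (-(max θ 0)) := by positivity
    have hpow : E ^ (-(max θ 0)) ≤ 1 := by
      apply Real.rpow_le_one_of_one_le_of_nonpos hE1
      simp
    have hx1 : min c 1 * E ^ (-(max θ 0)) ≤ 1 := by
      have : min c 1 ≤ 1 := min_le_right _ _
      have h0 : 0 ≤ min c 1 := by positivity
      have hp0 : 0 ≤ E ^ (-(max θ 0)) := by positivity
      nlinarith
    have hx2 : min c 1 * E ^ (-(max θ 0)) ≤ c * E ^ (-θ) := by
      apply mul_le_mul (min_le_left _ _) _ (by positivity) hc.le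
      apply Real.rpow_le_rpow_of_exponent_le hE1
      simp
    have hb := p_X4_pow g hg _ hx0 hx1
    have hnn : 0 ≤ 1 + min c 1 / (2 * g) * E ^ (-(max θ 0)) := by positivity
    have key : ((1 + min c 1 / (2 * g) * E ^ (-(max θ 0))) * ‖w₀‖) ^ g ≤ ‖w‖ ^ g := by
      rw [mul_pow, ← norm_pow, ← norm_pow, hw₀]
      have e : 1 + min c 1 / (2 * g) * E ^ (-(max θ 0)) = 1 + min c 1 * E ^ (-(max θ 0)) / (2 * g) := by
        ring
      rw [e]
      calc (1 + min c 1 * E ^ (-(max θ 0)) / (2 * g)) ^ g * ‖v₀‖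
          ≤ (1 + min c 1 * E ^ (-(max θ 0))) * ‖v₀‖ := mul_le_mul_of_nonneg_right hb (norm_nonneg _)
        _ ≤ (1 + c * E ^ (-θ)) * ‖v₀‖ := by
            apply mul_le_mul_of_nonneg_right _ (norm_nonneg _)
            linarith
        _ ≤ ‖w ^ g‖ := h1
    exact (pow_le_pow_iff_left₀ (by positivity) (norm_nonneg _) hg.ne').mp key

end HillRoots
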