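import Pool.Agent.Lib.MP_e63cf8_mp.StmD

open Polynomial Filter Topology MeasureTheory Asymptotics

namespace HillRoots

theorem p_X5 : S_X5 := by
  intro a g hg ha
  refine ⟨1, 0, 0, one_pos, by norm_num, ?_⟩
  intro E _
  obtain ⟨w₀, hw₀⟩ := IsAlgClosed.exists_pow_nat_eq ((E : ℂ) / a) hg
  refine ⟨w₀, ?_, ?_⟩
  · simp only [eval_mul, eval_C, eval_pow, eval_X]
    rw [hw₀]
    field_simp
  · intro w hw hne
    exfalso
    apply hne
    simp only [eval_mul, eval_C, eval_pow, eval_X] at hw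
    rw [hw₀, ← hw]
    field_simp

end HillRoots
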