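import Pool.Agent.Lib.MP_e63cf8_mp.StmC
import Pool.Agent.Lib.MP_e63cf8_mp.StmD

/-!
# MP_e63cf8_mp, piece X8: nonnegative coefficients, domination

Elementary proof (the branch data are not needed): a solution `w` of `P(w) = E` has
`(w/|w|)^M` close to `1`, so `w/|w|` is close to an `M`-th root of unity `ζ`; if `ζ^g = 1` then
`w = ζ x₀` by univalence of `P` in a sector, otherwise `Re w^j ≤ (1-κ)|w|^j` for some `j > M/2`.
-/

set_option autoImplicit false

open Polynomial Filter Topology MeasureTheory Asymptotics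

namespace HillRoots

private lemma p_X8_min {α : Type*} (s : Finset α) (h : α → ℝ) :
    ∃ κ : ℝ, 0 < κ ∧ ∀ x ∈ s, 0 < h x → κ ≤ h x := by
  classical
  induction s using Finset.induction_on with
  | empty => exact ⟨1, one_pos, by simp⟩
  | insert a s ha ih =>
    obtain ⟨κ, hκ, hs⟩ := ih
    by_cases h0 : 0 < h a
    · refine ⟨min κ (h a), lt_min hκ h0, ?_⟩
      intro x hx hx0
      rcases Finset.mem_insert.1 hx with rfl | hx
      · exact min_le_right _ _
      · exact (min_le_left _ _).trans (hs x hx hx0)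
    · refine ⟨κ, hκ, ?_⟩
      intro x hx hx0
      rcases Finset.mem_insert.1 hx with rfl | hx
      · exact absurd hx0 h0
      · exact hs x hx hx0

private lemma p_X8_pow (u z : ℂ) (hu : ‖u‖ ≤ 1) (hz : ‖z‖ ≤ 1) (i : ℕ) :
    ‖u ^ i - z ^ i‖ ≤ i * ‖u - z‖ := by
  induction i with
  | zero => simp
  | succ i ih =>
    have e : u ^ (i + 1) - z ^ (i + 1) = u * (u ^ i - z ^ i) + (u - z) * z ^ i := by ring
    rw [e]
    calc ‖u * (u ^ i - z ^ i) + (u - z) * z ^ i‖
        ≤ ‖u * (u ^ i - z ^ i)‖ + ‖(u - z) * z ^ i‖ := norm_add_le _ _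
      _ = ‖u‖ * ‖u ^ i - z ^ i‖ + ‖u - z‖ * ‖z‖ ^ i := by rw [norm_mul, norm_mul, norm_pow]
      _ ≤ 1 * (i * ‖u - z‖) + ‖u - z‖ * 1 := by
          gcongr
          exact pow_le_one₀ (norm_nonneg _) hz
      _ = _ := by push_cast; ring

private lemma p_X8_bern (y : ℝ) (hy0 : 0 ≤ y) (hy1 : y ≤ 1) (M : ℕ) (hM : 1 ≤ M) :
    (1 + y / (2 * M)) ^ M ≤ 1 + y := by
  have hM0 : (0 : ℝ) < M := by exact_mod_cast hM
  have h1 : (1 + y / (2 * M)) ^ M ≤ Real.exp (y / (2 * M)) ^ M := by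
    apply pow_le_pow_left₀
    · positivity
    · have := Real.add_one_le_exp (y / (2 * M))
      linarith
  have h2 : Real.exp (y / (2 * M)) ^ M = Real.exp (y / 2) := by
    rw [← Real.exp_nat_mul]
    congr 1
    field_simp
  have h3 := Real.exp_bound_div_one_sub_of_interval (x := y / 2) (by linarith) (by linarith)
  have h4 : 1 / (1 - y / 2) ≤ 1 + y := by
    rw [div_le_iff₀ (by linarith)]
    nlinarith
  linarith

private noncomputable def p_X8_f (p : ℕ → ℝ) (M : ℕ) (x : ℝ) : ℝ :=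
  ∑ j ∈ Finset.range (M + 1), p j * x ^ j

private lemma p_X8_mono (p : ℕ → ℝ) (M : ℕ) (hp : ∀ j, 0 ≤ p j) (x y : ℝ) (hx : 0 ≤ x)
    (hxy : x ≤ y) : p_X8_f p M x ≤ p_X8_f p M y := by
  unfold p_X8_f
  apply Finset.sum_le_sum
  intro j _
  exact mul_le_mul_of_nonneg_left (pow_le_pow_left₀ hx hxy j) (hp j)

private lemma p_X8_scale (p : ℕ → ℝ) (M : ℕ) (hp : ∀ j, 0 ≤ p j) (x a : ℝ) (hx : 0 ≤ x)
    (ha : 0 ≤ a) : p_X8_f p M ((1 + a) * x) ≤ (1 + a) ^ M * p_X8_f p M x := by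
  unfold p_X8_f
  rw [Finset.mul_sum]
  apply Finset.sum_le_sum
  intro j hj
  rw [mul_pow]
  have h1 : (1 + a) ^ j ≤ (1 + a) ^ M :=
    pow_le_pow_right₀ (by linarith) (Nat.lt_succ_iff.1 (Finset.mem_range.1 hj))
  have h2 : 0 ≤ p j * x ^ j := mul_nonneg (hp j) (pow_nonneg hx j)
  nlinarith

private lemma p_X8_le (p : ℕ → ℝ) (M : ℕ) (hp : ∀ j, 0 ≤ p j) (x : ℝ) (hx : 1 ≤ x) :
    p_X8_f p M x ≤ p_X8_f p M 1 * x ^ M := by
  unfold p_X8_f
  rw [Finset.sum_mul]
  apply Finset.sum_le_sum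
  intro j hj
  rw [one_pow, mul_one]
  exact mul_le_mul_of_nonneg_left
    (pow_le_pow_right₀ hx (Nat.lt_succ_iff.1 (Finset.mem_range.1 hj))) (hp j)

private lemma p_X8_top (p : ℕ → ℝ) (M : ℕ) (hp : ∀ j, 0 ≤ p j) (x : ℝ) (hx : 0 ≤ x) :
    p M * x ^ M ≤ p_X8_f p M x := by
  unfold p_X8_f
  exact Finset.single_le_sum (f := fun j => p j * x ^ j)
    (fun j _ => mul_nonneg (hp j) (pow_nonneg hx j)) (Finset.self_mem_range_succ M)

private lemma p_X8_cont (p : ℕ → ℝ) (M : ℕ) : Continuous (p_X8_f p M) := by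
  unfold p_X8_f
  fun_prop

private lemma p_X8_ex (p : ℕ → ℝ) (M : ℕ) (hp : ∀ j, 0 ≤ p j) (hM : 1 ≤ M) (hpM : 0 < p M)
    (hp0 : p 0 = 0) (E : ℝ) (hE : 0 ≤ E) : ∃ x : ℝ, 0 ≤ x ∧ p_X8_f p M x = E := by
  have h0 : p_X8_f p M 0 = 0 := by
    unfold p_X8_f
    apply Finset.sum_eq_zero
    intro j _
    rcases Nat.eq_zero_or_pos j with rfl | hj
    · simp [hp0]
    · rw [zero_pow hj.ne', mul_zero]
  set b : ℝ := max 1 (E / p M) with hb
  have hb1 : 1 ≤ b := le_max_left _ _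
  have hbE : E ≤ p_X8_f p M b := by
    refine le_trans ?_ (p_X8_top p M hp b (by linarith))
    have h1 : b ≤ b ^ M := le_self_pow₀ hb1 (by omega)
    have h2 : E / p M ≤ b := le_max_right _ _
    rw [div_le_iff₀ hpM] at h2
    nlinarith
  have := intermediate_value_Icc (a := 0) (b := b) (by linarith)
    (f := p_X8_f p M) (p_X8_cont p M).continuousOn
  obtain ⟨x, hx, hxE⟩ := this ⟨by rw [h0]; exact hE, hbE⟩
  exact ⟨x, hx.1, hxE⟩

private lemma p_X8_norm (p : ℕ → ℝ) (M : ℕ) (hp : ∀ j, 0 ≤ p j) (w : ℂ) :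
    ‖∑ j ∈ Finset.range (M + 1), (p j : ℂ) * w ^ j‖ ≤ p_X8_f p M ‖w‖ := by
  unfold p_X8_f
  refine (norm_sum_le _ _).trans (Finset.sum_le_sum ?_)
  intro j _
  rw [norm_mul, norm_pow, Complex.norm_real, Real.norm_of_nonneg (hp j)]

/-- the direction of a solution -/
private lemma p_X8_A (p : ℕ → ℝ) (M : ℕ) (hp : ∀ j, 0 ≤ p j) (hM : 1 ≤ M) (hpM : 0 < p M)
    (E : ℝ) (hE : 0 ≤ E) (w : ℂ) (hw : 1 ≤ ‖w‖)
    (h : ∑ j ∈ Finset.range (M + 1), (p j : ℂ) * w ^ j = (E : ℂ)) :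
    ‖(w / (‖w‖ : ℂ)) ^ M - 1‖ ≤ 2 * p_X8_f p M 1 / (p M * ‖w‖) := by
  set R := ‖w‖ with hR
  have hR0 : 0 < R := by linarith
  have h1 : (p M : ℂ) * w ^ M - E = - ∑ j ∈ Finset.range M, (p j : ℂ) * w ^ j := by
    rw [← h, Finset.sum_range_succ]
    ring
  have h2 : ‖(p M : ℂ) * w ^ M - E‖ ≤ p_X8_f p M 1 * R ^ (M - 1) := by
    rw [h1, norm_neg]
    refine (norm_sum_le _ _).trans ?_
    have h3 : ∀ j ∈ Finset.range M, ‖(p j : ℂ) * w ^ j‖ ≤ p j * R ^ (M - 1) := by
      intro j hj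
      rw [norm_mul, norm_pow, Complex.norm_real, Real.norm_of_nonneg (hp j), ← hR]
      have : j < M := Finset.mem_range.1 hj
      exact mul_le_mul_of_nonneg_left (pow_le_pow_right₀ hw (by omega)) (hp j)
    refine (Finset.sum_le_sum h3).trans ?_
    rw [← Finset.sum_mul]
    apply mul_le_mul_of_nonneg_right _ (by positivity)
    unfold p_X8_f
    rw [Finset.sum_range_succ]
    simp only [one_pow, mul_one]
    linarith
  have h3 : ‖(E : ℂ) - (p M : ℂ) * (R : ℂ) ^ M‖ ≤ p_X8_f p M 1 * R ^ (M - 1) := by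
    have e1 : (E : ℂ) - (p M : ℂ) * (R : ℂ) ^ M = ((E - p M * R ^ M : ℝ) : ℂ) := by push_cast; ring
    have e2 : ‖(p M : ℂ) * w ^ M‖ = p M * R ^ M := by
      rw [norm_mul, norm_pow, Complex.norm_real, Real.norm_of_nonneg hpM.le]
    have e3 : ‖(E : ℂ)‖ = E := by rw [Complex.norm_real, Real.norm_of_nonneg hE]
    rw [e1, Complex.norm_real, Real.norm_eq_abs, ← e2]
    nth_rewrite 1 [← e3]
    rw [abs_sub_comm]
    exact (abs_norm_sub_norm_le _ _).trans h2
  have h4 : ‖(p M : ℂ) * w ^ M - (p M : ℂ) * (R : ℂ) ^ M‖ ≤ 2 * (p_X8_f p M 1 * R ^ (M - 1)) := by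
    calc ‖(p M : ℂ) * w ^ M - (p M : ℂ) * (R : ℂ) ^ M‖
        = ‖((p M : ℂ) * w ^ M - E) + ((E : ℂ) - (p M : ℂ) * (R : ℂ) ^ M)‖ := by congr 1; ring
      _ ≤ _ := (norm_add_le _ _).trans (by linarith)
  have hRc : (R : ℂ) ≠ 0 := by exact_mod_cast hR0.ne'
  have hpc : (p M : ℂ) ≠ 0 := by exact_mod_cast hpM.ne'
  have h5 : (w / (R : ℂ)) ^ M - 1 =
      ((p M : ℂ) * w ^ M - (p M : ℂ) * (R : ℂ) ^ M) / ((p M : ℂ) * (R : ℂ) ^ M) := by
    rw [div_pow]
    field_simp
  have h6 : ‖(p M : ℂ) * (R : ℂ) ^ M‖ = p M * R ^ M := by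
    rw [norm_mul, norm_pow, Complex.norm_real, Real.norm_of_nonneg hpM.le, Complex.norm_real,
      Real.norm_of_nonneg hR0.le]
  rw [h5, norm_div, h6, div_le_div_iff₀ (by positivity) (by positivity)]
  have h7 : R ^ M = R ^ (M - 1) * R := by
    rw [← pow_succ]
    congr 1
    omega
  rw [h7]
  have h8 : 0 ≤ p M * R := by positivity
  calc _ ≤ 2 * (p_X8_f p M 1 * R ^ (M - 1)) * (p M * R) := mul_le_mul_of_nonneg_right h4 h8
    _ = _ := by ring

/-- close to a root of unity -/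
private lemma p_X8_B (M : ℕ) (hM : 1 ≤ M) (δ : ℝ) (hδ : 0 < δ) (u : ℂ) (hu : ‖u ^ M - 1‖ < δ ^ M) :
    ∃ z : ℂ, z ^ M = 1 ∧ ‖u - z‖ < δ := by
  by_contra hcon
  push Not at hcon
  have hprim := Complex.isPrimitiveRoot_exp M (by omega)
  have h1 := hprim.pow_sub_pow_eq_prod_sub_mul u 1 (by omega)
  simp only [one_pow, mul_one] at h1
  rw [h1, norm_prod] at hu
  have h2 : δ ^ M ≤ ∏ z ∈ nthRootsFinset M (1 : ℂ), ‖u - z‖ := by
    have h3 : δ ^ M = ∏ _z ∈ nthRootsFinset M (1 : ℂ), δ := by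
      rw [Finset.prod_const, hprim.card_nthRootsFinset]
    rw [h3]
    apply Finset.prod_le_prod
    · intro z _
      exact hδ.le
    · intro z hz
      exact hcon z ((mem_nthRootsFinset (by omega) _).1 hz)
  linarith

/-- univalence near the positive axis -/
private lemma p_X8_C (p : ℕ → ℝ) (M : ℕ) (hp : ∀ j, 0 ≤ p j) (hM : 1 ≤ M) (hpM : 0 < p M)
    (v : ℂ) (x : ℝ) (hx : 0 < x) (hv : v ≠ 0) (h1 : M * ‖v / (‖v‖ : ℂ) - 1‖ ≤ 1 / 2)
    (h : ∑ j ∈ Finset.range (M + 1), (p j : ℂ) * v ^ j =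
      ∑ j ∈ Finset.range (M + 1), (p j : ℂ) * (x : ℂ) ^ j) : v = (x : ℂ) := by
  by_contra hne
  set R := ‖v‖ with hR
  have hR0 : 0 < R := norm_pos_iff.2 hv
  have hRc : (R : ℂ) ≠ 0 := by exact_mod_cast hR0.ne'
  set u := v / (R : ℂ) with hu
  have hun : ‖u‖ = 1 := by
    rw [hu, norm_div, Complex.norm_real, Real.norm_of_nonneg hR0.le, ← hR]
    field_simp
  have hvu : v = (R : ℂ) * u := by rw [hu]; field_simp
  have hre : ∀ i ≤ M, 0 < (v ^ i).re := by
    intro i hi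
    have h2 := p_X8_pow u 1 hun.le (by simp) i
    rw [one_pow] at h2
    have h3 : (i : ℝ) * ‖u - 1‖ ≤ M * ‖u - 1‖ :=
      mul_le_mul_of_nonneg_right (by exact_mod_cast hi) (norm_nonneg _)
    have h4 := Complex.abs_re_le_norm (u ^ i - 1)
    rw [Complex.sub_re, Complex.one_re] at h4
    have h5 := (abs_le.1 (h4.trans (h2.trans (h3.trans h1)))).1
    have h6 : (v ^ i).re = R ^ i * (u ^ i).re := by
      rw [hvu, mul_pow, ← Complex.ofReal_pow, Complex.re_ofReal_mul]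
    rw [h6]
    have : 0 < R ^ i := by positivity
    have h7 : 0 < (u ^ i).re := by linarith
    positivity
  have h2 : (∑ j ∈ Finset.range (M + 1), (p j : ℂ) *
      ∑ i ∈ Finset.range j, v ^ i * (x : ℂ) ^ (j - 1 - i)) * (v - x) = 0 := by
    rw [Finset.sum_mul]
    have h3 : ∀ j ∈ Finset.range (M + 1), (p j : ℂ) *
        (∑ i ∈ Finset.range j, v ^ i * (x : ℂ) ^ (j - 1 - i)) * (v - x) =
        (p j : ℂ) * v ^ j - (p j : ℂ) * (x : ℂ) ^ j := by
      intro j _
      rw [mul_assoc, (Commute.all v (x : ℂ)).geom_sum₂_mul]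
      ring
    rw [Finset.sum_congr rfl h3, Finset.sum_sub_distrib, h, sub_self]
  have h3 : ∑ j ∈ Finset.range (M + 1), (p j : ℂ) *
      ∑ i ∈ Finset.range j, v ^ i * (x : ℂ) ^ (j - 1 - i) = 0 :=
    (mul_eq_zero.1 h2).resolve_right (sub_ne_zero.2 hne)
  have h4 := congrArg Complex.re h3
  rw [Complex.re_sum, Complex.zero_re] at h4
  have h5 : ∀ j ∈ Finset.range (M + 1), ((p j : ℂ) *
      ∑ i ∈ Finset.range j, v ^ i * (x : ℂ) ^ (j - 1 - i)).re =
      p j * ∑ i ∈ Finset.range j, (v ^ i).re * x ^ (j - 1 - i) := by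
    intro j _
    rw [Complex.re_ofReal_mul, Complex.re_sum]
    congr 1
    apply Finset.sum_congr rfl
    intro i _
    rw [← Complex.ofReal_pow, Complex.re_mul_ofReal]
  rw [Finset.sum_congr rfl h5] at h4
  have h6 : ∀ j ∈ Finset.range (M + 1),
      0 ≤ p j * ∑ i ∈ Finset.range j, (v ^ i).re * x ^ (j - 1 - i) := by
    intro j hj
    apply mul_nonneg (hp j)
    apply Finset.sum_nonneg
    intro i hi
    have : j < M + 1 := Finset.mem_range.1 hj
    have : i < j := Finset.mem_range.1 hi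
    exact mul_nonneg (hre i (by omega)).le (by positivity)
  have h7 : 0 < ∑ j ∈ Finset.range (M + 1),
      p j * ∑ i ∈ Finset.range j, (v ^ i).re * x ^ (j - 1 - i) := by
    apply Finset.sum_pos' h6
    refine ⟨M, Finset.self_mem_range_succ M, ?_⟩
    apply mul_pos hpM
    apply Finset.sum_pos
    · intro i hi
      have : i < M := Finset.mem_range.1 hi
      exact mul_pos (hre i (by omega)) (by positivity)
    · exact ⟨0, Finset.mem_range.2 (by omega)⟩
  linarith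

/-- the gain -/
private lemma p_X8_D (p : ℕ → ℝ) (M : ℕ) (hp : ∀ j, 0 ≤ p j) (E κ : ℝ) (w : ℂ)
    (h : ∑ j ∈ Finset.range (M + 1), (p j : ℂ) * w ^ j = (E : ℂ)) (j : ℕ) (hj : j ≤ M)
    (hre : (w ^ j).re ≤ (1 - κ) * ‖w‖ ^ j) :
    E + κ * p j * ‖w‖ ^ j ≤ p_X8_f p M ‖w‖ := by
  have h1 := congrArg Complex.re h
  rw [Complex.re_sum, Complex.ofReal_re] at h1
  simp only [Complex.re_ofReal_mul] at h1
  have h2 : p_X8_f p M ‖w‖ - E = ∑ i ∈ Finset.range (M + 1), p i * (‖w‖ ^ i - (w ^ i).re) := by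
    rw [← h1]
    unfold p_X8_f
    rw [← Finset.sum_sub_distrib]
    apply Finset.sum_congr rfl
    intro i _
    ring
  have h3 : p j * (‖w‖ ^ j - (w ^ j).re) ≤
      ∑ i ∈ Finset.range (M + 1), p i * (‖w‖ ^ i - (w ^ i).re) := by
    apply Finset.single_le_sum (f := fun i => p i * (‖w‖ ^ i - (w ^ i).re)) _
      (Finset.mem_range.2 (by omega))
    intro i _
    apply mul_nonneg (hp i)
    have := Complex.re_le_norm (w ^ i)
    rw [norm_pow] at this
    linarith
  have h4 : p j * (κ * ‖w‖ ^ j) ≤ p j * (‖w‖ ^ j - (w ^ j).re) :=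
    mul_le_mul_of_nonneg_left (by linarith) (hp j)
  linarith

private lemma p_X8_one (z : ℂ) (hz : ‖z‖ = 1) (hne : z ≠ 1) : z.re < 1 := by
  have h1 := Complex.re_le_norm z
  rw [hz] at h1
  refine lt_of_le_of_ne h1 ?_
  intro h2
  apply hne
  have h3 : Complex.normSq z = 1 := by rw [Complex.normSq_eq_norm_sq, hz]; norm_num
  rw [Complex.normSq_apply, h2] at h3
  apply Complex.ext
  · rw [h2, Complex.one_re]
  · have : z.im * z.im = 0 := by linarith
    rw [Complex.one_im]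
    simpa using this

theorem p_X8 (_hR3 : S_R3) (_hR4 : S_R4) : S_X8 := by
  intro P p g hp hp0 hP0 hP hg hsupp hd
  have heval : ∀ w : ℂ, P.eval w = ∑ j ∈ Finset.range (P.natDegree + 1), (p j : ℂ) * w ^ j := by
    intro w
    rw [Polynomial.eval_eq_sum_range]
    simp only [hp]
  set M := P.natDegree with hMdef
  have hM : 1 ≤ M := by
    by_contra h
    have h0 : P.natDegree = 0 := by omega
    rw [Polynomial.eq_C_of_natDegree_eq_zero h0, hP0, C_0] at hP
    exact hP rfl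
  have hM0 : (0 : ℝ) < M := by exact_mod_cast hM
  have hpM : 0 < p M := by
    refine lt_of_le_of_ne (hp0 M) ?_
    intro h
    have h1 : P.coeff M ≠ 0 := by
      rw [hMdef]
      exact Polynomial.leadingCoeff_ne_zero.2 hP
    apply h1
    rw [hp, ← h, Complex.ofReal_zero]
  have hp00 : p 0 = 0 := by
    have := hp 0
    rw [hP0] at this
    exact_mod_cast this.symm
  set S := p_X8_f p M 1 with hS
  have hS0 : 0 < S := by
    have := p_X8_top p M hp0 1 zero_le_one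
    rw [one_pow, mul_one] at this
    linarith
  -- constants
  obtain ⟨κ, hκ0, hκ⟩ := p_X8_min ((nthRootsFinset M (1 : ℂ)) ×ˢ (Finset.range (M + 1)))
    (fun x => (1 - (x.1 ^ x.2).re) / 2)
  obtain ⟨q, hq0, hq⟩ := p_X8_min (Finset.range (M + 1)) p
  set δ : ℝ := min (1 / 2) κ / M with hδ
  have hδ0 : 0 < δ := by
    have : 0 < min (1 / 2) κ := lt_min (by norm_num) hκ0
    positivity
  have hδM : M * δ = min (1 / 2) κ := by rw [hδ]; field_simp
  have hδ1 : M * δ ≤ 1 / 2 := hδM ▸ min_le_left _ _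
  have hδ2 : M * δ ≤ κ := hδM ▸ min_le_right _ _
  set R₀ : ℝ := max 1 (2 * S / (p M * δ ^ M) + 1) with hR₀
  have hR₀1 : 1 ≤ R₀ := le_max_left _ _
  set θ : ℝ := 1 / 2 - 1 / (2 * M) with hθ
  have hθ0 : 0 ≤ θ := by
    have h1 : 1 / (2 * (M : ℝ)) ≤ 1 / 2 := by
      apply one_div_le_one_div_of_le (by norm_num)
      have : (1 : ℝ) ≤ M := by exact_mod_cast hM
      linarith
    linarith
  set c₁ : ℝ := min 1 (κ * q / (2 * S ^ (1 - θ))) with hc₁
  have hSp : 0 < S ^ (1 - θ) := Real.rpow_pos_of_pos hS0 _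
  have hc₁0 : 0 < c₁ := lt_min one_pos (by positivity)
  refine ⟨c₁ / (2 * M), θ, max 1 (p_X8_f p M R₀ + 1), by positivity, ?_, ?_⟩
  · have : 0 < 1 / (2 * (M : ℝ)) := by positivity
    linarith
  intro E hE
  have hE1 : 1 ≤ E := (le_max_left _ _).trans hE
  have hE2 : p_X8_f p M R₀ < E := by
    have := (le_max_right 1 (p_X8_f p M R₀ + 1)).trans hE
    linarith
  obtain ⟨x, hx0, hxE⟩ := p_X8_ex p M hp0 hM hpM hp00 E (by linarith)
  have hxR : R₀ < x := by
    by_contra h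
    have := p_X8_mono p M hp0 x R₀ hx0 (not_lt.1 h)
    linarith
  have hx1 : 1 < x := by linarith
  have hxpos : 0 < x := by linarith
  have hxc : ∑ j ∈ Finset.range (M + 1), (p j : ℂ) * (x : ℂ) ^ j = (E : ℂ) := by
    rw [← hxE]
    unfold p_X8_f
    push_cast
    rfl
  refine ⟨(x : ℂ), by rw [heval, hxc], ?_⟩
  intro w hw hwg
  rw [heval] at hw
  have hwn : E ≤ p_X8_f p M ‖w‖ := by
    have := p_X8_norm p M hp0 w
    rw [hw, Complex.norm_real, Real.norm_of_nonneg (by linarith)] at this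
    exact this
  have hwR : R₀ < ‖w‖ := by
    by_contra h
    have := p_X8_mono p M hp0 ‖w‖ R₀ (norm_nonneg _) (not_lt.1 h)
    linarith
  have hw1 : 1 < ‖w‖ := by linarith
  have hw0 : w ≠ 0 := by
    rintro rfl
    rw [norm_zero] at hw1
    linarith
  have hRc : (‖w‖ : ℂ) ≠ 0 := by
    exact_mod_cast (show (‖w‖ : ℝ) ≠ 0 by linarith)
  -- the direction
  have hA := p_X8_A p M hp0 hM hpM E (by linarith) w hw1.le hw
  have hA2 : 2 * S / (p M * ‖w‖) < δ ^ M := by
    have h1 : 2 * S / (p M * δ ^ M) < ‖w‖ := by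
      have := le_max_right 1 (2 * S / (p M * δ ^ M) + 1)
      linarith
    rw [div_lt_iff₀ (by positivity)] at h1 ⊢
    linarith
  obtain ⟨z, hzM, hz⟩ := p_X8_B M hM δ hδ0 (w / (‖w‖ : ℂ)) (hA.trans_lt hA2)
  set u := w / (‖w‖ : ℂ) with hu
  have hun : ‖u‖ = 1 := by
    rw [hu, norm_div, Complex.norm_real, Real.norm_of_nonneg (norm_nonneg w)]
    field_simp
  have hwu : w = (‖w‖ : ℂ) * u := by rw [hu]; field_simp
  have hzn : ‖z‖ = 1 := Complex.norm_eq_one_of_pow_eq_one hzM (by omega)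
  have hz0 : z ≠ 0 := by
    rintro rfl
    rw [norm_zero] at hzn
    exact zero_ne_one hzn
  by_cases hzg : z ^ g = 1
  · exfalso
    apply hwg
    have hvn : ‖w / z‖ = ‖w‖ := by rw [norm_div, hzn, div_one]
    have hv : w / z = (x : ℂ) := by
      apply p_X8_C p M hp0 hM hpM (w / z) x hxpos (div_ne_zero hw0 hz0)
      · rw [hvn]
        have e1 : w / z / (‖w‖ : ℂ) - 1 = (u - z) / z := by
          rw [hu]
          field_simp
        rw [e1, norm_div, hzn, div_one]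
        exact (mul_le_mul_of_nonneg_left hz.le hM0.le).trans hδ1
      · rw [hxc, ← hw]
        apply Finset.sum_congr rfl
        intro j _
        by_cases hpj : P.coeff j = 0
        · rw [← hp, hpj, zero_mul, zero_mul]
        · obtain ⟨m, rfl⟩ := hsupp j hpj
          rw [div_pow, pow_mul z, hzg, one_pow, div_one]
    rw [← hv, div_pow, hzg, div_one]
  · -- the main case
    obtain ⟨j, hj1, hj2, hj3⟩ : ∃ j : ℕ, M < 2 * j ∧ P.coeff j ≠ 0 ∧ z ^ j ≠ 1 := by
      by_contra hno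
      push Not at hno
      apply hzg
      rw [← orderOf_dvd_iff_pow_eq_one]
      apply hd
      intro j h1 h2
      rw [orderOf_dvd_iff_pow_eq_one]
      exact hno j h1 h2
    have hjM : j ≤ M := Polynomial.le_natDegree_of_ne_zero hj2
    have hpj : 0 < p j := by
      refine lt_of_le_of_ne (hp0 j) ?_
      intro h
      apply hj2
      rw [hp, ← h, Complex.ofReal_zero]
    have hqj : q ≤ p j := hq j (Finset.mem_range.2 (by omega)) hpj
    have hre : (w ^ j).re ≤ (1 - κ) * ‖w‖ ^ j := by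
      have h1 := p_X8_pow u z hun.le hzn.le j
      have h2 : (j : ℝ) * ‖u - z‖ ≤ M * δ :=
        mul_le_mul (by exact_mod_cast hjM) hz.le (norm_nonneg _) hM0.le
      have h3 := Complex.re_le_norm (u ^ j - z ^ j)
      rw [Complex.sub_re] at h3
      have h4 : (z ^ j).re < 1 := p_X8_one _ (by rw [norm_pow, hzn, one_pow]) hj3
      have h5 := hκ (z, j) (Finset.mem_product.2 ⟨(mem_nthRootsFinset (by omega) _).2 hzM,
        Finset.mem_range.2 (by omega)⟩) (by
          show 0 < (1 - (z ^ j).re) / 2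
          linarith)
      have h5' : κ ≤ (1 - (z ^ j).re) / 2 := h5
      have h6 : (w ^ j).re = ‖w‖ ^ j * (u ^ j).re := by
        conv_lhs => rw [hwu, mul_pow, ← Complex.ofReal_pow, Complex.re_ofReal_mul]
      rw [h6, mul_comm]
      apply mul_le_mul_of_nonneg_right _ (by positivity)
      linarith
    have hD := p_X8_D p M hp0 E κ w hw j hjM hre
    have hwpos : 0 < ‖w‖ := by linarith
    have hgain : 0 < κ * p j * ‖w‖ ^ j := by positivity
    have hxw : x < ‖w‖ := by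
      by_contra h
      have := p_X8_mono p M hp0 ‖w‖ x (norm_nonneg _) (not_lt.1 h)
      linarith
    -- lower bound for `x ^ j`
    have hxj : E ^ (1 - θ) / S ^ (1 - θ) ≤ x ^ j := by
      have h1 : E / S ≤ x ^ M := by
        rw [div_le_iff₀ hS0, ← hxE, mul_comm]
        exact p_X8_le p M hp0 x hx1.le
      have hθ1 : 1 - θ = ((M : ℝ) + 1) / 2 / M := by
        rw [hθ]
        field_simp
        ring
      have h2 : (E / S) ^ (1 - θ) ≤ (x ^ M) ^ (1 - θ) :=
        Real.rpow_le_rpow (by positivity) h1 (by rw [hθ1]; positivity)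
      rw [Real.div_rpow (by linarith) hS0.le] at h2
      refine h2.trans ?_
      rw [← Real.rpow_natCast x M, ← Real.rpow_mul hxpos.le, ← Real.rpow_natCast x j]
      apply Real.rpow_le_rpow_of_exponent_le hx1.le
      have h3 : (M : ℝ) * (1 - θ) = ((M : ℝ) + 1) / 2 := by
        rw [hθ1]
        field_simp
      rw [h3]
      have h4 : (M : ℝ) + 1 ≤ 2 * j := by exact_mod_cast hj1
      linarith
    -- conclusion
    by_contra hlt
    push Not at hlt
    set y : ℝ := c₁ * E ^ (-θ) with hy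
    have hEθ : E ^ (-θ) ≤ 1 := Real.rpow_le_one_of_one_le_of_nonpos hE1 (by linarith)
    have hEθ0 : 0 < E ^ (-θ) := Real.rpow_pos_of_pos (by linarith) _
    have hy0 : 0 ≤ y := by positivity
    have hy1 : y ≤ 1 := by
      have : c₁ ≤ 1 := min_le_left _ _
      calc y ≤ 1 * 1 := mul_le_mul this hEθ hEθ0.le zero_le_one
        _ = 1 := one_mul 1
    have e1 : c₁ / (2 * M) * E ^ (-θ) = y / (2 * M) := by rw [hy]; ring
    rw [e1, Complex.norm_real, Real.norm_of_nonneg hxpos.le] at hlt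
    have h1 : p_X8_f p M ‖w‖ ≤ (1 + y) * E := by
      calc p_X8_f p M ‖w‖ ≤ p_X8_f p M ((1 + y / (2 * M)) * x) :=
            p_X8_mono p M hp0 _ _ (norm_nonneg _) hlt.le
        _ ≤ (1 + y / (2 * M)) ^ M * p_X8_f p M x :=
            p_X8_scale p M hp0 x _ hx0 (by positivity)
        _ ≤ (1 + y) * E := by
            rw [hxE]
            exact mul_le_mul_of_nonneg_right (p_X8_bern y hy0 hy1 M hM) (by linarith)
    have h2 : y * E ≤ κ * q / (2 * S ^ (1 - θ)) * E ^ (1 - θ) := by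
      have h3 : y * E = c₁ * E ^ (1 - θ) := by
        rw [hy, mul_assoc]
        congr 1
        rw [show (1 - θ) = -θ + 1 by ring, Real.rpow_add (by linarith), Real.rpow_one]
      rw [h3]
      exact mul_le_mul_of_nonneg_right (min_le_right _ _) (by positivity)
    have h3 : κ * q / (2 * S ^ (1 - θ)) * E ^ (1 - θ) = κ * q * (E ^ (1 - θ) / S ^ (1 - θ)) / 2 := by
      field_simp
    have h4 : κ * q * (E ^ (1 - θ) / S ^ (1 - θ)) ≤ κ * p j * ‖w‖ ^ j := by
      have h5 : x ^ j ≤ ‖w‖ ^ j := pow_le_pow_left₀ hx0 hxw.le j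
      have h6 : κ * q ≤ κ * p j := mul_le_mul_of_nonneg_left hqj hκ0.le
      exact mul_le_mul h6 (hxj.trans h5) (by positivity) (by positivity)
    linarith

end HillRoots
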