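import Pool.Agent.Lib.MP_e63cf8_mp.StmD

/-!
# MP_e63cf8_mp, piece X9: nonnegative coefficients, the criterion
-/

open Polynomial Filter Topology MeasureTheory Asymptotics

namespace HillRoots

/-- the polynomial function with coefficients `p` -/
noncomputable def p_X9_F (p : ℕ → ℝ) (N : ℕ) (x : ℝ) : ℝ :=
  ∑ j ∈ Finset.range (N + 1), p j * x ^ j

theorem p_X9_eval {P : ℂ[X]} {p : ℕ → ℝ} {N : ℕ} (hP : ∀ j, P.coeff j = (p j : ℂ))
    (hN : P.natDegree ≤ N) (x : ℝ) : P.eval (x : ℂ) = ((p_X9_F p N x : ℝ) : ℂ) := by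
  rw [Polynomial.eval_eq_sum_range' (Nat.lt_succ_of_le hN), p_X9_F]
  push_cast
  apply Finset.sum_congr rfl
  intro j _
  rw [hP j]

theorem p_X9_norm {P : ℂ[X]} {p : ℕ → ℝ} {N : ℕ} (hP : ∀ j, P.coeff j = (p j : ℂ))
    (hp : ∀ j, 0 ≤ p j) (hN : P.natDegree ≤ N) (w : ℂ) : ‖P.eval w‖ ≤ p_X9_F p N ‖w‖ := by
  rw [Polynomial.eval_eq_sum_range' (Nat.lt_succ_of_le hN), p_X9_F]
  refine (norm_sum_le _ _).trans (le_of_eq ?_)
  apply Finset.sum_congr rfl
  intro j _
  rw [norm_mul, norm_pow, hP j, Complex.norm_real, Real.norm_of_nonneg (hp j)]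

theorem p_X9_nonneg {p : ℕ → ℝ} {N : ℕ} (hp : ∀ j, 0 ≤ p j) {x : ℝ} (hx : 0 ≤ x) :
    0 ≤ p_X9_F p N x :=
  Finset.sum_nonneg fun j _ => mul_nonneg (hp j) (pow_nonneg hx j)

theorem p_X9_lt {p : ℕ → ℝ} {N M : ℕ} (hp : ∀ j, 0 ≤ p j) (hM : 1 ≤ M) (hMN : M ≤ N)
    (hpM : 0 < p M) {x y : ℝ} (hx : 0 ≤ x) (hxy : x < y) : p_X9_F p N x < p_X9_F p N y := by
  unfold p_X9_F
  apply Finset.sum_lt_sum
  · intro j _
    exact mul_le_mul_of_nonneg_left (pow_le_pow_left₀ hx hxy.le j) (hp j)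
  · exact ⟨M, Finset.mem_range.2 (Nat.lt_succ_of_le hMN),
      mul_lt_mul_of_pos_left (pow_lt_pow_left₀ hxy hx (by omega)) hpM⟩

theorem p_X9_rmin {P : ℂ[X]} {p : ℕ → ℝ} {N M : ℕ} (hP : ∀ j, P.coeff j = (p j : ℂ))
    (hp : ∀ j, 0 ≤ p j) (hN : P.natDegree ≤ N) (hM : 1 ≤ M) (hMN : M ≤ N) (hpM : 0 < p M)
    {x E : ℝ} (hx : 0 ≤ x) (hE : p_X9_F p N x = E) : rmin P E = x := by
  have hE0 : 0 ≤ E := hE ▸ p_X9_nonneg hp hx
  unfold rmin
  apply IsLeast.csInf_eq
  constructor
  · exact ⟨x, by rw [p_X9_eval hP hN, hE], by rw [Complex.norm_real, Real.norm_of_nonneg hx]⟩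
  · rintro r ⟨w, hw, rfl⟩
    by_contra hc
    push Not at hc
    have h1 := p_X9_norm hP hp hN w
    rw [hw, Complex.norm_real, Real.norm_of_nonneg hE0] at h1
    have h2 := p_X9_lt hp hM hMN hpM (norm_nonneg w) hc
    linarith

theorem p_X9_single {p : ℕ → ℝ} {N M : ℕ} (hp : ∀ j, 0 ≤ p j) (hMN : M ≤ N)
    {x : ℝ} (hx : 0 ≤ x) : p M * x ^ M ≤ p_X9_F p N x := by
  unfold p_X9_F
  exact Finset.single_le_sum (f := fun j => p j * x ^ j)
    (fun j _ => mul_nonneg (hp j) (pow_nonneg hx j)) (Finset.mem_range.2 (Nat.lt_succ_of_le hMN))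

theorem p_X9_exists {p : ℕ → ℝ} {N M : ℕ} (hp : ∀ j, 0 ≤ p j) (hp0 : p 0 = 0) (hM : 1 ≤ M)
    (hMN : M ≤ N) (hpM : 0 < p M) {E : ℝ} (hE : 0 ≤ E) : ∃ x, 0 ≤ x ∧ p_X9_F p N x = E := by
  have hcont : Continuous (p_X9_F p N) := by unfold p_X9_F; fun_prop
  have h0 : p_X9_F p N 0 = 0 := by
    unfold p_X9_F
    apply Finset.sum_eq_zero
    intro j _
    rcases Nat.eq_zero_or_pos j with rfl | h
    · simp [hp0]
    · rw [zero_pow h.ne', mul_zero]
  set b : ℝ := max 1 (E / p M) with hbdef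
  have hb1 : 1 ≤ b := le_max_left _ _
  have hb : E ≤ p_X9_F p N b := by
    have h1 : E ≤ p M * b := by
      have : E / p M ≤ b := le_max_right _ _
      rw [div_le_iff₀ hpM] at this
      linarith
    have h2 : p M * b ≤ p M * b ^ M := by
      apply mul_le_mul_of_nonneg_left _ hpM.le
      exact le_self_pow₀ hb1 (by omega)
    have h3 : p M * b ^ M ≤ p_X9_F p N b := p_X9_single hp hMN (by linarith)
    linarith
  have h5 := intermediate_value_Icc (by linarith : (0:ℝ) ≤ b) hcont.continuousOn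
  rw [h0] at h5
  obtain ⟨x, hx, hxE⟩ := h5 ⟨hE, hb⟩
  exact ⟨x, hx.1, hxE⟩

theorem p_X9_low {p : ℕ → ℝ} {N M : ℕ} (hp : ∀ j, 0 ≤ p j) (hM : 1 ≤ M) (hMN : M ≤ N)
    {x y : ℝ} (hx : 0 < x) (hxy : x ≤ y) :
    p M * x ^ M * Real.log (y / x) ≤ p_X9_F p N y - p_X9_F p N x := by
  have hy : 0 < y := hx.trans_le hxy
  have h1 : p M * (y ^ M - x ^ M) ≤ p_X9_F p N y - p_X9_F p N x := by
    unfold p_X9_F
    rw [← Finset.sum_sub_distrib]
    have h := Finset.single_le_sum (f := fun j => p j * y ^ j - p j * x ^ j)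
      (s := Finset.range (N + 1))
      (fun j _ => by
        have h := mul_le_mul_of_nonneg_left (pow_le_pow_left₀ hx.le hxy j) (hp j)
        simpa using h)
      (Finset.mem_range.2 (Nat.lt_succ_of_le hMN))
    rw [mul_sub]
    exact h
  have h2 : Real.log (y / x) ≤ (y / x) ^ M - 1 := by
    have h : Real.log ((y / x) ^ M) ≤ (y / x) ^ M - 1 :=
      Real.log_le_sub_one_of_pos (by positivity)
    rw [Real.log_pow] at h
    have h3 : 0 ≤ Real.log (y / x) := Real.log_nonneg (by rwa [le_div_iff₀ hx, one_mul])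
    have h4 : (1:ℝ) ≤ M := by exact_mod_cast hM
    nlinarith
  have h3 : x ^ M * ((y / x) ^ M - 1) = y ^ M - x ^ M := by
    rw [div_pow]; field_simp
  have hpx : 0 ≤ p M * x ^ M := mul_nonneg (hp M) (by positivity)
  calc p M * x ^ M * Real.log (y / x) ≤ p M * x ^ M * ((y / x) ^ M - 1) :=
        mul_le_mul_of_nonneg_left h2 hpx
    _ = p M * (y ^ M - x ^ M) := by rw [mul_assoc, h3]
    _ ≤ _ := h1

theorem p_X9_upp {p : ℕ → ℝ} {N : ℕ} (hp : ∀ j, 0 ≤ p j)
    {x y : ℝ} (hx : 0 < x) (hxy : x ≤ y) :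
    p_X9_F p N y - p_X9_F p N x ≤ N * p_X9_F p N y * Real.log (y / x) := by
  have hy : 0 < y := hx.trans_le hxy
  have hr0 : 0 < x / y := by positivity
  have hr1 : x / y ≤ 1 := by rw [div_le_one hy]; exact hxy
  have h1 : (x / y) ^ N * p_X9_F p N y ≤ p_X9_F p N x := by
    unfold p_X9_F
    rw [Finset.mul_sum]
    apply Finset.sum_le_sum
    intro j hj
    have hjN : j ≤ N := Nat.lt_succ_iff.1 (Finset.mem_range.1 hj)
    have h : (x / y) ^ N * y ^ j ≤ x ^ j := by
      calc (x / y) ^ N * y ^ j ≤ (x / y) ^ j * y ^ j := by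
            apply mul_le_mul_of_nonneg_right _ (by positivity)
            exact pow_le_pow_of_le_one hr0.le hr1 hjN
        _ = x ^ j := by rw [← mul_pow, div_mul_cancel₀ _ hy.ne']
    calc (x / y) ^ N * (p j * y ^ j) = p j * ((x / y) ^ N * y ^ j) := by ring
      _ ≤ p j * x ^ j := mul_le_mul_of_nonneg_left h (hp j)
  have h2 : 1 - (x / y) ^ N ≤ N * Real.log (y / x) := by
    have h := Real.log_le_sub_one_of_pos (show 0 < (x / y) ^ N by positivity)
    rw [Real.log_pow] at h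
    have h3 : Real.log (y / x) = - Real.log (x / y) := by rw [← Real.log_inv, inv_div]
    rw [h3]
    linarith
  have h3 : 0 ≤ p_X9_F p N y := p_X9_nonneg hp hy.le
  nlinarith

theorem p_X9_big {p : ℕ → ℝ} {N : ℕ} (hp : ∀ j, 0 ≤ p j) {x : ℝ} (hx : 1 ≤ x) :
    p_X9_F p N x ≤ (∑ j ∈ Finset.range (N + 1), p j) * x ^ N := by
  unfold p_X9_F
  rw [Finset.sum_mul]
  apply Finset.sum_le_sum
  intro j hj
  have hjN : j ≤ N := Nat.lt_succ_iff.1 (Finset.mem_range.1 hj)
  exact mul_le_mul_of_nonneg_left (pow_le_pow_right₀ hx hjN) (hp j)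

theorem p_X9_core1 {p q : ℕ → ℝ} {M : ℕ} (hp : ∀ j, 0 ≤ p j) (hq : ∀ j, 0 ≤ q j) (hM : 1 ≤ M)
    (hqM : 0 < q M) (heq : ∀ j, M < 2 * j → p j = q j) {x y E : ℝ} (hx : 1 ≤ x) (hxy : x ≤ y)
    (hE : 0 < E) (h1 : p_X9_F p M x = E) (h2 : p_X9_F q M y = E) :
    Real.log (y / x) ≤ (∑ j ∈ Finset.range (M + 1), |p j - q j|) *
      Real.sqrt (∑ j ∈ Finset.range (M + 1), p j) / q M * E ^ (-(1 / 2) : ℝ) := by
  set D := ∑ j ∈ Finset.range (M + 1), |p j - q j| with hD
  set C := ∑ j ∈ Finset.range (M + 1), p j with hC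
  have hx0 : 0 < x := by linarith
  set s := Real.sqrt (x ^ M) with hs
  have hxM : 0 < x ^ M := by positivity
  have hs0 : 0 < s := Real.sqrt_pos.2 hxM
  have hs2 : s * s = x ^ M := Real.mul_self_sqrt hxM.le
  have hA : p_X9_F p M x - p_X9_F q M x ≤ D * s := by
    unfold p_X9_F
    rw [← Finset.sum_sub_distrib, hD, Finset.sum_mul]
    apply Finset.sum_le_sum
    intro j _
    rw [← sub_mul]
    by_cases hj : M < 2 * j
    · rw [heq j hj, sub_self, zero_mul, abs_zero, zero_mul]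
    · have h3 : x ^ j ≤ s := by
        apply Real.le_sqrt_of_sq_le
        rw [← pow_mul]
        exact pow_le_pow_right₀ hx (by omega)
      calc (p j - q j) * x ^ j ≤ |p j - q j| * x ^ j :=
            mul_le_mul_of_nonneg_right (le_abs_self _) (by positivity)
        _ ≤ |p j - q j| * s := mul_le_mul_of_nonneg_left h3 (abs_nonneg _)
  have hB := p_X9_low (N := M) hq hM le_rfl hx0 hxy
  have hEC : E ≤ C * x ^ M := h1 ▸ p_X9_big hp hx
  have hL : 0 ≤ Real.log (y / x) := Real.log_nonneg (by rwa [le_div_iff₀ hx0, one_mul])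
  have hsE : 0 < Real.sqrt E := Real.sqrt_pos.2 hE
  have hEs : Real.sqrt E ≤ Real.sqrt C * s := by
    rw [hs, ← Real.sqrt_mul' _ hxM.le]
    exact Real.sqrt_le_sqrt hEC
  have h4 : q M * s * Real.log (y / x) ≤ D := by
    have h5 : q M * (s * s) * Real.log (y / x) ≤ D * s := by rw [hs2]; linarith
    have h6 : (q M * s * Real.log (y / x)) * s ≤ D * s := by linarith
    exact le_of_mul_le_mul_right h6 hs0
  rw [Real.rpow_neg hE.le, ← Real.sqrt_eq_rpow, div_mul_eq_mul_div, le_div_iff₀ hqM, ← div_eq_mul_inv,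
    le_div_iff₀ hsE]
  have h7 : Real.log (y / x) * q M * Real.sqrt E ≤ Real.log (y / x) * q M * (Real.sqrt C * s) :=
    mul_le_mul_of_nonneg_left hEs (mul_nonneg hL hqM.le)
  have h8 : (q M * s * Real.log (y / x)) * Real.sqrt C ≤ D * Real.sqrt C :=
    mul_le_mul_of_nonneg_right h4 (Real.sqrt_nonneg _)
  linarith

theorem p_X9_core2 {P Q : ℂ[X]} {p q : ℕ → ℝ} (hP : ∀ j, P.coeff j = (p j : ℂ))
    (hp : ∀ j, 0 ≤ p j) (hQ : ∀ j, Q.coeff j = (q j : ℂ)) (hq : ∀ j, 0 ≤ q j) (hq0 : q 0 = 0)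
    {M M' N j₀ : ℕ} (hM : 1 ≤ M) (hMN : M ≤ N) (hpM : 0 < p M)
    (hM' : 1 ≤ M') (hMN' : M' ≤ N) (hqM : 0 < q M')
    (hPN : P.natDegree ≤ N) (hQN : Q.natDegree ≤ N) (hj : N < 2 * j₀) (hjN : j₀ ≤ N)
    (hlt : q j₀ < p j₀) (hmax : ∀ j, j₀ < j → p j = q j) : ¬ Crit P Q := by
  intro hcrit
  obtain ⟨K, hK0, hK⟩ := hcrit.exists_pos
  rw [isBigOWith_iff, eventually_atTop] at hK
  obtain ⟨E₁, hE₁⟩ := hK
  set B := ∑ j ∈ Finset.range (N + 1), |p j - q j| with hB
  set C := ∑ j ∈ Finset.range (N + 1), p j with hC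
  set d := p j₀ - q j₀ with hd
  have hd0 : 0 < d := by simp only [hd]; linarith
  have hC0 : 0 ≤ C := Finset.sum_nonneg fun j _ => hp j
  -- choose x
  obtain ⟨x, hx1, hx2, hx3, hx4⟩ : ∃ x : ℝ, 1 ≤ x ∧ 2 * B / d ≤ x ∧ max E₁ 1 / p M ≤ x ∧
      (N * K) ^ 2 * C / (d / 2) ^ 2 < x := by
    refine ⟨max (max 1 (2 * B / d)) (max (max E₁ 1 / p M)
      ((N * K) ^ 2 * C / (d / 2) ^ 2 + 1)), ?_, ?_, ?_, ?_⟩
    · exact (le_max_left _ _).trans (le_max_left _ _)
    · exact (le_max_right _ _).trans (le_max_left _ _)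
    · exact (le_max_left _ _).trans (le_max_right _ _)
    · exact (lt_add_one _).trans_le ((le_max_right _ _).trans (le_max_right _ _))
  have hx0 : 0 < x := by linarith
  set E := p_X9_F p N x with hE
  have hEE : max E₁ 1 ≤ E := by
    have h1 : max E₁ 1 ≤ p M * x := by
      rw [div_le_iff₀ hpM] at hx3; linarith
    have h2 : p M * x ≤ p M * x ^ M :=
      mul_le_mul_of_nonneg_left (le_self_pow₀ hx1 (by omega)) hpM.le
    have h3 := p_X9_single (N := N) hp hMN hx0.le
    linarith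
  have hE1 : E₁ ≤ E := (le_max_left _ _).trans hEE
  have hE0 : 0 < E := by
    have := (le_max_right E₁ 1).trans hEE
    linarith
  obtain ⟨y, hy0, hy⟩ := p_X9_exists (N := N) hq hq0 hM' hMN' hqM hE0.le
  have hrP : rmin P E = x := p_X9_rmin hP hp hPN hM hMN hpM hx0.le rfl
  have hrQ : rmin Q E = y := p_X9_rmin hQ hq hQN hM' hMN' hqM hy0 hy
  have hbd := hE₁ E hE1
  rw [hrP, hrQ] at hbd
  -- lower bound for the difference
  have hdiff : d / 2 * x ^ j₀ ≤ E - p_X9_F q N x := by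
    have h1 : ∀ j ∈ Finset.range (N + 1), (if j = j₀ then d * x ^ j₀ else 0) -
        |p j - q j| * x ^ (j₀ - 1) ≤ (p j - q j) * x ^ j := by
      intro j _
      rcases lt_trichotomy j j₀ with h | h | h
      · rw [if_neg h.ne, zero_sub]
        have h2 : x ^ j ≤ x ^ (j₀ - 1) := pow_le_pow_right₀ hx1 (by omega)
        have h3 : |p j - q j| * x ^ j ≤ |p j - q j| * x ^ (j₀ - 1) :=
          mul_le_mul_of_nonneg_left h2 (abs_nonneg _)
        have h4 : -|p j - q j| * x ^ j ≤ (p j - q j) * x ^ j :=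
          mul_le_mul_of_nonneg_right (neg_abs_le _) (by positivity)
        linarith
      · rw [if_pos h, h]
        have h3 : 0 ≤ |p j₀ - q j₀| * x ^ (j₀ - 1) := by positivity
        simp only [hd]
        linarith
      · rw [if_neg h.ne', hmax j h, sub_self, abs_zero, zero_mul, zero_mul, sub_zero]
    have h2 := Finset.sum_le_sum h1
    rw [Finset.sum_sub_distrib, Finset.sum_ite_eq', if_pos (Finset.mem_range.2 (by omega)),
      ← Finset.sum_mul, ← hB] at h2
    have h3 : E - p_X9_F q N x = ∑ j ∈ Finset.range (N + 1), (p j - q j) * x ^ j := by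
      rw [hE]
      unfold p_X9_F
      rw [← Finset.sum_sub_distrib]
      exact Finset.sum_congr rfl fun j _ => by ring
    rw [h3]
    refine le_trans ?_ h2
    have h4 : x ^ j₀ = x ^ (j₀ - 1) * x := by
      rw [← pow_succ]; congr 1; omega
    have h5 : B ≤ d / 2 * x := by
      rw [div_le_iff₀ hd0] at hx2; linarith
    have h6 : x ^ (j₀ - 1) * B ≤ x ^ (j₀ - 1) * (d / 2 * x) :=
      mul_le_mul_of_nonneg_left h5 (by positivity)
    rw [h4]
    linarith
  have hpos : 0 < d / 2 * x ^ j₀ := by positivity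
  have hxy : x < y := by
    by_contra hc
    push Not at hc
    rcases hc.lt_or_eq with h | h
    · have := p_X9_lt hq hM' hMN' hqM hy0 h
      linarith
    · rw [h] at hy
      linarith
  have hy0' : 0 < y := hx0.trans hxy
  have hupp := p_X9_upp (N := N) hq hx0 hxy.le
  rw [hy] at hupp
  have hL : 0 ≤ Real.log (y / x) := Real.log_nonneg (by rw [le_div_iff₀ hx0, one_mul]; exact hxy.le)
  have hneg : Real.log (x / y) = - Real.log (y / x) := by rw [← Real.log_inv, inv_div]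
  rw [hneg, norm_neg, Real.norm_of_nonneg hL, Real.norm_of_nonneg (Real.rpow_nonneg hE0.le _),
    Real.rpow_neg hE0.le, ← Real.sqrt_eq_rpow] at hbd
  have hsE : 0 < Real.sqrt E := Real.sqrt_pos.2 hE0
  have hEs : Real.sqrt E * Real.sqrt E = E := Real.mul_self_sqrt hE0.le
  have hN0 : (0:ℝ) ≤ N := Nat.cast_nonneg N
  have h1 : E * Real.log (y / x) ≤ K * Real.sqrt E := by
    calc E * Real.log (y / x) ≤ E * (K * (Real.sqrt E)⁻¹) := mul_le_mul_of_nonneg_left hbd hE0.le
      _ = K * Real.sqrt E := by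
        nth_rewrite 1 [← hEs]
        field_simp
  have h2 : d / 2 * x ^ j₀ ≤ N * K * Real.sqrt E := by
    have h3 : N * E * Real.log (y / x) ≤ N * (K * Real.sqrt E) := by
      rw [mul_assoc]
      exact mul_le_mul_of_nonneg_left h1 hN0
    linarith
  have h3 : (d / 2 * x ^ j₀) ^ 2 ≤ (N * K * Real.sqrt E) ^ 2 :=
    pow_le_pow_left₀ hpos.le h2 2
  rw [mul_pow, mul_pow, Real.sq_sqrt hE0.le, ← pow_mul] at h3
  have hEC : E ≤ C * x ^ N := p_X9_big hp hx1
  have h4 : (N * K) ^ 2 * E ≤ (N * K) ^ 2 * (C * x ^ N) :=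
    mul_le_mul_of_nonneg_left hEC (by positivity)
  have h5 : x ^ (N + 1) ≤ x ^ (j₀ * 2) := pow_le_pow_right₀ hx1 (by omega)
  have h6 : (d / 2) ^ 2 * x ^ (N + 1) ≤ (d / 2) ^ 2 * x ^ (j₀ * 2) :=
    mul_le_mul_of_nonneg_left h5 (by positivity)
  have h7 : ((d / 2) ^ 2 * x) * x ^ N ≤ ((N * K) ^ 2 * C) * x ^ N := by
    rw [pow_succ x N] at h6
    linarith
  have h8 : (d / 2) ^ 2 * x ≤ (N * K) ^ 2 * C := le_of_mul_le_mul_right h7 (by positivity)
  rw [div_lt_iff₀ (by positivity)] at hx4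
  linarith

theorem p_X9_symm {P Q : ℂ[X]} (h : Crit P Q) : Crit Q P := by
  unfold Crit at h ⊢
  have h1 : (fun E : ℝ => Real.log (rmin Q E / rmin P E)) =
      fun E : ℝ => - Real.log (rmin P E / rmin Q E) := by
    funext E
    rw [← Real.log_inv, inv_div]
  rw [h1]
  exact h.neg_left

theorem p_X9_lead {P : ℂ[X]} {p : ℕ → ℝ} (hP : ∀ j, P.coeff j = (p j : ℂ)) (hp : ∀ j, 0 ≤ p j)
    (h0 : P.coeff 0 = 0) (hne : P ≠ 0) : 1 ≤ P.natDegree ∧ 0 < p P.natDegree := by
  have h1 : P.coeff P.natDegree ≠ 0 := by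
    rw [Polynomial.coeff_natDegree]
    exact leadingCoeff_ne_zero.2 hne
  constructor
  · by_contra hc
    have : P.natDegree = 0 := by omega
    rw [this] at h1
    exact h1 h0
  · refine lt_of_le_of_ne (hp _) ?_
    intro h
    apply h1
    rw [hP, ← h]
    simp

theorem p_X9 : S_X9 := by
  intro P Q p q hP hp hQ hq hP0 hQ0 hPne hQne
  obtain ⟨hM, hpM⟩ := p_X9_lead hP hp hP0 hPne
  obtain ⟨hM', hqM⟩ := p_X9_lead hQ hq hQ0 hQne
  have hp0 : p 0 = 0 := by
    have := hP 0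
    rw [hP0] at this
    exact_mod_cast this.symm
  have hq0 : q 0 = 0 := by
    have := hQ 0
    rw [hQ0] at this
    exact_mod_cast this.symm
  have hpbig : ∀ j, p j ≠ 0 → j ≤ P.natDegree := by
    intro j hj
    apply Polynomial.le_natDegree_of_ne_zero
    rw [hP j]
    exact_mod_cast hj
  have hqbig : ∀ j, q j ≠ 0 → j ≤ Q.natDegree := by
    intro j hj
    apply Polynomial.le_natDegree_of_ne_zero
    rw [hQ j]
    exact_mod_cast hj
  constructor
  · -- Crit implies the coefficient condition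
    intro hcrit
    have key : ∀ j, max P.natDegree Q.natDegree < 2 * j → p j = q j := by
      by_contra hcon
      push Not at hcon
      obtain ⟨j₁, hj₁, hne⟩ := hcon
      set N := max P.natDegree Q.natDegree with hN
      have hle : ∀ j, p j ≠ q j → j ≤ N := by
        intro j hj
        by_contra hc
        apply hj
        have h1 : p j = 0 := by
          by_contra h
          exact hc ((hpbig j h).trans (le_max_left _ _))
        have h2 : q j = 0 := by
          by_contra h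
          exact hc ((hqbig j h).trans (le_max_right _ _))
        rw [h1, h2]
      classical
      let j₀ := Nat.findGreatest (fun j => p j ≠ q j) N
      have hj₀ : p j₀ ≠ q j₀ := Nat.findGreatest_spec (P := fun j => p j ≠ q j) (hle j₁ hne) hne
      have hj₁₀ : j₁ ≤ j₀ := Nat.le_findGreatest (hle j₁ hne) hne
      have hmax : ∀ j, j₀ < j → p j = q j := by
        intro j hj
        by_contra h
        have := Nat.le_findGreatest (P := fun j => p j ≠ q j) (hle j h) h
        exact absurd hj (not_lt.2 this)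
      have hjN : j₀ ≤ N := hle j₀ hj₀
      have hj2 : N < 2 * j₀ := by omega
      rcases lt_or_gt_of_ne hj₀ with h | h
      · exact p_X9_core2 hQ hq hP hp hp0 hM' (le_max_right _ _) hqM hM (le_max_left _ _) hpM
          (le_max_right _ _) (le_max_left _ _) hj2 hjN h (fun j hj => (hmax j hj).symm)
          (p_X9_symm hcrit)
      · exact p_X9_core2 hP hp hQ hq hq0 hM (le_max_left _ _) hpM hM' (le_max_right _ _) hqM
          (le_max_left _ _) (le_max_right _ _) hj2 hjN h hmax hcrit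
    have hdeg : P.natDegree = Q.natDegree := by
      by_contra hne
      rcases lt_or_gt_of_ne hne with h | h
      · have h1 := key Q.natDegree (by rw [max_eq_right h.le]; omega)
        have h2 := hpbig Q.natDegree (by rw [h1]; exact hqM.ne')
        omega
      · have h1 := key P.natDegree (by rw [max_eq_left h.le]; omega)
        have h2 := hqbig P.natDegree (by rw [← h1]; exact hpM.ne')
        omega
    refine ⟨hdeg, fun j hj => ?_⟩
    rw [hP, hQ, key j (by rw [← hdeg, max_self]; exact hj)]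
  · -- the coefficient condition implies Crit
    rintro ⟨hdeg, hco⟩
    rw [← hdeg] at hM' hqM
    have heq : ∀ j, P.natDegree < 2 * j → p j = q j := by
      intro j hj
      have := hco j hj
      rw [hP, hQ] at this
      exact_mod_cast this
    set M := P.natDegree with hMdef
    set K1 := (∑ j ∈ Finset.range (M + 1), |p j - q j|) *
      Real.sqrt (∑ j ∈ Finset.range (M + 1), p j) / q M with hK1
    set K2 := (∑ j ∈ Finset.range (M + 1), |q j - p j|) *
      Real.sqrt (∑ j ∈ Finset.range (M + 1), q j) / p M with hK2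
    apply IsBigO.of_bound (max K1 K2)
    rw [eventually_atTop]
    refine ⟨max 1 (max (p_X9_F p M 1) (p_X9_F q M 1)), fun E hE => ?_⟩
    have hE1 : 1 ≤ E := (le_max_left _ _).trans hE
    have hEp : p_X9_F p M 1 ≤ E := ((le_max_left _ _).trans (le_max_right _ _)).trans hE
    have hEq : p_X9_F q M 1 ≤ E := ((le_max_right _ _).trans (le_max_right _ _)).trans hE
    have hE0 : 0 < E := by linarith
    obtain ⟨x, hx0, hx⟩ := p_X9_exists (N := M) hp hp0 hM le_rfl hpM hE0.le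
    obtain ⟨y, hy0, hy⟩ := p_X9_exists (N := M) hq hq0 hM' le_rfl hqM hE0.le
    have hx1 : 1 ≤ x := by
      by_contra hc
      push Not at hc
      have := p_X9_lt (N := M) hp hM le_rfl hpM hx0 hc
      linarith
    have hy1 : 1 ≤ y := by
      by_contra hc
      push Not at hc
      have := p_X9_lt (N := M) hq hM' le_rfl hqM hy0 hc
      linarith
    have hrP : rmin P E = x := p_X9_rmin hP hp le_rfl hM le_rfl hpM hx0 hx
    have hrQ : rmin Q E = y := p_X9_rmin hQ hq hdeg.ge hM' le_rfl hqM hy0 hy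
    rw [hrP, hrQ]
    have hrp : 0 ≤ E ^ (-(1 / 2) : ℝ) := Real.rpow_nonneg hE0.le _
    rw [Real.norm_of_nonneg hrp]
    rcases le_total x y with h | h
    · have h1 := p_X9_core1 hp hq hM hqM heq hx1 h hE0 hx hy
      have hL : 0 ≤ Real.log (y / x) :=
        Real.log_nonneg (by rw [le_div_iff₀ (by linarith), one_mul]; exact h)
      have hneg : Real.log (x / y) = - Real.log (y / x) := by rw [← Real.log_inv, inv_div]
      rw [hneg, norm_neg, Real.norm_of_nonneg hL]
      exact h1.trans (mul_le_mul_of_nonneg_right (le_max_left _ _) hrp)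
    · have h1 := p_X9_core1 hq hp hM' hpM (fun j hj => (heq j hj).symm) hy1 h hE0 hy hx
      have hL : 0 ≤ Real.log (x / y) :=
        Real.log_nonneg (by rw [le_div_iff₀ (by linarith), one_mul]; exact h)
      rw [Real.norm_of_nonneg hL]
      exact h1.trans (mul_le_mul_of_nonneg_right (le_max_right _ _) hrp)

end HillRoots
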