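import Pool.Agent.Lib.MP_e63cf8_mp.StmG

/-!
# Z3: the generic case of the algebraic criterion
-/

set_option autoImplicit false

open Polynomial

namespace HillRoots

private lemma p_Z3_gam (P : ℂ[X]) (hM : 1 ≤ P.natDegree) :
    gam P 1 = P.coeff (P.natDegree - 1) / (P.natDegree * P.leadingCoeff) := by
  unfold gam
  have h1 : (P.reverse).coeff 1 = P.coeff (P.natDegree - 1) := by
    rw [coeff_reverse, revAt_le hM]
  rw [Finset.sum_range_succ, Finset.sum_range_one]
  simp only [Finset.prod_range_zero, Finset.prod_range_one, pow_zero, pow_one, Nat.factorial_zero,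
    Nat.factorial_one, Nat.cast_one, Nat.cast_zero, sub_zero, coeff_sub, coeff_C_mul, h1,
    coeff_one]
  simp only [one_ne_zero, ↓reduceIte, mul_zero, zero_add, sub_zero, div_one, one_mul]
  rw [div_eq_mul_inv, div_eq_mul_inv, mul_inv]
  ring

private lemma p_Z3_lex {n : ℕ} (hn : 0 < n) {a b : Fin n → ℝ} (h : toLex a ≤ toLex b) :
    a ⟨0, hn⟩ ≤ b ⟨0, hn⟩ := by
  rcases h.eq_or_lt with h | h
  · rw [toLex_inj] at h
    rw [h]
  · obtain ⟨i, hi1, hi2⟩ := h
    rcases Nat.eq_zero_or_pos i.1 with h0 | h0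
    · have : i = ⟨0, hn⟩ := Fin.ext h0
      rw [this] at hi2
      exact le_of_lt hi2
    · exact le_of_eq (hi1 ⟨0, hn⟩ h0)

theorem p_Z3 (hX2 : S_X2) : S_Z3 := by
  intro P hP0 hM hslit c c₁ hc hc₁
  have hM1 : 1 ≤ P.natDegree := by omega
  have hMr : (0 : ℝ) < (P.natDegree : ℝ) := by exact_mod_cast hM1
  have hP : P ≠ 0 := by
    rintro rfl
    simp at hM
  have hlc : P.leadingCoeff ≠ 0 := leadingCoeff_ne_zero.mpr hP
  have hn : 0 < (P.natDegree - 1) / 2 := by omega
  -- first entries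
  have hfirst : ∀ d d' : ℂ, lexvec P d' ≤ lexvec P d → (gam P 1 * d').re ≤ (gam P 1 * d).re := by
    intro d d' h
    have := p_Z3_lex hn h
    simpa using this
  have hprim : IsPrimitiveRoot (om P.natDegree) P.natDegree := by
    unfold om
    exact Complex.isPrimitiveRoot_exp P.natDegree (by omega)
  have hc0 : c ≠ 0 := by
    rintro rfl
    have := hc.1
    rw [zero_pow (by omega)] at this
    exact hlc this.symm
  have hξ : (gam P 1 * c) ^ P.natDegree ∈ Complex.slitPlane := by
    have e : (gam P 1 * c) ^ P.natDegree = (((P.natDegree : ℝ) ^ P.natDegree)⁻¹ : ℝ) *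
        (P.coeff (P.natDegree - 1) ^ P.natDegree / P.leadingCoeff ^ (P.natDegree - 1)) := by
      rw [p_Z3_gam P hM1, mul_pow, hc.1, div_pow, mul_pow]
      have e2 : P.leadingCoeff ^ P.natDegree =
          P.leadingCoeff ^ (P.natDegree - 1) * P.leadingCoeff := by
        rw [← pow_succ]
        congr 1
        omega
      have hMc : ((P.natDegree : ℂ)) ^ P.natDegree ≠ 0 :=
        pow_ne_zero _ (by exact_mod_cast (by omega : P.natDegree ≠ 0))
      have hl : P.leadingCoeff ^ (P.natDegree - 1) ≠ 0 := pow_ne_zero _ hlc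
      rw [e2]
      push_cast
      field_simp
    rw [e]
    have hpos : 0 < ((P.natDegree : ℝ) ^ P.natDegree)⁻¹ := by positivity
    rw [Complex.mem_slitPlane_iff] at hslit ⊢
    rw [Complex.re_ofReal_mul, Complex.im_ofReal_mul]
    rcases hslit with h | h
    · exact Or.inl (mul_pos hpos h)
    · exact Or.inr (mul_ne_zero hpos.ne' h)
  have hX := hX2 P.natDegree (gam P 1 * c) hM1 hξ (by
    intro l _
    rw [mul_assoc]
    refine hfirst _ _ (hc.2 _ ?_)
    rw [mul_pow, hc.1, ← pow_mul, mul_comm l, pow_mul, hprim.pow_eq_one, one_pow, mul_one])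
  have hroot : (c₁ / c) ^ P.natDegree = 1 := by
    rw [div_pow, hc₁.1, hc.1, div_self hlc]
  have : NeZero P.natDegree := ⟨by omega⟩
  obtain ⟨l, hl, hl2⟩ := hprim.eq_pow_of_pow_eq_one hroot
  have hc1 : c₁ = c * om P.natDegree ^ l := by
    rw [hl2]
    field_simp
  rw [pow_one, pow_one]
  rcases Nat.eq_zero_or_pos l with h0 | h0
  · rw [hc1, h0, pow_zero, mul_one]
  · exfalso
    have h1 := hX l h0 hl
    have h2 := hfirst _ _ (hc₁.2 c hc.1)
    rw [hc1, ← mul_assoc] at h2
    linarith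

end HillRoots
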